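import Pool.Agent.P.MP_379466_co.Pair

/-!
Inductions along the orbits of pairs of nearby lines; the relation `Up` is open.
-/

set_option autoImplicit false

namespace Pool.Agent.P.MP_379466_co

open Set Metric

theorem ch_sign_pow {s : ℝ} (hs : s = 1 ∨ s = -1) (k : ℕ) :
    (-1) ^ k * s = 1 ∨ (-1) ^ k * s = -1 := by
  rcases neg_one_pow_eq_or ℝ k with h | h <;> rcases hs with rfl | rfl <;> simp [h]

theorem ch_sign_neg {s : ℝ} (hs : s = 1 ∨ s = -1) : -s = 1 ∨ -s = -1 := by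
  rcases hs with rfl | rfl <;> simp

theorem ch_sign_succ (s : ℝ) (k : ℕ) : (-1) ^ (k + 1) * s = -((-1) ^ k * s) := by ring

theorem ch_An_neg (s : ℝ) (l₁ l₂ : Ln) : An (-s) l₁ l₂ = -An s l₁ l₂ := by
  unfold An; ring

namespace Table

variable {n : ℕ} (T : Table (Fin n))

open Classical in
theorem ch_cnt_succ (m k : ℕ) (v : St n) :
    T.cnt m (k + 1) v = T.cnt m k v + if T.F^[k] v ∈ T.Mk m then 1 else 0 := by
  unfold cnt
  rw [Finset.card_filter, Finset.card_filter, Finset.sum_range_succ]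

open Classical in
theorem ch_cnt_succ' (m k : ℕ) (v : St n) :
    T.cnt m (k + 1) v = T.cnt m k (T.F v) + if v ∈ T.Mk m then 1 else 0 := by
  unfold cnt
  rw [Finset.card_filter, Finset.card_filter, Finset.sum_range_succ']
  rfl

theorem ch_cnt_zero (m : ℕ) (v : St n) : T.cnt m 0 v = 0 := by
  simp [cnt]

theorem Fol.ch_mono {j k : ℕ} {v w : St n} (h : T.Fol k v w) (hj : j ≤ k) : T.Fol j v w :=
  ⟨T.domN_mono hj h.1, T.domN_mono hj h.2.1, fun i hi => h.2.2 i (hi.trans hj)⟩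

theorem Fol.ch_next {j k : ℕ} {v w : St n} (h : T.Fol k v w) (hj : j < k) :
    T.F^[j] v ∈ T.Dom ∧ T.F^[j] w ∈ T.Dom ∧ (T.F (T.F^[j] v)).1 = (T.F (T.F^[j] w)).1 := by
  refine ⟨h.1 j hj, h.2.1 j hj, ?_⟩
  have := h.2.2 (j + 1) hj
  rwa [Function.iterate_succ_apply', Function.iterate_succ_apply'] at this

theorem ch_isOpen_cmp (s : ℝ) : IsOpen {q : St n × St n | T.Cmp q.1.1 s q.1.2 q.2.2} := by
  have key : ∀ i, IsOpen {p : Ln × Ln | T.Cmp i s p.1 p.2} := by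
    intro i
    have e : {p : Ln × Ln | T.Cmp i s p.1 p.2} = {p | 0 < An s p.1 p.2} ∩
        ⋂ k ∈ {k | k ≠ i}, {p : Ln × Ln | ∃ z ∈ T.K k, (p, z) ∈
          {y : (Ln × Ln) × ℂ | 0 ≤ ip (T.ν i k) (dir y.1.1.1) ∧
            (sd y.1.1 y.2 = 0 ∨ sd y.1.2 y.2 = 0) ∧ Dv s y.1.1 y.1.2 y.2 ≤ 0}}ᶜ := by
      ext p
      simp only [Cmp, mem_ofPred_eq, mem_inter_iff, mem_iInter, mem_compl_iff]
      refine and_congr_right fun _ => forall_congr' fun k => forall_congr' fun _ => ?_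
      constructor
      · rintro h ⟨z, hz, h1, h2, h3⟩
        exact absurd (h h1 z hz h2) (not_lt.2 h3)
      · intro h h1 z hz h2
        by_contra h3
        exact h ⟨z, hz, h1, h2, not_lt.1 h3⟩
    rw [e]
    refine IsOpen.inter (isOpen_lt continuous_const (by unfold An; fun_prop))
      ((toFinite _).isOpen_biInter fun k _ => isOpen_compl_iff.2 ?_)
    refine isClosed_exists_cpt (T.b k).cpt (IsClosed.and (isClosed_le continuous_const (by fun_prop))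
      (IsClosed.and (IsClosed.union (isClosed_eq (by fun_prop) continuous_const)
        (isClosed_eq (by fun_prop) continuous_const))
        (isClosed_le (by unfold Dv; fun_prop) continuous_const)))
  have e : {q : St n × St n | T.Cmp q.1.1 s q.1.2 q.2.2} = ⋃ i, ((fun q : St n × St n => q.1.1) ⁻¹' {i}) ∩
      (fun q : St n × St n => (q.1.2, q.2.2)) ⁻¹' {p : Ln × Ln | T.Cmp i s p.1 p.2} := by
    ext q
    simp
  rw [e]
  exact isOpen_iUnion fun i => IsOpen.inter ((isOpen_discrete _).preimage (by fun_prop))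
    ((key i).preimage (by fun_prop))

/-- Open conditions on the pair of the `j`-th iterates are open on `DomN k × DomN k`. -/
theorem ch_isOpen_iter {j k : ℕ} (hj : j ≤ k) {O : Set (St n × St n)} (hO : IsOpen O) :
    IsOpen ((T.DomN k ×ˢ T.DomN k) ∩
      (fun p : St n × St n => (T.F^[j] p.1, T.F^[j] p.2)) ⁻¹' O) := by
  refine ContinuousOn.isOpen_inter_preimage ?_ ((T.isOpen_domN k).prod (T.isOpen_domN k)) hO
  exact ((T.continuousOn_iter hj).comp continuousOn_fst fun p hp => hp.1).prodMk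
    ((T.continuousOn_iter hj).comp continuousOn_snd fun p hp => hp.2)

end Table

namespace Tab

variable {n : ℕ} (T : Tab n)

/-- The reflection at the end of a flight. -/
theorem ch_step_of_inRel {a b : St n} {s W : ℝ} (hs : s = 1 ∨ s = -1) (ha : a ∈ T.Dom)
    (hb : b ∈ T.Dom) (hab : (T.F a).1 = (T.F b).1) (hd : dL a.2 b.2 ≤ T.δ1)
    (h : T.InRel (T.F a).1 s a.2 b.2 W) (hW : 0 ≤ W) :
    An s a.2 b.2 ≤ An (-s) (T.F a).2 (T.F b).2 ∧ T.Div (T.F a).1 (-s) (T.F a).2 (T.F b).2 W ∧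
      ∀ m, T.F a ∈ T.Mk m → T.Div (T.F a).1 (-s) (T.F a).2 (T.F b).2 (T.lam m * W) := by
  have e₁ := (T.hit_F ha).2
  have e₂ := (T.hit_F hb).2
  rw [← hab] at e₂
  have := T.reflect hs hd h hW
  rw [← e₁, ← e₂] at this
  exact this

theorem ch_step_in {a b : St n} {s W : ℝ} (hs : s = 1 ∨ s = -1) (ha : a ∈ T.Dom)
    (hb : b ∈ T.Dom) (hab : (T.F a).1 = (T.F b).1) (hd : dL a.2 b.2 ≤ T.δ1)
    (h : T.Div a.1 s a.2 b.2 W) : T.InRel (T.F a).1 s a.2 b.2 (W + T.r * An s a.2 b.2) :=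
  T.flight_in hs hd h (T.hit_F ha).1.2 (hab ▸ (T.hit_F hb).1.2.2.1)

/-- One flight and one reflection. -/
theorem ch_step {a b : St n} {s W : ℝ} (hs : s = 1 ∨ s = -1) (ha : a ∈ T.Dom)
    (hb : b ∈ T.Dom) (hab : (T.F a).1 = (T.F b).1) (hd : dL a.2 b.2 ≤ T.δ1)
    (h : T.Div a.1 s a.2 b.2 W) (hW : 0 ≤ W) :
    An s a.2 b.2 ≤ An (-s) (T.F a).2 (T.F b).2 ∧
      T.Div (T.F a).1 (-s) (T.F a).2 (T.F b).2 (W + T.r * An s a.2 b.2) ∧
      ∀ m, T.F a ∈ T.Mk m →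
        T.Div (T.F a).1 (-s) (T.F a).2 (T.F b).2 (T.lam m * (W + T.r * An s a.2 b.2)) :=
  T.ch_step_of_inRel hs ha hb hab hd (T.ch_step_in hs ha hb hab hd h)
    (add_nonneg hW (mul_nonneg T.r_pos.le h.1))

/-- One flight and one reflection backwards in time. -/
theorem ch_rstep {a b : St n} {s W : ℝ} {i : Fin n} (hs : s = 1 ∨ s = -1) (ha : a ∈ T.Dom)
    (hb : b ∈ T.Dom) (hab : (T.F a).1 = (T.F b).1) (hd : dL (T.F a).2 (T.F b).2 ≤ T.δ1)
    (hfree : T.Free i (rev (T.F a).2) (T.F a).1)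
    (h : T.Div i s (rev (T.F a).2) (rev (T.F b).2) W) (hW : 0 ≤ W) :
    T.Free (T.F a).1 (rev a.2) a.1 ∧
      T.Div (T.F a).1 (-s) (rev a.2) (rev b.2)
        (W + T.r * An s (rev (T.F a).2) (rev (T.F b).2)) ∧
      ∀ m, T.dag (T.F a) ∈ T.Mk m → T.Div (T.F a).1 (-s) (rev a.2) (rev b.2)
        (T.lam m * (W + T.r * An s (rev (T.F a).2) (rev (T.F b).2))) := by
  have hd' : dL (rev (T.F a).2) (rev (T.F b).2) ≤ T.δ1 := by rwa [dL_rev]
  have hc : Cross (T.K (T.F a).1) (rev (T.F b).2) := by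
    rw [cross_rev, hab]
    exact T.cross_F hb
  have h1 := T.flight_in hs hd' h hfree hc
  have h2 := T.reflect hs hd' h1 (add_nonneg hW (mul_nonneg T.r_pos.le h.1))
  have e₁ : refl (T.b (T.F a).1) (rev (T.F a).2) = rev a.2 := congrArg Prod.snd (T.dag_F ha)
  have e₂ : refl (T.b (T.F a).1) (rev (T.F b).2) = rev b.2 := by
    rw [hab]
    exact congrArg Prod.snd (T.dag_F hb)
  rw [e₁, e₂] at h2
  refine ⟨(T.hit_rev (T.hit_F ha).1).2, h2.2.1, fun m hm => h2.2.2 m ?_⟩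
  rwa [T.dag_F ha] at hm

theorem chain (m : ℕ) {k : ℕ} {v w : St n} {s W : ℝ} (hs : s = 1 ∨ s = -1) (hf : T.Fol k v w)
    (hd : ∀ j < k, dL (T.F^[j] v).2 (T.F^[j] w).2 ≤ T.δ1) (h : T.Div v.1 s v.2 w.2 W)
    (hW : 0 ≤ W) :
    ∃ W', 0 ≤ W' ∧ T.Div (T.F^[k] v).1 ((-1) ^ k * s) (T.F^[k] v).2 (T.F^[k] w).2 W' ∧
      An s v.2 w.2 ≤ An ((-1) ^ k * s) (T.F^[k] v).2 (T.F^[k] w).2 ∧
      T.lam m ^ T.cnt m k (T.F v) * (W + T.r * An s v.2 w.2) ≤
        W' + T.r * An ((-1) ^ k * s) (T.F^[k] v).2 (T.F^[k] w).2 ∧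
      W + T.r * An s v.2 w.2 + k * (T.r * An s v.2 w.2) ≤
        W' + T.r * An ((-1) ^ k * s) (T.F^[k] v).2 (T.F^[k] w).2 := by
  induction k with
  | zero =>
    refine ⟨W, hW, ?_⟩
    simp only [pow_zero, one_mul, Function.iterate_zero, id, Table.ch_cnt_zero, Nat.cast_zero,
      zero_mul, add_zero, le_refl, and_true]
    exact h
  | succ k ih =>
    obtain ⟨W', hW', d, a₁, a₂, a₃⟩ := ih (hf.ch_mono _ k.le_succ) fun j hj => hd j (by omega)
    obtain ⟨ha, hb, hab⟩ := hf.ch_next _ k.lt_succ_self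
    obtain ⟨s₁, s₂, s₃⟩ := T.ch_step (ch_sign_pow hs k) ha hb hab (hd k k.lt_succ_self) d hW'
    have hr := T.r_pos
    have hl := T.one_lt_lam m
    have hA := d.1
    have hU : 0 ≤ W' + T.r * An ((-1) ^ k * s) (T.F^[k] v).2 (T.F^[k] w).2 :=
      add_nonneg hW' (mul_nonneg hr.le hA)
    have hA0 := h.1
    have hm₁ := mul_le_mul_of_nonneg_left (a₁.trans s₁) hr.le
    have hm₂ := mul_nonneg hr.le hA0
    rw [T.ch_cnt_succ, ← Function.iterate_succ_apply, Function.iterate_succ_apply',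
      Function.iterate_succ_apply', ch_sign_succ]
    push_cast
    split_ifs with hm
    · have hm₃ := mul_le_mul_of_nonneg_left a₂ (zero_le_one.trans hl.le)
      have hm₄ := mul_le_mul_of_nonneg_right hl.le hU
      refine ⟨_, mul_nonneg (by linarith) hU, s₃ m hm, a₁.trans s₁, ?_, ?_⟩
      · rw [pow_succ, mul_comm _ (T.lam m), mul_assoc]
        linarith
      · linarith
    · refine ⟨_, hU, s₂, a₁.trans s₁, ?_, ?_⟩
      · rw [add_zero]
        linarith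
      · linarith

theorem chain_post (m : ℕ) {k : ℕ} {v w : St n} {s W : ℝ} (hs : s = 1 ∨ s = -1)
    (hf : T.Fol (k + 1) v w) (hd : ∀ j ≤ k, dL (T.F^[j] v).2 (T.F^[j] w).2 ≤ T.δ1)
    (h : T.Div v.1 s v.2 w.2 W) (hW : 0 ≤ W) :
    ∃ W', T.PostRel (T.F^[k + 1] v).1 ((-1) ^ k * s) (T.F^[k + 1] v).2 (T.F^[k + 1] w).2 W' ∧
      T.lam m ^ T.cnt m k (T.F v) * (W + T.r * An s v.2 w.2) ≤ W' ∧
      W + T.r * An s v.2 w.2 + k * (T.r * An s v.2 w.2) ≤ W' := by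
  obtain ⟨W', -, d, -, a₂, a₃⟩ := T.chain m hs (hf.ch_mono _ k.le_succ) (fun j hj => hd j hj.le) h hW
  obtain ⟨ha, hb, hab⟩ := hf.ch_next _ k.lt_succ_self
  refine ⟨_, ?_, a₂, a₃⟩
  rw [Function.iterate_succ_apply', Function.iterate_succ_apply']
  have e₁ : T.inL (T.F (T.F^[k] v)).1 (T.F (T.F^[k] v)).2 = (T.F^[k] v).2 := by
    rw [(T.hit_F ha).2, T.inL_refl]
  have e₂ : T.inL (T.F (T.F^[k] v)).1 (T.F (T.F^[k] w)).2 = (T.F^[k] w).2 := by
    rw [(T.hit_F hb).2, hab, T.inL_refl]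
  unfold PostRel
  rw [e₁, e₂]
  exact ⟨hd k le_rfl, T.ch_step_in (ch_sign_pow hs k) ha hb hab (hd k le_rfl) d⟩

theorem rev_bound (m : ℕ) {k : ℕ} {v w : St n} {s : ℝ} (hs : s = 1 ∨ s = -1) (hf : T.Fol k v w)
    (hd : ∀ j ≤ k, dL (T.F^[j] v).2 (T.F^[j] w).2 ≤ T.δ1) {l : Fin n}
    (h₁ : T.Free l (rev (T.F^[k] v).2) (T.F^[k] v).1)
    (h₂ : T.Free l (rev (T.F^[k] w).2) (T.F^[k] v).1)
    (h : T.Div l s (rev (T.F^[k] v).2) (rev (T.F^[k] w).2) 0) :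
    ∀ j ≤ k, dL (T.F^[j] v).2 (T.F^[j] w).2 ≤
      T.C2 * T.wt m j (T.dag (T.F^[j] v)) * dL v.2 w.2 := by
  have hr := T.r_pos
  have hl := T.one_lt_lam m
  have hP : ∀ j ≤ k, ∀ (i : Fin n) (σ W : ℝ), (σ = 1 ∨ σ = -1) → 0 ≤ W →
      T.Free i (rev (T.F^[j] v).2) (T.F^[j] v).1 →
      T.Div i σ (rev (T.F^[j] v).2) (rev (T.F^[j] w).2) W →
      T.lam m ^ T.cnt m j (T.dag (T.F^[j] v)) *
        (W + T.r * An σ (rev (T.F^[j] v).2) (rev (T.F^[j] w).2)) ≤ (2 + T.D) * dL v.2 w.2 := by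
    intro j
    induction j with
    | zero =>
      intro _ i σ W hσ _ _ d
      have := Table.Div.le_dL _ hσ d
      rw [dL_rev] at this
      rw [T.ch_cnt_zero, pow_zero, one_mul]
      exact this
    | succ j ih =>
      intro hj i σ W hσ hW hfree d
      obtain ⟨ha, hb, hab⟩ := hf.ch_next _ (show j < k by omega)
      have hdj := hd (j + 1) hj
      rw [Function.iterate_succ_apply', Function.iterate_succ_apply'] at hdj d ⊢
      rw [Function.iterate_succ_apply'] at hfree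
      obtain ⟨s₁, s₂, s₃⟩ := T.ch_rstep hσ ha hb hab hdj hfree d hW
      have hU : 0 ≤ W + T.r * An σ (rev (T.F (T.F^[j] v)).2) (rev (T.F (T.F^[j] w)).2) :=
        add_nonneg hW (mul_nonneg hr.le d.1)
      have hp : 0 ≤ T.lam m ^ T.cnt m j (T.dag (T.F^[j] v)) := pow_nonneg (by linarith) _
      have hA := mul_nonneg hp (mul_nonneg hr.le s₂.1)
      rw [T.ch_cnt_succ', (T.F_dag_F ha).2]
      split_ifs with hm
      · have := ih (by omega) _ _ _ (ch_sign_neg hσ) (mul_nonneg (by linarith) hU) s₁ (s₃ m hm)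
        rw [mul_add] at this
        rw [pow_succ, mul_assoc]
        linarith
      · have := ih (by omega) _ _ _ (ch_sign_neg hσ) hU s₁ s₂
        rw [mul_add] at this
        rw [add_zero]
        linarith
  have hQ : ∀ t j, j + t = k → ∃ (i : Fin n) (σ : ℝ), (σ = 1 ∨ σ = -1) ∧
      T.Free i (rev (T.F^[j] v).2) (T.F^[j] v).1 ∧
      T.Div i σ (rev (T.F^[j] v).2) (rev (T.F^[j] w).2) 0 := by
    intro t
    induction t with
    | zero =>
      intro j hj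
      obtain rfl : j = k := hj
      exact ⟨l, s, hs, h₁, h⟩
    | succ t ih =>
      intro j hj
      obtain ⟨i, σ, hσ, hfree, d⟩ := ih (j + 1) (by omega)
      obtain ⟨ha, hb, hab⟩ := hf.ch_next _ (show j < k by omega)
      have hdj := hd (j + 1) (by omega)
      rw [Function.iterate_succ_apply', Function.iterate_succ_apply'] at hdj d
      rw [Function.iterate_succ_apply'] at hfree
      obtain ⟨s₁, s₂, -⟩ := T.ch_rstep hσ ha hb hab hdj hfree d le_rfl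
      exact ⟨_, _, ch_sign_neg hσ, s₁,
        s₂.mono _ (add_nonneg le_rfl (mul_nonneg hr.le d.1))⟩
  intro j hj
  obtain ⟨i, σ, hσ, hfree, d⟩ := hQ (k - j) j (by omega)
  obtain ⟨W, hW, d', hsz⟩ := Table.Div.size _ hσ
    (by rw [dL_rev]; exact (hd j hj).trans T.δ1_le_one) d
  have h3 := hP j hj i σ W hσ hW hfree d'
  rw [dL_rev] at hsz
  have hp : 0 < T.lam m ^ T.cnt m j (T.dag (T.F^[j] v)) := pow_pos (by linarith) _
  have hC : 0 ≤ T.C1 := zero_le_one.trans T.one_le_C1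
  have h4 := (le_inv_mul_iff₀ hp).2 h3
  refine hsz.trans ((mul_le_mul_of_nonneg_left h4 hC).trans (le_of_eq ?_))
  unfold Table.C2 Table.wt
  ring

theorem sandwich {k : ℕ} {v y w : St n} {s : ℝ} (hs : s = 1 ∨ s = -1) (hf : T.Fol k v w)
    (hd : ∀ j < k, T.C3 * dL (T.F^[j] v).2 (T.F^[j] w).2 ≤ T.δ2) (hy : y.1 = v.1)
    (hc : Cross (T.K v.1) y.2) (d₁ : T.Div v.1 s v.2 y.2 0) (d₂ : T.Div v.1 s y.2 w.2 0)
    (e₁ : dL v.2 y.2 ≤ T.δ1) (e₂ : dL y.2 w.2 ≤ T.δ1) :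
    T.Fol k v y ∧ ∀ j ≤ k,
      T.Div (T.F^[j] v).1 ((-1) ^ j * s) (T.F^[j] v).2 (T.F^[j] y).2 0 ∧
      T.Div (T.F^[j] v).1 ((-1) ^ j * s) (T.F^[j] y).2 (T.F^[j] w).2 0 ∧
      dL (T.F^[j] v).2 (T.F^[j] y).2 ≤ T.δ1 ∧ dL (T.F^[j] y).2 (T.F^[j] w).2 ≤ T.δ1 ∧
      dL (T.F^[j] v).2 (T.F^[j] y).2 ≤ T.C3 * dL (T.F^[j] v).2 (T.F^[j] w).2 := by
  induction k with
  | zero =>
    refine ⟨⟨hf.1, fun j hj => absurd hj (Nat.not_lt_zero j), fun j hj => ?_⟩, fun j hj => ?_⟩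
    · obtain rfl : j = 0 := by omega
      exact hy.symm
    · obtain rfl : j = 0 := by omega
      simp only [pow_zero, one_mul, Function.iterate_zero, id]
      exact ⟨d₁, d₂, e₁, e₂, (T.sand_dL hs d₁ d₂ e₁ e₂).1⟩
  | succ k ih =>
    obtain ⟨hfy, hall⟩ := ih (hf.ch_mono _ k.le_succ) fun j hj => hd j (by omega)
    obtain ⟨ha, hb, hab⟩ := hf.ch_next _ k.lt_succ_self
    obtain ⟨c₁, c₂, c₃, c₄, -⟩ := hall k le_rfl
    have hσ := ch_sign_pow hs k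
    have iy : (T.F^[k] v).1 = (T.F^[k] y).1 := hfy.2.2 k le_rfl
    have iw : (T.F^[k] v).1 = (T.F^[k] w).1 := hf.2.2 k k.le_succ
    have f₁ := (T.hit_F ha).1.2
    have f₂ : T.Free (T.F^[k] v).1 (T.F^[k] w).2 (T.F (T.F^[k] v)).1 := by
      rw [iw, hab]
      exact (T.hit_F hb).1.2
    have f₃ := T.sand_free hσ f₁ f₂ c₁ c₂ c₃ c₄
    have hcy : Cross (T.K (T.F^[k] y).1) (T.F^[k] y).2 :=
      T.cross_iter (by rw [hy]; exact hc) hfy.2.1 le_rfl
    have hhit : T.Hit (T.F^[k] y).1 (T.F^[k] y).2 (T.F (T.F^[k] v)).1 := ⟨hcy, iy ▸ f₃⟩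
    have hyd : T.F^[k] y ∈ T.Dom := ⟨_, hhit⟩
    have hFy := T.F_of_hit hhit
    have hay : (T.F (T.F^[k] v)).1 = (T.F (T.F^[k] y)).1 := by rw [hFy]
    obtain ⟨g₁, g₂⟩ := T.sand_dL hσ c₁ c₂ c₃ c₄
    have hdk := hd k k.lt_succ_self
    have n₁ : dL (T.F (T.F^[k] v)).2 (T.F (T.F^[k] y)).2 ≤ T.δ1 := by
      rw [(T.hit_F ha).2, hFy]
      exact (T.hrefl _ _ _ f₁.2.1 f₃.2.1 (g₁.trans hdk)).le
    have n₂ : dL (T.F (T.F^[k] y)).2 (T.F (T.F^[k] w)).2 ≤ T.δ1 := by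
      rw [(T.hit_F hb).2, hFy, ← hab]
      exact (T.hrefl _ _ _ f₃.2.1 f₂.2.1 (g₂.trans hdk)).le
    have hr := T.r_pos
    have m₁ := (T.ch_step hσ ha hyd hay c₃ c₁ le_rfl).2.1.mono _
      (add_nonneg le_rfl (mul_nonneg hr.le c₁.1))
    have m₂ := (T.ch_step hσ hyd hb (hay.symm.trans hab) c₄ (iy ▸ c₂) le_rfl).2.1.mono _
      (add_nonneg le_rfl (mul_nonneg hr.le c₂.1))
    rw [← hay] at m₂
    refine ⟨⟨hf.1, T.domN_succ'.2 ⟨hfy.2.1, hyd⟩, fun j hj => ?_⟩, fun j hj => ?_⟩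
    · rcases hj.eq_or_lt with rfl | hj
      · rw [Function.iterate_succ_apply', Function.iterate_succ_apply']
        exact hay
      · exact hfy.2.2 j (by omega)
    · rcases hj.eq_or_lt with rfl | hj
      · rw [Function.iterate_succ_apply', Function.iterate_succ_apply',
          Function.iterate_succ_apply', ch_sign_succ]
        exact ⟨m₁, m₂, n₁, n₂, (T.sand_dL (ch_sign_neg hσ) m₁ m₂ n₁ n₂).1⟩
      · exact hall j (by omega)

theorem isOpen_folNear (k : ℕ) (δ : ℝ) :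
    IsOpen {p : St n × St n | T.Fol k p.1 p.2 ∧ T.Near k δ p.1 p.2} := by
  have hO : IsOpen {q : St n × St n | q.1.1 = q.2.1 ∧ dL q.1.2 q.2.2 < δ} := by
    refine IsOpen.inter ?_ (isOpen_lt (f := fun q : St n × St n => dL q.1.2 q.2.2)
      (by fun_prop) continuous_const)
    exact (isOpen_discrete {x : Fin n × Fin n | x.1 = x.2}).preimage
      (f := fun q : St n × St n => (q.1.1, q.2.1)) (by fun_prop)
  have e : {p : St n × St n | T.Fol k p.1 p.2 ∧ T.Near k δ p.1 p.2} =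
      ⋂ j ∈ Iic k, ((T.DomN k ×ˢ T.DomN k) ∩ (fun p : St n × St n => (T.F^[j] p.1, T.F^[j] p.2)) ⁻¹'
        {q : St n × St n | q.1.1 = q.2.1 ∧ dL q.1.2 q.2.2 < δ}) := by
    ext p
    simp only [Table.Fol, Table.Near, mem_ofPred_eq, mem_iInter, mem_inter_iff, mem_prod,
      mem_preimage, mem_Iic]
    constructor
    · rintro ⟨⟨h1, h2, h3⟩, h4⟩ j hj
      exact ⟨⟨h1, h2⟩, h3 j hj, h4 j hj⟩
    · intro h
      exact ⟨⟨(h k le_rfl).1.1, (h k le_rfl).1.2, fun j hj => (h j hj).2.1⟩,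
        fun j hj => (h j hj).2.2⟩
  rw [e]
  exact (finite_Iic k).isOpen_biInter fun j hj => T.ch_isOpen_iter hj hO

theorem isOpen_up (s : ℝ) : IsOpen {p : St n × St n | T.Up s p.1 p.2} := by
  have e : {p : St n × St n | T.Up s p.1 p.2} = ⋃ k : ℕ,
      {p : St n × St n | T.Fol k p.1 p.2 ∧ T.Near k T.δ1 p.1 p.2} ∩
        ((T.DomN k ×ˢ T.DomN k) ∩ (fun p : St n × St n => (T.F^[k] p.1, T.F^[k] p.2)) ⁻¹'
          {q : St n × St n | T.Cmp q.1.1 ((-1) ^ k * s) q.1.2 q.2.2}) := by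
    ext p
    simp only [Up, mem_ofPred_eq, mem_iUnion, mem_inter_iff, mem_prod, mem_preimage]
    refine exists_congr fun k => ?_
    constructor
    · rintro ⟨h1, h2, h3⟩
      exact ⟨⟨h1, h2⟩, ⟨h1.1, h1.2.1⟩, h3⟩
    · rintro ⟨⟨h1, h2⟩, -, h3⟩
      exact ⟨h1, h2, h3⟩
  rw [e]
  exact isOpen_iUnion fun k => (T.isOpen_folNear k _).inter
    (T.ch_isOpen_iter le_rfl (T.ch_isOpen_cmp _))

/-- After the lines have crossed the signed angle stays positive. -/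
theorem ch_an_pos_of_cmp {j k : ℕ} {v w : St n} {s : ℝ} (hs : s = 1 ∨ s = -1) (hjk : j ≤ k)
    (hf : T.Fol k v w) (hn : T.Near k T.δ1 v w)
    (h : T.Cmp (T.F^[j] v).1 ((-1) ^ j * s) (T.F^[j] v).2 (T.F^[j] w).2) :
    0 < An ((-1) ^ k * s) (T.F^[k] v).2 (T.F^[k] w).2 := by
  rcases hjk.eq_or_lt with rfl | hlt
  · exact h.1
  have key : ∀ i, j + 1 ≤ i → i ≤ k → 0 < An ((-1) ^ i * s) (T.F^[i] v).2 (T.F^[i] w).2 ∧
      T.Div (T.F^[i] v).1 ((-1) ^ i * s) (T.F^[i] v).2 (T.F^[i] w).2 0 := by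
    intro i hi
    induction i, hi using Nat.le_induction with
    | base =>
      intro _
      obtain ⟨ha, hb, hab⟩ := hf.ch_next _ hlt
      have f₁ := (T.hit_F ha).1.2
      have c₂ : Cross (T.K (T.F (T.F^[j] v)).1) (T.F^[j] w).2 := hab ▸ (T.hit_F hb).1.2.2.1
      have hK := (T.b (T.F (T.F^[j] v)).1).cpt
      have hV := (T.b (T.F (T.F^[j] v)).1).cvx
      have hin : T.InRel (T.F (T.F^[j] v)).1 ((-1) ^ j * s) (T.F^[j] v).2 (T.F^[j] w).2 0 :=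
        ⟨f₁.2.1, c₂, h.1.le,
          (h.2 _ f₁.1.symm f₁.2.2.1.le _ (enP_mem hK (f₁.2.1.meets hV)) (Or.inl (sd_enP _ _))).le,
          (h.2 _ f₁.1.symm f₁.2.2.1.le _ (enP_mem hK (c₂.meets hV)) (Or.inr (sd_enP _ _))).le⟩
      obtain ⟨s₁, s₂, -⟩ := T.ch_step_of_inRel (ch_sign_pow hs j) ha hb hab (hn j hlt.le).le hin le_rfl
      rw [Function.iterate_succ_apply', Function.iterate_succ_apply', ch_sign_succ]
      exact ⟨h.1.trans_le s₁, s₂⟩
    | succ i hi ih =>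
      intro hik
      obtain ⟨a₁, d⟩ := ih (by omega)
      obtain ⟨ha, hb, hab⟩ := hf.ch_next _ (show i < k by omega)
      obtain ⟨s₁, s₂, -⟩ := T.ch_step (ch_sign_pow hs i) ha hb hab (hn i (by omega)).le d le_rfl
      rw [Function.iterate_succ_apply', Function.iterate_succ_apply', ch_sign_succ]
      exact ⟨a₁.trans_le s₁, s₂.mono _ (add_nonneg le_rfl (mul_nonneg T.r_pos.le d.1))⟩
  exact (key k hlt le_rfl).1

theorem up_disjoint {v w : St n} (h₁ : T.Up 1 v w) (h₂ : T.Up (-1) v w) : False := by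
  obtain ⟨j, f₁, n₁, c₁⟩ := h₁
  obtain ⟨k, f₂, n₂, c₂⟩ := h₂
  rcases le_total j k with h | h
  · have a₁ := T.ch_an_pos_of_cmp (Or.inl rfl) h f₂ n₂ c₁
    have a₂ := c₂.1
    rw [mul_neg, ch_An_neg] at a₂
    linarith
  · have a₁ := T.ch_an_pos_of_cmp (Or.inr rfl) h f₁ n₁ c₂
    have a₂ := c₁.1
    rw [mul_neg, ch_An_neg] at a₁
    linarith

theorem not_up_self (s : ℝ) (v : St n) : ¬ T.Up s v v := by
  rintro ⟨k, -, -, h, -⟩
  rw [An, cr_self, mul_zero] at h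
  exact lt_irrefl _ h

theorem up_of_div {v w : St n} {s : ℝ} (hs : s = 1 ∨ s = -1) (hi : w.1 = v.1)
    (hd : dL v.2 w.2 < T.δ1) (h : T.Div v.1 s v.2 w.2 0) (ha : 0 < An s v.2 w.2) :
    T.Up s v w := by
  refine ⟨0, ⟨fun j hj => absurd hj (Nat.not_lt_zero j), fun j hj => absurd hj (Nat.not_lt_zero j),
    fun j hj => ?_⟩, fun j hj => ?_, ?_⟩
  · obtain rfl : j = 0 := by omega
    exact hi.symm
  · obtain rfl : j = 0 := by omega
    exact hd
  · rw [pow_zero, one_mul]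
    exact T.cmp_of_div hs hd.le h ha

/-- between a point below and a point above there is a point that is neither -/
theorem wazewski {v : St n} {γ : ℝ → Ln} {a b : ℝ} (hab : a ≤ b) (hγ : ContinuousOn γ (Icc a b))
    (ha : T.Up (-1) v (v.1, γ a)) (hb : T.Up 1 v (v.1, γ b)) :
    ∃ t ∈ Icc a b, ¬ T.Up 1 v (v.1, γ t) ∧ ¬ T.Up (-1) v (v.1, γ t) := by
  by_contra hcon
  have hc : ContinuousOn (fun t => ((v, (v.1, γ t)) : St n × St n)) (Icc a b) :=
    continuousOn_const.prodMk (continuousOn_const.prodMk hγ)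
  obtain ⟨p, -, h1, h2⟩ := (isPreconnected_Icc.image _ hc) _ _ (T.isOpen_up 1) (T.isOpen_up (-1))
    (by
      rintro _ ⟨t, ht, rfl⟩
      by_contra hh
      exact hcon ⟨t, ht, fun h => hh (Or.inl h), fun h => hh (Or.inr h)⟩)
    ⟨_, ⟨b, right_mem_Icc.2 hab, rfl⟩, hb⟩ ⟨_, ⟨a, left_mem_Icc.2 hab, rfl⟩, ha⟩
  exact T.up_disjoint h1 h2

end Tab

end Pool.Agent.P.MP_379466_co
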