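import Pool.Agent.P.MP_379466_co.Stmt

/-!
Oriented lines, convex bodies with a normal field, the reflection map on lines, tables.
-/

set_option autoImplicit false

namespace Pool.Agent.P.MP_379466_co

open Set Metric
open scoped Real

instance factTwoPi : Fact (0 < 2 * π) := ⟨Real.two_pi_pos⟩

/-- Directions. -/
abbrev Ang : Type := AddCircle (2 * π)

/-- Oriented lines: direction and signed distance from the origin. -/
abbrev Ln : Type := Ang × ℝ

/-- Inner product. -/
def ip (a b : ℂ) : ℝ := a.re * b.re + a.im * b.im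

/-- Cross product. -/
def cr (a b : ℂ) : ℝ := a.re * b.im - a.im * b.re

/-- Unit vector of a direction. -/
noncomputable def dir (θ : Ang) : ℂ := (AddCircle.homeomorphCircle' θ : Circle)

/-- Direction of a vector. -/
noncomputable def ang (w : ℂ) : Ang := ((Complex.arg w : ℝ) : Ang)

/-- The point of a line with parameter `t`. -/
noncomputable def pt (l : Ln) (t : ℝ) : ℂ := dir l.1 * ((t : ℂ) + (l.2 : ℂ) * Complex.I)

/-- Signed distance from the line (positive on the left). -/
noncomputable def sd (l : Ln) (z : ℂ) : ℝ := cr (dir l.1) z - l.2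

/-- Position along the line. -/
noncomputable def tm (l : Ln) (z : ℂ) : ℝ := ip (dir l.1) z

/-- The line through `z` with direction `θ`. -/
noncomputable def mkL (z : ℂ) (θ : Ang) : Ln := (θ, cr (dir θ) z)

/-- The same line with the other orientation. -/
noncomputable def rev (l : Ln) : Ln := (l.1 + ((π : ℝ) : Ang), -l.2)

/-- The line meets the set. -/
def Meets (S : Set ℂ) (l : Ln) : Prop := ∃ z ∈ S, sd l z = 0

/-- The set has points strictly on both sides of the line. -/
def Cross (S : Set ℂ) (l : Ln) : Prop := (∃ z ∈ S, sd l z < 0) ∧ ∃ z ∈ S, 0 < sd l z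

/-- First point of the line in the set. -/
noncomputable def enP (S : Set ℂ) (l : Ln) : ℂ := pt l (sInf {t | pt l t ∈ S})

/-- Last point of the line in the set. -/
noncomputable def exP (S : Set ℂ) (l : Ln) : ℂ := enP S (rev l)

/-- Distance of two lines. -/
noncomputable def dL (l₁ l₂ : Ln) : ℝ := max ‖dir l₁.1 - dir l₂.1‖ |l₁.2 - l₂.2|

/-- Boundary points at which the set lies in a tangent disc of diameter `m`. -/
def SC (K : Set ℂ) (N : ℂ → ℂ) (m : ℕ) : Set ℂ :=
  {P | P ∈ frontier K ∧ ∀ z ∈ K, ‖P - z‖ ^ 2 ≤ m * ip (N P) (P - z)}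

/-- Curved boundary points. -/
def Reg (K : Set ℂ) (N : ℂ → ℂ) : Set ℂ :=
  {P | ∃ m : ℕ, ∃ δ : ℝ, 0 < δ ∧ ∀ Q ∈ frontier K, dist Q P < δ → Q ∈ SC K N m}

/-- An obstacle with its normal field and a parametrisation of its boundary. -/
structure Body where
  K : Set ℂ
  N : ℂ → ℂ
  γ : ℝ → ℂ
  cpt : IsCompact K
  cvx : Convex ℝ K
  int_ne : (interior K).Nonempty
  γ_cd : ContDiff ℝ 2 γ
  γ_per : Function.Periodic γ 1
  γ_ne : ∀ t, deriv γ t ≠ 0
  γ_inj : InjOn γ (Ico 0 1)
  γ_range : range γ = frontier K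
  N_norm : ∀ P ∈ frontier K, ‖N P‖ = 1
  N_out : ∀ P ∈ frontier K, ∀ z ∈ K, ip (N P) (z - P) ≤ 0
  N_uniq : ∀ P ∈ K, ∀ M : ℂ, ‖M‖ = 1 → (∀ z ∈ K, ip M (z - P) ≤ 0) → P ∈ frontier K ∧ M = N P
  N_cont : ContinuousOn N (frontier K)
  N_γ : ∀ t, ip (N (γ t)) (deriv γ t) = 0
  sard : ∀ X ⊆ N '' (frontier K \ Reg K N), IsPreconnected X → X.Subsingleton

open Classical in
/-- The reflection map on lines: a line crossing the body is reflected at its first point. -/
noncomputable def refl (b : Body) (l : Ln) : Ln :=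
  if Cross b.K l then mkL (enP b.K l) (ang (-(b.N (enP b.K l)) ^ 2) - l.1) else l

/-- The supporting line of direction `θ` that has the set on its side `τ` (`τ = 1` is left). -/
noncomputable def tanL (S : Set ℂ) (τ : ℝ) (θ : Ang) : Ln :=
  (θ, τ * sInf ((fun z => τ * cr (dir θ) z) '' S))

/-- A finite family of separated obstacles with the constants used in the proof. -/
structure Table (ι : Type) where
  b : ι → Body
  r : ℝ
  D : ℝ
  ν : ι → ι → ℂ
  c : ι → ℂ
  r_pos : 0 < r
  r_le : r ≤ 1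
  D_ge : 1 ≤ D
  ν_norm : ∀ i j, i ≠ j → ‖ν i j‖ = 1
  ν_anti : ∀ i j, ν j i = -ν i j
  sep : ∀ i j, i ≠ j → ∀ z ∈ cthickening r (b i).K, ∀ w ∈ cthickening r (b j).K,
    2 * r ≤ ip (ν i j) (w - z)
  ball : ∀ i, closedBall (c i) r ⊆ (b i).K
  bdd : ∀ i, ∀ z ∈ cthickening r (b i).K, ‖z‖ ≤ D

/-- The obstacles of a table. -/
abbrev Table.K {ι : Type} (T : Table ι) (i : ι) : Set ℂ := (T.b i).K

/-- The thickened obstacles. -/
abbrev Table.B {ι : Type} (T : Table ι) (i : ι) : Set ℂ := cthickening T.r (T.b i).K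

end Pool.Agent.P.MP_379466_co
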