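import Pool.Agent.P.MP_379466_co.DynDefs

/-!
Basic properties of the billiard map on outgoing lines.
-/

set_option autoImplicit false

namespace Pool.Agent.P.MP_379466_co

open Set Metric

namespace Dyn

theorem ip_neg_left (a b : ℂ) : ip (-a) b = -ip a b := by simp [ip]; ring

theorem ip_neg_neg (a b : ℂ) : ip (-a) (-b) = ip a b := by simp [ip]

theorem exP_mem {S : Set ℂ} (h : IsCompact S) {l : Ln} (hm : Meets S l) : exP S l ∈ S :=
  enP_mem h ((meets_rev S l).2 hm)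

theorem tm_le_exP {S : Set ℂ} (h : IsCompact S) {l : Ln} {z : ℂ} (hz : z ∈ S) (h0 : sd l z = 0) :
    tm l z ≤ tm l (exP S l) := by
  have := tm_enP_le h (l := rev l) hz (by rw [sd_rev, h0, neg_zero])
  rw [tm_rev, tm_rev] at this
  exact neg_le_neg_iff.1 this

theorem eq_iUnion {n : ℕ} (S : Set (St n)) : S = ⋃ i, {i} ×ˢ {l | (i, l) ∈ S} := by
  ext ⟨i, l⟩
  simp

theorem isOpen_of_slice {n : ℕ} {S : Set (St n)} (h : ∀ i, IsOpen {l | (i, l) ∈ S}) :
    IsOpen S := by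
  rw [eq_iUnion S]
  exact isOpen_iUnion fun i => (isOpen_discrete _).prod (h i)

theorem measurableSet_of_slice {n : ℕ} {S : Set (St n)}
    (h : ∀ i, MeasurableSet {l | (i, l) ∈ S}) : MeasurableSet S := by
  rw [eq_iUnion S]
  exact MeasurableSet.iUnion fun i => (measurableSet_singleton i).prod (h i)

end Dyn

open Dyn

namespace Table

variable {n : ℕ} (T : Table (Fin n))

theorem K_sub_B (i : Fin n) : T.K i ⊆ T.B i := self_subset_cthickening _

theorem mem_B {i : Fin n} {z w : ℂ} (hz : z ∈ T.K i) (h : ‖w - z‖ ≤ T.r) : w ∈ T.B i :=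
  mem_cthickening_of_dist_le w z _ _ hz (by rwa [dist_eq_norm])

theorem disjoint_B {i j : Fin n} (h : i ≠ j) : Disjoint (T.B i) (T.B j) :=
  disjoint_left.2 fun z hz hw => by
    have := T.sep i j h z hz z hw
    simp only [sub_self, ip, Complex.zero_re, mul_zero, Complex.zero_im, add_zero] at this
    linarith [T.r_pos]

theorem order {i j : Fin n} (h : i ≠ j) {l : Ln} {z w : ℂ} (hz : z ∈ T.B i) (hw : w ∈ T.B j)
    (h₁ : |sd l z| ≤ T.r / 4) (h₂ : |sd l w| ≤ T.r / 4) :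
    (0 < ip (T.ν i j) (dir l.1) ∧ tm l z + T.r ≤ tm l w) ∨
      (ip (T.ν i j) (dir l.1) < 0 ∧ tm l w + T.r ≤ tm l z) := by
  have hs := T.sep i j h z hz w hw
  have hr := T.r_pos
  have e : ip (T.ν i j) (w - z) = (tm l w - tm l z) * ip (T.ν i j) (dir l.1) +
      (sd l w - sd l z) * ip (T.ν i j) (Complex.I * dir l.1) := by
    rw [tm_sub, sd_sub]
    conv_lhs => rw [decomp (norm_dir l.1) (w - z)]
    generalize ip (dir l.1) (w - z) = a
    generalize cr (dir l.1) (w - z) = b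
    simp [ip]
    ring
  have a1 := abs_ip_le (T.ν i j) (dir l.1)
  have a2 := abs_ip_le (T.ν i j) (Complex.I * dir l.1)
  rw [norm_mul, Complex.norm_I] at a2
  rw [T.ν_norm i j h, norm_dir] at a1 a2
  have a3 : |sd l w - sd l z| ≤ T.r / 2 := (abs_sub _ _).trans (by linarith)
  have a4 := mul_le_mul a3 a2 (abs_nonneg _) (by linarith)
  rw [← abs_mul] at a4
  have a5 := le_of_abs_le a4
  have a6 := abs_le.1 a1
  generalize ip (T.ν i j) (dir l.1) = a at *
  have k : 3 / 2 * T.r ≤ (tm l w - tm l z) * a := by linarith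
  rcases lt_trichotomy a 0 with c | c | c
  · refine Or.inr ⟨c, ?_⟩
    by_contra q
    push Not at q
    nlinarith [a6.1]
  · rw [c] at k
    linarith
  · refine Or.inl ⟨c, ?_⟩
    by_contra q
    push Not at q
    nlinarith [a6.2]

theorem order0 {i j : Fin n} (h : i ≠ j) {l : Ln} {z w : ℂ} (hz : z ∈ T.K i) (hw : w ∈ T.K j)
    (h₁ : sd l z = 0) (h₂ : sd l w = 0) :
    (0 < ip (T.ν i j) (dir l.1) ∧ tm l z + T.r ≤ tm l w) ∨
      (ip (T.ν i j) (dir l.1) < 0 ∧ tm l w + T.r ≤ tm l z) :=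
  T.order h (T.K_sub_B i hz) (T.K_sub_B j hw) (by rw [h₁, abs_zero]; linarith [T.r_pos])
    (by rw [h₂, abs_zero]; linarith [T.r_pos])

/-- the first obstacle met after `K i` -/
theorem first_met {i k : Fin n} {l : Ln} (hk : k ≠ i) (h₁ : 0 ≤ ip (T.ν i k) (dir l.1))
    (h₂ : Meets (T.K k) l) : ∃ k₀, k₀ ≠ i ∧ 0 ≤ ip (T.ν i k₀) (dir l.1) ∧ Meets (T.K k₀) l ∧
      (∀ k', k' ≠ i → 0 ≤ ip (T.ν i k') (dir l.1) → ∀ z ∈ T.K k', sd l z = 0 →
        tm l (enP (T.K k₀) l) ≤ tm l z) ∧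
      ∀ k', k' ≠ i → k' ≠ k₀ → 0 ≤ ip (T.ν i k') (dir l.1) → 0 ≤ ip (T.ν k' k₀) (dir l.1) →
        ¬ Meets (T.K k') l := by
  obtain ⟨k₀, ⟨a, b, c⟩, hmin⟩ := Set.exists_min_image
    {k | k ≠ i ∧ 0 ≤ ip (T.ν i k) (dir l.1) ∧ Meets (T.K k) l} (fun k => tm l (enP (T.K k) l))
    (toFinite _) ⟨k, hk, h₁, h₂⟩
  refine ⟨k₀, a, b, c, fun k' a' b' z hz h0 =>
    (hmin k' ⟨a', b', z, hz, h0⟩).trans (tm_enP_le (T.b k').cpt hz h0), fun k' a' ne b' o m => ?_⟩
  have := hmin k' ⟨a', b', m⟩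
  rcases T.order0 ne (enP_mem (T.b k').cpt m) (enP_mem (T.b k₀).cpt c) (sd_enP _ _) (sd_enP _ _)
    with q | q
  · linarith [q.2, T.r_pos]
  · linarith [q.1]

/-- the obstacle hit is the first one met -/
theorem Free.tm_le {i j k : Fin n} {l : Ln} (h : T.Free i l j) (hk : k ≠ i)
    (h₁ : 0 ≤ ip (T.ν i k) (dir l.1)) {z : ℂ} (hz : z ∈ T.K k) (h0 : sd l z = 0) :
    tm l (enP (T.K j) l) ≤ tm l z := by
  by_cases e : k = j
  · subst e
    exact tm_enP_le (T.b k).cpt hz h0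
  rcases T.order0 e hz (enP_mem (T.b j).cpt (h.2.1.meets (T.b j).cvx)) h0 (sd_enP _ _) with q | q
  · exact absurd ⟨z, hz, h0⟩ (h.2.2.2 k hk e h₁ q.1.le)
  · linarith [q.2, T.r_pos]

theorem hit_unique {i j j' : Fin n} {l : Ln} (h : T.Hit i l j) (h' : T.Hit i l j') : j = j' := by
  by_contra e
  rcases le_total 0 (ip (T.ν j j') (dir l.1)) with q | q
  · exact h'.2.2.2.2 j h.2.1.symm e h.2.2.2.1.le q (h.2.2.1.meets (T.b j).cvx)
  · refine h.2.2.2.2 j' h'.2.1.symm (Ne.symm e) h'.2.2.2.1.le ?_ (h'.2.2.1.meets (T.b j').cvx)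
    rw [T.ν_anti j j', ip_neg_left]
    linarith

theorem hit_rev {i j : Fin n} {l : Ln} (h : T.Hit i l j) : T.Hit j (rev l) i := by
  refine ⟨(cross_rev _ _).2 h.2.2.1, h.2.1.symm, (cross_rev _ _).2 h.1, ?_, fun k a b c d => ?_⟩
  · rw [dir_rev, T.ν_anti i j, ip_neg_neg]
    exact h.2.2.2.1
  · rw [dir_rev, T.ν_anti k j, ip_neg_neg] at c
    rw [dir_rev, T.ν_anti i k, ip_neg_neg] at d
    rw [meets_rev]
    exact h.2.2.2.2 k b a d c

theorem hit_iff {i j : Fin n} {l : Ln} : T.Hit i l j ↔ i ≠ j ∧ Cross (T.K i) l ∧ Cross (T.K j) l ∧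
    tm l (exP (T.K i) l) < tm l (enP (T.K j) l) ∧
    ∀ t, tm l (exP (T.K i) l) < t → t < tm l (enP (T.K j) l) → ∀ k, pt l t ∉ T.K k := by
  have hr := T.r_pos
  constructor
  · intro h
    have mi := exP_mem (T.b i).cpt (h.1.meets (T.b i).cvx)
    have mj := enP_mem (T.b j).cpt (h.2.2.1.meets (T.b j).cvx)
    refine ⟨h.2.1, h.1, h.2.2.1, ?_, fun t a b k hk => ?_⟩
    · rcases T.order0 h.2.1 mi mj (sd_exP _ _) (sd_enP _ _) with q | q
      · linarith [q.2]
      · linarith [q.1, h.2.2.2.1]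
    · by_cases e : i = k
      · subst e
        have := tm_le_exP (T.b i).cpt hk (sd_pt l t)
        rw [tm_pt] at this
        linarith
      rcases T.order0 e mi hk (sd_exP _ _) (sd_pt l t) with q | q
      · have := Free.tm_le T h.2 (Ne.symm e) q.1.le hk (sd_pt l t)
        rw [tm_pt] at this
        linarith
      · rw [tm_pt] at q
        linarith [q.2]
  · rintro ⟨ne, ci, cj, lt, h⟩
    have mi := exP_mem (T.b i).cpt (ci.meets (T.b i).cvx)
    have mj := enP_mem (T.b j).cpt (cj.meets (T.b j).cvx)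
    refine ⟨ci, ne, cj, ?_, fun k a b c d ⟨z, hz, h0⟩ => ?_⟩
    · rcases T.order0 ne mi mj (sd_exP _ _) (sd_enP _ _) with q | q
      · exact q.1
      · linarith [q.2]
    · rcases T.order0 (Ne.symm a) mi hz (sd_exP _ _) h0 with q | q
      · rcases T.order0 b hz mj h0 (sd_enP _ _) with q' | q'
        · refine h (tm l z) (by linarith [q.2]) (by linarith [q'.2]) k ?_
          rwa [pt_tm h0]
        · linarith [q'.1]
      · linarith [q.1]

theorem esc_iff {i : Fin n} {l : Ln} : (i, l) ∈ T.Esc ↔ Cross (T.K i) l ∧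
    ∀ t, tm l (exP (T.K i) l) < t → ∀ k, pt l t ∉ T.K k := by
  have hr := T.r_pos
  refine and_congr_right fun ci => ?_
  have mi := exP_mem (T.b i).cpt (Cross.meets (T.b i).cvx ci)
  constructor
  · intro h t a k hk
    by_cases e : i = k
    · subst e
      have := tm_le_exP (T.b i).cpt hk (sd_pt l t)
      rw [tm_pt] at this
      linarith
    rcases T.order0 e mi hk (sd_exP _ _) (sd_pt l t) with q | q
    · exact h k (Ne.symm e) q.1.le ⟨_, hk, sd_pt l t⟩
    · rw [tm_pt] at q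
      linarith [q.2]
  · rintro h k a c ⟨z, hz, h0⟩
    rcases T.order0 (Ne.symm a) mi hz (sd_exP _ _) h0 with q | q
    · refine h (tm l z) (by linarith [q.2]) k ?_
      rwa [pt_tm h0]
    · exact absurd c (not_le.2 q.1)

theorem trichotomy {i : Fin n} {l : Ln} (h : Cross (T.K i) l) :
    (i, l) ∈ T.Dom ∨ (i, l) ∈ T.Esc ∨ ∃ k, Meets (T.K k) l ∧ ¬ Cross (T.K k) l := by
  by_cases e : ∃ k, k ≠ i ∧ 0 ≤ ip (T.ν i k) (dir l.1) ∧ Meets (T.K k) l
  swap
  · exact Or.inr (Or.inl ⟨h, fun k a b c => e ⟨k, a, b, c⟩⟩)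
  obtain ⟨k, a, b, c⟩ := e
  obtain ⟨k₀, a, b, c, -, d⟩ := T.first_met a b c
  by_cases e : Cross (T.K k₀) l
  swap
  · exact Or.inr (Or.inr ⟨k₀, c, e⟩)
  refine Or.inl ⟨k₀, h, a.symm, e, ?_, d⟩
  rcases T.order0 a.symm (enP_mem (T.b i).cpt (h.meets (T.b i).cvx)) (enP_mem (T.b k₀).cpt c)
    (sd_enP _ _) (sd_enP _ _) with q | q
  · exact q.1
  · exact absurd b (not_le.2 q.1)

theorem not_esc_of_dom {v : St n} (h : v ∈ T.Dom) : v ∉ T.Esc := fun e => by
  obtain ⟨j, h⟩ := h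
  exact e.2 j h.2.1.symm h.2.2.2.1.le (h.2.2.1.meets (T.b j).cvx)

theorem F_of_hit {v : St n} {j : Fin n} (h : T.Hit v.1 v.2 j) :
    T.F v = (j, refl (T.b j) v.2) := by
  have e : ∃ j, T.Hit v.1 v.2 j := ⟨j, h⟩
  rw [F, dif_pos e, T.hit_unique e.choose_spec h]

theorem hit_F {v : St n} (h : v ∈ T.Dom) :
    T.Hit v.1 v.2 (T.F v).1 ∧ (T.F v).2 = refl (T.b (T.F v).1) v.2 := by
  obtain ⟨j, h⟩ := h
  rw [T.F_of_hit h]
  exact ⟨h, rfl⟩

theorem cross_F {v : St n} (h : v ∈ T.Dom) : Cross (T.K (T.F v).1) (T.F v).2 := by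
  rw [(T.hit_F h).2]
  exact cross_refl.2 (T.hit_F h).1.2.2.1

theorem isOpen_free (i j : Fin n) : IsOpen {l | T.Free i l j} := by
  refine IsOpen.and isOpen_const (IsOpen.and (isOpen_cross _) (IsOpen.and
    (isOpen_lt continuous_const (by fun_prop)) ?_))
  have : {l : Ln | ∀ k, k ≠ i → k ≠ j → 0 ≤ ip (T.ν i k) (dir l.1) → 0 ≤ ip (T.ν k j) (dir l.1) →
      ¬ Meets (T.K k) l} = ⋂ k, ({_l : Ln | k ≠ i ∧ k ≠ j} ∩ ({l | 0 ≤ ip (T.ν i k) (dir l.1)} ∩
        ({l | 0 ≤ ip (T.ν k j) (dir l.1)} ∩ {l | Meets (T.K k) l})))ᶜ := by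
    ext l
    simp
  refine (this ▸ isOpen_iInter_of_finite fun k => ?_ :)
  exact (isClosed_const.inter ((isClosed_le continuous_const (by fun_prop)).inter
    ((isClosed_le continuous_const (by fun_prop)).inter (isClosed_meets (T.b k).cpt)))).isOpen_compl

theorem isOpen_hit (i j : Fin n) : IsOpen {l | T.Hit i l j} :=
  (isOpen_cross _).inter (T.isOpen_free i j)

theorem isOpen_dom : IsOpen T.Dom := isOpen_of_slice fun i => by
  have : {l | (i, l) ∈ T.Dom} = ⋃ j, {l | T.Hit i l j} := by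
    ext l
    simp [Dom]
  rw [this]
  exact isOpen_iUnion fun j => T.isOpen_hit i j

theorem isOpen_esc : IsOpen T.Esc := isOpen_of_slice fun i => by
  refine IsOpen.and (isOpen_cross (T.K i)) ?_
  have : {l : Ln | ∀ k, k ≠ i → 0 ≤ ip (T.ν i k) (dir l.1) → ¬ Meets (T.K k) l} =
      ⋂ k, ({_l : Ln | k ≠ i} ∩ ({l | 0 ≤ ip (T.ν i k) (dir l.1)} ∩ {l | Meets (T.K k) l}))ᶜ := by
    ext l
    simp
  refine (this ▸ isOpen_iInter_of_finite fun k => ?_ :)
  exact (isClosed_const.inter ((isClosed_le continuous_const (by fun_prop)).inter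
    (isClosed_meets (T.b k).cpt))).isOpen_compl

theorem continuousOn_F : ContinuousOn T.F T.Dom := by
  rintro ⟨i, l⟩ ⟨j, h⟩
  have ho : IsOpen (({i} : Set (Fin n)) ×ˢ {l | T.Hit i l j}) :=
    (isOpen_discrete _).prod (T.isOpen_hit i j)
  have hc : Continuous fun v : St n => ((j, refl (T.b j) v.2) : St n) :=
    continuous_const.prodMk ((continuous_refl _).comp continuous_snd)
  refine (hc.continuousAt.congr ?_).continuousWithinAt
  filter_upwards [ho.mem_nhds ⟨rfl, h⟩] with v hv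
  obtain ⟨i', l'⟩ := v
  obtain rfl : i' = i := hv.1
  exact (T.F_of_hit (v := (i', l')) hv.2).symm

theorem domN_succ {k : ℕ} {v : St n} :
    v ∈ T.DomN (k + 1) ↔ v ∈ T.Dom ∧ T.F v ∈ T.DomN k :=
  Nat.forall_lt_succ_left

theorem domN_succ' {k : ℕ} {v : St n} :
    v ∈ T.DomN (k + 1) ↔ v ∈ T.DomN k ∧ T.F^[k] v ∈ T.Dom :=
  Nat.forall_lt_succ_right

theorem domN_mono {j k : ℕ} (h : j ≤ k) : T.DomN k ⊆ T.DomN j :=
  fun _ hv i hi => hv i (hi.trans_le h)

theorem domN_iter {j k : ℕ} {v : St n} (h : v ∈ T.DomN (j + k)) : T.F^[j] v ∈ T.DomN k :=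
  fun i hi => by
    rw [← Function.iterate_add_apply]
    exact h _ (by omega)

theorem iter_aux (k : ℕ) : IsOpen (T.DomN k) ∧ ContinuousOn T.F^[k] (T.DomN k) := by
  induction k with
  | zero =>
    have : T.DomN 0 = univ := eq_univ_of_forall fun v j hj => absurd hj (Nat.not_lt_zero j)
    rw [this]
    exact ⟨isOpen_univ, continuousOn_id⟩
  | succ k ih =>
    have : T.DomN (k + 1) = T.DomN k ∩ T.F^[k] ⁻¹' T.Dom := Set.ext fun v => T.domN_succ'
    rw [this, Function.iterate_succ']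
    exact ⟨ih.2.isOpen_inter_preimage ih.1 T.isOpen_dom,
      T.continuousOn_F.comp (ih.2.mono inter_subset_left) fun v hv => hv.2⟩

theorem isOpen_domN (k : ℕ) : IsOpen (T.DomN k) := (T.iter_aux k).1

theorem continuousOn_iter {j k : ℕ} (h : j ≤ k) : ContinuousOn T.F^[j] (T.DomN k) :=
  (T.iter_aux j).2.mono (T.domN_mono h)

theorem cross_iter {j k : ℕ} {v : St n} (hv : Cross (T.K v.1) v.2) (h : v ∈ T.DomN k)
    (hj : j ≤ k) : Cross (T.K (T.F^[j] v).1) (T.F^[j] v).2 := by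
  cases j with
  | zero => exact hv
  | succ j =>
    rw [Function.iterate_succ_apply']
    exact T.cross_F (h j hj)

theorem escNS_iter {k : ℕ} {v : St n} (h : v ∈ T.DomN k) :
    T.F^[k] v ∈ T.EscNS ↔ v ∈ T.EscNS := by
  constructor
  · rintro ⟨j, a, b⟩
    refine ⟨j + k, fun i hi => ?_, by rwa [Function.iterate_add_apply]⟩
    rcases lt_or_ge i k with c | c
    · exact h i c
    · obtain ⟨d, rfl⟩ := Nat.exists_eq_add_of_le' c
      rw [Function.iterate_add_apply]
      exact a d (by omega)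
  · rintro ⟨j, a, b⟩
    have c : k ≤ j := not_lt.1 fun c => T.not_esc_of_dom (h j c) b
    obtain ⟨d, rfl⟩ := Nat.exists_eq_add_of_le c
    exact ⟨d, T.domN_iter a, by rwa [← Function.iterate_add_apply, add_comm]⟩

theorem not_escNS_of_mp {v : St n} (h : v ∈ T.Mp) : v ∉ T.EscNS :=
  fun ⟨k, _, b⟩ => T.not_esc_of_dom (h k) b

theorem continuous_dag : Continuous T.dag :=
  continuous_prod_of_discrete_left.2 fun i =>
    continuous_const.prodMk ((continuous_refl (T.b i)).comp continuous_rev)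

theorem dag_dag (v : St n) : T.dag (T.dag v) = v := by
  simp only [dag, refl_rev_refl, rev_rev]

theorem cross_dag {v : St n} : Cross (T.K v.1) (T.dag v).2 ↔ Cross (T.K v.1) v.2 :=
  cross_refl.trans (cross_rev _ _)

theorem exP_dag {v : St n} (h : Cross (T.K v.1) v.2) :
    exP (T.K v.1) (T.dag v).2 = exP (T.K v.1) v.2 :=
  exP_refl ((cross_rev _ _).2 h)

theorem mk_dag {m : ℕ} {v : St n} : T.dag v ∈ T.Mk m ↔ v ∈ T.Mk m := by
  change Cross (T.K v.1) (T.dag v).2 ∧ exP (T.K v.1) (T.dag v).2 ∈ SC (T.K v.1) (T.b v.1).N m ↔ _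
  rw [T.cross_dag]
  refine and_congr_right fun h => ?_
  rw [T.exP_dag h]

theorem dag_F {v : St n} (h : v ∈ T.Dom) : T.dag (T.F v) = ((T.F v).1, rev v.2) := by
  rw [dag, (T.hit_F h).2, refl_rev_refl]

theorem F_dag_F {v : St n} (h : v ∈ T.Dom) :
    T.dag (T.F v) ∈ T.Dom ∧ T.F (T.dag (T.F v)) = T.dag v := by
  rw [T.dag_F h]
  have := T.hit_rev (T.hit_F h).1
  exact ⟨⟨_, this⟩, T.F_of_hit this⟩

theorem dag_iter {k : ℕ} {v : St n} (h : v ∈ T.DomN k) : T.dag (T.F^[k] v) ∈ T.DomN k ∧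
    ∀ j ≤ k, T.F^[j] (T.dag (T.F^[k] v)) = T.dag (T.F^[k - j] v) := by
  have key : ∀ j ≤ k, T.F^[j] (T.dag (T.F^[k] v)) = T.dag (T.F^[k - j] v) := by
    intro j
    induction j with
    | zero => exact fun _ => rfl
    | succ j ih =>
      intro hj
      rw [Function.iterate_succ_apply', ih (by omega), show k - j = k - (j + 1) + 1 by omega,
        Function.iterate_succ_apply']
      exact (T.F_dag_F (h _ (by omega))).2
  refine ⟨fun j hj => ?_, key⟩
  rw [key j hj.le, show k - j = k - (j + 1) + 1 by omega, Function.iterate_succ_apply']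
  exact (T.F_dag_F (h _ (by omega))).1

theorem iter_dag (j : ℕ) (a : St n) : T.F^[j] (T.dag a) = T.dag (T.G^[j] a) := by
  induction j with
  | zero => rfl
  | succ j ih => rw [Function.iterate_succ_apply', Function.iterate_succ_apply', ih, G, dag_dag]

theorem refl_inL (i : Fin n) (l : Ln) : refl (T.b i) (T.inL i l) = l := by
  rw [inL, refl_rev_refl, rev_rev]

theorem inL_refl (i : Fin n) (l : Ln) : T.inL i (refl (T.b i) l) = l := by
  rw [inL, refl_rev_refl, rev_rev]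

theorem continuous_inL (i : Fin n) : Continuous (T.inL i) :=
  continuous_rev.comp ((continuous_refl (T.b i)).comp continuous_rev)

theorem F_minf {v : St n} (h : v ∈ T.Minf) : T.F v ∈ T.Minf ∧ T.G (T.F v) = v := by
  have e := T.F_dag_F (v := v) (h.1 0)
  refine ⟨⟨fun k => h.1 (k + 1), fun k => ?_⟩, by rw [G, e.2, dag_dag]⟩
  cases k with
  | zero => exact e.1
  | succ k =>
    rw [Function.iterate_succ_apply, e.2]
    exact h.2 k

theorem G_minf {v : St n} (h : v ∈ T.Minf) : T.G v ∈ T.Minf ∧ T.F (T.G v) = v := by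
  have s : ∀ w, w ∈ T.Minf → T.dag w ∈ T.Minf := fun w hw => ⟨hw.2, by rw [dag_dag]; exact hw.1⟩
  exact ⟨s _ (T.F_minf (s v h)).1, by rw [G, (T.F_dag_F (v := T.dag v) (h.2 0)).2, dag_dag]⟩

theorem one_lt_lam (m : ℕ) : 1 < T.lam m := by
  have := T.r_pos
  exact lt_add_of_pos_right _ (by positivity)

theorem wt_pos (m k : ℕ) (v : St n) : 0 < T.wt m k v :=
  inv_pos.2 (pow_pos (zero_lt_one.trans (T.one_lt_lam m)) _)

theorem wt_le_one (m k : ℕ) (v : St n) : T.wt m k v ≤ 1 :=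
  inv_le_one_of_one_le₀ (one_le_pow₀ (T.one_lt_lam m).le)

theorem measurable_F : Measurable T.F := by
  classical
  have : T.F = T.Dom.piecewise T.F id := by
    funext v
    by_cases h : v ∈ T.Dom
    · rw [piecewise_eq_of_mem _ _ _ h]
    · rw [piecewise_eq_of_notMem _ _ _ h]
      exact dif_neg h
  rw [this]
  exact T.continuousOn_F.measurable_piecewise continuousOn_id T.isOpen_dom.measurableSet

theorem measurable_G : Measurable T.G :=
  T.continuous_dag.measurable.comp (T.measurable_F.comp T.continuous_dag.measurable)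

theorem measurableSet_mk (m : ℕ) : MeasurableSet (T.Mk m) := measurableSet_of_slice fun i => by
  obtain ⟨u, hu, e⟩ := continuousOn_iff_isClosed.1
    (continuousOn_exP (T.b i).cpt (T.b i).cvx (T.b i).int_ne) _ ((T.b i).isClosed_SC m)
  have : {l | (i, l) ∈ T.Mk m} = u ∩ {l | Cross (T.b i).K l} := by
    rw [← e]
    exact Set.ext fun l => and_comm
  rw [this]
  exact hu.measurableSet.inter (isOpen_cross _).measurableSet

theorem measurable_wt (m k : ℕ) : Measurable (T.wt m k) := by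
  classical
  have : Measurable (T.cnt m k) := by
    unfold cnt
    simp only [Finset.card_filter]
    exact Finset.measurable_sum _ fun j _ => Measurable.ite
      ((T.measurable_F.iterate j) (T.measurableSet_mk m)) measurable_const measurable_const
  exact (Measurable.of_discrete (f := fun c : ℕ => (T.lam m ^ c)⁻¹)).comp this

theorem measurableSet_minf : MeasurableSet T.Minf := by
  have : MeasurableSet T.Mp := by
    have : T.Mp = ⋂ k, T.F^[k] ⁻¹' T.Dom := by
      ext v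
      simp [Mp]
    rw [this]
    exact MeasurableSet.iInter fun k => (T.measurable_F.iterate k) T.isOpen_dom.measurableSet
  exact this.inter (T.continuous_dag.measurable this)

theorem isClosed_deep (m : ℕ) (ε : ℝ) : IsClosed (T.Deep m ε) := by
  have : T.Deep m ε = ⋂ l, ({v : St n | ε ≤ dL v.2 l} ∪
      Prod.fst ⁻¹' {i | Cross (T.K i) l ∧ (i, l) ∈ T.Mk m}) := by
    ext v
    simp only [Deep, mem_ofPred_eq, mem_iInter, mem_union, mem_preimage, ← not_lt, ← imp_iff_not_or]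
  rw [this]
  exact isClosed_iInter fun l => (isClosed_le continuous_const (by fun_prop)).union
    ((isClosed_discrete _).preimage continuous_fst)

end Table

end Pool.Agent.P.MP_379466_co
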