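import Pool.Agent.P.MP_379466_co.Meas

/-!
The billiard map on outgoing lines, order relations between nearby lines, bad events.
-/

set_option autoImplicit false

namespace Pool.Agent.P.MP_379466_co

open Set Metric MeasureTheory

/-- A table with two closeness thresholds. -/
structure Tab (n : ℕ) extends Table (Fin n) where
  δ1 : ℝ
  δ2 : ℝ
  δ2_pos : 0 < δ2
  δ2_le : 2 * δ2 ≤ δ1
  δ1_le : δ1 ≤ r / (100 * (1 + D) ^ 2)
  hN : ∀ j, ∀ P ∈ frontier (b j).K, ∀ Q ∈ frontier (b j).K, ∀ u v : ℂ, ‖u‖ = 1 → ‖v‖ = 1 →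
    ip u ((b j).N P) ≤ 0 → ip v ((b j).N Q) ≤ 0 → ‖u - v‖ ≤ δ1 → |cr u (Q - P)| ≤ (1 + D) * δ1 →
    ‖(b j).N P - (b j).N Q‖ ≤ r / (100 * (1 + D) ^ 2)
  hrefl : ∀ j l₁ l₂, Cross (b j).K l₁ → Cross (b j).K l₂ → dL l₁ l₂ ≤ δ2 →
    dL (refl (b j) l₁) (refl (b j) l₂) < δ1

/-- States: an obstacle and a line leaving it. -/
abbrev St (n : ℕ) : Type := Fin n × Ln

/-- The measure on states. -/
noncomputable def mu (n : ℕ) : Measure (St n) := Measure.count.prod volume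

/-- Signed sine of the angle from `l₁` to `l₂`. -/
noncomputable def An (s : ℝ) (l₁ l₂ : Ln) : ℝ := s * cr (dir l₁.1) (dir l₂.1)

/-- Signed gap from `l₁` to `l₂` at the point `z`. -/
noncomputable def Dv (s : ℝ) (l₁ l₂ : Ln) (z : ℂ) : ℝ := s * (sd l₁ z - sd l₂ z)

/-- The sign attached to a Boolean. -/
def sg (b : Bool) : ℝ := if b then 1 else -1

namespace Table

variable {n : ℕ} (T : Table (Fin n))

/-- The line crosses `K j` after `K i` and meets no obstacle in between. -/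
def Free (i : Fin n) (l : Ln) (j : Fin n) : Prop :=
  i ≠ j ∧ Cross (T.K j) l ∧ 0 < ip (T.ν i j) (dir l.1) ∧
    ∀ k, k ≠ i → k ≠ j → 0 ≤ ip (T.ν i k) (dir l.1) → 0 ≤ ip (T.ν k j) (dir l.1) →
      ¬ Meets (T.K k) l

/-- A chord from `K i` to `K j`, transversal at both ends. -/
def Hit (i : Fin n) (l : Ln) (j : Fin n) : Prop := Cross (T.K i) l ∧ T.Free i l j

/-- States with a next transversal collision. -/
def Dom : Set (St n) := {v | ∃ j, T.Hit v.1 v.2 j}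

/-- States whose ray meets no further obstacle. -/
def Esc : Set (St n) :=
  {v | Cross (T.K v.1) v.2 ∧
    ∀ k, k ≠ v.1 → 0 ≤ ip (T.ν v.1 k) (dir v.2.1) → ¬ Meets (T.K k) v.2}

open Classical in
/-- The billiard map. -/
noncomputable def F (v : St n) : St n :=
  if h : ∃ j, T.Hit v.1 v.2 j then (h.choose, refl (T.b h.choose) v.2) else v

/-- Time reversal. -/
noncomputable def dag (v : St n) : St n := (v.1, refl (T.b v.1) (rev v.2))

/-- The inverse billiard map. -/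
noncomputable def G (v : St n) : St n := T.dag (T.F (T.dag v))

/-- States with `k` further collisions. -/
def DomN (k : ℕ) : Set (St n) := {v | ∀ j < k, T.F^[j] v ∈ T.Dom}

/-- States that escape after finitely many transversal collisions. -/
def EscNS : Set (St n) := {v | ∃ k, v ∈ T.DomN k ∧ T.F^[k] v ∈ T.Esc}

/-- States with infinitely many further collisions. -/
def Mp : Set (St n) := {v | ∀ k, T.F^[k] v ∈ T.Dom}

/-- States with a bi-infinite orbit. -/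
def Minf : Set (St n) := {v | v ∈ T.Mp ∧ T.dag v ∈ T.Mp}

/-- States leaving their obstacle at a point of `SC m`. -/
def Mk (m : ℕ) : Set (St n) :=
  {v | Cross (T.K v.1) v.2 ∧ exP (T.K v.1) v.2 ∈ SC (T.K v.1) (T.b v.1).N m}

/-- States all of whose `ε`-neighbours are transversal and marked. -/
def Deep (m : ℕ) (ε : ℝ) : Set (St n) :=
  {v | ∀ l, dL v.2 l < ε → Cross (T.K v.1) l ∧ (v.1, l) ∈ T.Mk m}

open Classical in
/-- Number of marked states among the first `k` of the orbit. -/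
noncomputable def cnt (m k : ℕ) (v : St n) : ℕ :=
  ((Finset.range k).filter fun j => T.F^[j] v ∈ T.Mk m).card

/-- Expansion factor at a marked collision. -/
noncomputable def lam (m : ℕ) : ℝ := 1 + T.r / (4 * (m + 1))

/-- Contraction weight. -/
noncomputable def wt (m k : ℕ) (v : St n) : ℝ := (T.lam m ^ T.cnt m k v)⁻¹

/-- `l₂` leaves the region of `K i` on the side `s` of `l₁`, diverging, with gap at least `W`. -/
def Div (i : Fin n) (s : ℝ) (l₁ l₂ : Ln) (W : ℝ) : Prop :=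
  0 ≤ An s l₁ l₂ ∧ ∃ z ∈ T.B i, |sd l₁ z| ≤ T.r / 8 ∧ |sd l₂ z| ≤ T.r / 8 ∧ W ≤ Dv s l₁ l₂ z

/-- `l₂` enters `K j` on the side `s` of `l₁`, diverging, with gap at least `W`. -/
def InRel (j : Fin n) (s : ℝ) (l₁ l₂ : Ln) (W : ℝ) : Prop :=
  Cross (T.K j) l₁ ∧ Cross (T.K j) l₂ ∧ 0 ≤ An s l₁ l₂ ∧
    W ≤ Dv s l₁ l₂ (enP (T.K j) l₁) ∧ W ≤ Dv s l₁ l₂ (enP (T.K j) l₂)

/-- The incoming line of an outgoing line. -/
noncomputable def inL (i : Fin n) (l : Ln) : Ln := rev (refl (T.b i) (rev l))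

/-- The two lines have crossed before either meets a further obstacle. -/
def Cmp (i : Fin n) (s : ℝ) (l₁ l₂ : Ln) : Prop :=
  0 < An s l₁ l₂ ∧ ∀ k, k ≠ i → 0 ≤ ip (T.ν i k) (dir l₁.1) → ∀ z ∈ T.K k,
    (sd l₁ z = 0 ∨ sd l₂ z = 0) → 0 < Dv s l₁ l₂ z

/-- Same itinerary for `k` steps. -/
def Fol (k : ℕ) (v w : St n) : Prop :=
  v ∈ T.DomN k ∧ w ∈ T.DomN k ∧ ∀ j ≤ k, (T.F^[j] v).1 = (T.F^[j] w).1

/-- The orbits are `δ`-close at the flights `0, …, k`. -/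
def Near (k : ℕ) (δ : ℝ) (v w : St n) : Prop := ∀ j ≤ k, dL (T.F^[j] v).2 (T.F^[j] w).2 < δ

/-- The state after a tangent line of `K l` is reflected at `K i`. -/
noncomputable def post (l : Fin n) (τ : Bool) (i : Fin n) (θ : Ang) : St n :=
  (i, refl (T.b i) (tanL (T.K l) (sg τ) θ))

/-- Directions of tangent lines with a marked state after `k + 1` collisions. -/
def Th (m k : ℕ) (l : Fin n) (τ : Bool) (i : Fin n) : Set Ang :=
  {θ | T.Free l (tanL (T.K l) (sg τ) θ) i ∧ T.post l τ i θ ∈ T.DomN k ∧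
    T.F^[k] (T.post l τ i θ) ∈ T.Mk m}

/-- At flight `k` the orbit of `v` is close to a parallel tangent line of `K l`. -/
def PEv (m : ℕ) (ε : ℝ) (k : ℕ) (l : Fin n) (τ : Bool) (v : St n) : Prop :=
  v ∈ T.DomN k ∧ (rev (T.F^[k] v).2).1 ∈ T.Th m k l τ (T.F^[k] v).1 ∧
    |(rev (T.F^[k] v).2).2 - (tanL (T.K l) (sg τ) (rev (T.F^[k] v).2).1).2| ≤
      ε * T.wt m k (T.post l τ (T.F^[k] v).1 (rev (T.F^[k] v).2).1)

/-- The state reached from the tangent line of the event `PEv`. -/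
noncomputable def pst (k : ℕ) (l : Fin n) (τ : Bool) (v : St n) : St n :=
  T.F^[k] (T.post l τ (T.F^[k] v).1 (rev (T.F^[k] v).2).1)

/-- The collision after flight `k` is grazing. -/
def GEv (m : ℕ) (ε : ℝ) (k : ℕ) (v : St n) : Prop :=
  v ∈ T.DomN (k + 1) ∧ v ∈ T.Mk m ∧
    |ip (dir (T.F^[k] v).2.1)
        ((T.b (T.F^[k + 1] v).1).N (enP (T.K (T.F^[k + 1] v).1) (T.F^[k] v).2))| ≤
      ε * T.wt m k (T.dag (T.F^[k] v))

/-- Bad because of a tangency in the future. -/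
def BadP (m : ℕ) (ε : ℝ) : Set (St n) :=
  {v | ∃ k l τ, T.PEv m ε k l τ v ∧ (T.pst k l τ v).1 = v.1 ∧
    dL v.2 (T.dag (T.pst k l τ v)).2 ≤ ε}

/-- Bad because of a tangency in the past. -/
def BadM (m : ℕ) (ε : ℝ) : Set (St n) :=
  {a | ∃ k l τ, T.PEv m ε k l τ (T.dag a) ∧ (T.pst k l τ (T.dag a)).1 = a.1 ∧
    dL a.2 (T.pst k l τ (T.dag a)).2 ≤ ε}

/-- Bad because of a grazing collision in the future. -/
def BadG (m : ℕ) (ε : ℝ) : Set (St n) := {v | ∃ k, T.GEv m ε k v}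

/-- An increasing curve of lines leaving `K i`, none of which escapes. -/
def TC (i : Fin n) (γ : ℝ → Ln) (a b : ℝ) : Prop :=
  a ≤ b ∧ ContinuousOn γ (Icc a b) ∧
    (∀ s ∈ Icc a b, Cross (T.K i) (γ s) ∧ (i, γ s) ∉ T.EscNS) ∧
    ∀ s ∈ Icc a b, ∀ t ∈ Icc a b, s ≤ t → T.Div i 1 (γ s) (γ t) 0

/-- The `ρ`-neighbourhood of the state `(i, l₀)` is marked and uniformly transversal. -/
def Loc (m : ℕ) (ρ : ℝ) (i : Fin n) (l₀ : Ln) : Prop :=
  0 < ρ ∧ ρ ≤ 1 / 16 ∧ ∀ l, dL l₀ l < ρ → Cross (T.K i) l ∧ (i, l) ∈ T.Mk m ∧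
    ‖exP (T.K i) l - exP (T.K i) l₀‖ ≤ T.r / 16 ∧ ρ ≤ ip (dir l.1) ((T.b i).N (exP (T.K i) l))

/-- The reference point of the chart at `(i, l₀)`. -/
noncomputable def org (i : Fin n) (l₀ : Ln) : ℂ := exP (T.K i) l₀ + T.r • dir l₀.1

/-- Constants. -/
noncomputable def C1 : ℝ := 2 * (1 + T.D) / T.r
/-- Constants. -/
noncomputable def C2 : ℝ := T.C1 * (2 + T.D)
/-- Constants. -/
noncomputable def C3 : ℝ := 10 * (1 + T.D)
/-- Constants. -/
noncomputable def C4 : ℝ := 8 * (1 + T.D) / T.r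
/-- Constants. -/
noncomputable def CE : ℝ := T.C2 * T.C3 * (2 + T.D)

end Table

namespace Tab

variable {n : ℕ} (T : Tab n)

/-- The incoming lines are close and ordered with sign `s` and gap `W`. -/
def PostRel (i : Fin n) (s : ℝ) (l₁ l₂ : Ln) (W : ℝ) : Prop :=
  dL (T.inL i l₁) (T.inL i l₂) ≤ T.δ1 ∧ T.InRel i s (T.inL i l₁) (T.inL i l₂) W

/-- The orbit of `w` leaves the orbit of `v` on the side `s`. -/
def Up (s : ℝ) (v w : St n) : Prop :=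
  ∃ k, T.Fol k v w ∧ T.Near k T.δ1 v w ∧
    T.Cmp (T.F^[k] v).1 ((-1) ^ k * s) (T.F^[k] v).2 (T.F^[k] w).2

/-- Good states straddled by a trapped curve. -/
def Vp (m : ℕ) (ε δ : ℝ) : Set (St n) :=
  {v | v ∈ T.Minf ∧ 0 < ε ∧ ε ≤ T.δ2 ∧ v ∈ T.Deep m ε ∧ v ∉ T.BadP m ε ∧ v ∉ T.BadG m ε ∧
    ∃ γ a τ₁ τ₂ b, T.TC v.1 γ a b ∧ a ≤ τ₁ ∧ τ₁ ≤ τ₂ ∧ τ₂ ≤ b ∧
      (∀ s ∈ Icc a b, T.CE * dL v.2 (γ s) < ε) ∧ T.Up (-1) v (v.1, γ τ₁) ∧ T.Up 1 v (v.1, γ τ₂) ∧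
      δ < An 1 (γ a) (γ τ₁) ∧ δ < An 1 (γ τ₂) (γ b)}

/-- The invariant set. -/
def AA : Set (St n) :=
  {a | a ∈ T.Minf ∧ ∃ (m : ℕ) (ε : ℚ) (d j : ℕ), T.F^[j] a ∈ T.Vp m ε (1 / (d + 1 : ℝ)) ∨
    T.G^[j] a ∈ T.Vp m ε (1 / (d + 1 : ℝ))}

end Tab

end Pool.Agent.P.MP_379466_co
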