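import Pool.Agent.P.MP_379466_co.Dyn

/-!
The invariant measure of the billiard map, the almost everywhere classification and recurrence.
-/

set_option autoImplicit false

namespace Pool.Agent.P.MP_379466_co

open Set MeasureTheory Filter

theorem mu_apply {n : ℕ} {S : Set (St n)} (h : MeasurableSet S) :
    mu n S = ∑ i, volume {l : Ln | (i, l) ∈ S} := by
  rw [mu, Measure.prod_apply h, lintegral_count, tsum_fintype]
  rfl

theorem slice_le_mu {n : ℕ} (S : Set (St n)) (i : Fin n) :
    volume {l : Ln | (i, l) ∈ S} ≤ mu n S := by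
  rw [← measure_toMeasurable S, mu_apply (measurableSet_toMeasurable _ S)]
  refine le_trans (measure_mono fun l hl => ?_)
    (Finset.single_le_sum (f := fun i => volume {l : Ln | (i, l) ∈ toMeasurable (mu n) S})
      (fun _ _ => zero_le) (Finset.mem_univ i))
  exact subset_toMeasurable (mu n) S hl

theorem ae_slice {n : ℕ} {p : St n → Prop} (h : ∀ᵐ v ∂(mu n), p v) (i : Fin n) :
    ∀ᵐ l : Ln, p (i, l) :=
  le_zero_iff.1 ((slice_le_mu {v | ¬ p v} i).trans (le_of_eq h))

namespace Table

variable {n : ℕ} (T : Table (Fin n))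

theorem measurePreserving_dag : MeasurePreserving T.dag (mu n) (mu n) := by
  have hm := T.continuous_dag.measurable
  refine ⟨hm, Measure.ext fun S hS => ?_⟩
  rw [Measure.map_apply hm hS, mu_apply hS, mu_apply (hm hS)]
  exact Finset.sum_congr rfl fun i _ =>
    ((measurePreserving_refl (T.b i)).comp measurePreserving_rev).measure_preimage
      (measurable_prodMk_left hS).nullMeasurableSet

theorem mu_step_le (S : Set (St n)) : mu n (T.Dom ∩ T.F ⁻¹' S) ≤ mu n S := by
  wlog hS : MeasurableSet S generalizing S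
  · rw [← measure_toMeasurable S]
    exact (measure_mono (inter_subset_inter_right _ (preimage_mono (subset_toMeasurable _ S)))).trans
      (this _ (measurableSet_toMeasurable _ S))
  set P : Fin n → Fin n → Set Ln := fun i j => {l | T.Hit i l j} ∩
    refl (T.b j) ⁻¹' {l | (j, l) ∈ S} with hP
  have hm : ∀ j, MeasurableSet {l : Ln | (j, l) ∈ S} := fun j => measurable_prodMk_left hS
  rw [mu_apply hS, mu_apply (T.isOpen_dom.measurableSet.inter (T.measurable_F hS))]
  calc _ ≤ ∑ i, ∑ j, volume (P i j) := by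
        refine Finset.sum_le_sum fun i _ => le_trans (measure_mono ?_) (measure_iUnion_fintype_le _ _)
        rintro l ⟨⟨j, hj⟩, h⟩
        rw [mem_preimage, T.F_of_hit hj] at h
        exact mem_iUnion.2 ⟨j, hj, h⟩
    _ = ∑ j, volume (⋃ i, P i j) := by
        rw [Finset.sum_comm]
        refine Finset.sum_congr rfl fun j _ => ?_
        rw [measure_iUnion, tsum_fintype]
        · exact fun i i' h => disjoint_left.2 fun l h1 h2 =>
            h (T.hit_unique (T.hit_rev h1.1) (T.hit_rev h2.1))
        · exact fun i => (T.isOpen_hit i j).measurableSet.inter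
            ((continuous_refl _).measurable (hm j))
    _ ≤ _ := by
        refine Finset.sum_le_sum fun j _ => ?_
        rw [← (measurePreserving_refl (T.b j)).measure_preimage (hm j).nullMeasurableSet]
        exact measure_mono (iUnion_subset fun i => inter_subset_right)

theorem mu_preimage_le (k : ℕ) (S : Set (St n)) : mu n (T.DomN k ∩ T.F^[k] ⁻¹' S) ≤ mu n S := by
  induction k with
  | zero => exact measure_mono inter_subset_right
  | succ k ih =>
    refine le_trans (measure_mono fun v hv => ?_) ((T.mu_step_le _).trans ih)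
    exact ⟨(T.domN_succ.1 hv.1).1, (T.domN_succ.1 hv.1).2, hv.2⟩

theorem mu_mp_ne_top : mu n T.Mp ≠ ⊤ := by
  have hm : MeasurableSet T.Dom := T.isOpen_dom.measurableSet
  refine ne_top_of_le_ne_top ?_ (measure_mono (show T.Mp ⊆ T.Dom from fun v hv => hv 0))
  rw [mu_apply hm]
  refine ENNReal.sum_ne_top.2 fun i _ => ne_top_of_le_ne_top
    (isCompact_meets (T.b i).cpt).measure_lt_top.ne (measure_mono ?_)
  rintro l ⟨j, hj⟩
  exact hj.1.meets (T.b i).cvx

theorem ae_class : ∀ᵐ v ∂(mu n), Cross (T.K v.1) v.2 → v ∈ T.Minf ∨ v ∈ T.EscNS := by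
  classical
  have h1 : mu n {v | ∃ k, Meets (T.K k) v.2 ∧ ¬ Cross (T.K k) v.2} = 0 := by
    have hm : MeasurableSet {l : Ln | ∃ k, Meets (T.K k) l ∧ ¬ Cross (T.K k) l} := by
      rw [ofPred_exists]
      exact MeasurableSet.iUnion fun k => (isClosed_meets (T.b k).cpt).measurableSet.inter
        (isOpen_cross _).measurableSet.compl
    refine (mu_apply (measurable_snd hm)).trans (Finset.sum_eq_zero fun i _ => ?_)
    show volume {l : Ln | ∃ k, Meets (T.K k) l ∧ ¬ Cross (T.K k) l} = 0
    rw [ofPred_exists]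
    exact measure_iUnion_null fun k => volume_tangent (T.b k).cpt
  have h2 : ∀ k, ∀ᵐ v ∂(mu n), v ∉ T.DomN k ∩ T.F^[k] ⁻¹'
      {v | ∃ k, Meets (T.K k) v.2 ∧ ¬ Cross (T.K k) v.2} := fun k =>
    measure_eq_zero_iff_ae_notMem.1 (le_zero_iff.1 ((T.mu_preimage_le k _).trans h1.le))
  have h3 : ∀ k, ∀ᵐ v ∂(mu n), v ∉ T.Mp \ T.dag ⁻¹' T.DomN k := fun k => by
    have hm := T.continuous_dag.measurable (T.isOpen_domN k).measurableSet
    have e1 := measure_inter_add_sdiff (μ := mu n) T.Mp hm
    have e2 : mu n T.Mp ≤ mu n (T.Mp ∩ T.dag ⁻¹' T.DomN k) := by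
      refine le_trans (measure_mono fun v hv => ?_) (T.mu_preimage_le k _)
      refine ⟨fun j _ => hv j, fun j => ?_, (T.dag_iter fun j _ => hv j).1⟩
      rw [← Function.iterate_add_apply]
      exact hv _
    refine measure_eq_zero_iff_ae_notMem.1 (le_zero_iff.1 (ENNReal.le_of_add_le_add_left
      (a := mu n (T.Mp ∩ T.dag ⁻¹' T.DomN k))
      (ne_top_of_le_ne_top T.mu_mp_ne_top (measure_mono inter_subset_left)) ?_))
    rw [e1, add_zero]
    exact e2
  filter_upwards [ae_all_iff.2 h2, ae_all_iff.2 h3] with v h4 h5 hv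
  by_cases hp : v ∈ T.Mp
  · exact Or.inl ⟨hp, fun k =>
      (by_contra fun h => h5 (k + 1) ⟨hp, h⟩ : T.dag v ∈ T.DomN (k + 1)) k k.lt_succ_self⟩
  · have hex : ∃ k, T.F^[k] v ∉ T.Dom := not_forall.1 hp
    have hd : v ∈ T.DomN (Nat.find hex) := fun j hj => not_not.1 (Nat.find_min hex hj)
    rcases T.trichotomy (T.cross_iter hv hd le_rfl) with h | h | h
    · exact absurd h (Nat.find_spec hex)
    · exact Or.inr ⟨_, hd, h⟩
    · exact absurd ⟨hd, h⟩ (h4 _)

theorem measurePreserving_G :
    MeasurePreserving T.G ((mu n).restrict T.Minf) ((mu n).restrict T.Minf) := by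
  have : IsFiniteMeasure ((mu n).restrict T.Minf) := isFiniteMeasure_restrict.2
    (ne_top_of_le_ne_top T.mu_mp_ne_top (measure_mono fun v hv => hv.1))
  refine ⟨T.measurable_G, Measure.eq_of_le_of_measure_univ_eq (Measure.le_iff.2 fun S hS => ?_) ?_⟩
  · have hm := T.continuous_dag.measurable (hS.inter T.measurableSet_minf)
    rw [Measure.map_apply T.measurable_G hS, Measure.restrict_apply hS,
      Measure.restrict_apply (T.measurable_G hS),
      ← T.measurePreserving_dag.measure_preimage (hS.inter T.measurableSet_minf).nullMeasurableSet]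
    refine le_trans ?_ (T.mu_step_le _)
    rw [← T.measurePreserving_dag.measure_preimage
      (T.isOpen_dom.measurableSet.inter (T.measurable_F hm)).nullMeasurableSet]
    exact measure_mono fun v hv => ⟨hv.2.2 0, hv.1, (T.G_minf hv.2).1⟩
  · rw [Measure.map_apply T.measurable_G MeasurableSet.univ, preimage_univ]

theorem iter_G_minf {a : St n} (ha : a ∈ T.Minf) (t : ℕ) : T.G^[t] a ∈ T.Minf := by
  induction t with
  | zero => exact ha
  | succ t ih =>
    rw [Function.iterate_succ_apply']
    exact (T.G_minf ih).1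

theorem iter_F_G {a : St n} (ha : a ∈ T.Minf) (t j : ℕ) : T.F^[j] (T.G^[t + j] a) = T.G^[t] a := by
  induction j with
  | zero => rfl
  | succ j ih =>
    rw [← add_assoc, Function.iterate_succ_apply' T.G, Function.iterate_succ_apply,
      (T.G_minf (T.iter_G_minf ha _)).2, ih]

set_option linter.unusedVariables false in
theorem recurrence {V : Set (St n)} (hV : MeasurableSet V) (hV' : V ⊆ T.Minf) :
    ∀ᵐ a ∂(mu n), a ∈ T.Minf → (∃ j, T.F^[j] a ∈ V ∨ T.G^[j] a ∈ V) →
      ∀ N, ∃ t, N ≤ t ∧ T.G^[t] a ∈ V := by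
  have : IsFiniteMeasure ((mu n).restrict T.Minf) := isFiniteMeasure_restrict.2
    (ne_top_of_le_ne_top T.mu_mp_ne_top (measure_mono fun v hv => hv.1))
  have hc := T.measurePreserving_G.conservative
  have h1 := hc.ae_forall_image_mem_imp_frequently_image_mem hV.nullMeasurableSet
  have h2 := ae_all_iff.2 fun j : ℕ =>
    hc.ae_mem_imp_frequently_image_mem (T.measurable_F.iterate j hV).nullMeasurableSet
  filter_upwards [ae_imp_of_ae_restrict (h1.and h2)] with a h ha ⟨j, hj⟩ N
  rcases hj with hj | hj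
  · obtain ⟨t, ht, h3⟩ := frequently_atTop.1 ((h ha).2 j hj) (N + j)
    obtain ⟨s, rfl⟩ := Nat.exists_eq_add_of_le' (le_of_add_le_right ht)
    rw [mem_preimage, T.iter_F_G ha] at h3
    exact ⟨s, by omega, h3⟩
  · exact frequently_atTop.1 ((h ha).1 j hj) N

end Table

end Pool.Agent.P.MP_379466_co
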