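import Pool.Agent.P.MP_379466_co.Event1

/-!
The shadowing lemma: a neighbour that is neither above nor below follows the orbit unless a
tangency is near.
-/

set_option autoImplicit false

namespace Pool.Agent.P.MP_379466_co

open Set Metric Complex

namespace Tab

variable {n : ℕ} (T : Tab n)

theorem ev_free_rev {i l : Fin n} {x : Ln} (hli : l ≠ i) (hc : Cross (T.K i) x)
    (hp : 0 < ip (T.ν i l) (dir x.1))
    (h : ∀ k, k ≠ i → k ≠ l → 0 ≤ ip (T.ν i k) (dir x.1) → 0 ≤ ip (T.ν k l) (dir x.1) →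
      ¬ Meets (T.K k) x) : T.Free l (rev x) i := by
  refine ⟨hli, (cross_rev _ _).2 hc, by rwa [T.ev_back], fun k h1 h2 h3 h4 => ?_⟩
  rw [T.ev_back] at h3 h4
  rw [meets_rev]
  exact h k h2 h1 h4 h3

theorem ev_not_cmp {i : Fin n} {x y : Ln} (h₁ : ¬ T.Cmp i 1 x y) (h₂ : ¬ T.Cmp i (-1) x y)
    {s : ℝ} (hs : s = 1 ∨ s = -1) (ha : 0 < An s x y) :
    ∃ k, k ≠ i ∧ 0 ≤ ip (T.ν i k) (dir x.1) ∧ ∃ z ∈ T.K k, (sd x z = 0 ∨ sd y z = 0) ∧
      Dv s x y z ≤ 0 := by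
  have h : ¬ T.Cmp i s x y := by rcases hs with rfl | rfl <;> assumption
  by_contra hcon
  refine h ⟨ha, fun k h1 h2 z hz h0 => not_le.1 fun h3 => hcon ⟨k, h1, h2, z, hz, h0, h3⟩⟩

/-- The neighbour meets an obstacle that the orbit misses. -/
theorem ev_miss {m k : ℕ} {ε : ℝ} {v w : St n} (hε : ε ≤ T.δ2) (hv : v ∈ T.Deep m ε)
    (hd : T.CE * dL v.2 w.2 < ε) (hf : T.Fol k v w)
    (hn : ∀ j ≤ k, dL (T.F^[j] v).2 (T.F^[j] w).2 ≤ T.δ1) {i : Fin n} {x y : Ln}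
    (hi : i = (T.F^[k] v).1) (hx : x = (T.F^[k] v).2) (hy : y = (T.F^[k] w).2)
    (h₁ : ¬ T.Cmp i 1 x y) (h₂ : ¬ T.Cmp i (-1) x y) {l : Fin n} (l1 : l ≠ i)
    (l2 : 0 ≤ ip (T.ν i l) (dir y.1)) (l3 : Meets (T.K l) y)
    (l4 : ∀ k', k' ≠ i → 0 ≤ ip (T.ν i k') (dir y.1) → ∀ z ∈ T.K k', sd y z = 0 →
      tm y (enP (T.K l) y) ≤ tm y z)
    (l5 : ∀ k', k' ≠ i → k' ≠ l → 0 ≤ ip (T.ν i k') (dir y.1) → 0 ≤ ip (T.ν k' l) (dir y.1) →
      ¬ Meets (T.K k') y)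
    (x1 : ¬ Meets (T.K l) x)
    (x2 : ∀ k', k' ≠ i → 0 ≤ ip (T.ν i k') (dir x.1) → ∀ z ∈ T.K k', sd x z = 0 →
      tm x (enP (T.K l) y) ≤ tm x z) : v ∈ T.BadP m ε := by
  obtain ⟨-, cx, cy⟩ := T.ev_cross hv hd hf
  rw [← hi, ← hx] at cx
  rw [← hi, ← hy] at cy
  have r0 := T.r_pos
  have dxy : dL x y ≤ T.δ1 := by rw [hx, hy]; exact hn k le_rfl
  have dyx : dL y x ≤ T.δ1 := by rwa [dL_comm]
  obtain ⟨p, hp, p0⟩ := cx.meets (T.b i).cvx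
  set Q := enP (T.K l) y with hQ
  have hQK : Q ∈ T.K l := enP_mem (T.b l).cpt l3
  have Q0 : sd y Q = 0 := sd_enP _ _
  have Qs : |sd x Q| ≤ T.r / 4 := by linarith [T.ev_sd_small dxy hQK Q0]
  have px : 0 < ip (T.ν i l) (dir x.1) := T.ev_transfer dxy l1.symm hp hQK (.inl p0) (.inr Q0) l2
  have py : 0 < ip (T.ν i l) (dir y.1) :=
    T.ev_transfer dyx l1.symm hp hQK (.inr p0) (.inl Q0) px.le
  have after : ∀ k', k' ≠ i → 0 ≤ ip (T.ν i k') (dir x.1) → ∀ z ∈ T.K k', sd x z = 0 →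
      l ≠ k' ∧ 0 < ip (T.ν l k') (dir x.1) := by
    intro k' h1 h2 z hz h0
    have hne : l ≠ k' := by rintro rfl; exact x1 ⟨z, hz, h0⟩
    refine ⟨hne, ?_⟩
    rcases T.order hne (T.K_sub_B l hQK) (T.K_sub_B k' hz) Qs
      (by rw [h0, abs_zero]; positivity) with ⟨h, -⟩ | ⟨-, h⟩
    · exact h
    · linarith [x2 k' h1 h2 z hz h0]
  obtain ⟨τ, hτ, side⟩ := side_of_not_meets (T.b l).cvx x1
  have DQ : Dv τ x y Q = τ * sd x Q := by unfold Dv; rw [Q0, sub_zero]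
  have DQ0 : 0 < Dv τ x y Q := DQ ▸ side Q hQK
  have han : An τ x y ≤ 0 := by
    by_contra hcon
    have ha := not_le.1 hcon
    obtain ⟨k', h1, h2, z, hz, h0, h3⟩ := T.ev_not_cmp h₁ h₂ hτ ha
    rcases h0 with h0 | h0
    · obtain ⟨hne, h4⟩ := after k' h1 h2 z hz h0
      have := Table.flight_core hτ (dxy.trans T.δ1_le_one) ha.le (T.ν_norm l k' hne) h4.le r0
        (T.sep l k' hne Q (T.K_sub_B l hQK) z (T.K_sub_B k' hz)) Qs
        (by rw [h0, abs_zero]; positivity)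
      nlinarith [mul_pos r0 ha]
    · have h4 := T.ev_transfer dyx h1.symm hp hz (.inr p0) (.inl h0) h2
      have h5 := l4 k' h1 h4.le z hz h0
      rw [Dv_along₂ τ x Q0 h0] at h3
      nlinarith [mul_nonneg (sub_nonneg.2 h5) ha.le]
  have fX : T.Free l (rev x) i := T.ev_free_rev l1 cx px fun k' h1 h2 h3 h4 ⟨z, hz, h0⟩ => by
    have := (after k' h1 h3 z hz h0).2
    rw [T.ν_anti k' l, ev_ip_neg_left] at this
    linarith
  have fY : T.Free l (rev y) i := T.ev_free_rev l1 cy py l5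
  have hσ := ev_sign_neg hτ
  have sZ := tanL_side (T.b l).cpt hσ (rev x).1
  obtain ⟨c, hc, c0⟩ := tanL_meets (T.b l).cpt ⟨Q, hQK⟩ hσ (rev x).1
  refine T.ev_badP hε hv hd hf hn hσ hσ (X := rev x) (Y := rev y) (by rw [hx]) (by rw [hy]) rfl
    (hi ▸ fX) (hi ▸ fY) (by rw [An_rev, ev_An_neg]; linarith) hQK ?_ ?_
    (.inr (by rw [sd_rev, Q0, neg_zero]))
  · have e : Dv (-τ) (rev x) (tanL (T.K l) (-τ) (rev x).1) Q =
        Dv (-τ) (rev x) (tanL (T.K l) (-τ) (rev x).1) c := by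
      unfold Dv sd tanL; ring
    rw [e]
    unfold Dv
    rw [c0, sd_rev]
    linarith [side c hc]
  · unfold Dv
    rw [sd_rev, Q0]
    linarith [sZ Q hQK]

/-- The normal at the entry point when the neighbour touches the obstacle from behind. -/
theorem ev_graze {j : Fin n} {x y : Ln} (dxy : dL x y ≤ T.δ1) (cx : Cross (T.K j) x) {τ : ℝ}
    (hτ : τ = 1 ∨ τ = -1) (side : ∀ z ∈ T.K j, 0 ≤ τ * sd y z) (ha : An τ x y < 0) {z : ℂ}
    (hz : z ∈ T.K j) (z0 : sd y z = 0) (z1 : 0 ≤ τ * sd x z) :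
    |ip (dir x.1) ((T.b j).N (enP (T.K j) x))| ≤ dL x y := by
  set P := enP (T.K j) x with hP
  set N := (T.b j).N P with hN
  have hm := cx.meets (T.b j).cvx
  have PK : P ∈ T.K j := enP_mem (T.b j).cpt hm
  have Pf : P ∈ frontier (T.K j) := enP_frontier (T.b j).cpt hm
  have P0 : sd x P = 0 := sd_enP _ _
  have n1 : ‖N‖ = 1 := (T.b j).N_norm P Pf
  have neg : ip (dir x.1) N < 0 := (T.b j).ip_enP_neg cx
  obtain ⟨zf, Nz⟩ := (T.b j).N_of_side hτ hz z0 side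
  have ux := norm_dir x.1
  have uy := norm_dir y.1
  have duv : ‖dir x.1 - dir y.1‖ ≤ T.δ1 := (dir_le_dL x y).trans dxy
  have D0 := T.ev_D_pos
  have close : ‖N - (T.b j).N z‖ ≤ 1 / 2 := by
    refine (T.hN j P Pf z zf _ _ ux uy neg.le ?_ duv ?_).trans ?_
    · rw [Nz]; simp [ip]; ring_nf; rfl
    · rw [← sd_sub, P0, sub_zero]
      exact (T.ev_sd_le hz z0).trans (mul_le_mul_of_nonneg_left dxy (by linarith))
    · rw [div_le_iff₀ (by positivity)]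
      nlinarith [T.r_le]
  set t := ip (dir y.1) (P - z) with ht
  set g := cr (dir y.1) (P - z) with hg
  have dec : P - z = t • dir y.1 + g • (I * dir y.1) := decomp uy _
  have g0 : 0 ≤ τ * g := by
    rw [hg, ← sd_sub, z0, sub_zero]; exact side P PK
  have ipn := ev_ip_nonneg ux (duv.trans T.δ1_le_one)
  have t0 : 0 ≤ t := by
    have e1 : sd x P - sd x z = t * cr (dir x.1) (dir y.1) + g * ip (dir x.1) (dir y.1) := by
      rw [sd_sub, dec]; simp [cr, ip]; ring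
    have e2 : t * -An τ x y = τ * sd x z + τ * g * ip (dir x.1) (dir y.1) := by
      unfold An
      rw [P0] at e1
      linear_combination τ * e1
    have e3 : 0 ≤ t * -An τ x y := by rw [e2]; positivity
    exact nonneg_of_mul_nonneg_left e3 (by linarith)
  have out : 0 ≤ t * ip (dir y.1) N + g * ip N (I * dir y.1) := by
    have h1 := (T.b j).N_out P Pf z hz
    have e : ip N (z - P) = -(t * ip (dir y.1) N + g * ip N (I * dir y.1)) := by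
      rw [← neg_sub P z, dec]; simp [ip]; ring
    rw [← hN, e] at h1
    linarith
  have err : g * ip N (I * dir y.1) ≤ -(τ * g) / 2 := by
    have u2 := unit_sq uy
    have e : ip N (I * dir y.1) = ip (N - (T.b j).N z) (I * dir y.1) - τ := by
      rw [Nz]; simp [ip]; linear_combination (-τ) * u2
    have h1 := abs_ip_le (N - (T.b j).N z) (I * dir y.1)
    rw [norm_mul, norm_I, uy, one_mul, mul_one] at h1
    obtain ⟨h2, h3⟩ := abs_le.1 (h1.trans close)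
    rw [e]
    rcases hτ with rfl | rfl <;> nlinarith
  have pos : 0 ≤ ip (dir y.1) N := by
    rcases t0.eq_or_lt with h | h
    · have g1 : τ * g = 0 := by rw [← h] at out; linarith
      have g2 : g = 0 := by rcases hτ with rfl | rfl <;> linarith
      have e : P = z := by rw [← sub_eq_zero, dec, ← h, g2]; simp
      rw [hN, e, Nz]; simp [ip]; ring_nf; rfl
    · exact nonneg_of_mul_nonneg_right (by linarith : 0 ≤ t * ip (dir y.1) N) h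
  have h1 := abs_ip_le (dir x.1 - dir y.1) N
  have e : ip (dir x.1 - dir y.1) N = ip (dir x.1) N - ip (dir y.1) N := by simp [ip]; ring
  rw [n1, mul_one, e] at h1
  rw [abs_of_neg neg]
  linarith [neg_abs_le (ip (dir x.1) N - ip (dir y.1) N), dir_le_dL x y]

theorem event {m k : ℕ} {ε : ℝ} {v w : St n} (hε : ε ≤ T.δ2) (hv : v ∈ T.Deep m ε)
    (hd : T.CE * dL v.2 w.2 < ε) (hf : T.Fol k v w)
    (hn : ∀ j ≤ k, dL (T.F^[j] v).2 (T.F^[j] w).2 ≤ T.δ1)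
    (h₁ : ¬ T.Cmp (T.F^[k] v).1 1 (T.F^[k] v).2 (T.F^[k] w).2)
    (h₂ : ¬ T.Cmp (T.F^[k] v).1 (-1) (T.F^[k] v).2 (T.F^[k] w).2)
    (h : (T.F^[k] v ∈ T.Dom ∧ ¬ T.Hit (T.F^[k] v).1 (T.F^[k] w).2 (T.F^[k + 1] v).1) ∨
      (T.F^[k] v ∈ T.Esc ∧ T.F^[k] w ∉ T.Esc)) :
    v ∈ T.BadP m ε ∨ v ∈ T.BadG m ε := by
  obtain ⟨vM, cx, cy⟩ := T.ev_cross hv hd hf
  have ew : (T.F^[k] w).1 = (T.F^[k] v).1 := (hf.2.2 k le_rfl).symm
  obtain ⟨i, hi⟩ : ∃ i, i = (T.F^[k] v).1 := ⟨_, rfl⟩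
  obtain ⟨x, hx⟩ : ∃ x, x = (T.F^[k] v).2 := ⟨_, rfl⟩
  obtain ⟨y, hy⟩ : ∃ y, y = (T.F^[k] w).2 := ⟨_, rfl⟩
  have r0 := T.r_pos
  have dxy : dL x y ≤ T.δ1 := by rw [hx, hy]; exact hn k le_rfl
  have dyx : dL y x ≤ T.δ1 := by rwa [dL_comm]
  rw [← hi, ← hx, ← hy] at h₁ h₂
  rw [← hi, ← hx] at cx
  rw [← hi, ← hy] at cy
  obtain ⟨p, hp, p0⟩ := cx.meets (T.b i).cvx
  rcases h with ⟨hdom, hnot⟩ | ⟨he, hne⟩
  swap
  · left
    have he2 := he.2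
    rw [← hi, ← hx] at he2
    obtain ⟨k', a1, a2, a3⟩ : ∃ k', k' ≠ i ∧ 0 ≤ ip (T.ν i k') (dir y.1) ∧ Meets (T.K k') y := by
      by_contra hcon
      refine hne ⟨by rw [ew, ← hi, ← hy]; exact cy, ?_⟩
      rw [ew, ← hi, ← hy]
      exact fun k' b1 b2 b3 => hcon ⟨k', b1, b2, b3⟩
    obtain ⟨l, l1, l2, l3, l4, l5⟩ := T.first_met a1 a2 a3
    refine T.ev_miss hε hv hd hf hn hi hx hy h₁ h₂ l1 l2 l3 l4 l5
      (he2 l l1 (T.ev_transfer dxy l1.symm hp (enP_mem (T.b l).cpt l3) (.inl p0)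
        (.inr (sd_enP _ _)) l2).le) fun k' b1 b2 z hz h0 => (he2 k' b1 b2 ⟨z, hz, h0⟩).elim
  obtain ⟨j, hj⟩ : ∃ j, j = (T.F^[k + 1] v).1 := ⟨_, rfl⟩
  have hit : T.Hit i x j := by
    rw [hi, hx, hj, Function.iterate_succ_apply']; exact (T.hit_F hdom).1
  rw [← hi, ← hy, ← hj] at hnot
  obtain ⟨hij, cj, px, fx⟩ := hit.2
  set P := enP (T.K j) x with hP
  have PK : P ∈ T.K j := enP_mem (T.b j).cpt (cj.meets (T.b j).cvx)
  have P0 : sd x P = 0 := sd_enP _ _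
  have Ps : |sd y P| ≤ T.r / 4 := by linarith [T.ev_sd_small dyx PK P0]
  have py : 0 < ip (T.ν i j) (dir y.1) := T.ev_transfer dyx hij hp PK (.inr p0) (.inr P0) px.le
  by_cases hM : ∃ k', k' ≠ i ∧ k' ≠ j ∧ 0 ≤ ip (T.ν i k') (dir y.1) ∧
      0 ≤ ip (T.ν k' j) (dir y.1) ∧ Meets (T.K k') y
  · left
    obtain ⟨k', a1, a2, a3, a4, z', hz', z0⟩ := hM
    obtain ⟨l, l1, l2, l3, l4, l5⟩ := T.first_met a1 a3 ⟨z', hz', z0⟩
    have QK : enP (T.K l) y ∈ T.K l := enP_mem (T.b l).cpt l3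
    have Q0 : sd y (enP (T.K l) y) = 0 := sd_enP _ _
    have q1 := l4 k' a1 a3 z' hz' z0
    have z4 : |sd y z'| ≤ T.r / 4 := by rw [z0, abs_zero]; positivity
    have Q4 : |sd y (enP (T.K l) y)| ≤ T.r / 4 := by rw [Q0, abs_zero]; positivity
    have lj : l ≠ j := by
      rintro rfl
      rcases T.order a2 (T.K_sub_B _ hz') (T.K_sub_B _ QK) z4 Q4 with ⟨-, h⟩ | ⟨h, -⟩ <;> linarith
    have q2 : tm y z' + T.r ≤ tm y P := by
      rcases T.order a2 (T.K_sub_B _ hz') (T.K_sub_B _ PK) z4 Ps with ⟨-, h⟩ | ⟨h, -⟩ <;> linarith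
    have q3 : 0 ≤ ip (T.ν l j) (dir y.1) := by
      rcases T.order lj (T.K_sub_B _ QK) (T.K_sub_B _ PK) Q4 Ps with ⟨h, -⟩ | ⟨-, h⟩ <;> linarith
    have q4 := T.ev_transfer dxy lj QK PK (.inr Q0) (.inl P0) q3
    have q5 := T.ev_transfer dxy l1.symm hp QK (.inl p0) (.inr Q0) l2
    have q6 : tm x (enP (T.K l) y) ≤ tm x P := by
      rcases T.order lj (T.K_sub_B _ QK) (T.K_sub_B _ PK) (l := x)
        (by linarith [T.ev_sd_small dxy QK Q0]) (by rw [P0, abs_zero]; positivity) with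
        ⟨-, h⟩ | ⟨h, -⟩ <;> linarith
    exact T.ev_miss hε hv hd hf hn hi hx hy h₁ h₂ l1 l2 l3 l4 l5 (fx l l1 lj q5.le q4.le)
      fun k'' b1 b2 z hz h0 => q6.trans (hit.2.tm_le _ b1 b2 hz h0)
  have fy : ∀ k', k' ≠ i → k' ≠ j → 0 ≤ ip (T.ν i k') (dir y.1) →
      0 ≤ ip (T.ν k' j) (dir y.1) → ¬ Meets (T.K k') y :=
    fun k' b1 b2 b3 b4 b5 => hM ⟨k', b1, b2, b3, b4, b5⟩
  have ncj : ¬ Cross (T.K j) y := fun h => hnot ⟨cy, hij, h, py, fy⟩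
  obtain ⟨τ, hτ, side⟩ := side_of_not_cross ncj
  have hσ := ev_sign_neg hτ
  have fX : T.Free j (rev x) i := (T.hit_rev hit).2
  have fY : T.Free j (rev y) i := T.ev_free_rev hij.symm cy py fy
  rcases le_or_gt 0 (An τ x y) with ha | ha
  · left
    have sZ := tanL_side (T.b j).cpt hσ (rev x).1
    obtain ⟨c, hc, c0⟩ := tanL_meets (T.b j).cpt ⟨P, PK⟩ hσ (rev x).1
    refine T.ev_badP hε hv hd hf hn hτ hσ (X := rev x) (Y := rev y) (by rw [hx]) (by rw [hy]) rfl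
      (hi ▸ fX) (hi ▸ fY) (by rwa [An_rev]) hc ?_ ?_ (.inl c0)
    · have e : Dv τ (rev x) (tanL (T.K j) (-τ) (rev x).1) c =
          Dv τ (rev x) (tanL (T.K j) (-τ) (rev x).1) P := by
        unfold Dv sd tanL; ring
      rw [e]
      unfold Dv
      rw [sd_rev, P0]
      linarith [sZ P PK]
    · unfold Dv
      rw [c0, sd_rev]
      linarith [side c hc]
  · right
    have ha' : 0 < An (-τ) x y := by rw [ev_An_neg]; linarith
    have DP : Dv (-τ) x y P = τ * sd y P := by unfold Dv; rw [P0]; ring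
    have DP0 : 0 ≤ Dv (-τ) x y P := DP ▸ side P PK
    obtain ⟨z, hz, z0, z1⟩ : ∃ z ∈ T.K j, sd y z = 0 ∧ Dv (-τ) x y z ≤ 0 := by
      obtain ⟨k', b1, b2, z, hz, h0, h3⟩ := T.ev_not_cmp h₁ h₂ hσ ha'
      rcases h0 with h0 | h0
      · have b3 := hit.2.tm_le _ b1 b2 hz h0
        rw [Dv_along₁ (-τ) y P0 h0] at h3
        have b4 : Dv (-τ) x y P ≤ 0 := by nlinarith [mul_nonneg (sub_nonneg.2 b3) ha'.le]
        refine ⟨P, PK, ?_, b4⟩
        have b5 : τ * sd y P = 0 := by linarith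
        rcases hτ with rfl | rfl <;> linarith
      · by_cases hkj : k' = j
        · exact ⟨z, hkj ▸ hz, h0, h3⟩
        · exfalso
          have b3 := T.ev_transfer dyx b1.symm hp hz (.inr p0) (.inl h0) b2
          have b4 : 0 ≤ ip (T.ν j k') (dir y.1) := by
            by_contra hcon
            refine fy k' b1 hkj b3.le ?_ ⟨z, hz, h0⟩
            rw [T.ν_anti j k', ev_ip_neg_left]
            linarith
          have b5 := T.ev_transfer dxy (Ne.symm hkj) PK hz (.inl P0) (.inr h0) b4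
          have := Table.flight_core hσ (dxy.trans T.δ1_le_one) ha'.le (T.ν_norm j k' (Ne.symm hkj))
            b5.le r0 (T.sep j k' (Ne.symm hkj) P (T.K_sub_B j PK) z (T.K_sub_B k' hz))
            (by rw [P0, abs_zero]; positivity) (by linarith [T.ev_sd_small dxy hz h0])
          nlinarith [mul_pos r0 ha']
    have dv : T.Div j (-τ) (rev x) (rev y) 0 := by
      refine ⟨by rw [An_rev]; exact ha'.le, z, T.K_sub_B j hz, ?_, ?_, by rw [Dv_rev]; linarith⟩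
      · rw [sd_rev, abs_neg]; linarith [T.ev_sd_small dxy hz z0]
      · rw [sd_rev, z0, neg_zero, abs_zero]; positivity
    have rb := T.rev_bound m hσ hf hn (hi ▸ hx ▸ fX) (hi ▸ hy ▸ fY) (hx ▸ hy ▸ dv) k le_rfl
    have gz := T.ev_graze dxy cj hτ side ha hz z0 (by
      unfold Dv at z1; rw [z0] at z1; linarith)
    refine ⟨k, T.domN_succ'.2 ⟨hf.1, hdom⟩, vM, ?_⟩
    rw [← hj, ← hx]
    rw [← hx, ← hy] at rb
    have w0 := T.wt_pos m k (T.dag (T.F^[k] v))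
    have k2 := (T.ev_CE _ (dL_nonneg v.2 w.2)).2.1
    have := mul_le_mul_of_nonneg_right (k2.trans hd.le) w0.le
    nlinarith

theorem ev_signs {k : ℕ} {v w : St n} (hf : T.Fol k v w) (hn : T.Near k T.δ1 v w)
    (h₁ : ¬ T.Up 1 v w) (h₂ : ¬ T.Up (-1) v w) :
    ¬ T.Cmp (T.F^[k] v).1 1 (T.F^[k] v).2 (T.F^[k] w).2 ∧
      ¬ T.Cmp (T.F^[k] v).1 (-1) (T.F^[k] v).2 (T.F^[k] w).2 := by
  have a := fun h => h₁ ⟨k, hf, hn, h⟩
  have b := fun h => h₂ ⟨k, hf, hn, h⟩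
  rcases neg_one_pow_eq_or ℝ k with e | e <;> rw [e] at a b <;> simp only [mul_one, mul_neg,
    neg_neg] at a b
  · exact ⟨a, b⟩
  · exact ⟨b, a⟩

theorem ev_step {m : ℕ} {ε : ℝ} {v w : St n} (hε : ε ≤ T.δ2) (hv : v ∈ T.Deep m ε)
    (hP : v ∉ T.BadP m ε) (hG : v ∉ T.BadG m ε) (hd : T.CE * dL v.2 w.2 < ε)
    (h₁ : ¬ T.Up 1 v w) (h₂ : ¬ T.Up (-1) v w) {k : ℕ} (hf : T.Fol k v w)
    (hn : T.Near k T.δ1 v w) (hk : T.F^[k] v ∈ T.Dom) :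
    T.Fol (k + 1) v w ∧ T.Near (k + 1) T.δ1 v w ∧ ∀ j ≤ k, dL (T.F^[j] v).2 (T.F^[j] w).2 ≤
      T.C2 * T.wt m j (T.dag (T.F^[j] v)) * dL v.2 w.2 := by
  obtain ⟨c₁, c₂⟩ := T.ev_signs hf hn h₁ h₂
  have hn' : ∀ j ≤ k, dL (T.F^[j] v).2 (T.F^[j] w).2 ≤ T.δ1 := fun j hj => (hn j hj).le
  have hy : T.Hit (T.F^[k] v).1 (T.F^[k] w).2 (T.F^[k + 1] v).1 := by
    by_contra hcon
    exact (T.event hε hv hd hf hn' c₁ c₂ (.inl ⟨hk, hcon⟩)).elim hP hG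
  have ew : (T.F^[k] w).1 = (T.F^[k] v).1 := (hf.2.2 k le_rfl).symm
  obtain ⟨hx, ex⟩ := T.hit_F hk
  rw [← Function.iterate_succ_apply' T.F k v] at hx ex
  have ey : T.F^[k + 1] w = ((T.F^[k + 1] v).1, refl (T.b (T.F^[k + 1] v).1) (T.F^[k] w).2) := by
    rw [Function.iterate_succ_apply' T.F k w]
    exact T.F_of_hit (ew ▸ hy)
  have r0 := T.r_pos
  have rb : ∀ j ≤ k, dL (T.F^[j] v).2 (T.F^[j] w).2 ≤
      T.C2 * T.wt m j (T.dag (T.F^[j] v)) * dL v.2 w.2 := by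
    have dxy := hn' k le_rfl
    generalize (T.F^[k + 1] v).1 = j at hx hy
    suffices h : ∃ s : ℝ, (s = 1 ∨ s = -1) ∧
        T.Div j s (rev (T.F^[k] v).2) (rev (T.F^[k] w).2) 0 by
      obtain ⟨s, hs, h⟩ := h
      exact T.rev_bound m hs hf hn' (T.hit_rev hx).2 (T.hit_rev hy).2 h
    generalize (T.F^[k] v).1 = i at hx hy c₁ c₂
    generalize (T.F^[k] v).2 = x at hx c₁ c₂ dxy
    generalize (T.F^[k] w).2 = y at hy c₁ c₂ dxy
    have dyx : dL y x ≤ T.δ1 := by rwa [dL_comm]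
    have PK : enP (T.K j) x ∈ T.K j := enP_mem (T.b j).cpt (hx.2.2.1.meets (T.b j).cvx)
    have QK : enP (T.K j) y ∈ T.K j := enP_mem (T.b j).cpt (hy.2.2.1.meets (T.b j).cvx)
    have P0 : sd x (enP (T.K j) x) = 0 := sd_enP _ _
    have Q0 : sd y (enP (T.K j) y) = 0 := sd_enP _ _
    have mkd : ∀ s : ℝ, 0 ≤ An s x y → ∀ z ∈ T.K j, (sd x z = 0 ∨ sd y z = 0) → Dv s x y z ≤ 0 →
        T.Div j s (rev x) (rev y) 0 := by
      intro s ha z hz h0 h3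
      refine ⟨by rwa [An_rev], z, T.K_sub_B j hz, ?_, ?_, by rw [Dv_rev]; linarith⟩ <;>
        rw [sd_rev, abs_neg] <;> rcases h0 with h0 | h0
      · rw [h0, abs_zero]; positivity
      · linarith [T.ev_sd_small dxy hz h0]
      · linarith [T.ev_sd_small dyx hz h0]
      · rw [h0, abs_zero]; positivity
    have pos : ∀ s : ℝ, (s = 1 ∨ s = -1) → 0 < An s x y → T.Div j s (rev x) (rev y) 0 := by
      intro s hs ha
      obtain ⟨k', b1, b2, z, hz, h0, h3⟩ := T.ev_not_cmp c₁ c₂ hs ha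
      rcases h0 with h0 | h0
      · have b3 := hx.2.tm_le _ b1 b2 hz h0
        rw [Dv_along₁ s y P0 h0] at h3
        exact mkd s ha.le _ PK (.inl P0) (by nlinarith [mul_nonneg (sub_nonneg.2 b3) ha.le])
      · obtain ⟨p, hp, p0⟩ := hx.1.meets (T.b i).cvx
        have b3 := hy.2.tm_le _ b1 (T.ev_transfer dyx b1.symm hp hz (.inr p0) (.inl h0) b2).le hz h0
        rw [Dv_along₂ s x Q0 h0] at h3
        exact mkd s ha.le _ QK (.inr Q0) (by nlinarith [mul_nonneg (sub_nonneg.2 b3) ha.le])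
    rcases lt_trichotomy (An 1 x y) 0 with ha | ha | ha
    · exact ⟨-1, .inr rfl, pos _ (.inr rfl) (by rw [ev_An_neg]; linarith)⟩
    · rcases le_total (Dv 1 x y (enP (T.K j) x)) 0 with h | h
      · exact ⟨1, .inl rfl, mkd 1 ha.ge _ PK (.inl P0) h⟩
      · exact ⟨-1, .inr rfl, mkd (-1) (by rw [ev_An_neg]; linarith) _ PK (.inl P0)
          (by rw [ev_Dv_neg]; linarith)⟩
    · exact ⟨1, .inl rfl, pos _ (.inl rfl) ha⟩
  refine ⟨⟨T.domN_succ'.2 ⟨hf.1, hk⟩, T.domN_succ'.2 ⟨hf.2.1, _, ew ▸ hy⟩, fun j hj => ?_⟩,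
    fun j hj => ?_, rb⟩
  · rcases hj.eq_or_lt with rfl | hj
    · rw [ey]
    · exact hf.2.2 j (by omega)
  · rcases hj.eq_or_lt with rfl | hj
    · rw [ey, ex]
      refine T.hrefl _ _ _ hx.2.2.1 hy.2.2.1 ?_
      have := T.ev_plain rb k le_rfl
      have k2 := (T.ev_CE _ (dL_nonneg v.2 w.2)).2.1
      linarith
    · exact hn j (by omega)

theorem ev_fol {m : ℕ} {ε : ℝ} {v w : St n} (hε : ε ≤ T.δ2) (hv : v ∈ T.Deep m ε)
    (hP : v ∉ T.BadP m ε) (hG : v ∉ T.BadG m ε) (hi : w.1 = v.1) (hd : T.CE * dL v.2 w.2 < ε)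
    (h₁ : ¬ T.Up 1 v w) (h₂ : ¬ T.Up (-1) v w) (k : ℕ) (hk : v ∈ T.DomN k) :
    T.Fol k v w ∧ T.Near k T.δ1 v w := by
  induction k with
  | zero =>
    refine ⟨⟨hk, fun j hj => absurd hj (Nat.not_lt_zero j), fun j hj => ?_⟩, fun j hj => ?_⟩ <;>
      obtain rfl : j = 0 := by omega
    · exact hi.symm
    · have k1 := (T.ev_CE _ (dL_nonneg v.2 w.2)).1
      have := T.ev_δ2_le
      show dL v.2 w.2 < T.δ1
      linarith
  | succ k ih =>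
    obtain ⟨a, b⟩ := T.domN_succ'.1 hk
    obtain ⟨c, d, -⟩ := T.ev_step hε hv hP hG hd h₁ h₂ (ih a).1 (ih a).2 b
    exact ⟨c, d⟩

theorem shadow {m : ℕ} {ε : ℝ} {v w : St n} (hε : ε ≤ T.δ2) (hv : v ∈ T.Deep m ε)
    (hP : v ∉ T.BadP m ε) (hG : v ∉ T.BadG m ε) (hi : w.1 = v.1) (hd : T.CE * dL v.2 w.2 < ε)
    (h₁ : ¬ T.Up 1 v w) (h₂ : ¬ T.Up (-1) v w) (k : ℕ) (hk : v ∈ T.DomN (k + 1)) :
    T.Fol (k + 1) v w ∧ T.Near (k + 1) T.δ1 v w ∧ ∀ j ≤ k, dL (T.F^[j] v).2 (T.F^[j] w).2 ≤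
      T.C2 * T.wt m j (T.dag (T.F^[j] v)) * dL v.2 w.2 := by
  obtain ⟨a, b⟩ := T.domN_succ'.1 hk
  obtain ⟨c, d⟩ := T.ev_fol hε hv hP hG hi hd h₁ h₂ k a
  exact T.ev_step hε hv hP hG hd h₁ h₂ c d b

theorem shadow_esc {m : ℕ} {ε : ℝ} {v w : St n} (hε : ε ≤ T.δ2) (hv : v ∈ T.Deep m ε)
    (hP : v ∉ T.BadP m ε) (hG : v ∉ T.BadG m ε) (hi : w.1 = v.1) (hd : T.CE * dL v.2 w.2 < ε)
    (h₁ : ¬ T.Up 1 v w) (h₂ : ¬ T.Up (-1) v w) (k : ℕ) (hk : v ∈ T.DomN k)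
    (he : T.F^[k] v ∈ T.Esc) :
    T.Fol k v w ∧ T.F^[k] w ∈ T.Esc ∧ (T.F^[k] w).2.1 = (T.F^[k] v).2.1 := by
  obtain ⟨hf, hn⟩ := T.ev_fol hε hv hP hG hi hd h₁ h₂ k hk
  obtain ⟨c₁, c₂⟩ := T.ev_signs hf hn h₁ h₂
  have hw : T.F^[k] w ∈ T.Esc := by
    by_contra hcon
    exact (T.event hε hv hd hf (fun j hj => (hn j hj).le) c₁ c₂ (.inr ⟨he, hcon⟩)).elim hP hG
  refine ⟨hf, hw, ?_⟩
  have dxy := (hn k le_rfl).le
  obtain ⟨cx, ex⟩ := he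
  obtain ⟨-, ey⟩ := hw
  rw [← hf.2.2 k le_rfl] at ey
  obtain ⟨p, hp, p0⟩ := cx.meets (T.b _).cvx
  have no : ∀ s : ℝ, (s = 1 ∨ s = -1) → An s (T.F^[k] v).2 (T.F^[k] w).2 ≤ 0 := by
    intro s hs
    by_contra hcon
    obtain ⟨k', b1, b2, z, hz, h0, -⟩ := T.ev_not_cmp c₁ c₂ hs (not_le.1 hcon)
    rcases h0 with h0 | h0
    · exact ex k' b1 b2 ⟨z, hz, h0⟩
    · exact ey k' b1 (T.ev_transfer (dL_comm _ _ ▸ dxy) b1.symm hp hz (.inr p0) (.inl h0) b2).le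
        ⟨z, hz, h0⟩
  have a1 := no 1 (.inl rfl)
  have a2 := no (-1) (.inr rfl)
  unfold An at a1 a2
  exact dir_inj (ev_eq_of_cr (norm_dir _) (norm_dir _)
    (((dir_le_dL _ _).trans dxy).trans T.δ1_le_one) (by linarith))

theorem shadow_anti {m : ℕ} {ε : ℝ} {v w w' : St n} (hε : ε ≤ T.δ2) (hv : v ∈ T.Deep m ε)
    (hP : v ∉ T.BadP m ε) (hG : v ∉ T.BadG m ε) (hM : v ∈ T.Mp ∨ v ∈ T.EscNS)
    (hi : w.1 = v.1) (hd : T.CE * dL v.2 w.2 < ε) (h₁ : ¬ T.Up 1 v w) (h₂ : ¬ T.Up (-1) v w)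
    (hi' : w'.1 = v.1) (hd' : T.CE * dL v.2 w'.2 < ε) (h₁' : ¬ T.Up 1 v w')
    (h₂' : ¬ T.Up (-1) v w') (h : T.Div v.1 1 w.2 w'.2 0) (ha : 0 < An 1 w.2 w'.2) : False := by
  have cl : ∀ k, v ∈ T.DomN (k + 1) → dL (T.F^[k] w).2 (T.F^[k] w').2 ≤ T.δ1 := fun k hk => by
    have a := T.ev_plain (T.shadow hε hv hP hG hi hd h₁ h₂ k hk).2.2 k le_rfl
    have b := T.ev_plain (T.shadow hε hv hP hG hi' hd' h₁' h₂' k hk).2.2 k le_rfl
    have c := dL_triangle (T.F^[k] w).2 (T.F^[k] v).2 (T.F^[k] w').2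
    rw [dL_comm (T.F^[k] w).2 (T.F^[k] v).2] at c
    have k2 := (T.ev_CE _ (dL_nonneg v.2 w.2)).2.1
    have k2' := (T.ev_CE _ (dL_nonneg v.2 w'.2)).2.1
    linarith [T.δ2_le]
  have ch := fun k (hk : v ∈ T.DomN k) =>
    have a := (T.ev_fol hε hv hP hG hi hd h₁ h₂ k hk).1
    have b := (T.ev_fol hε hv hP hG hi' hd' h₁' h₂' k hk).1
    T.chain m (k := k) (v := w) (w := w') (.inl rfl)
      ⟨a.2.1, b.2.1, fun j hj => (a.2.2 j hj).symm.trans (b.2.2 j hj)⟩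
      (fun j hj => cl j (T.domN_mono hj hk)) (hi ▸ h) le_rfl
  rcases hM with hM | ⟨k, hk, he⟩
  · have r0 := T.r_pos
    have D0 := T.ev_D_pos
    obtain ⟨k, hk⟩ := exists_nat_gt ((2 + T.D) * T.δ1 / (T.r * An 1 w.2 w'.2))
    rw [div_lt_iff₀ (by positivity)] at hk
    obtain ⟨W', -, d, -, -, g⟩ := ch k fun j _ => hM j
    have sgn : (-1 : ℝ) ^ k * 1 = 1 ∨ (-1 : ℝ) ^ k * 1 = -1 := by
      simpa using neg_one_pow_eq_or ℝ k
    have le1 := d.le_dL _ sgn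
    have le2 := mul_le_mul_of_nonneg_left (cl k fun j _ => hM j) (show 0 ≤ 2 + T.D by linarith)
    have := mul_pos r0 ha
    linarith
  · obtain ⟨W', -, -, g, -⟩ := ch k hk
    have a := (T.shadow_esc hε hv hP hG hi hd h₁ h₂ k hk he).2.2
    have b := (T.shadow_esc hε hv hP hG hi' hd' h₁' h₂' k hk he).2.2
    have : An ((-1) ^ k * 1) (T.F^[k] w).2 (T.F^[k] w').2 = 0 := by
      unfold An; rw [a, b, cr_self, mul_zero]
    linarith

end Tab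

end Pool.Agent.P.MP_379466_co
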