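import Pool.Agent.P.MP_379466_co.Chain

/-!
Auxiliary facts for the shadowing lemma.
-/

set_option autoImplicit false

namespace Pool.Agent.P.MP_379466_co

open Set Metric Complex

theorem ev_ip_neg_neg (a b : ℂ) : ip (-a) (-b) = ip a b := by simp [ip]

theorem ev_ip_neg_left (a b : ℂ) : ip (-a) b = -ip a b := by simp [ip]; ring

theorem ev_sign_neg {s : ℝ} (hs : s = 1 ∨ s = -1) : -s = 1 ∨ -s = -1 := by
  rcases hs with rfl | rfl <;> simp

theorem ev_An_neg (s : ℝ) (l₁ l₂ : Ln) : An (-s) l₁ l₂ = -An s l₁ l₂ := by simp [An]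

theorem ev_Dv_neg (s : ℝ) (l₁ l₂ : Ln) (z : ℂ) : Dv (-s) l₁ l₂ z = -Dv s l₁ l₂ z := by simp [Dv]

theorem ev_sg {τ : ℝ} (hτ : τ = 1 ∨ τ = -1) : ∃ β, sg β = τ := by
  rcases hτ with rfl | rfl
  · exact ⟨true, rfl⟩
  · exact ⟨false, rfl⟩

theorem ev_ip_nonneg {u v : ℂ} (hu : ‖u‖ = 1) (h : ‖u - v‖ ≤ 1) : 0 ≤ ip u v := by
  have h1 := abs_ip_le u (u - v)
  have h2 : ip u v = ip u u - ip u (u - v) := by simp [ip]; ring
  rw [ip_self, hu] at h2
  rw [hu] at h1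
  linarith [le_abs_self (ip u (u - v))]

theorem ev_eq_of_cr {u v : ℂ} (hu : ‖u‖ = 1) (hv : ‖v‖ = 1) (h : ‖u - v‖ ≤ 1) (h0 : cr u v = 0) :
    v = u := by
  have h1 := ev_ip_nonneg hu h
  have h2 := ip_sq_add_cr_sq u v
  rw [hu, hv, h0] at h2
  have h3 : ip u v = 1 := by nlinarith
  rw [decomp hu v, h3, h0]; simp

namespace Tab

variable {n : ℕ} (T : Tab n)

theorem ev_back (i l : Fin n) (x : Ln) :
    ip (T.ν l i) (dir (rev x).1) = ip (T.ν i l) (dir x.1) := by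
  rw [dir_rev, T.ν_anti i l, ev_ip_neg_neg]

theorem ev_D_pos : 0 < T.D := lt_of_lt_of_le one_pos T.D_ge

/-- a point of one line is close to the other line -/
theorem ev_sd_le {x y : Ln} {i : Fin n} {z : ℂ} (hz : z ∈ T.K i) (h0 : sd y z = 0) :
    |sd x z| ≤ (1 + T.D) * dL x y := by
  have := T.abs_Dv_le (s := 1) (.inl rfl) x y (T.K_sub_B i hz)
  simpa [Dv, h0] using this

theorem ev_sd_small {x y : Ln} (hd : dL x y ≤ T.δ1) {i : Fin n} {z : ℂ} (hz : z ∈ T.K i)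
    (h0 : sd y z = 0) : |sd x z| ≤ T.r / 100 := by
  have h1 := T.ev_sd_le (x := x) hz h0
  have h2 := mul_le_mul_of_nonneg_left hd (show 0 ≤ 1 + T.D by linarith [T.ev_D_pos])
  linarith [T.δ1_small]

/-- the order of two obstacles is the same on two nearby lines -/
theorem ev_transfer {x y : Ln} (hd : dL x y ≤ T.δ1) {i l : Fin n} (hil : i ≠ l) {z w : ℂ}
    (hz : z ∈ T.K i) (hw : w ∈ T.K l) (hz0 : sd x z = 0 ∨ sd y z = 0)
    (hw0 : sd x w = 0 ∨ sd y w = 0) (h : 0 ≤ ip (T.ν i l) (dir y.1)) :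
    0 < ip (T.ν i l) (dir x.1) := by
  have r0 := T.r_pos
  have hd' : dL y x ≤ T.δ1 := by rwa [dL_comm]
  have sm : ∀ {a : Fin n} {p : ℂ}, p ∈ T.K a → (sd x p = 0 ∨ sd y p = 0) →
      |sd x p| ≤ T.r / 4 ∧ |sd y p| ≤ T.r / 4 := by
    intro a p hp h0
    rcases h0 with h0 | h0
    · exact ⟨by rw [h0, abs_zero]; positivity, by linarith [T.ev_sd_small hd' hp h0]⟩
    · exact ⟨by linarith [T.ev_sd_small hd hp h0], by rw [h0, abs_zero]; positivity⟩
  have zB := T.K_sub_B i hz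
  have wB := T.K_sub_B l hw
  rcases T.order hil zB wB (sm hz hz0).1 (sm hw hw0).1 with ⟨h1, -⟩ | ⟨-, h1⟩
  · exact h1
  rcases T.order hil zB wB (sm hz hz0).2 (sm hw hw0).2 with ⟨-, h2⟩ | ⟨h2, -⟩
  · exfalso
    have e1 := tm_sub x z w
    have e2 := tm_sub y z w
    have e3 : ip (dir x.1 - dir y.1) (w - z) = ip (dir x.1) (w - z) - ip (dir y.1) (w - z) := by
      simp [ip]; ring
    have h3 := abs_ip_le (dir x.1 - dir y.1) (w - z)
    have h4 : ‖w - z‖ ≤ T.D + T.D := (norm_sub_le _ _).trans (add_le_add (T.bdd l w wB) (T.bdd i z zB))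
    have h5 : ‖dir x.1 - dir y.1‖ * ‖w - z‖ ≤ T.δ1 * (T.D + T.D) :=
      mul_le_mul ((dir_le_dL x y).trans hd) h4 (norm_nonneg _) ((dL_nonneg _ _).trans hd)
    have h6 := T.δ1_small
    have h7 : 0 ≤ T.δ1 := (dL_nonneg _ _).trans hd
    have h8 := neg_abs_le (ip (dir x.1 - dir y.1) (w - z))
    nlinarith
  · linarith

theorem ev_CE (a : ℝ) (ha : 0 ≤ a) : a ≤ T.CE * a ∧ T.C2 * a ≤ T.CE * a ∧
    T.C3 * (T.C2 * a) ≤ T.CE * a ∧ (2 + T.D) * (T.C2 * a) ≤ T.CE * a ∧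
    (2 + T.D) * (T.C3 * a) ≤ T.CE * a ∧ T.C3 * a ≤ T.CE * a := by
  have h2 := T.one_le_C2
  have h3 := T.one_le_C3
  have hD := T.ev_D_pos
  have key : ∀ p q : ℝ, 1 ≤ q → 0 ≤ p → T.CE = p * q → p * a ≤ T.CE * a := fun p q hq hp e => by
    rw [e]; exact mul_le_mul_of_nonneg_right (le_mul_of_one_le_right hp hq) ha
  have o : ∀ p q : ℝ, 1 ≤ p → 1 ≤ q → 1 ≤ p * q := fun p q hp hq => one_le_mul_of_one_le_of_one_le hp hq
  have hD' : 1 ≤ 2 + T.D := by linarith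
  refine ⟨?_, key _ (T.C3 * (2 + T.D)) (o _ _ h3 hD') (by linarith) (by unfold Table.CE; ring),
    ?_, ?_, ?_, key _ (T.C2 * (2 + T.D)) (o _ _ h2 hD') (by linarith) (by unfold Table.CE; ring)⟩
  · simpa using key 1 T.CE (o _ _ (o _ _ h2 h3) hD') zero_le_one (by ring)
  · rw [← mul_assoc]
    exact key _ (2 + T.D) hD' (by positivity) (by unfold Table.CE; ring)
  · rw [← mul_assoc]
    exact key _ T.C3 h3 (by positivity) (by unfold Table.CE; ring)
  · rw [← mul_assoc]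
    exact key _ T.C2 h2 (by positivity) (by unfold Table.CE; ring)

theorem ev_δ2_le : T.δ2 ≤ T.δ1 := by linarith [T.δ2_le, T.δ2_pos]

theorem ev_cnt_succ (m k : ℕ) (v : St n) [Decidable (v ∈ T.Mk m)] :
    T.cnt m (k + 1) v = (if v ∈ T.Mk m then 1 else 0) + T.cnt m k (T.F v) := by
  classical
  unfold Table.cnt
  rw [Finset.card_filter, Finset.card_filter, Finset.sum_range_succ', add_comm]
  congr 1
  simp

theorem ev_cross {m k : ℕ} {ε : ℝ} {v w : St n} (hv : v ∈ T.Deep m ε)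
    (hd : T.CE * dL v.2 w.2 < ε) (hf : T.Fol k v w) :
    v ∈ T.Mk m ∧ Cross (T.K (T.F^[k] v).1) (T.F^[k] v).2 ∧
      Cross (T.K (T.F^[k] v).1) (T.F^[k] w).2 := by
  have h0 := dL_nonneg v.2 w.2
  have h1 := (T.ev_CE _ h0).1
  have hv0 := hv v.2 (by rw [dL_self]; linarith)
  have hw0 := hv w.2 (by linarith)
  have e : v.1 = w.1 := hf.2.2 0 (Nat.zero_le _)
  refine ⟨hv0.2, T.cross_iter hv0.1 hf.1 le_rfl, ?_⟩
  rw [hf.2.2 k le_rfl]
  exact T.cross_iter (e ▸ hw0.1) hf.2.1 le_rfl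

theorem ev_plain {m k : ℕ} {v w : St n}
    (h : ∀ j ≤ k, dL (T.F^[j] v).2 (T.F^[j] w).2 ≤
      T.C2 * T.wt m j (T.dag (T.F^[j] v)) * dL v.2 w.2) :
    ∀ j ≤ k, dL (T.F^[j] v).2 (T.F^[j] w).2 ≤ T.C2 * dL v.2 w.2 := fun j hj =>
  (h j hj).trans (mul_le_mul_of_nonneg_right
    (mul_le_of_le_one_right (by linarith [T.one_le_C2]) (T.wt_le_one _ _ _)) (dL_nonneg _ _))

/-- A tangent line sandwiched between the reversed lines gives a bad state. -/
theorem ev_badP {m k : ℕ} {ε : ℝ} {v w : St n} (hε : ε ≤ T.δ2) (hv : v ∈ T.Deep m ε)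
    (hd : T.CE * dL v.2 w.2 < ε) (hf : T.Fol k v w)
    (hn : ∀ j ≤ k, dL (T.F^[j] v).2 (T.F^[j] w).2 ≤ T.δ1) {l : Fin n} {s ρ : ℝ}
    (hs : s = 1 ∨ s = -1) (hρ : ρ = 1 ∨ ρ = -1) {X Y Z : Ln} (hX : X = rev (T.F^[k] v).2)
    (hY : Y = rev (T.F^[k] w).2) (hZ : Z = tanL (T.K l) ρ X.1)
    (fX : T.Free l X (T.F^[k] v).1) (fY : T.Free l Y (T.F^[k] v).1) (ha : 0 ≤ An s X Y)
    {c : ℂ} (hc : c ∈ T.K l) (c1 : 0 ≤ Dv s X Z c) (c2 : 0 ≤ Dv s Z Y c)
    (c0 : sd Z c = 0 ∨ sd Y c = 0) : v ∈ T.BadP m ε := by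
  classical
  obtain ⟨β, rfl⟩ := ev_sg hρ
  set i := (T.F^[k] v).1 with hi
  have r0 := T.r_pos
  have D0 := T.ev_D_pos
  have d0 := dL_nonneg v.2 w.2
  obtain ⟨k1, k2, k3, k4, k5, k6⟩ := T.ev_CE _ d0
  have cB := T.K_sub_B l hc
  have eZ : Z.1 = X.1 := by rw [hZ]; rfl
  have dXY : dL X Y = dL (T.F^[k] v).2 (T.F^[k] w).2 := by rw [hX, hY, dL_rev]
  have dXY0 := dL_nonneg X Y
  have hsum : Dv s X Y c = Dv s X Z c + Dv s Z Y c := by unfold Dv; ring
  have hle : Dv s X Y c ≤ (1 + T.D) * dL X Y := (le_abs_self _).trans (T.abs_Dv_le hs X Y cB)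
  have hsm : (1 + T.D) * dL X Y ≤ T.r / 100 := by
    have := mul_le_mul_of_nonneg_left (dXY ▸ hn k le_rfl) (show 0 ≤ 1 + T.D by linarith)
    linarith [T.δ1_small]
  have small : |sd X c| ≤ T.r / 8 ∧ |sd Z c| ≤ T.r / 8 ∧ |sd Y c| ≤ T.r / 8 := by
    unfold Dv at c1 c2 hle
    simp only [abs_le]
    rcases hs with rfl | rfl <;> rcases c0 with c0 | c0 <;>
      refine ⟨⟨?_, ?_⟩, ⟨?_, ?_⟩, ⟨?_, ?_⟩⟩ <;> linarith
  have aXZ : An s X Z = 0 := by unfold An; rw [eZ, cr_self, mul_zero]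
  have aZY : An s Z Y = An s X Y := by unfold An; rw [eZ]
  set b := Dv s X Z c with hb
  have dvXZ : T.Div l s X Z b := ⟨aXZ.ge, c, cB, small.1, small.2.1, le_rfl⟩
  have dvZY : T.Div l s Z Y 0 := ⟨aZY ▸ ha, c, cB, small.2.1, small.2.2, c2⟩
  have dvXY : T.Div l s X Y 0 := ⟨ha, c, cB, small.1, small.2.2, by linarith⟩
  have rb := T.ev_plain (T.rev_bound m hs hf hn (hX ▸ fX) (hY ▸ fY) (hX ▸ hY ▸ dvXY))
  have eb : |X.2 - Z.2| = b := by
    have : b = s * (Z.2 - X.2) := by rw [hb]; unfold Dv sd; rw [eZ]; ring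
    rcases hs with rfl | rfl
    · rw [abs_sub_comm, abs_of_nonneg (by linarith)]; linarith
    · rw [abs_of_nonneg (by linarith)]; linarith
  have dXZ : dL X Z = b := by
    unfold dL; rw [eZ, sub_self, norm_zero, eb, max_eq_right c1]
  have rk : dL X Y ≤ T.C2 * dL v.2 w.2 := dXY ▸ rb k le_rfl
  have bXY : b + dL X Y ≤ T.CE * dL v.2 w.2 := by
    have := mul_le_mul_of_nonneg_left rk (show 0 ≤ 2 + T.D by linarith)
    linarith
  have eXZ : dL X Z ≤ T.δ2 := by linarith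
  have eZY : dL Z Y ≤ T.δ2 := by
    have := dL_triangle Z X Y
    rw [dL_comm Z X] at this
    linarith
  have δ21 := T.ev_δ2_le
  have fZ : T.Free l Z i := T.sand_free hs fX fY (dvXZ.mono _ c1) dvZY (eXZ.trans δ21) (eZY.trans δ21)
  have inXZ := T.flight_in hs (eXZ.trans δ21) dvXZ fX fZ.2.1
  rw [aXZ, mul_zero, add_zero] at inXZ
  have inZY := T.flight_in hs (eZY.trans δ21) dvZY fZ fY.2.1
  have q0 : 0 ≤ 0 + T.r * An s Z Y := by rw [aZY]; positivity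
  have rXZ := (T.reflect hs (eXZ.trans δ21) inXZ c1).2.1
  have rZY := (T.reflect hs (eZY.trans δ21) inZY q0).2.1
  have rZX := (T.reflect (ev_sign_neg hs) (dL_comm X Z ▸ eXZ.trans δ21) (inXZ.symm _) c1).2
  have ew : (T.F^[k] w).1 = i := (hf.2.2 k le_rfl).symm
  have ev' : T.dag (T.F^[k] v) = (i, refl (T.b i) X) := by rw [hX]; rfl
  have ew' : T.dag (T.F^[k] w) = (i, refl (T.b i) Y) := by rw [hY, ← ew]; rfl
  obtain ⟨v1, v2⟩ := T.dag_iter hf.1
  obtain ⟨w1, w2⟩ := T.dag_iter hf.2.1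
  have fol' : T.Fol k (T.dag (T.F^[k] v)) (T.dag (T.F^[k] w)) :=
    ⟨v1, w1, fun j hj => by rw [v2 j hj, w2 j hj]; exact hf.2.2 (k - j) (Nat.sub_le _ _)⟩
  have lines : ∀ j < k, (T.F^[j] (T.dag (T.F^[k] v))).2 = rev (T.F^[k - j - 1] v).2 ∧
      (T.F^[j] (T.dag (T.F^[k] w))).2 = rev (T.F^[k - j - 1] w).2 := fun j hj => by
    have e : k - j = (k - j - 1) + 1 := by omega
    rw [v2 j hj.le, w2 j hj.le, e, Function.iterate_succ_apply', Function.iterate_succ_apply',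
      T.dag_F (hf.1 _ (by omega)), T.dag_F (hf.2.1 _ (by omega))]
    exact ⟨rfl, rfl⟩
  set y : St n := (i, refl (T.b i) Z) with hy
  obtain ⟨sf, sw⟩ := T.sandwich (y := y) (ev_sign_neg hs) fol' (fun j hj => by
      rw [(lines j hj).1, (lines j hj).2, dL_rev]
      have := mul_le_mul_of_nonneg_left (rb (k - j - 1) (by omega))
        (show 0 ≤ T.C3 by linarith [T.one_le_C3])
      linarith)
    (by rw [ev']) (by rw [ev']; exact cross_refl.2 fZ.2.1) (by rw [ev']; exact rXZ.mono _ c1)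
    (by rw [ev', ew']; exact rZY.mono _ q0)
    (by rw [ev']; exact (T.hrefl i X Z fX.2.1 fZ.2.1 eXZ).le)
    (by rw [ew']; exact (T.hrefl i Z Y fZ.2.1 fY.2.1 eZY).le)
  have idx : (T.F^[k] y).1 = v.1 := by
    rw [← sf.2.2 k le_rfl, v2 k le_rfl, Nat.sub_self]; rfl
  have fin : dL v.2 (T.dag (T.F^[k] y)).2 < ε ∧ T.lam m ^ T.cnt m k y * b ≤ ε := by
    rcases k with _ | k
    · have e1 : (T.dag (T.F^[0] y)).2 = rev Z := refl_rev_refl _ _
      have e2 : v.2 = rev X := by rw [hX, rev_rev]; rfl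
      rw [e1, e2, dL_rev, dXZ]
      simp only [Table.cnt, Finset.range_zero, Finset.filter_empty, Finset.card_empty, pow_zero,
        one_mul]
      constructor <;> linarith
    · have l1 := lines k (Nat.lt_succ_self k)
      rw [show k + 1 - k - 1 = 0 by omega] at l1
      have s5 := (sw k (Nat.le_succ k)).2.2.2.2
      rw [l1.1, l1.2, dL_rev] at s5
      simp only [Function.iterate_zero, id] at s5 l1
      constructor
      · rw [Function.iterate_succ_apply', T.dag_F (sf.2.1 k (Nat.lt_succ_self k))]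
        rw [← dL_rev, rev_rev]
        linarith
      · have fol2 : T.Fol k y (T.dag (T.F^[k + 1] v)) :=
          ⟨T.domN_mono (Nat.le_succ k) sf.2.1, T.domN_mono (Nat.le_succ k) sf.1,
            fun j hj => (sf.2.2 j (by omega)).symm⟩
        have l0 : 0 < T.lam m := by linarith [T.one_lt_lam m]
        obtain ⟨W0, w0, dW, eW⟩ : ∃ W0, 0 ≤ W0 ∧ T.Div y.1 (- -s) y.2 (T.dag (T.F^[k + 1] v)).2 W0 ∧
            T.lam m ^ T.cnt m (k + 1) y * b = T.lam m ^ T.cnt m k (T.F y) * W0 := by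
          rw [ev', T.ev_cnt_succ]
          by_cases hm : y ∈ T.Mk m
          · exact ⟨T.lam m * b, by positivity, rZX.2 m hm, by rw [if_pos hm]; ring⟩
          · exact ⟨b, c1, rZX.1, by rw [if_neg hm, zero_add]⟩
        obtain ⟨W', -, dW', -, hW', -⟩ := T.chain m (ev_sign_neg (ev_sign_neg hs)) fol2
          (fun j hj => by rw [dL_comm]; exact (sw j (by omega)).2.2.1) dW w0
        have sgn : (-1 : ℝ) ^ k * - -s = 1 ∨ (-1 : ℝ) ^ k * - -s = -1 := by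
          rcases neg_one_pow_eq_or ℝ k with e | e <;> rcases hs with rfl | rfl <;> simp [e]
        have le1 := dW'.le_dL _ sgn
        rw [l1.1, dL_comm] at le1
        rw [l1.1] at hW'
        have le2 := mul_le_mul_of_nonneg_left s5 (show 0 ≤ 2 + T.D by linarith)
        have le3 : 0 ≤ T.lam m ^ T.cnt m k (T.F y) *
            (T.r * An (- -s) y.2 (T.dag (T.F^[k + 1] v)).2) :=
          mul_nonneg (by positivity) (mul_nonneg r0.le dW.1)
        rw [eW]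
        rw [mul_add] at hW'
        linarith
  have mk : T.F^[k] y ∈ T.Mk m := by
    have := (hv _ fin.1).2
    rw [← idx] at this
    exact T.mk_dag.1 this
  have ey : T.post l β i X.1 = y := by rw [hy, hZ]; rfl
  refine ⟨k, l, β, ⟨hf.1, ?_, ?_⟩, ?_, ?_⟩
  · rw [← hX]
    refine ⟨hZ ▸ fZ, ?_, ?_⟩
    · rw [ey]; exact sf.2.1
    · rw [ey]; exact mk
  · rw [← hX, ← hZ, ey, eb, Table.wt, ← div_eq_mul_inv,
      le_div_iff₀ (pow_pos (by linarith [T.one_lt_lam m]) _), mul_comm]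
    exact fin.2
  · unfold Table.pst
    rw [← hX, ey, idx]
  · unfold Table.pst
    rw [← hX, ey]
    exact fin.1.le

end Tab

end Pool.Agent.P.MP_379466_co
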