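import Pool.Agent.P.MP_379466_co.FlatStep

/-!
Rays with a base point, the first obstacle they meet, and pencils of rays.
-/

set_option autoImplicit false

namespace Pool.Agent.P.MP_379466_co.FanAux

open Set Metric Complex Topology Filter

variable {n : ℕ} (T : Table (Fin n))

/-- The first obstacle met by the ray from `z` along `l` is `K j`. -/
def Fst (l : Ln) (z : ℂ) (j : Fin n) : Prop :=
  Meets (T.K j) l ∧ tm l z < tm l (enP (T.K j) l) ∧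
    ∀ t, tm l z < t → t < tm l (enP (T.K j) l) → ∀ k, pt l t ∉ T.K k

/-- The first obstacle met is `K j`, and it is met transversally. -/
def First (l : Ln) (z : ℂ) (j : Fin n) : Prop := Cross (T.K j) l ∧ Fst T l z j

/-- The open ray from `z` along `l` misses `K k`. -/
def Out (l : Ln) (z : ℂ) (k : Fin n) : Prop := ∀ t, tm l z < t → pt l t ∉ T.K k

theorem K_disj {i j : Fin n} {z : ℂ} (hi : z ∈ T.K i) (hj : z ∈ T.K j) : i = j :=
  FlatAux.B_disj T (FlatAux.K_subset_B T i hi) (FlatAux.K_subset_B T j hj)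

theorem pt_enP (S : Set ℂ) (l : Ln) : pt l (tm l (enP S l)) = enP S l := pt_tm (sd_enP _ _)

theorem fst_unique {l : Ln} {z : ℂ} {j j' : Fin n} (h : Fst T l z j) (h' : Fst T l z j') :
    j = j' := by
  have e := enP_mem (T.b j).cpt h.1
  have e' := enP_mem (T.b j').cpt h'.1
  rcases lt_trichotomy (tm l (enP (T.K j) l)) (tm l (enP (T.K j') l)) with h1 | h1 | h1
  · exact absurd (by rw [pt_enP]; exact e) (h'.2.2 _ h.2.1 h1 j)
  · have : enP (T.K j) l = enP (T.K j') l := by rw [← pt_enP, h1, pt_enP]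
    exact K_disj T e (this ▸ e')
  · exact absurd (by rw [pt_enP]; exact e') (h.2.2 _ h'.2.1 h1 j')

theorem out_exP (i : Fin n) (l : Ln) : Out T l (exP (T.K i) l) i := by
  intro t ht hm
  have := tm_enP_le (T.b i).cpt (l := rev l) hm (by rw [sd_rev, sd_pt, neg_zero])
  rw [tm_rev, tm_rev, tm_pt] at this
  change -tm l (exP (T.K i) l) ≤ -t at this
  linarith

theorem exists_fst {l : Ln} {z : ℂ} (hz : sd l z = 0) (hs : ∀ k, z ∉ T.K k ∨ Out T l z k)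
    (hm : ∃ k t, tm l z < t ∧ pt l t ∈ T.K k) : ∃ j, Fst T l z j := by
  classical
  obtain ⟨k₀, hk₀⟩ := hm
  obtain ⟨m, hm, hmin⟩ := Finset.exists_min_image
    (Finset.univ.filter fun k => ∃ t, tm l z < t ∧ pt l t ∈ T.K k)
    (fun k => tm l (enP (T.K k) l)) ⟨k₀, by simpa using hk₀⟩
  obtain ⟨t, ht, hmem⟩ := (Finset.mem_filter.1 hm).2
  have hme : Meets (T.K m) l := ⟨_, hmem, sd_pt _ _⟩
  refine ⟨m, hme, ?_, fun s h1 h2 k hk => ?_⟩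
  · by_contra hcon
    have h1 : pt l (tm l z) ∈ T.K m := FlatAux.pt_mem_between (T.b m).cvx
      (by rw [pt_enP]; exact enP_mem (T.b m).cpt hme) hmem (not_lt.1 hcon) ht.le
    rw [pt_tm hz] at h1
    rcases hs m with h | h
    · exact h h1
    · exact h t ht hmem
  · have h3 := hmin k (Finset.mem_filter.2 ⟨Finset.mem_univ _, s, h1, hk⟩)
    have h4 := tm_enP_le (T.b k).cpt hk (sd_pt l s)
    rw [tm_pt] at h4
    linarith

theorem eventually_lt {l₀ : Ln} {z₀ : ℂ} {m : Fin n} (h : Fst T l₀ z₀ m) :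
    ∀ᶠ w : Ln × ℂ in 𝓝 (l₀, z₀), ∀ x ∈ T.K m, sd w.1 x = 0 → tm w.1 w.2 < tm w.1 x := by
  refine (T.b m).cpt.eventually_forall_of_forall_eventually
    (P := fun (w : Ln × ℂ) x => sd w.1 x = 0 → tm w.1 w.2 < tm w.1 x) fun x hx => ?_
  by_cases h0 : sd l₀ x = 0
  · have h1 : tm l₀ z₀ < tm l₀ x := lt_of_lt_of_le h.2.1 (tm_enP_le (T.b m).cpt hx h0)
    have : IsOpen {y : (Ln × ℂ) × ℂ | tm y.1.1 y.1.2 < tm y.1.1 y.2} :=
      isOpen_lt (by fun_prop) (by fun_prop)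
    filter_upwards [this.mem_nhds h1] with y hy _ using hy
  · have : IsOpen {y : (Ln × ℂ) × ℂ | sd y.1.1 y.2 ≠ 0} :=
      isOpen_ne_fun (by fun_prop) continuous_const
    filter_upwards [this.mem_nhds h0] with y hy h1 using absurd h1 hy

theorem eventually_miss {l₀ : Ln} {z₀ : ℂ} {m k : Fin n} (hz : sd l₀ z₀ = 0) (h : Fst T l₀ z₀ m)
    (hk : k ≠ m) (hz' : z₀ ∉ T.K k) :
    ∀ᶠ w : Ln × ℂ in 𝓝 (l₀, z₀), ∀ y ∈ T.K m ×ˢ Icc (0 : ℝ) 1, sd w.1 y.1 = 0 →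
      w.2 + y.2 • (y.1 - w.2) ∉ T.K k := by
  refine ((T.b m).cpt.prod isCompact_Icc).eventually_forall_of_forall_eventually
    (P := fun (w : Ln × ℂ) (y : ℂ × ℝ) => sd w.1 y.1 = 0 → w.2 + y.2 • (y.1 - w.2) ∉ T.K k)
    fun y hy => ?_
  obtain ⟨x, s⟩ := y
  obtain ⟨hx, hs0, hs1⟩ : x ∈ T.K m ∧ 0 ≤ s ∧ s ≤ 1 := hy
  by_cases h0 : sd l₀ x = 0
  · have h1 : z₀ + s • (x - z₀) ∉ T.K k := by
      have hle := tm_enP_le (T.b m).cpt hx h0
      have e : z₀ + s • (x - z₀) = pt l₀ (tm l₀ z₀ + s * (tm l₀ x - tm l₀ z₀)) := by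
        rw [pt_add, pt_tm hz, ← smul_smul]
        congr 2
        rw [sub_eq_iff_eq_add']
        exact eq_add_tm hz h0
      rw [e]
      rcases hs0.eq_or_lt with h2 | h2
      · rw [← h2, zero_mul, add_zero, pt_tm hz]
        exact hz'
      · have h3 : tm l₀ z₀ < tm l₀ x := lt_of_lt_of_le h.2.1 hle
        by_cases h4 : tm l₀ z₀ + s * (tm l₀ x - tm l₀ z₀) < tm l₀ (enP (T.K m) l₀)
        · exact h.2.2 _ (by nlinarith) h4 k
        · intro h5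
          refine hk (K_disj T h5 (FlatAux.pt_mem_between (T.b m).cvx (a := tm l₀ (enP (T.K m) l₀))
            (b := tm l₀ x) (by rw [pt_enP]; exact enP_mem (T.b m).cpt h.1)
            (by rw [pt_tm h0]; exact hx) (not_lt.1 h4) (by nlinarith)))
    have : IsOpen {y : (Ln × ℂ) × ℂ × ℝ | y.1.2 + y.2.2 • (y.2.1 - y.1.2) ∉ T.K k} :=
      (T.b k).cpt.isClosed.isOpen_compl.preimage (by fun_prop)
    filter_upwards [this.mem_nhds h1] with y hy _ using hy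
  · have : IsOpen {y : (Ln × ℂ) × ℂ × ℝ | sd y.1.1 y.2.1 ≠ 0} :=
      isOpen_ne_fun (by fun_prop) continuous_const
    filter_upwards [this.mem_nhds h0] with y hy h1 using absurd h1 hy

/-- Nearby rays that meet the first obstacle of a ray meet it first. -/
theorem eventually_fst {Λ : ℝ → Ln} {z : ℝ → ℂ} {θ₀ : ℝ} {m : Fin n} (hΛ : ContinuousAt Λ θ₀)
    (hz : ContinuousAt z θ₀) (hon : ∀ᶠ θ in 𝓝 θ₀, sd (Λ θ) (z θ) = 0)
    (hs : ∀ k, z θ₀ ∉ T.K k ∨ ∀ᶠ θ in 𝓝 θ₀, Out T (Λ θ) (z θ) k) (h : Fst T (Λ θ₀) (z θ₀) m) :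
    ∀ᶠ θ in 𝓝 θ₀, Meets (T.K m) (Λ θ) → Fst T (Λ θ) (z θ) m := by
  have hc : Tendsto (fun θ => (Λ θ, z θ)) (𝓝 θ₀) (𝓝 (Λ θ₀, z θ₀)) := hΛ.prodMk hz
  have h1 := hc.eventually (eventually_lt T h)
  have h2 : ∀ k, ∀ᶠ θ in 𝓝 θ₀, Meets (T.K m) (Λ θ) → tm (Λ θ) (z θ) < tm (Λ θ) (enP (T.K m) (Λ θ)) →
      ∀ t, tm (Λ θ) (z θ) < t → t < tm (Λ θ) (enP (T.K m) (Λ θ)) → pt (Λ θ) t ∉ T.K k := by
    intro k
    by_cases hk : k = m
    · refine Eventually.of_forall fun θ _ _ t _ ht hm => ?_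
      have := tm_enP_le (T.b m).cpt (hk ▸ hm) (sd_pt (Λ θ) t)
      rw [tm_pt] at this
      linarith
    rcases hs k with h3 | h3
    · filter_upwards [hc.eventually (eventually_miss T hon.self_of_nhds h hk h3), hon]
        with θ hθ h0 hm hlt t t1 t2
      have hp : 0 < tm (Λ θ) (enP (T.K m) (Λ θ)) - tm (Λ θ) (z θ) := by linarith
      have := hθ (enP (T.K m) (Λ θ),
        (t - tm (Λ θ) (z θ)) / (tm (Λ θ) (enP (T.K m) (Λ θ)) - tm (Λ θ) (z θ)))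
        ⟨enP_mem (T.b m).cpt hm, div_nonneg (by linarith) hp.le, (div_le_one hp).2 (by linarith)⟩
        (sd_enP _ _)
      have e : enP (T.K m) (Λ θ) - z θ =
          (tm (Λ θ) (enP (T.K m) (Λ θ)) - tm (Λ θ) (z θ)) • dir (Λ θ).1 := by
        rw [sub_eq_iff_eq_add']
        exact eq_add_tm h0 (sd_enP _ _)
      simp only at this
      rw [e, smul_smul, div_mul_cancel₀ _ hp.ne'] at this
      have e2 : pt (Λ θ) t = z θ + (t - tm (Λ θ) (z θ)) • dir (Λ θ).1 := by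
        have := eq_add_tm h0 (sd_pt (Λ θ) t)
        rwa [tm_pt] at this
      rwa [e2]
    · filter_upwards [h3] with θ hθ _ _ t t1 _ using hθ t t1
  filter_upwards [h1, eventually_all.2 h2] with θ a1 a2 hm
  have hlt := a1 _ (enP_mem (T.b m).cpt hm) (sd_enP _ _)
  exact ⟨hm, hlt, fun t t1 t2 k => a2 k hm hlt t t1 t2⟩

theorem eventually_first {Λ : ℝ → Ln} {z : ℝ → ℂ} {θ₀ : ℝ} {m : Fin n} (hΛ : ContinuousAt Λ θ₀)
    (hz : ContinuousAt z θ₀) (hon : ∀ᶠ θ in 𝓝 θ₀, sd (Λ θ) (z θ) = 0)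
    (hs : ∀ k, z θ₀ ∉ T.K k ∨ ∀ᶠ θ in 𝓝 θ₀, Out T (Λ θ) (z θ) k) (h : First T (Λ θ₀) (z θ₀) m) :
    ∀ᶠ θ in 𝓝 θ₀, First T (Λ θ) (z θ) m := by
  filter_upwards [eventually_fst T hΛ hz hon hs h.2,
    hΛ.eventually ((isOpen_cross (T.K m)).mem_nhds h.1)] with θ h1 h2
  exact ⟨h2, h1 (Cross.meets (T.b m).cvx h2)⟩

/-- A family of rays that never escape and are reflected only at flat points. -/
structure Caught (𝓡 : Set (Ln × ℂ)) : Prop where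
  meet : ∀ l z, (l, z) ∈ 𝓡 → ∃ k t, tm l z < t ∧ pt l t ∈ T.K k
  next : ∀ l z, (l, z) ∈ 𝓡 → ∀ j, First T l z j →
    enP (T.K j) l ∉ Reg (T.K j) (T.b j).N ∧ (refl (T.b j) l, enP (T.K j) l) ∈ 𝓡

/-- A pencil of rays with centre `q` at distance at least `R` behind the base points. -/
structure Stage (𝓡 : Set (Ln × ℂ)) (Λ : ℝ → Ln) (z : ℝ → ℂ) (q : ℂ) (σ R : ℝ) : Prop where
  cΛ : ContinuousOn Λ (Ioo 0 1)
  cz : ContinuousOn z (Ioo 0 1)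
  on : ∀ θ ∈ Ioo (0 : ℝ) 1, sd (Λ θ) (z θ) = 0
  onq : ∀ θ ∈ Ioo (0 : ℝ) 1, sd (Λ θ) q = 0
  beh : ∀ θ ∈ Ioo (0 : ℝ) 1, tm (Λ θ) q + R ≤ tm (Λ θ) (z θ)
  sgn : σ = 1 ∨ σ = -1
  ang : ∀ θ ∈ Ioo (0 : ℝ) 1, ∀ θ' ∈ Ioo (0 : ℝ) 1,
    cr (dir (Λ θ).1) (dir (Λ θ').1) = σ * Real.sin (θ' - θ)
  start : ∀ k, (∀ θ ∈ Ioo (0 : ℝ) 1, z θ ∉ T.K k) ∨ ∀ θ ∈ Ioo (0 : ℝ) 1, Out T (Λ θ) (z θ) k
  mem : ∀ θ ∈ Ioo (0 : ℝ) 1, (Λ θ, z θ) ∈ 𝓡
  R_nonneg : 0 ≤ R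

variable {𝓡 : Set (Ln × ℂ)} {Λ : ℝ → Ln} {z : ℝ → ℂ} {q : ℂ} {σ R : ℝ}

theorem Stage.start' (S : Stage T 𝓡 Λ z q σ R) {θ₀ : ℝ} (h : θ₀ ∈ Ioo (0 : ℝ) 1) (k : Fin n) :
    z θ₀ ∉ T.K k ∨ ∀ᶠ θ in 𝓝 θ₀, Out T (Λ θ) (z θ) k :=
  (S.start k).imp (fun a => a θ₀ h) fun a => by
    filter_upwards [isOpen_Ioo.mem_nhds h] with θ hθ using a θ hθ

/-- On a connected set of rays of the pencil with the same first obstacle the normal is constant. -/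
theorem Stage.M_const (S : Stage T 𝓡 Λ z q σ R) (C : Caught T 𝓡) {j : Fin n} {G : Set ℝ}
    (hG : G ⊆ Ioo 0 1) (hc : IsPreconnected G) (hh : ∀ θ ∈ G, First T (Λ θ) (z θ) j) {θ θ' : ℝ}
    (h : θ ∈ G) (h' : θ' ∈ G) : FlatAux.M T j (Λ θ) = FlatAux.M T j (Λ θ') := by
  have h1 : IsPreconnected ((fun θ => FlatAux.M T j (Λ θ)) '' G) :=
    hc.image _ ((FlatAux.continuousOn_M T j).comp (S.cΛ.mono hG) fun θ hθ => (hh θ hθ).2.1)
  refine (T.b j).sard _ ?_ h1 (mem_image_of_mem _ h) (mem_image_of_mem _ h')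
  rintro _ ⟨v, hv, rfl⟩
  exact ⟨_, ⟨enP_frontier (T.b j).cpt (hh v hv).2.1,
    (C.next _ _ (S.mem v (hG hv)) j (hh v hv)).1⟩, rfl⟩

theorem sd_eq_of_pencil {l l' : Ln} {q x : ℂ} (h : sd l q = 0) (h' : sd l' q = 0)
    (hx : sd l' x = 0) : sd l x = (tm l' x - tm l' q) * cr (dir l.1) (dir l'.1) := by
  conv_lhs => rw [eq_add_tm h' hx]
  rw [sd_add_smul, h, zero_add]

theorem sin_sign {a b : ℝ} (ha : a ∈ Ioo (0 : ℝ) 1) (hb : b ∈ Ioo (0 : ℝ) 1) (h : a < b) :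
    0 < Real.sin (b - a) :=
  Real.sin_pos_of_pos_of_lt_pi (by linarith) (by linarith [ha.1, hb.2, Real.pi_gt_three])

/-- No ray of the pencil meets its first obstacle tangentially. -/
theorem Stage.cross (S : Stage T 𝓡 Λ z q σ R) (C : Caught T 𝓡) {θ₀ : ℝ} (h₀ : θ₀ ∈ Ioo (0 : ℝ) 1)
    {m : Fin n} (h : Fst T (Λ θ₀) (z θ₀) m) : Cross (T.K m) (Λ θ₀) := by
  by_contra hc
  obtain ⟨τ, hτ, hs⟩ := side_of_not_cross hc
  have hJ := isOpen_Ioo.mem_nhds h₀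
  have cΛ := S.cΛ.continuousAt hJ
  have e1 := eventually_fst T cΛ (S.cz.continuousAt hJ)
    (by filter_upwards [hJ] with θ hθ using S.on θ hθ) (S.start' T h₀) h
  obtain ⟨c, hc'⟩ := (T.b m).int_ne
  have hcpos : 0 < τ * sd (Λ θ₀) c := by
    refine lt_of_le_of_ne (hs c (interior_subset hc')) fun h0 => hc (cross_of_interior hc' ?_)
    rcases hτ with rfl | rfl <;> linarith
  have e2 : ∀ᶠ θ in 𝓝 θ₀, 0 < τ * sd (Λ θ) c := by
    have : IsOpen {l : Ln | 0 < τ * sd l c} := isOpen_lt continuous_const (by fun_prop)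
    exact cΛ.eventually (this.mem_nhds hcpos)
  have hw := enP_mem (T.b m).cpt h.1
  have hT : 0 < tm (Λ θ₀) (enP (T.K m) (Λ θ₀)) - tm (Λ θ₀) q := by
    linarith [S.beh θ₀ h₀, S.R_nonneg, h.2.1]
  obtain ⟨ε, hε, hball⟩ := Metric.eventually_nhds_iff.1 (e1.and (e2.and hJ))
  -- a one-sided interval of rays that cross `K m`
  have key : ∀ G : Set ℝ, IsPreconnected G → θ₀ ∈ closure G → G.Nonempty →
      (∀ θ ∈ G, dist θ θ₀ < ε ∧ τ * σ * Real.sin (θ₀ - θ) < 0) → False := by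
    intro G hG hcl hne hin
    have hGJ : G ⊆ Ioo 0 1 := fun θ hθ => (hball (hin θ hθ).1).2.2
    have hF : ∀ θ ∈ G, First T (Λ θ) (z θ) m := by
      intro θ hθ
      obtain ⟨a1, a2, a3⟩ := hball (hin θ hθ).1
      have a4 := sd_eq_of_pencil (S.onq θ a3) (S.onq θ₀ h₀) (sd_enP (T.K m) (Λ θ₀))
      rw [S.ang θ a3 θ₀ h₀] at a4
      have a5 : τ * sd (Λ θ) (enP (T.K m) (Λ θ₀)) < 0 := by
        rw [a4]
        nlinarith [(hin θ hθ).2]
      have a6 : Cross (T.K m) (Λ θ) := by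
        rcases hτ with rfl | rfl
        · exact ⟨⟨_, hw, by linarith⟩, c, interior_subset hc', by linarith⟩
        · exact ⟨⟨c, interior_subset hc', by linarith⟩, _, hw, by linarith⟩
      exact ⟨a6, a1 (Cross.meets (T.b m).cvx a6)⟩
    obtain ⟨θ₁, h₁⟩ := hne
    have hM : FlatAux.M T m (Λ θ₀) = FlatAux.M T m (Λ θ₁) := by
      have b1 : ContinuousWithinAt (fun θ => FlatAux.M T m (Λ θ)) G θ₀ :=
        ContinuousWithinAt.comp (g := FlatAux.M T m) (f := Λ) (FlatAux.continuousOn_M T m _ h.1)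
          cΛ.continuousWithinAt
          fun θ hθ => (hF θ hθ).2.1
      have b2 := b1.mem_closure hcl (t := {FlatAux.M T m (Λ θ₁)})
        fun θ hθ => S.M_const T C hGJ hG hF hθ h₁
      rwa [closure_singleton] at b2
    have b3 := FlatAux.sd_enP_of_tangent T h.1 hc (hF θ₁ h₁).2.1 hM
    rw [sd_eq_of_pencil (S.onq θ₀ h₀) (S.onq θ₁ (hGJ h₁)) (sd_enP (T.K m) (Λ θ₁)),
      S.ang θ₀ h₀ θ₁ (hGJ h₁)] at b3
    have b4 : 0 < tm (Λ θ₁) (enP (T.K m) (Λ θ₁)) - tm (Λ θ₁) q := by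
      linarith [S.beh θ₁ (hGJ h₁), S.R_nonneg, (hF θ₁ h₁).2.2.1]
    have b5 := (mul_eq_zero.1 b3).resolve_left b4.ne'
    have b6 := (hin θ₁ h₁).2
    rw [← neg_sub, Real.sin_neg, mul_neg, mul_assoc, b5] at b6
    simp at b6
  have hτσ : τ * σ = 1 ∨ τ * σ = -1 := by
    rcases hτ with rfl | rfl <;> rcases S.sgn with rfl | rfl <;> norm_num
  rcases hτσ with hp | hp
  · refine key (Ioo θ₀ (θ₀ + ε)) isPreconnected_Ioo
      (by rw [closure_Ioo (by linarith)]; exact ⟨le_rfl, by linarith⟩)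
      (nonempty_Ioo.2 (by linarith)) fun θ hθ => ?_
    have d : dist θ θ₀ < ε := by
      rw [Real.dist_eq, abs_lt]
      constructor <;> linarith [hθ.1, hθ.2]
    refine ⟨d, ?_⟩
    rw [hp, one_mul, ← neg_sub, Real.sin_neg, neg_lt_zero]
    exact sin_sign h₀ (hball d).2.2 hθ.1
  · refine key (Ioo (θ₀ - ε) θ₀) isPreconnected_Ioo
      (by rw [closure_Ioo (by linarith)]; exact ⟨by linarith, le_rfl⟩)
      (nonempty_Ioo.2 (by linarith)) fun θ hθ => ?_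
    have d : dist θ θ₀ < ε := by
      rw [Real.dist_eq, abs_lt]
      constructor <;> linarith [hθ.1, hθ.2]
    refine ⟨d, ?_⟩
    rw [hp, neg_one_mul, neg_lt_zero]
    exact sin_sign (hball d).2.2 h₀ hθ.2

/-- All rays of the pencil have the same first obstacle. -/
theorem Stage.first (S : Stage T 𝓡 Λ z q σ R) (C : Caught T 𝓡) :
    ∃ j, ∀ θ ∈ Ioo (0 : ℝ) 1, First T (Λ θ) (z θ) j := by
  have h1 : ∀ θ ∈ Ioo (0 : ℝ) 1, ∃ j, First T (Λ θ) (z θ) j := fun θ hθ => by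
    obtain ⟨j, hj⟩ := exists_fst T (S.on θ hθ)
      (fun k => (S.start k).imp (fun a => a θ hθ) fun a => a θ hθ) (C.meet _ _ (S.mem θ hθ))
    exact ⟨j, S.cross T C hθ hj, hj⟩
  have hm : (1 / 2 : ℝ) ∈ Ioo (0 : ℝ) 1 := by constructor <;> norm_num
  obtain ⟨j, hj⟩ := h1 _ hm
  refine ⟨j, fun θ hθ => ?_⟩
  refine isPreconnected_Ioo.induction₂'
    (fun x y => ∀ j, First T (Λ x) (z x) j → First T (Λ y) (z y) j) (fun x hx => ?_)
    (fun _ _ _ _ _ _ a b j hj => b j (a j hj)) hm hθ j hj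
  obtain ⟨i, hi⟩ := h1 x hx
  have hJ := isOpen_Ioo.mem_nhds hx
  have := eventually_first T (S.cΛ.continuousAt hJ) (S.cz.continuousAt hJ)
    (by filter_upwards [hJ] with θ hθ using S.on θ hθ) (S.start' T hx) hi
  filter_upwards [mem_nhdsWithin_of_mem_nhds this] with y hy
  exact ⟨fun k hk => fst_unique T hi.2 hk.2 ▸ hy, fun k hk => fst_unique T hy.2 hk.2 ▸ hi⟩

/-- The reflected pencil. -/
theorem Stage.step (S : Stage T 𝓡 Λ z q σ R) (C : Caught T 𝓡) {j : Fin n}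
    (hj : ∀ θ ∈ Ioo (0 : ℝ) 1, First T (Λ θ) (z θ) j) {R' : ℝ} (h0 : 0 ≤ R')
    (hR : ∀ θ ∈ Ioo (0 : ℝ) 1, tm (Λ θ) q + R' ≤ tm (Λ θ) (enP (T.K j) (Λ θ))) :
    ∃ q', Stage T 𝓡 (fun θ => refl (T.b j) (Λ θ)) (fun θ => enP (T.K j) (Λ θ)) q' (-σ) R' := by
  have hm : (1 / 2 : ℝ) ∈ Ioo (0 : ℝ) 1 := by constructor <;> norm_num
  have hM : ∀ θ ∈ Ioo (0 : ℝ) 1, FlatAux.M T j (Λ (1 / 2)) = FlatAux.M T j (Λ θ) :=
    fun θ hθ => S.M_const T C Subset.rfl isPreconnected_Ioo hj hm hθ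
  have hN := FlatAux.norm_M T (hj _ hm).2.1
  have hd : ∀ θ ∈ Ioo (0 : ℝ) 1, dir (refl (T.b j) (Λ θ)).1 =
      FlatAux.rv (FlatAux.M T j (Λ (1 / 2))) (dir (Λ θ).1) := fun θ hθ => by
    rw [dir_refl (hj θ hθ).1, hM θ hθ]
    rfl
  have hq : ∀ θ ∈ Ioo (0 : ℝ) 1,
      FlatAux.rp (FlatAux.M T j (Λ (1 / 2))) (enP (T.K j) (Λ (1 / 2))) q = enP (T.K j) (Λ θ) +
        (tm (Λ θ) q - tm (Λ θ) (enP (T.K j) (Λ θ))) • dir (refl (T.b j) (Λ θ)).1 := fun θ hθ => by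
    have a1 := FlatAux.rp_sub (FlatAux.ip_M_sub T (hj _ hm).2.1 (hj θ hθ).2.1 (hM θ hθ)) q
    have a2 := eq_add_tm (sd_enP (T.K j) (Λ θ)) (S.onq θ hθ)
    rw [← sub_eq_iff_eq_add'] at a2
    rw [a2, FlatAux.rv_smul, ← hd θ hθ, sub_eq_iff_eq_add'] at a1
    exact a1
  refine ⟨FlatAux.rp (FlatAux.M T j (Λ (1 / 2))) (enP (T.K j) (Λ (1 / 2))) q,
    (continuous_refl _).comp_continuousOn S.cΛ,
    (continuousOn_enP (T.b j).cpt (T.b j).cvx (T.b j).int_ne).comp S.cΛ fun θ hθ => (hj θ hθ).1,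
    fun θ hθ => sd_refl_enP (hj θ hθ).1, fun θ hθ => ?_, fun θ hθ => ?_, ?_,
    fun θ hθ θ' hθ' => ?_, fun k => ?_, fun θ hθ => (C.next _ _ (S.mem θ hθ) j (hj θ hθ)).2, h0⟩
  · rw [hq θ hθ, sd_add_smul, sd_refl_enP (hj θ hθ).1, cr_self, mul_zero, add_zero]
  · rw [hq θ hθ, tm_add_smul, ip_dir_self]
    linarith [hR θ hθ]
  · rcases S.sgn with rfl | rfl <;> simp
  · rw [hd θ hθ, hd θ' hθ', FlatAux.cr_rv hN, S.ang θ hθ θ' hθ']
    ring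
  · by_cases hk : k = j
    · right
      intro θ hθ
      have := out_exP T j (refl (T.b j) (Λ θ))
      rw [exP_refl (hj θ hθ).1] at this
      rw [hk]
      exact this
    · left
      intro θ hθ h
      exact hk (K_disj T h (enP_mem (T.b j).cpt (hj θ hθ).2.1))

theorem Stage.iter (S : Stage T 𝓡 Λ z q σ 0) (C : Caught T 𝓡) (N : ℕ) :
    ∃ Λ' z' q' σ' i, Stage T 𝓡 Λ' z' q' σ' (N * (2 * T.r)) ∧
      ∀ θ ∈ Ioo (0 : ℝ) 1, z' θ ∈ T.K i ∧ Out T (Λ' θ) (z' θ) i := by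
  have fin : ∀ {Λ : ℝ → Ln} {z : ℝ → ℂ} {j : Fin n},
      (∀ θ ∈ Ioo (0 : ℝ) 1, First T (Λ θ) (z θ) j) → ∀ θ ∈ Ioo (0 : ℝ) 1,
        enP (T.K j) (Λ θ) ∈ T.K j ∧ Out T (refl (T.b j) (Λ θ)) (enP (T.K j) (Λ θ)) j := by
    intro Λ z j hj θ hθ
    refine ⟨enP_mem (T.b j).cpt (hj θ hθ).2.1, ?_⟩
    have := out_exP T j (refl (T.b j) (Λ θ))
    rwa [exP_refl (hj θ hθ).1] at this
  induction N with
  | zero =>
    obtain ⟨j, hj⟩ := S.first T C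
    obtain ⟨q', hq'⟩ := S.step T C hj (R' := (0 : ℕ) * (2 * T.r)) (by simp) fun θ hθ => by
      have := S.beh θ hθ
      have := (hj θ hθ).2.2.1
      simp only [Nat.cast_zero, zero_mul]
      linarith
    exact ⟨_, _, q', _, j, hq', fin hj⟩
  | succ N ih =>
    obtain ⟨Λ', z', q', σ', i, S', hi⟩ := ih
    obtain ⟨j, hj⟩ := S'.first T C
    obtain ⟨q'', hq''⟩ := S'.step T C hj (R' := (N + 1 : ℕ) * (2 * T.r))
      (mul_nonneg (Nat.cast_nonneg _) (by linarith [T.r_pos])) fun θ hθ => by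
      have a1 := S'.beh θ hθ
      have a2 := (hj θ hθ).2.2.1
      have a3 := enP_mem (T.b j).cpt (hj θ hθ).2.1
      have hij : i ≠ j := fun e => (hi θ hθ).2 _ a2 (by rw [pt_enP, e]; exact a3)
      have a4 := T.sep i j hij _ (FlatAux.K_subset_B T i (hi θ hθ).1) _ (FlatAux.K_subset_B T j a3)
      have a5 := eq_add_tm (S'.on θ hθ) (sd_enP (T.K j) (Λ' θ))
      rw [← sub_eq_iff_eq_add'] at a5
      rw [a5, FlatAux.ip_smul_right] at a4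
      have a6 := abs_ip_le (T.ν i j) (dir (Λ' θ).1)
      rw [T.ν_norm i j hij, norm_dir, one_mul] at a6
      have a7 := (abs_le.1 a6).2
      push_cast
      nlinarith
    exact ⟨_, _, q'', _, j, hq'', fin hj⟩

/-- A pencil of rays is not caught for ever at flat points. -/
theorem Stage.false (S : Stage T 𝓡 Λ z q σ 0) (C : Caught T 𝓡) : False := by
  have h1 : (1 / 4 : ℝ) ∈ Ioo (0 : ℝ) 1 := by constructor <;> norm_num
  have h2 : (3 / 4 : ℝ) ∈ Ioo (0 : ℝ) 1 := by constructor <;> norm_num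
  have hs := sin_sign h1 h2 (by norm_num)
  have hr := T.r_pos
  obtain ⟨N, hN⟩ := exists_nat_gt (2 * T.D / (2 * T.r * Real.sin (3 / 4 - 1 / 4)))
  rw [div_lt_iff₀ (by positivity)] at hN
  obtain ⟨Λ', z', q', σ', i, S', hi⟩ := S.iter T C N
  have a1 := sd_eq_of_pencil (S'.onq _ h1) (S'.onq _ h2) (S'.on _ h2)
  rw [S'.ang _ h1 _ h2] at a1
  have a2 := sd_sub (Λ' (1 / 4)) (z' (1 / 4)) (z' (3 / 4))
  rw [S'.on _ h1, sub_zero, a1] at a2
  have a3 := abs_cr_le (dir (Λ' (1 / 4)).1) (z' (3 / 4) - z' (1 / 4))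
  rw [norm_dir, one_mul, ← a2] at a3
  have a4 := norm_sub_le (z' (3 / 4)) (z' (1 / 4))
  have a5 := T.bdd i _ (FlatAux.K_subset_B T i (hi _ h1).1)
  have a6 := T.bdd i _ (FlatAux.K_subset_B T i (hi _ h2).1)
  have a7 := S'.beh _ h2
  have a8 := abs_le.1 a3
  rcases S'.sgn with rfl | rfl <;> nlinarith [a8.1, a8.2]

end Pool.Agent.P.MP_379466_co.FanAux
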