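import Pool.Agent.P.MP_379466_co.Chain
import Pool.Agent.P.MP_379466_co.Fan1

/-!
The link with the statement: a pencil of trapped rays gives a diverging curve of trapped lines
that leaves a curved point.
-/

set_option autoImplicit false

namespace Pool.Agent.P.MP_379466_co

open Set Topology Filter

namespace FanAux

variable {n : ℕ} (T : Table (Fin n))

theorem escapes_of_out {l : Ln} {z : ℂ} (hz : sd l z = 0)
    (h : ∀ t, tm l z < t → ∀ k, pt l t ∉ T.K k) : Escapes T.K z (dir l.1) := by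
  refine Escapes.free _ _ fun t ht k => ?_
  have := h (tm l z + t) (by linarith) k
  rwa [pt_add, pt_tm hz] at this

theorem escapes_of_first {l : Ln} {z : ℂ} {j : Fin n} (hz : sd l z = 0) (h : First T l z j)
    (he : Escapes T.K (enP (T.K j) l) (dir (refl (T.b j) l).1)) : Escapes T.K z (dir l.1) := by
  have e := (eq_add_tm hz (sd_enP (T.K j) l)).symm
  have hf := enP_frontier (T.b j).cpt h.2.1
  refine Escapes.bounce z (dir l.1) j (tm l (enP (T.K j) l) - tm l z) ((T.b j).N (enP (T.K j) l))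
    (sub_pos.2 h.2.2.1) (fun s h1 h2 k => ?_) (by rw [e]; exact enP_mem (T.b j).cpt h.2.1)
    ?_ ?_ ?_
  · have := h.2.2.2 (tm l z + s) (by linarith) (by linarith) k
    rwa [pt_add, pt_tm hz] at this
  · rw [e]
    refine ⟨(T.b j).N_norm _ hf, fun w hw => ?_⟩
    rw [inner_eq_ip]
    exact (T.b j).N_out _ hf w hw
  · rw [inner_eq_ip]
    exact (T.b j).ip_enP_neg h.1
  · rw [e, inner_eq_ip, ← dir_refl h.1]
    exact he

theorem first_of_hit {i j : Fin n} {l : Ln} (h : T.Hit i l j) : First T l (exP (T.K i) l) j := by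
  obtain ⟨-, -, h3, h4, h5⟩ := T.hit_iff.1 h
  exact ⟨h3, Cross.meets (T.b j).cvx h3, h4, h5⟩

theorem hit_of_first {i j : Fin n} {l : Ln} (hc : Cross (T.K i) l)
    (h : First T l (exP (T.K i) l) j) : T.Hit i l j := by
  refine T.hit_iff.2 ⟨fun e => ?_, hc, h.1, h.2.2.1, h.2.2.2⟩
  refine out_exP T i l _ h.2.2.1 ?_
  rw [pt_enP, e]
  exact enP_mem (T.b j).cpt h.2.1

theorem escapes_aux (k : ℕ) : ∀ v : St n, v ∈ T.DomN k → T.F^[k] v ∈ T.Esc →
    Escapes T.K (exP (T.K v.1) v.2) (dir v.2.1) := by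
  induction k with
  | zero =>
    intro v _ h
    exact escapes_of_out T (sd_exP _ _) (T.esc_iff.1 h).2
  | succ k ih =>
    intro v h1 h2
    obtain ⟨h3, h4⟩ := T.domN_succ.1 h1
    obtain ⟨h5, h6⟩ := T.hit_F h3
    have h7 := ih (T.F v) h4 h2
    have h8 := first_of_hit T h5
    rw [h6, exP_refl h8.1] at h7
    exact escapes_of_first T (sd_exP _ _) h8 h7

/-- The line through `p` with direction `θ`. -/
noncomputable def pL (p : ℂ) (θ : ℝ) : Ln := mkL p (θ : Ang)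

theorem continuous_pL (p : ℂ) : Continuous (pL p) :=
  continuous_mkL continuous_const (AddCircle.continuous_mk' _)

theorem sd_pL (p : ℂ) (θ : ℝ) : sd (pL p θ) p = 0 := by
  rw [pL, sd_mkL, sub_self]
  simp [cr]

theorem cr_pL (p : ℂ) (θ θ' : ℝ) : cr (dir (pL p θ).1) (dir (pL p θ').1) = Real.sin (θ' - θ) := by
  change cr (dir (θ : Ang)) (dir (θ' : Ang)) = _
  rw [dir_coe, dir_coe, cr, Complex.exp_ofReal_mul_I_re, Complex.exp_ofReal_mul_I_re,
    Complex.exp_ofReal_mul_I_im, Complex.exp_ofReal_mul_I_im, Real.sin_sub]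
  ring

/-- The state after the first reflection. -/
noncomputable def s0 (p : ℂ) (i : Fin n) (θ : ℝ) : St n := (i, refl (T.b i) (pL p θ))

theorem continuous_s0 (p : ℂ) (i : Fin n) : Continuous (s0 T p i) :=
  continuous_const.prodMk ((continuous_refl _).comp (continuous_pL p))

theorem not_escNS {p : ℂ} (h : ¬ ∃ u : ℂ, ‖u‖ = 1 ∧ Escapes T.K p u) {i : Fin n} {θ : ℝ}
    (hf : First T (pL p θ) p i) : s0 T p i θ ∉ T.EscNS := by
  rintro ⟨k, h1, h2⟩
  have h3 := escapes_aux T k _ h1 h2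
  change Escapes T.K (exP (T.K i) (refl (T.b i) (pL p θ))) (dir (refl (T.b i) (pL p θ)).1) at h3
  rw [exP_refl hf.1] at h3
  exact h ⟨_, norm_dir _, escapes_of_first T (sd_pL p θ) hf h3⟩

theorem exists_reg {p : ℂ} (hp : ∀ i, p ∉ T.K i) (h : ¬ ∃ u : ℂ, ‖u‖ = 1 ∧ Escapes T.K p u) :
    ∃ k θ i, First T (pL p θ) p i ∧ s0 T p i θ ∈ T.DomN k ∧
      exP (T.K (T.F^[k] (s0 T p i θ)).1) (T.F^[k] (s0 T p i θ)).2 ∈
        Reg (T.K (T.F^[k] (s0 T p i θ)).1) (T.b (T.F^[k] (s0 T p i θ)).1).N := by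
  by_contra hcon
  push Not at hcon
  let 𝓡 : Set (Ln × ℂ) := {w | (∃ θ, w = (pL p θ, p)) ∨ ∃ k θ i, First T (pL p θ) p i ∧
    s0 T p i θ ∈ T.DomN k ∧ w = ((T.F^[k] (s0 T p i θ)).2,
      exP (T.K (T.F^[k] (s0 T p i θ)).1) (T.F^[k] (s0 T p i θ)).2)}
  have C : Caught T 𝓡 := by
    constructor
    · intro l z hw
      by_contra hne
      push Not at hne
      rcases hw with ⟨θ, e⟩ | ⟨k, θ, i, h1, h2, e⟩
      · obtain ⟨rfl, rfl⟩ := Prod.mk.inj e
        exact h ⟨_, norm_dir _, escapes_of_out T (sd_pL _ θ) fun t ht k => hne k t ht⟩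
      · obtain ⟨rfl, rfl⟩ := Prod.mk.inj e
        refine not_escNS T h h1 ⟨k, h2, ?_⟩
        exact T.esc_iff.2 ⟨T.cross_iter (cross_refl.2 h1.1) h2 le_rfl, fun t ht k => hne k t ht⟩
    · intro l z hw j hj
      rcases hw with ⟨θ, e⟩ | ⟨k, θ, i, h1, h2, e⟩
      · obtain ⟨rfl, rfl⟩ := Prod.mk.inj e
        have h0 : s0 T z j θ ∈ T.DomN 0 := fun _ hj => absurd hj (Nat.not_lt_zero _)
        have e2 : exP (T.K j) (refl (T.b j) (pL z θ)) = enP (T.K j) (pL z θ) := exP_refl hj.1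
        refine ⟨?_, Or.inr ⟨0, θ, j, hj, h0, ?_⟩⟩
        · have := hcon 0 θ j hj h0
          rw [← e2]
          exact this
        · rw [← e2]
          rfl
      · obtain ⟨rfl, rfl⟩ := Prod.mk.inj e
        have h3 := hit_of_first T (T.cross_iter (cross_refl.2 h1.1) h2 le_rfl) hj
        have h4 : s0 T p i θ ∈ T.DomN (k + 1) := T.domN_succ'.2 ⟨h2, j, h3⟩
        have h5 : T.F^[k + 1] (s0 T p i θ) = (j, refl (T.b j) (T.F^[k] (s0 T p i θ)).2) := by
          rw [Function.iterate_succ_apply', T.F_of_hit h3]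
        have e2 := exP_refl hj.1
        refine ⟨?_, Or.inr ⟨k + 1, θ, i, h1, h4, ?_⟩⟩
        · have := hcon (k + 1) θ i h1 h4
          rw [h5] at this
          rw [← e2]
          exact this
        · rw [h5, ← e2]
  have S : Stage T 𝓡 (pL p) (fun _ => p) p 1 0 :=
    ⟨(continuous_pL p).continuousOn, continuousOn_const, fun θ _ => sd_pL p θ,
      fun θ _ => sd_pL p θ, fun _ _ => by simp, Or.inl rfl,
      fun θ _ θ' _ => by rw [cr_pL, one_mul], fun k => Or.inl fun _ _ => hp k,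
      fun θ _ => Or.inl ⟨θ, rfl⟩, le_rfl⟩
  exact S.false T C

theorem inRel_pL {p : ℂ} {i : Fin n} {s t : ℝ} (hs : First T (pL p s) p i)
    (ht : First T (pL p t) p i) (h : 0 ≤ Real.sin (t - s)) : T.InRel i 1 (pL p s) (pL p t) 0 := by
  refine ⟨hs.1, ht.1, by rw [An, cr_pL, one_mul]; exact h, ?_, ?_⟩
  · rw [Dv, sd_enP, sd_eq_of_pencil (sd_pL p t) (sd_pL p s) (sd_enP _ _), cr_pL, ← neg_sub t s,
      Real.sin_neg]
    nlinarith [hs.2.2.1]
  · rw [Dv, sd_enP, sd_eq_of_pencil (sd_pL p s) (sd_pL p t) (sd_enP _ _), cr_pL]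
    nlinarith [ht.2.2.1]

end FanAux

namespace Tab

open FanAux

variable {n : ℕ} (T : Tab n)

theorem escapes_of_escNS {v : St n} (h : v ∈ T.EscNS) :
    Escapes T.K (exP (T.K v.1) v.2) (dir v.2.1) := by
  obtain ⟨k, h1, h2⟩ := h
  exact escapes_aux T.toTable k v h1 h2

theorem fan {p : ℂ} (hp : ∀ i, p ∉ T.K i) (h : ¬ ∃ u : ℂ, ‖u‖ = 1 ∧ Escapes T.K p u) :
    ∃ (i : Fin n) (γ : ℝ → Ln) (a b s : ℝ), a < b ∧ (s = 1 ∨ s = -1) ∧
      ContinuousOn γ (Icc a b) ∧ exP (T.K i) (γ a) ∈ Reg (T.K i) (T.b i).N ∧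
      (∀ t ∈ Icc a b, Cross (T.K i) (γ t) ∧ (i, γ t) ∉ T.EscNS) ∧
      (∀ t ∈ Icc a b, ∀ t' ∈ Icc a b, t ≤ t' → T.PostRel i s (γ t) (γ t') 0) ∧
      ∀ t ∈ Ioc a b, γ t ≠ γ a := by
  obtain ⟨k, a, i, h1, h2, h3⟩ := exists_reg T.toTable hp h
  have hδ : 0 < T.δ1 / 2 := by linarith [T.δ2_pos, T.δ2_le]
  have cs := continuous_s0 T.toTable p i
  have e1 : ∀ᶠ θ in 𝓝 a, First T.toTable (pL p θ) p i :=
    eventually_first T.toTable (z := fun _ => p) (continuous_pL p).continuousAt continuousAt_const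
      (Eventually.of_forall (sd_pL p)) (fun k => Or.inl (hp k)) h1
  have e2 : ∀ᶠ θ in 𝓝 a, s0 T.toTable p i θ ∈ T.DomN k :=
    cs.continuousAt.eventually ((T.isOpen_domN k).mem_nhds h2)
  have e3 : ∀ᶠ θ in 𝓝 a, dL (pL p a) (pL p θ) < T.δ1 / 2 := by
    have : {l | dL (pL p a) l < T.δ1 / 2} ∈ 𝓝 (pL p a) := mem_nhds_dL.2 ⟨_, hδ, fun _ h => h⟩
    exact (continuous_pL p).continuousAt.eventually this
  have e4 : ∀ᶠ θ in 𝓝 a, ∀ j ∈ Iic k,
      (T.F^[j] (s0 T.toTable p i θ)).1 = (T.F^[j] (s0 T.toTable p i a)).1 ∧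
      dL (T.F^[j] (s0 T.toTable p i a)).2 (T.F^[j] (s0 T.toTable p i θ)).2 < T.δ1 / 2 := by
    refine (eventually_all_finite (finite_Iic k)).2 fun j hj => ?_
    have c : ContinuousAt (fun θ => T.F^[j] (s0 T.toTable p i θ)) a :=
      ContinuousAt.comp (g := T.F^[j]) (f := s0 T.toTable p i)
        ((T.continuousOn_iter hj).continuousAt ((T.isOpen_domN k).mem_nhds h2)) cs.continuousAt
    have c1 : {l | dL (T.F^[j] (s0 T.toTable p i a)).2 l < T.δ1 / 2} ∈
        𝓝 (T.F^[j] (s0 T.toTable p i a)).2 := mem_nhds_dL.2 ⟨_, hδ, fun _ h => h⟩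
    have c2 : {(T.F^[j] (s0 T.toTable p i a)).1} ∈ 𝓝 (T.F^[j] (s0 T.toTable p i a)).1 :=
      (isOpen_discrete _).mem_nhds rfl
    exact (c.fst.eventually c2).and (c.snd.eventually c1)
  obtain ⟨ε, hε, hball⟩ := Metric.eventually_nhds_iff.1 (e1.and (e2.and (e3.and e4)))
  have hm : 0 < min (ε / 2) 1 := lt_min (by linarith) one_pos
  have hin : ∀ t ∈ Icc a (a + min (ε / 2) 1), dist t a < ε := fun t ht => by
    rw [Real.dist_eq, abs_lt]
    have := min_le_left (ε / 2) 1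
    constructor <;> linarith [ht.1, ht.2]
  have hsin : ∀ t ∈ Icc a (a + min (ε / 2) 1), ∀ t' ∈ Icc a (a + min (ε / 2) 1), t ≤ t' →
      0 ≤ Real.sin (t' - t) := fun t ht t' ht' hle => by
    have := min_le_right (ε / 2) 1
    exact Real.sin_nonneg_of_nonneg_of_le_pi (by linarith)
      (by linarith [ht.1, ht'.2, Real.pi_gt_three])
  have hfol : ∀ t ∈ Icc a (a + min (ε / 2) 1), ∀ t' ∈ Icc a (a + min (ε / 2) 1),
      T.Fol k (s0 T.toTable p i t) (s0 T.toTable p i t') := fun t ht t' ht' =>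
    ⟨(hball (hin t ht)).2.1, (hball (hin t' ht')).2.1, fun j hj =>
      ((hball (hin t ht)).2.2.2 j hj).1.trans ((hball (hin t' ht')).2.2.2 j hj).1.symm⟩
  have hnear : ∀ t ∈ Icc a (a + min (ε / 2) 1), ∀ t' ∈ Icc a (a + min (ε / 2) 1), ∀ j ≤ k,
      dL (T.F^[j] (s0 T.toTable p i t)).2 (T.F^[j] (s0 T.toTable p i t')).2 ≤ T.δ1 :=
    fun t ht t' ht' j hj => by
      have a1 := ((hball (hin t ht)).2.2.2 j hj).2
      have a2 := ((hball (hin t' ht')).2.2.2 j hj).2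
      have a3 := dL_triangle (T.F^[j] (s0 T.toTable p i t)).2 (T.F^[j] (s0 T.toTable p i a)).2
        (T.F^[j] (s0 T.toTable p i t')).2
      rw [dL_comm] at a1
      linarith
  have hnear0 : ∀ t ∈ Icc a (a + min (ε / 2) 1), ∀ t' ∈ Icc a (a + min (ε / 2) 1),
      dL (pL p t) (pL p t') ≤ T.δ1 := fun t ht t' ht' => by
    have a1 := (hball (hin t ht)).2.2.1
    have a2 := (hball (hin t' ht')).2.2.1
    have a3 := dL_triangle (pL p t) (pL p a) (pL p t')
    rw [dL_comm] at a1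
    linarith
  have hrel : ∀ t ∈ Icc a (a + min (ε / 2) 1), ∀ t' ∈ Icc a (a + min (ε / 2) 1), t ≤ t' →
      T.InRel i 1 (pL p t) (pL p t') 0 := fun t ht t' ht' hle =>
    inRel_pL T.toTable (hball (hin t ht)).1 (hball (hin t' ht')).1 (hsin t ht t' ht' hle)
  have ha : a ∈ Icc a (a + min (ε / 2) 1) := ⟨le_rfl, by linarith⟩
  have hpost : ∃ s : ℝ, (s = 1 ∨ s = -1) ∧ ∀ t ∈ Icc a (a + min (ε / 2) 1),
      ∀ t' ∈ Icc a (a + min (ε / 2) 1), t ≤ t' → T.PostRel (T.F^[k] (s0 T.toTable p i a)).1 s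
        (T.F^[k] (s0 T.toTable p i t)).2 (T.F^[k] (s0 T.toTable p i t')).2 0 := by
    cases k with
    | zero =>
      refine ⟨1, Or.inl rfl, fun t ht t' ht' hle => ?_⟩
      change T.PostRel i 1 (refl (T.b i) (pL p t)) (refl (T.b i) (pL p t')) 0
      rw [PostRel, T.inL_refl, T.inL_refl]
      exact ⟨hnear0 t ht t' ht', hrel t ht t' ht' hle⟩
    | succ k =>
      refine ⟨(-1) ^ k * -1, ?_, fun t ht t' ht' hle => ?_⟩
      · rcases neg_one_pow_eq_or ℝ k with e | e <;> rw [e] <;> norm_num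
      · obtain ⟨-, b2, -⟩ := T.reflect (Or.inl rfl) (hnear0 t ht t' ht') (hrel t ht t' ht' hle) le_rfl
        obtain ⟨W, c1, -, c3⟩ := T.chain_post 0 (s := -1) (W := 0) (Or.inr rfl) (hfol t ht t' ht')
          (fun j hj => hnear t ht t' ht' j (by omega)) b2 le_rfl
        have c4 : 0 ≤ T.r * An (-1) (s0 T.toTable p i t).2 (s0 T.toTable p i t').2 :=
          mul_nonneg T.r_pos.le b2.1
        have c5 : 0 ≤ W := by
          have := mul_nonneg (Nat.cast_nonneg (α := ℝ) k) c4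
          linarith
        rw [← ((hball (hin t ht)).2.2.2 (k + 1) (mem_Iic.2 le_rfl)).1]
        obtain ⟨d1, d2, d3, d4, d5, d6⟩ := c1
        exact ⟨d1, d2, d3, d4, c5.trans d5, c5.trans d6⟩
  obtain ⟨s, hs, hpost⟩ := hpost
  refine ⟨(T.F^[k] (s0 T.toTable p i a)).1, fun t => (T.F^[k] (s0 T.toTable p i t)).2, a,
    a + min (ε / 2) 1, s, by linarith, hs, ?_, h3, fun t ht => ?_, hpost, fun t ht e => ?_⟩
  · exact ((T.continuousOn_iter le_rfl).comp cs.continuousOn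
      fun t ht => (hball (hin t ht)).2.1).snd
  · obtain ⟨b1, b2, -, b4⟩ := hball (hin t ht)
    rw [← (b4 k (mem_Iic.2 le_rfl)).1]
    exact ⟨T.cross_iter (cross_refl.2 b1.1) b2 le_rfl,
      fun b5 => not_escNS T.toTable h b1 ((T.escNS_iter b2).1 b5)⟩
  · have ht' : t ∈ Icc a (a + min (ε / 2) 1) := ⟨ht.1.le, ht.2⟩
    obtain ⟨b1, b2, -⟩ := T.reflect (Or.inl rfl) (hnear0 a ha t ht') (hrel a ha t ht' ht.1.le) le_rfl
    obtain ⟨W, -, -, c3, -⟩ := T.chain 0 (s := -1) (W := 0) (Or.inr rfl) (hfol a ha t ht')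
      (fun j hj => hnear a ha t ht' j hj.le) b2 le_rfl
    have c4 : 0 < An 1 (pL p a) (pL p t) := by
      rw [An, cr_pL, one_mul]
      have := min_le_right (ε / 2) 1
      exact Real.sin_pos_of_pos_of_lt_pi (by linarith [ht.1])
        (by linarith [ht.2, Real.pi_gt_three])
    have e' : (T.F^[k] (s0 T.toTable p i t)).2 = (T.F^[k] (s0 T.toTable p i a)).2 := e
    have e0 : ∀ (s : ℝ) (l : Ln), An s l l = 0 := fun s l => by rw [An, cr_self, mul_zero]
    rw [e', e0] at c3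
    have c5 : An (-1) (refl (T.b i) (pL p a)) (refl (T.b i) (pL p t)) ≤ 0 := c3
    linarith

end Tab

end Pool.Agent.P.MP_379466_co
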