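import Pool.Agent.P.MP_379466_co.FlatStep

/-!
After the first splitting: a fan of rays on one side of a tangent ray cannot stay trapped.
-/

set_option autoImplicit false

namespace Pool.Agent.P.MP_379466_co.FlatAux

open Set Metric Complex Topology

variable {n : ℕ} (T : Table (Fin n))

/-- The invariant of the fan. -/
structure Inv (𝓜 : Set Ray) (c L a : ℝ) (H : Set Ray) (i : Fin n) (x y : Ray) (O Q : ℂ)
    (s : ℝ) : Prop where
  fam : Fam T 𝓜 H
  base : ∀ w ∈ H, Meets (T.K i) w.1 ∧ w = lift T i w.1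
  hx : x ∈ H
  hy : y ∈ H
  hs : s = 1 ∨ s = -1
  hO : sd x.1 O = 0
  hL : tm x.1 O + L ≤ x.2
  ha : tm x.1 O + a ≤ x.2
  left : ∀ w ∈ H, 0 ≤ s * sd w.1 O
  right : ∀ w ∈ H, s * sd w.1 (O + L • dir x.1.1) ≤ 0
  hQ : sd y.1 Q = 0
  clear : Clear T y (tm y.1 Q)
  pos : 0 < s * sd x.1 Q
  grow : c * (tm x.1 Q - tm x.1 O) ≤ s * sd x.1 Q

variable {T} {𝓜 : Set Ray} {c L a : ℝ} {H : Set Ray} {i : Fin n} {x y : Ray} {O Q : ℂ} {s : ℝ}

theorem Inv.cr_nonneg (I : Inv T 𝓜 c L a H i x y O Q s) (hL : 0 < L) {w : Ray} (hw : w ∈ H) :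
    0 ≤ s * cr (dir x.1.1) (dir w.1.1) := by
  have h1 := I.left w hw
  have h2 := I.right w hw
  rw [sd_add_smul, cr_swap] at h2
  by_contra h3
  push Not at h3
  nlinarith

/-- The marked point may be moved forward. -/
theorem Inv.move (I : Inv T 𝓜 c L a H i x y O Q s) (hc : 0 < c) (hL : 0 < L) {Q' : ℂ}
    (h0 : sd y.1 Q' = 0) (h1 : tm y.1 Q ≤ tm y.1 Q') :
    0 < s * sd x.1 Q' ∧ c * (tm x.1 Q' - tm x.1 O) ≤ s * sd x.1 Q' := by
  set κ := tm y.1 Q' - tm y.1 Q with hκ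
  have hκ0 : 0 ≤ κ := sub_nonneg.2 h1
  have e : Q' = Q + κ • dir y.1.1 := by
    conv_lhs => rw [← pt_tm h0]
    conv_rhs => rw [← pt_tm I.hQ]
    rw [← pt_add]; congr 1; ring
  have hq := I.cr_nonneg hL I.hy
  have hl := I.left y I.hy
  have hp := I.pos
  have hg := I.grow
  have e1 : sd y.1 O = cr (dir y.1.1) (O - Q) := by rw [← sd_sub, I.hQ, sub_zero]
  have e2 : sd x.1 Q = cr (dir x.1.1) (Q - O) := by rw [← sd_sub, I.hO, sub_zero]
  have e3 : tm x.1 Q - tm x.1 O = ip (dir x.1.1) (Q - O) := tm_sub _ _ _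
  have e4 : cr (dir y.1.1) (O - Q) = cr (dir x.1.1) (dir y.1.1) * ip (dir x.1.1) (Q - O) -
      ip (dir x.1.1) (dir y.1.1) * cr (dir x.1.1) (Q - O) := by
    have := unit_sq (norm_dir x.1.1)
    simp only [cr, ip, sub_re, sub_im]
    linear_combination (-((dir y.1.1).re * (O.im - Q.im) - (dir y.1.1).im * (O.re - Q.re))) * this
  rw [e, sd_add_smul, tm_add_smul]
  rw [e1, e4, ← e2, ← e3] at hl
  set q := s * cr (dir x.1.1) (dir y.1.1) with hqd
  set p := ip (dir x.1.1) (dir y.1.1)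
  set h := s * sd x.1 Q with hh
  set t := tm x.1 Q - tm x.1 O with ht
  have hl' : p * h ≤ q * t := by rw [hqd, hh]; nlinarith
  have hcp : c * p ≤ q := by
    rcases le_or_gt p 0 with hp0 | hp0
    · nlinarith
    · have ht0 : 0 < t := by
        by_contra ht0
        push Not at ht0
        nlinarith [mul_pos hp0 hp, mul_nonneg hq (neg_nonneg.2 ht0)]
      have : c * p * t ≤ q * t := by nlinarith
      exact le_of_mul_le_mul_right this ht0
  have e5 : s * (sd x.1 Q + κ * cr (dir x.1.1) (dir y.1.1)) = h + κ * q := by rw [hqd, hh]; ring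
  rw [e5]
  refine ⟨by nlinarith [mul_nonneg hκ0 hq], ?_⟩
  have e6 : c * (tm x.1 Q + κ * p - tm x.1 O) = c * t + κ * (c * p) := by rw [ht]; ring
  rw [e6]
  nlinarith [mul_le_mul_of_nonneg_left hcp hκ0]

theorem Inv.move_en (I : Inv T 𝓜 c L a H i x y O Q s) (h : Trap T 𝓜) (hc : 0 < c) (hL : 0 < L)
    {j : Fin n} (hj : Hit T j y) :
    0 < s * sd x.1 (enP (T.K j) y.1) ∧
      c * (tm x.1 (enP (T.K j) y.1) - tm x.1 O) ≤ s * sd x.1 (enP (T.K j) y.1) :=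
  I.move hc hL (sd_enP _ _)
    (I.clear.le_en T hj.2 (hj.1.spec T (h.out y (I.fam.sub I.hy) j)).1.le)

theorem Inv.bound (I : Inv T 𝓜 c L a H i x y O Q s) (h : Trap T 𝓜) (hc : 0 < c) (hL : 0 < L) :
    c * (a - 2 * T.D) ≤ 2 * T.D := by
  obtain ⟨j, hj⟩ := exists_hit T h (I.fam.sub I.hy)
  obtain ⟨-, h2⟩ := I.move_en h hc hL hj
  have hP := T.bdd j _ (K_subset_B T j (enP_mem (T.b j).cpt (hj.1.meets T)))
  have hX : ‖pt x.1 x.2‖ ≤ T.D := by
    have h3 := (I.base x I.hx).2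
    have h4 : x.2 = ex T i x.1 := congrArg Prod.snd h3
    rw [h4]
    exact T.bdd i _ (B'_subset T i (pt_ex_mem T (I.base x I.hx).1))
  have hd : ‖enP (T.K j) y.1 - pt x.1 x.2‖ ≤ 2 * T.D :=
    (norm_sub_le _ _).trans (by linarith)
  have h5 := sd_sub x.1 (pt x.1 x.2) (enP (T.K j) y.1)
  have h6 := tm_sub x.1 (pt x.1 x.2) (enP (T.K j) y.1)
  rw [sd_pt, sub_zero] at h5
  rw [tm_pt] at h6
  have h7 := abs_cr_le (dir x.1.1) (enP (T.K j) y.1 - pt x.1 x.2)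
  have h8 := abs_ip_le (dir x.1.1) (enP (T.K j) y.1 - pt x.1 x.2)
  rw [norm_dir, one_mul] at h7 h8
  rw [← h5] at h7
  rw [← h6] at h8
  have h9 := abs_le.1 (h7.trans hd)
  have h10 := abs_le.1 (h8.trans hd)
  have h11 : s * sd x.1 (enP (T.K j) y.1) ≤ 2 * T.D := by
    rcases I.hs with rfl | rfl <;> linarith [h9.1, h9.2]
  have h12 : a - 2 * T.D ≤ tm x.1 (enP (T.K j) y.1) - tm x.1 O := by linarith [I.ha, h10.1]
  exact (mul_le_mul_of_nonneg_left h12 hc.le).trans (h2.trans h11)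

theorem Inv.retract (I : Inv T 𝓜 c L a H i x y O Q s) (h : Trap T 𝓜) (hc : 0 < c) (hL : 0 < L)
    {j : Fin n} {U : Set Ray} (hU : IsOpen U) (hUj : ∀ w ∈ H, w ∈ U ↔ Hit T j w)
    (hne : ¬ H ⊆ U) : ∃ y' Q', Inv T 𝓜 c L a (H \ U) i x y' O Q' s := by
  have hxU : x ∉ U := by
    intro hxU
    have hj := (hUj x I.hx).1 hxU
    obtain ⟨G, hGH, -, -, hxG, hGt, x', hx', hxc, hM⟩ := split T h I.fam hU hUj hne I.hx hj
    have hm' := (hGt x' hx').meets T
    have h1 := sd_enP_of_tangent T hm' hxc (hj.1.meets T) (hM x hxG).symm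
    obtain ⟨τ, hτ, h2, -⟩ := tangent_spec T hm' hxc
    have h3 : ip (dir x.1.1) (M T j x.1) < 0 := (T.b j).ip_enP_neg hj.2
    rw [hM x hxG, h2, ip_comm, ip_neg_left, ip_smul_left, ip_I_mul] at h3
    have h4 := (hj.1.spec T (h.out x (I.fam.sub I.hx) j)).1
    have e : enP (T.K j) x.1 = O + (en T j x.1 - tm x.1 O) • dir x.1.1 := by
      conv_rhs => rw [← pt_tm I.hO]
      rw [← pt_add, tm_pt, ← pt_en]; congr 1; ring
    rw [e, sd_add_smul] at h1
    have h5 := I.right x' (hGH hx')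
    rw [sd_add_smul] at h5
    have h6 := I.cr_nonneg hL (hGH hx')
    rw [cr_swap] at h6
    have h7 : L < en T j x.1 - tm x.1 O := by linarith [I.hL]
    have h8 : cr (dir x'.1.1) (dir x.1.1) = 0 := by
      rcases I.hs with rfl | rfl <;> nlinarith
    rw [h8] at h3
    simp at h3
  have hf := fam_diff T h I.fam I.base hU hUj hne
  by_cases hyU : y ∈ U
  swap
  · exact ⟨y, Q, hf, fun w hw => I.base w hw.1, ⟨I.hx, hxU⟩, ⟨I.hy, hyU⟩, I.hs, I.hO, I.hL, I.ha,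
      fun w hw => I.left w hw.1, fun w hw => I.right w hw.1, I.hQ, I.clear, I.pos, I.grow⟩
  have hj := (hUj y I.hy).1 hyU
  obtain ⟨G, hGH, -, -, hyG, hGt, y', hy', hyc, hM⟩ := split T h I.fam hU hUj hne I.hy hj
  have hm' := (hGt y' hy').meets T
  have h1 := sd_enP_of_tangent T hm' hyc (hj.1.meets T) (hM y hyG).symm
  obtain ⟨h2, h3⟩ := I.move_en h hc hL hj
  refine ⟨y', enP (T.K j) y.1, hf, fun w hw => I.base w hw.1, ⟨I.hx, hxU⟩,
    ⟨hGH hy', fun hU' => hyc ((hUj y' (hGH hy')).1 hU').2⟩, I.hs, I.hO, I.hL, I.ha,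
    fun w hw => I.left w hw.1, fun w hw => I.right w hw.1, h1, ?_, h2, h3⟩
  obtain ⟨t, -, h5, h6⟩ := hGt y' hy'
  intro u hu k hk
  rcases le_total u t with h7 | h7
  · exact h6 u ⟨hu.1, h7⟩ k hk
  · have h8 : pt y'.1 (tm y'.1 (enP (T.K j) y.1)) ∈ T.K j := by
      rw [pt_tm h1]; exact enP_mem (T.b j).cpt (hj.1.meets T)
    have h9 := pt_mem_between (T.b j).cvx h5 h8 h7 hu.2
    have e := B_disj T (K_subset_B T k (interior_subset hk)) (K_subset_B T j h9)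
    subst e
    exact hyc (cross_of_interior hk (sd_pt _ _))

theorem Inv.reduce (I : Inv T 𝓜 c L a H i x y O Q s) (h : Trap T 𝓜) (hc : 0 < c) (hL : 0 < L) :
    ∃ H' y' Q' j, Inv T 𝓜 c L a H' i x y' O Q' s ∧ ∀ w ∈ H', Hit T j w := by
  classical
  induction' hk : (Finset.univ.filter fun j => ∃ w ∈ H, Hit T j w).card using Nat.strong_induction_on
    with k ih generalizing H y Q
  obtain ⟨j, ⟨w₀, hw₀, hj⟩, U, hU, hUj⟩ := exists_open T h I.fam ⟨x, I.hx⟩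
  by_cases hne : H ⊆ U
  · exact ⟨H, y, Q, j, I, fun w hw => (hUj w hw).1 (hne hw)⟩
  obtain ⟨y', Q', I'⟩ := I.retract h hc hL hU hUj hne
  refine ih _ ?_ I' rfl
  rw [← hk]
  refine Finset.card_lt_card ⟨fun l hl => ?_, fun hsub => ?_⟩
  · obtain ⟨w, hw, hl⟩ := (Finset.mem_filter.1 hl).2
    exact Finset.mem_filter.2 ⟨Finset.mem_univ _, w, hw.1, hl⟩
  · obtain ⟨w, hw, hl⟩ :=
      (Finset.mem_filter.1 (hsub (Finset.mem_filter.2 ⟨Finset.mem_univ _, w₀, hw₀, hj⟩))).2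
    exact hw.2 ((hUj w hw.1).2 hl)

theorem base_Φ {G : Set Ray} {j : Fin n} (ht : ∀ v ∈ G, Touch T j v) :
    ∀ w ∈ Φ T j '' G, Meets (T.K j) w.1 ∧ w = lift T j w.1 := by
  rintro _ ⟨v, hv, rfl⟩
  exact ⟨meets_refl T ((ht v hv).meets T), rfl⟩

theorem Inv.step (I : Inv T 𝓜 c L a H i x y O Q s) (h : Trap T 𝓜) (hc : 0 < c) (hL : 0 < L)
    {j : Fin n} (hj : ∀ w ∈ H, Hit T j w) :
    Inv T 𝓜 c L (a + T.r / 2) (Φ T j '' H) j (Φ T j x) (Φ T j y)
      (rp (M T j x.1) (enP (T.K j) x.1) O) (enP (T.K j) y.1) (-s) := by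
  have hm : ∀ w ∈ H, Meets (T.K j) w.1 := fun w hw => (hj w hw).1.meets T
  have hM : ∀ v ∈ H, ∀ v' ∈ H, M T j v.1 = M T j v'.1 := fun v hv v' hv' =>
    M_const T h I.fam.sub I.fam.conn hj hv hv'
  have hx := hm x I.hx
  have hy := hm y I.hy
  have hr := T.r_pos
  have h1 := tm_refl_rp T hx hx rfl O
  have h2 := add_le_ex T (enP_mem (T.b j).cpt hx) (refl_spec T hx).2
  have h3 := ((hj x I.hx).1.spec T (h.out x (I.fam.sub I.hx) j)).1
  obtain ⟨h4, h5⟩ := I.move_en h hc hL (hj y I.hy)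
  have h6 := sd_refl_rp T hx hx rfl (enP (T.K j) y.1)
  have h7 := tm_refl_rp T hx hx rfl (enP (T.K j) y.1)
  rw [rp_fix T hy hx (hM x I.hx y I.hy)] at h6 h7
  refine ⟨fam_Φ T h I.fam (fun v hv => (hj v hv).1) hM, base_Φ fun v hv => (hj v hv).1,
    mem_image_of_mem _ I.hx, mem_image_of_mem _ I.hy, ?_, ?_, ?_, ?_, ?_, ?_,
    (refl_spec T hy).2, ?_, ?_, ?_⟩
  · rcases I.hs with rfl | rfl <;> simp
  · change sd (refl (T.b j) x.1) _ = 0
    rw [sd_refl_rp T hx hx rfl, I.hO, neg_zero]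
  · change tm (refl (T.b j) x.1) _ + L ≤ ex T j (refl (T.b j) x.1)
    linarith [I.hL]
  · change tm (refl (T.b j) x.1) _ + _ ≤ ex T j (refl (T.b j) x.1)
    linarith [I.ha]
  · rintro _ ⟨w, hw, rfl⟩
    change 0 ≤ -s * sd (refl (T.b j) w.1) _
    rw [sd_refl_rp T (hm w hw) hx (hM x I.hx w hw)]
    linarith [I.left w hw]
  · rintro _ ⟨w, hw, rfl⟩
    change -s * sd (refl (T.b j) w.1) (_ + L • dir (refl (T.b j) x.1).1) ≤ 0
    rw [(refl_spec T hx).1, ← rp_add_smul, sd_refl_rp T (hm w hw) hx (hM x I.hx w hw)]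
    linarith [I.right w hw]
  · intro u hu
    have h8 := add_le_ex T (enP_mem (T.b j).cpt hy) (refl_spec T hy).2
    have h9 : ex T j (refl (T.b j) y.1) ≤ u := hu.1
    have h10 : u ≤ tm (refl (T.b j) y.1) (enP (T.K j) y.1) := hu.2
    linarith
  · change 0 < -s * sd (refl (T.b j) x.1) _
    rw [h6]; linarith
  · change c * (tm (refl (T.b j) x.1) _ - tm (refl (T.b j) x.1) _) ≤ -s * sd (refl (T.b j) x.1) _
    rw [h6]
    have : tm (refl (T.b j) x.1) (enP (T.K j) y.1) -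
        tm (refl (T.b j) x.1) (rp (M T j x.1) (enP (T.K j) x.1) O) =
        tm x.1 (enP (T.K j) y.1) - tm x.1 O := by linarith
    rw [this]; linarith

theorem Inv.false (I : Inv T 𝓜 c L 0 H i x y O Q s) (h : Trap T 𝓜) (hc : 0 < c) (hL : 0 < L) :
    False := by
  have key : ∀ k : ℕ, ∃ H i x y O Q s, Inv T 𝓜 c L (k * (T.r / 2)) H i x y O Q s := by
    intro k
    induction k with
    | zero => exact ⟨H, i, x, y, O, Q, s, by simpa using I⟩
    | succ k ih =>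
      obtain ⟨H, i, x, y, O, Q, s, I⟩ := ih
      obtain ⟨H', y', Q', j, I', hj⟩ := I.reduce h hc hL
      have := I'.step h hc hL hj
      rw [show (k : ℝ) * (T.r / 2) + T.r / 2 = ((k + 1 : ℕ) : ℝ) * (T.r / 2) by push_cast; ring]
        at this
      exact ⟨_, _, _, _, _, _, _, this⟩
  have hr := half_pos T.r_pos
  obtain ⟨k, hk⟩ := exists_nat_gt ((2 * T.D / c + 2 * T.D) / (T.r / 2))
  obtain ⟨H, i, x, y, O, Q, s, I⟩ := key k
  have h1 := I.bound h hc hL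
  rw [div_lt_iff₀ hr] at hk
  have h2 : 2 * T.D / c < k * (T.r / 2) - 2 * T.D := by linarith
  rw [div_lt_iff₀ hc] at h2
  linarith

/-- A family of trapped rays is never split. -/
theorem no_split (h : Trap T 𝓜) (hH : Fam T 𝓜 H) (hne : H.Nonempty) :
    ∃ j, ∀ w ∈ H, Hit T j w := by
  obtain ⟨j, ⟨w, hw, hj⟩, U, hU, hUj⟩ := exists_open T h hH hne
  by_cases hsub : H ⊆ U
  · exact ⟨j, fun w hw => (hUj w hw).1 (hsub hw)⟩
  exfalso
  obtain ⟨G, hGH, hGc, hGp, hwG, hGt, x, hx, hxc, hM⟩ := split T h hH hU hUj hsub hw hj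
  have hG : Fam T 𝓜 G := ⟨fun v hv => hH.sub (hGH hv), hGc, hGp,
    fun v hv v' hv' => hH.close v (hGH hv) v' (hGH hv')⟩
  have hm : ∀ v ∈ G, Meets (T.K j) v.1 := fun v hv => (hGt v hv).meets T
  have hr := T.r_pos
  obtain ⟨τ, hτ, hN, -⟩ := tangent_spec T (hm x hx) hxc
  have hΦx : Φ T j x = (x.1, ex T j x.1) := by rw [Φ, refl_of_not_cross hxc]; rfl
  have hP : ∀ v ∈ G, sd x.1 (enP (T.K j) v.1) = 0 := fun v hv =>
    sd_enP_of_tangent T (hm x hx) hxc (hm v hv) (hM v hv).symm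
  have hcr : ∀ v ∈ G, -τ * cr (dir x.1.1) (dir (refl (T.b j) v.1).1) =
      -ip (dir v.1.1) (M T j v.1) := fun v hv => by
    have h1 := norm_M T (hm v hv)
    have h2 : ip (M T j v.1) (rv (M T j v.1) (dir v.1.1)) = -ip (dir v.1.1) (M T j v.1) := by
      rw [rv, ip_sub_right, ip_smul_right, ip_self, h1, ip_comm (M T j v.1)]; ring
    rw [← h2, (refl_spec T (hm v hv)).1]
    generalize rv (M T j v.1) (dir v.1.1) = u
    rw [hM v hv, hN, ip_neg_left, ip_smul_left, ip_I_mul]; ring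
  have hlo : ∀ v ∈ G, -T.D ≤ tm x.1 (enP (T.K j) v.1) := fun v hv => by
    have h1 := abs_le_norm_pt x.1 (tm x.1 (enP (T.K j) v.1))
    rw [pt_tm (hP v hv)] at h1
    exact (abs_le.1 (h1.trans (T.bdd j _ (K_subset_B T j (enP_mem (T.b j).cpt (hm v hv)))))).1
  have hhi : ∀ v ∈ G, tm x.1 (enP (T.K j) v.1) + T.r / 2 ≤ ex T j x.1 := fun v hv =>
    add_le_ex T (enP_mem (T.b j).cpt (hm v hv)) (hP v hv)
  have hsd : ∀ v ∈ G, ∀ t : ℝ, -τ * sd (refl (T.b j) v.1) (pt x.1 t) =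
      (t - tm x.1 (enP (T.K j) v.1)) * ip (dir v.1.1) (M T j v.1) := fun v hv t => by
    have e : pt x.1 t = enP (T.K j) v.1 + (t - tm x.1 (enP (T.K j) v.1)) • dir x.1.1 := by
      conv_rhs => rw [← pt_tm (hP v hv)]
      rw [← pt_add, tm_pt]; congr 1; ring
    rw [e, sd_add_smul, (refl_spec T (hm v hv)).2, cr_swap]
    linear_combination (-(t - tm x.1 (enP (T.K j) v.1))) * hcr v hv
  have hneg : ∀ v ∈ G, ip (dir v.1.1) (M T j v.1) ≤ 0 := fun v hv =>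
    (T.b j).ip_enP_nonpos (hm v hv)
  have hw0 : ip (dir w.1.1) (M T j w.1) < 0 := (T.b j).ip_enP_neg hj.2
  set l := refl (T.b j) w.1 with hl
  set Q := enP (T.K j) w.1 + (T.r / 4) • dir l.1 with hQ
  have hpos : 0 < -τ * sd x.1 Q := by
    rw [hQ, sd_add_smul, hP w hwG, zero_add]
    have := hcr w hwG
    nlinarith
  set t := tm x.1 Q - -T.D with ht
  have hc : 0 < -τ * sd x.1 Q / (|t| + 1) := div_pos hpos (by positivity)
  have hL : 0 < ex T j x.1 + T.D := by linarith [hlo x hx, hhi x hx]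
  refine Inv.false (T := T) (H := Φ T j '' G) (i := j) (x := Φ T j x) (y := Φ T j w)
    (O := pt x.1 (-T.D)) (Q := Q) (s := -τ) ⟨fam_Φ T h hG hGt fun v hv v' hv' =>
      (hM v hv).trans (hM v' hv').symm, base_Φ hGt, mem_image_of_mem _ hx, mem_image_of_mem _ hwG,
      ?_, ?_, ?_, ?_, ?_, ?_, ?_, ?_, ?_, ?_⟩ h hc hL
  · rcases hτ with rfl | rfl <;> simp
  · rw [hΦx]; exact sd_pt _ _
  · rw [hΦx]; simp only [tm_pt]; linarith
  · rw [hΦx]; simp only [tm_pt]; linarith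
  · rintro _ ⟨v, hv, rfl⟩
    change 0 ≤ -τ * sd (refl (T.b j) v.1) _
    rw [hsd v hv]
    exact mul_nonneg_of_nonpos_of_nonpos (by linarith [hlo v hv]) (hneg v hv)
  · rintro _ ⟨v, hv, rfl⟩
    rw [hΦx]
    change -τ * sd (refl (T.b j) v.1) (_ + _ • dir x.1.1) ≤ 0
    rw [← pt_add, hsd v hv]
    exact mul_nonpos_of_nonneg_of_nonpos (by linarith [hhi v hv]) (hneg v hv)
  · change sd l Q = 0
    rw [hQ, sd_add_smul, (refl_spec T (hm w hwG)).2, cr_self]; ring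
  · intro u hu
    have h8 := add_le_ex T (enP_mem (T.b j).cpt (hm w hwG)) (refl_spec T (hm w hwG)).2
    have h9 : ex T j l ≤ u := hu.1
    have h10 : u ≤ tm l Q := hu.2
    rw [hQ, tm_add_smul, ip_self, norm_dir] at h10
    linarith
  · rw [hΦx]; exact hpos
  · rw [hΦx]
    simp only [tm_pt]
    rw [← ht, div_mul_eq_mul_div, div_le_iff₀ (by positivity)]
    exact mul_le_mul_of_nonneg_left (by linarith [le_abs_self t]) hpos.le

end Pool.Agent.P.MP_379466_co.FlatAux
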