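import Pool.Agent.Lib.Kuhn.Kuhn

set_option autoImplicit false

namespace Pool.Agent.P.MP_379466_co

open Set

namespace Topo

lemma sep_space {Y : Type*} [TopologicalSpace Y] [T2Space Y] [CompactSpace Y] {A B : Set Y}
    (hA : IsClosed A) (hB : IsClosed B) (h : ∀ x ∈ A, ∀ y ∈ B, y ∉ connectedComponent x) :
    ∃ Z, IsClopen Z ∧ A ⊆ Z ∧ Disjoint Z B := by
  have h1 : ∀ x ∈ A, ∃ Z, IsClopen Z ∧ x ∈ Z ∧ Disjoint Z B := by
    intro x hx
    obtain ⟨u, hu⟩ := hB.isCompact.elim_finite_subfamily_closed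
      (fun s : { s : Set Y // IsClopen s ∧ x ∈ s } => (s : Set Y)) (fun s => s.2.1.1) (by
        rw [← connectedComponent_eq_iInter_isClopen]
        exact eq_empty_of_forall_notMem fun y hy => h x hx y hy.1 hy.2)
    refine ⟨⋂ s ∈ u, (s : Set Y), isClopen_biInter_finset fun s _ => s.2.1,
      mem_iInter₂.2 fun s _ => s.2.2, ?_⟩
    rw [disjoint_comm, disjoint_iff_inter_eq_empty]; exact hu
  choose! Z hZ using h1
  obtain ⟨t, ht, hc⟩ := hA.isCompact.elim_nhds_subcover Z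
    fun x hx => (hZ x hx).1.2.mem_nhds (hZ x hx).2.1
  refine ⟨⋃ x ∈ t, Z x, isClopen_biUnion_finset fun x hx => (hZ x (ht x hx)).1, hc, ?_⟩
  rw [disjoint_iUnion₂_left]
  exact fun x hx => (hZ x (ht x hx)).2.2

/-- Cutting a compact set between two closed sets that no continuum joins. -/
lemma sep {X : Type*} [TopologicalSpace X] [T2Space X] {K A B : Set X} (hK : IsCompact K)
    (hA : IsClosed A) (hB : IsClosed B)
    (h : ∀ Γ, IsCompact Γ → IsPreconnected Γ → Γ ⊆ K → (Γ ∩ A).Nonempty → (Γ ∩ B).Nonempty → False) :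
    ∃ P Q, IsCompact P ∧ IsCompact Q ∧ P ∪ Q = K ∧ Disjoint P Q ∧ Disjoint P B ∧ Disjoint Q A := by
  haveI : CompactSpace K := isCompact_iff_compactSpace.1 hK
  obtain ⟨Z, hZ, h1, h2⟩ := sep_space (A := ((↑) : K → X) ⁻¹' A) (B := ((↑) : K → X) ⁻¹' B)
    (hA.preimage continuous_subtype_val) (hB.preimage continuous_subtype_val) (by
      intro x hx y hy hxy
      refine h (((↑) : K → X) '' connectedComponent x)
        (isClosed_connectedComponent.isCompact.image continuous_subtype_val)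
        (isPreconnected_connectedComponent.image _ continuous_subtype_val.continuousOn)
        (by rintro _ ⟨z, -, rfl⟩; exact z.2) ⟨x, ⟨x, mem_connectedComponent, rfl⟩, hx⟩
        ⟨y, ⟨y, hxy, rfl⟩, hy⟩)
  refine ⟨(↑) '' Z, (↑) '' Zᶜ, hZ.1.isCompact.image continuous_subtype_val,
    hZ.compl.1.isCompact.image continuous_subtype_val, ?_, ?_, ?_, ?_⟩
  · rw [← image_union, union_compl_self, image_univ, Subtype.range_coe]
  · exact (disjoint_image_iff Subtype.val_injective).2 disjoint_compl_right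
  · rw [disjoint_left]
    rintro _ ⟨z, hz, rfl⟩ hb
    exact disjoint_left.1 h2 hz hb
  · rw [disjoint_left]
    rintro _ ⟨z, hz, rfl⟩ ha
    exact hz (h1 ha)

/-- The Hex lemma for open covers of a rectangle. -/
lemma hex_open (C D U V : Set (ℝ × ℝ)) (hC : IsOpen C) (hD : IsOpen D) (hU : IsOpen U)
    (hV : IsOpen V) (hCD : Disjoint C D) (hUV : Disjoint U V) {a b : ℝ} (hab : a < b)
    (h0 : ∀ θ ∈ Icc a b, ((0 : ℝ), θ) ∈ C) (h1 : ∀ θ ∈ Icc a b, ((1 : ℝ), θ) ∈ D)
    (h2 : ∀ s, (s, a) ∈ U) (h3 : ∀ s, (s, b) ∈ V)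
    (hcov : Icc (0 : ℝ) 1 ×ˢ Icc a b ⊆ C ∪ D ∪ U ∪ V) : False := by
  obtain ⟨δ, hδ, hL⟩ := lebesgue_number_lemma_of_metric_sUnion
    (c := {C, D, U, V}) ((isCompact_Icc (a := (0 : ℝ)) (b := 1)).prod (isCompact_Icc (a := a) (b := b)))
    (by simp [hC, hD, hU, hV]) (by simpa [union_assoc] using hcov)
  obtain ⟨N, hN⟩ := exists_nat_gt (max 1 (max 1 (b - a) / δ))
  have hN1 : (1 : ℝ) < N := lt_of_le_of_lt (le_max_left _ _) hN
  have hN0 : (0 : ℝ) < N := by linarith
  have hN2 : max 1 (b - a) < N * δ := (div_lt_iff₀ hδ).1 (lt_of_le_of_lt (le_max_right _ _) hN)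
  set p : (Fin 2 → ℤ) → ℝ × ℝ := fun v => ((v 0 : ℝ) / N, a + (b - a) * ((v 1 : ℝ) / N)) with hp
  have frac : ∀ m : ℤ, 0 ≤ m → m ≤ N → (m : ℝ) / N ∈ Icc (0 : ℝ) 1 := fun m m0 m1 =>
    ⟨div_nonneg (by exact_mod_cast m0) hN0.le, (div_le_one hN0).2 (by exact_mod_cast m1)⟩
  have snd : ∀ m : ℤ, 0 ≤ m → m ≤ N → a + (b - a) * ((m : ℝ) / N) ∈ Icc a b := fun m m0 m1 => by
    obtain ⟨f0, f1⟩ := frac m m0 m1
    constructor <;> nlinarith
  obtain ⟨w, hw, hcl, hred⟩ := Pool.Agent.Lib.Kuhn.kuhn (n := 2) (by norm_num) (M := (N : ℤ))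
    (by exact_mod_cast hN1.le) (fun v => ![p v ∈ D, p v ∈ V])
    (by
      intro v hv i hi
      fin_cases i
      · have : v 0 = 0 := hi
        have e : p v ∈ C := by
          simp only [hp, this, Int.cast_zero, zero_div]
          exact h0 _ (snd _ (hv 1).1 (hv 1).2)
        exact disjoint_left.1 hCD e
      · have : v 1 = 0 := hi
        have e : p v ∈ U := by
          simp only [hp, this, Int.cast_zero, zero_div, mul_zero, add_zero]
          exact h2 _
        exact disjoint_left.1 hUV e)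
    (by
      intro v hv i hi
      fin_cases i
      · have : v 0 = N := hi
        show p v ∈ D
        simp only [hp, this, Int.cast_natCast, div_self hN0.ne']
        exact h1 _ (snd _ (hv 1).1 (hv 1).2)
      · have : v 1 = N := hi
        show p v ∈ V
        simp only [hp, this, Int.cast_natCast, div_self hN0.ne', mul_one, add_sub_cancel]
        exact h3 _)
  have a0 : p (w 0) ∉ D :=
    Pool.Agent.Lib.Kuhn.red_eq (P := ![p (w 0) ∈ D, p (w 0) ∈ V]) (i := 0) (by rw [hred]; rfl)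
  have a1 : p (w 1) ∈ D :=
    Pool.Agent.Lib.Kuhn.red_lt (P := ![p (w 1) ∈ D, p (w 1) ∈ V]) (i := 0) (by rw [hred]; decide)
  have a2 : p (w 1) ∉ V :=
    Pool.Agent.Lib.Kuhn.red_eq (P := ![p (w 1) ∈ D, p (w 1) ∈ V]) (i := 1) (by rw [hred]; rfl)
  have a3 : p (w 2) ∈ V :=
    Pool.Agent.Lib.Kuhn.red_lt (P := ![p (w 2) ∈ D, p (w 2) ∈ V]) (i := 1) (by rw [hred]; decide)
  have close : ∀ j, p (w j) ∈ Metric.ball (p (w 1)) δ := by
    intro j
    have ab : ∀ k, |((w j k : ℝ) - w 1 k)| ≤ 1 := fun k => by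
      have b1 : (w j k : ℝ) ≤ w 1 k + 1 := by exact_mod_cast hcl j 1 k
      have b2 : (w 1 k : ℝ) ≤ w j k + 1 := by exact_mod_cast hcl 1 j k
      rw [abs_le]; constructor <;> linarith
    rw [Metric.mem_ball, Prod.dist_eq, max_lt_iff, Real.dist_eq, Real.dist_eq]
    constructor
    · simp only [hp]
      rw [← sub_div, abs_div, abs_of_pos hN0, div_lt_iff₀ hN0]
      have := le_max_left 1 (b - a)
      nlinarith [ab 0]
    · simp only [hp]
      rw [add_sub_add_left_eq_sub, ← mul_sub, ← sub_div, abs_mul, abs_div, abs_of_pos hN0,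
        abs_of_pos (sub_pos.2 hab), ← mul_div_assoc, div_lt_iff₀ hN0]
      have := le_max_right 1 (b - a)
      nlinarith [ab 1, sub_pos.2 hab]
  obtain ⟨t, ht, hb⟩ := hL (p (w 1))
    ⟨frac _ (hw 1 0).1 (hw 1 0).2, snd _ (hw 1 1).1 (hw 1 1).2⟩
  simp only [mem_insert_iff, mem_singleton_iff] at ht
  rcases ht with rfl | rfl | rfl | rfl
  · exact disjoint_left.1 hCD (hb (close 1)) a1
  · exact a0 (hb (close 0))
  · exact disjoint_left.1 hUV (hb (close 2)) a3
  · exact a2 (hb (close 1))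

/-- Pushing a path out of a convex body. -/
lemma push {K B : Set ℂ} (hK : IsCompact K) (hc : Convex ℝ K) {c : ℂ} (hi : c ∈ interior K)
    (hB : IsCompact B) (hne : B.Nonempty) (hd : Disjoint K B) {f : ℝ → ℂ} (hf : Continuous f)
    (hfc : ∀ s, f s ≠ c) :
    ∃ g : ℝ → ℂ, Continuous g ∧ ∀ s, g s ∉ K ∧ (f s ∈ B → g s = f s) ∧ (g s ∈ B → g s = f s) := by
  set S : Set ℂ := (fun x => x - c) '' K with hS
  have mem : ∀ x, x - c ∈ S ↔ x ∈ K := fun x =>
    (sub_left_injective (b := c)).mem_set_image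
  have cS : IsCompact S := hK.image (by fun_prop)
  have vS : Convex ℝ S := by
    have := hc.translate (-c)
    simpa [hS, sub_eq_neg_add] using this
  have nS : S ∈ nhds (0 : ℂ) := by
    have h1 : ContinuousAt (fun x : ℂ => x + c) 0 := by fun_prop
    have h2 : K ∈ nhds ((fun x : ℂ => x + c) 0) := by simpa using mem_interior_iff_mem_nhds.1 hi
    filter_upwards [h1 h2] with x hx
    simpa using (mem (x + c)).2 hx
  have gc : Continuous fun x => gauge S (x - c) := (continuous_gauge vS nS).comp (by fun_prop)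
  have g1 : ∀ x, gauge S (x - c) ≤ 1 ↔ x ∈ K := fun x => by
    rw [gauge_le_one_iff_mem_closure vS nS, cS.isClosed.closure_eq, mem]
  have g0 : ∀ s, 0 < gauge S (f s - c) := fun s =>
    (gauge_pos (absorbent_nhds_zero nS) (cS.isVonNBounded ℝ)).2 (sub_ne_zero.2 (hfc s))
  obtain ⟨y, hy, hmin⟩ := hB.exists_isMinOn hne gc.continuousOn
  have hy1 : 1 < gauge S (y - c) := not_le.1 fun h => disjoint_left.1 hd ((g1 y).1 h) hy
  obtain ⟨l, l1, l2⟩ := exists_between hy1
  have lB : ∀ x ∈ B, l < gauge S (x - c) := fun x hx => l2.trans_le (hmin hx)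
  refine ⟨fun s => c + max 1 (l / gauge S (f s - c)) • (f s - c), ?_, fun s => ?_⟩
  · exact continuous_const.add ((continuous_const.max
      (continuous_const.div (gc.comp hf) fun s => (g0 s).ne')).smul (hf.sub continuous_const))
  · rcases le_total l (gauge S (f s - c)) with h | h
    · have e : c + max 1 (l / gauge S (f s - c)) • (f s - c) = f s := by
        rw [max_eq_left ((div_le_one (g0 s)).2 h)]; simp
      simp only [e, implies_true, and_true]
      exact fun h' => by linarith [(g1 _).2 h']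
    · have e : gauge S (c + max 1 (l / gauge S (f s - c)) • (f s - c) - c) = l := by
        rw [max_eq_right ((one_le_div (g0 s)).2 h), add_sub_cancel_left,
          gauge_smul_of_nonneg (div_nonneg (by linarith) (g0 s).le), smul_eq_mul,
          div_mul_cancel₀ _ (g0 s).ne']
      refine ⟨fun h' => ?_, fun h' => ?_, fun h' => ?_⟩
      · linarith [(g1 _).2 h']
      · linarith [lB _ h']
      · linarith [lB _ h']

end Topo

open Topo

theorem bump {X : Type*} [MetricSpace X] {H O : Set X} (hH : IsCompact H) (hc : IsPreconnected H)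
    (hO : IsOpen O) {w : X} (hw : w ∈ H ∩ O) (hne : ¬ H ⊆ O) :
    ∃ x ∈ closure (connectedComponentIn (H ∩ O) w), x ∉ O := by
  by_contra hcon
  have hsub : closure (connectedComponentIn (H ∩ O) w) ⊆ O := fun x hx =>
    not_not.1 fun h => hcon ⟨x, hx, h⟩
  obtain ⟨V, hV, h1, h2⟩ := normal_exists_closure_subset isClosed_closure hO hsub
  have hwV : w ∈ V := h1 (subset_closure (mem_connectedComponentIn hw))
  obtain ⟨P, Q, hP, hQ, hPQ, hd, hPB, hQA⟩ := sep (K := H ∩ closure V) (A := {w}) (B := Vᶜ)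
    (hH.inter_right isClosed_closure) isClosed_singleton hV.isClosed_compl (by
      rintro Γ - hΓ hs ⟨x, hx, rfl⟩ ⟨y, hy, hy'⟩
      have hs' : Γ ⊆ H ∩ O := fun z hz => ⟨(hs hz).1, h2 (hs hz).2⟩
      exact hy' (h1 (subset_closure (hΓ.subset_connectedComponentIn hx hs' hy))))
  have hwP : w ∈ P := by
    have : w ∈ P ∪ Q := by rw [hPQ]; exact ⟨hw.1, subset_closure hwV⟩
    exact this.resolve_right fun h => disjoint_left.1 hQA h rfl
  obtain ⟨y, hy, hyO⟩ := not_subset.1 hne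
  have hyV : y ∉ V := fun h => hyO (h2 (subset_closure h))
  obtain ⟨z, -, hz1, hz2⟩ := isPreconnected_closed_iff.1 hc P (Q ∪ Vᶜ) hP.isClosed
    (hQ.isClosed.union hV.isClosed_compl) (by
      intro x hx
      by_cases hxV : x ∈ V
      · have : x ∈ P ∪ Q := by rw [hPQ]; exact ⟨hx, subset_closure hxV⟩
        exact this.imp id Or.inl
      · exact .inr (.inr hxV)) ⟨w, hw.1, hwP⟩ ⟨y, hy, .inr hyV⟩
  rcases hz2 with h | h
  · exact disjoint_left.1 hd hz1 h
  · exact disjoint_left.1 hPB hz1 h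

theorem hex (C D : Set (ℝ × ℝ)) (hC : IsOpen C) (hD : IsOpen D) (hCD : Disjoint C D) {a b : ℝ}
    (hab : a < b) (h0 : ∀ θ ∈ Icc a b, ((0 : ℝ), θ) ∈ C) (h1 : ∀ θ ∈ Icc a b, ((1 : ℝ), θ) ∈ D) :
    ∃ Γ : Set (ℝ × ℝ), IsCompact Γ ∧ IsPreconnected Γ ∧ Γ ⊆ Icc (0 : ℝ) 1 ×ˢ Icc a b ∧
      Disjoint Γ (C ∪ D) ∧ (∃ s, (s, a) ∈ Γ) ∧ ∃ s, (s, b) ∈ Γ := by
  by_contra hcon
  have cA : IsClosed {x : ℝ × ℝ | x.2 = a} := isClosed_eq continuous_snd continuous_const
  have cB : IsClosed {x : ℝ × ℝ | x.2 = b} := isClosed_eq continuous_snd continuous_const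
  obtain ⟨P, Q, hP, hQ, hPQ, hd, hPB, hQA⟩ := sep (K := Icc (0 : ℝ) 1 ×ˢ Icc a b \ (C ∪ D))
    ((isCompact_Icc.prod isCompact_Icc).diff (hC.union hD)) cA cB (by
      rintro Γ k1 k2 hs ⟨x, hx, hx'⟩ ⟨y, hy, hy'⟩
      refine hcon ⟨Γ, k1, k2, fun z hz => (hs hz).1, disjoint_left.2 fun z hz => (hs hz).2,
        ⟨x.1, ?_⟩, ⟨y.1, ?_⟩⟩
      · rw [← show x.2 = a from hx']; exact hx
      · rw [← show y.2 = b from hy']; exact hy)
  obtain ⟨U, V, hU, hV, sU, sV, hUV⟩ := normal_separation (hP.isClosed.union cA)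
    (hQ.isClosed.union cB) (by
      rw [disjoint_union_left, disjoint_union_right, disjoint_union_right]
      refine ⟨⟨hd, hPB⟩, hQA.symm, disjoint_left.2 fun x (e : x.2 = a) (e' : x.2 = b) => ?_⟩
      exact hab.ne (e.symm.trans e'))
  refine hex_open C D U V hC hD hU hV hCD hUV hab h0 h1 (fun s => sU (.inr rfl))
    (fun s => sV (.inr rfl)) fun x hx => ?_
  by_cases h : x ∈ C ∪ D
  · exact .inl (.inl h)
  · have : x ∈ P ∪ Q := by rw [hPQ]; exact ⟨hx, h⟩
    rcases this with h | h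
    · exact .inl (.inr (sU (.inl h)))
    · exact .inr (sV (.inl h))

theorem joined_compl {n : ℕ} (K : Fin n → Set ℂ) (hK : ∀ i, IsCompact (K i))
    (hc : ∀ i, Convex ℝ (K i)) (hi : ∀ i, (interior (K i)).Nonempty)
    (hd : ∀ i j, i ≠ j → Disjoint (K i) (K j)) {z w : ℂ} (hz : ∀ i, z ∉ K i) (hw : ∀ i, w ∉ K i) :
    ∃ f : ℝ → ℂ, Continuous f ∧ f 0 = z ∧ f 1 = w ∧ ∀ s i, f s ∉ K i := by
  classical
  choose c hci using hi
  have cK : ∀ i, c i ∈ K i := fun i => interior_subset (hci i)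
  have key : ∀ S : Finset (Fin n), ∃ f : ℝ → ℂ, Continuous f ∧ f 0 = z ∧ f 1 = w ∧
      ∀ s, (∀ i, f s ≠ c i) ∧ ∀ i ∈ S, f s ∉ K i := by
    intro S
    induction S using Finset.induction_on with
    | empty =>
      have pc := (countable_range c).isPathConnected_compl_of_one_lt_rank
        (by simp : 1 < Module.rank ℝ ℂ)
      obtain ⟨γ, hγ⟩ := pc.joinedIn z (by rintro ⟨i, rfl⟩; exact hz i (cK i)) w
        (by rintro ⟨i, rfl⟩; exact hw i (cK i))
      refine ⟨γ.extend, γ.continuous_extend, γ.extend_zero, γ.extend_one, fun s => ⟨?_, by simp⟩⟩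
      intro i e
      obtain ⟨t, ht⟩ : γ.extend s ∈ range γ := γ.extend_range ▸ mem_range_self s
      exact hγ t ⟨i, by rw [ht, e]⟩
    | insert i S _ ih =>
      obtain ⟨f, hf, f0, f1, hs⟩ := ih
      obtain ⟨g, hg, hgs⟩ := push (B := {z, w} ∪ ⋃ j ∈ {j | j ≠ i}, K j) (hK i) (hc i) (hci i)
        ((toFinite _).isCompact.union ((toFinite _).isCompact_biUnion fun j _ => hK j))
        ⟨z, by simp⟩ (by
          rw [disjoint_union_right, disjoint_iUnion₂_right]
          refine ⟨disjoint_left.2 ?_, fun j hj => hd _ _ (Ne.symm hj)⟩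
          rintro x hx (rfl | rfl)
          · exact hz i hx
          · exact hw i hx) hf fun s => (hs s).1 i
      have k2 : ∀ s j, g s ∈ K j → g s = f s ∧ j ≠ i := fun s j h => by
        have hj : j ≠ i := by rintro rfl; exact (hgs s).1 h
        exact ⟨(hgs s).2.2 (.inr (mem_biUnion hj h)), hj⟩
      refine ⟨g, hg, ?_, ?_, fun s => ⟨fun j e => ?_, fun j hj h => ?_⟩⟩
      · rw [(hgs 0).2.1 (by simp [f0]), f0]
      · rw [(hgs 1).2.1 (by simp [f1]), f1]
      · exact (hs s).1 j (((k2 s j (e ▸ cK j)).1).symm.trans e)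
      · obtain ⟨e, hji⟩ := k2 s j h
        exact (hs s).2 j ((Finset.mem_insert.1 hj).resolve_left hji) (e ▸ h)
  obtain ⟨f, hf, f0, f1, hs⟩ := key Finset.univ
  exact ⟨f, hf, f0, f1, fun s i => (hs s).2 i (Finset.mem_univ i)⟩

end Pool.Agent.P.MP_379466_co
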