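import Pool.Agent.P.MP_379466_co.Lines
import Pool.Agent.P.MP_379466_co.Topo
import Pool.Agent.P.MP_379466_co.FlatInv

/-!
A continuum of trapped rays that only meet flat boundary points has constant direction.
-/

set_option autoImplicit false

namespace Pool.Agent.P.MP_379466_co

open Set

namespace FlatAux

variable {n : ℕ} {T : Table (Fin n)} {𝓜 : Set Ray}

theorem cr_eq_zero (h : Trap T 𝓜) {H : Set Ray} (hH : Fam T 𝓜 H) {v w : Ray} (hv : v ∈ H)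
    (hw : w ∈ H) : cr (dir v.1.1) (dir w.1.1) = 0 := by
  by_contra hne
  obtain ⟨s, hs, hA⟩ : ∃ s : ℝ, (s = 1 ∨ s = -1) ∧ 0 < s * cr (dir v.1.1) (dir w.1.1) := by
    rcases lt_or_gt_of_ne hne with h1 | h1
    · exact ⟨-1, Or.inr rfl, by linarith⟩
    · exact ⟨1, Or.inl rfl, by linarith⟩
  set A := s * cr (dir v.1.1) (dir w.1.1) with hAd
  set C := s * sd v.1 (pt w.1 w.2) with hCd
  have hr := half_pos T.r_pos
  have fwd : ∀ (H : Set Ray) (v w : Ray) (s : ℝ) (j : Fin n), Fam T 𝓜 H → w ∈ H → Hit T j w →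
      s * cr (dir v.1.1) (dir w.1.1) = A →
      s * sd v.1 (pt w.1 w.2) ≤ s * sd v.1 (enP (T.K j) w.1) := by
    intro H v w s j hH hw hj e
    have h1 := (hj.1.spec T (h.out w (hH.sub hw) j)).1
    have e2 : enP (T.K j) w.1 = pt w.1 w.2 + (en T j w.1 - w.2) • dir w.1.1 := by
      rw [← pt_add, ← pt_en]; congr 1; ring
    rw [e2, sd_add_smul, mul_add, mul_left_comm, e]
    nlinarith
  have key : ∀ k : ℕ, ∃ (H : Set Ray) (v w : Ray) (s : ℝ), Fam T 𝓜 H ∧ v ∈ H ∧ w ∈ H ∧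
      (s = 1 ∨ s = -1) ∧ s * cr (dir v.1.1) (dir w.1.1) = A ∧
      C + k * (T.r / 2 * A) ≤ s * sd v.1 (pt w.1 w.2) := by
    intro k
    induction k with
    | zero => exact ⟨H, v, w, s, hH, hv, hw, hs, rfl, by simp [hCd]⟩
    | succ k ih =>
      obtain ⟨H, v, w, s, hH, hv, hw, hs, e, hk⟩ := ih
      obtain ⟨j, hj⟩ := no_split h hH ⟨v, hv⟩
      have hM : ∀ v ∈ H, ∀ v' ∈ H, M T j v.1 = M T j v'.1 := fun v hv v' hv' =>
        M_const T h hH.sub hH.conn hj hv hv'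
      have mv := (hj v hv).1.meets T
      have mw := (hj w hw).1.meets T
      have e1 : -s * cr (dir (refl (T.b j) v.1).1) (dir (refl (T.b j) w.1).1) = A := by
        rw [(refl_spec T mv).1, (refl_spec T mw).1, hM w hw v hv, cr_rv (norm_M T mv), ← e]; ring
      refine ⟨Φ T j '' H, Φ T j v, Φ T j w, -s, fam_Φ T h hH (fun v hv => (hj v hv).1) hM,
        mem_image_of_mem _ hv, mem_image_of_mem _ hw, ?_, e1, ?_⟩
      · rcases hs with rfl | rfl <;> simp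
      · change _ ≤ -s * sd (refl (T.b j) v.1) (pt (refl (T.b j) w.1) (ex T j (refl (T.b j) w.1)))
        have h1 := add_le_ex T (enP_mem (T.b j).cpt mw) (refl_spec T mw).2
        have e2 : pt (refl (T.b j) w.1) (ex T j (refl (T.b j) w.1)) = enP (T.K j) w.1 +
            (ex T j (refl (T.b j) w.1) - tm (refl (T.b j) w.1) (enP (T.K j) w.1)) •
              dir (refl (T.b j) w.1).1 := by
          conv_rhs => rw [← pt_tm (refl_spec T mw).2]
          rw [← pt_add, tm_pt]; congr 1; ring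
        have h2 := sd_refl_rp T mv mv rfl (enP (T.K j) w.1)
        rw [rp_fix T mw mv (hM v hv w hw)] at h2
        have h3 := fwd H v w s j hH hw (hj w hw) e
        rw [e2, sd_add_smul, mul_add, mul_left_comm (-s), e1, h2]
        push_cast
        nlinarith [mul_le_mul_of_nonneg_right (le_sub_iff_add_le'.2 h1) hA.le]
  have hp : 0 < T.r / 2 * A := mul_pos hr hA
  obtain ⟨k, hk⟩ := exists_nat_gt ((2 * T.D - C) / (T.r / 2 * A))
  rw [div_lt_iff₀ hp] at hk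
  obtain ⟨H, v, w, s, hH, hv, hw, hs, e, h1⟩ := key k
  obtain ⟨i, hi⟩ := exists_hit T h (hH.sub hv)
  obtain ⟨j, hj⟩ := exists_hit T h (hH.sub hw)
  have h2 := fwd H v w s j hH hw hj e
  have h3 := T.bdd i _ (K_subset_B T i (enP_mem (T.b i).cpt (hi.1.meets T)))
  have h4 := T.bdd j _ (K_subset_B T j (enP_mem (T.b j).cpt (hj.1.meets T)))
  have h5 := sd_sub v.1 (enP (T.K i) v.1) (enP (T.K j) w.1)
  rw [sd_enP, sub_zero] at h5
  have h6 := abs_cr_le (dir v.1.1) (enP (T.K j) w.1 - enP (T.K i) v.1)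
  rw [norm_dir, one_mul, ← h5] at h6
  have h7 := abs_le.1 (h6.trans (norm_sub_le _ _))
  rcases hs with rfl | rfl <;> linarith [h7.1, h7.2]

theorem continuousOn_ang : ContinuousOn ang {u : ℂ | ‖u‖ = 1} := by
  rw [isEmbedding_dir.isInducing.continuousOn_iff]
  exact continuousOn_id.congr fun u hu => dir_ang hu

/-- Line coordinates of a ray. -/
noncomputable def toRay (w : ℂ × ℂ) : Ray := (mkL w.1 (ang w.2), tm (mkL w.1 (ang w.2)) w.1)

theorem pt_toRay (w : ℂ × ℂ) : pt (toRay w).1 (toRay w).2 = w.1 :=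
  pt_tm (by change sd (mkL w.1 (ang w.2)) w.1 = 0; rw [sd_mkL, sub_self]; simp [cr])

end FlatAux

open FlatAux in
theorem flat {n : ℕ} (T : Table (Fin n)) (𝒩 : Set (ℂ × ℂ))
    (h0 : ∀ w ∈ 𝒩, ‖w.2‖ = 1 ∧ ∀ i, w.1 ∉ T.K i)
    (h1 : ∀ z u, (z, u) ∈ 𝒩 → ∀ t : ℝ, 0 ≤ t → (∀ i, z + t • u ∉ T.K i) →
      (∀ s ∈ Icc 0 t, ∀ i, z + s • u ∉ interior (T.K i)) → (z + t • u, u) ∈ 𝒩)
    (h2 : ∀ z u, (z, u) ∈ 𝒩 → ∃ i, ∃ t : ℝ, 0 < t ∧ z + t • u ∈ interior (T.K i))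
    (h3 : ∀ z u, (z, u) ∈ 𝒩 → ∀ t : ℝ, 0 < t → ∀ j, ∀ P N : ℂ, P = z + t • u → N = (T.b j).N P →
      P ∈ frontier (T.K j) → (∀ s ∈ Icc 0 t, ∀ i, z + s • u ∉ interior (T.K i)) → ip u N < 0 →
      P ∉ Reg (T.K j) (T.b j).N ∧ ∀ κ : ℝ, 0 < κ → P + κ • (u - (2 * ip u N) • N) ∈ T.B j →
        (P + κ • (u - (2 * ip u N) • N), u - (2 * ip u N) • N) ∈ 𝒩) :
    ∃ α : ℝ, 0 < α ∧ ∀ H ⊆ 𝒩, IsCompact H → IsPreconnected H →
      (∀ w ∈ H, ∀ w' ∈ H, ‖w.2 - w'.2‖ ≤ α) → ∀ w ∈ H, ∀ w' ∈ H, w.2 = w'.2 := by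
  have hD : 0 < T.D := lt_of_lt_of_le one_pos T.D_ge
  refine ⟨T.r / (2 * T.D), div_pos T.r_pos (by linarith), fun H hH hc hp hα w hw w' hw' => ?_⟩
  let 𝓜 : Set Ray := {v | (pt v.1 v.2, dir v.1.1) ∈ 𝒩}
  have hcl : ∀ (v : Ray) (t : ℝ), Clear T v t →
      ∀ s ∈ Icc 0 (t - v.2), ∀ i, pt v.1 v.2 + s • dir v.1.1 ∉ interior (T.K i) := by
    intro v t h s hs i
    rw [← pt_add]
    exact h _ ⟨by linarith [hs.1], by linarith [hs.2]⟩ i
  have hpt : ∀ (v : Ray) (t : ℝ), pt v.1 v.2 + (t - v.2) • dir v.1.1 = pt v.1 t := by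
    intro v t
    rw [← pt_add]; congr 1; ring
  have hT : Trap T 𝓜 := by
    refine ⟨fun v hv => (h0 _ hv).2, fun v hv t ht ho hc => ?_, fun v hv => ?_,
      fun v hv j hj hlt hc => ?_⟩
    · have := h1 _ _ hv (t - v.2) (sub_nonneg.2 ht) (by rw [hpt]; exact ho) (hcl v t hc)
      rwa [hpt] at this
    · obtain ⟨i, t, ht, hi⟩ := h2 _ _ hv
      exact ⟨i, v.2 + t, by linarith, by rwa [pt_add]⟩
    · have hm := hj.meets (T.b j).cvx
      obtain ⟨h4, h5⟩ := h3 _ _ hv (en T j v.1 - v.2) (sub_pos.2 hlt) j (enP (T.K j) v.1) _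
        (by rw [hpt, pt_en]) rfl (enP_frontier (T.b j).cpt hm) (hcl v _ hc)
        ((T.b j).ip_enP_neg hj)
      refine ⟨h4, fun t ht hB => ?_⟩
      have e : pt (refl (T.b j) v.1) t = enP (T.K j) v.1 +
          (t - tm (refl (T.b j) v.1) (enP (T.K j) v.1)) • dir (refl (T.b j) v.1).1 := by
        conv_rhs => rw [← pt_tm (sd_refl_enP hj)]
        rw [← pt_add, tm_pt]; congr 1; ring
      change (pt (refl (T.b j) v.1) t, dir (refl (T.b j) v.1).1) ∈ 𝒩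
      rw [e, dir_refl hj] at hB ⊢
      exact h5 _ (sub_pos.2 ht) hB
  have hd : ∀ v ∈ H, dir (toRay v).1.1 = v.2 := fun v hv => dir_ang (h0 v (hH hv)).1
  have hcont : ContinuousOn toRay H := by
    have c1 : ContinuousOn (fun v : ℂ × ℂ => ang v.2) H :=
      continuousOn_ang.comp continuous_snd.continuousOn fun v hv => (h0 v (hH hv)).1
    have c2 : Continuous fun p : ℂ × Ang => ((mkL p.1 p.2, tm (mkL p.1 p.2) p.1) : Ray) := by
      fun_prop
    exact c2.comp_continuousOn (continuous_fst.continuousOn.prodMk c1)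
  have hF : Fam T 𝓜 (toRay '' H) := by
    refine ⟨?_, hc.image_of_continuousOn hcont, hp.image _ hcont, ?_⟩
    · rintro _ ⟨v, hv, rfl⟩
      change (pt (toRay v).1 (toRay v).2, dir (toRay v).1.1) ∈ 𝒩
      rw [pt_toRay, hd v hv]
      exact hH hv
    · rintro _ ⟨v, hv, rfl⟩ _ ⟨v', hv', rfl⟩
      rw [hd v hv, hd v' hv']
      exact hα v hv v' hv'
  have h4 := cr_eq_zero hT hF (mem_image_of_mem _ hw) (mem_image_of_mem _ hw')
  rw [hd w hw, hd w' hw'] at h4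
  have u1 := (h0 w (hH hw)).1
  have u2 := (h0 w' (hH hw')).1
  have h5 := ip_pos_of_close T u1 u2 (hα w hw w' hw')
  have h6 := ip_sq_add_cr_sq w.2 w'.2
  rw [h4, u1, u2] at h6
  have h7 : ip w.2 w'.2 = 1 := by nlinarith
  have h8 := decomp u1 w'.2
  rw [h4, h7, one_smul, zero_smul, add_zero] at h8
  exact h8.symm

end Pool.Agent.P.MP_379466_co
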