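import Pool.Agent.P.MP_379466_co.Lines

/-!
The in-front-of relation among the thickened obstacles in a fixed direction is acyclic.
-/

set_option autoImplicit false

namespace Pool.Agent.P.MP_379466_co.FlatAux

open Set Metric Complex

theorem ip_add_right (a b c : ℂ) : ip a (b + c) = ip a b + ip a c := by simp [ip]; ring
theorem ip_sub_right (a b c : ℂ) : ip a (b - c) = ip a b - ip a c := by simp [ip]; ring
theorem ip_smul_right (a b : ℂ) (t : ℝ) : ip a (t • b) = t * ip a b := by simp [ip]; ring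
theorem ip_smul_left (a b : ℂ) (t : ℝ) : ip (t • a) b = t * ip a b := by simp [ip]; ring
theorem ip_neg_left (a b : ℂ) : ip (-a) b = -ip a b := by simp [ip]; ring
theorem ip_comm (a b : ℂ) : ip a b = ip b a := by simp [ip]; ring
theorem cr_add_right (a b c : ℂ) : cr a (b + c) = cr a b + cr a c := by simp [cr]; ring
theorem cr_sub_right (a b c : ℂ) : cr a (b - c) = cr a b - cr a c := by simp [cr]; ring
theorem cr_smul_right (a b : ℂ) (t : ℝ) : cr a (t • b) = t * cr a b := by simp [cr]; ring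
theorem cr_self (a : ℂ) : cr a a = 0 := by simp [cr]; ring
theorem cr_swap (a b : ℂ) : cr a b = -cr b a := by simp [cr]; ring
theorem ip_I_mul (a b : ℂ) : ip (I * a) b = cr a b := by simp [ip, cr]; ring

variable {n : ℕ} (T : Table (Fin n))

theorem K_subset_B (i : Fin n) : T.K i ⊆ T.B i := self_subset_cthickening _

theorem compact_B (i : Fin n) : IsCompact (T.B i) := (T.b i).cpt.cthickening

theorem convex_B (i : Fin n) : Convex ℝ (T.B i) := (T.b i).cvx.cthickening _

theorem K_nonempty (i : Fin n) : (T.K i).Nonempty := (T.b i).int_ne.mono interior_subset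

theorem B_disj {i j : Fin n} {z : ℂ} (hi : z ∈ T.B i) (hj : z ∈ T.B j) : i = j := by
  by_contra h
  have := T.sep i j h z hi z hj
  have h2 : ip (T.ν i j) (z - z) = 0 := by simp [ip]
  linarith [T.r_pos]

/-- `l` is in front of `j` in direction `u`. -/
def Prec (u : ℂ) (l j : Fin n) : Prop :=
  l ≠ j ∧ (∃ z ∈ T.B l, ∃ z' ∈ T.B j, cr u z = cr u z') ∧ 0 < ip (T.ν l j) u

theorem sub_eq_smul {u z z' : ℂ} (hu : ‖u‖ = 1) (h : cr u z = cr u z') :
    z' - z = ip u (z' - z) • u := by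
  have := decomp hu (z' - z)
  rw [cr_sub_right, h, sub_self, zero_smul, add_zero] at this
  exact this

theorem pos_of_prec {u z z' : ℂ} (hu : ‖u‖ = 1) {l j : Fin n} (hlj : l ≠ j) (hz : z ∈ T.B l)
    (hz' : z' ∈ T.B j) (h : cr u z = cr u z') :
    0 < ip (T.ν l j) u ↔ 0 < ip u (z' - z) := by
  have h1 := T.sep l j hlj z hz z' hz'
  rw [sub_eq_smul hu h, ip_smul_right] at h1
  have hr := T.r_pos
  constructor
  · intro h2
    by_contra h3
    have : ip u (z' - z) * ip (T.ν l j) u ≤ 0 := mul_nonpos_of_nonpos_of_nonneg (not_lt.1 h3) h2.le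
    linarith
  · intro h2
    by_contra h3
    have : ip u (z' - z) * ip (T.ν l j) u ≤ 0 := mul_nonpos_of_nonneg_of_nonpos h2.le (not_lt.1 h3)
    linarith

theorem exists_minimal {u : ℂ} (hu : ‖u‖ = 1) (S : Finset (Fin n)) (hS : S.Nonempty) :
    ∃ j ∈ S, ∀ l ∈ S, ¬ Prec T u l j := by
  classical
  have hmax : ∀ a : Fin n, ∃ p ∈ T.B a, ∀ z ∈ T.B a, cr u z ≤ cr u p := fun a => by
    obtain ⟨p, hp, h⟩ := (compact_B T a).exists_isMaxOn
      ((K_nonempty T a).mono (K_subset_B T a)) (f := fun z => cr u z) (by fun_prop)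
    exact ⟨p, hp, fun z hz => h hz⟩
  choose p hp hpm using hmax
  have hmid : ∀ a l : Fin n, cr u (p a) ≤ cr u (p l) →
      (∃ z ∈ T.B l, ∃ z' ∈ T.B a, cr u z = cr u z') → ∃ q ∈ T.B l, cr u q = cr u (p a) := by
    rintro a l hal ⟨z, hz, z', hz', hzz⟩
    have h1 : cr u z ≤ cr u (p a) := hzz ▸ hpm a z' hz'
    have hc : IsPreconnected ((fun z => cr u z) '' T.B l) :=
      (convex_B T l).isPreconnected.image _ (by fun_prop)
    have := hc.Icc_subset (mem_image_of_mem _ hz) (mem_image_of_mem _ (hp l)) ⟨h1, hal⟩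
    obtain ⟨q, hq, h⟩ := this
    exact ⟨q, hq, h⟩
  induction' hk : S.card with k ih generalizing S
  · exact absurd (Finset.card_eq_zero.1 hk) hS.ne_empty
  obtain ⟨a, ha, hmin⟩ := S.exists_min_image (fun a => cr u (p a)) hS
  by_cases hS' : (S.erase a).Nonempty
  swap
  · refine ⟨a, ha, fun l hl hlp => hS' ⟨l, Finset.mem_erase.2 ⟨hlp.1, hl⟩⟩⟩
  obtain ⟨j, hj, hjm⟩ := ih (S.erase a) hS' (by rw [Finset.card_erase_of_mem ha, hk]; rfl)
  have hjS := Finset.mem_of_mem_erase hj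
  by_cases haj : Prec T u a j
  swap
  · refine ⟨j, hjS, fun l hl hlp => ?_⟩
    by_cases hla : l = a
    · exact haj (hla ▸ hlp)
    · exact hjm l (Finset.mem_erase.2 ⟨hla, hl⟩) hlp
  refine ⟨a, ha, fun l hl hlp => ?_⟩
  obtain ⟨q, hq, hqe⟩ := hmid a l (hmin l hl) hlp.2.1
  obtain ⟨q', hq', hqe'⟩ := hmid a j (hmin j hjS) (by
    obtain ⟨z, hz, z', hz', h⟩ := haj.2.1
    exact ⟨z', hz', z, hz, h.symm⟩)
  have h1 := (pos_of_prec T hu hlp.1 hq (hp a) hqe).1 hlp.2.2
  have h2 := (pos_of_prec T hu haj.1 (hp a) hq' hqe'.symm).1 haj.2.2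
  have hlj : l ≠ j := by
    rintro rfl
    have h3 := hlp.2.2
    have h4 := haj.2.2
    rw [T.ν_anti l a, ip_neg_left] at h4
    linarith
  refine hjm l (Finset.mem_erase.2 ⟨hlp.1, hl⟩) ⟨hlj, ⟨q, hq, q', hq', hqe.trans hqe'.symm⟩, ?_⟩
  refine (pos_of_prec T hu hlj hq hq' (hqe.trans hqe'.symm)).2 ?_
  rw [ip_sub_right] at h1 h2 ⊢
  linarith

/-- A line of direction close to `u` that meets `K l` before `K j` puts `l` in front of `j`. -/
theorem prec_of_line {u : ℂ} (hu : ‖u‖ = 1) {L : Ln} (hL : ‖dir L.1 - u‖ ≤ T.r / (2 * T.D))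
    {l j : Fin n} (hlj : l ≠ j) {s t : ℝ} (hs : pt L s ∈ T.K l) (ht : pt L t ∈ T.K j)
    (hst : s < t) : Prec T u l j := by
  have hD : 0 < T.D := lt_of_lt_of_le one_pos T.D_ge
  have e : pt L t = pt L s + (t - s) • dir L.1 := by rw [← pt_add]; congr 1; ring
  have hd : t - s ≤ 2 * T.D := by
    have h1 := T.bdd l _ (K_subset_B T l hs)
    have h2 := T.bdd j _ (K_subset_B T j ht)
    have h3 : ‖pt L t - pt L s‖ = t - s := by
      rw [e, add_sub_cancel_left, norm_smul, norm_dir, mul_one, Real.norm_of_nonneg (by linarith)]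
    have := norm_sub_le (pt L t) (pt L s)
    linarith
  have hz : pt L s + (t - s) • u ∈ T.B j := by
    refine mem_cthickening_of_dist_le _ (pt L t) _ _ ht ?_
    rw [dist_eq_norm, e]
    have : pt L s + (t - s) • u - (pt L s + (t - s) • dir L.1) = -((t - s) • (dir L.1 - u)) := by
      rw [smul_sub]; abel
    rw [this, norm_neg, norm_smul, Real.norm_of_nonneg (by linarith)]
    calc (t - s) * ‖dir L.1 - u‖ ≤ (2 * T.D) * (T.r / (2 * T.D)) :=
          mul_le_mul hd hL (norm_nonneg _) (by linarith)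
      _ = T.r := by field_simp
  have hc : cr u (pt L s) = cr u (pt L s + (t - s) • u) := by
    rw [cr_add_right, cr_smul_right, cr_self]; ring
  refine ⟨hlj, ⟨_, K_subset_B T l hs, _, hz, hc⟩, ?_⟩
  refine (pos_of_prec T hu hlj (K_subset_B T l hs) hz hc).2 ?_
  rw [add_sub_cancel_left, ip_smul_right, ip_self, hu]
  linarith

end Pool.Agent.P.MP_379466_co.FlatAux
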