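import Pool.Agent.P.MP_379466_co.FlatOrder
import Pool.Agent.P.MP_379466_co.Topo

/-!
Rays as pairs (line, parameter of the base point); first obstacle met; splitting of a continuum
of rays by an obstacle.
-/

set_option autoImplicit false

namespace Pool.Agent.P.MP_379466_co.FlatAux

open Set Metric Complex Topology

/-- A ray: an oriented line and the parameter of its base point. -/
abbrev Ray : Type := Ln × ℝ

variable {n : ℕ} (T : Table (Fin n))

/-- The ray meets no interior up to parameter `t`. -/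
def Clear (w : Ray) (t : ℝ) : Prop := ∀ s ∈ Icc w.2 t, ∀ i, pt w.1 s ∉ interior (T.K i)

/-- The ray reaches `K j` before it enters any obstacle. -/
def Touch (j : Fin n) (w : Ray) : Prop := ∃ t, w.2 ≤ t ∧ pt w.1 t ∈ T.K j ∧ Clear T w t

/-- `K j` is the first obstacle entered by the ray. -/
def Hit (j : Fin n) (w : Ray) : Prop := Touch T j w ∧ Cross (T.K j) w.1

/-- The normal at the first point of the line in `K j`. -/
noncomputable def M (j : Fin n) (l : Ln) : ℂ := (T.b j).N (enP (T.K j) l)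

/-- Parameter of the first point of the line in `K j`. -/
noncomputable def en (j : Fin n) (l : Ln) : ℝ := tm l (enP (T.K j) l)

/-- The properties of the set of trapped rays, in line coordinates. -/
structure Trap (𝓜 : Set Ray) : Prop where
  out : ∀ w ∈ 𝓜, ∀ i, pt w.1 w.2 ∉ T.K i
  fwd : ∀ w ∈ 𝓜, ∀ t, w.2 ≤ t → (∀ i, pt w.1 t ∉ T.K i) → Clear T w t → (w.1, t) ∈ 𝓜
  ent : ∀ w ∈ 𝓜, ∃ i t, w.2 < t ∧ pt w.1 t ∈ interior (T.K i)
  bounce : ∀ w ∈ 𝓜, ∀ j, Cross (T.K j) w.1 → w.2 < en T j w.1 → Clear T w (en T j w.1) →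
    enP (T.K j) w.1 ∉ Reg (T.K j) (T.b j).N ∧
      ∀ t, tm (refl (T.b j) w.1) (enP (T.K j) w.1) < t → pt (refl (T.b j) w.1) t ∈ T.B j →
        (refl (T.b j) w.1, t) ∈ 𝓜

theorem pt_en (j : Fin n) (l : Ln) : pt l (en T j l) = enP (T.K j) l := pt_tm (sd_enP _ _)

theorem pt_mem_between {S : Set ℂ} (hc : Convex ℝ S) {l : Ln} {a b s : ℝ} (ha : pt l a ∈ S)
    (hb : pt l b ∈ S) (h1 : a ≤ s) (h2 : s ≤ b) : pt l s ∈ S := by
  rcases eq_or_lt_of_le (h1.trans h2) with h | h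
  · have : s = a := le_antisymm (h ▸ h2) h1
    rw [this]; exact ha
  have hba : 0 < b - a := by linarith
  have := hc.add_smul_sub_mem ha hb (t := (s - a) / (b - a))
    ⟨div_nonneg (by linarith) hba.le, (div_le_one hba).2 (by linarith)⟩
  have e1 : pt l b = pt l a + (b - a) • dir l.1 := by rw [← pt_add]; congr 1; ring
  have e2 : pt l s = pt l a + (s - a) • dir l.1 := by rw [← pt_add]; congr 1; ring
  rw [e1, add_sub_cancel_left, smul_smul, div_mul_cancel₀ _ hba.ne'] at this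
  rw [e2]; exact this

theorem abs_le_norm_pt (l : Ln) (t : ℝ) : |t| ≤ ‖pt l t‖ := by
  have h := abs_ip_le (dir l.1) (pt l t)
  rw [norm_dir, one_mul] at h
  have e : ip (dir l.1) (pt l t) = t := tm_pt l t
  rwa [e] at h

theorem Touch.meets {j : Fin n} {w : Ray} (h : Touch T j w) : Meets (T.K j) w.1 := by
  obtain ⟨t, -, ht, -⟩ := h
  exact ⟨_, ht, sd_pt _ _⟩

theorem en_le {j : Fin n} {l : Ln} {t : ℝ} (h : pt l t ∈ T.K j) : en T j l ≤ t := by
  have := tm_enP_le (T.b j).cpt h (sd_pt l t)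
  rwa [tm_pt] at this

/-- A ray cannot stay clear beyond the first point of an obstacle its line crosses. -/
theorem Clear.le_en {j : Fin n} {w : Ray} {t : ℝ} (h : Clear T w t) (hc : Cross (T.K j) w.1)
    (h0 : w.2 ≤ en T j w.1) : t ≤ en T j w.1 := by
  by_contra hlt
  push Not at hlt
  obtain ⟨t₀, ht₀, hi⟩ := hc.enP_add_interior (T.b j).cpt (T.b j).cvx (T.b j).int_ne
  have hm : 0 < min t₀ (t - en T j w.1) := lt_min ht₀ (by linarith)
  have := hi _ hm (min_le_left _ _)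
  rw [← pt_en, ← pt_add] at this
  refine h _ ⟨by linarith, ?_⟩ j this
  have := min_le_right t₀ (t - en T j w.1)
  linarith

theorem lt_en {j : Fin n} {w : Ray} {t : ℝ} (hout : pt w.1 w.2 ∉ T.K j) (h1 : w.2 ≤ t)
    (ht : pt w.1 t ∈ T.K j) : w.2 < en T j w.1 := by
  by_contra hle
  push Not at hle
  have hm : pt w.1 (en T j w.1) ∈ T.K j := by
    rw [pt_en]; exact enP_mem (T.b j).cpt ⟨_, ht, sd_pt _ _⟩
  exact hout (pt_mem_between (T.b j).cvx hm ht hle h1)

theorem Clear.mono {w : Ray} {t t' : ℝ} (h : Clear T w t) (h' : t' ≤ t) : Clear T w t' :=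
  fun s hs => h s ⟨hs.1, hs.2.trans h'⟩

theorem Touch.spec {j : Fin n} {w : Ray} (h : Touch T j w) (hout : pt w.1 w.2 ∉ T.K j) :
    w.2 < en T j w.1 ∧ Clear T w (en T j w.1) := by
  obtain ⟨t, h1, h2, h3⟩ := h
  exact ⟨lt_en T hout h1 h2, h3.mono T (en_le T h2)⟩

theorem exists_hit {𝓜 : Set Ray} (h : Trap T 𝓜) {w : Ray} (hw : w ∈ 𝓜) : ∃ j, Hit T j w := by
  classical
  let S : Finset (Fin n) := Finset.univ.filter fun i => ∃ t, w.2 < t ∧ pt w.1 t ∈ interior (T.K i)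
  have hS : S.Nonempty := by
    obtain ⟨i, t, h1, h2⟩ := h.ent w hw
    exact ⟨i, Finset.mem_filter.2 ⟨Finset.mem_univ _, t, h1, h2⟩⟩
  obtain ⟨j, hj, hmin⟩ := S.exists_min_image (fun i => en T i w.1) hS
  obtain ⟨t, h1, h2⟩ := (Finset.mem_filter.1 hj).2
  have hc : Cross (T.K j) w.1 := cross_of_interior h2 (sd_pt _ _)
  have hm : Meets (T.K j) w.1 := hc.meets (T.b j).cvx
  refine ⟨j, ⟨en T j w.1, (lt_en T (h.out w hw j) h1.le (interior_subset h2)).le, ?_, ?_⟩, hc⟩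
  · rw [pt_en]; exact enP_mem (T.b j).cpt hm
  · intro s hs i hi
    have hs' : w.2 < s := by
      rcases eq_or_lt_of_le hs.1 with e | e
      · exact absurd (e ▸ interior_subset hi) (h.out w hw i)
      · exact e
    have hiS : i ∈ S := Finset.mem_filter.2 ⟨Finset.mem_univ _, s, hs', hi⟩
    have h3 := hmin i hiS
    have h4 := en_le T (interior_subset hi)
    have h5 : s = en T i w.1 := le_antisymm (hs.2.trans h3) h4
    have h6 := enP_frontier (T.b i).cpt (l := w.1) ⟨_, interior_subset hi, sd_pt _ _⟩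
    rw [h5, pt_en] at hi
    exact h6.2 hi

theorem isCompact_touch {H : Set Ray} (hH : IsCompact H) (j : Fin n) :
    IsCompact (H ∩ {w | Touch T j w}) := by
  let Z : Set (Ray × ℝ) := {p | p.1.2 ≤ p.2 ∧ pt p.1.1 p.2 ∈ T.K j ∧
    ∀ c ∈ Icc (0 : ℝ) 1, ∀ i, pt p.1.1 (p.1.2 + c * (p.2 - p.1.2)) ∉ interior (T.K i)}
  have hZ : IsClosed Z := by
    refine IsClosed.inter (isClosed_le (f := fun p : Ray × ℝ => p.1.2) (g := fun p => p.2)
      (by fun_prop) (by fun_prop)) (IsClosed.inter ?_ ?_)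
    · exact (T.b j).cpt.isClosed.preimage (f := fun p : Ray × ℝ => pt p.1.1 p.2) (by fun_prop)
    · have : {p : Ray × ℝ | ∀ c ∈ Icc (0 : ℝ) 1, ∀ i,
          pt p.1.1 (p.1.2 + c * (p.2 - p.1.2)) ∉ interior (T.K i)} =
          ⋂ c ∈ Icc (0 : ℝ) 1, ⋂ i, (fun p : Ray × ℝ => pt p.1.1 (p.1.2 + c * (p.2 - p.1.2))) ⁻¹'
            (interior (T.K i))ᶜ := by
        ext p; simp
      change IsClosed {p : Ray × ℝ | ∀ c ∈ Icc (0 : ℝ) 1, ∀ i,
          pt p.1.1 (p.1.2 + c * (p.2 - p.1.2)) ∉ interior (T.K i)}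
      rw [this]
      refine isClosed_biInter fun c _ => isClosed_iInter fun i => ?_
      exact isOpen_interior.isClosed_compl.preimage (by fun_prop)
  have hc : IsCompact ((H ×ˢ Icc (-T.D) T.D) ∩ Z) := (hH.prod isCompact_Icc).inter_right hZ
  have := hc.image continuous_fst
  convert this using 1
  ext w
  constructor
  · rintro ⟨hw, t, h1, h2, h3⟩
    refine ⟨(w, t), ⟨⟨hw, ?_⟩, h1, h2, ?_⟩, rfl⟩
    · have := (abs_le_norm_pt w.1 t).trans (T.bdd j _ (K_subset_B T j h2))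
      exact abs_le.1 this
    · intro c hc i
      refine h3 _ ⟨?_, ?_⟩ i
      · have := mul_nonneg hc.1 (sub_nonneg.2 h1)
        simp only; linarith
      · have := mul_le_of_le_one_left (sub_nonneg.2 h1) hc.2
        simp only; linarith
  · rintro ⟨⟨w', t⟩, ⟨⟨hw, -⟩, h1, h2, h3⟩, rfl⟩
    refine ⟨hw, t, h1, h2, fun s hs i => ?_⟩
    simp only at h1 h2 h3 hs ⊢
    rcases eq_or_lt_of_le h1 with e | e
    · have := h3 0 ⟨le_rfl, zero_le_one⟩ i
      have e2 : s = w'.2 + 0 * (t - w'.2) := by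
        have := hs.1; have := hs.2; linarith
      rwa [e2]
    · have hp : 0 < t - w'.2 := by linarith
      have := h3 ((s - w'.2) / (t - w'.2))
        ⟨div_nonneg (by linarith [hs.1]) hp.le, (div_le_one hp).2 (by linarith [hs.2])⟩ i
      rwa [div_mul_cancel₀ _ hp.ne', add_sub_cancel] at this

theorem continuousOn_M (j : Fin n) : ContinuousOn (M T j) {l | Meets (T.K j) l} := by
  intro l hl
  rw [ContinuousWithinAt, Metric.tendsto_nhds]
  intro ε hε
  obtain ⟨δ, hδ, h⟩ := (T.b j).N_close (half_pos hε)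
  have hD : 0 < 1 + T.D := by linarith [T.D_ge]
  have hU : {l' | dL l l' < δ / (1 + T.D)} ∈ 𝓝 l :=
    mem_nhds_dL.2 ⟨_, div_pos hδ hD, fun _ h => h⟩
  filter_upwards [mem_nhdsWithin_of_mem_nhds hU, self_mem_nhdsWithin] with l' h1 h2
  have h1' : dL l l' < δ / (1 + T.D) := h1
  have hQ := T.bdd j _ (K_subset_B T j (enP_mem (T.b j).cpt h2))
  have h3 : ‖dir l.1 - dir l'.1‖ ≤ δ := by
    have : ‖dir l.1 - dir l'.1‖ ≤ dL l l' := le_max_left _ _
    have h4 : δ / (1 + T.D) ≤ δ := div_le_self hδ.le (by linarith [T.D_ge])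
    linarith
  have h4 : |cr (dir l.1) (enP (T.K j) l' - enP (T.K j) l)| ≤ δ := by
    rw [← sd_sub, sd_enP, sub_zero]
    have := abs_sd_sub_le l l' (enP (T.K j) l')
    rw [sd_enP, sub_zero] at this
    calc _ ≤ (1 + ‖enP (T.K j) l'‖) * dL l l' := this
      _ ≤ (1 + T.D) * (δ / (1 + T.D)) :=
          mul_le_mul (by linarith) h1'.le (dL_nonneg _ _) hD.le
      _ = δ := by field_simp
  have := h _ (enP_frontier (T.b j).cpt hl) _ (enP_frontier (T.b j).cpt h2) _ _ (norm_dir l.1)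
    (norm_dir l'.1) ((T.b j).ip_enP_nonpos hl) ((T.b j).ip_enP_nonpos h2) h3 h4
  rw [dist_comm, dist_eq_norm]
  exact lt_of_le_of_lt this (half_lt_self hε)

theorem norm_M {j : Fin n} {l : Ln} (h : Meets (T.K j) l) : ‖M T j l‖ = 1 :=
  (T.b j).N_norm _ (enP_frontier (T.b j).cpt h)

/-- Two lines with the same normal at their first points have these points on one supporting
line. -/
theorem ip_M_sub {j : Fin n} {l l' : Ln} (h : Meets (T.K j) l) (h' : Meets (T.K j) l')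
    (e : M T j l = M T j l') : ip (M T j l) (enP (T.K j) l' - enP (T.K j) l) = 0 := by
  have h1 := (T.b j).N_out _ (enP_frontier (T.b j).cpt h) _ (enP_mem (T.b j).cpt h')
  have h2 := (T.b j).N_out _ (enP_frontier (T.b j).cpt h') _ (enP_mem (T.b j).cpt h)
  change ip (M T j l) _ ≤ 0 at h1
  change ip (M T j l') _ ≤ 0 at h2
  rw [← e, ip_sub_right] at h2
  rw [ip_sub_right] at h1 ⊢
  linarith

/-- A tangent line. -/
theorem tangent_spec {j : Fin n} {l : Ln} (h : Meets (T.K j) l) (hc : ¬ Cross (T.K j) l) :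
    ∃ τ : ℝ, (τ = 1 ∨ τ = -1) ∧ M T j l = -(τ • (I * dir l.1)) ∧ l = tanL (T.K j) τ l.1 := by
  obtain ⟨τ, hτ, hs⟩ := side_of_not_cross hc
  exact ⟨τ, hτ, ((T.b j).N_of_side hτ (enP_mem (T.b j).cpt h) (sd_enP _ _) hs).2,
    eq_tanL hτ h hs⟩

theorem sd_enP_of_tangent {j : Fin n} {l l' : Ln} (h : Meets (T.K j) l) (hc : ¬ Cross (T.K j) l)
    (h' : Meets (T.K j) l') (e : M T j l = M T j l') : sd l (enP (T.K j) l') = 0 := by
  obtain ⟨τ, hτ, h1, -⟩ := tangent_spec T h hc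
  have h2 := ip_M_sub T h h' e
  rw [h1, ip_neg_left, ip_smul_left, ip_I_mul, ← sd_sub, sd_enP, sub_zero] at h2
  rcases hτ with rfl | rfl <;> linarith

/-- On a connected family of trapped rays entering `K j` first the normal is constant. -/
theorem M_const {𝓜 : Set Ray} (h : Trap T 𝓜) {j : Fin n} {G : Set Ray} (hG : G ⊆ 𝓜)
    (hc : IsPreconnected G) (hh : ∀ w ∈ G, Hit T j w) {w w' : Ray} (hw : w ∈ G) (hw' : w' ∈ G) :
    M T j w.1 = M T j w'.1 := by
  have h1 : IsPreconnected ((fun w : Ray => M T j w.1) '' G) :=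
    hc.image _ ((continuousOn_M T j).comp continuous_fst.continuousOn
      fun w hw => (hh w hw).1.meets T)
  refine (T.b j).sard _ ?_ h1 (mem_image_of_mem _ hw) (mem_image_of_mem _ hw')
  rintro _ ⟨v, hv, rfl⟩
  obtain ⟨h2, h3⟩ := (hh v hv).1.spec T (h.out v (hG hv) j)
  exact ⟨_, ⟨enP_frontier (T.b j).cpt ((hh v hv).1.meets T),
    (h.bounce v (hG hv) j (hh v hv).2 h2 h3).1⟩, rfl⟩

/-- A family of rays: compact, connected, trapped, with close directions. -/
structure Fam (𝓜 H : Set Ray) : Prop where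
  sub : H ⊆ 𝓜
  cpt : IsCompact H
  conn : IsPreconnected H
  close : ∀ w ∈ H, ∀ w' ∈ H, ‖dir w.1.1 - dir w'.1.1‖ ≤ T.r / (2 * T.D)

/-- Some obstacle is entered first by a nonempty open part of the family. -/
theorem exists_open {𝓜 H : Set Ray} (h : Trap T 𝓜) (hH : Fam T 𝓜 H) (hne : H.Nonempty) :
    ∃ j, (∃ w ∈ H, Hit T j w) ∧ ∃ U, IsOpen U ∧ ∀ w ∈ H, w ∈ U ↔ Hit T j w := by
  classical
  obtain ⟨w₀, hw₀⟩ := hne
  let S : Finset (Fin n) := Finset.univ.filter fun i => ∃ w ∈ H, Hit T i w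
  have hS : S.Nonempty := by
    obtain ⟨i, hi⟩ := exists_hit T h (hH.sub hw₀)
    exact ⟨i, Finset.mem_filter.2 ⟨Finset.mem_univ _, w₀, hw₀, hi⟩⟩
  obtain ⟨j, hj, hmin⟩ := exists_minimal T (norm_dir w₀.1.1) S hS
  refine ⟨j, (Finset.mem_filter.1 hj).2, {w | Cross (T.K j) w.1} ∩
    ⋂ l ∈ S.erase j, (H ∩ {w | Touch T l w})ᶜ, ?_, fun w hw => ⟨?_, ?_⟩⟩
  · refine ((isOpen_cross _).preimage continuous_fst).inter (isOpen_biInter_finset fun l _ => ?_)
    exact (isCompact_touch T hH.cpt l).isClosed.isOpen_compl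
  · rintro ⟨h1, h2⟩
    obtain ⟨l, hl⟩ := exists_hit T h (hH.sub hw)
    by_cases e : l = j
    · exact e ▸ hl
    · exact absurd ⟨hw, hl.1⟩ (mem_iInter₂.1 h2 l (Finset.mem_erase.2
        ⟨e, Finset.mem_filter.2 ⟨Finset.mem_univ _, w, hw, hl⟩⟩))
  · intro hh
    refine ⟨hh.2, mem_iInter₂.2 fun l hl => ?_⟩
    rintro ⟨-, t, h1, h2, h3⟩
    obtain ⟨hlj, hlS⟩ := Finset.mem_erase.1 hl
    obtain ⟨h4, -⟩ := hh.1.spec T (h.out w (hH.sub hw) j)
    have h5 := h3.le_en T hh.2 h4.le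
    have h6 : pt w.1 (en T j w.1) ∈ T.K j := by
      rw [pt_en]; exact enP_mem (T.b j).cpt (hh.1.meets T)
    rcases eq_or_lt_of_le h5 with e | e
    · exact hlj (B_disj T (K_subset_B T l (e ▸ h2)) (K_subset_B T j h6))
    · exact hmin l hlS (prec_of_line T (norm_dir _) (hH.close w hw w₀ hw₀) hlj h2 h6 e)

/-- If the open part is not everything, each of its rays is joined to a tangent ray. -/
theorem split {𝓜 H : Set Ray} (h : Trap T 𝓜) (hH : Fam T 𝓜 H) {j : Fin n} {U : Set Ray}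
    (hU : IsOpen U) (hUj : ∀ w ∈ H, w ∈ U ↔ Hit T j w) (hne : ¬ H ⊆ U) {w : Ray} (hw : w ∈ H)
    (hj : Hit T j w) :
    ∃ G ⊆ H, IsCompact G ∧ IsPreconnected G ∧ w ∈ G ∧ (∀ v ∈ G, Touch T j v) ∧
      ∃ x ∈ G, ¬ Cross (T.K j) x.1 ∧ ∀ v ∈ G, M T j v.1 = M T j x.1 := by
  have hwU : w ∈ H ∩ U := ⟨hw, (hUj w hw).2 hj⟩
  obtain ⟨x, hx, hxU⟩ := bump hH.cpt hH.conn hU hwU hne
  set C := connectedComponentIn (H ∩ U) w with hC
  have hCs : C ⊆ H ∩ U := connectedComponentIn_subset _ _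
  have hCc : IsPreconnected C := isPreconnected_connectedComponentIn
  have hwC : w ∈ C := mem_connectedComponentIn hwU
  have hhit : ∀ v ∈ C, Hit T j v := fun v hv => (hUj v (hCs hv).1).1 (hCs hv).2
  have hT := isCompact_touch T hH.cpt j
  have hcl : closure C ⊆ H ∩ {w | Touch T j w} :=
    closure_minimal (fun v hv => ⟨(hCs hv).1, (hhit v hv).1⟩) hT.isClosed
  have hM : ∀ v ∈ closure C, M T j v.1 = M T j w.1 := by
    have hcont : ContinuousOn (fun v : Ray => M T j v.1) (H ∩ {w | Touch T j w}) :=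
      (continuousOn_M T j).comp continuous_fst.continuousOn fun v hv => Touch.meets T hv.2
    have hcl2 := hcont.preimage_isClosed_of_isClosed hT.isClosed
      (isClosed_singleton (x := M T j w.1))
    have := closure_minimal (s := C) (fun v hv => (⟨hcl (subset_closure hv),
      M_const T h (fun v hv => hH.sub (hCs hv).1) hCc hhit hv hwC⟩ :
      v ∈ (H ∩ {w | Touch T j w}) ∩ (fun v : Ray => M T j v.1) ⁻¹' {M T j w.1})) hcl2
    exact fun v hv => (this hv).2
  refine ⟨closure C, fun v hv => (hcl hv).1, hT.of_isClosed_subset isClosed_closure hcl,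
    hCc.closure, subset_closure hwC, fun v hv => (hcl hv).2, x, hx, fun hc => hxU ?_,
    fun v hv => (hM v hv).trans (hM x hx).symm⟩
  exact (hUj x (hcl hx).1).2 ⟨(hcl hx).2, hc⟩

end Pool.Agent.P.MP_379466_co.FlatAux
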