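import Pool.Agent.P.MP_379466_co.FlatRay

/-!
Reflection of a family of rays in a flat piece of an obstacle, and removal of an open part.
-/

set_option autoImplicit false

namespace Pool.Agent.P.MP_379466_co.FlatAux

open Set Metric Complex Topology

/-- Reflection of a vector. -/
noncomputable def rv (N u : ℂ) : ℂ := u - (2 * ip u N) • N

/-- Reflection of a point. -/
noncomputable def rp (N P z : ℂ) : ℂ := P + rv N (z - P)

theorem cr_rv {N : ℂ} (h : ‖N‖ = 1) (a b : ℂ) : cr (rv N a) (rv N b) = -cr a b := by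
  have := unit_sq h
  simp only [rv, cr, ip, sub_re, sub_im, smul_re, smul_im, smul_eq_mul]
  linear_combination (-2 * (a.re * b.im - a.im * b.re)) * this

theorem ip_rv {N : ℂ} (h : ‖N‖ = 1) (a b : ℂ) : ip (rv N a) (rv N b) = ip a b := by
  have := unit_sq h
  simp only [rv, ip, sub_re, sub_im, smul_re, smul_im, smul_eq_mul]
  linear_combination (4 * (a.re * N.re + a.im * N.im) * (b.re * N.re + b.im * N.im)) * this

theorem rv_sub (N a b : ℂ) : rv N (a - b) = rv N a - rv N b := by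
  apply Complex.ext <;> simp [rv, ip] <;> ring

theorem rv_smul (N a : ℂ) (t : ℝ) : rv N (t • a) = t • rv N a := by
  apply Complex.ext <;> simp [rv, ip] <;> ring

theorem rv_of_orth {N a : ℂ} (h : ip N a = 0) : rv N a = a := by
  rw [rv, ip_comm, h]; simp

theorem norm_rv {N : ℂ} (h : ‖N‖ = 1) (a : ℂ) : ‖rv N a‖ = ‖a‖ := by
  have := ip_rv h a a
  rw [ip_self, ip_self] at this
  exact (pow_left_inj₀ (norm_nonneg _) (norm_nonneg _) two_ne_zero).1 this

theorem rp_sub {N P Q : ℂ} (h : ip N (Q - P) = 0) (z : ℂ) : rp N P z - Q = rv N (z - Q) := by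
  have e : z - Q = (z - P) - (Q - P) := by ring
  rw [e, rv_sub N (z - P), rv_of_orth h, rp]; ring

theorem rp_add_smul (N P z u : ℂ) (t : ℝ) : rp N P (z + t • u) = rp N P z + t • rv N u := by
  apply Complex.ext <;> simp [rp, rv, ip] <;> ring

variable {n : ℕ} (T : Table (Fin n))

/-- The half thickened obstacle. -/
def B' (i : Fin n) : Set ℂ := cthickening (T.r / 2) (T.K i)

/-- Parameter of the last point of the line in `B' i`. -/
noncomputable def ex (i : Fin n) (l : Ln) : ℝ := tm l (exP (B' T i) l)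

/-- The ray on a line that starts where the line leaves `B' i`. -/
noncomputable def lift (i : Fin n) (l : Ln) : Ray := (l, ex T i l)

/-- The reflected ray. -/
noncomputable def Φ (j : Fin n) (w : Ray) : Ray := lift T j (refl (T.b j) w.1)

theorem compact_B' (i : Fin n) : IsCompact (B' T i) := (T.b i).cpt.cthickening

theorem convex_B' (i : Fin n) : Convex ℝ (B' T i) := (T.b i).cvx.cthickening _

theorem B'_subset (i : Fin n) : B' T i ⊆ T.B i :=
  cthickening_mono (by linarith [T.r_pos]) _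

theorem K_subset_B' (i : Fin n) : T.K i ⊆ B' T i := self_subset_cthickening _

theorem K_subset_int (i : Fin n) : T.K i ⊆ interior (B' T i) :=
  (self_subset_thickening (half_pos T.r_pos) _).trans (thickening_subset_interior_cthickening _ _)

theorem cross_B' {i : Fin n} {l : Ln} (h : Meets (T.K i) l) : Cross (B' T i) l := by
  obtain ⟨z, hz, h0⟩ := h
  exact cross_of_interior (K_subset_int T i hz) h0

theorem pt_ex (i : Fin n) (l : Ln) : pt l (ex T i l) = exP (B' T i) l := pt_tm (sd_exP _ _)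

theorem pt_ex_mem {i : Fin n} {l : Ln} (h : Meets (T.K i) l) : pt l (ex T i l) ∈ B' T i := by
  rw [pt_ex]
  exact enP_mem (compact_B' T i) ((meets_rev _ _).2 ((cross_B' T h).meets (convex_B' T i)))

theorem le_ex {i : Fin n} {l : Ln} {z : ℂ} (hz : z ∈ B' T i) (h0 : sd l z = 0) :
    tm l z ≤ ex T i l := by
  have := tm_enP_le (compact_B' T i) (l := rev l) hz (by rw [sd_rev, h0, neg_zero])
  rw [tm_rev, tm_rev] at this
  change -ex T i l ≤ _ at this
  linarith

theorem add_le_ex {i : Fin n} {l : Ln} {z : ℂ} (hz : z ∈ T.K i) (h0 : sd l z = 0) :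
    tm l z + T.r / 2 ≤ ex T i l := by
  have h1 : z + (T.r / 2) • dir l.1 ∈ B' T i := by
    refine mem_cthickening_of_dist_le _ z _ _ hz ?_
    rw [dist_eq_norm, add_sub_cancel_left, norm_smul, norm_dir, mul_one,
      Real.norm_of_nonneg (half_pos T.r_pos).le]
  have := le_ex T h1 (by rw [sd_add_smul, h0, cr_self]; ring)
  rwa [tm_add_smul, ip_self, norm_dir, one_pow, mul_one] at this

theorem continuousOn_lift (i : Fin n) : ContinuousOn (lift T i) {l | Cross (B' T i) l} := by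
  refine continuousOn_id.prodMk ?_
  have h1 := continuousOn_exP (compact_B' T i) (convex_B' T i)
    ((K_nonempty T i).mono (K_subset_int T i))
  have h2 : Continuous fun p : Ln × ℂ => tm p.1 p.2 := by fun_prop
  exact h2.comp_continuousOn (continuousOn_id.prodMk h1)

theorem refl_spec {j : Fin n} {l : Ln} (h : Meets (T.K j) l) :
    dir (refl (T.b j) l).1 = rv (M T j l) (dir l.1) ∧ sd (refl (T.b j) l) (enP (T.K j) l) = 0 := by
  by_cases hc : Cross (T.K j) l
  · exact ⟨dir_refl hc, sd_refl_enP hc⟩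
  · rw [refl_of_not_cross hc]
    obtain ⟨τ, -, h1, -⟩ := tangent_spec T h hc
    refine ⟨(rv_of_orth ?_).symm, sd_enP _ _⟩
    rw [h1, ip_neg_left, ip_smul_left, ip_I_mul, cr_self]; ring

theorem meets_refl {j : Fin n} {l : Ln} (h : Meets (T.K j) l) :
    Meets (T.K j) (refl (T.b j) l) := ⟨_, enP_mem (T.b j).cpt h, (refl_spec T h).2⟩

theorem Φ_mem {𝓜 : Set Ray} (h : Trap T 𝓜) {j : Fin n} {w : Ray} (hw : w ∈ 𝓜)
    (ht : Touch T j w) : Φ T j w ∈ 𝓜 := by
  have hm := ht.meets T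
  have hr := T.r_pos
  by_cases hc : Cross (T.K j) w.1
  · obtain ⟨h1, h2⟩ := ht.spec T (h.out w hw j)
    refine (h.bounce w hw j hc h1 h2).2 _ ?_ (B'_subset T j (pt_ex_mem T (meets_refl T hm)))
    have := add_le_ex T (enP_mem (T.b j).cpt hm) (refl_spec T hm).2
    linarith
  · rw [Φ, refl_of_not_cross hc]
    obtain ⟨t, h1, h2, h3⟩ := ht
    have h4 := add_le_ex T h2 (sd_pt _ _)
    rw [tm_pt] at h4
    refine h.fwd w hw _ (by linarith) (fun i hi => ?_) fun s hs i hi => ?_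
    · have e := B_disj T (K_subset_B T i hi) (B'_subset T j (pt_ex_mem T hm))
      subst e
      have := add_le_ex T hi (sd_pt _ _)
      rw [tm_pt] at this
      linarith
    · rcases le_total s t with h5 | h5
      · exact h3 s ⟨hs.1, h5⟩ i hi
      · have h6 := pt_mem_between (convex_B' T j) (K_subset_B' T j h2) (pt_ex_mem T hm) h5 hs.2
        have e := B_disj T (K_subset_B T i (interior_subset hi)) (B'_subset T j h6)
        subst e
        exact hc (cross_of_interior hi (sd_pt _ _))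

theorem fam_Φ {𝓜 G : Set Ray} (h : Trap T 𝓜) (hG : Fam T 𝓜 G) {j : Fin n}
    (ht : ∀ v ∈ G, Touch T j v) (hN : ∀ v ∈ G, ∀ v' ∈ G, M T j v.1 = M T j v'.1) :
    Fam T 𝓜 (Φ T j '' G) := by
  have hc : ContinuousOn (Φ T j) G :=
    (continuousOn_lift T j).comp ((continuous_refl _).comp continuous_fst).continuousOn
      fun v hv => cross_B' T (meets_refl T ((ht v hv).meets T))
  refine ⟨?_, hG.cpt.image_of_continuousOn hc, hG.conn.image _ hc, ?_⟩
  · rintro _ ⟨v, hv, rfl⟩
    exact Φ_mem T h (hG.sub hv) (ht v hv)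
  · rintro _ ⟨v, hv, rfl⟩ _ ⟨v', hv', rfl⟩
    change ‖dir (refl (T.b j) v.1).1 - dir (refl (T.b j) v'.1).1‖ ≤ _
    rw [(refl_spec T ((ht v hv).meets T)).1, (refl_spec T ((ht v' hv').meets T)).1,
      hN v' hv' v hv, ← rv_sub, norm_rv (norm_M T ((ht v hv).meets T))]
    exact hG.close v hv v' hv'

/-- The reflected line is the mirror image in the common supporting line. -/
theorem sd_refl_rp {j : Fin n} {l l₀ : Ln} (h : Meets (T.K j) l) (h₀ : Meets (T.K j) l₀)
    (e : M T j l₀ = M T j l) (z : ℂ) :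
    sd (refl (T.b j) l) (rp (M T j l₀) (enP (T.K j) l₀) z) = -sd l z := by
  have h1 := sd_sub (refl (T.b j) l) (enP (T.K j) l) (rp (M T j l₀) (enP (T.K j) l₀) z)
  rw [(refl_spec T h).2, sub_zero, (refl_spec T h).1, rp_sub (ip_M_sub T h₀ h e), e,
    cr_rv (norm_M T h), ← sd_sub, sd_enP, sub_zero] at h1
  rw [e]; exact h1

theorem tm_refl_rp {j : Fin n} {l l₀ : Ln} (h : Meets (T.K j) l) (h₀ : Meets (T.K j) l₀)
    (e : M T j l₀ = M T j l) (z : ℂ) :
    tm (refl (T.b j) l) (rp (M T j l₀) (enP (T.K j) l₀) z) - tm (refl (T.b j) l) (enP (T.K j) l) =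
      tm l z - en T j l := by
  rw [tm_sub, (refl_spec T h).1, rp_sub (ip_M_sub T h₀ h e), e, ip_rv (norm_M T h), ← tm_sub]
  rfl

theorem rp_fix {j : Fin n} {l l₀ : Ln} (h : Meets (T.K j) l) (h₀ : Meets (T.K j) l₀)
    (e : M T j l₀ = M T j l) :
    rp (M T j l₀) (enP (T.K j) l₀) (enP (T.K j) l) = enP (T.K j) l := by
  rw [rp, rv_of_orth (ip_M_sub T h₀ h e)]; ring

theorem ip_pos_of_close {u v : ℂ} (hu : ‖u‖ = 1) (hv : ‖v‖ = 1) (h : ‖u - v‖ ≤ T.r / (2 * T.D)) :
    0 < ip u v := by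
  have h1 : T.r / (2 * T.D) ≤ 1 := by
    rw [div_le_one (by linarith [T.D_ge])]; linarith [T.r_le, T.D_ge]
  have h2 : ‖u - v‖ ^ 2 ≤ 1 := by
    have := norm_nonneg (u - v)
    nlinarith
  rw [← ip_self] at h2
  have h3 := unit_sq hu
  have h4 := unit_sq hv
  simp only [ip, sub_re, sub_im] at h2 ⊢
  nlinarith

/-- Removing the open part leaves a connected family. -/
theorem fam_diff {𝓜 H : Set Ray} (h : Trap T 𝓜) (hH : Fam T 𝓜 H) {i : Fin n}
    (hb : ∀ w ∈ H, Meets (T.K i) w.1 ∧ w = lift T i w.1) {j : Fin n} {U : Set Ray}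
    (hU : IsOpen U) (hUj : ∀ w ∈ H, w ∈ U ↔ Hit T j w) (hne : ¬ H ⊆ U) : Fam T 𝓜 (H \ U) := by
  classical
  refine ⟨fun w hw => hH.sub hw.1, hH.cpt.diff hU, ?_, fun w hw w' hw' => hH.close w hw.1 w' hw'.1⟩
  obtain ⟨w₀, hw₀, -⟩ := not_subset.1 hne
  have hr : ∀ w : Ray, ∃ y : Ray, w ∈ H → y ∈ H \ U ∧ (w ∉ U → y = w) ∧
      (Touch T j w → Meets (T.K j) y.1 ∧ ¬ Cross (T.K j) y.1 ∧ M T j w.1 = M T j y.1) := by
    intro w
    by_cases hw : w ∈ H
    swap
    · exact ⟨w, fun h => absurd h hw⟩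
    by_cases hwU : w ∈ U
    · obtain ⟨G, hGH, -, -, hwG, hGt, x, hx, hxc, hM⟩ :=
        split T h hH hU hUj hne hw ((hUj w hw).1 hwU)
      exact ⟨x, fun _ => ⟨⟨hGH hx, fun hxU => hxc ((hUj x (hGH hx)).1 hxU).2⟩,
        fun h => absurd hwU h, fun _ => ⟨(hGt x hx).meets T, hxc, hM w hwG⟩⟩⟩
    · exact ⟨w, fun _ => ⟨⟨hw, hwU⟩, fun _ => rfl, fun ht =>
        ⟨ht.meets T, fun hc => hwU ((hUj w hw).2 ⟨ht, hc⟩), rfl⟩⟩⟩
  choose r hr using hr
  have hT := isCompact_touch T hH.cpt j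
  have hcM : ContinuousOn (fun v : Ray => M T j v.1) (H ∩ {w | Touch T j w}) :=
    (continuousOn_M T j).comp continuous_fst.continuousOn fun v hv => Touch.meets T hv.2
  let C : ℝ → Set Ray := fun τ => (H ∩ {w | Touch T j w}) ∩
    (fun v : Ray => τ * ip (I * M T j v.1) (dir w₀.1.1)) ⁻¹' Ici 0
  have hCc : ∀ τ, IsClosed (C τ) := fun τ => by
    refine ContinuousOn.preimage_isClosed_of_isClosed ?_ hT.isClosed isClosed_Ici
    have : Continuous fun z : ℂ => τ * ip (I * z) (dir w₀.1.1) := by fun_prop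
    exact this.comp_continuousOn hcM
  have hCr : ∀ τ : ℝ, τ = 1 ∨ τ = -1 → ContinuousOn r (C τ) := by
    intro τ hτ
    have key : ∀ w ∈ C τ, τ • (I * M T j w.1) = dir (r w).1.1 ∧
        (r w).1 = tanL (T.K j) τ (r w).1.1 := by
      rintro w ⟨⟨hw, ht⟩, hs⟩
      obtain ⟨h1, -, h2⟩ := hr w hw
      obtain ⟨h3, h4, h5⟩ := h2 ht
      obtain ⟨τ', hτ', h6, h7⟩ := tangent_spec T h3 h4
      have h8 : I * M T j w.1 = τ' • dir (r w).1.1 := by
        rw [h5, h6, mul_neg, mul_smul_comm, ← mul_assoc, I_mul_I]; simp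
      have h9 := ip_pos_of_close T (norm_dir _) (norm_dir _) (hH.close _ h1.1 _ hw₀)
      have h10 : 0 ≤ τ * ip (I * M T j w.1) (dir w₀.1.1) := hs
      rw [h8, ip_smul_left] at h10
      have e : τ' = τ := by
        rcases hτ with rfl | rfl <;> rcases hτ' with rfl | rfl <;> first | rfl | linarith
      subst e
      refine ⟨?_, h7⟩
      rw [h8, smul_smul]
      rcases hτ with rfl | rfl <;> simp
    have c1 : ContinuousOn (fun w => (r w).1.1) (C τ) := by
      rw [isEmbedding_dir.isInducing.continuousOn_iff]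
      have : Continuous fun z : ℂ => τ • (I * z) := by fun_prop
      exact (this.comp_continuousOn (hcM.mono inter_subset_left)).congr
        fun w hw => (key w hw).1.symm
    have c2 : ContinuousOn (fun w => (r w).1) (C τ) :=
      ((continuous_tanL (T.b j).cpt τ).comp_continuousOn c1).congr fun w hw => (key w hw).2
    have c3 := (continuousOn_lift T i).comp c2
      fun w hw => cross_B' T (hb _ (hr w hw.1.1).1.1).1
    exact c3.congr fun w hw => (hb _ (hr w hw.1.1).1.1).2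
  have hA : ContinuousOn r (H \ U) := continuousOn_id.congr fun w hw => (hr w hw.1).2.1 hw.2
  have hall : ContinuousOn r ((H \ U) ∪ (C 1 ∪ C (-1))) :=
    hA.union_of_isClosed ((hCr 1 (Or.inl rfl)).union_of_isClosed (hCr (-1) (Or.inr rfl))
      (hCc 1) (hCc (-1))) (hH.cpt.diff hU).isClosed ((hCc 1).union (hCc (-1)))
  have hsub : H ⊆ (H \ U) ∪ (C 1 ∪ C (-1)) := by
    intro w hw
    by_cases hwU : w ∈ U
    · have ht := ((hUj w hw).1 hwU).1
      rcases le_total 0 (ip (I * M T j w.1) (dir w₀.1.1)) with h1 | h1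
      · exact Or.inr (Or.inl ⟨⟨hw, ht⟩, by simpa using h1⟩)
      · exact Or.inr (Or.inr ⟨⟨hw, ht⟩, by simpa using h1⟩)
    · exact Or.inl ⟨hw, hwU⟩
  have := hH.conn.image r (hall.mono hsub)
  convert this using 1
  ext w
  constructor
  · intro hw
    exact ⟨w, hw.1, (hr w hw.1).2.1 hw.2⟩
  · rintro ⟨v, hv, rfl⟩
    exact (hr v hv).1

end Pool.Agent.P.MP_379466_co.FlatAux
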