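import Pool.Agent.P.MP_379466_co.Front4

/-!
Pushing a trapped curve forward gives a long unstable curve.
-/

set_option autoImplicit false

namespace Pool.Agent.P.MP_379466_co

open Set

namespace Tab

variable {n : ℕ} (T : Tab n)

theorem front : ∃ CF : ℝ, 1 ≤ CF ∧ ∀ (m₀ m t : ℕ) (ε₀ δ₀ ρ e η : ℝ) (v : St n) (l₀ : Ln),
    v ∈ T.Vp m₀ ε₀ δ₀ → T.Loc m ρ (T.F^[t] v).1 l₀ → dL l₀ (T.F^[t] v).2 < ρ / 2 →
    0 < e → CF * e ≤ T.δ2 → CF * e ≤ ρ / 2 → η ≤ e →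
    T.F^[t] v ∉ T.BadM m (CF * e) → T.dag (T.F^[t] v) ∉ T.BadG m (CF * e) →
    2 * e < t * (T.r * δ₀) → ε₀ * T.wt m₀ t (T.dag (T.F^[t] v)) ≤ η →
    ∃ (γ : ℝ → Ln) (s₁ s₀ s₂ : ℝ), s₀ ∈ Icc s₁ s₂ ∧ ContinuousOn γ (Icc s₁ s₂) ∧
      (∀ s ∈ Icc s₁ s₂, dL (T.F^[t] v).2 (γ s) ≤ CF * e ∧ ((T.F^[t] v).1, γ s) ∉ T.EscNS) ∧
      (∀ s ∈ Icc s₁ s₂, ∀ s' ∈ Icc s₁ s₂, s ≤ s' → T.PostRel (T.F^[t] v).1 (-1) (γ s) (γ s') 0) ∧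
      dL (T.F^[t] v).2 (γ s₀) ≤ η ∧
      Dv 1 (γ s₁) (γ s₀) (T.org (T.F^[t] v).1 l₀) = e ∧
      Dv 1 (γ s₀) (γ s₂) (T.org (T.F^[t] v).1 l₀) = e := by
  have hC1 := T.one_le_C1
  have hC2 := T.one_le_C2
  have hC3 := T.one_le_C3
  have hC4 := T.one_le_C4
  have hD := T.D_ge
  have hr := T.r_pos
  have hD1 : 1 ≤ 1 + T.D := by linarith
  have h13 : 1 ≤ T.C1 * T.C3 := one_le_mul_of_one_le_of_one_le hC1 hC3
  have h134 : 1 ≤ T.C1 * T.C3 * (1 + T.D) := one_le_mul_of_one_le_of_one_le h13 hD1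
  refine ⟨2 * (T.C1 * T.C3 * (1 + T.D)) * (1 + T.C4), by nlinarith only [h134, hC4], ?_⟩
  intro m₀ m t ε₀ δ₀ ρ e η v l₀ hV hL hl he hδ hρ hη hM hG' ht hwt
  obtain ⟨hinf, hε0, hε, hv, hP, hG, γ, a, τ₁, τ₂, b, hTC, ha, h12, hb, hd, hu1, hu2, hA1, hA2⟩ :=
    hV
  obtain ⟨hab, hγ, hcr, hdiv⟩ := hTC
  obtain ⟨k, rfl⟩ : ∃ k, t = k + 1 := ⟨t - 1, by
    rcases t with _ | t
    · simp at ht; linarith
    · rfl⟩
  push_cast at ht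
  set ε := 2 * (T.C1 * T.C3 * (1 + T.D)) * (1 + T.C4) * e with hεd
  set E := (1 + T.C4) * e with hE
  have hE0 : 0 < E := by positivity
  have hεE : ε = 2 * (T.C1 * T.C3 * (1 + T.D)) * E := by rw [hεd, hE]; ring
  have hE₁ : T.C1 * ((1 + T.D) * E) ≤ ε := by
    have : 0 ≤ T.C1 * ((1 + T.D) * E) := by positivity
    rw [hεE]; linarith only [this, mul_le_mul_of_nonneg_left hC3 this, mul_nonneg this (zero_le_one.trans hC3)]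
  have hE₂ : (1 + T.D) * (T.C3 * E) ≤ ε := by
    have : 0 ≤ (1 + T.D) * (T.C3 * E) := by positivity
    rw [hεE]; linarith only [this, mul_le_mul_of_nonneg_left hC1 this, mul_nonneg this (zero_le_one.trans hC1)]
  have hE₃ : 2 * E ≤ ε := by rw [hεE]; linarith only [mul_le_mul_of_nonneg_left h134 hE0.le]
  have hE₄ : η + T.C4 * e ≤ E := by rw [hE]; linarith
  have hE₆ : T.C3 * (T.C1 * e) ≤ T.δ2 / 2 := by
    have h1 : T.C3 * (T.C1 * e) ≤ T.C1 * T.C3 * E := by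
      have : 0 ≤ T.C1 * T.C3 * (T.C4 * e) := by positivity
      rw [hE]; linarith
    have h2 : 0 ≤ T.C1 * T.C3 * E * T.D := by positivity
    rw [hεE] at hδ
    linarith
  obtain ⟨t₀, ht₀, hn1, hn2⟩ := T.wazewski h12 (hγ.mono (Icc_subset_Icc ha hb)) hu1 hu2
  have hat : a ≤ t₀ := ha.trans ht₀.1
  have htb : t₀ ≤ b := ht₀.2.trans hb
  have ht₀' : t₀ ∈ Icc a b := ⟨hat, htb⟩
  obtain ⟨hf, -, hsh⟩ := T.shadow (w := (v.1, γ t₀)) hε hv hP hG rfl (hd t₀ ht₀') hn1 hn2 (k + 1)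
    fun j _ => hinf.1 j
  have hf' := T.fr_fol_mono (Nat.le_succ _) hf
  have hsm : ∀ τ ∈ Icc a b, 3 * (T.C3 * (T.C2 * dL v.2 (γ τ))) ≤ ε₀ := fun τ hτ => by
    have h1 := hd τ hτ
    have h2 := dL_nonneg v.2 (γ τ)
    have h3 : 0 ≤ T.C3 * (T.C2 * dL v.2 (γ τ)) * (T.D - 1) :=
      mul_nonneg (by positivity) (by linarith)
    unfold Table.CE at h1
    linarith
  have hsm' : ∀ τ ∈ Icc a b, 3 * (T.C2 * dL v.2 (γ τ)) ≤ ε₀ := fun τ hτ => by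
    have h2 := dL_nonneg v.2 (γ τ)
    have h3 : 0 ≤ T.C2 * dL v.2 (γ τ) := by positivity
    linarith only [hsm τ hτ, mul_le_mul_of_nonneg_left hC3 h3]
  have hone : ∀ τ ∈ Icc a b, ∀ τ' ∈ Icc a b, dL (γ τ) (γ τ') ≤ 1 := fun τ hτ τ' hτ' => by
    have h1 := dL_triangle (γ τ) v.2 (γ τ')
    rw [dL_comm (γ τ) v.2] at h1
    linarith [hsm' τ hτ, hsm' τ' hτ', mul_le_mul_of_nonneg_left hC2 (dL_nonneg v.2 (γ τ)),
      mul_le_mul_of_nonneg_left hC2 (dL_nonneg v.2 (γ τ')), T.fr_δ2_le_δ1, T.δ1_le_one]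
  have hd0 : 0 ≤ T.C2 * dL v.2 (γ t₀) := mul_nonneg (by linarith) (dL_nonneg _ _)
  have ha₁ : ∀ j ≤ k, T.C3 * dL (T.F^[j] v).2 (T.F^[j] (v.1, γ t₀)).2 ≤ T.δ2 / 2 := fun j hj => by
    have h1 : dL (T.F^[j] v).2 (T.F^[j] (v.1, γ t₀)).2 ≤ T.C2 * dL v.2 (γ t₀) := by
      have h2 := hsh j (by omega)
      have h3 := mul_le_mul_of_nonneg_left (T.wt_le_one m₀ j (T.dag (T.F^[j] v))) hd0
      change _ ≤ _ * dL v.2 (γ t₀) at h2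
      linarith
    linarith [mul_le_mul_of_nonneg_left h1 (show 0 ≤ T.C3 by linarith), hsm t₀ ht₀']
  have ha₂ : dL (T.F^[k + 1] v).2 (T.F^[k + 1] (v.1, γ t₀)).2 ≤ η := by
    have h2 := hsh (k + 1) le_rfl
    have h3 := mul_le_mul_of_nonneg_right
      (show T.C2 * dL v.2 (γ t₀) ≤ ε₀ by linarith [hsm' t₀ ht₀'])
      (T.wt_pos m₀ (k + 1) (T.dag (T.F^[k + 1] v))).le
    change _ ≤ _ * dL v.2 (γ t₀) at h2
    linarith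
  have hτ₁ : τ₁ ∈ Icc a b := ⟨ha, h12.trans hb⟩
  have hτ₂ : τ₂ ∈ Icc a b := ⟨ha.trans h12, hb⟩
  have hma := left_mem_Icc.2 hab
  have hmb := right_mem_Icc.2 hab
  have hkr : 0 < ((k : ℝ) + 1) * T.r := by positivity
  have hlong : ∀ A : ℝ, δ₀ < 2 * A → e < (k + 1) * (T.r * A) := fun A hA => by
    linarith [mul_lt_mul_of_pos_left hA hkr]
  obtain ⟨c₂, hc₂, g₂, q₂⟩ := T.fr_side (γ := γ) (Or.inl rfl) hε hv hP hG hL hl hE₁ hE₂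
    (by linarith) hρ hM hG' he hE₄ (by linarith) hE₆ htb (hγ.mono (Icc_subset_Icc_left hat))
    (fun τ hτ => (hcr τ ⟨hat.trans hτ.1, hτ.2⟩).1) (fun τ hτ => hd τ ⟨hat.trans hτ.1, hτ.2⟩)
    (fun τ hτ => hdiv t₀ ht₀' τ ⟨hat.trans hτ.1, hτ.2⟩ hτ.1) hf' ha₁ ha₂
    (hlong _ (hA2.trans_le (An_le_of_between (Or.inl rfl) (hone _ ht₀' _ hτ₂) (hone _ hτ₂ _ hmb)
      (hdiv _ ht₀' _ hτ₂ ht₀.2).1 (hdiv _ hτ₂ _ hmb hb).1).2))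
  have hneg : ∀ τ ∈ Icc (-t₀) (-a), -τ ∈ Icc a b := fun τ hτ =>
    ⟨by linarith [hτ.2], by linarith [hτ.1]⟩
  obtain ⟨c₁, hc₁, g₁, q₁⟩ := T.fr_side (γ := fun τ => γ (-τ)) (a := -t₀) (b := -a) (Or.inr rfl)
    hε hv hP hG hL hl hE₁ hE₂ (by linarith) hρ hM hG' he hE₄ (by linarith) hE₆ (by linarith)
    (hγ.comp continuous_neg.continuousOn hneg)
    (fun τ hτ => (hcr _ (hneg τ hτ)).1) (fun τ hτ => hd _ (hneg τ hτ))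
    (fun τ hτ => by
      rw [neg_neg]
      exact Table.Div.symm _ (hdiv _ (hneg τ hτ) t₀ ht₀' (by linarith [hτ.1])))
    (by rw [neg_neg]; exact hf') (by rw [neg_neg]; exact ha₁) (by rw [neg_neg]; exact ha₂)
    (by
      rw [neg_neg, neg_neg, An_swap]
      exact hlong _ (hA1.trans_le (An_le_of_between (Or.inl rfl) (hone _ hma _ hτ₁)
        (hone _ hτ₁ _ ht₀') (hdiv _ hma _ hτ₁ ha).1 (hdiv _ hτ₁ _ ht₀' ht₀.1).1).1))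
  rw [neg_neg] at q₁
  have hsub : ∀ τ ∈ Icc (-c₁) c₂, τ ∈ Icc a b := fun τ hτ =>
    ⟨by linarith [hτ.1, hc₁.2], hτ.2.trans hc₂.2⟩
  have hgd : ∀ τ ∈ Icc (-c₁) c₂, T.FrGd (k + 1) E v (v.1, γ τ) := fun τ hτ => by
    rcases le_total τ t₀ with h | h
    · simpa using g₁ (-τ) ⟨by linarith, by linarith [hτ.1]⟩
    · exact g₂ τ ⟨h, hτ.2⟩
  set Γ : ℝ → Ln := fun τ => (T.F^[k + 1] (v.1, γ τ)).2 with hΓ
  have p₀ : t₀ ∈ Icc (-c₁) c₂ := ⟨by linarith [hc₁.1], hc₂.1⟩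
  have p₁ : ContinuousOn Γ (Icc (-c₁) c₂) := fun τ hτ =>
    (T.fr_continuousAt_iter le_rfl (hgd τ hτ).1.2.1).comp_continuousWithinAt
      ((hγ τ (hsub τ hτ)).mono hsub)
  have p₂ : ∀ τ ∈ Icc (-c₁) c₂, dL (T.F^[k + 1] v).2 (Γ τ) ≤ ε ∧
      ((T.F^[k + 1] v).1, Γ τ) ∉ T.EscNS := fun τ hτ => by
    refine ⟨(hgd τ hτ).2.2.trans (by linarith), ?_⟩
    rw [(hgd τ hτ).1.2.2 _ le_rfl]
    exact fun h => (hcr τ (hsub τ hτ)).2 ((T.escNS_iter (hgd τ hτ).1.2.1).1 h)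
  have p₃ : ∀ τ ∈ Icc (-c₁) c₂, ∀ τ' ∈ Icc (-c₁) c₂, τ ≤ τ' →
      T.PostRel (T.F^[k + 1] v).1 ((-1) ^ k * 1) (Γ τ) (Γ τ') 0 := fun τ hτ τ' hτ' h =>
    (T.fr_good_pair (Or.inl rfl) hL (T.fr_good_of_gd (hgd τ hτ) hl (by linarith) (by linarith))
      (T.fr_good_of_gd (hgd τ' hτ') hl (by linarith) (by linarith))
      (hdiv τ (hsub τ hτ) τ' (hsub τ' hτ') h) rfl).1
  rw [pow_succ] at q₁ q₂
  rcases neg_one_pow_eq_or ℝ k with h | h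
  · rw [h] at q₁ q₂ p₃
    have hneg' : ∀ τ ∈ Icc (-c₂) c₁, -τ ∈ Icc (-c₁) c₂ := fun τ hτ =>
      ⟨by linarith [hτ.2], by linarith [hτ.1]⟩
    refine ⟨fun τ => Γ (-τ), -c₂, -t₀, c₁, ⟨by linarith [p₀.2], by linarith [p₀.1]⟩,
      p₁.comp continuous_neg.continuousOn hneg', fun τ hτ => p₂ _ (hneg' τ hτ),
      fun τ hτ τ' hτ' hle => ?_, ?_, ?_, ?_⟩
    · simpa using T.fr_postRel_symm (p₃ _ (hneg' τ' hτ') _ (hneg' τ hτ) (by linarith))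
    · simpa [hΓ] using ha₂
    · rw [← Dv_swap]
      simpa [hΓ] using q₂
    · simpa [hΓ] using q₁
  · rw [h] at q₁ q₂ p₃
    refine ⟨Γ, -c₁, t₀, c₂, p₀, p₁, p₂, fun τ hτ τ' hτ' hle => ?_, ha₂, ?_, ?_⟩
    · simpa using p₃ τ hτ τ' hτ' hle
    · rw [← Dv_swap]
      simpa [hΓ] using q₁
    · simpa [hΓ] using q₂

end Tab

end Pool.Agent.P.MP_379466_co
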