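import Pool.Agent.P.MP_379466_co.Event

/-!
Auxiliary facts for pushing a trapped curve forward: shifts of itineraries, the gap at the
reference point of the final chart, obstacles between two collisions.
-/

set_option autoImplicit false

namespace Pool.Agent.P.MP_379466_co

open Set Filter Topology

theorem fr_sgn_neg {s : ℝ} (hs : s = 1 ∨ s = -1) : -s = 1 ∨ -s = -1 := by
  rcases hs with rfl | rfl <;> simp

theorem fr_sgn_pow (k : ℕ) {s : ℝ} (hs : s = 1 ∨ s = -1) :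
    (-1) ^ k * s = 1 ∨ (-1) ^ k * s = -1 := by
  rcases neg_one_pow_eq_or ℝ k with h | h <;> rcases hs with rfl | rfl <;> simp [h]

theorem fr_exists_sg {s : ℝ} (hs : s = 1 ∨ s = -1) : ∃ b : Bool, sg b = s := by
  rcases hs with rfl | rfl
  exacts [⟨true, rfl⟩, ⟨false, rfl⟩]

namespace Table

variable {n : ℕ} (T : Table (Fin n))

theorem fr_iter_iter (j k : ℕ) (v : St n) : T.F^[k] (T.F^[j] v) = T.F^[j + k] v := by
  rw [add_comm, Function.iterate_add_apply]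

theorem fr_iter_succ (k : ℕ) (v : St n) : T.F (T.F^[k] v) = T.F^[k + 1] v := by
  rw [Function.iterate_succ_apply']

theorem fr_fol_shift {j k : ℕ} {v w : St n} (h : T.Fol (j + k) v w) :
    T.Fol k (T.F^[j] v) (T.F^[j] w) :=
  ⟨T.domN_iter h.1, T.domN_iter h.2.1, fun i hi => by
    rw [T.fr_iter_iter, T.fr_iter_iter]; exact h.2.2 _ (by omega)⟩

theorem fr_fol_mono {j k : ℕ} (hjk : j ≤ k) {v w : St n} (h : T.Fol k v w) : T.Fol j v w :=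
  ⟨T.domN_mono hjk h.1, T.domN_mono hjk h.2.1, fun i hi => h.2.2 i (hi.trans hjk)⟩

theorem fr_fol_trans {k : ℕ} {v w w' : St n} (h : T.Fol k v w) (h' : T.Fol k v w') :
    T.Fol k w w' :=
  ⟨h.2.1, h'.2.1, fun i hi => (h.2.2 i hi).symm.trans (h'.2.2 i hi)⟩

theorem fr_fol_fst {k : ℕ} {v w : St n} (h : T.Fol k v w) : v.1 = w.1 := h.2.2 0 (Nat.zero_le _)

theorem fr_fol_hit {k : ℕ} {v w : St n} (h : T.Fol (k + 1) v w) : T.Hit v.1 w.2 (T.F v).1 := by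
  have h1 := (T.hit_F (T.domN_succ.1 h.2.1).1).1
  have h2 : (T.F v).1 = (T.F w).1 := h.2.2 1 (by omega)
  rw [T.fr_fol_fst h, h2]
  exact h1

theorem fr_fol_F {k : ℕ} {v w : St n} (h : T.Fol (k + 1) v w) :
    T.F w = ((T.F v).1, refl (T.b (T.F v).1) w.2) := by
  have h1 := T.fr_fol_hit h
  rw [T.fr_fol_fst h] at h1
  exact T.F_of_hit h1

open Classical in
theorem fr_cnt_succ' (m k : ℕ) (v : St n) :
    T.cnt m (k + 1) v = (if v ∈ T.Mk m then 1 else 0) + T.cnt m k (T.F v) := by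
  unfold cnt
  rw [Finset.card_filter, Finset.card_filter, Finset.sum_range_succ', add_comm]
  rfl

theorem fr_le_mul_wt {m k : ℕ} {v : St n} {b ε : ℝ} (h : T.lam m ^ T.cnt m k v * b ≤ ε) :
    b ≤ ε * T.wt m k v := by
  have h0 : 0 < T.lam m ^ T.cnt m k v := pow_pos (by linarith [T.one_lt_lam m]) _
  unfold wt
  rw [← div_eq_mul_inv, le_div_iff₀ h0]
  linarith

theorem fr_abs_sd_le {x y : Ln} {i : Fin n} {z : ℂ} (hz : z ∈ T.B i) :
    |sd x z - sd y z| ≤ (1 + T.D) * dL x y := by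
  simpa [Dv] using T.abs_Dv_le (Or.inl rfl) x y hz

/-- An obstacle touched by a nearby line between `K i` and `K j` also lies between them. -/
theorem fr_free_mid {i j l : Fin n} {x : Ln} (h : T.Hit i x j) (hli : l ≠ i) (hlj : l ≠ j)
    {z : ℂ} (hz : z ∈ T.K l) (hd : |sd x z| ≤ T.r / 4) (h₁ : 0 < ip (T.ν i l) (dir x.1))
    (h₂ : 0 < ip (T.ν l j) (dir x.1)) : T.Free l x j := by
  refine ⟨hlj, h.2.2.1, h₂, fun k hkl hkj h3 h4 hm => ?_⟩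
  have hr := T.r_pos
  by_cases hki : k = i
  · subst hki
    rw [T.ν_anti k l] at h3
    simp only [ip, Complex.neg_re, Complex.neg_im] at h3 h₁
    linarith
  obtain ⟨zi, hzi, hzi0⟩ := h.1.meets (T.b i).cvx
  obtain ⟨zk, hzk, hzk0⟩ := id hm
  have a0 : |sd x zi| ≤ T.r / 4 := by rw [hzi0, abs_zero]; linarith
  have a1 : |sd x zk| ≤ T.r / 4 := by rw [hzk0, abs_zero]; linarith
  have o1 := T.order hli.symm (T.K_sub_B i hzi) (T.K_sub_B l hz) a0 hd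
  have o2 := T.order (Ne.symm hkl) (T.K_sub_B l hz) (T.K_sub_B k hzk) hd a1
  have o3 := T.order (Ne.symm hki) (T.K_sub_B i hzi) (T.K_sub_B k hzk) a0 a1
  refine h.2.2.2.2 k hki hkj ?_ h4 hm
  rcases o1 with o1 | o1
  · rcases o2 with o2 | o2
    · rcases o3 with o3 | o3
      · exact o3.1.le
      · linarith [o1.2, o2.2, o3.2]
    · linarith [o2.1]
  · linarith [o1.1]

theorem fr_inRel_mono {i : Fin n} {s W W' : ℝ} {l₁ l₂ : Ln} (h : T.InRel i s l₁ l₂ W)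
    (hW : W' ≤ W) : T.InRel i s l₁ l₂ W' :=
  ⟨h.1, h.2.1, h.2.2.1, hW.trans h.2.2.2.1, hW.trans h.2.2.2.2⟩

end Table

namespace Tab

variable {n : ℕ} (T : Tab n)

theorem fr_δ2_le_δ1 : T.δ2 ≤ T.δ1 := by linarith [T.δ2_pos, T.δ2_le]

theorem fr_sd_small {x y : Ln} (hd : dL x y ≤ T.δ1) {i : Fin n} {z : ℂ} (hz : z ∈ T.B i) :
    |sd x z - sd y z| ≤ T.r / 100 :=
  (T.fr_abs_sd_le hz).trans ((mul_le_mul_of_nonneg_left hd (by linarith [T.D_ge])).trans T.δ1_small)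

/-- The order of two obstacles along a line is the same along nearby lines. -/
theorem fr_order_near {i j : Fin n} (hij : i ≠ j) {x y : Ln} (hd : dL x y ≤ T.δ1)
    (hi : Meets (T.K i) y) (hj : Meets (T.K j) y) (h : 0 ≤ ip (T.ν i j) (dir y.1)) :
    0 < ip (T.ν i j) (dir x.1) := by
  obtain ⟨z, hz, hz0⟩ := hi
  obtain ⟨w, hw, hw0⟩ := hj
  have hr := T.r_pos
  have hzB := T.K_sub_B i hz
  have hwB := T.K_sub_B j hw
  have a1 := T.fr_sd_small hd hzB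
  have a2 := T.fr_sd_small hd hwB
  rw [hz0, sub_zero] at a1
  rw [hw0, sub_zero] at a2
  have o1 := T.order (l := y) hij hzB hwB (by rw [hz0, abs_zero]; linarith)
    (by rw [hw0, abs_zero]; linarith)
  have o2 := T.order (l := x) hij hzB hwB (by linarith) (by linarith)
  rcases o1 with o1 | o1
  swap
  · linarith [o1.1]
  rcases o2 with o2 | o2
  · exact o2.1
  exfalso
  have e1 := tm_sub y z w
  have e2 := tm_sub x z w
  have e3 := abs_ip_le (dir y.1 - dir x.1) (w - z)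
  have e4 : ip (dir y.1 - dir x.1) (w - z) = ip (dir y.1) (w - z) - ip (dir x.1) (w - z) := by
    simp only [ip, Complex.sub_re, Complex.sub_im]; ring
  have e5 : ‖dir y.1 - dir x.1‖ ≤ T.δ1 := (dir_le_dL y x).trans (by rwa [dL_comm])
  have e6 : ‖w - z‖ ≤ 2 * (1 + T.D) :=
    (norm_sub_le _ _).trans (by linarith [T.bdd i z hzB, T.bdd j w hwB])
  have e7 := mul_le_mul e5 e6 (norm_nonneg _) ((norm_nonneg _).trans e5)
  have e8 := T.δ1_small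
  have e9 := le_abs_self (ip (dir y.1 - dir x.1) (w - z))
  nlinarith [o1.2, o2.2]

theorem fr_postRel_mono {i : Fin n} {s W W' : ℝ} {l₁ l₂ : Ln} (h : T.PostRel i s l₁ l₂ W)
    (hW : W' ≤ W) : T.PostRel i s l₁ l₂ W' :=
  ⟨h.1, T.fr_inRel_mono h.2 hW⟩

theorem fr_postRel_symm {i : Fin n} {s W : ℝ} {l₁ l₂ : Ln} (h : T.PostRel i s l₁ l₂ W) :
    T.PostRel i (-s) l₂ l₁ W :=
  ⟨by rw [dL_comm]; exact h.1, Table.InRel.symm _ h.2⟩

/-- The gap at the reference point of the final chart dominates the potential of a diverging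
pair. -/
theorem fr_end_gap {m k : ℕ} {ρ : ℝ} {l₀ : Ln} {x y : St n} {s W : ℝ} (hs : s = 1 ∨ s = -1)
    (hf : T.Fol (k + 1) x y) (hd : ∀ j ≤ k, dL (T.F^[j] x).2 (T.F^[j] y).2 ≤ T.δ1)
    (h : T.Div x.1 s x.2 y.2 W) (hW : 0 ≤ W) (hL : T.Loc m ρ (T.F^[k + 1] x).1 l₀)
    (h₁ : dL l₀ (T.F^[k + 1] x).2 < ρ) (h₂ : dL l₀ (T.F^[k + 1] y).2 < ρ) {Q : ℝ}
    (hQ : Q = Dv ((-1) ^ (k + 1) * s) (T.F^[k + 1] x).2 (T.F^[k + 1] y).2
      (T.org (T.F^[k + 1] x).1 l₀)) :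
    T.PostRel (T.F^[k + 1] x).1 ((-1) ^ k * s) (T.F^[k + 1] x).2 (T.F^[k + 1] y).2 0 ∧
      T.lam m ^ T.cnt m k (T.F x) * (W + T.r * An s x.2 y.2) ≤ Q ∧
      (k + 1) * (T.r * An s x.2 y.2) ≤ Q ∧
      dL (T.F^[k + 1] x).2 (T.F^[k + 1] y).2 ≤ T.C4 * Q ∧
      Q ≤ (1 + T.D) * dL (T.F^[k + 1] x).2 (T.F^[k + 1] y).2 := by
  obtain ⟨W', hp, h3, h4⟩ := T.chain_post m hs hf hd h hW
  have ha : 0 ≤ T.r * An s x.2 y.2 := mul_nonneg T.r_pos.le h.1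
  have hW' : 0 ≤ W' := le_trans (by positivity) h4
  obtain ⟨-, h6, h7, -⟩ := T.slope hL h₁ h₂ (fr_sgn_pow k hs) hp hW'
  have e : -((-1 : ℝ) ^ k * s) = (-1) ^ (k + 1) * s := by ring
  rw [e, ← hQ] at h6 h7
  refine ⟨T.fr_postRel_mono hp hW', h3.trans h6, by linarith, h7, ?_⟩
  rw [hQ]
  exact (le_abs_self _).trans (T.abs_Dv_le (fr_sgn_pow _ hs) _ _ (T.org_mem hL))

theorem fr_end_size {m k : ℕ} {ρ : ℝ} {l₀ : Ln} {x y : St n} {s : ℝ} (hs : s = 1 ∨ s = -1)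
    (hf : T.Fol (k + 1) x y) (hd : ∀ j ≤ k, dL (T.F^[j] x).2 (T.F^[j] y).2 ≤ T.δ1)
    (h : T.Div x.1 s x.2 y.2 0) (hL : T.Loc m ρ (T.F^[k + 1] x).1 l₀)
    (h₁ : dL l₀ (T.F^[k + 1] x).2 < ρ) (h₂ : dL l₀ (T.F^[k + 1] y).2 < ρ) {Q : ℝ}
    (hQ : Q = Dv ((-1) ^ (k + 1) * s) (T.F^[k + 1] x).2 (T.F^[k + 1] y).2
      (T.org (T.F^[k + 1] x).1 l₀)) :
    T.lam m ^ T.cnt m k (T.F x) * dL x.2 y.2 ≤ T.C1 * Q ∧
      Q ≤ (1 + T.D) * dL (T.F^[k + 1] x).2 (T.F^[k + 1] y).2 := by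
  obtain ⟨W, hW, h', hsz⟩ := Table.Div.size _ (l₁ := x.2) (l₂ := y.2) hs
    ((hd 0 (Nat.zero_le _)).trans T.δ1_le_one) h
  obtain ⟨-, g1, -, -, g2⟩ := T.fr_end_gap hs hf hd h' hW hL h₁ h₂ hQ
  have g4 := mul_le_mul_of_nonneg_left hsz
    (pow_nonneg (show 0 ≤ T.lam m by linarith [T.one_lt_lam m]) (T.cnt m k (T.F x)))
  have g5 := mul_le_mul_of_nonneg_left g1 (show 0 ≤ T.C1 by linarith [T.one_le_C1])
  exact ⟨by linarith, g2⟩

/-- The orbit of `w` follows that of `v` for `t` steps, closely, and ends `E`-close. -/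
def FrGd (t : ℕ) (E : ℝ) (v w : St n) : Prop :=
  T.Fol t v w ∧ (∀ j < t, T.C3 * dL (T.F^[j] v).2 (T.F^[j] w).2 ≤ T.δ2) ∧
    dL (T.F^[t] v).2 (T.F^[t] w).2 ≤ E

theorem fr_gd_shift {j k : ℕ} {E : ℝ} {v w : St n} (h : T.FrGd (j + k) E v w) :
    T.FrGd k E (T.F^[j] v) (T.F^[j] w) :=
  ⟨T.fr_fol_shift h.1, fun i hi => by
    rw [T.fr_iter_iter, T.fr_iter_iter]; exact h.2.1 _ (by omega), by
    rw [T.fr_iter_iter, T.fr_iter_iter]; exact h.2.2⟩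

theorem fr_gd_tail {k : ℕ} {E : ℝ} {v w : St n} (h : T.FrGd (k + 1) E v w) :
    T.FrGd k E (T.F v) (T.F w) :=
  T.fr_gd_shift (j := 1) (by rwa [add_comm])

theorem fr_small_of {d : ℝ} (h0 : 0 ≤ d) (h : T.C3 * d ≤ T.δ2) :
    (1 + T.D) * d ≤ T.δ2 / 10 ∧ d ≤ T.δ2 / 20 := by
  have := T.D_ge
  unfold Table.C3 at h
  constructor <;> nlinarith

theorem fr_le_δ1_of {d : ℝ} (h0 : 0 ≤ d) (h : T.C3 * d ≤ T.δ2) : d ≤ T.δ1 := by
  linarith [(T.fr_small_of h0 h).2, T.fr_δ2_le_δ1, T.δ2_pos]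

/-- What passes to a limit of lines that follow `u`. -/
theorem fr_limit_facts {k : ℕ} {E : ℝ} {u : St n} {y : Ln}
    (hfr : ∃ᶠ l in 𝓝 y, T.FrGd (k + 1) E u (u.1, l)) :
    u ∈ T.DomN (k + 1) ∧ T.C3 * dL u.2 y ≤ T.δ2 ∧ Meets (T.K u.1) y ∧ Meets (T.K (T.F u).1) y ∧
      0 ≤ ip (T.ν u.1 (T.F u).1) (dir y.1) := by
  refine ⟨hfr.exists.elim fun _ h => h.1.1, ?_, ?_, ?_, ?_⟩
  · exact (hfr.mono fun l h => h.2.1 0 (by omega)).mem_of_closed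
      (s := {l | T.C3 * dL u.2 l ≤ T.δ2}) (isClosed_le (by fun_prop) continuous_const)
  · exact (hfr.mono fun l h => (T.fr_fol_hit h.1).1.meets (T.b _).cvx).mem_of_closed
      (isClosed_meets (T.b _).cpt)
  · exact (hfr.mono fun l h => (T.fr_fol_hit h.1).2.2.1.meets (T.b _).cvx).mem_of_closed
      (isClosed_meets (T.b _).cpt)
  · exact (hfr.mono fun l h => (T.fr_fol_hit h.1).2.2.2.1.le).mem_of_closed
      (s := {l : Ln | 0 ≤ ip (T.ν u.1 (T.F u).1) (dir l.1)})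
      (isClosed_le continuous_const (by fun_prop))

end Tab

end Pool.Agent.P.MP_379466_co
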