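import Pool.Agent.P.MP_379466_co.Front1

/-!
A curve of lines following `u` breaks because its limit only touches the next obstacle: the
collision of `u` is grazing.
-/

set_option autoImplicit false

namespace Pool.Agent.P.MP_379466_co

open Set Filter Topology

theorem fr_ip_expand {u : ℂ} (h : ‖u‖ = 1) (a b : ℂ) :
    ip a b = ip u a * ip u b + cr u a * cr u b := by
  have := unit_sq h
  simp only [ip, cr]
  linear_combination (-(a.re * b.re + a.im * b.im)) * this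

theorem fr_graze_core {u v N d : ℂ} {s : ℝ} (hs : s = 1 ∨ s = -1) (hu : ‖u‖ = 1) (hv : ‖v‖ = 1)
    (hN : ‖N‖ = 1) (h₁ : ip u N < 0) (h₂ : ip N d ≤ 0) (h₃ : 0 ≤ s * cr v d)
    (h₄ : 0 < s * cr u d) (h₅ : 0 < s * cr u v) (h₆ : ‖N - s • (Complex.I * v)‖ ≤ 1 / 4)
    (h₇ : ‖u - v‖ ≤ 1 / 4) : ip v N ≤ 0 := by
  have hss : s * s = 1 := by rcases hs with rfl | rfl <;> norm_num
  have hsa : |s| = 1 := by rcases hs with rfl | rfl <;> simp
  have a1 : 3 / 4 ≤ s * cr v N := by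
    have e1 := abs_cr_le v (N - s • (Complex.I * v))
    have e2 : cr v (N - s • (Complex.I * v)) = cr v N - s := by
      have := unit_sq hv
      simp [cr]
      linear_combination (-s) * this
    rw [e2, hv, one_mul] at e1
    have e3 := abs_le.1 (e1.trans h₆)
    rcases hs with rfl | rfl <;> linarith [e3.1, e3.2]
  have a2 : 1 / 2 ≤ s * cr u N := by
    have e1 := abs_cr_le (u - v) N
    have e2 : cr (u - v) N = cr u N - cr v N := by simp [cr]; ring
    rw [e2, hN, mul_one] at e1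
    have e3 := abs_le.1 (e1.trans h₇)
    rcases hs with rfl | rfl <;> linarith [e3.1, e3.2]
  have a3 : 0 < ip u v := by
    have e1 := abs_ip_le u (u - v)
    have e2 : ip u (u - v) = 1 - ip u v := by
      have := unit_sq hu
      simp [ip]
      linear_combination this
    rw [e2, hu, one_mul] at e1
    linarith [(abs_le.1 (e1.trans h₇)).2]
  have b1 : cr u N * cr u d = (s * cr u N) * (s * cr u d) := by
    linear_combination (-(cr u N * cr u d)) * hss
  have b2 : cr u v * cr u d = (s * cr u v) * (s * cr u d) := by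
    linear_combination (-(cr u v * cr u d)) * hss
  have b3 : cr v N * cr v d = (s * cr v N) * (s * cr v d) := by
    linear_combination (-(cr v N * cr v d)) * hss
  have a4 : 0 < ip u d := by
    have e1 := fr_ip_expand hu N d
    have e2 : 0 < (s * cr u N) * (s * cr u d) := mul_pos (by linarith) h₄
    by_contra hc
    have := mul_nonneg_of_nonpos_of_nonpos h₁.le (not_lt.1 hc)
    linarith
  have a5 : 0 < ip v d := by
    rw [fr_ip_expand hu v d, b2]
    have := mul_pos a3 a4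
    have := mul_pos h₅ h₄
    linarith
  have e1 := fr_ip_expand hv N d
  have e2 : 0 ≤ (s * cr v N) * (s * cr v d) := mul_nonneg (by linarith) h₃
  by_contra hc
  have := mul_pos (not_le.1 hc) a5
  linarith

namespace Tab

variable {n : ℕ} (T : Tab n)

theorem fr_εN_le : T.r / (100 * (1 + T.D) ^ 2) ≤ 1 / 4 := by
  have := T.D_ge
  have := T.r_le
  rw [div_le_iff₀ (by positivity)]
  nlinarith

theorem fr_graze {j : Fin n} {x y : Ln} {s : ℝ} (hs : s = 1 ∨ s = -1) (hx : Cross (T.K j) x)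
    (hd : dL x y ≤ T.δ1) {z : ℂ} (hz : z ∈ T.K j) (hz0 : sd y z = 0)
    (hside : ∀ w ∈ T.K j, 0 ≤ -s * sd y w) (ha : 0 < An s x y) (hxz : 0 < s * sd x z) :
    |ip (dir x.1) ((T.b j).N (enP (T.K j) x))| ≤ dL (refl (T.b j) x) y := by
  have hm := hx.meets (T.b j).cvx
  have hPf := enP_frontier (T.b j).cpt hm
  have hPK := enP_mem (T.b j).cpt hm
  have hP0 := sd_enP (T.K j) x
  have hneg := (T.b j).ip_enP_neg hx
  have hr := ip_dir_refl hx
  obtain ⟨hzf, hNz⟩ := (T.b j).N_of_side (fr_sgn_neg hs) hz hz0 hside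
  rw [neg_smul, neg_neg] at hNz
  have e1 := sd_sub x (enP (T.K j) x) z
  have e2 := sd_sub y (enP (T.K j) x) z
  rw [hP0, sub_zero] at e1
  rw [hz0, zero_sub] at e2
  have hN := T.hN j _ hPf z hzf (dir x.1) (dir y.1) (norm_dir _) (norm_dir _) hneg.le
    (by rw [hNz]; simp [ip]; linarith) ((dir_le_dL x y).trans hd) (by
      have := T.fr_abs_sd_le (x := x) (y := y) (T.K_sub_B j hz)
      rw [hz0, sub_zero, e1] at this
      exact this.trans (mul_le_mul_of_nonneg_left hd (by linarith [T.D_ge])))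
  rw [hNz] at hN
  have hN1 := (T.b j).N_norm _ hPf
  have h := fr_graze_core hs (norm_dir x.1) (norm_dir y.1) hN1 hneg ((T.b j).N_out _ hPf z hz)
    (by rw [← e2]; linarith [hside _ hPK]) (by rwa [← e1]) ha (hN.trans T.fr_εN_le)
    (((dir_le_dL x y).trans hd).trans (T.δ1_le.trans T.fr_εN_le))
  have e3 := abs_ip_le (dir (refl (T.b j) x).1 - dir y.1) ((T.b j).N (enP (T.K j) x))
  have e4 : ip (dir (refl (T.b j) x).1 - dir y.1) ((T.b j).N (enP (T.K j) x)) =
      ip (dir (refl (T.b j) x).1) ((T.b j).N (enP (T.K j) x)) -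
        ip (dir y.1) ((T.b j).N (enP (T.K j) x)) := by
    simp only [ip, Complex.sub_re, Complex.sub_im]; ring
  rw [e4, hr, hN1, mul_one] at e3
  rw [abs_of_neg hneg]
  linarith [(abs_le.1 e3).2, dir_le_dL (refl (T.b j) x) y]

/-- Lines near a comparable line enter the next obstacle on the same side. -/
theorem fr_eventually_inRel {i j : Fin n} {x y : Ln} {s : ℝ} (hx : T.Hit i x j)
    (hc : T.Cmp i s x y) : ∀ᶠ l in 𝓝 y, Cross (T.K j) l → T.InRel j s x l 0 := by
  have hj := hc.2 j hx.2.1.symm hx.2.2.2.1.le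
  have hm := hx.2.2.1.meets (T.b j).cvx
  have h1 : ∀ᶠ l in 𝓝 y, 0 < An s x l :=
    (continuousAt_const.eventually_lt (by unfold An; fun_prop) hc.1)
  have h2 : ∀ᶠ l in 𝓝 y, 0 < Dv s x l (enP (T.K j) x) :=
    (continuousAt_const.eventually_lt (by unfold Dv; fun_prop)
      (hj _ (enP_mem (T.b j).cpt hm) (Or.inl (sd_enP _ _))))
  have h3 : ∀ᶠ l in 𝓝 y, ¬ Meets (T.K j ∩ {z | s * sd x z ≤ 0}) l := by
    refine (isClosed_meets ((T.b j).cpt.inter_right
      (isClosed_le (by fun_prop) continuous_const))).isOpen_compl.mem_nhds ?_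
    rintro ⟨z, ⟨hz, hz1⟩, hz0⟩
    have := hj z hz (Or.inr hz0)
    simp only [Dv, hz0, sub_zero] at this
    exact absurd this (not_lt.2 hz1)
  filter_upwards [h1, h2, h3] with l a1 a2 a3 hl
  refine ⟨hx.2.2.1, hl, a1.le, a2.le, ?_⟩
  by_contra hn
  simp only [Dv, sd_enP, sub_zero, not_le] at hn
  exact a3 ⟨_, ⟨enP_mem (T.b j).cpt (hl.meets (T.b j).cvx), hn.le⟩, sd_enP _ _⟩

theorem fr_break_H {m k : ℕ} {ρ E ε s : ℝ} {l₀ y : Ln} {u : St n} (hs : s = 1 ∨ s = -1)
    (hL : T.Loc m ρ (T.F^[k + 1] u).1 l₀) (hl : dL l₀ (T.F^[k + 1] u).2 < ρ / 2)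
    (hE : T.C1 * ((1 + T.D) * E) ≤ ε) (hEε : E ≤ ε) (hρ : ε ≤ ρ / 2)
    (hfr : ∃ᶠ l in 𝓝 y, T.FrGd (k + 1) E u (u.1, l)) (hc : T.Cmp u.1 s u.2 y)
    (hn : ¬ Cross (T.K (T.F u).1) y) : T.dag (T.F^[k + 1] u) ∈ T.BadG m ε := by
  obtain ⟨hu, hd, -, ⟨z, hz, hz0⟩, -⟩ := T.fr_limit_facts hfr
  have hρ0 := hL.1
  have hdom := (T.domN_succ.1 hu).1
  obtain ⟨hx, hF⟩ := T.hit_F hdom
  have hxc := hx.2.2.1
  have hj := hc.2 _ hx.2.1.symm hx.2.2.2.1.le
  obtain ⟨τ, hτ, hside⟩ := side_of_not_cross hn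
  have hτs : τ = -s := by
    have hP := enP_mem (T.b _).cpt (hxc.meets (T.b _).cvx)
    have h1 := hj _ hP (Or.inl (sd_enP _ _))
    have h2 := hside _ hP
    simp only [Dv, sd_enP, zero_sub] at h1
    rcases hs with rfl | rfl <;> rcases hτ with rfl | rfl <;> linarith
  subst hτs
  have hg := T.fr_graze hs hxc (T.fr_le_δ1_of (dL_nonneg _ _) hd) hz hz0 hside hc.1
    (by simpa [Dv, hz0] using hj z hz (Or.inr hz0))
  have hlim : ∀ c B : ℝ, 0 ≤ c →
      (∃ᶠ l in 𝓝 y, c * dL (T.F u).2 (refl (T.b (T.F u).1) l) ≤ B) →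
      c * |ip (dir u.2.1) ((T.b (T.F u).1).N (enP (T.K (T.F u).1) u.2))| ≤ B := by
    intro c B hc0 h
    have := h.mem_of_closed (s := {l | c * dL (T.F u).2 (refl (T.b (T.F u).1) l) ≤ B})
      (isClosed_le (continuous_const.mul (continuous_dL continuous_const (continuous_refl _)))
        continuous_const)
    rw [mem_ofPred_eq, refl_of_not_cross hn, hF] at this
    exact (mul_le_mul_of_nonneg_left hg hc0).trans this
  obtain ⟨-, hmk, -, hgr⟩ := hL.2.2 _ (show dL l₀ (T.F^[k + 1] u).2 < ρ by linarith)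
  rcases k with _ | k
  · exfalso
    have h1 := hlim 1 E zero_le_one (hfr.mono fun l h => by
      have h2 := h.2.2
      rw [show T.F^[0 + 1] (u.1, l) = T.F (u.1, l) from rfl, T.fr_fol_F h.1] at h2
      rw [one_mul]
      exact h2)
    change ρ ≤ ip (dir (T.F u).2.1) ((T.b (T.F u).1).N (exP (T.K (T.F u).1) (T.F u).2)) at hgr
    rw [hF, exP_refl hxc, ip_dir_refl hxc] at hgr
    linarith [neg_abs_le (ip (dir u.2.1) ((T.b (T.F u).1).N (enP (T.K (T.F u).1) u.2)))]
  have h1 := hlim (T.lam m ^ T.cnt m k (T.F (T.F u))) ε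
    (pow_nonneg (by linarith [T.one_lt_lam m]) _)
    ((hfr.and_eventually (T.fr_eventually_inRel hx hc)).mono fun l ⟨h, hin⟩ => by
      have ht := T.fr_gd_tail h
      have hFl := T.fr_fol_F h.1
      have hdiv := (T.reflect (l₁ := u.2) (l₂ := l) hs
        (T.fr_le_δ1_of (dL_nonneg _ _) (h.2.1 0 (by omega))) (hin (T.fr_fol_hit h.1).2.2.1) le_rfl).2.1
      rw [← hF] at hdiv
      have hd1 : ∀ j ≤ k, dL (T.F^[j] (T.F u)).2 (T.F^[j] (T.F (u.1, l))).2 ≤ T.δ1 :=
        fun j hj => T.fr_le_δ1_of (dL_nonneg _ _) (ht.2.1 j (by omega))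
      rw [hFl] at ht hd1
      have he := ht.2.2
      obtain ⟨g1, g2⟩ := T.fr_end_size (fr_sgn_neg hs) ht.1 hd1 hdiv hL
        (by change dL l₀ (T.F^[k + 1 + 1] u).2 < ρ; linarith)
        (lt_of_le_of_lt (dL_triangle _ (T.F^[k + 1 + 1] u).2 _) (by
          change dL (T.F^[k + 1 + 1] u).2 _ ≤ E at he; linarith)) rfl
      have g3 := g2.trans (mul_le_mul_of_nonneg_left he (by linarith [T.D_ge]))
      exact g1.trans ((mul_le_mul_of_nonneg_left g3 (by linarith [T.one_le_C1])).trans hE))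
  obtain ⟨hdd, hit⟩ := T.dag_iter hu
  have hdom2 : T.F u ∈ T.Dom := (T.domN_succ.1 (T.domN_succ.1 hu).2).1
  have i1 : T.F^[k] (T.dag (T.F^[k + 1 + 1] u)) = T.dag (T.F (T.F u)) := by
    rw [hit k (by omega), show k + 1 + 1 - k = 2 by omega]; rfl
  have i2 : T.F^[k + 1] (T.dag (T.F^[k + 1 + 1] u)) = T.dag (T.F u) := by
    rw [hit (k + 1) (by omega), show k + 1 + 1 - (k + 1) = 1 by omega]; rfl
  refine ⟨k, T.domN_mono (by omega) hdd, T.mk_dag.2 hmk, ?_⟩
  rw [i1, i2, T.dag_dag, T.dag_F hdom2, T.dag_F hdom]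
  change |ip (dir (rev (T.F u).2).1) ((T.b (T.F u).1).N (exP (T.K (T.F u).1) (T.F u).2))| ≤ _
  have e : ip (dir (rev (T.F u).2).1) ((T.b (T.F u).1).N (exP (T.K (T.F u).1) (T.F u).2)) =
      ip (dir u.2.1) ((T.b (T.F u).1).N (enP (T.K (T.F u).1) u.2)) := by
    have := ip_dir_refl hxc
    rw [dir_rev, hF, exP_refl hxc]
    simp only [ip, Complex.neg_re, Complex.neg_im] at this ⊢
    linarith
  rw [e]
  exact T.fr_le_mul_wt h1

end Tab

end Pool.Agent.P.MP_379466_co
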