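import Pool.Agent.P.MP_379466_co.Front2

/-!
A curve of lines following `u` breaks because its limit touches an obstacle between two
collisions: the end state of `u` is close to the image of a tangent line.
-/

set_option autoImplicit false

namespace Pool.Agent.P.MP_379466_co

open Set Filter Topology

namespace Tab

variable {n : ℕ} (T : Tab n)

/-- A line `p` between `u` and `l'` when they enter the next obstacle. -/
theorem fr_between {m k : ℕ} {ρ E ε s b : ℝ} {l₀ l' p : Ln} {u : St n} (hs : s = 1 ∨ s = -1)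
    (hL : T.Loc m ρ (T.F^[k + 1] u).1 l₀) (hl : dL l₀ (T.F^[k + 1] u).2 < ρ / 2)
    (hE : (1 + T.D) * (T.C3 * E) ≤ ε) (hρ : ε ≤ ρ / 2) (hG : T.FrGd (k + 1) E u (u.1, l'))
    (hb : 0 ≤ b) (i₁ : T.InRel (T.F u).1 s u.2 p b) (i₂ : T.InRel (T.F u).1 s p l' 0)
    (e₁ : dL u.2 p ≤ T.δ2) (e₂ : dL p l' ≤ T.δ2) {q : St n}
    (hq : q = ((T.F u).1, refl (T.b (T.F u).1) p)) :
    q ∈ T.DomN k ∧ T.F^[k] q ∈ T.Mk m ∧ b ≤ ε * T.wt m k q ∧
      (T.F^[k] q).1 = (T.F^[k + 1] u).1 ∧ dL (T.F^[k + 1] u).2 (T.F^[k] q).2 ≤ ε := by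
  have hdom := (T.domN_succ.1 hG.1.1).1
  obtain ⟨hx, hF⟩ := T.hit_F hdom
  have hD := T.D_ge
  have hρ0 := hL.1
  have ht := T.fr_gd_tail hG
  have hFl := T.fr_fol_F hG.1
  have f₁ := e₁.trans T.fr_δ2_le_δ1
  have f₂ := e₂.trans T.fr_δ2_le_δ1
  have hq1 : q.1 = (T.F u).1 := by rw [hq]
  have hq2 : q.2 = refl (T.b (T.F u).1) p := by rw [hq]
  have hw2 : (T.F (u.1, l')).2 = refl (T.b (T.F u).1) l' := by rw [hFl]
  obtain ⟨hfol, hsw⟩ := T.sandwich (y := q) (fr_sgn_neg hs) ht.1 ht.2.1 hq1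
    (by rw [hq2]; exact cross_refl.2 i₁.2.1)
    (by rw [hq2, hF]; exact Table.Div.mono _ (T.reflect hs f₁ i₁ hb).2.1 hb)
    (by rw [hq2, hw2]; exact (T.reflect hs f₂ i₂ le_rfl).2.1)
    (by rw [hq2, hF]; exact (T.hrefl _ _ _ i₁.1 i₁.2.1 e₁).le)
    (by rw [hq2, hw2]; exact (T.hrefl _ _ _ i₂.1 i₂.2.1 e₂).le)
  have hidx : (T.F^[k] q).1 = (T.F^[k + 1] u).1 := (hfol.2.2 k le_rfl).symm
  have hend : dL (T.F^[k + 1] u).2 (T.F^[k] q).2 ≤ T.C3 * E :=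
    (hsw k le_rfl).2.2.2.2.trans (mul_le_mul_of_nonneg_left ht.2.2 (by linarith [T.one_le_C3]))
  have hend' := mul_le_mul_of_nonneg_left hend (show 0 ≤ 1 + T.D by linarith)
  have hend0 := dL_nonneg (T.F^[k + 1] u).2 (T.F^[k] q).2
  have hε : dL (T.F^[k + 1] u).2 (T.F^[k] q).2 ≤ ε := by nlinarith
  have hl1 : dL l₀ (T.F^[k + 1] u).2 < ρ := by linarith
  have hl2 : dL l₀ (T.F^[k] q).2 < ρ :=
    lt_of_le_of_lt (dL_triangle _ (T.F^[k + 1] u).2 _) (by linarith)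
  refine ⟨hfol.2.1, ?_, T.fr_le_mul_wt ?_, hidx, hε⟩
  · have := (hL.2.2 _ hl2).2.1
    rwa [← hidx] at this
  rcases k with _ | k
  · have hp : T.PostRel (T.F u).1 s (T.F u).2 q.2 b := by
      rw [hq2, hF]
      unfold PostRel
      rw [T.inL_refl, T.inL_refl]
      exact ⟨f₁, i₁⟩
    have h1 := (T.slope hL hl1 hl2 hs hp hb).2.1
    have h2 := (le_abs_self _).trans (T.abs_Dv_le (fr_sgn_neg hs) (T.F^[0 + 1] u).2 (T.F^[0] q).2
      (T.org_mem hL))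
    simp only [Table.cnt, Finset.range_zero, Finset.filter_empty, Finset.card_empty, pow_zero,
      one_mul]
    linarith
  · obtain ⟨-, r1, r2⟩ := T.reflect (fr_sgn_neg hs) (by rw [dL_comm]; exact f₁)
      (Table.InRel.symm _ i₁) hb
    rw [← hF, ← hq2, ← hq1] at r1 r2
    have hlam : 0 < T.lam m := by linarith [T.one_lt_lam m]
    obtain ⟨W, hW, hdiv, hWb⟩ : ∃ W, 0 ≤ W ∧ T.Div q.1 (- -s) q.2 (T.F u).2 W ∧
        T.lam m ^ T.cnt m (k + 1) q * b = T.lam m ^ T.cnt m k (T.F q) * W := by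
      rw [T.fr_cnt_succ']
      split_ifs with hm
      · exact ⟨_, by positivity, r2 m hm, by ring⟩
      · exact ⟨_, hb, r1, by ring⟩
    obtain ⟨-, g1, -, -, g2⟩ := T.fr_end_gap (m := m) (fr_sgn_neg (fr_sgn_neg hs))
      (Table.Fol.symm _ hfol)
      (fun j hj => by rw [dL_comm]; exact (hsw j (by omega)).2.2.1) hdiv hW
      (by rw [hidx]; exact hL) hl2 hl1 rfl
    have g3 : 0 ≤ T.lam m ^ T.cnt m k (T.F q) * (T.r * An (- -s) q.2 (T.F u).2) :=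
      mul_nonneg (by positivity) (mul_nonneg T.r_pos.le hdiv.1)
    have g4 := g1.trans g2
    rw [dL_comm] at g4
    change _ ≤ (1 + T.D) * dL (T.F^[k + 1 + 1] u).2 (T.F^[k + 1] q).2 at g4
    linarith

theorem fr_break_M {m k : ℕ} {ρ E ε s : ℝ} {l₀ y : Ln} {u : St n} (hs : s = 1 ∨ s = -1)
    (hL : T.Loc m ρ (T.F^[k + 1] u).1 l₀) (hl : dL l₀ (T.F^[k + 1] u).2 < ρ / 2)
    (hE : (1 + T.D) * (T.C3 * E) ≤ ε) (hρ : ε ≤ ρ / 2)
    (hfr : ∃ᶠ l in 𝓝 y, T.FrGd (k + 1) E u (u.1, l)) (hc : T.Cmp u.1 s u.2 y) {l : Fin n}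
    (hli : l ≠ u.1) (hlj : l ≠ (T.F u).1) (h₁ : 0 ≤ ip (T.ν u.1 l) (dir y.1))
    (h₂ : 0 ≤ ip (T.ν l (T.F u).1) (dir y.1)) (hm : Meets (T.K l) y) :
    T.F^[k + 1] u ∈ T.BadM m ε := by
  obtain ⟨hu, hd, hmi, hmj, -⟩ := T.fr_limit_facts hfr
  have hdom := (T.domN_succ.1 hu).1
  obtain ⟨hx, hF⟩ := T.hit_F hdom
  have hr := T.r_pos
  have hδ := T.δ2_pos
  have hδ1 := T.δ2_le
  obtain ⟨d1, d2⟩ := T.fr_small_of (dL_nonneg _ _) hd
  obtain ⟨z, hz, hz0⟩ := id hm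
  have hzB := T.K_sub_B l hz
  have hfree : ∀ x, T.Hit u.1 x (T.F u).1 → dL x y ≤ T.δ1 →
      0 < ip (T.ν u.1 l) (dir x.1) ∧ T.Free l x (T.F u).1 := fun x hx hxy => by
    have a1 := T.fr_order_near hli.symm hxy hmi hm h₁
    have a2 := T.fr_order_near hlj hxy hm hmj h₂
    have a3 := T.fr_sd_small hxy hzB
    rw [hz0, sub_zero] at a3
    exact ⟨a1, T.fr_free_mid hx hli hlj hz (by linarith) a1 a2⟩
  obtain ⟨a1, fx⟩ := hfree u.2 hx (by linarith)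
  have hnm := hx.2.2.2.2 l hli hlj a1.le fx.2.2.1.le
  obtain ⟨τ, hτ, hside⟩ := side_of_not_meets (T.b l).cvx hnm
  have hsz : 0 < s * sd u.2 z := by simpa [Dv, hz0] using hc.2 l hli a1.le z hz (Or.inr hz0)
  have hτs : τ = s := by
    have := hside z hz
    rcases hs with rfl | rfl <;> rcases hτ with rfl | rfl <;> linarith
  subst hτs
  obtain ⟨τb, hτb⟩ := fr_exists_sg hs
  set p := tanL (T.K l) τ u.2.1 with hp
  have hp1 : p.1 = u.2.1 := rfl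
  have hpar : ∀ w, sd u.2 w - sd p w = p.2 - u.2.2 := fun w => by
    simp only [sd, hp1]; ring
  set b := τ * (p.2 - u.2.2) with hb
  have hb0 : 0 < b := by
    obtain ⟨w, hw, hw0⟩ := tanL_meets (T.b l).cpt ⟨z, hz⟩ hs u.2.1
    have h3 := hpar w
    rw [hw0, sub_zero] at h3
    rw [hb, ← h3]
    exact hside w hw
  have hpz : 0 ≤ τ * sd p z := tanL_side (T.b l).cpt hs u.2.1 z hz
  have hbz : b = τ * sd u.2 z - τ * sd p z := by rw [hb, ← hpar z]; ring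
  have hb1 : b ≤ T.δ2 / 10 := by
    have h3 := T.fr_abs_sd_le (x := u.2) (y := y) hzB
    rw [hz0, sub_zero] at h3
    have h4 := abs_le.1 h3
    rcases hs with h | h <;> rw [h] at hbz hpz <;> linarith [h4.1, h4.2]
  have habs : |u.2.2 - p.2| = b := by
    rcases hs with h | h <;> rw [h] at hb
    · rw [abs_of_neg (by linarith)]; linarith
    · rw [abs_of_pos (by linarith)]; linarith
  have hdp : dL u.2 p = b := by
    unfold dL
    rw [hp1, sub_self, norm_zero, habs, max_eq_right hb0.le]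
  have hpy : dL p y ≤ T.δ1 := by
    have := dL_triangle p u.2 y
    rw [dL_comm p u.2] at this
    linarith
  set z₁ := z + (T.r / 2) • dir y.1 with hz₁
  have hz₁B : z₁ ∈ T.B l := T.mem_B hz (by
    rw [hz₁, add_sub_cancel_left, norm_smul, norm_dir, Real.norm_eq_abs, abs_of_pos (by linarith)]
    linarith)
  have hyz₁ : sd y z₁ = 0 := by rw [hz₁, sd_add_smul, cr_self, hz0]; ring
  have hpos : 0 < Dv τ p y z₁ := by
    have h3 : 0 < τ * cr (dir u.2.1) (dir y.1) := hc.1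
    simp only [Dv, hyz₁, sub_zero]
    rw [hz₁, sd_add_smul, hp1]
    nlinarith
  have ev1 : ∀ᶠ l' in 𝓝 y, 0 < An τ p l' :=
    continuousAt_const.eventually_lt (by unfold An; fun_prop) hc.1
  have ev2 : ∀ᶠ l' in 𝓝 y, 0 < Dv τ p l' z₁ :=
    continuousAt_const.eventually_lt (by unfold Dv; fun_prop) hpos
  obtain ⟨l', hG, b1, b2⟩ := (hfr.and_eventually (ev1.and ev2)).exists
  have d3 : dL u.2 l' ≤ T.δ2 / 20 := (T.fr_small_of (dL_nonneg _ _) (hG.2.1 0 (by omega))).2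
  have d4 : dL l' y ≤ T.δ1 := by
    have := dL_triangle l' u.2 y
    rw [dL_comm l' u.2] at this
    linarith
  have d5 : dL p l' ≤ T.δ2 := by
    have := dL_triangle p u.2 l'
    rw [dL_comm p u.2] at this
    linarith
  have fl := (hfree l' (T.fr_fol_hit hG.1) d4).2
  have hAn : An τ u.2 p = 0 := by simp only [An, hp1, cr_self, mul_zero]
  have v1 : T.Div l τ u.2 p b := by
    have h3 := T.fr_sd_small (x := u.2) (y := y) (by linarith) hzB
    have h4 := T.fr_sd_small hpy hzB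
    rw [hz0, sub_zero] at h3 h4
    exact ⟨hAn.ge, z, hzB, by linarith, by linarith, by simp only [Dv, hpar, hb, le_refl]⟩
  have v2 : T.Div l τ p l' 0 := by
    have h3 := T.fr_sd_small hpy hz₁B
    have h4 := T.fr_sd_small d4 hz₁B
    rw [hyz₁, sub_zero] at h3 h4
    exact ⟨b1.le, z₁, hz₁B, by linarith, by linarith, b2.le⟩
  have fp := T.sand_free hs fx fl (Table.Div.mono _ v1 hb0.le) v2 (by linarith) (by linarith)
  have i₁ := T.flight_in hs (by linarith) v1 fx fp.2.1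
  have i₂ := T.flight_in hs (by linarith) v2 fp fl.2.1
  obtain ⟨q1, q2, q3, q4, q5⟩ := T.fr_between hs hL hl hE hρ hG hb0.le
    (T.fr_inRel_mono i₁ (by rw [hAn]; linarith))
    (T.fr_inRel_mono i₂ (by have := mul_pos hr b1; linarith)) (by linarith) d5 rfl
  obtain ⟨hdd, hit⟩ := T.dag_iter hu
  have i1 : T.F^[k] (T.dag (T.F^[k + 1] u)) = ((T.F u).1, rev u.2) := by
    rw [hit k (by omega), show k + 1 - k = 1 by omega]; exact T.dag_F hdom
  refine ⟨k, l, τb, ⟨T.domN_mono (by omega) hdd, ?_⟩, ?_⟩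
  · rw [i1]
    simp only [rev_rev, Table.Th, Table.post, hτb, mem_ofPred_eq]
    exact ⟨⟨fp, q1, q2⟩, habs.trans_le q3⟩
  · unfold Table.pst
    rw [i1]
    simp only [rev_rev, Table.post, hτb]
    exact ⟨q4, q5⟩

theorem fr_break_any {m k : ℕ} {ρ E ε s : ℝ} {l₀ y : Ln} {u : St n} (hs : s = 1 ∨ s = -1)
    (hL : T.Loc m ρ (T.F^[k + 1] u).1 l₀) (hl : dL l₀ (T.F^[k + 1] u).2 < ρ / 2)
    (hE₁ : T.C1 * ((1 + T.D) * E) ≤ ε) (hE₂ : (1 + T.D) * (T.C3 * E) ≤ ε) (hE₃ : E ≤ ε)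
    (hρ : ε ≤ ρ / 2) (hfr : ∃ᶠ l in 𝓝 y, T.FrGd (k + 1) E u (u.1, l)) (hc : T.Cmp u.1 s u.2 y)
    (hn : ¬ T.Free u.1 y (T.F u).1) :
    T.F^[k + 1] u ∈ T.BadM m ε ∨ T.dag (T.F^[k + 1] u) ∈ T.BadG m ε := by
  by_cases h : Cross (T.K (T.F u).1) y
  swap
  · exact Or.inr (T.fr_break_H hs hL hl hE₁ hE₃ hρ hfr hc h)
  obtain ⟨hu, -, hmi, hmj, hν⟩ := T.fr_limit_facts hfr
  have hij := (T.hit_F (T.domN_succ.1 hu).1).1.2.1
  have h1 := T.fr_order_near hij (x := y) (by rw [dL_self]; linarith [T.δ2_pos, T.δ2_le]) hmi hmj hν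
  by_contra hcon
  refine hn ⟨hij, h, h1, fun l a1 a2 a3 a4 a5 => hcon (Or.inl ?_)⟩
  exact T.fr_break_M hs hL hl hE₂ hρ hfr hc a1 a2 a3 a4 a5

end Tab

end Pool.Agent.P.MP_379466_co
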