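import Pool.Agent.P.MP_379466_co.Front3

/-!
One side of the curve pushed forward.
-/

set_option autoImplicit false

namespace Pool.Agent.P.MP_379466_co

open Set Filter Topology

namespace Tab

variable {n : ℕ} (T : Tab n)

/-- The line `l` follows `v` for `t` steps and ends in the chart at `l₀`. -/
def FrGood (t : ℕ) (ρ : ℝ) (l₀ : Ln) (v : St n) (l : Ln) : Prop :=
  T.Fol t v (v.1, l) ∧ T.Near t (T.δ1 / 2) v (v.1, l) ∧ dL l₀ (T.F^[t] (v.1, l)).2 < ρ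

theorem fr_continuousAt_iter {j k : ℕ} (hjk : j ≤ k) {i : Fin n} {l : Ln} (h : (i, l) ∈ T.DomN k) :
    ContinuousAt (fun l' => (T.F^[j] (i, l')).2) l :=
  (((T.continuousOn_iter hjk).continuousAt ((T.isOpen_domN k).mem_nhds h)).comp
    (f := fun l' : Ln => ((i, l') : St n)) (by fun_prop)).snd

theorem fr_good_nhds {t : ℕ} {ρ : ℝ} {l₀ l : Ln} {v : St n} (h : T.FrGood t ρ l₀ v l) :
    ∀ᶠ l' in 𝓝 l, T.FrGood t ρ l₀ v l' := by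
  have h1 : ∀ᶠ l' in 𝓝 l, T.Fol t v (v.1, l') ∧ T.Near t (T.δ1 / 2) v (v.1, l') :=
    ((T.isOpen_folNear t (T.δ1 / 2)).preimage
      (f := fun l' : Ln => ((v, (v.1, l')) : St n × St n)) (by fun_prop)).mem_nhds ⟨h.1, h.2.1⟩
  have h2 : ∀ᶠ l' in 𝓝 l, dL l₀ (T.F^[t] (v.1, l')).2 < ρ :=
    ((continuous_dL continuous_const continuous_id).continuousAt.comp
      (T.fr_continuousAt_iter le_rfl h.1.2.1)).eventually_lt continuousAt_const h.2.2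
  exact (h1.and h2).mono fun l' h => ⟨h.1.1, h.1.2, h.2⟩

/-- Two good lines in diverging position are controlled by their final gap. -/
theorem fr_good_pair {m k : ℕ} {ρ s : ℝ} {l₀ l l' : Ln} {v : St n} (hs : s = 1 ∨ s = -1)
    (hL : T.Loc m ρ (T.F^[k + 1] v).1 l₀) (h : T.FrGood (k + 1) ρ l₀ v l)
    (h' : T.FrGood (k + 1) ρ l₀ v l') (hd : T.Div v.1 s l l' 0) {Q : ℝ}
    (hQ : Q = Dv ((-1) ^ (k + 1) * s) (T.F^[k + 1] (v.1, l)).2 (T.F^[k + 1] (v.1, l')).2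
      (T.org (T.F^[k + 1] v).1 l₀)) :
    T.PostRel (T.F^[k + 1] v).1 ((-1) ^ k * s) (T.F^[k + 1] (v.1, l)).2
        (T.F^[k + 1] (v.1, l')).2 0 ∧
      (k + 1) * (T.r * An s l l') ≤ Q ∧
      (∀ j ≤ k, dL (T.F^[j] (v.1, l)).2 (T.F^[j] (v.1, l')).2 ≤ T.C1 * Q) ∧
      dL (T.F^[k + 1] (v.1, l)).2 (T.F^[k + 1] (v.1, l')).2 ≤ T.C4 * Q := by
  have hf := T.fr_fol_trans h.1 h'.1
  have hidx := h.1.2.2 (k + 1) le_rfl
  have hn : ∀ j ≤ k + 1, dL (T.F^[j] (v.1, l)).2 (T.F^[j] (v.1, l')).2 ≤ T.δ1 := fun j hj => by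
    have a1 := dL_triangle (T.F^[j] (v.1, l)).2 (T.F^[j] v).2 (T.F^[j] (v.1, l')).2
    rw [dL_comm _ (T.F^[j] v).2] at a1
    linarith [h.2.1 j hj, h'.2.1 j hj]
  rw [hidx] at hL hQ ⊢
  obtain ⟨g1, -, g2, g3, -⟩ := T.fr_end_gap hs hf (fun j hj => hn j (by omega)) hd le_rfl hL
    h.2.2 h'.2.2 hQ
  refine ⟨g1, g2, fun j hj => ?_, g3⟩
  obtain ⟨i, rfl⟩ := Nat.exists_eq_add_of_le hj
  obtain ⟨W, hW, hdj, -⟩ := T.chain m hs (T.fr_fol_mono (show j ≤ j + i + 1 by omega) hf)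
    (fun a ha => hn a (by omega)) hd le_rfl
  have e1 : ∀ w : St n, T.F^[i + 1] (T.F^[j] w) = T.F^[j + i + 1] w := fun w => T.fr_iter_iter _ _ _
  have a1 := (T.fr_end_size (m := m) (k := i) (ρ := ρ) (l₀ := l₀) (Q := Q) (fr_sgn_pow j hs)
    (T.fr_fol_shift hf) (fun a ha => by rw [T.fr_iter_iter, T.fr_iter_iter]; exact hn _ (by omega))
    (Table.Div.mono _ hdj hW) (by rw [e1]; exact hL) (by rw [e1]; exact h.2.2)
    (by rw [e1]; exact h'.2.2) (by rw [e1, e1, hQ]; congr 1; ring)).1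
  have a2 : 1 ≤ T.lam m ^ T.cnt m i (T.F (T.F^[j] (v.1, l))) := one_le_pow₀ (T.one_lt_lam m).le
  nlinarith [dL_nonneg (T.F^[j] (v.1, l)).2 (T.F^[j] (v.1, l')).2]

/-- A limit of lines that follow `v` also follows `v`. -/
theorem fr_gd_of_limit {m₀ m t : ℕ} {ε₀ ρ E ε : ℝ} {l₀ y : Ln} {v : St n} (hε₀ : ε₀ ≤ T.δ2)
    (hv : v ∈ T.Deep m₀ ε₀) (hP : v ∉ T.BadP m₀ ε₀) (hG : v ∉ T.BadG m₀ ε₀)
    (hd : T.CE * dL v.2 y < ε₀) (hy : Cross (T.K v.1) y)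
    (hL : T.Loc m ρ (T.F^[t] v).1 l₀) (hl : dL l₀ (T.F^[t] v).2 < ρ / 2)
    (hE₁ : T.C1 * ((1 + T.D) * E) ≤ ε) (hE₂ : (1 + T.D) * (T.C3 * E) ≤ ε) (hE₃ : E ≤ ε)
    (hρ : ε ≤ ρ / 2) (hM : T.F^[t] v ∉ T.BadM m ε) (hG' : T.dag (T.F^[t] v) ∉ T.BadG m ε)
    (hfr : ∃ᶠ l in 𝓝 y, T.FrGd t E v (v.1, l)) : T.FrGd t E v (v.1, y) := by
  have hv0 : v ∈ T.DomN t := hfr.exists.elim fun _ h => h.1.1
  have hlim : ∀ k, T.Fol k v (v.1, y) → ∀ j ≤ k, ∀ c B : ℝ,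
      (∃ᶠ l in 𝓝 y, c * dL (T.F^[j] v).2 (T.F^[j] (v.1, l)).2 ≤ B) →
      c * dL (T.F^[j] v).2 (T.F^[j] (v.1, y)).2 ≤ B := fun k hk j hj c B h =>
    IsClosed.mem_of_frequently_of_tendsto (s := {l | c * dL (T.F^[j] v).2 l ≤ B})
      (isClosed_le (by fun_prop) continuous_const) h (T.fr_continuousAt_iter hj hk.2.1)
  have hfol : ∀ k ≤ t, T.Fol k v (v.1, y) := by
    intro k
    induction k with
    | zero =>
      exact fun _ => ⟨fun j hj => absurd hj (by omega), fun j hj => absurd hj (by omega),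
        fun j hj => by obtain rfl : j = 0 := by omega
                       rfl⟩
    | succ k ih =>
      intro hk
      have hf := ih (by omega)
      obtain ⟨k', rfl⟩ : ∃ k', t = k + (k' + 1) := ⟨t - k - 1, by omega⟩
      have hidx := hf.2.2 k le_rfl
      have hvk : T.F^[k] v ∈ T.Dom := hv0 k (by omega)
      have hcr : Cross (T.K (T.F^[k] v).1) (T.F^[k] (v.1, y)).2 := by
        rw [hidx]; exact T.cross_iter (v := (v.1, y)) hy hf.2.1 le_rfl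
      have hhit : T.Hit (T.F^[k] v).1 (T.F^[k] (v.1, y)).2 (T.F (T.F^[k] v)).1 := by
        by_contra hn
        have hfr' : ∃ᶠ l in 𝓝 (T.F^[k] (v.1, y)).2,
            T.FrGd (k' + 1) E (T.F^[k] v) ((T.F^[k] v).1, l) :=
          (T.fr_continuousAt_iter le_rfl hf.2.1).tendsto.frequently (hfr.mono fun l h => by
            have h1 := T.fr_gd_shift h
            rw [T.fr_fol_fst h1.1]
            exact h1)
        have hbr : ∀ s : ℝ, s = 1 ∨ s = -1 →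
            ¬ T.Cmp (T.F^[k] v).1 s (T.F^[k] v).2 (T.F^[k] (v.1, y)).2 := fun s hs hc => by
          have := T.fr_break_any (m := m) (ρ := ρ) (l₀ := l₀) hs (by rw [T.fr_iter_iter]; exact hL)
            (by rw [T.fr_iter_iter]; exact hl) hE₁ hE₂ hE₃ hρ hfr' hc fun h => hn ⟨hcr, h⟩
          rw [T.fr_iter_iter] at this
          exact this.elim hM hG'
        refine (T.event (w := (v.1, y)) hε₀ hv hd hf (fun j hj => ?_) (hbr 1 (Or.inl rfl))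
          (hbr (-1) (Or.inr rfl)) (Or.inl ⟨hvk, by rwa [← T.fr_iter_succ]⟩)).elim hP hG
        exact T.fr_le_δ1_of (dL_nonneg _ _)
          (hlim k hf j hj _ _ (hfr.mono fun l h => h.2.1 j (by omega)))
      have hhit' := hhit
      rw [hidx] at hhit'
      refine ⟨T.domN_mono hk hv0, T.domN_succ'.2 ⟨hf.2.1, ⟨_, hhit'⟩⟩, fun j hj => ?_⟩
      rcases Nat.lt_or_ge j (k + 1) with h | h
      · exact hf.2.2 j (by omega)
      · obtain rfl : j = k + 1 := by omega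
        rw [← T.fr_iter_succ, ← T.fr_iter_succ, T.F_of_hit hhit']
  have hf := hfol t le_rfl
  refine ⟨hf, fun j hj => hlim t hf j hj.le _ _ (hfr.mono fun l h => h.2.1 j hj), ?_⟩
  simpa using hlim t hf t le_rfl 1 E (hfr.mono fun l h => by simpa using h.2.2)

theorem fr_good_of_gd {t : ℕ} {ρ E : ℝ} {l₀ l : Ln} {v : St n} (h : T.FrGd t E v (v.1, l))
    (hl : dL l₀ (T.F^[t] v).2 < ρ / 2) (hρ : E ≤ ρ / 2) (hE : E < T.δ2) : T.FrGood t ρ l₀ v l := by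
  refine ⟨h.1, fun j hj => ?_, lt_of_le_of_lt (dL_triangle _ (T.F^[t] v).2 _) ?_⟩
  · rcases hj.lt_or_eq with hj | rfl
    · linarith [(T.fr_small_of (dL_nonneg _ _) (h.2.1 j hj)).2, T.δ2_pos, T.δ2_le]
    · linarith [h.2.2, T.δ2_le]
  · linarith [h.2.2]

/-- One side of the curve. -/
theorem fr_side {m₀ m k : ℕ} {ε₀ ρ e η E ε s a b : ℝ} {l₀ : Ln} {v : St n} {γ : ℝ → Ln}
    (hs : s = 1 ∨ s = -1) (hε₀ : ε₀ ≤ T.δ2)
    (hv : v ∈ T.Deep m₀ ε₀) (hP : v ∉ T.BadP m₀ ε₀) (hG : v ∉ T.BadG m₀ ε₀)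
    (hL : T.Loc m ρ (T.F^[k + 1] v).1 l₀) (hl : dL l₀ (T.F^[k + 1] v).2 < ρ / 2)
    (hE₁ : T.C1 * ((1 + T.D) * E) ≤ ε) (hE₂ : (1 + T.D) * (T.C3 * E) ≤ ε) (hE₃ : E ≤ ε)
    (hρ : ε ≤ ρ / 2) (hM : T.F^[k + 1] v ∉ T.BadM m ε)
    (hG' : T.dag (T.F^[k + 1] v) ∉ T.BadG m ε) (he : 0 < e) (hE₄ : η + T.C4 * e ≤ E)
    (hE₅ : E < T.δ2) (hE₆ : T.C3 * (T.C1 * e) ≤ T.δ2 / 2) (hab : a ≤ b)
    (hγ : ContinuousOn γ (Icc a b)) (hcr : ∀ τ ∈ Icc a b, Cross (T.K v.1) (γ τ))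
    (hd : ∀ τ ∈ Icc a b, T.CE * dL v.2 (γ τ) < ε₀)
    (hdiv : ∀ τ ∈ Icc a b, T.Div v.1 s (γ a) (γ τ) 0) (hf : T.Fol (k + 1) v (v.1, γ a))
    (ha₁ : ∀ j ≤ k, T.C3 * dL (T.F^[j] v).2 (T.F^[j] (v.1, γ a)).2 ≤ T.δ2 / 2)
    (ha₂ : dL (T.F^[k + 1] v).2 (T.F^[k + 1] (v.1, γ a)).2 ≤ η)
    (hb : e < (k + 1) * (T.r * An s (γ a) (γ b))) :
    ∃ c ∈ Icc a b, (∀ τ ∈ Icc a c, T.FrGd (k + 1) E v (v.1, γ τ)) ∧
      Dv ((-1) ^ (k + 1) * s) (T.F^[k + 1] (v.1, γ a)).2 (T.F^[k + 1] (v.1, γ c)).2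
        (T.org (T.F^[k + 1] v).1 l₀) = e := by
  set q : Ln → ℝ := fun l => Dv ((-1) ^ (k + 1) * s) (T.F^[k + 1] (v.1, γ a)).2
    (T.F^[k + 1] (v.1, l)).2 (T.org (T.F^[k + 1] v).1 l₀) with hq
  have hC3 : 0 ≤ T.C3 := by linarith [T.one_le_C3]
  have hC1 : 0 ≤ T.C1 := by linarith [T.one_le_C1]
  have hC4 : 0 ≤ T.C4 := by linarith [T.one_le_C4]
  have hδ := T.δ2_pos
  have hgood : ∀ l, T.FrGd (k + 1) E v (v.1, l) → T.FrGood (k + 1) ρ l₀ v l := fun l h =>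
    T.fr_good_of_gd h hl (by linarith) hE₅
  have hga : T.FrGood (k + 1) ρ l₀ v (γ a) := hgood _ ⟨hf, fun j hj => by
    linarith [ha₁ j (by omega)], by nlinarith⟩
  have hqc : ∀ l, T.FrGood (k + 1) ρ l₀ v l → ContinuousAt q l := fun l h =>
    (show Continuous fun l' => Dv ((-1) ^ (k + 1) * s) (T.F^[k + 1] (v.1, γ a)).2 l'
      (T.org (T.F^[k + 1] v).1 l₀) by unfold Dv; fun_prop).continuousAt.comp
      (T.fr_continuousAt_iter le_rfl h.1.2.1)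
  have hgd : ∀ τ ∈ Icc a b, T.FrGood (k + 1) ρ l₀ v (γ τ) → q (γ τ) ≤ e →
      T.FrGd (k + 1) E v (v.1, γ τ) := fun τ hτ h h1 => by
    obtain ⟨-, -, g1, g2⟩ := T.fr_good_pair hs hL hga h (hdiv τ hτ) (Q := q (γ τ)) rfl
    refine ⟨h.1, fun j hj => ?_, ?_⟩
    · have a1 := dL_triangle (T.F^[j] v).2 (T.F^[j] (v.1, γ a)).2 (T.F^[j] (v.1, γ τ)).2
      have a2 := (g1 j (by omega)).trans (mul_le_mul_of_nonneg_left h1 hC1)
      have a3 := mul_le_mul_of_nonneg_left (a1.trans (add_le_add le_rfl a2)) hC3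
      linarith [ha₁ j (by omega)]
    · have a1 := dL_triangle (T.F^[k + 1] v).2 (T.F^[k + 1] (v.1, γ a)).2
        (T.F^[k + 1] (v.1, γ τ)).2
      linarith [mul_le_mul_of_nonneg_left h1 hC4]
  set S := {τ ∈ Icc a b | ¬ (T.FrGood (k + 1) ρ l₀ v (γ τ) ∧ q (γ τ) < e)} with hS
  have hbS : b ∈ S := ⟨right_mem_Icc.2 hab, fun h => by
    have := (T.fr_good_pair hs hL hga h.1 (hdiv b (right_mem_Icc.2 hab)) (Q := q (γ b)) rfl).2.1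
    linarith [h.2]⟩
  have hO : IsOpen {l | T.FrGood (k + 1) ρ l₀ v l ∧ q l < e} :=
    isOpen_iff_mem_nhds.2 fun l h =>
      (T.fr_good_nhds h.1).and ((hqc l h.1).eventually_lt continuousAt_const h.2)
  have hSc : IsClosed S := hγ.preimage_isClosed_of_isClosed isClosed_Icc hO.isClosed_compl
  have hbdd : BddBelow S := ⟨a, fun τ hτ => hτ.1.1⟩
  have hc := hSc.csInf_mem ⟨b, hbS⟩ hbdd
  set c := sInf S
  have hlt : ∀ τ ∈ Ico a c, T.FrGood (k + 1) ρ l₀ v (γ τ) ∧ q (γ τ) < e := fun τ hτ => by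
    by_contra hn
    exact absurd (csInf_le hbdd ⟨⟨hτ.1, hτ.2.le.trans hc.1.2⟩, hn⟩) (not_le.2 hτ.2)
  have hac : a < c := by
    refine lt_of_le_of_ne hc.1.1 fun h => hc.2 ?_
    rw [← h]
    exact ⟨hga, by simpa [hq, Dv] using he⟩
  have hten : Tendsto γ (𝓝[Ico a c] c) (𝓝 (γ c)) :=
    (hγ c hc.1).mono fun τ hτ => ⟨hτ.1, hτ.2.le.trans hc.1.2⟩
  have : (𝓝[Ico a c] c).NeBot := right_nhdsWithin_Ico_neBot hac
  have hfr : ∃ᶠ l in 𝓝 (γ c), T.FrGd (k + 1) E v (v.1, l) ∧ q l ≤ e :=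
    hten.frequently (Eventually.frequently (eventually_mem_nhdsWithin.mono fun τ hτ =>
      ⟨hgd τ ⟨hτ.1, hτ.2.le.trans hc.1.2⟩ (hlt τ hτ).1 (hlt τ hτ).2.le, (hlt τ hτ).2.le⟩))
  have hGc := T.fr_gd_of_limit hε₀ hv hP hG (hd c hc.1) (hcr c hc.1) hL hl hE₁ hE₂ hE₃ hρ hM hG'
    (hfr.mono fun l h => h.1)
  refine ⟨c, hc.1, fun τ hτ => ?_, le_antisymm ?_ ?_⟩
  · rcases hτ.2.lt_or_eq with h | rfl
    · exact hgd τ ⟨hτ.1, hτ.2.trans hc.1.2⟩ (hlt τ ⟨hτ.1, h⟩).1 (hlt τ ⟨hτ.1, h⟩).2.le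
    · exact hGc
  · exact isClosed_Iic.mem_of_frequently_of_tendsto (hfr.mono fun l h => h.2)
      (hqc _ (hgood _ hGc))
  · exact not_lt.1 fun h => hc.2 ⟨hgood _ hGc, h⟩

end Tab

end Pool.Agent.P.MP_379466_co
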