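import Pool.Agent.P.MP_379466_co.Dyn
import Pool.Agent.P.MP_379466_co.Flat

/-!
Transport of almost everywhere constancy along light paths, and the global contradiction.
-/

set_option autoImplicit false

namespace Pool.Agent.P.MP_379466_co

open Set MeasureTheory Filter Metric
open scoped Topology Real

namespace Glob

variable {n : ℕ} (T : Table (Fin n)) (A : Set (St n))

/-- the point `pt l t` lies on the flight of a state of `A` -/
def ch (l : Ln) (t : ℝ) : Prop :=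
  ∃ i, (i, l) ∈ A ∧ tm l (exP (T.K i) l) < t ∧
    ∀ s, tm l (exP (T.K i) l) < s → s ≤ t → ∀ k, pt l s ∉ T.K k

/-- near the ray `w` the relation `ch` has almost everywhere the truth value `c` -/
def good (c : Prop) (w : Ln × ℝ) : Prop :=
  ∃ U ∈ 𝓝 w, ∀ᵐ l : Ln, ∀ t, (l, t) ∈ U → (ch T A l t ↔ c)

theorem isOpen_good (c : Prop) : IsOpen {w | good T A c w} := by
  rw [isOpen_iff_mem_nhds]
  rintro w ⟨U, hU, h⟩
  filter_upwards [eventually_mem_nhds_iff.2 hU] with w' hw'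
  exact ⟨U, hw', h⟩

theorem slice_nhds {U : Set (Ln × ℝ)} {l : Ln} {t : ℝ} (hU : U ∈ 𝓝 (l, t)) :
    {l' | (l', t) ∈ U} ∈ 𝓝 l :=
  (Continuous.prodMk_left t).continuousAt.preimage_mem_nhds hU

theorem not_both {w : Ln × ℝ} (h1 : good T A True w) (h2 : good T A False w) : False := by
  obtain ⟨U, hU, h1⟩ := h1
  obtain ⟨V, hV, h2⟩ := h2
  have h3 := slice_nhds (l := w.1) (t := w.2) (inter_mem hU hV)
  have h4 := Measure.measure_pos_of_mem_nhds (volume : Measure Ln) h3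
  refine h4.ne' (measure_eq_zero_iff_ae_notMem.2 ?_)
  filter_upwards [h1, h2] with l a b hl
  exact (b _ hl.2).1 ((a _ hl.1).2 trivial)

theorem transport {c : Prop} {φ : Ln → Ln} (hφ : Continuous φ)
    (hm : MeasurePreserving φ (volume : Measure Ln) volume) {l₀ : Ln} {t₀ t₁ : ℝ}
    {W : Set (Ln × ℝ)} (hW : W ∈ 𝓝 (l₀, t₀))
    (h : ∀ᵐ l : Ln, ∀ s, (l, s) ∈ W → (ch T A l s ↔ ch T A (φ l) t₁))
    (hg : good T A c (φ l₀, t₁)) : good T A c (l₀, t₀) := by
  obtain ⟨U, hU, hg⟩ := hg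
  have h1 : {w : Ln × ℝ | (φ w.1, t₁) ∈ U} ∈ 𝓝 (l₀, t₀) :=
    (by fun_prop : Continuous fun w : Ln × ℝ => (φ w.1, t₁)).continuousAt.preimage_mem_nhds hU
  refine ⟨_, inter_mem hW h1, ?_⟩
  filter_upwards [h, hm.quasiMeasurePreserving.ae hg] with l a b s hs
  exact (a s hs.1).trans (b _ hs.2)

theorem isOpen_before {S : Set ℂ} (h : IsCompact S) :
    IsOpen {w : Ln × ℝ | ∀ z ∈ S, sd w.1 z = 0 → w.2 < tm w.1 z} := by
  have h1 : IsClosed {p : (Ln × ℝ) × ℂ | sd p.1.1 p.2 = 0 ∧ tm p.1.1 p.2 ≤ p.1.2} :=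
    IsClosed.and (isClosed_eq (by fun_prop) continuous_const)
      (isClosed_le (by fun_prop) (by fun_prop))
  convert (isClosed_exists_cpt h h1).isOpen_compl using 1
  ext w
  simp

theorem isOpen_after {S : Set ℂ} (h : IsCompact S) :
    IsOpen {w : Ln × ℝ | ∀ z ∈ S, sd w.1 z = 0 → tm w.1 z < w.2} := by
  have h1 : IsClosed {p : (Ln × ℝ) × ℂ | sd p.1.1 p.2 = 0 ∧ p.1.2 ≤ tm p.1.1 p.2} :=
    IsClosed.and (isClosed_eq (by fun_prop) continuous_const)
      (isClosed_le (by fun_prop) (by fun_prop))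
  convert (isClosed_exists_cpt h h1).isOpen_compl using 1
  ext w
  simp

theorem exP_mem' {S : Set ℂ} (h : IsCompact S) {l : Ln} (hm : Meets S l) : exP S l ∈ S :=
  enP_mem h ((meets_rev S l).2 hm)

theorem tm_le_exP {S : Set ℂ} (h : IsCompact S) {l : Ln} {z : ℂ} (hz : z ∈ S) (h0 : sd l z = 0) :
    tm l z ≤ tm l (exP S l) := by
  have := tm_enP_le h (l := rev l) hz (by rw [sd_rev, h0, neg_zero])
  rw [tm_rev, tm_rev] at this
  exact neg_le_neg_iff.1 this

theorem pt_mem_of_convex {S : Set ℂ} (hc : Convex ℝ S) {l : Ln} {a b s : ℝ} (ha : pt l a ∈ S)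
    (hb : pt l b ∈ S) (h1 : a ≤ s) (h2 : s ≤ b) : pt l s ∈ S := by
  rcases eq_or_lt_of_le (h1.trans h2) with h | h
  · have : s = a := le_antisymm (h ▸ h2) h1
    rwa [this]
  · have h3 := hc.add_smul_sub_mem ha hb (t := (s - a) / (b - a))
      ⟨div_nonneg (by linarith) (by linarith), (div_le_one (by linarith)).2 (by linarith)⟩
    have e1 : pt l b = pt l a + (b - a) • dir l.1 := by rw [← pt_add]; congr 1; ring
    have e2 : pt l s = pt l a + (s - a) • dir l.1 := by rw [← pt_add]; congr 1; ring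
    rw [e1, add_sub_cancel_left, smul_smul, div_mul_cancel₀ _ (by linarith), ← e2] at h3
    exact h3

theorem cvx_B (j : Fin n) : Convex ℝ (T.B j) := (T.b j).cvx.cthickening _

theorem notMem_of_B {j k : Fin n} (h : k ≠ j) {z : ℂ} (hz : z ∈ T.B j) : z ∉ T.K k :=
  fun hk => disjoint_left.1 (T.disjoint_B h) (T.K_sub_B k hk) hz

theorem mem_intB {j : Fin n} {l : Ln} {a η : ℝ} (ha : pt l a ∈ T.K j) (h : |η| < T.r) :
    pt l (a + η) ∈ interior (T.B j) := by
  refine thickening_subset_interior_cthickening _ _ (mem_thickening_iff.2 ⟨_, ha, ?_⟩)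
  rw [pt_add, dist_eq_norm, add_sub_cancel_left, norm_smul, norm_dir, mul_one]
  exact h

variable {T A}

theorem cross_of_mem (hD : A ⊆ T.Dom) {i : Fin n} {l : Ln} (h : (i, l) ∈ A) : Cross (T.K i) l :=
  (hD h).choose_spec.1

theorem pt_ex {i : Fin n} {l : Ln} (h : Cross (T.K i) l) :
    pt l (tm l (exP (T.K i) l)) ∈ T.K i := by
  rw [pt_tm (sd_exP _ _)]
  exact exP_mem' (T.b i).cpt (h.meets (T.b i).cvx)

theorem pt_en' {i : Fin n} {l : Ln} (h : Cross (T.K i) l) :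
    pt l (tm l (enP (T.K i) l)) ∈ T.K i := by
  rw [pt_tm (sd_enP _ _)]
  exact enP_mem (T.b i).cpt (h.meets (T.b i).cvx)

theorem ch_free (hD : A ⊆ T.Dom) {l : Ln} {s s' : ℝ}
    (h : ∀ t ∈ uIcc s s', ∀ k, pt l t ∉ T.K k) : ch T A l s ↔ ch T A l s' := by
  wlog hs : s ≤ s' generalizing s s'
  · exact (this (by rwa [uIcc_comm]) (le_of_not_ge hs)).symm
  rw [uIcc_of_le hs] at h
  constructor
  · rintro ⟨i, hi, h1, h2⟩
    refine ⟨i, hi, by linarith, fun t ht ht' => ?_⟩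
    by_cases h3 : t ≤ s
    · exact h2 t ht h3
    · exact h t ⟨by linarith, ht'⟩
  · rintro ⟨i, hi, h1, h2⟩
    refine ⟨i, hi, ?_, fun t ht ht' => h2 t ht (by linarith)⟩
    by_contra h3
    exact h _ ⟨not_lt.1 h3, h1.le⟩ i (pt_ex (cross_of_mem hD hi))

/-- transport along a free segment -/
theorem good_free (hD : A ⊆ T.Dom) {c : Prop} {l₀ : Ln} {t₀ t₁ : ℝ}
    (h : ∀ t ∈ uIcc t₀ t₁, ∀ k, pt l₀ t ∉ T.K k) (hg : good T A c (l₀, t₁)) :
    good T A c (l₀, t₀) := by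
  have h1 : ∀ k, IsOpen {w : Ln × ℝ | ∀ z ∈ T.K k, ¬ (sd w.1 z = 0 ∧ min w.2 t₁ ≤ tm w.1 z ∧
      tm w.1 z ≤ max w.2 t₁)} := by
    intro k
    have h2 : IsClosed {p : (Ln × ℝ) × ℂ | sd p.1.1 p.2 = 0 ∧ min p.1.2 t₁ ≤ tm p.1.1 p.2 ∧
        tm p.1.1 p.2 ≤ max p.1.2 t₁} :=
      IsClosed.and (isClosed_eq (by fun_prop) continuous_const)
        (IsClosed.and (isClosed_le (by fun_prop) (by fun_prop))
          (isClosed_le (by fun_prop) (by fun_prop)))
    convert (isClosed_exists_cpt (T.b k).cpt h2).isOpen_compl using 1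
    ext w
    simp only [mem_ofPred_eq, mem_compl_iff, not_exists, not_and]
  refine transport T A continuous_id (MeasurePreserving.id _)
    ((isOpen_iInter_of_finite h1).mem_nhds ?_) (Eventually.of_forall fun l s hs => ?_) hg
  · refine mem_iInter.2 fun k z hz ⟨a, b, c⟩ => h (tm l₀ z) ⟨b, c⟩ k ?_
    rwa [pt_tm a]
  · refine ch_free hD fun t ht k hk => mem_iInter.1 hs k _ hk ⟨sd_pt _ _, ?_, ?_⟩
    · rw [tm_pt]; exact ht.1
    · rw [tm_pt]; exact ht.2

theorem ch_after (hD : A ⊆ T.Dom) {j : Fin n} {l : Ln} {t : ℝ} (hc : Cross (T.K j) l)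
    (hb : pt l t ∈ T.B j) (ht : ∀ z ∈ T.K j, sd l z = 0 → tm l z < t) :
    ch T A l t ↔ (j, l) ∈ A := by
  have he := pt_ex hc
  have h1 : tm l (exP (T.K j) l) < t := by
    have := ht _ he (sd_pt _ _)
    rwa [tm_pt] at this
  constructor
  · rintro ⟨i, hi, h2, h3⟩
    by_cases hij : i = j
    · exact hij ▸ hi
    exfalso
    by_cases h4 : tm l (exP (T.K i) l) < tm l (exP (T.K j) l)
    · exact h3 _ h4 h1.le j he
    · exact notMem_of_B T hij (pt_mem_of_convex (cvx_B T j) (T.K_sub_B j he) hb (not_lt.1 h4) h2.le)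
        (pt_ex (cross_of_mem hD hi))
  · intro h
    refine ⟨j, h, h1, fun s h2 h3 k hk => ?_⟩
    by_cases hkj : k = j
    · subst hkj
      have := tm_le_exP (T.b k).cpt hk (sd_pt l s)
      rw [tm_pt] at this
      linarith
    · exact notMem_of_B T hkj (pt_mem_of_convex (cvx_B T j) (T.K_sub_B j he) hb h2.le h3) hk

theorem refl_inj (b : Body) : Function.Injective (refl b) := by
  intro l l' h
  rw [← rev_rev l, ← refl_rev_refl b l, h, refl_rev_refl, rev_rev]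

theorem ch_before (hD : A ⊆ T.Dom) (hF : ∀ v ∈ A, T.F v ∈ A) (hB : ∀ a ∈ A, ∃ v ∈ A, T.F v = a)
    {j : Fin n} {l : Ln} {t : ℝ} (hc : Cross (T.K j) l)
    (hb : pt l t ∈ T.B j) (ht : ∀ z ∈ T.K j, sd l z = 0 → t < tm l z) :
    ch T A l t ↔ (j, refl (T.b j) l) ∈ A := by
  have he := pt_en' hc
  have h1 : t < tm l (enP (T.K j) l) := by
    have := ht _ he (sd_pt _ _)
    rwa [tm_pt] at this
  constructor
  · rintro ⟨i, hi, h2, h3⟩
    have hci := cross_of_mem hD hi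
    have hij : i ≠ j := by
      rintro rfl
      have := ht _ (pt_ex hci) (sd_pt _ _)
      rw [tm_pt] at this
      linarith
    have hh : T.Hit i l j := by
      refine T.hit_iff.2 ⟨hij, hci, hc, by linarith, fun s h4 h5 k hk => ?_⟩
      by_cases h6 : s ≤ t
      · exact h3 s h4 h6 k hk
      by_cases hkj : k = j
      · subst hkj
        have := tm_enP_le (T.b k).cpt hk (sd_pt l s)
        rw [tm_pt] at this
        linarith
      · exact notMem_of_B T hkj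
          (pt_mem_of_convex (cvx_B T j) hb (T.K_sub_B j he) (not_le.1 h6).le h5.le) hk
    have := hF _ hi
    rwa [T.F_of_hit (v := (i, l)) hh] at this
  · intro h
    obtain ⟨⟨i, l'⟩, hv, hv'⟩ := hB _ h
    obtain ⟨h2, h3⟩ := T.hit_F (hD hv)
    rw [hv'] at h2 h3
    have h4 : l = l' := refl_inj _ h3
    subst h4
    obtain ⟨hij, hci, -, h5, h6⟩ := T.hit_iff.1 h2
    refine ⟨i, hv, ?_, fun s h7 h8 => h6 s h7 (by linarith)⟩
    by_contra h7
    exact notMem_of_B T hij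
      (pt_mem_of_convex (cvx_B T j) hb (T.K_sub_B j he) (not_lt.1 h7) h5.le) (pt_ex hci)

/-- transport across a collision or a tangency -/
theorem good_refl (hD : A ⊆ T.Dom) (hF : ∀ v ∈ A, T.F v ∈ A) (hB : ∀ a ∈ A, ∃ v ∈ A, T.F v = a)
    {c : Prop} {j : Fin n} {l₀ : Ln} {t₀ t₁ : ℝ} (h0 : pt l₀ t₀ ∈ interior (T.B j))
    (h0' : ∀ z ∈ T.K j, sd l₀ z = 0 → t₀ < tm l₀ z)
    (h1 : pt (refl (T.b j) l₀) t₁ ∈ interior (T.B j))
    (h1' : ∀ z ∈ T.K j, sd (refl (T.b j) l₀) z = 0 → tm (refl (T.b j) l₀) z < t₁)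
    (hg : good T A c (refl (T.b j) l₀, t₁)) : good T A c (l₀, t₀) := by
  have hr := continuous_refl (T.b j)
  have a0 : {w : Ln × ℝ | pt w.1 w.2 ∈ interior (T.B j)} ∈ 𝓝 (l₀, t₀) :=
    (isOpen_interior.preimage (by fun_prop)).mem_nhds h0
  have a1 := (isOpen_before (T.b j).cpt).mem_nhds (x := (l₀, t₀)) h0'
  have a2 : {w : Ln × ℝ | pt (refl (T.b j) w.1) t₁ ∈ interior (T.B j)} ∈ 𝓝 (l₀, t₀) :=
    (isOpen_interior.preimage (by fun_prop)).mem_nhds h1
  have a3 : {w : Ln × ℝ | ∀ z ∈ T.K j, sd (refl (T.b j) w.1) z = 0 →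
      tm (refl (T.b j) w.1) z < t₁} ∈ 𝓝 (l₀, t₀) :=
    ((isOpen_after (T.b j).cpt).preimage
      (by fun_prop : Continuous fun w : Ln × ℝ => (refl (T.b j) w.1, t₁))).mem_nhds h1'
  refine transport T A hr (measurePreserving_refl _) (inter_mem (inter_mem a0 a1) (inter_mem a2 a3))
    ?_ hg
  filter_upwards [measure_eq_zero_iff_ae_notMem.1 (volume_tangent (T.b j).cpt)] with l hl s hs
  obtain ⟨⟨b0, b1⟩, b2, b3⟩ := hs
  by_cases hc : Cross (T.K j) l
  · rw [ch_before hD hF hB hc (interior_subset b0) b1,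
      ch_after hD (cross_refl.2 hc) (interior_subset b2) b3]
  · have hm : ¬ Meets (T.K j) l := fun h => hl ⟨h, hc⟩
    have b4 : pt l t₁ ∈ interior (T.B j) := by
      have := b2
      rwa [mem_ofPred_eq, refl_of_not_cross hc] at this
    rw [refl_of_not_cross hc]
    refine ch_free hD fun t ht k hk => ?_
    by_cases hkj : k = j
    · exact hm ⟨_, hkj ▸ hk, sd_pt _ _⟩
    · refine notMem_of_B T hkj ?_ hk
      rcases mem_uIcc.1 ht with h | h
      · exact pt_mem_of_convex (cvx_B T j) (interior_subset b0) (interior_subset b4) h.1 h.2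
      · exact pt_mem_of_convex (cvx_B T j) (interior_subset b4) (interior_subset b0) h.1 h.2

/-- transport along a segment that enters no obstacle -/
theorem good_seg (hD : A ⊆ T.Dom) (hF : ∀ v ∈ A, T.F v ∈ A) (hB : ∀ a ∈ A, ∃ v ∈ A, T.F v = a)
    {c : Prop} {l₀ : Ln} (S : Finset (Fin n)) : ∀ t₀ t₁ : ℝ, t₀ ≤ t₁ → (∀ k, pt l₀ t₀ ∉ T.K k) →
      (∀ k, pt l₀ t₁ ∉ T.K k) → (∀ s ∈ Icc t₀ t₁, ∀ k, pt l₀ s ∉ interior (T.K k)) →
      (∀ s ∈ Icc t₀ t₁, ∀ k, pt l₀ s ∈ T.K k → k ∈ S) →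
      good T A c (l₀, t₁) → good T A c (l₀, t₀) := by
  induction S using Finset.induction_on with
  | empty =>
    intro t₀ t₁ h _ _ _ hS hg
    refine good_free hD (fun t ht k hk => ?_) hg
    rw [uIcc_of_le h] at ht
    simpa using hS t ht k hk
  | insert j S hj ih =>
    intro t₀ t₁ h h0 h1 hi hS hg
    by_cases hm : ∃ s ∈ Icc t₀ t₁, pt l₀ s ∈ T.K j
    swap
    · refine ih t₀ t₁ h h0 h1 hi (fun s hs k hk => ?_) hg
      rcases Finset.mem_insert.1 (hS s hs k hk) with rfl | h2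
      · exact absurd ⟨s, hs, hk⟩ hm
      · exact h2
    obtain ⟨s, hs, hsK⟩ := hm
    have hmeet : Meets (T.K j) l₀ := ⟨_, hsK, sd_pt _ _⟩
    set a := tm l₀ (enP (T.K j) l₀) with ha
    set b := tm l₀ (exP (T.K j) l₀) with hb
    have haK : pt l₀ a ∈ T.K j := by rw [ha, pt_tm (sd_enP _ _)]; exact enP_mem (T.b j).cpt hmeet
    have hbK : pt l₀ b ∈ T.K j := by rw [hb, pt_tm (sd_exP _ _)]; exact exP_mem' (T.b j).cpt hmeet
    have hlo : ∀ z ∈ T.K j, sd l₀ z = 0 → a ≤ tm l₀ z := fun z hz h => tm_enP_le (T.b j).cpt hz h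
    have hhi : ∀ z ∈ T.K j, sd l₀ z = 0 → tm l₀ z ≤ b := fun z hz h => tm_le_exP (T.b j).cpt hz h
    have hlo' : ∀ t, pt l₀ t ∈ T.K j → a ≤ t := fun t ht => by
      simpa only [tm_pt] using hlo _ ht (sd_pt _ _)
    have hhi' : ∀ t, pt l₀ t ∈ T.K j → t ≤ b := fun t ht => by
      simpa only [tm_pt] using hhi _ ht (sd_pt _ _)
    have h2 : t₀ < a := by
      by_contra h3
      exact h0 j (pt_mem_of_convex (T.b j).cvx haK hsK (not_lt.1 h3) hs.1)
    have h3 : b < t₁ := by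
      by_contra h3
      exact h1 j (pt_mem_of_convex (T.b j).cvx hsK hbK hs.2 (not_lt.1 h3))
    have hab : a ≤ b := hlo' _ hbK
    have hnc : ¬ Cross (T.K j) l₀ := by
      intro hc
      obtain ⟨z, hz, hz0⟩ := hc.exists_interior (T.b j).cvx (T.b j).int_ne
      refine hi (tm l₀ z) ⟨?_, ?_⟩ j (by rwa [pt_tm hz0])
      · linarith [hlo z (interior_subset hz) hz0]
      · linarith [hhi z (interior_subset hz) hz0]
    obtain ⟨η, hη, e1, e2, e3⟩ : ∃ η : ℝ, 0 < η ∧ η < T.r ∧ t₀ ≤ a + -η ∧ b + η ≤ t₁ := by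
      refine ⟨min (T.r / 2) (min (a - t₀) (t₁ - b)), ?_, ?_, ?_, ?_⟩
      · exact lt_min (half_pos T.r_pos) (lt_min (by linarith) (by linarith))
      · exact (min_le_left _ _).trans_lt (half_lt_self T.r_pos)
      · linarith [(min_le_right (T.r / 2) _).trans (min_le_left (a - t₀) (t₁ - b))]
      · linarith [(min_le_right (T.r / 2) _).trans (min_le_right (a - t₀) (t₁ - b))]
    have p1 : pt l₀ (a + -η) ∈ interior (T.B j) :=
      mem_intB T haK (by rwa [abs_neg, abs_of_pos hη])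
    have p2 : pt l₀ (b + η) ∈ interior (T.B j) := mem_intB T hbK (by rwa [abs_of_pos hη])
    have q1 : ∀ k, pt l₀ (a + -η) ∉ T.K k := by
      intro k hk
      by_cases hkj : k = j
      · subst hkj
        linarith [hlo' _ hk]
      · exact notMem_of_B T hkj (interior_subset p1) hk
    have q2 : ∀ k, pt l₀ (b + η) ∉ T.K k := by
      intro k hk
      by_cases hkj : k = j
      · subst hkj
        linarith [hhi' _ hk]
      · exact notMem_of_B T hkj (interior_subset p2) hk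
    have g1 : good T A c (l₀, b + η) := by
      refine ih _ _ e3 q2 h1 (fun t ht => hi t ⟨by linarith [ht.1], ht.2⟩) (fun t ht k hk => ?_) hg
      rcases Finset.mem_insert.1 (hS t ⟨by linarith [ht.1], ht.2⟩ k hk) with rfl | h4
      · linarith [hhi' _ hk, ht.1]
      · exact h4
    have g2 : good T A c (l₀, a + -η) := by
      refine good_refl hD hF hB (t₁ := b + η) p1 (fun z hz h => by linarith [hlo z hz h]) ?_ ?_ ?_ <;>
        rw [refl_of_not_cross hnc]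
      · exact p2
      · exact fun z hz h => by linarith [hhi z hz h]
      · exact g1
    refine ih _ _ e2 h0 q1 (fun t ht => hi t ⟨ht.1, by linarith [ht.2]⟩) (fun t ht k hk => ?_) g2
    rcases Finset.mem_insert.1 (hS t ⟨ht.1, by linarith [ht.2]⟩ k hk) with rfl | h4
    · linarith [hlo' _ hk, ht.2]
    · exact h4

theorem tm_le_D {k : Fin n} {z : ℂ} (hz : z ∈ T.K k) (l : Ln) : tm l z ≤ T.D := by
  have h1 := abs_ip_le (dir l.1) z
  rw [norm_dir, one_mul] at h1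
  exact (le_abs_self _).trans (h1.trans (T.bdd k z (T.K_sub_B k hz)))

theorem good_far (hD : A ⊆ T.Dom) {l : Ln} {t : ℝ} (ht : T.D < t) : good T A False (l, t) := by
  refine ⟨{w | T.D < w.2}, (isOpen_lt continuous_const continuous_snd).mem_nhds ht,
    Eventually.of_forall fun l' s hs => ?_⟩
  rw [iff_false]
  rintro ⟨i, hi, -, h2⟩
  obtain ⟨j, hj⟩ := hD hi
  obtain ⟨-, -, hc, h3, -⟩ := T.hit_iff.1 hj
  exact h2 _ h3 ((tm_le_D (enP_mem (T.b j).cpt (hc.meets (T.b j).cvx)) l').trans (le_of_lt hs)) j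
    (pt_en' hc)

theorem good_exit (hD : A ⊆ T.Dom) {c : Prop} {j : Fin n} {l₀ : Ln} {η : ℝ}
    (hc : Cross (T.K j) l₀) (h0 : 0 < η) (h1 : η < T.r) {U : Set Ln} (hU : U ∈ 𝓝 l₀)
    (h : ∀ᵐ l : Ln, l ∈ U → ((j, l) ∈ A ↔ c)) :
    good T A c (l₀, tm l₀ (exP (T.K j) l₀) + η) := by
  have a0 : {w : Ln × ℝ | pt w.1 w.2 ∈ interior (T.B j)} ∈ 𝓝 (l₀, tm l₀ (exP (T.K j) l₀) + η) :=
    (isOpen_interior.preimage (by fun_prop)).mem_nhds
      (mem_intB T (pt_ex hc) (by rwa [abs_of_pos h0]))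
  have a1 := (isOpen_after (T.b j).cpt).mem_nhds (x := (l₀, tm l₀ (exP (T.K j) l₀) + η))
    (fun z hz h => (tm_le_exP (T.b j).cpt hz h).trans_lt (lt_add_of_pos_right _ h0))
  have a2 : {w : Ln × ℝ | w.1 ∈ U ∩ {l | Cross (T.K j) l}} ∈ 𝓝 (l₀, tm l₀ (exP (T.K j) l₀) + η) :=
    continuous_fst.continuousAt.preimage_mem_nhds (inter_mem hU ((isOpen_cross _).mem_nhds hc))
  refine ⟨_, inter_mem (inter_mem a0 a1) a2, ?_⟩
  filter_upwards [h] with l hl s hs
  rw [ch_after hD hs.2.2 (interior_subset hs.1.1) hs.1.2]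
  exact hl hs.2.1

theorem out_exit {j : Fin n} {l : Ln} {κ : ℝ} (h0 : 0 < κ)
    (hB : pt l (tm l (exP (T.K j) l) + κ) ∈ T.B j) (k : Fin n) :
    pt l (tm l (exP (T.K j) l) + κ) ∉ T.K k := by
  intro hk
  by_cases hkj : k = j
  · subst hkj
    have := tm_le_exP (T.b k).cpt hk (sd_pt l _)
    rw [tm_pt] at this
    linarith
  · exact notMem_of_B T hkj hB hk

/-- from a point after a collision back to any earlier point of the incoming flight -/
theorem good_back (hD : A ⊆ T.Dom) (hF : ∀ v ∈ A, T.F v ∈ A) (hB : ∀ a ∈ A, ∃ v ∈ A, T.F v = a)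
    {c : Prop} {j : Fin n} {l : Ln} {t κ : ℝ} (hc : Cross (T.K j) l)
    (ht : t < tm l (enP (T.K j) l)) (h0 : ∀ k, pt l t ∉ T.K k)
    (hi : ∀ s ∈ Icc t (tm l (enP (T.K j) l)), ∀ k, pt l s ∉ interior (T.K k)) (hκ : 0 < κ)
    (hb : pt (refl (T.b j) l) (tm (refl (T.b j) l) (exP (T.K j) (refl (T.b j) l)) + κ) ∈ T.B j)
    (hg : good T A c (refl (T.b j) l, tm (refl (T.b j) l) (exP (T.K j) (refl (T.b j) l)) + κ)) :
    good T A c (l, t) := by
  have hc' : Cross (T.K j) (refl (T.b j) l) := cross_refl.2 hc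
  set l' := refl (T.b j) l with hl'
  set a := tm l (enP (T.K j) l) with ha
  set b := tm l' (exP (T.K j) l') with hb'
  obtain ⟨η, hη, e1, e2, e3⟩ : ∃ η : ℝ, 0 < η ∧ η < T.r ∧ t ≤ a + -η ∧ η ≤ κ := by
    refine ⟨min (T.r / 2) (min (a - t) κ), ?_, ?_, ?_, ?_⟩
    · exact lt_min (half_pos T.r_pos) (lt_min (by linarith) hκ)
    · exact (min_le_left _ _).trans_lt (half_lt_self T.r_pos)
    · linarith [(min_le_right (T.r / 2) _).trans (min_le_left (a - t) κ)]
    · exact (min_le_right (T.r / 2) _).trans (min_le_right (a - t) κ)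
  have p1 : pt l (a + -η) ∈ interior (T.B j) :=
    mem_intB T (pt_en' hc) (by rwa [abs_neg, abs_of_pos hη])
  have p2 : pt l' (b + η) ∈ interior (T.B j) := mem_intB T (pt_ex hc') (by rwa [abs_of_pos hη])
  have g1 : good T A c (l', b + η) := by
    refine good_free hD (fun s hs k => ?_) hg
    rw [uIcc_of_le (by linarith)] at hs
    have h1 := pt_mem_of_convex (cvx_B T j) (interior_subset p2) hb hs.1 hs.2
    have e : s = b + (s - b) := by ring
    rw [e] at h1 ⊢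
    exact out_exit (by linarith [hs.1]) h1 k
  have g2 : good T A c (l, a + -η) :=
    good_refl hD hF hB p1 (fun z hz h => by linarith [tm_enP_le (T.b j).cpt hz h]) p2
      (fun z hz h => by linarith [tm_le_exP (T.b j).cpt hz h]) g1
  refine good_seg hD hF hB Finset.univ _ _ e2 h0 (fun k hk => ?_)
    (fun s hs => hi s ⟨hs.1, by linarith [hs.2]⟩) (fun _ _ _ _ => Finset.mem_univ _) g2
  by_cases hkj : k = j
  · subst hkj
    have := tm_enP_le (T.b k).cpt hk (sd_pt l _)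
    rw [tm_pt] at this
    linarith
  · exact notMem_of_B T hkj (interior_subset p1) hk

variable (T A) in
/-- the undecided rays -/
def NN : Set (ℂ × ℂ) :=
  {w | ∃ l t, w = (pt l t, dir l.1) ∧ (∀ i, pt l t ∉ T.K i) ∧ ¬ good T A True (l, t) ∧
    ¬ good T A False (l, t)}

theorem flat_NN (hD : A ⊆ T.Dom) (hF : ∀ v ∈ A, T.F v ∈ A) (hB : ∀ a ∈ A, ∃ v ∈ A, T.F v = a)
    (hL : ∀ i l₀, Cross (T.K i) l₀ → exP (T.K i) l₀ ∈ Reg (T.K i) (T.b i).N → ∃ U ∈ 𝓝 l₀,
      (∀ᵐ l : Ln, l ∈ U → (i, l) ∈ A) ∨ ∀ᵐ l : Ln, l ∈ U → (i, l) ∉ A) :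
    ∃ α : ℝ, 0 < α ∧ ∀ H ⊆ NN T A, IsCompact H → IsPreconnected H →
      (∀ w ∈ H, ∀ w' ∈ H, ‖w.2 - w'.2‖ ≤ α) → ∀ w ∈ H, ∀ w' ∈ H, w.2 = w'.2 := by
  have hseg : ∀ {c : Prop} {l : Ln} {t s : ℝ}, 0 ≤ s → (∀ i, pt l t ∉ T.K i) →
      (∀ i, pt l t + s • dir l.1 ∉ T.K i) →
      (∀ s' ∈ Icc 0 s, ∀ i, pt l t + s' • dir l.1 ∉ interior (T.K i)) →
      good T A c (l, t + s) → good T A c (l, t) := by
    intro c l t s hs h0 h1 h2
    refine good_seg hD hF hB Finset.univ _ _ (by linarith) h0 (by rwa [pt_add]) (fun u hu k => ?_)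
      (fun _ _ _ _ => Finset.mem_univ _)
    have := h2 (u - t) ⟨by linarith [hu.1], by linarith [hu.2]⟩ k
    rwa [← pt_add, add_sub_cancel] at this
  refine flat T (NN T A) ?_ ?_ ?_ ?_
  · rintro _ ⟨l, t, rfl, h, -⟩
    exact ⟨norm_dir _, h⟩
  · rintro z u ⟨l, t, he, h0, g1, g2⟩ s hs h1 h2
    obtain ⟨rfl, rfl⟩ := Prod.mk.inj he
    exact ⟨l, t + s, by rw [pt_add], by rwa [pt_add], fun g => g1 (hseg hs h0 h1 h2 g),
      fun g => g2 (hseg hs h0 h1 h2 g)⟩
  · rintro z u ⟨l, t, he, h0, -, g2⟩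
    obtain ⟨rfl, rfl⟩ := Prod.mk.inj he
    by_contra hcon
    push Not at hcon
    have hD1 := T.D_ge
    have hfar : T.D < t + (T.D + |t| + 1) := by linarith [neg_abs_le t]
    refine g2 (hseg (s := T.D + |t| + 1) (by linarith [abs_nonneg t]) h0 (fun i hi => ?_)
      (fun s' hs' i => ?_) (good_far hD hfar))
    · rw [← pt_add] at hi
      have := tm_le_D hi l
      rw [tm_pt] at this
      linarith
    · rcases eq_or_lt_of_le hs'.1 with h | h
      · rw [← h, zero_smul, add_zero]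
        exact fun hi => h0 i (interior_subset hi)
      · exact hcon i s' h
  · rintro z u ⟨l, t, he, h0, g1, g2⟩ s hs j P N hP hN hfr hi hneg
    obtain ⟨rfl, rfl⟩ := Prod.mk.inj he
    rw [← pt_add] at hP
    obtain ⟨hc, hen⟩ := (T.b j).cross_of_ip_neg hfr (hP ▸ sd_pt l _) (hN ▸ hneg)
    have htm : tm l (enP (T.K j) l) = t + s := by rw [hen, hP, tm_pt]
    have hi' : ∀ s' ∈ Icc t (tm l (enP (T.K j) l)), ∀ k, pt l s' ∉ interior (T.K k) := by
      intro u hu k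
      rw [htm] at hu
      have := hi (u - t) ⟨by linarith [hu.1], by linarith [hu.2]⟩ k
      rwa [← pt_add, add_sub_cancel] at this
    have hc' : Cross (T.K j) (refl (T.b j) l) := cross_refl.2 hc
    have hex : exP (T.K j) (refl (T.b j) l) = P := (exP_refl hc).trans hen
    have hdir : dir (refl (T.b j) l).1 = dir l.1 - (2 * ip (dir l.1) N) • N := by
      rw [dir_refl hc, hen, ← hN]
    have hback := fun (c : Prop) (κ : ℝ) =>
      good_back hD hF hB (c := c) (κ := κ) hc (by linarith) h0 hi'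
    constructor
    · intro hreg
      have hr := T.r_pos
      have hb := interior_subset (mem_intB T (pt_ex hc') (η := T.r / 2)
        (by rw [abs_of_pos (by linarith)]; linarith))
      obtain ⟨U, hU, h | h⟩ := hL j _ hc' (hex ▸ hreg)
      · refine g1 (hback _ _ (half_pos hr) hb (good_exit hD hc' (half_pos hr) (by linarith) hU ?_))
        filter_upwards [h] with l' a b
        exact iff_true_intro (a b)
      · refine g2 (hback _ _ (half_pos hr) hb (good_exit hD hc' (half_pos hr) (by linarith) hU ?_))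
        filter_upwards [h] with l' a b
        exact iff_false_intro (a b)
    · intro κ hκ hb
      have e : pt (refl (T.b j) l) (tm (refl (T.b j) l) (exP (T.K j) (refl (T.b j) l)) + κ) =
          P + κ • (dir l.1 - (2 * ip (dir l.1) N) • N) := by
        rw [pt_add, pt_tm (sd_exP _ _), hex, hdir]
      rw [← e] at hb
      exact ⟨refl (T.b j) l, _, by rw [e, hdir], out_exit hκ hb, fun g => g1 (hback _ _ hκ hb g),
        fun g => g2 (hback _ _ hκ hb g)⟩

end Glob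

open Glob in
theorem global {n : ℕ} (T : Table (Fin n)) (A : Set (St n)) (hD : A ⊆ T.Dom)
    (hF : ∀ v ∈ A, T.F v ∈ A) (hB : ∀ a ∈ A, ∃ v ∈ A, T.F v = a)
    (hL : ∀ i l₀, Cross (T.K i) l₀ → exP (T.K i) l₀ ∈ Reg (T.K i) (T.b i).N → ∃ U ∈ 𝓝 l₀,
      (∀ᵐ l : Ln, l ∈ U → (i, l) ∈ A) ∨ ∀ᵐ l : Ln, l ∈ U → (i, l) ∉ A)
    (hP : ∃ i l₀, Cross (T.K i) l₀ ∧ ∃ U ∈ 𝓝 l₀, ∀ᵐ l : Ln, l ∈ U → (i, l) ∈ A) : False := by
  obtain ⟨α, hα, hflat⟩ := flat_NN hD hF hB hL
  obtain ⟨i, l₀, hc, U, hU, hA⟩ := hP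
  have hr := T.r_pos
  set t₀ := tm l₀ (exP (T.K i) l₀) + T.r / 2 with ht₀
  have g0 : good T A True (l₀, t₀) := by
    refine good_exit hD hc (half_pos hr) (by linarith) hU ?_
    filter_upwards [hA] with l a b
    exact iff_true_intro (a b)
  have o0 : ∀ k, pt l₀ t₀ ∉ T.K k := out_exit (half_pos hr) (interior_subset
    (mem_intB T (pt_ex hc) (by rw [abs_of_pos (by linarith)]; linarith)))
  have g1 : good T A False (l₀, T.D + 1) := good_far hD (by linarith)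
  have o1 : ∀ k, pt l₀ (T.D + 1) ∉ T.K k := by
    intro k hk
    have := tm_le_D hk l₀
    rw [tm_pt] at this
    linarith
  obtain ⟨f, hf, f0, f1, hfK⟩ := joined_compl T.K (fun k => (T.b k).cpt) (fun k => (T.b k).cvx)
    (fun k => (T.b k).int_ne)
    (fun k k' h => (T.disjoint_B h).mono (T.K_sub_B k) (T.K_sub_B k')) o0 o1
  have hcoe : Continuous fun x : ℝ => l₀.1 + (x : Ang) :=
    continuous_const.add (AddCircle.continuous_mk' _)
  let R : ℝ × ℝ → Ln × ℝ := fun x =>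
    (mkL (f x.1) (l₀.1 + (x.2 : Ang)), tm (mkL (f x.1) (l₀.1 + (x.2 : Ang))) (f x.1))
  have hR : Continuous R := by
    have c1 : Continuous fun x : ℝ × ℝ => l₀.1 + (x.2 : Ang) := hcoe.comp continuous_snd
    have c2 : Continuous fun x : ℝ × ℝ => f x.1 := hf.comp continuous_fst
    exact (continuous_mkL c2 c1).prodMk (continuous_tm (continuous_mkL c2 c1) c2)
  have hRpt : ∀ x, pt (R x).1 (R x).2 = f x.1 := fun x =>
    pt_tm (by change sd (mkL _ _) _ = 0; rw [sd_mkL, sub_self]; simp [cr])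
  have hR0 : ∀ s t, f s = pt l₀ t → R (s, 0) = (l₀, t) := by
    intro s t h
    simp only [R, AddCircle.coe_zero, add_zero, h, mkL_eq (sd_pt l₀ t), tm_pt]
  have hC := (isOpen_good T A True).preimage hR
  have hD' := (isOpen_good T A False).preimage hR
  have e0 : ∀ᶠ x : ℝ in 𝓝 0, ((0 : ℝ), x) ∈ R ⁻¹' {w | good T A True w} :=
    (Continuous.prodMk_right (0 : ℝ)).continuousAt.preimage_mem_nhds
      (hC.mem_nhds (by rw [mem_preimage, hR0 0 t₀ f0]; exact g0))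
  have e1 : ∀ᶠ x : ℝ in 𝓝 0, ((1 : ℝ), x) ∈ R ⁻¹' {w | good T A False w} :=
    (Continuous.prodMk_right (1 : ℝ)).continuousAt.preimage_mem_nhds
      (hD'.mem_nhds (by rw [mem_preimage, hR0 1 _ f1]; exact g1))
  have e2 : ∀ᶠ x : ℝ in 𝓝 0, ‖dir (l₀.1 + (x : Ang)) - dir l₀.1‖ < α / 2 := by
    have c1 : Continuous fun x : ℝ => ‖dir (l₀.1 + (x : Ang)) - dir l₀.1‖ :=
      ((continuous_dir.comp hcoe).sub continuous_const).norm
    exact (isOpen_lt c1 continuous_const).mem_nhds (by simp [hα])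
  have e3 : ∀ᶠ x : ℝ in 𝓝 0, x < π := Iio_mem_nhds Real.pi_pos
  obtain ⟨a, ha, hball⟩ := Metric.nhds_basis_closedBall.eventually_iff.1 (e0.and (e1.and (e2.and e3)))
  have hb : ∀ x ∈ Icc (-a) a, x ∈ closedBall (0 : ℝ) a := fun x hx => by
    rw [mem_closedBall_zero_iff, Real.norm_eq_abs]; exact abs_le.2 hx
  obtain ⟨Γ, hΓc, hΓp, hΓs, hΓd, ⟨s₁, hs₁⟩, s₂, hs₂⟩ := hex _ _ hC hD'
    (disjoint_left.2 fun x h1 h2 => not_both T A h1 h2) (a := -a) (b := a) (by linarith)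
    (fun x hx => (hball (hb x hx)).1) (fun x hx => (hball (hb x hx)).2.1)
  let Ψ : ℝ × ℝ → ℂ × ℂ := fun x => (f x.1, dir (l₀.1 + (x.2 : Ang)))
  have hΨ : Continuous Ψ :=
    (hf.comp continuous_fst).prodMk (continuous_dir.comp (hcoe.comp continuous_snd))
  have key := hflat (Ψ '' Γ) ?_ (hΓc.image hΨ) (hΓp.image _ hΨ.continuousOn) ?_ _
    (mem_image_of_mem _ hs₁) _ (mem_image_of_mem _ hs₂)
  · have h1 : ((-a : ℝ) : Ang) = (a : ℝ) := add_left_cancel (dir_inj key)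
    have h2 : a < π := (hball (hb a ⟨by linarith, le_rfl⟩)).2.2.2
    rw [AddCircle.coe_eq_coe_iff_of_mem_Ico (a := -π) ⟨by linarith, by linarith⟩
      ⟨by linarith, by linarith⟩] at h1
    linarith
  · rintro _ ⟨x, hx, rfl⟩
    refine ⟨(R x).1, (R x).2, by rw [hRpt]; rfl, by rw [hRpt]; exact hfK _, fun g => ?_, fun g => ?_⟩
    · exact disjoint_left.1 hΓd hx (Or.inl g)
    · exact disjoint_left.1 hΓd hx (Or.inr g)
  · rintro _ ⟨x, hx, rfl⟩ _ ⟨y, hy, rfl⟩
    have h1 := (hball (hb _ (hΓs hx).2)).2.2.1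
    have h2 := (hball (hb _ (hΓs hy).2)).2.2.1
    have h3 := norm_sub_le_norm_sub_add_norm_sub (dir (l₀.1 + (x.2 : Ang))) (dir l₀.1)
      (dir (l₀.1 + (y.2 : Ang)))
    rw [norm_sub_rev] at h2
    change ‖dir (l₀.1 + (x.2 : Ang)) - dir (l₀.1 + (y.2 : Ang))‖ ≤ α
    linarith

end Pool.Agent.P.MP_379466_co
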