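import Pool.Agent.P.MP_379466_co.Lines1

/-!
Lines and bodies: the reflection map.
-/

set_option autoImplicit false

namespace Pool.Agent.P.MP_379466_co

open Set Metric Complex Filter
open scoped Real Topology

theorem ip_comm (a b : ℂ) : ip a b = ip b a := by simp [ip]; ring

theorem Body.frontier_sub (b : Body) : frontier b.K ⊆ b.K := b.cpt.isClosed.frontier_subset

theorem Body.N_of_side (b : Body) {l : Ln} {P : ℂ} {τ : ℝ} (hτ : τ = 1 ∨ τ = -1) (hP : P ∈ b.K)
    (h0 : sd l P = 0) (hs : ∀ z ∈ b.K, 0 ≤ τ * sd l z) :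
    P ∈ frontier b.K ∧ b.N P = -(τ • (I * dir l.1)) := by
  have := b.N_uniq P hP (-(τ • (I * dir l.1))) (by
    rcases hτ with rfl | rfl <;> simp [norm_dir]) (fun z hz => by
    have h1 := hs z hz
    have h2 := sd_sub l P z
    rw [h0] at h2
    have : ip (-(τ • (I * dir l.1))) (z - P) = -(τ * cr (dir l.1) (z - P)) := by
      simp [ip, cr]; ring
    rw [this, ← h2]; linarith)
  exact ⟨this.1, this.2.symm⟩

theorem Body.ip_eq_zero_of_not_cross (b : Body) {l : Ln} {P : ℂ} (hP : P ∈ b.K) (h0 : sd l P = 0)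
    (h : ¬ Cross b.K l) : P ∈ frontier b.K ∧ ip (dir l.1) (b.N P) = 0 := by
  obtain ⟨τ, hτ, hs⟩ := side_of_not_cross h
  obtain ⟨h1, h2⟩ := b.N_of_side hτ hP h0 hs
  refine ⟨h1, ?_⟩
  rw [h2]; simp [ip]; ring

theorem Body.ip_enP_neg (b : Body) {l : Ln} (h : Cross b.K l) :
    ip (dir l.1) (b.N (enP b.K l)) < 0 := by
  obtain ⟨t, ht, h1⟩ := h.enP_add_interior b.cpt b.cvx b.int_ne
  have hf := enP_frontier b.cpt (h.meets b.cvx)
  obtain ⟨ε, hε, hb⟩ := Metric.mem_nhds_iff.mp (mem_interior_iff_mem_nhds.mp (h1 t ht le_rfl))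
  have hN := b.N_norm _ hf
  have h2 := b.N_out _ hf (enP b.K l + t • dir l.1 + (ε / 2) • b.N (enP b.K l)) (hb (by
    simp only [mem_ball, dist_self_add_left, norm_smul, hN, Real.norm_eq_abs]
    rw [abs_of_pos] <;> linarith))
  have h3 := ip_self (b.N (enP b.K l))
  rw [hN] at h3
  have e : ip (b.N (enP b.K l)) (enP b.K l + t • dir l.1 + (ε / 2) • b.N (enP b.K l) - enP b.K l) =
      t * ip (dir l.1) (b.N (enP b.K l)) + ε / 2 * ip (b.N (enP b.K l)) (b.N (enP b.K l)) := by
    simp [ip]; ring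
  rw [e, h3] at h2
  by_contra hh
  nlinarith [mul_nonneg ht.le (not_lt.mp hh)]

theorem Body.ip_enP_nonpos (b : Body) {l : Ln} (h : Meets b.K l) :
    ip (dir l.1) (b.N (enP b.K l)) ≤ 0 := by
  by_cases hc : Cross b.K l
  · exact (b.ip_enP_neg hc).le
  · exact (b.ip_eq_zero_of_not_cross (enP_mem b.cpt h) (sd_enP _ _) hc).2.le

theorem Body.cross_of_ip_neg (b : Body) {l : Ln} {P : ℂ} (hP : P ∈ frontier b.K) (h0 : sd l P = 0)
    (h : ip (dir l.1) (b.N P) < 0) : Cross b.K l ∧ enP b.K l = P := by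
  refine ⟨by_contra fun hc => h.ne (b.ip_eq_zero_of_not_cross (b.frontier_sub hP) h0 hc).2,
    enP_eq (b.frontier_sub hP) h0 fun z hz hz0 => ?_⟩
  have h1 := b.N_out P hP z hz
  rw [eq_add_tm h0 hz0, add_sub_cancel_left] at h1
  have e : ip (b.N P) ((tm l z - tm l P) • dir l.1) = (tm l z - tm l P) * ip (dir l.1) (b.N P) := by
    simp [ip]; ring
  rw [e] at h1
  by_contra hh
  nlinarith

theorem Body.N_eq_of (b : Body) {P Q : ℂ} (hP : P ∈ b.K) (hQ : Q ∈ frontier b.K)
    (h : ip (b.N Q) (Q - P) ≤ 0) : b.N Q = b.N P := by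
  refine (b.N_uniq P hP _ (b.N_norm Q hQ) fun z hz => ?_).2
  have h1 := b.N_out Q hQ z hz
  have e : ip (b.N Q) (z - P) = ip (b.N Q) (z - Q) + ip (b.N Q) (Q - P) := by simp [ip]; ring
  linarith

theorem Body.continuous_Nγ (b : Body) : Continuous fun s => b.N (b.γ s) :=
  b.N_cont.comp_continuous b.γ_cd.continuous fun s => b.γ_range ▸ mem_range_self s

theorem Body.exists_param (b : Body) {P : ℂ} (hP : P ∈ frontier b.K) :
    ∃ s ∈ Ico (0 : ℝ) 1, b.γ s = P := by
  rw [← b.γ_range] at hP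
  obtain ⟨s, rfl⟩ := hP
  obtain ⟨t, ht, e⟩ := b.γ_per.exists_mem_Ico₀ one_pos s
  exact ⟨t, ht, e.symm⟩

theorem Body.N_close (b : Body) {ε : ℝ} (hε : 0 < ε) : ∃ δ, 0 < δ ∧ ∀ P ∈ frontier b.K,
    ∀ Q ∈ frontier b.K, ∀ u v : ℂ, ‖u‖ = 1 → ‖v‖ = 1 → ip u (b.N P) ≤ 0 → ip v (b.N Q) ≤ 0 →
      ‖u - v‖ ≤ δ → |cr u (Q - P)| ≤ δ → ‖b.N P - b.N Q‖ ≤ ε := by
  have hN := b.continuous_Nγ
  have hγ := b.γ_cd.continuous
  set F : Set ((ℝ × ℝ) × ℂ × ℂ) := ((Icc 0 1 ×ˢ Icc 0 1) ×ˢ (sphere 0 1 ×ˢ sphere 0 1)) ∩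
    {x | ip x.2.1 (b.N (b.γ x.1.1)) ≤ 0 ∧ ip x.2.2 (b.N (b.γ x.1.2)) ≤ 0 ∧
      ε ≤ ‖b.N (b.γ x.1.1) - b.N (b.γ x.1.2)‖} with hF
  have hFc : IsCompact F := by
    refine ((isCompact_Icc.prod isCompact_Icc).prod
      ((isCompact_sphere _ _).prod (isCompact_sphere _ _))).inter_right ?_
    refine IsClosed.and (isClosed_le ?_ continuous_const)
      (IsClosed.and (isClosed_le ?_ continuous_const) (isClosed_le continuous_const ?_))
    · exact continuous_ip (by fun_prop) (hN.comp (by fun_prop))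
    · exact continuous_ip (by fun_prop) (hN.comp (by fun_prop))
    · exact ((hN.comp (by fun_prop)).sub (hN.comp (by fun_prop))).norm
  obtain ⟨δ, hδ, h⟩ := hFc.exists_forall_le' (a := (0 : ℝ))
    (f := fun x => max ‖x.2.1 - x.2.2‖ |cr x.2.1 (b.γ x.1.2 - b.γ x.1.1)|)
    (Continuous.continuousOn (by fun_prop)) (by
      rintro ⟨⟨s, t⟩, u, v⟩ ⟨⟨-, hu, -⟩, h1, h2, h3⟩
      by_contra hh
      have h4 : ‖u - v‖ ≤ 0 := (le_max_left _ _).trans (not_lt.mp hh)
      have h5 : |cr u (b.γ t - b.γ s)| ≤ 0 := (le_max_right _ _).trans (not_lt.mp hh)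
      obtain rfl : u = v := sub_eq_zero.mp (norm_le_zero_iff.mp h4)
      have e := decomp (by simpa using hu : ‖u‖ = 1) (b.γ t - b.γ s)
      rw [abs_nonpos_iff.mp h5, zero_smul, add_zero] at e
      have fs : b.γ s ∈ frontier b.K := b.γ_range ▸ mem_range_self s
      have ft : b.γ t ∈ frontier b.K := b.γ_range ▸ mem_range_self t
      simp only at h1 h2 h3
      set a := ip u (b.γ t - b.γ s)
      have : b.N (b.γ s) = b.N (b.γ t) := by
        rcases le_total 0 a with ha | ha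
        · refine (b.N_eq_of (b.frontier_sub fs) ft ?_).symm
          rw [e, show ip (b.N (b.γ t)) (a • u) = a * ip u (b.N (b.γ t)) by simp [ip]; ring]
          exact mul_nonpos_of_nonneg_of_nonpos ha h2
        · refine b.N_eq_of (b.frontier_sub ft) fs ?_
          rw [← neg_sub, e,
            show ip (b.N (b.γ s)) (-(a • u)) = -a * ip u (b.N (b.γ s)) by simp [ip]; ring]
          exact mul_nonpos_of_nonneg_of_nonpos (by linarith) h1
      rw [this, sub_self, norm_zero] at h3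
      linarith)
  refine ⟨δ / 2, by linarith, fun P hP Q hQ u v hu hv h1 h2 h3 h4 => ?_⟩
  obtain ⟨s, hs, rfl⟩ := b.exists_param hP
  obtain ⟨t, ht, rfl⟩ := b.exists_param hQ
  by_contra hh
  have := h ((s, t), u, v) ⟨⟨⟨Ico_subset_Icc_self hs, Ico_subset_Icc_self ht⟩, by simpa using hu,
    by simpa using hv⟩, h1, h2, (not_le.mp hh).le⟩
  have := this.trans (max_le h3 h4)
  linarith

theorem Body.isClosed_SC (b : Body) (m : ℕ) : IsClosed (SC b.K b.N m) := by
  have e : SC b.K b.N m = frontier b.K ∩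
      ⋂ z ∈ b.K, {P ∈ frontier b.K | ‖P - z‖ ^ 2 ≤ m * ip (b.N P) (P - z)} := by
    ext P
    simp only [SC, mem_ofPred, mem_inter_iff, mem_iInter]
    exact ⟨fun h => ⟨h.1, fun z hz => ⟨h.1, h.2 z hz⟩⟩, fun h => ⟨h.1, fun z hz => (h.2 z hz).2⟩⟩
  rw [e]
  refine isClosed_frontier.inter (isClosed_biInter fun z _ =>
    isClosed_frontier.isClosed_le (by fun_prop) ?_)
  have := b.N_cont
  unfold ip
  fun_prop

theorem refl_of_not_cross {b : Body} {l : Ln} (h : ¬ Cross b.K l) : refl b l = l := if_neg h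

theorem refl_of_cross {b : Body} {l : Ln} (h : Cross b.K l) :
    refl b l = mkL (enP b.K l) (ang (-(b.N (enP b.K l)) ^ 2) - l.1) := if_pos h

theorem Body.norm_N_enP (b : Body) {l : Ln} (h : Cross b.K l) : ‖b.N (enP b.K l)‖ = 1 :=
  b.N_norm _ (enP_frontier b.cpt (h.meets b.cvx))

theorem dir_refl {b : Body} {l : Ln} (h : Cross b.K l) : dir (refl b l).1 =
    dir l.1 - (2 * ip (dir l.1) (b.N (enP b.K l))) • b.N (enP b.K l) := by
  have hN := b.norm_N_enP h
  rw [refl_of_cross h, mkL, sub_eq_add_neg, dir_add, dir_neg, dir_ang (by simp [hN])]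
  have := unit_sq hN
  apply Complex.ext
  · simp [ip, sq]; linear_combination (dir l.1).re * this
  · simp [ip, sq]; linear_combination (dir l.1).im * this

theorem sd_refl_enP {b : Body} {l : Ln} (h : Cross b.K l) : sd (refl b l) (enP b.K l) = 0 := by
  rw [refl_of_cross h, sd_mkL]; simp [cr]

theorem ip_dir_refl {b : Body} {l : Ln} (h : Cross b.K l) :
    ip (dir (refl b l).1) (b.N (enP b.K l)) = -ip (dir l.1) (b.N (enP b.K l)) := by
  have := unit_sq (b.norm_N_enP h)
  rw [dir_refl h]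
  simp [ip]
  linear_combination (-2 * ((dir l.1).re * (b.N (enP b.K l)).re +
    (dir l.1).im * (b.N (enP b.K l)).im)) * this

theorem cross_rev_refl {b : Body} {l : Ln} (h : Cross b.K l) :
    Cross b.K (rev (refl b l)) ∧ enP b.K (rev (refl b l)) = enP b.K l := by
  refine b.cross_of_ip_neg (enP_frontier b.cpt (h.meets b.cvx))
    (by rw [sd_rev, sd_refl_enP h, neg_zero]) ?_
  have h1 := ip_dir_refl h
  have h2 := b.ip_enP_neg h
  rw [dir_rev]
  simp only [ip, neg_re, neg_im] at *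
  linarith

theorem cross_refl {b : Body} {l : Ln} : Cross b.K (refl b l) ↔ Cross b.K l := by
  refine ⟨fun h => by_contra fun hc => hc (by rwa [refl_of_not_cross hc] at h), fun h => ?_⟩
  exact (cross_rev _ _).mp (cross_rev_refl h).1

theorem exP_refl {b : Body} {l : Ln} (h : Cross b.K l) : exP b.K (refl b l) = enP b.K l :=
  (cross_rev_refl h).2

theorem refl_rev_refl (b : Body) (l : Ln) : refl b (rev (refl b l)) = rev l := by
  by_cases h : Cross b.K l
  · obtain ⟨h1, h2⟩ := cross_rev_refl h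
    refine ln_ext (z := enP b.K l) (dir_inj ?_) ?_
    · have h3 := ip_dir_refl h
      rw [dir_refl h1, h2, dir_rev, dir_rev,
        show ∀ u N : ℂ, ip (-u) N = -ip u N from fun u N => by simp [ip]; ring, h3, dir_refl h]
      simp
    · rw [sd_rev, sd_enP, neg_zero, ← h2, sd_refl_enP h1]
  · rw [refl_of_not_cross h, refl_of_not_cross (by rwa [cross_rev])]

theorem tendsto_iff_dL {X : Type*} {F : Filter X} {f : X → Ln} {l : Ln} :
    Tendsto f F (𝓝 l) ↔ ∀ ε, 0 < ε → ∀ᶠ y in F, dL l (f y) < ε := by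
  constructor
  · intro h ε hε
    exact h.eventually (mem_nhds_dL.mpr ⟨ε, hε, fun _ h => h⟩)
  · intro h U hU
    obtain ⟨δ, hδ, h1⟩ := mem_nhds_dL.mp hU
    exact mem_of_superset (h δ hδ) fun y hy => h1 _ hy

theorem dL_le_of {l₁ l₂ : Ln} {z : ℂ} {a e : ℝ} (h₁ : ‖dir l₁.1 - dir l₂.1‖ ≤ a)
    (h₂ : |sd l₁ z - sd l₂ z| ≤ e) : dL l₁ l₂ ≤ (1 + ‖z‖) * a + e := by
  have a0 : 0 ≤ a := (norm_nonneg _).trans h₁
  have e0 : 0 ≤ e := (abs_nonneg _).trans h₂
  have z0 := norm_nonneg z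
  refine max_le (by nlinarith) ?_
  have e1 : l₁.2 - l₂.2 = cr (dir l₁.1 - dir l₂.1) z - (sd l₁ z - sd l₂ z) := by
    simp [sd, cr]; ring
  rw [e1]
  have h3 := abs_cr_le (dir l₁.1 - dir l₂.1) z
  have h4 := abs_sub (cr (dir l₁.1 - dir l₂.1) z) (sd l₁ z - sd l₂ z)
  nlinarith

theorem dL_refl_le {b : Body} {l : Ln} (h : Cross b.K l) :
    dL l (refl b l) ≤ (1 + ‖enP b.K l‖) * (2 * |ip (dir l.1) (b.N (enP b.K l))|) := by
  have := dL_le_of (l₁ := l) (l₂ := refl b l) (z := enP b.K l) (e := 0)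
    (a := 2 * |ip (dir l.1) (b.N (enP b.K l))|) (by
      rw [dir_refl h, sub_sub_cancel, norm_smul, b.norm_N_enP h]; simp)
    (by rw [sd_enP, sd_refl_enP h]; simp)
  simpa using this

theorem continuous_refl (b : Body) : Continuous (refl b) := by
  refine continuous_iff_continuousAt.mpr fun l => ?_
  by_cases hc : Cross b.K l
  · have hn : {l | Cross b.K l} ∈ 𝓝 l := (isOpen_cross _).mem_nhds hc
    have h1 := (continuousOn_enP b.cpt b.cvx b.int_ne)
    have h2 : ContinuousOn (fun l => b.N (enP b.K l)) {l | Cross b.K l} :=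
      b.N_cont.comp h1 fun l hl => enP_frontier b.cpt (Cross.meets b.cvx hl)
    have h3 : ContinuousOn (fun l => (refl b l).1) {l | Cross b.K l} := by
      rw [isEmbedding_dir.continuousOn_iff]
      refine ContinuousOn.congr (f := fun l => dir l.1 -
        (2 * ip (dir l.1) (b.N (enP b.K l))) • b.N (enP b.K l)) ?_ fun l hl => dir_refl hl
      unfold ip
      fun_prop
    refine ContinuousOn.continuousAt (ContinuousOn.congr
      (f := fun l => mkL (enP b.K l) (refl b l).1) ?_ fun l hl => (mkL_eq (sd_refl_enP hl)).symm) hn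
    exact (continuous_mkL continuous_fst continuous_snd).comp_continuousOn (h1.prodMk h3)
  · by_cases hm : Meets b.K l
    · obtain ⟨z, hz, h0⟩ := hm
      obtain ⟨hf, hz0⟩ := b.ip_eq_zero_of_not_cross hz h0 hc
      obtain ⟨R, hR⟩ := b.cpt.isBounded.exists_norm_le
      have R0 : 0 ≤ R := (norm_nonneg _).trans (hR z hz)
      rw [ContinuousAt, refl_of_not_cross hc, tendsto_iff_dL]
      intro ε hε
      set η := ε / (8 * (1 + R)) with hη
      have η0 : 0 < η := by positivity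
      obtain ⟨δ, hδ, hN⟩ := b.N_close η0
      have : ∀ᶠ y in 𝓝 l, dL l y < min (min η (ε / 2)) (δ / (1 + R)) :=
        mem_nhds_dL.mpr ⟨_, by positivity, fun _ h => h⟩
      filter_upwards [this] with y hy
      have y1 : dL l y < η := hy.trans_le ((min_le_left _ _).trans (min_le_left _ _))
      have y2 : dL l y < ε / 2 := hy.trans_le ((min_le_left _ _).trans (min_le_right _ _))
      have y3 : dL l y * (1 + R) < δ := (lt_div_iff₀ (by linarith)).mp
        (hy.trans_le (min_le_right _ _))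
      have y0 := dL_nonneg l y
      by_cases hy' : Cross b.K y
      · have hP := enP_mem b.cpt (hy'.meets b.cvx)
        have a1 := dir_le_dL l y
        have h1 := hN z hf _ (enP_frontier b.cpt (hy'.meets b.cvx)) _ _ (norm_dir l.1)
          (norm_dir y.1) hz0.le (b.ip_enP_neg hy').le (by nlinarith) (by
            have := abs_sd_sub_le l y (enP b.K y)
            rw [← sd_sub, h0]
            rw [sd_enP] at this
            nlinarith [hR _ hP])
        have e : ip (dir y.1) (b.N (enP b.K y)) = -ip (dir l.1 - dir y.1) (b.N (enP b.K y)) -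
            ip (dir l.1) (b.N z - b.N (enP b.K y)) + ip (dir l.1) (b.N z) := by
          simp [ip]; ring
        have h2 := abs_ip_le (dir l.1 - dir y.1) (b.N (enP b.K y))
        have h3 := abs_ip_le (dir l.1) (b.N z - b.N (enP b.K y))
        rw [b.norm_N_enP hy', mul_one] at h2
        rw [norm_dir, one_mul] at h3
        have h4 : |ip (dir y.1) (b.N (enP b.K y))| ≤ 2 * η := by
          rw [e, hz0, abs_le]
          constructor <;> linarith [abs_le.mp h2, abs_le.mp h3]
        have h5 : (1 + ‖enP b.K y‖) * (2 * |ip (dir y.1) (b.N (enP b.K y))|) ≤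
            (1 + R) * (2 * (2 * η)) := by gcongr; exact hR _ hP
        have h6 : (1 + R) * (2 * (2 * η)) = ε / 2 := by rw [hη]; field_simp; ring
        linarith [dL_triangle l y (refl b y), dL_refl_le hy']
      · rw [refl_of_not_cross hy']; linarith
    · refine continuousAt_id.congr ?_
      filter_upwards [(isClosed_meets b.cpt).isOpen_compl.mem_nhds hm] with y hy
      exact (refl_of_not_cross fun h => hy (h.meets b.cvx)).symm

end Pool.Agent.P.MP_379466_co
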