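import Pool.Agent.P.MP_379466_co.Defs

/-!
Vectors, directions and lines.
-/

set_option autoImplicit false

namespace Pool.Agent.P.MP_379466_co

open Set Metric Complex
open scoped Real Topology

theorem inner_eq_ip (a b : ℂ) : inner ℝ a b = ip a b := by
  simp [ip, Complex.inner]; ring

theorem ip_self (a : ℂ) : ip a a = ‖a‖ ^ 2 := by
  rw [Complex.sq_norm, normSq_apply]; rfl

theorem ip_sq_add_cr_sq (a b : ℂ) : ip a b ^ 2 + cr a b ^ 2 = ‖a‖ ^ 2 * ‖b‖ ^ 2 := by
  rw [Complex.sq_norm, Complex.sq_norm, normSq_apply, normSq_apply, ip, cr]; ring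

theorem abs_ip_le (a b : ℂ) : |ip a b| ≤ ‖a‖ * ‖b‖ := by
  refine abs_le_of_sq_le_sq' ?_ (by positivity) |> abs_le.mpr
  nlinarith [ip_sq_add_cr_sq a b, sq_nonneg (cr a b)]

theorem abs_cr_le (a b : ℂ) : |cr a b| ≤ ‖a‖ * ‖b‖ := by
  refine abs_le_of_sq_le_sq' ?_ (by positivity) |> abs_le.mpr
  nlinarith [ip_sq_add_cr_sq a b, sq_nonneg (ip a b)]

theorem unit_sq {u : ℂ} (h : ‖u‖ = 1) : u.re ^ 2 + u.im ^ 2 = 1 := by
  have := ip_self u
  rw [h, ip] at this
  nlinarith

theorem decomp {u : ℂ} (h : ‖u‖ = 1) (z : ℂ) : z = ip u z • u + cr u z • (I * u) := by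
  have := unit_sq h
  apply Complex.ext
  · simp [ip, cr]; linear_combination (-z.re) * this
  · simp [ip, cr]; linear_combination (-z.im) * this

@[fun_prop] theorem continuous_ip {X : Type*} [TopologicalSpace X] {f g : X → ℂ} (hf : Continuous f)
    (hg : Continuous g) : Continuous fun x => ip (f x) (g x) := by
  unfold ip; fun_prop

@[fun_prop] theorem continuous_cr {X : Type*} [TopologicalSpace X] {f g : X → ℂ} (hf : Continuous f)
    (hg : Continuous g) : Continuous fun x => cr (f x) (g x) := by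
  unfold cr; fun_prop

theorem norm_dir (θ : Ang) : ‖dir θ‖ = 1 := Circle.norm_coe _

theorem dir_coe (x : ℝ) : dir (x : Ang) = exp (x * I) := by
  rw [dir, AddCircle.homeomorphCircle'_apply_mk, Circle.coe_exp]

theorem dir_add (a b : Ang) : dir (a + b) = dir a * dir b := by
  induction a using QuotientAddGroup.induction_on
  induction b using QuotientAddGroup.induction_on
  rw [← QuotientAddGroup.mk_add, dir_coe, dir_coe, dir_coe, ← exp_add]
  push_cast; ring_nf

theorem dir_neg (a : Ang) : dir (-a) = (starRingEnd ℂ) (dir a) := by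
  induction a using QuotientAddGroup.induction_on
  rw [← QuotientAddGroup.mk_neg, dir_coe, dir_coe, ← exp_conj]
  simp

theorem dir_pi : dir ((π : ℝ) : Ang) = -1 := by rw [dir_coe, exp_pi_mul_I]

theorem dir_ang {w : ℂ} (h : ‖w‖ = 1) : dir (ang w) = w := by
  have := norm_mul_exp_arg_mul_I w
  rw [h] at this
  rw [ang, dir_coe]; simpa using this

theorem dir_inj : Function.Injective dir :=
  Subtype.val_injective.comp AddCircle.homeomorphCircle'.injective

theorem ang_dir (θ : Ang) : ang (dir θ) = θ := dir_inj (dir_ang (norm_dir θ))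

@[fun_prop] theorem continuous_dir : Continuous dir :=
  continuous_subtype_val.comp AddCircle.homeomorphCircle'.continuous

theorem isEmbedding_dir : Topology.IsEmbedding dir :=
  Topology.IsEmbedding.subtypeVal.comp AddCircle.homeomorphCircle'.isEmbedding

theorem sd_pt (l : Ln) (t : ℝ) : sd l (pt l t) = 0 := by
  have := unit_sq (norm_dir l.1)
  simp [sd, pt, cr]; linear_combination l.2 * this

theorem tm_pt (l : Ln) (t : ℝ) : tm l (pt l t) = t := by
  have := unit_sq (norm_dir l.1)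
  simp [tm, pt, ip]; linear_combination t * this

theorem pt_tm {l : Ln} {z : ℂ} (h : sd l z = 0) : pt l (tm l z) = z := by
  have h2 : l.2 = cr (dir l.1) z := by unfold sd at h; linarith
  conv_rhs => rw [decomp (norm_dir l.1) z]
  rw [pt, tm, h2]; simp; ring

theorem pt_add (l : Ln) (t s : ℝ) : pt l (t + s) = pt l t + s • dir l.1 := by
  simp [pt]; ring

theorem sd_add_smul (l : Ln) (z u : ℂ) (t : ℝ) :
    sd l (z + t • u) = sd l z + t * cr (dir l.1) u := by
  simp [sd, cr]; ring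

theorem tm_add_smul (l : Ln) (z u : ℂ) (t : ℝ) :
    tm l (z + t • u) = tm l z + t * ip (dir l.1) u := by
  simp [tm, ip]; ring

theorem sd_sub (l : Ln) (z w : ℂ) : sd l w - sd l z = cr (dir l.1) (w - z) := by
  simp [sd, cr]; ring

theorem tm_sub (l : Ln) (z w : ℂ) : tm l w - tm l z = ip (dir l.1) (w - z) := by
  simp [tm, ip]; ring

theorem sd_mkL (z w : ℂ) (θ : Ang) : sd (mkL z θ) w = cr (dir θ) (w - z) := by
  simp [sd, mkL, cr]; ring

theorem mkL_eq {l : Ln} {z : ℂ} (h : sd l z = 0) : mkL z l.1 = l := by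
  refine Prod.ext rfl ?_
  unfold sd at h
  simp only [mkL]; linarith

theorem ln_ext {l₁ l₂ : Ln} {z : ℂ} (h₁ : l₁.1 = l₂.1) (h₂ : sd l₁ z = sd l₂ z) : l₁ = l₂ := by
  refine Prod.ext h₁ ?_
  unfold sd at h₂
  rw [h₁] at h₂; linarith

theorem dir_rev (l : Ln) : dir (rev l).1 = -dir l.1 := by
  simp [rev, dir_add, dir_pi]

theorem sd_rev (l : Ln) (z : ℂ) : sd (rev l) z = -sd l z := by
  unfold sd; rw [dir_rev]; simp [rev, cr]; ring

theorem tm_rev (l : Ln) (z : ℂ) : tm (rev l) z = -tm l z := by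
  unfold tm; rw [dir_rev]; simp [ip]; ring

theorem rev_rev (l : Ln) : rev (rev l) = l := by
  refine ln_ext (z := 0) (dir_inj ?_) ?_
  · rw [dir_rev, dir_rev, neg_neg]
  · rw [sd_rev, sd_rev, neg_neg]

theorem meets_rev (S : Set ℂ) (l : Ln) : Meets S (rev l) ↔ Meets S l := by
  simp [Meets, sd_rev]

theorem cross_rev (S : Set ℂ) (l : Ln) : Cross S (rev l) ↔ Cross S l := by
  simp [Cross, sd_rev, and_comm]

@[fun_prop] theorem continuous_rev : Continuous rev := by
  unfold rev; fun_prop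

@[fun_prop] theorem continuous_pt {X : Type*} [TopologicalSpace X] {f : X → Ln} {g : X → ℝ}
    (hf : Continuous f) (hg : Continuous g) : Continuous fun x => pt (f x) (g x) := by
  unfold pt; fun_prop

@[fun_prop] theorem continuous_sd {X : Type*} [TopologicalSpace X] {f : X → Ln} {g : X → ℂ}
    (hf : Continuous f) (hg : Continuous g) : Continuous fun x => sd (f x) (g x) := by
  unfold sd; fun_prop

@[fun_prop] theorem continuous_tm {X : Type*} [TopologicalSpace X] {f : X → Ln} {g : X → ℂ}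
    (hf : Continuous f) (hg : Continuous g) : Continuous fun x => tm (f x) (g x) := by
  unfold tm; fun_prop

@[fun_prop] theorem continuous_mkL {X : Type*} [TopologicalSpace X] {f : X → ℂ} {g : X → Ang}
    (hf : Continuous f) (hg : Continuous g) : Continuous fun x => mkL (f x) (g x) := by
  unfold mkL; fun_prop

@[fun_prop] theorem continuous_dL {X : Type*} [TopologicalSpace X] {f g : X → Ln}
    (hf : Continuous f) (hg : Continuous g) : Continuous fun x => dL (f x) (g x) := by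
  unfold dL; fun_prop

theorem dL_nonneg (l₁ l₂ : Ln) : 0 ≤ dL l₁ l₂ := le_max_of_le_left (norm_nonneg _)

theorem dL_self (l : Ln) : dL l l = 0 := by simp [dL]

theorem dL_comm (l₁ l₂ : Ln) : dL l₁ l₂ = dL l₂ l₁ := by
  rw [dL, dL, norm_sub_rev, abs_sub_comm]

theorem dir_le_dL (l₁ l₂ : Ln) : ‖dir l₁.1 - dir l₂.1‖ ≤ dL l₁ l₂ := le_max_left _ _

theorem snd_le_dL (l₁ l₂ : Ln) : |l₁.2 - l₂.2| ≤ dL l₁ l₂ := le_max_right _ _

theorem dL_triangle (l₁ l₂ l₃ : Ln) : dL l₁ l₃ ≤ dL l₁ l₂ + dL l₂ l₃ :=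
  max_le ((norm_sub_le_norm_sub_add_norm_sub _ _ _).trans
    (add_le_add (dir_le_dL _ _) (dir_le_dL _ _)))
    ((abs_sub_le _ _ _).trans (add_le_add (snd_le_dL _ _) (snd_le_dL _ _)))

theorem dL_rev (l₁ l₂ : Ln) : dL (rev l₁) (rev l₂) = dL l₁ l₂ := by
  rw [dL, dL, dir_rev, dir_rev, neg_sub_neg, norm_sub_rev]
  simp only [rev, neg_sub_neg]
  rw [abs_sub_comm]

theorem mem_nhds_dL {U : Set Ln} {l : Ln} :
    U ∈ 𝓝 l ↔ ∃ δ, 0 < δ ∧ ∀ l', dL l l' < δ → l' ∈ U := by
  have he : Topology.IsEmbedding (Prod.map dir (id : ℝ → ℝ)) :=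
    isEmbedding_dir.prodMap Topology.IsEmbedding.id
  rw [he.isInducing.nhds_eq_comap, Filter.mem_comap]
  have hd : ∀ l' : Ln, dist (Prod.map dir id l') (Prod.map dir (id : ℝ → ℝ) l) = dL l l' := by
    intro l'
    rw [dL_comm, Prod.dist_eq, dL, dist_eq_norm, Real.dist_eq]; rfl
  constructor
  · rintro ⟨V, hV, hVU⟩
    obtain ⟨δ, hδ, h⟩ := Metric.mem_nhds_iff.mp hV
    exact ⟨δ, hδ, fun l' hl' => hVU (h (by rw [mem_ball, hd]; exact hl'))⟩
  · rintro ⟨δ, hδ, h⟩
    exact ⟨_, ball_mem_nhds _ hδ, fun l' hl' => h l' (by rw [← hd]; exact hl')⟩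

theorem abs_sd_sub_le (l₁ l₂ : Ln) (z : ℂ) : |sd l₁ z - sd l₂ z| ≤ (1 + ‖z‖) * dL l₁ l₂ := by
  have e : sd l₁ z - sd l₂ z = cr (dir l₁.1 - dir l₂.1) z - (l₁.2 - l₂.2) := by
    simp [sd, cr]; ring
  rw [e]
  have h1 := abs_cr_le (dir l₁.1 - dir l₂.1) z
  have h2 := mul_le_mul_of_nonneg_right (dir_le_dL l₁ l₂) (norm_nonneg z)
  have h3 := snd_le_dL l₁ l₂
  have h4 := abs_sub (cr (dir l₁.1 - dir l₂.1) z) (l₁.2 - l₂.2)
  nlinarith

end Pool.Agent.P.MP_379466_co
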