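import Pool.Agent.P.MP_379466_co.Lines0

/-!
Lines and convex sets.
-/

set_option autoImplicit false

namespace Pool.Agent.P.MP_379466_co

open Set Metric Complex Filter
open scoped Real Topology

theorem isOpen_cross (S : Set ℂ) : IsOpen {l | Cross S l} := by
  have e : {l | Cross S l} = (⋃ z ∈ S, {l | sd l z < 0}) ∩ ⋃ z ∈ S, {l | 0 < sd l z} := by
    ext l; simp [Cross]
  rw [e]
  refine IsOpen.inter ?_ ?_ <;> refine isOpen_biUnion fun z _ => isOpen_lt (by fun_prop) (by fun_prop)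

theorem isCompact_meets {S : Set ℂ} (h : IsCompact S) : IsCompact {l | Meets S l} := by
  have e : {l | Meets S l} = (fun x : ℂ × Ang => mkL x.1 x.2) '' (S ×ˢ univ) := by
    ext l
    constructor
    · rintro ⟨z, hz, h0⟩
      exact ⟨(z, l.1), ⟨hz, trivial⟩, mkL_eq h0⟩
    · rintro ⟨x, hx, rfl⟩
      exact ⟨x.1, hx.1, by simp [sd_mkL, cr]⟩
  rw [e]
  exact (h.prod isCompact_univ).image (by fun_prop)

theorem isClosed_meets {S : Set ℂ} (h : IsCompact S) : IsClosed {l | Meets S l} :=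
  (isCompact_meets h).isClosed

theorem sd_lerp (l : Ln) (z w : ℂ) (t : ℝ) :
    sd l (z + t • (w - z)) = sd l z + t * (sd l w - sd l z) := by
  rw [sd_add_smul, sd_sub]

theorem Cross.meets {S : Set ℂ} (hc : Convex ℝ S) {l : Ln} (h : Cross S l) : Meets S l := by
  obtain ⟨⟨z, hz, h1⟩, w, hw, h2⟩ := h
  have hd : 0 < sd l w - sd l z := by linarith
  refine ⟨z + (-sd l z / (sd l w - sd l z)) • (w - z), hc.add_smul_sub_mem hz hw ⟨?_, ?_⟩, ?_⟩
  · exact div_nonneg (by linarith) hd.le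
  · rw [div_le_one hd]; linarith
  · rw [sd_lerp, div_mul_cancel₀ _ hd.ne']; ring

theorem cr_dir_I (θ : Ang) : cr (dir θ) (I * dir θ) = 1 := by
  have := unit_sq (norm_dir θ)
  simp [cr]; linarith

theorem cross_of_interior {S : Set ℂ} {l : Ln} {z : ℂ} (hz : z ∈ interior S) (h : sd l z = 0) :
    Cross S l := by
  obtain ⟨ε, hε, hb⟩ := Metric.mem_nhds_iff.mp (mem_interior_iff_mem_nhds.mp hz)
  have key : ∀ t : ℝ, |t| < ε → z + t • (I * dir l.1) ∈ S := fun t ht => hb (by
    simpa [norm_dir] using ht)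
  refine ⟨⟨_, key (-(ε / 2)) (by rw [abs_neg, abs_of_pos] <;> linarith), ?_⟩,
    _, key (ε / 2) (by rw [abs_of_pos] <;> linarith), ?_⟩ <;>
  · rw [sd_add_smul, h, cr_dir_I]; linarith

theorem Cross.exists_interior {S : Set ℂ} (hc : Convex ℝ S) (hi : (interior S).Nonempty) {l : Ln}
    (h : Cross S l) : ∃ z ∈ interior S, sd l z = 0 := by
  obtain ⟨c, hcS⟩ := hi
  have key : ∀ z ∈ S, sd l c * sd l z < 0 → ∃ z ∈ interior S, sd l z = 0 := by
    intro z hz hneg
    have hd : sd l c - sd l z ≠ 0 := by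
      intro h0
      have : sd l c = sd l z := by linarith
      rw [this] at hneg; nlinarith [sq_nonneg (sd l z)]
    have h1 : -sd l z / (sd l c - sd l z) ∈ Ioc (0 : ℝ) 1 := by
      rcases lt_or_gt_of_ne hd with hd' | hd'
      · have hz0 : 0 < sd l z := by by_contra hh; nlinarith
        refine ⟨div_pos_of_neg_of_neg (by linarith) hd', ?_⟩
        rw [div_le_one_of_neg hd']; nlinarith
      · have hz0 : sd l z < 0 := by by_contra hh; nlinarith
        refine ⟨div_pos (by linarith) hd', ?_⟩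
        rw [div_le_one hd']; nlinarith
    refine ⟨_, hc.add_smul_sub_mem_interior hz hcS h1, ?_⟩
    rw [sd_lerp, div_mul_cancel₀ _ hd]; ring
  obtain ⟨⟨z, hz, h1⟩, w, hw, h2⟩ := h
  rcases lt_trichotomy (sd l c) 0 with h0 | h0 | h0
  · exact key w hw (mul_neg_of_neg_of_pos h0 h2)
  · exact ⟨c, hcS, h0⟩
  · exact key z hz (mul_neg_of_pos_of_neg h0 h1)

theorem side_of_not_cross {S : Set ℂ} {l : Ln} (h : ¬ Cross S l) :
    ∃ τ : ℝ, (τ = 1 ∨ τ = -1) ∧ ∀ z ∈ S, 0 ≤ τ * sd l z := by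
  by_cases h1 : ∃ z ∈ S, sd l z < 0
  · refine ⟨-1, Or.inr rfl, fun z hz => ?_⟩
    by_contra hh
    exact h ⟨h1, z, hz, by linarith⟩
  · refine ⟨1, Or.inl rfl, fun z hz => ?_⟩
    by_contra hh
    exact h1 ⟨z, hz, by linarith⟩

theorem side_of_not_meets {S : Set ℂ} (hc : Convex ℝ S) {l : Ln} (h : ¬ Meets S l) :
    ∃ τ : ℝ, (τ = 1 ∨ τ = -1) ∧ ∀ z ∈ S, 0 < τ * sd l z := by
  obtain ⟨τ, hτ, h1⟩ := side_of_not_cross fun h' => h (h'.meets hc)
  refine ⟨τ, hτ, fun z hz => lt_of_le_of_ne (h1 z hz) fun h0 => h ⟨z, hz, ?_⟩⟩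
  rcases hτ with rfl | rfl <;> linarith

theorem sd_enP (S : Set ℂ) (l : Ln) : sd l (enP S l) = 0 := sd_pt _ _

theorem sd_exP (S : Set ℂ) (l : Ln) : sd l (exP S l) = 0 := by
  have := sd_enP S (rev l)
  rw [sd_rev] at this
  unfold exP; linarith

theorem isCompact_params {S : Set ℂ} (h : IsCompact S) (l : Ln) : IsCompact {t | pt l t ∈ S} := by
  refine (h.image (f := tm l) (by fun_prop)).of_isClosed_subset
    (h.isClosed.preimage (by fun_prop)) fun t ht => ⟨_, ht, tm_pt l t⟩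

theorem enP_mem {S : Set ℂ} (h : IsCompact S) {l : Ln} (hm : Meets S l) : enP S l ∈ S := by
  obtain ⟨z, hz, h0⟩ := hm
  exact (isCompact_params h l).sInf_mem ⟨tm l z, by rw [mem_ofPred, pt_tm h0]; exact hz⟩

theorem tm_enP_le {S : Set ℂ} (h : IsCompact S) {l : Ln} {z : ℂ} (hz : z ∈ S) (h0 : sd l z = 0) :
    tm l (enP S l) ≤ tm l z := by
  rw [enP, tm_pt]
  exact csInf_le (isCompact_params h l).bddBelow (by rw [mem_ofPred, pt_tm h0]; exact hz)

theorem enP_eq {S : Set ℂ} {l : Ln} {P : ℂ} (hP : P ∈ S) (h0 : sd l P = 0)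
    (hmin : ∀ z ∈ S, sd l z = 0 → tm l P ≤ tm l z) : enP S l = P := by
  have : IsLeast {t | pt l t ∈ S} (tm l P) := by
    refine ⟨by rw [mem_ofPred, pt_tm h0]; exact hP, fun t ht => ?_⟩
    have := hmin _ ht (sd_pt l t)
    rwa [tm_pt] at this
  rw [enP, this.csInf_eq, pt_tm h0]

theorem ip_dir_self (θ : Ang) : ip (dir θ) (dir θ) = 1 := by rw [ip_self, norm_dir]; norm_num

theorem cr_self (u : ℂ) : cr u u = 0 := by simp [cr]; ring

theorem enP_frontier {S : Set ℂ} (h : IsCompact S) {l : Ln} (hm : Meets S l) :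
    enP S l ∈ frontier S := by
  refine ⟨subset_closure (enP_mem h hm), fun hi => ?_⟩
  obtain ⟨ε, hε, hb⟩ := Metric.mem_nhds_iff.mp (mem_interior_iff_mem_nhds.mp hi)
  have h1 : enP S l + (-(ε / 2)) • dir l.1 ∈ S := hb (by
    simp only [mem_ball, dist_self_add_left, norm_smul, norm_dir, norm_neg, Real.norm_eq_abs]
    rw [abs_of_pos] <;> linarith)
  have := tm_enP_le h h1 (by rw [sd_add_smul, sd_enP, cr_self]; ring)
  rw [tm_add_smul, ip_dir_self] at this
  linarith

theorem eq_add_tm {l : Ln} {z w : ℂ} (hz : sd l z = 0) (hw : sd l w = 0) :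
    w = z + (tm l w - tm l z) • dir l.1 := by
  rw [← pt_tm hw, ← pt_tm hz, tm_pt, tm_pt, ← pt_add]; congr 1; ring

/-- just after the first point a crossing line is in the interior -/
theorem Cross.enP_add_interior {S : Set ℂ} (h : IsCompact S) (hc : Convex ℝ S)
    (hi : (interior S).Nonempty) {l : Ln} (hl : Cross S l) :
    ∃ t₀ : ℝ, 0 < t₀ ∧ ∀ t : ℝ, 0 < t → t ≤ t₀ → enP S l + t • dir l.1 ∈ interior S := by
  obtain ⟨c, hcS, h0⟩ := hl.exists_interior hc hi
  have hm := hl.meets hc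
  have h1 := tm_enP_le h (interior_subset hcS) h0
  have e := eq_add_tm (sd_enP S l) h0
  have h2 : 0 < tm l c - tm l (enP S l) := by
    refine lt_of_le_of_ne (by linarith) fun hh => (enP_frontier h hm).2 ?_
    rw [← hh] at e
    rw [zero_smul, add_zero] at e
    rw [← e]; exact hcS
  refine ⟨_, h2, fun t ht ht' => ?_⟩
  have := hc.add_smul_sub_mem_interior (enP_mem h hm) hcS
    (t := t / (tm l c - tm l (enP S l))) ⟨by positivity, by rwa [div_le_one h2]⟩
  convert this using 2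
  rw [show c - enP S l = (tm l c - tm l (enP S l)) • dir l.1 from sub_eq_of_eq_add' e,
    smul_smul, div_mul_cancel₀ _ h2.ne']

theorem isClosed_exists_cpt {X : Type*} [TopologicalSpace X] {S : Set ℂ} (h : IsCompact S)
    {F : Set (X × ℂ)} (hF : IsClosed F) : IsClosed {x | ∃ z ∈ S, (x, z) ∈ F} := by
  have : CompactSpace S := isCompact_iff_compactSpace.mp h
  have := isClosedMap_fst_of_compactSpace (X := X) (Y := S) _
    (hF.preimage (f := fun y : X × S => (y.1, (y.2 : ℂ))) (by fun_prop))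
  convert this using 1
  ext x; simp

theorem continuousOn_enP {S : Set ℂ} (h : IsCompact S) (hc : Convex ℝ S)
    (hi : (interior S).Nonempty) : ContinuousOn (enP S) {l | Cross S l} := by
  intro l hl
  refine ContinuousAt.continuousWithinAt ?_
  have key : ContinuousAt (fun l => tm l (enP S l)) l := by
    have hn : ∀ᶠ l' in 𝓝 l, Cross S l' := (isOpen_cross S).mem_nhds hl
    refine tendsto_order.2 ⟨fun a ha => ?_, fun a ha => ?_⟩
    · have hcl : IsClosed {l' : Ln | ∃ z ∈ S, (l', z) ∈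
          {y : Ln × ℂ | sd y.1 y.2 = 0 ∧ tm y.1 y.2 ≤ a}} :=
        isClosed_exists_cpt h (IsClosed.and (isClosed_eq (by fun_prop) (by fun_prop))
          (isClosed_le (by fun_prop) (by fun_prop)))
      have : ∀ᶠ l' in 𝓝 l, l' ∉ {l' : Ln | ∃ z ∈ S, (l', z) ∈
          {y : Ln × ℂ | sd y.1 y.2 = 0 ∧ tm y.1 y.2 ≤ a}} := by
        refine hcl.isOpen_compl.mem_nhds ?_
        rintro ⟨z, hz, h0, h1⟩
        exact absurd ((tm_enP_le h hz h0).trans h1) (not_le.mpr ha)
      filter_upwards [this, hn] with l' h1 h2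
      by_contra hh
      exact h1 ⟨_, enP_mem h (h2.meets hc), sd_enP S l', not_lt.mp hh⟩
    · obtain ⟨t₀, ht₀, h1⟩ := hl.enP_add_interior h hc hi
      set t := min t₀ ((a - tm l (enP S l)) / 2) with ht
      have tp : 0 < t := lt_min ht₀ (by linarith)
      have h2 := h1 t tp (min_le_left _ _)
      have h3 : t ≤ (a - tm l (enP S l)) / 2 := min_le_right _ _
      have hco : ContinuousAt (fun l' => pt l' (tm l (enP S l) + t)) l := by fun_prop
      have : ∀ᶠ l' in 𝓝 l, pt l' (tm l (enP S l) + t) ∈ interior S := by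
        refine hco.eventually (isOpen_interior.mem_nhds ?_)
        beta_reduce
        rw [pt_add, pt_tm (sd_enP S l)]; exact h2
      filter_upwards [this] with l' h4
      have := tm_enP_le h (interior_subset h4) (sd_pt l' _)
      rw [tm_pt l' (_ + t)] at this
      linarith
  have e : enP S = fun l => pt l (tm l (enP S l)) := funext fun l => (pt_tm (sd_enP S l)).symm
  rw [e]
  exact (continuous_pt continuous_fst continuous_snd).continuousAt.comp
    (continuousAt_id.prodMk key)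

theorem continuousOn_exP {S : Set ℂ} (h : IsCompact S) (hc : Convex ℝ S)
    (hi : (interior S).Nonempty) : ContinuousOn (exP S) {l | Cross S l} :=
  (continuousOn_enP h hc hi).comp continuous_rev.continuousOn fun l hl => (cross_rev S l).mpr hl

theorem tanL_side {S : Set ℂ} (h : IsCompact S) {τ : ℝ} (hτ : τ = 1 ∨ τ = -1) (θ : Ang) :
    ∀ z ∈ S, 0 ≤ τ * sd (tanL S τ θ) z := by
  intro z hz
  have := csInf_le (h.image (f := fun z => τ * cr (dir θ) z) (by fun_prop)).bddBelow ⟨z, hz, rfl⟩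
  simp only [sd, tanL]
  rcases hτ with rfl | rfl <;> linarith

theorem tanL_meets {S : Set ℂ} (h : IsCompact S) (hne : S.Nonempty) {τ : ℝ} (hτ : τ = 1 ∨ τ = -1)
    (θ : Ang) : Meets S (tanL S τ θ) := by
  obtain ⟨z, hz, h1⟩ := (h.image (f := fun z => τ * cr (dir θ) z) (by fun_prop)).sInf_mem
    (hne.image _)
  refine ⟨z, hz, ?_⟩
  simp only [sd, tanL]
  rw [← h1]
  rcases hτ with rfl | rfl <;> ring

theorem eq_tanL {S : Set ℂ} {τ : ℝ} (hτ : τ = 1 ∨ τ = -1) {l : Ln} (hm : Meets S l)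
    (hs : ∀ z ∈ S, 0 ≤ τ * sd l z) : l = tanL S τ l.1 := by
  obtain ⟨z, hz, h0⟩ := hm
  have : IsLeast ((fun z => τ * cr (dir l.1) z) '' S) (τ * l.2) := by
    refine ⟨⟨z, hz, ?_⟩, ?_⟩
    · unfold sd at h0
      simp only; rw [show l.2 = cr (dir l.1) z by linarith]
    · rintro _ ⟨w, hw, rfl⟩
      have := hs w hw
      unfold sd at this
      simp only; linarith
  refine Prod.ext rfl ?_
  simp only [tanL]
  rw [this.csInf_eq]
  rcases hτ with rfl | rfl <;> ring

theorem continuous_tanL {S : Set ℂ} (h : IsCompact S) (τ : ℝ) : Continuous (tanL S τ) := by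
  refine continuous_id.prodMk (continuous_const.mul ?_)
  exact h.continuous_sInf (f := fun (θ : Ang) (z : ℂ) => τ * cr (dir θ) z) (by
    unfold Function.HasUncurry.uncurry Function.hasUncurryInduction
    simp only [Function.HasUncurry.uncurry, id]; fun_prop)

end Pool.Agent.P.MP_379466_co
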