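import Pool.Agent.P.MP_379466_co.Local1
import Pool.Agent.P.MP_379466_co.Front
import Pool.Agent.P.MP_379466_co.Fan
import Pool.Agent.P.MP_379466_co.Global

/-!
The local zero-one law for the invariant set and the end of the proof.
-/

set_option autoImplicit false

namespace Pool.Agent.P.MP_379466_co

open Set Metric MeasureTheory Filter
open scoped Topology Real

namespace Tab

variable {n : ℕ} {T : Tab n} {m : ℕ} {ρ CF β : ℝ} {i : Fin n} {l₀ : Ln}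

theorem isCompact_slice (h : T.Loc m ρ i l₀) {C : Set (St n)} (hC : IsCompact C) :
    IsCompact {x | T.InB ρ i l₀ x ∧ (i, T.ch i l₀ x) ∈ C} := by
  have hc := continuous_chart (T.org i l₀) l₀.1
  have c1 : IsClosed {x : ℝ × ℝ | |x.1| ≤ 1} := isClosed_le (by fun_prop) continuous_const
  have c2 : IsClosed {x : ℝ × ℝ | dL l₀ (T.ch i l₀ x) ≤ ρ / 2} :=
    isClosed_le (continuous_dL continuous_const hc) continuous_const
  have c3 : IsClosed {x : ℝ × ℝ | (i, T.ch i l₀ x) ∈ C} :=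
    hC.isClosed.preimage (continuous_const.prodMk hc)
  refine Metric.isCompact_of_isClosed_isBounded ((c1.inter c2).inter c3)
    ((isBounded_closedBall (x := 0) (r := 2 * (1 + T.D) * (ρ / 2))).subset fun x hx => ?_)
  have := dist_le_ch h (x := 0) (by simp) hx.1.1
  rw [ch_zero] at this
  rw [mem_closedBall, dist_comm]
  exact this.trans (mul_le_mul_of_nonneg_left hx.1.2 (by linarith [T.D_ge]))

theorem near_slice (h : T.Loc m ρ i l₀) {C : Set (St n)} {a : ℝ × ℝ} {e e' : ℝ}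
    (ha : (1 + T.D) * ‖a‖ ≤ ρ / 4) (he : 2 * (1 + T.D) * e' ≤ e) (he' : e' ≤ ρ / 4)
    (hf : ∀ y ∈ {x | T.InB ρ i l₀ x ∧ (i, T.ch i l₀ x) ∈ C}, e < dist a y) :
    ¬ ∃ q ∈ C, q.1 = i ∧ dL (T.ch i l₀ a) q.2 ≤ e' := by
  rintro ⟨⟨j, l⟩, hq, rfl, hd⟩
  have h1 := dL_ch_le h 0 a
  rw [ch_zero, dist_zero_left] at h1
  have h2 := inB_ci h (l := l) (by linarith [dL_triangle l₀ (T.ch j l₀ a) l])
  have h3 := hf _ ⟨h2, by rwa [ch, chart_chartInv]⟩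
  have h4 := dist_le_ch h (inB_near h ha (x := a) (by rw [dist_self]; linarith [h.1])).1 h2.1
  simp only [chart_chartInv] at h4
  nlinarith [T.D_ge]

/-- The statement of `front` for a given constant. -/
def FrontAt (T : Tab n) (CF : ℝ) : Prop :=
  ∀ (m₀ m t : ℕ) (ε₀ δ₀ ρ e η : ℝ) (v : St n) (l₀ : Ln),
    v ∈ T.Vp m₀ ε₀ δ₀ → T.Loc m ρ (T.F^[t] v).1 l₀ → dL l₀ (T.F^[t] v).2 < ρ / 2 →
    0 < e → CF * e ≤ T.δ2 → CF * e ≤ ρ / 2 → η ≤ e →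
    T.F^[t] v ∉ T.BadM m (CF * e) → T.dag (T.F^[t] v) ∉ T.BadG m (CF * e) →
    2 * e < t * (T.r * δ₀) → ε₀ * T.wt m₀ t (T.dag (T.F^[t] v)) ≤ η →
    ∃ (γ : ℝ → Ln) (s₁ s₀ s₂ : ℝ), s₀ ∈ Icc s₁ s₂ ∧ ContinuousOn γ (Icc s₁ s₂) ∧
      (∀ s ∈ Icc s₁ s₂, dL (T.F^[t] v).2 (γ s) ≤ CF * e ∧ ((T.F^[t] v).1, γ s) ∉ T.EscNS) ∧
      (∀ s ∈ Icc s₁ s₂, ∀ s' ∈ Icc s₁ s₂, s ≤ s' → T.PostRel (T.F^[t] v).1 (-1) (γ s) (γ s') 0) ∧
      dL (T.F^[t] v).2 (γ s₀) ≤ η ∧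
      Dv 1 (γ s₁) (γ s₀) (T.org (T.F^[t] v).1 l₀) = e ∧
      Dv 1 (γ s₀) (γ s₂) (T.org (T.F^[t] v).1 l₀) = e

theorem unstable_curve (hF : T.FrontAt CF) (h : T.Loc m ρ i l₀) (hβ : T.Beta m CF β)
    {a : ℝ × ℝ} {e : ℝ} (ha : (1 + T.D) * ‖a‖ ≤ ρ / 4) (he : 0 < e) (h₁ : CF * e ≤ T.δ2)
    (h₂ : CF * e ≤ ρ / 4) (hM : (i, T.ch i l₀ a) ∉ T.BadM m (CF * e))
    (hG : T.dag (i, T.ch i l₀ a) ∉ T.BadG m (CF * e)) {m₀ : ℕ} {ε δ : ℝ} (hδ : 0 < δ)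
    (hr : ∀ η, 0 < η → ∀ N : ℕ, ∃ t v, N ≤ t ∧ v ∈ T.Vp m₀ ε δ ∧ T.F^[t] v = (i, T.ch i l₀ a) ∧
      ε * T.wt m₀ t (T.dag (i, T.ch i l₀ a)) ≤ η) {η : ℝ} (hη : 0 < η) :
    ∃ γ s₁ s₀ s₂, T.GC ρ β i l₀ γ s₁ s₂ ∧ s₀ ∈ Icc s₁ s₂ ∧ dist (γ s₀) a < η ∧
      (γ s₁).2 = (γ s₀).2 - e ∧ (γ s₂).2 = (γ s₀).2 + e := by
  have hD : 0 < 1 + T.D := by linarith [T.D_ge]
  have hρ := h.1
  obtain ⟨N, hN⟩ := exists_nat_gt (2 * e / (T.r * δ))
  have hrδ := mul_pos T.r_pos hδ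
  obtain ⟨t, v, ht, hv, e1, hw⟩ := hr (min e (η / (4 * (1 + T.D)))) (lt_min he (by positivity)) N
  have h3 := dL_ch_le h 0 a
  rw [ch_zero, dist_zero_left] at h3
  have key := hF m₀ m t ε δ ρ e (min e (η / (4 * (1 + T.D)))) v l₀ hv
  rw [e1] at key
  obtain ⟨γ, s₁, s₀, s₂, a1, a2, a3, a4, a5, a6, a7⟩ := key h (by dsimp only; linarith) he h₁
    (by linarith) (min_le_left _ _) hM hG (by
      rw [div_lt_iff₀ hrδ] at hN
      exact hN.trans_le (mul_le_mul_of_nonneg_right (Nat.cast_le.mpr ht) hrδ.le)) hw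
  dsimp only at a3 a4 a5 a6 a7
  have b1 : ∀ s ∈ Icc s₁ s₂, dL l₀ (γ s) ≤ ρ / 2 := fun s hs => by
    linarith [dL_triangle l₀ (T.ch i l₀ a) (γ s), (a3 s hs).1]
  refine ⟨_, s₁, s₀, s₂, gc_of_curve h hβ (a1.1.trans a1.2) a2
    (fun s hs => ⟨b1 s hs, (a3 s hs).2⟩) a4, a1, ?_, ?_, ?_⟩
  · have := dist_le_ch h (inB_near h ha (x := a) (by rw [dist_self]; linarith)).1
      (inB_ci h (b1 _ a1)).1
    simp only [chart_chartInv] at this
    have h4 := (le_div_iff₀ (by positivity)).mp (a5.trans (min_le_right _ _))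
    rw [dist_comm]; nlinarith
  · rw [Dv] at a6; simp only [chartInv]; linarith
  · rw [Dv] at a7; simp only [chartInv]; linarith

theorem planarAt (hCF : 1 ≤ CF) (hF : T.FrontAt CF) (h : T.Loc m ρ i l₀) (hβ : T.Beta m CF β)
    {δ : ℝ} (hδ : 0 < δ) : Nonempty (PlanarAt {x | (i, T.ch i l₀ x) ∈ T.AA} (T.GC ρ β i l₀)
      (ρ / (4 * (1 + T.D))) β δ) := by
  obtain ⟨cm, ρ0, e0, Tl, c1, c2, c3, c4, c5, c6, c7, c8, c9⟩ := T.tail m hδ
  have hD1 := T.D_ge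
  have hD : 0 < 1 + T.D := by linarith
  have hρ := h.1
  have hb := hβ.pos
  have close : ∀ x y : ℝ × ℝ, dist x y < ρ0 / (1 + T.D) → dL (T.ch i l₀ x) (T.ch i l₀ y) < ρ0 :=
    fun x y hxy => (dL_ch_le h x y).trans_lt ((lt_div_iff₀' hD).mp hxy)
  have box : ∀ a : ℝ × ℝ, ‖a‖ ≤ ρ / (4 * (1 + T.D)) → (1 + T.D) * ‖a‖ ≤ ρ / 4 := fun a ha => by
    rw [le_div_iff₀ (by positivity)] at ha; linarith
  have inb : ∀ a : ℝ × ℝ, ‖a‖ ≤ ρ / (4 * (1 + T.D)) → T.InB ρ i l₀ a := fun a ha =>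
    inB_near h (box a ha) (by rw [dist_self]; linarith)
  refine ⟨{
    cp := {x | T.InB ρ i l₀ x ∧ (i, T.ch i l₀ x) ∈ T.dag '' cm}
    cm := {x | T.InB ρ i l₀ x ∧ (i, T.ch i l₀ x) ∈ cm}
    ρ0 := ρ0 / (1 + T.D)
    e0 := min e0 (min T.δ2 (ρ / 4))
    Tail := fun e => {x | |x.1| ≤ 1 ∧ T.ch i l₀ x ∈ {l | (i, l) ∈ Tl e}}
    cp_cpt := isCompact_slice h (c1.image T.continuous_dag)
    cm_cpt := isCompact_slice h c1
    disj := disjoint_left.mpr fun x h1 h2 => disjoint_left.mp c4 h2.2 h1.2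
    ρ0_pos := by positivity
    e0_pos := lt_min c3 (lt_min T.δ2_pos (by positivity))
    tail := fun e he he0 => (volume_chart_le _ _ _).trans
      ((slice_le_mu _ i).trans (c5 e he (he0.trans (min_le_left _ _))))
    anti := fun x hx y hy hd hl => ?_
    chain := fun x hx y hy hd hl => ?_
    hU := fun e he he0 => ?_
    hS := fun e he he0 => ?_ }⟩
  · exact absurd (c8 _ hx.2 _ hy.2 rfl (close x y hd) (hx.1.div h hy.1 hl.1.le hl.2.le))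
      (not_le.mpr (hx.1.an_pos hy.1 hl.1))
  · obtain ⟨s, hs, hp⟩ := c9 _ hx.2 _ hy.2 rfl (close x y hd)
    rcases hs with rfl | rfl
    · obtain ⟨-, b, c, -⟩ := T.slope h (hx.1.lt h) (hy.1.lt h) (Or.inl rfl) hp le_rfl
      rw [Dv_swap, Dv_chart] at b c
      have h1 := dist_le_ch h hx.1.1 hy.1.1
      rw [show x.2 - y.2 = 0 by linarith, mul_zero] at c
      obtain rfl : x = y := dist_le_zero.mp (h1.trans (by nlinarith))
      simp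
    · exact (hx.1.slope h hβ hy.1 hp).2
  · rw [le_min_iff, le_min_iff] at he0
    have k1 : 2 * (1 + T.D) * (CF * (β * e)) ≤ e := by nlinarith [hβ.h₃]
    have k0 : 0 < CF * (β * e) := by positivity
    have k2 : CF * (β * e) ≤ e := by nlinarith
    filter_upwards [ae_chart (T.org i l₀) l₀.1 (ae_slice T.AA_return i)] with a ha hA hn hT hf η hη
    obtain ⟨m₀, ε, δ₀, hδ₀, hr⟩ := ha (inb a hn).1 hA
    have nb := fun hh => (c7 e _ (i, T.ch i l₀ a) k0 k2 hh).elim (fun h1 => hT ⟨(inb a hn).1, h1⟩)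
      (near_slice h (box a hn) k1 (k2.trans he0.2.2) hf)
    exact unstable_curve hF h hβ (box a hn) (mul_pos hb he) (k2.trans he0.2.1) (k2.trans he0.2.2)
      (fun hh => nb (Or.inl hh)) (fun hh => nb (Or.inr hh)) hδ₀ hr hη
  · rw [le_min_iff, le_min_iff] at he0
    obtain ⟨ε, q1, q2⟩ := exists_rat_btwn
      (show T.CE * ((1 + T.D) * (β * e)) < e / (2 * (1 + T.D)) by
        rw [lt_div_iff₀ (by positivity)]; nlinarith [hβ.h₄])
    have k0 : (0 : ℝ) < ε := lt_of_le_of_lt (by have := T.one_le_CE; positivity) q1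
    have k1 : 2 * (1 + T.D) * (ε : ℝ) ≤ e := by
      rw [lt_div_iff₀ (by positivity)] at q2; linarith
    have k2 : (ε : ℝ) ≤ e := by nlinarith
    filter_upwards [ae_chart (T.org i l₀) l₀.1 (ae_slice T.ae_class i)] with v hv hA hn hT hf
    have nb := fun hh => (c6 e _ (i, T.ch i l₀ v) k0 k2 hh).elim (fun h1 => hT ⟨(inb v hn).1, h1⟩)
      (near_slice h (box v hn) k1 (k2.trans he0.2.2) hf)
    exact stable_set h hb (mul_pos hb he) (box v hn) (by nlinarith [hβ.mul_D]) (k2.trans he0.2.1)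
      (by linarith) q1 (fun hh => nb (Or.inl hh)) (fun hh => nb (Or.inr hh))
      (hv (inb v hn).1 (h.2.2 _ ((inb v hn).lt h)).1) hA

theorem local_law (h : T.Loc m ρ i l₀) : ∃ κ, 0 < κ ∧
    ((∀ᵐ l : Ln, dL l₀ l < κ → (i, l) ∈ T.AA) ∨ ∀ᵐ l : Ln, dL l₀ l < κ → (i, l) ∉ T.AA) ∧
    ∀ (γ : ℝ → Ln) (a b : ℝ), a ≤ b → ContinuousOn γ (Icc a b) →
      (∀ s ∈ Icc a b, dL l₀ (γ s) < κ ∧ (i, γ s) ∉ T.EscNS) →
      (∀ s ∈ Icc a b, ∀ t ∈ Icc a b, s ≤ t → T.PostRel i (-1) (γ s) (γ t) 0) → γ a ≠ γ b →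
      ∀ᵐ l : Ln, dL l₀ l < κ → (i, l) ∈ T.AA := by
  obtain ⟨CF, hCF, hF⟩ := T.front
  obtain ⟨β, hβ⟩ := T.exists_beta m hCF
  have hD1 := T.D_ge
  have hD : 0 < 1 + T.D := by linarith
  have hρ := h.1
  have hA : MeasurableSet {l : Ln | (i, l) ∈ T.AA} := measurable_prodMk_left T.measurableSet_AA
  obtain ⟨h1, h2⟩ := planar {x | (i, T.ch i l₀ x) ∈ T.AA}
    ((continuous_chart _ _).measurable hA) (T.GC ρ β i l₀) (ρ / (4 * (1 + T.D))) β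
    (by positivity) hβ.pos hβ.le_one (fun _ _ _ hγ => hγ.1)
    (fun γ a b a' b' hγ h1 h2 h3 => ⟨⟨h2, hγ.1.2.1.mono (Icc_subset_Icc h1 h3), fun s hs t ht =>
      hγ.1.2.2 s (Icc_subset_Icc h1 h3 hs) t (Icc_subset_Icc h1 h3 ht)⟩,
      fun s hs => hγ.2 s (Icc_subset_Icc h1 h3 hs)⟩)
    (fun δ hδ => planarAt hCF hF h hβ hδ)
  have hκ : ρ / (32 * (1 + T.D) ^ 2) ≤ ρ / 2 :=
    div_le_div_of_nonneg_left hρ.le two_pos (by nlinarith)
  have small : ∀ l, dL l₀ l < ρ / (32 * (1 + T.D) ^ 2) →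
      ‖T.ci i l₀ l‖ < ρ / (4 * (1 + T.D)) / 4 := fun l hl => by
    have := dist_le_ch h (x := 0) (by simp) (inB_ci h (hl.le.trans hκ)).1
    rw [ch_zero, dist_zero_left] at this
    simp only [chart_chartInv] at this
    refine this.trans_lt ((mul_lt_mul_of_pos_left hl (by positivity)).trans_eq ?_)
    field_simp; ring
  have back : ∀ S : Set Ln, MeasurableSet S →
      (∀ᵐ x : ℝ × ℝ, ‖x‖ < ρ / (4 * (1 + T.D)) / 4 → T.ch i l₀ x ∈ S) →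
      ∀ᵐ l : Ln, dL l₀ l < ρ / (32 * (1 + T.D) ^ 2) → l ∈ S := fun S hS hx => by
    refine ae_of_chart (T.org i l₀) l₀.1
      ((isOpen_lt (continuous_dL continuous_const continuous_id) continuous_const).measurableSet.imp
        hS) ?_
    filter_upwards [hx] with x h3 h4 h5
    have := small _ h5
    rw [ci, chartInv_chart _ _ h4] at this
    exact h3 this
  refine ⟨ρ / (32 * (1 + T.D) ^ 2), by positivity, h1.imp (back _ hA) (back _ hA.compl),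
    fun γ a b hab hγ g1 g2 hne => back _ hA (h2 ?_)⟩
  have gc := gc_of_curve h hβ hab hγ (fun s hs => ⟨(g1 s hs).1.le.trans hκ, (g1 s hs).2⟩) g2
  refine ⟨_, a, b, gc, ?_, fun s hs => small _ (g1 s hs).1⟩
  obtain ⟨b1, -, b3⟩ := gc.1.2.2 a (left_mem_Icc.mpr hab) b (right_mem_Icc.mpr hab) hab
  obtain ⟨-, -, c, -⟩ := T.slope h ((g1 a (left_mem_Icc.mpr hab)).1.trans_le (by linarith))
    ((g1 b (right_mem_Icc.mpr hab)).1.trans_le (by linarith)) (Or.inr rfl)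
    (g2 a (left_mem_Icc.mpr hab) b (right_mem_Icc.mpr hab) hab) le_rfl
  refine lt_of_le_of_ne b1 fun e => hne (eq_of_dL_le (c.trans_eq ?_))
  simp only [chartInv, neg_inj] at e
  rw [Dv, e]; ring

theorem escape (T : Tab n) {p : ℂ} (hp : ∀ i, p ∉ T.K i) :
    ∃ u : ℂ, ‖u‖ = 1 ∧ Escapes T.K p u := by
  by_contra hh
  obtain ⟨i, γ, a, b, s, hab, hs, hγ, hr, g1, g2, g3⟩ := T.fan hp hh
  have nb : ∀ (l₀ : Ln) {κ : ℝ}, 0 < κ → {l | dL l₀ l < κ} ∈ 𝓝 l₀ := fun l₀ κ hκ =>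
    mem_nhds_dL.mpr ⟨κ, hκ, fun _ h => h⟩
  refine global T.toTable T.AA T.AA_dom T.AA_F T.AA_G (fun j l₀ h1 h2 => ?_) ?_
  · obtain ⟨m, ρ, h⟩ := T.exists_loc h1 h2
    obtain ⟨κ, hκ, h3, -⟩ := local_law h
    exact ⟨_, nb l₀ hκ, h3⟩
  · have ha := left_mem_Icc.mpr hab.le
    obtain ⟨m, ρ, h⟩ := T.exists_loc (g1 a ha).1 hr
    obtain ⟨κ, hκ, -, h3⟩ := local_law h
    refine ⟨i, γ a, (g1 a ha).1, _, nb _ hκ, ?_⟩
    obtain ⟨δ, hδ, hd⟩ := Metric.mem_nhdsWithin_iff.mp ((hγ a ha).eventually (nb _ hκ))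
    obtain ⟨c, hac, hc⟩ := exists_between (lt_min hab (show a < a + δ by linarith))
    rw [lt_min_iff] at hc
    have sub : Icc a c ⊆ Icc a b := Icc_subset_Icc_right hc.1.le
    have k : ∀ t ∈ Icc a c, dL (γ a) (γ t) < κ ∧ (i, γ t) ∉ T.EscNS := fun t ht =>
      ⟨hd ⟨by rw [mem_ball, Real.dist_eq, abs_lt]; constructor <;> linarith [ht.1, ht.2], sub ht⟩,
        (g1 t (sub ht)).2⟩
    have hne := g3 c ⟨hac, hc.1.le⟩
    rcases hs with rfl | rfl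
    · have ng : ∀ t ∈ Icc (-c) (-a), -t ∈ Icc a c := fun t ht => ⟨by linarith [ht.2], by linarith [ht.1]⟩
      refine h3 (fun t => γ (-t)) (-c) (-a) (by linarith)
        ((hγ.mono sub).comp continuous_neg.continuousOn ng) (fun t ht => k _ (ng t ht))
        (fun t ht t' ht' htt => ?_) (by simpa using hne)
      have := g2 _ (sub (ng t' ht')) _ (sub (ng t ht)) (by linarith)
      exact ⟨by rw [dL_comm]; exact this.1, this.2.symm _⟩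
    · exact h3 γ a c hac.le (hγ.mono sub) k
        (fun t ht t' ht' htt => g2 t (sub ht) t' (sub ht') htt) hne.symm

end Tab

end Pool.Agent.P.MP_379466_co
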