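import Mathlib
/-! Geometric and measure-theoretic helper lemmas for `Planar.lean`. -/

set_option autoImplicit false

namespace Pool.Agent.P.MP_379466_co

open Set MeasureTheory Metric

/-- Strictly smaller in both coordinates. -/
def Lt2 (x y : ℝ × ℝ) : Prop := x.1 < y.1 ∧ x.2 < y.2

namespace PlanarAux

theorem dist_le_iff {x y : ℝ × ℝ} {r : ℝ} :
    dist x y ≤ r ↔ |x.1 - y.1| ≤ r ∧ |x.2 - y.2| ≤ r := by
  rw [Prod.dist_eq, max_le_iff, Real.dist_eq, Real.dist_eq]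

theorem dist_lt_iff {x y : ℝ × ℝ} {r : ℝ} :
    dist x y < r ↔ |x.1 - y.1| < r ∧ |x.2 - y.2| < r := by
  rw [Prod.dist_eq, max_lt_iff, Real.dist_eq, Real.dist_eq]

theorem vol_ball (z : ℝ × ℝ) {r : ℝ} (hr : 0 ≤ r) :
    volume (closedBall z r) = ENNReal.ofReal (4 * r ^ 2) := by
  obtain ⟨a, b⟩ := z
  rw [← closedBall_prod_same, Measure.volume_eq_prod, Measure.prod_prod, Real.volume_closedBall,
    Real.volume_closedBall, ← ENNReal.ofReal_mul (by positivity)]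
  congr 1; ring

/-- The two properties of the class of curves. -/
def GOK (G : (ℝ → ℝ × ℝ) → ℝ → ℝ → Prop) (β : ℝ) : Prop :=
  (∀ γ a b, G γ a b → a ≤ b ∧ ContinuousOn γ (Icc a b) ∧
      ∀ s ∈ Icc a b, ∀ t ∈ Icc a b, s ≤ t → (γ s).2 ≤ (γ t).2 ∧
        β * ((γ t).2 - (γ s).2) ≤ (γ t).1 - (γ s).1 ∧ β * ((γ t).1 - (γ s).1) ≤ (γ t).2 - (γ s).2) ∧
  (∀ γ a b a' b', G γ a b → a ≤ a' → a' ≤ b' → b' ≤ b → G γ a' b')

/-- A good curve passes through `z` and extends by `t` upwards and downwards. -/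
def Strad (G : (ℝ → ℝ × ℝ) → ℝ → ℝ → Prop) (z : ℝ × ℝ) (t : ℝ) : Prop :=
  ∃ γ s₁ s₀ s₂, G γ s₁ s₂ ∧ s₀ ∈ Icc s₁ s₂ ∧ γ s₀ = z ∧ (γ s₁).2 ≤ z.2 - t ∧ z.2 + t ≤ (γ s₂).2

variable {G : (ℝ → ℝ × ℝ) → ℝ → ℝ → Prop} {β : ℝ}

theorem level (hG : GOK G β) {γ : ℝ → ℝ × ℝ} {a b s t y : ℝ} (h : G γ a b) (hs : a ≤ s)
    (hst : s ≤ t) (ht : t ≤ b) (h1 : (γ s).2 ≤ y) (h2 : y ≤ (γ t).2) :
    ∃ u ∈ Icc s t, (γ u).2 = y := by
  have hc : ContinuousOn (fun u => (γ u).2) (Icc s t) :=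
    continuous_snd.comp_continuousOn ((hG.1 γ a b h).2.1.mono (Icc_subset_Icc hs ht))
  exact intermediate_value_Icc hst hc ⟨h1, h2⟩

theorem noStrad (hG : GOK G β) (hβ : 0 < β) (hβ1 : β ≤ 1) {z v w : ℝ × ℝ} {T t R : ℝ}
    (hv : ∀ γ s₁ s₂, G γ s₁ s₂ → (∀ s ∈ Icc s₁ s₂, dist (γ s) v ≤ R) →
      Lt2 (γ s₁) w → Lt2 w (γ s₂) → False)
    (hz : Strad G z T) (ht : 0 < t) (hT : β * t ≤ T) (hw : dist z w < β ^ 2 * t)
    (hzv : dist z v + t ≤ R) : False := by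
  obtain ⟨γ, s₁, s₀, s₂, hγ, hs₀, rfl, h1, h2⟩ := hz
  have hbt : 0 < β * t := by positivity
  obtain ⟨u₁, hu₁, e₁⟩ := level hG hγ le_rfl hs₀.1 hs₀.2 (y := (γ s₀).2 - β * t)
    (by linarith) (by linarith)
  obtain ⟨u₂, hu₂, e₂⟩ := level hG hγ hs₀.1 hs₀.2 le_rfl (y := (γ s₀).2 + β * t)
    (by linarith) (by linarith)
  have hm := (hG.1 γ s₁ s₂ hγ).2.2
  have hu₁' : u₁ ∈ Icc s₁ s₂ := ⟨hu₁.1, hu₁.2.trans hs₀.2⟩
  have hu₂' : u₂ ∈ Icc s₁ s₂ := ⟨hs₀.1.trans hu₂.1, hu₂.2⟩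
  obtain ⟨-, a1, -⟩ := hm u₁ hu₁' s₀ hs₀ hu₁.2
  obtain ⟨-, a2, -⟩ := hm s₀ hs₀ u₂ hu₂' hu₂.1
  rw [dist_lt_iff, abs_lt, abs_lt] at hw
  have hbb : β ^ 2 * t ≤ β * t := by nlinarith
  refine hv γ u₁ u₂ (hG.2 γ s₁ s₂ u₁ u₂ hγ hu₁.1 (hu₁.2.trans hu₂.1) hu₂.2) ?_ ?_ ?_
  · intro s hs
    have hs' : s ∈ Icc s₁ s₂ := ⟨hu₁.1.trans hs.1, hs.2.trans hu₂.2⟩
    have hd : dist (γ s) (γ s₀) ≤ t := by
      obtain ⟨b1, -, -⟩ := hm u₁ hu₁' s hs' hs.1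
      obtain ⟨b2, -, -⟩ := hm s hs' u₂ hu₂' hs.2
      have hbt1 : β * t ≤ t := by nlinarith
      rw [dist_le_iff, abs_le, abs_le]
      rcases le_total s s₀ with h | h
      · obtain ⟨c1, c2, c3⟩ := hm s hs' s₀ hs₀ h
        have c4 : (γ s₀).1 - (γ s).1 ≤ t := by
          apply le_of_mul_le_mul_left _ hβ; linarith
        refine ⟨⟨by linarith, by nlinarith⟩, by linarith, by linarith⟩
      · obtain ⟨c1, c2, c3⟩ := hm s₀ hs₀ s hs' h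
        have c4 : (γ s).1 - (γ s₀).1 ≤ t := by
          apply le_of_mul_le_mul_left _ hβ; linarith
        refine ⟨⟨by nlinarith, by linarith⟩, by linarith, by linarith⟩
    linarith [dist_triangle (γ s) (γ s₀) v]
  · constructor
    · rw [e₁] at a1; nlinarith
    · linarith
  · constructor
    · rw [e₂] at a2; nlinarith
    · linarith

theorem strad_up (hG : GOK G β) {z : ℝ × ℝ} {T : ℝ} (hT : 0 ≤ T) (hz : Strad G z (2 * T)) :
    ∃ z' : ℝ × ℝ, Strad G z' T ∧ z'.2 = z.2 + T ∧ β * T ≤ z'.1 - z.1 ∧ β * (z'.1 - z.1) ≤ T := by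
  obtain ⟨γ, s₁, s₀, s₂, hγ, hs₀, rfl, h1, h2⟩ := hz
  obtain ⟨u, hu, e⟩ := level hG hγ hs₀.1 hs₀.2 le_rfl (y := (γ s₀).2 + T)
    (by linarith) (by linarith)
  have hu' : u ∈ Icc s₁ s₂ := ⟨hs₀.1.trans hu.1, hu.2⟩
  obtain ⟨-, a1, a2⟩ := (hG.1 γ s₁ s₂ hγ).2.2 s₀ hs₀ u hu' hu.1
  refine ⟨γ u, ⟨γ, s₁, u, s₂, hγ, hu', rfl, by linarith, by linarith⟩, e, ?_, ?_⟩
  · rw [e] at a1; simpa using a1
  · rw [e] at a2; simpa using a2

theorem strad_down (hG : GOK G β) {z : ℝ × ℝ} {T : ℝ} (hT : 0 ≤ T) (hz : Strad G z (2 * T)) :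
    ∃ z' : ℝ × ℝ, Strad G z' T ∧ z'.2 = z.2 - T ∧ β * T ≤ z.1 - z'.1 ∧ β * (z.1 - z'.1) ≤ T := by
  obtain ⟨γ, s₁, s₀, s₂, hγ, hs₀, rfl, h1, h2⟩ := hz
  obtain ⟨u, hu, e⟩ := level hG hγ le_rfl hs₀.1 hs₀.2 (y := (γ s₀).2 - T)
    (by linarith) (by linarith)
  have hu' : u ∈ Icc s₁ s₂ := ⟨hu.1, hu.2.trans hs₀.2⟩
  obtain ⟨-, a1, a2⟩ := (hG.1 γ s₁ s₂ hγ).2.2 u hu' s₀ hs₀ hu.2
  refine ⟨γ u, ⟨γ, s₁, u, s₂, hγ, hu', rfl, by linarith, by linarith⟩, e, ?_, ?_⟩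
  · rw [e] at a1; simpa using a1
  · rw [e] at a2; simpa using a2

/-- All points of `c` are at distance more than `r` from `z`. -/
def Far (c : Set (ℝ × ℝ)) (r : ℝ) (z : ℝ × ℝ) : Prop := ∀ y ∈ c, r < dist z y

theorem Far.near {c : Set (ℝ × ℝ)} {r r' : ℝ} {z z' : ℝ × ℝ} (h : Far c r z)
    (hd : dist z' z + r' ≤ r) : Far c r' z' := by
  intro y hy
  have := h y hy
  linarith [dist_triangle z z' y, dist_comm z z']

/-- `c` is locally an antichain for the cone cut out by `l₁`, `l₂`. -/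
structure Anti (c : Set (ℝ × ℝ)) (l₁ l₂ : (ℝ × ℝ) →ₗ[ℝ] ℝ) (ρ0 : ℝ) : Prop where
  b₁ : ∀ d, |l₁ d| ≤ 2 * ‖d‖
  b₂ : ∀ d, |l₂ d| ≤ 2 * ‖d‖
  anti : ∀ x ∈ c, ∀ y ∈ c, dist x y < ρ0 → 0 < l₁ (y - x) → 0 < l₂ (y - x) → False

theorem cone_pos (l : (ℝ × ℝ) →ₗ[ℝ] ℝ) (hb : ∀ d, |l d| ≤ 2 * ‖d‖) {a z u y : ℝ × ℝ}
    {κ r r' : ℝ} (hz : κ * ‖z - a‖ ≤ l (z - a)) (hu : u ∈ segment ℝ a z) (hy : dist u y ≤ r')
    (hr : r < dist a y) (hκ : 0 < κ) (hκ1 : κ ≤ 1) (h3 : 3 * r' ≤ κ * r) : 0 < l (y - a) := by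
  rw [segment_eq_image'] at hu
  obtain ⟨t, ht, rfl⟩ := hu
  have hr' : 0 ≤ r' := dist_nonneg.trans hy
  set u := a + t • (z - a) with hu
  have e1 : u - a = t • (z - a) := by rw [hu]; abel
  have h1 : κ * ‖u - a‖ ≤ l (u - a) := by
    rw [e1, map_smul, norm_smul, Real.norm_eq_abs, abs_of_nonneg ht.1, smul_eq_mul]
    nlinarith [ht.1]
  have h2 : r - r' < ‖u - a‖ := by
    rw [← dist_eq_norm]; linarith [dist_triangle a u y, dist_comm a u]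
  have h4 : l (y - a) = l (u - a) + l (y - u) := by rw [← map_add]; congr 1; abel
  have h5 := hb (y - u)
  rw [← dist_eq_norm, dist_comm, abs_le] at h5
  nlinarith

theorem cone {c : Set (ℝ × ℝ)} {l₁ l₂ : (ℝ × ℝ) →ₗ[ℝ] ℝ} {ρ0 : ℝ} (hc : Anti c l₁ l₂ ρ0)
    {a zp zm : ℝ × ℝ} {κ r r' R : ℝ} (hκ : 0 < κ) (hκ1 : κ ≤ 1) (h3 : 3 * r' ≤ κ * r)
    (ha : Far c r a) (p1 : κ * ‖zp - a‖ ≤ l₁ (zp - a)) (p2 : κ * ‖zp - a‖ ≤ l₂ (zp - a))
    (m1 : κ * ‖a - zm‖ ≤ l₁ (a - zm)) (m2 : κ * ‖a - zm‖ ≤ l₂ (a - zm))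
    (dp : dist zp a ≤ R) (dm : dist zm a ≤ R) (hR : 2 * R + 2 * r' < ρ0) :
    (∀ u ∈ segment ℝ a zp, Far c r' u) ∨ (∀ u ∈ segment ℝ a zm, Far c r' u) := by
  by_contra hcon
  simp only [not_or, not_forall, Far, not_lt, exists_prop] at hcon
  obtain ⟨⟨u, hu, y, hy, hd⟩, ⟨u', hu', y', hy', hd'⟩⟩ := hcon
  have q1 := cone_pos l₁ hc.b₁ p1 hu hd (ha y hy) hκ hκ1 h3
  have q2 := cone_pos l₂ hc.b₂ p2 hu hd (ha y hy) hκ hκ1 h3
  have neg : ∀ l : (ℝ × ℝ) →ₗ[ℝ] ℝ, (∀ d, |l d| ≤ 2 * ‖d‖) → κ * ‖a - zm‖ ≤ l (a - zm) →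
      0 < l (a - y') := by
    intro l hb hm
    have := cone_pos (-l) (fun d => by simpa using hb d) (a := a) (z := zm)
      (by rw [norm_sub_rev, LinearMap.neg_apply, ← map_neg, neg_sub]; exact hm) hu' hd'
      (ha y' hy') hκ hκ1 h3
    rwa [LinearMap.neg_apply, ← map_neg, neg_sub] at this
  have q3 := neg l₁ hc.b₁ m1
  have q4 := neg l₂ hc.b₂ m2
  have hR0 : 0 ≤ R := dist_nonneg.trans dp
  have d1 : dist u a ≤ R :=
    (convex_closedBall a R).segment_subset (mem_closedBall_self hR0) dp hu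
  have d2 : dist u' a ≤ R :=
    (convex_closedBall a R).segment_subset (mem_closedBall_self hR0) dm hu'
  refine hc.anti y' hy' y hy ?_ ?_ ?_
  · linarith [dist_triangle4 y' u' a u, dist_triangle y' u y, dist_comm y' u', dist_comm a u]
  · have : y - y' = (y - a) + (a - y') := by abel
    rw [this, map_add]; linarith
  · have : y - y' = (y - a) + (a - y') := by abel
    rw [this, map_add]; linarith

theorem spread_seg {X T c : Set (ℝ × ℝ)} {x : ℝ × ℝ} {R τ r' : ℝ} (hτ : 0 < τ)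
    (dich : ∀ z ∈ closedBall x R, Far c r' z →
      closedBall z (2 * τ) ⊆ X ∪ T ∨ closedBall z (2 * τ) ⊆ Xᶜ ∪ T)
    (small : volume (T ∩ closedBall x (R + τ)) < ENNReal.ofReal (4 * τ ^ 2))
    {a z : ℝ × ℝ} (ha : a ∈ closedBall x R) (hz : z ∈ closedBall x R)
    (hfar : ∀ u ∈ segment ℝ a z, Far c r' u) (seed : closedBall z τ ⊆ X ∪ T) : a ∈ X ∪ T := by
  have hsub : segment ℝ a z ⊆ closedBall x R := (convex_closedBall x R).segment_subset ha hz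
  have step : ∀ u ∈ segment ℝ a z, ∀ u', dist u' u ≤ τ → closedBall u τ ⊆ X ∪ T →
      closedBall u' τ ⊆ X ∪ T := by
    intro u hu u' hd hX
    rcases dich u (hsub hu) (hfar u hu) with h | h
    · exact (closedBall_subset_closedBall' (by linarith)).trans h
    · exfalso
      have : closedBall u τ ⊆ T ∩ closedBall x (R + τ) := by
        intro y hy
        refine ⟨?_, closedBall_subset_closedBall' (by have := hsub hu; rw [mem_closedBall] at this; linarith) hy⟩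
        rcases hX hy with h1 | h1
        · rcases h (closedBall_subset_closedBall (by linarith) hy) with h2 | h2
          · exact absurd h1 h2
          · exact h2
        · exact h1
      have h2 := measure_mono (μ := volume) this
      rw [vol_ball u hτ.le] at h2
      exact absurd small (not_lt.2 h2)
  have hpc : IsPreconnected (segment ℝ a z) := (convex_segment a z).isPreconnected
  have key := hpc.induction₂' (fun u u' => closedBall u τ ⊆ X ∪ T → closedBall u' τ ⊆ X ∪ T)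
    (fun u hu => by
      have h1 : ∀ᶠ y in nhdsWithin u (segment ℝ a z), y ∈ closedBall u τ :=
        mem_nhdsWithin_of_mem_nhds (closedBall_mem_nhds u hτ)
      filter_upwards [h1, self_mem_nhdsWithin] with y hy hy'
      exact ⟨step u hu y hy, step y hy' u (by rw [dist_comm]; exact hy)⟩)
    (fun _ _ _ _ _ _ h1 h2 h => h2 (h1 h))
    (right_mem_segment ℝ a z) (left_mem_segment ℝ a z)
  exact key seed (mem_closedBall_self hτ.le)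

end PlanarAux

end Pool.Agent.P.MP_379466_co
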