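import Mathlib
import Pool.Agent.P.MP_379466_co.PlanarA
/-! Packing, spreading and Markov lemmas for `Planar.lean`. -/

set_option autoImplicit false

namespace Pool.Agent.P.MP_379466_co

open Set MeasureTheory Metric

namespace PlanarAux

theorem pack {S B : Set (ℝ × ℝ)} (hS : MeasurableSet S) (w : ℝ × ℝ) (J : ℕ)
    (h1 : ∀ z ∈ S, ∀ j : ℕ, 1 ≤ j → j < J → z + (j : ℝ) • w ∉ S)
    (h2 : ∀ z ∈ S, ∀ j : ℕ, j < J → z + (j : ℝ) • w ∈ B) :
    (J : ENNReal) * volume S ≤ volume B := by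
  let F : ℕ → Set (ℝ × ℝ) := fun j => (fun z => z + (-((j : ℝ) • w))) ⁻¹' S
  have hF : ∀ j, volume (F j) = volume S := fun j => measure_preimage_add_right _ _ _
  have hm : ∀ j, MeasurableSet (F j) := fun j => hS.preimage (measurable_add_const _)
  have key : ∀ i j : ℕ, i < j → j < J → Disjoint (F i) (F j) := by
    intro i j hij hj
    rw [Set.disjoint_left]
    intro z hi hj'
    have := h1 _ hj' (j - i) (by omega) (by omega)
    apply this
    have e : z + -((j : ℝ) • w) + ((j - i : ℕ) : ℝ) • w = z + -((i : ℝ) • w) := by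
      rw [Nat.cast_sub hij.le, sub_smul]; abel
    rw [e]; exact hi
  have hd : ((Finset.range J : Finset ℕ) : Set ℕ).PairwiseDisjoint F := by
    intro i hi j hj hij
    simp only [Finset.coe_range, mem_Iio] at hi hj
    rcases lt_or_gt_of_ne hij with h | h
    · exact key i j h hj
    · exact (key j i h hi).symm
  have hU := measure_biUnion_finset (μ := volume) hd (fun j _ => hm j)
  have hsub : (⋃ j ∈ Finset.range J, F j) ⊆ B := by
    intro z hz
    simp only [mem_iUnion, Finset.mem_range] at hz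
    obtain ⟨j, hj, hz⟩ := hz
    have := h2 _ hz j hj
    simpa using this
  calc (J : ENNReal) * volume S = ∑ j ∈ Finset.range J, volume (F j) := by simp [hF]
    _ = volume (⋃ j ∈ Finset.range J, F j) := hU.symm
    _ ≤ volume B := measure_mono hsub

theorem near_small {c : Set (ℝ × ℝ)} {l₁ l₂ : (ℝ × ℝ) →ₗ[ℝ] ℝ} {ρ0 : ℝ} (hc : Anti c l₁ l₂ ρ0)
    {w : ℝ × ℝ} (hw : ‖w‖ ≤ 1) (w1 : 1 ≤ l₁ w) (w2 : 1 ≤ l₂ w) (x : ℝ × ℝ) {h : ℝ} (hh : 0 < h)
    (hρ : 2 * h < ρ0) :
    volume (closedBall x h ∩ thickening (h / 200) c) ≤ ENNReal.ofReal (h ^ 2 / 2) := by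
  have hnorm : ∀ j : ℕ, j < 32 → ‖(j : ℝ) • ((h / 32) • w)‖ ≤ h := by
    intro j hj
    have hj' : (j : ℝ) ≤ 32 := by exact_mod_cast hj.le
    rw [norm_smul, norm_smul, Real.norm_eq_abs, Real.norm_eq_abs, abs_of_nonneg (by positivity),
      abs_of_nonneg (by positivity)]
    have : h / 32 * ‖w‖ ≤ h / 32 := by nlinarith
    calc (j : ℝ) * (h / 32 * ‖w‖) ≤ 32 * (h / 32) := by gcongr
      _ = h := by ring
  have hp := pack (S := closedBall x h ∩ thickening (h / 200) c) (B := closedBall x (2 * h))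
    (measurableSet_closedBall.inter isOpen_thickening.measurableSet) ((h / 32) • w) 32 ?_ ?_
  · rw [vol_ball x (by positivity)] at hp
    have e : ENNReal.ofReal (4 * (2 * h) ^ 2) = ((32 : ℕ) : ENNReal) * ENNReal.ofReal (h ^ 2 / 2) := by
      rw [← ENNReal.ofReal_natCast, ← ENNReal.ofReal_mul (by positivity)]
      congr 1; push_cast; ring
    rw [e] at hp
    exact (ENNReal.mul_le_mul_iff_right (by simp) (by simp)).1 hp
  · rintro z ⟨-, hz⟩ j hj1 hj ⟨-, hz'⟩
    rw [mem_thickening_iff] at hz hz'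
    obtain ⟨y, hy, hd⟩ := hz
    obtain ⟨y', hy', hd'⟩ := hz'
    have hj1' : (1 : ℝ) ≤ j := by exact_mod_cast hj1
    set v := (j : ℝ) • ((h / 32) • w) with hv
    have pos : ∀ l : (ℝ × ℝ) →ₗ[ℝ] ℝ, (∀ d, |l d| ≤ 2 * ‖d‖) → 1 ≤ l w → 0 < l (y' - y) := by
      intro l hb hl
      have e : y' - y = (y' - (z + v)) + v + (z - y) := by abel
      have a1 := hb (y' - (z + v))
      have a2 := hb (z - y)
      rw [← dist_eq_norm, abs_le] at a1 a2
      rw [dist_comm] at a1
      have a3 : h / 32 ≤ l v := by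
        rw [hv, map_smul, map_smul, smul_eq_mul, smul_eq_mul]
        have : h / 32 ≤ h / 32 * l w := by nlinarith
        nlinarith
      rw [e, map_add, map_add]; linarith
    refine hc.anti y hy y' hy' ?_ (pos l₁ hc.b₁ w1) (pos l₂ hc.b₂ w2)
    have a4 : dist z (z + v) ≤ h := by rw [dist_self_add_right]; exact hnorm j hj
    linarith [dist_triangle4 y z (z + v) y', dist_comm y z]
  · rintro z ⟨hz, -⟩ j hj
    rw [mem_closedBall] at hz ⊢
    have a4 : dist (z + (j : ℝ) • ((h / 32) • w)) z ≤ h := by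
      rw [dist_self_add_left]; exact hnorm j hj
    linarith [dist_triangle (z + (j : ℝ) • ((h / 32) • w)) z x]

theorem spread {X T c : Set (ℝ × ℝ)} {l₁ l₂ : (ℝ × ℝ) →ₗ[ℝ] ℝ} {ρ0 : ℝ} (hc : Anti c l₁ l₂ ρ0)
    {w : ℝ × ℝ} (hw : ‖w‖ ≤ 1) (w1 : 1 ≤ l₁ w) (w2 : 1 ≤ l₂ w) {x : ℝ × ℝ} {h R τ r' κ : ℝ}
    (hh : 0 < h) (hτ : 0 < τ) (hκ : 0 < κ) (hκ1 : κ ≤ 1) (h3 : 3 * r' ≤ κ * (h / 400))
    (hr' : 0 ≤ r') (hhR : h ≤ R) (hρ : 2 * (R + h) + 2 * r' < ρ0) (hτh : 4 * τ ≤ h)
    (dich : ∀ z ∈ closedBall x R, Far c r' z →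
      closedBall z (2 * τ) ⊆ X ∪ T ∨ closedBall z (2 * τ) ⊆ Xᶜ ∪ T)
    (small : volume (T ∩ closedBall x (R + τ)) < ENNReal.ofReal (4 * τ ^ 2))
    {zp zm : ℝ × ℝ} (hp : zp ∈ closedBall x R) (hm : zm ∈ closedBall x R)
    (sp : Far c r' zp → closedBall zp τ ⊆ X ∪ T) (sm : Far c r' zm → closedBall zm τ ⊆ X ∪ T)
    (cp : ∀ a ∈ closedBall x h, κ * ‖zp - a‖ ≤ l₁ (zp - a) ∧ κ * ‖zp - a‖ ≤ l₂ (zp - a))
    (cm : ∀ a ∈ closedBall x h, κ * ‖a - zm‖ ≤ l₁ (a - zm) ∧ κ * ‖a - zm‖ ≤ l₂ (a - zm)) :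
    volume (closedBall x h \ X) < ENNReal.ofReal (h ^ 2) := by
  have hsub : closedBall x h \ X ⊆
      (T ∩ closedBall x (R + τ)) ∪ (closedBall x h ∩ thickening (h / 200) c) := by
    rintro a ⟨ha, haX⟩
    by_cases hf : Far c (h / 400) a
    · left
      have haR : a ∈ closedBall x R := closedBall_subset_closedBall hhR ha
      have hd : ∀ z ∈ closedBall x R, dist z a ≤ R + h := by
        intro z hz
        rw [mem_closedBall] at hz ha
        linarith [dist_triangle z x a, dist_comm x a]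
      have hXT : a ∈ X ∪ T := by
        rcases cone hc hκ hκ1 h3 hf (cp a ha).1 (cp a ha).2 (cm a ha).1 (cm a ha).2
          (hd zp hp) (hd zm hm) hρ with h1 | h1
        · exact spread_seg hτ dich small haR hp h1 (sp (h1 _ (right_mem_segment ℝ _ _)))
        · exact spread_seg hτ dich small haR hm h1 (sm (h1 _ (right_mem_segment ℝ _ _)))
      exact ⟨hXT.resolve_left haX, closedBall_subset_closedBall (by linarith) ha⟩
    · right
      refine ⟨ha, ?_⟩
      simp only [Far, not_forall, not_lt, exists_prop] at hf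
      obtain ⟨y, hy, hd⟩ := hf
      exact mem_thickening_iff.2 ⟨y, hy, by linarith⟩
  have hn := near_small hc hw w1 w2 x hh (by linarith)
  calc volume (closedBall x h \ X)
      ≤ volume (T ∩ closedBall x (R + τ)) + volume (closedBall x h ∩ thickening (h / 200) c) :=
        (measure_mono hsub).trans (measure_union_le _ _)
    _ ≤ ENNReal.ofReal (4 * τ ^ 2) + ENNReal.ofReal (h ^ 2 / 2) := add_le_add small.le hn
    _ = ENNReal.ofReal (4 * τ ^ 2 + h ^ 2 / 2) :=
        (ENNReal.ofReal_add (by positivity) (by positivity)).symm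
    _ < ENNReal.ofReal (h ^ 2) := by
        rw [ENNReal.ofReal_lt_ofReal_iff (by positivity)]; nlinarith

theorem markov {T : Set (ℝ × ℝ)} (hT : MeasurableSet T) {R : ℝ} (hR : 0 ≤ R) (ε : ENNReal) :
    ε * volume {x : ℝ × ℝ | ε ≤ volume (T ∩ closedBall x R)} ≤
      ENNReal.ofReal (4 * R ^ 2) * volume T := by
  let S : Set ((ℝ × ℝ) × (ℝ × ℝ)) := {p | p.2 ∈ T ∧ dist p.2 p.1 ≤ R}
  have hS : MeasurableSet S :=
    (hT.preimage measurable_snd).inter
      (measurableSet_le (measurable_snd.dist measurable_fst) measurable_const)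
  have e1 : ∀ x, T ∩ closedBall x R = Prod.mk x ⁻¹' S := fun x => rfl
  have hm : Measurable fun x : ℝ × ℝ => volume (T ∩ closedBall x R) := by
    simp only [e1]; exact measurable_measure_prodMk_left hS
  refine (mul_meas_ge_le_lintegral hm ε).trans (le_of_eq ?_)
  simp only [e1]
  rw [← Measure.prod_apply hS, Measure.prod_apply_symm hS]
  have e2 : ∀ y : ℝ × ℝ, volume ((fun x => (x, y)) ⁻¹' S) =
      T.indicator (fun _ => ENNReal.ofReal (4 * R ^ 2)) y := by
    intro y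
    by_cases hy : y ∈ T
    · rw [indicator_of_mem hy, ← vol_ball y hR]
      congr 1; ext x; simp [S, hy, dist_comm]
    · rw [indicator_of_notMem hy]
      have : (fun x => (x, y)) ⁻¹' S = ∅ := by ext x; simp [S, hy]
      rw [this, measure_empty]
  simp only [e2]
  rw [lintegral_indicator hT, setLIntegral_const]

/-- A heavy point and a light point cannot be close. -/
theorem heavy_light {A : Set (ℝ × ℝ)} {z z' : ℝ × ℝ} {h : ℝ} (hh : 0 < h)
    (hd : dist z z' ≤ h / 4) (h1 : volume (closedBall z h \ A) < ENNReal.ofReal (h ^ 2))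
    (h2 : volume (closedBall z' h \ Aᶜ) < ENNReal.ofReal (h ^ 2)) : False := by
  have hsub : closedBall z (3 * h / 4) ⊆ (closedBall z h \ A) ∪ (closedBall z' h \ Aᶜ) := by
    intro y hy
    by_cases hA : y ∈ A
    · right
      exact ⟨closedBall_subset_closedBall' (by linarith) hy, fun h => h hA⟩
    · left
      exact ⟨closedBall_subset_closedBall (by linarith) hy, hA⟩
  have h3 := (measure_mono (μ := volume) hsub).trans (measure_union_le _ _)
  have h4 := h3.trans (add_le_add h1.le h2.le)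
  rw [vol_ball z (by positivity), ← ENNReal.ofReal_add (by positivity) (by positivity),
    ENNReal.ofReal_le_ofReal_iff (by positivity)] at h4
  nlinarith

theorem dens {A : Set (ℝ × ℝ)} (hA : MeasurableSet A) :
    ∀ᵐ x : ℝ × ℝ, x ∈ A → ∃ n : ℕ, ∀ h : ℝ, 0 < h → h < 1 / ((n : ℝ) + 1) →
      volume (closedBall x h \ A) < ENNReal.ofReal (h ^ 2) := by
  filter_upwards [Besicovitch.ae_tendsto_measure_inter_div_of_measurableSet volume hA.compl]
    with x hx hxA
  rw [indicator_of_notMem (by simpa using hxA)] at hx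
  have h1 := hx.eventually (gt_mem_nhds (show (0 : ENNReal) < ENNReal.ofReal (1 / 4) by simp))
  rw [eventually_nhdsWithin_iff, Metric.eventually_nhds_iff] at h1
  obtain ⟨ε, hε, h1⟩ := h1
  obtain ⟨n, hn⟩ := exists_nat_one_div_lt hε
  refine ⟨n, fun h hh hhn => ?_⟩
  have h2 := h1 (y := h) (by rw [Real.dist_eq, sub_zero, abs_of_pos hh]; linarith) hh
  rw [vol_ball x hh.le, ENNReal.div_lt_iff (Or.inl (by simp; positivity)) (Or.inl ENNReal.ofReal_ne_top),
    ← ENNReal.ofReal_mul (by positivity)] at h2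
  rw [sdiff_eq, inter_comm]
  convert h2 using 2; ring

theorem null_or_null {S₁ S₂ : Set (ℝ × ℝ)} (h₁ : MeasurableSet S₁) (h₂ : MeasurableSet S₂)
    (h : ∀ k : ℝ × ℝ, volume {x | x ∈ S₁ ∧ x + k ∈ S₂} = 0) : volume S₁ = 0 ∨ volume S₂ = 0 := by
  have hp := (measurePreserving_prod_add (volume : Measure (ℝ × ℝ)) volume).measure_preimage
    (h₁.prod h₂).nullMeasurableSet
  rw [Measure.prod_prod] at hp
  have hm : MeasurableSet ((fun z : (ℝ × ℝ) × (ℝ × ℝ) => (z.1, z.1 + z.2)) ⁻¹' S₁ ×ˢ S₂) :=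
    (h₁.prod h₂).preimage (measurable_fst.prodMk (measurable_fst.add measurable_snd))
  rw [← mul_eq_zero, ← hp, Measure.prod_apply_symm hm]
  have : ∀ k : ℝ × ℝ, volume ((fun x => (x, k)) ⁻¹'
      ((fun z : (ℝ × ℝ) × (ℝ × ℝ) => (z.1, z.1 + z.2)) ⁻¹' S₁ ×ˢ S₂)) = 0 := fun k => h k
  simp only [this, lintegral_zero]

end PlanarAux

end Pool.Agent.P.MP_379466_co
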