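import Mathlib
import Pool.Agent.P.MP_379466_co.PlanarB
/-! The local dichotomy at one scale, for `Planar.lean`. -/

set_option autoImplicit false

namespace Pool.Agent.P.MP_379466_co

open Set MeasureTheory Metric

namespace PlanarAux

/-- Good curves of half height `β * e` pass arbitrarily close to `a`. -/
def UG (G : (ℝ → ℝ × ℝ) → ℝ → ℝ → Prop) (β e : ℝ) (a : ℝ × ℝ) : Prop :=
  ∀ η, 0 < η → ∃ z, dist z a < η ∧ Strad G z (β * e)

/-- A barrier set passes through `v`. -/
def SG (G : (ℝ → ℝ × ℝ) → ℝ → ℝ → Prop) (β e : ℝ) (v : ℝ × ℝ) : Prop :=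
  ∃ σ : Set (ℝ × ℝ), v ∈ σ ∧
    (∀ x y, Lt2 x v → Lt2 v y → dist x v ≤ β * e → dist y v ≤ β * e → ∃ w ∈ segment ℝ x y, w ∈ σ) ∧
    ∀ w ∈ σ, ∀ γ s₁ s₂, G γ s₁ s₂ → (∀ s ∈ Icc s₁ s₂, dist (γ s) v ≤ β * e) →
      Lt2 (γ s₁) w → Lt2 w (γ s₂) → False

variable {G : (ℝ → ℝ × ℝ) → ℝ → ℝ → Prop} {β : ℝ}

theorem SG.strad (hG : GOK G β) (hβ : 0 < β) (hβ1 : β ≤ 1) {e T : ℝ} {v z : ℝ × ℝ} (he : 0 < e)
    (hv : SG G β e v) (hz : Strad G z T) (hT : β * e ≤ T) (hd : dist z v < β ^ 3 * e / 2) :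
    False := by
  obtain ⟨σ, hσ, -, h3⟩ := hv
  have h1 : β ^ 3 * e ≤ β * e := by
    have : β ^ 2 ≤ 1 := by nlinarith
    nlinarith [mul_pos hβ he]
  refine noStrad hG hβ hβ1 (h3 v hσ) hz (t := β * e / 2) (by positivity) ?_ (by linarith)
    (by linarith)
  nlinarith [mul_pos hβ he]

theorem exists_notMem {S T B : Set (ℝ × ℝ)} {a b : ENNReal} (hS : ¬ volume S < a)
    (hT : volume (T ∩ B) < b) (hab : b ≤ a) (hB : S ⊆ B) : ∃ z ∈ S, z ∉ T := by
  by_contra h
  push Not at h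
  have : S ⊆ T ∩ B := fun z hz => ⟨h z hz, hB hz⟩
  exact hS (((measure_mono this).trans_lt hT).trans_le hab)

theorem seg_diag {x y w : ℝ × ℝ} {D : ℝ} (hD : 0 ≤ D) (h1 : y.1 = x.1 + D) (h2 : y.2 = x.2 + D)
    (hw : w ∈ segment ℝ x y) : ∃ s, 0 ≤ s ∧ s ≤ D ∧ w.1 = x.1 + s ∧ w.2 = x.2 + s := by
  rw [segment_eq_image'] at hw
  obtain ⟨t, ht, rfl⟩ := hw
  refine ⟨t * D, mul_nonneg ht.1 hD, by nlinarith [ht.2], ?_, ?_⟩
  · simp [h1]
  · simp [h2]

theorem loc (hG : GOK G β) (hβ : 0 < β) (hβ1 : β ≤ 1) {A T cp cm : Set (ℝ × ℝ)} {ρ ρ0 E : ℝ}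
    {x : ℝ × ℝ} (hE : 0 < E)
    (anti : ∀ x ∈ cp, ∀ y ∈ cp, dist x y < ρ0 → ¬ Lt2 x y)
    (chain : ∀ x ∈ cm, ∀ y ∈ cm, dist x y < ρ0 → x.2 ≤ y.2 →
      β * (y.2 - x.2) ≤ y.1 - x.1 ∧ β * (y.1 - x.1) ≤ y.2 - x.2)
    (U1 : ∀ a ∈ A, ‖a‖ ≤ ρ → a ∉ T → Far cm (18 * E) a → UG G β (18 * E) a)
    (U2 : ∀ a ∈ A, ‖a‖ ≤ ρ → a ∉ T → Far cm (β ^ 4 * E / 9600) a → UG G β (β ^ 4 * E / 9600) a)
    (S1 : ∀ v, v ∉ A → ‖v‖ ≤ ρ → v ∉ T → Far cp (18 * E) v → SG G β (18 * E) v)
    (S2 : ∀ v, v ∉ A → ‖v‖ ≤ ρ → v ∉ T → Far cp (β ^ 4 * E / 9600) v →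
      SG G β (β ^ 4 * E / 9600) v)
    (hx : ‖x‖ + 12 * E ≤ ρ) (hρ0 : 30 * E < ρ0)
    (hfar : Far cm (40 * E) x ∨ Far cp (40 * E) x)
    (small : volume (T ∩ closedBall x (12 * E)) < ENNReal.ofReal (4 * (β ^ 7 * E / 96000) ^ 2)) :
    volume (closedBall x (β ^ 2 * E) \ A) < ENNReal.ofReal ((β ^ 2 * E) ^ 2) ∨
      volume (closedBall x (β ^ 2 * E) \ Aᶜ) < ENNReal.ofReal ((β ^ 2 * E) ^ 2) := by
  have lin : ∀ p n : ℝ, 0 ≤ n → -n ≤ p → p ≤ n → -n ≤ β * p ∧ β * p ≤ n := by
    intro p n a1 a2 a3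
    constructor <;> nlinarith
  obtain ⟨h, hh⟩ : ∃ h, h = β ^ 2 * E := ⟨_, rfl⟩
  obtain ⟨e, he⟩ : ∃ e, e = β ^ 4 * E / 9600 := ⟨_, rfl⟩
  obtain ⟨τ, hτ⟩ : ∃ τ, τ = β ^ 7 * E / 96000 := ⟨_, rfl⟩
  rw [← he] at U2 S2
  rw [← hτ] at small
  rw [← hh]
  have b2 : β ^ 2 ≤ 1 := by nlinarith
  have h0 : 0 < h := by rw [hh]; positivity
  have e0 : 0 < e := by rw [he]; positivity
  have τ0 : 0 < τ := by rw [hτ]; positivity
  have bE0 : 0 < β * E := by positivity
  have be0 : 0 < β * e := by positivity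
  have hbE : h ≤ β * E := by rw [hh]; nlinarith
  have bEE : β * E ≤ E := by nlinarith
  have eh : e = β ^ 2 * h / 9600 := by rw [he, hh]; ring
  have eh' : e ≤ h / 9600 := by rw [eh]; nlinarith
  have τe : β ^ 3 * e = 10 * τ := by rw [he, hτ]; ring
  have τbe : 10 * τ ≤ β * e := by rw [← τe]; nlinarith
  have bee : β * e ≤ e := by nlinarith
  have bbE : β * (β * E) = h := by rw [hh]; ring
  have nrm : ∀ y, dist y x ≤ 12 * E → ‖y‖ ≤ ρ := by
    intro y hy
    have : ‖y‖ ≤ ‖y - x‖ + ‖x‖ := by simpa using norm_add_le (y - x) x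
    rw [← dist_eq_norm] at this; linarith
  have small' : volume (T ∩ closedBall x (11 * E + τ)) < ENNReal.ofReal (4 * τ ^ 2) :=
    (measure_mono (inter_subset_inter_right _
      (closedBall_subset_closedBall (by linarith)))).trans_lt small
  have τh : ENNReal.ofReal (4 * τ ^ 2) ≤ ENNReal.ofReal (h ^ 2) :=
    ENNReal.ofReal_le_ofReal (by nlinarith)
  have dich : ∀ z ∈ closedBall x (11 * E), Far cp (2 * e) z → Far cm (2 * e) z →
      closedBall z (2 * τ) ⊆ A ∪ T ∨ closedBall z (2 * τ) ⊆ Aᶜ ∪ T := by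
    intro z hz f1 f2
    by_contra hcon
    simp only [not_or, not_subset, mem_union, mem_compl_iff, not_not, mem_closedBall] at hcon hz
    obtain ⟨⟨v, hv, hvA, hvT⟩, a, ha, haA, haT⟩ := hcon
    have nv := nrm v (by linarith [dist_triangle v z x])
    have na := nrm a (by linarith [dist_triangle a z x])
    obtain ⟨z', hz', hs⟩ := U2 a haA na haT (f2.near (by linarith)) (τ / 2) (by positivity)
    refine (S2 v hvA nv hvT (f1.near (by linarith))).strad hG hβ hβ1 e0 hs le_rfl ?_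
    linarith [dist_triangle4 z' a z v, dist_comm z v]
  have hκ : 0 < β ^ 2 / 4 := by positivity
  have hκ1 : β ^ 2 / 4 ≤ 1 := by linarith
  have h3 : 3 * (2 * e) ≤ β ^ 2 / 4 * (h / 400) := by rw [eh]; linarith
  have hcone : ∀ d : ℝ × ℝ, |d.1| ≤ 12 * E → |d.2| ≤ 12 * E → β ^ 2 / 4 * ‖d‖ ≤ 3 * h := by
    intro d d1 d2
    have : ‖d‖ ≤ 12 * E := by rw [Prod.norm_def]; exact max_le d1 d2
    calc β ^ 2 / 4 * ‖d‖ ≤ β ^ 2 / 4 * (12 * E) := by gcongr
      _ = 3 * h := by rw [hh]; ring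
  have n1 : ∀ d : ℝ × ℝ, |d.1| ≤ ‖d‖ := fun d => norm_fst_le d
  have n2 : ∀ d : ℝ × ℝ, |d.2| ≤ ‖d‖ := fun d => norm_snd_le d
  by_contra hcon
  rw [not_or] at hcon
  obtain ⟨c1, c2⟩ := hcon
  have hB : ∀ X : Set (ℝ × ℝ), closedBall x h \ X ⊆ closedBall x (12 * E) :=
    fun X y hy => closedBall_subset_closedBall (by linarith) hy.1
  rcases hfar with hf | hf
  · obtain ⟨a, ⟨ha, haA⟩, haT⟩ := exists_notMem c2 small τh (hB _)
    rw [mem_closedBall] at ha
    rw [notMem_compl_iff] at haA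
    obtain ⟨z, hz, hs⟩ := U1 a haA (nrm a (by linarith)) haT (hf.near (by linarith)) h h0
    rw [show β * (18 * E) = 2 * (9 * (β * E)) by ring] at hs
    obtain ⟨zp, sp, p2, p1, p1'⟩ := strad_up hG (by positivity) hs
    obtain ⟨zm, sm, m2, m1, m1'⟩ := strad_down hG (by positivity) hs
    have p1'' : zp.1 - z.1 ≤ 9 * E := by apply le_of_mul_le_mul_left _ hβ; linarith
    have m1'' : z.1 - zm.1 ≤ 9 * E := by apply le_of_mul_le_mul_left _ hβ; linarith
    have hzx : dist z x ≤ 2 * h := by linarith [dist_triangle z a x]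
    rw [dist_le_iff, abs_le, abs_le] at hzx
    have dp : dist zp x ≤ 11 * E := by
      rw [dist_le_iff, abs_le, abs_le]; refine ⟨⟨?_, ?_⟩, ?_, ?_⟩ <;> linarith
    have dm : dist zm x ≤ 11 * E := by
      rw [dist_le_iff, abs_le, abs_le]; refine ⟨⟨?_, ?_⟩, ?_, ?_⟩ <;> linarith
    have seed : ∀ y, dist y x ≤ 11 * E → Strad G y (9 * (β * E)) → Far cp (2 * e) y →
        closedBall y τ ⊆ A ∪ T := by
      intro y hy hs f v hv
      by_contra hcon
      simp only [mem_union, not_or, mem_closedBall] at hcon hv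
      refine (S2 v hcon.1 (nrm v (by linarith [dist_triangle v y x])) hcon.2
        (f.near (by linarith))).strad hG hβ hβ1 e0 hs (by linarith) ?_
      rw [dist_comm]; linarith
    have hc : Anti cp (LinearMap.fst ℝ ℝ ℝ) (LinearMap.snd ℝ ℝ ℝ) ρ0 := by
      refine ⟨fun d => ?_, fun d => ?_, fun u hu y hy hd q1 q2 => anti u hu y hy hd ⟨?_, ?_⟩⟩
      · have := n1 d; simp only [LinearMap.fst_apply]; linarith [norm_nonneg d]
      · have := n2 d; simp only [LinearMap.snd_apply]; linarith [norm_nonneg d]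
      · simpa using q1
      · simpa using q2
    refine c1 (spread hc (w := (1, 1)) (by simp) (by simp) (by simp) h0 τ0 hκ hκ1 h3
      (by linarith) (R := 11 * E) (by linarith) (by linarith) (by linarith)
      (fun z hz f => dich z hz f (hf.near (by rw [mem_closedBall] at hz; linarith))) small'
      dp dm (seed zp dp sp) (seed zm dm sm) ?_ ?_)
    · intro a' ha'
      rw [mem_closedBall, dist_le_iff, abs_le, abs_le] at ha'
      have := hcone (zp - a') (by rw [abs_le]; constructor <;> simp only [Prod.fst_sub] <;> linarith)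
        (by rw [abs_le]; constructor <;> simp only [Prod.snd_sub] <;> linarith)
      simp only [LinearMap.fst_apply, LinearMap.snd_apply, Prod.fst_sub, Prod.snd_sub]
      constructor <;> linarith
    · intro a' ha'
      rw [mem_closedBall, dist_le_iff, abs_le, abs_le] at ha'
      have := hcone (a' - zm) (by rw [abs_le]; constructor <;> simp only [Prod.fst_sub] <;> linarith)
        (by rw [abs_le]; constructor <;> simp only [Prod.snd_sub] <;> linarith)
      simp only [LinearMap.fst_apply, LinearMap.snd_apply, Prod.fst_sub, Prod.snd_sub]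
      constructor <;> linarith
  · obtain ⟨v, ⟨hv, hvA⟩, hvT⟩ := exists_notMem c1 small τh (hB _)
    rw [mem_closedBall] at hv
    obtain ⟨σ, -, hσ2, hσ3⟩ := S1 v hvA (nrm v (by linarith)) hvT (hf.near (by linarith))
    obtain ⟨L, hL⟩ : ∃ L, L = 9 * (β * E) := ⟨_, rfl⟩
    have bL : β * L = 9 * h := by rw [hL, ← bbE]; ring
    have b18 : β * (18 * E) = 2 * L := by rw [hL]; ring
    rw [b18] at hσ2 hσ3
    have dd : ∀ p q : ℝ, |p| ≤ L → |q| ≤ L → dist (v.1 + p, v.2 + q) v ≤ 2 * L := by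
      intro p q hp hq
      rw [dist_le_iff]; simp only [add_sub_cancel_left]; constructor <;> linarith
    have aL : |L| ≤ L := by rw [abs_of_nonneg (by linarith)]
    have aL' : |-L| ≤ L := by rw [abs_neg]; exact aL
    have ah : |h| ≤ L := by rw [abs_of_nonneg h0.le]; linarith
    have ah' : |-h| ≤ L := by rw [abs_neg]; exact ah
    obtain ⟨zp, hp, σp⟩ := hσ2 (v.1 + -L, v.2 + -h) (v.1 + h, v.2 + L)
      ⟨by simp only; linarith, by simp only; linarith⟩ ⟨by simp only; linarith, by simp only; linarith⟩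
      (dd _ _ aL' ah') (dd _ _ ah aL)
    obtain ⟨zm, hm, σm⟩ := hσ2 (v.1 + -h, v.2 + -L) (v.1 + L, v.2 + h)
      ⟨by simp only; linarith, by simp only; linarith⟩ ⟨by simp only; linarith, by simp only; linarith⟩
      (dd _ _ ah' aL') (dd _ _ aL ah)
    obtain ⟨s, s0, s1, p1, p2⟩ := seg_diag (D := L + h) (by linarith) (by simp only; ring)
      (by simp only; ring) hp
    obtain ⟨t, t0, t1, m1, m2⟩ := seg_diag (D := L + h) (by linarith) (by simp only; ring)
      (by simp only; ring) hm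
    simp only at p1 p2 m1 m2
    have dpv : dist zp v ≤ L := by
      rw [dist_le_iff, abs_le, abs_le]; refine ⟨⟨?_, ?_⟩, ?_, ?_⟩ <;> linarith
    have dmv : dist zm v ≤ L := by
      rw [dist_le_iff, abs_le, abs_le]; refine ⟨⟨?_, ?_⟩, ?_, ?_⟩ <;> linarith
    have dp : dist zp x ≤ 11 * E := by linarith [dist_triangle zp v x]
    have dm : dist zm x ≤ 11 * E := by linarith [dist_triangle zm v x]
    have seed : ∀ y, dist y x ≤ 11 * E → dist y v ≤ L → y ∈ σ → Far cm (2 * e) y →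
        closedBall y τ ⊆ Aᶜ ∪ T := by
      intro y hy hyv hs f a ha
      by_contra hcon
      simp only [mem_union, not_or, mem_closedBall, mem_compl_iff, not_not] at hcon ha
      obtain ⟨z', hz', hs'⟩ := U2 a hcon.1 (nrm a (by linarith [dist_triangle a y x])) hcon.2
        (f.near (by linarith)) τ τ0
      refine noStrad hG hβ hβ1 (hσ3 y hs) hs' (t := β * e / 2) (by positivity)
        ((lin _ _ (by positivity) (by linarith) le_rfl).2.trans (by linarith)) ?_ ?_
      · have : β ^ 2 * (β * e / 2) = 5 * τ := by linarith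
        linarith [dist_triangle z' a y]
      · linarith [dist_triangle4 z' a y v]
    have hc : Anti cm (β • LinearMap.snd ℝ ℝ ℝ - LinearMap.fst ℝ ℝ ℝ)
        (LinearMap.snd ℝ ℝ ℝ - β • LinearMap.fst ℝ ℝ ℝ) ρ0 := by
      refine ⟨fun d => ?_, fun d => ?_, fun u hu y hy hd q1 q2 => ?_⟩
      · have a1 := n1 d; have a2 := n2 d
        rw [abs_le] at a1 a2 ⊢
        simp only [LinearMap.sub_apply, LinearMap.smul_apply, LinearMap.fst_apply,
          LinearMap.snd_apply, smul_eq_mul]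
        have := lin d.2 _ (norm_nonneg d) a2.1 a2.2
        constructor <;> linarith [this.1, this.2]
      · have a1 := n1 d; have a2 := n2 d
        rw [abs_le] at a1 a2 ⊢
        simp only [LinearMap.sub_apply, LinearMap.smul_apply, LinearMap.fst_apply,
          LinearMap.snd_apply, smul_eq_mul]
        have := lin d.1 _ (norm_nonneg d) a1.1 a1.2
        constructor <;> linarith [this.1, this.2]
      · simp only [LinearMap.sub_apply, LinearMap.smul_apply, LinearMap.fst_apply,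
          LinearMap.snd_apply, smul_eq_mul, Prod.fst_sub, Prod.snd_sub] at q1 q2
        rcases le_total u.2 y.2 with hle | hle
        · linarith [(chain u hu y hy hd hle).1]
        · linarith [(chain y hy u hu (by rwa [dist_comm]) hle).2]
    rw [dist_le_iff, abs_le, abs_le] at hv
    refine c2 (spread hc (w := (-1, 1)) (by simp) (by simp; linarith) (by simp; linarith) h0 τ0 hκ
      hκ1 h3 (by linarith) (R := 11 * E) (by linarith) (by linarith) (by linarith)
      (fun z hz f => by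
        rw [compl_compl]
        exact (dich z hz (hf.near (by rw [mem_closedBall] at hz; linarith)) f).symm) small'
      dp dm (seed zp dp dpv σp) (seed zm dm dmv σm) ?_ ?_)
    · intro a' ha'
      rw [mem_closedBall, dist_le_iff, abs_le, abs_le] at ha'
      have := hcone (zp - a') (by rw [abs_le]; constructor <;> simp only [Prod.fst_sub] <;> linarith)
        (by rw [abs_le]; constructor <;> simp only [Prod.snd_sub] <;> linarith)
      simp only [LinearMap.sub_apply, LinearMap.smul_apply, LinearMap.fst_apply,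
        LinearMap.snd_apply, smul_eq_mul, Prod.fst_sub, Prod.snd_sub]
      have k1 : 0 ≤ (1 - β) * (L + h - s) := mul_nonneg (by linarith) (by linarith)
      have k2 : 0 ≤ (1 - β) * s := mul_nonneg (by linarith) s0
      have k3 : 0 ≤ β * (v.2 - a'.2 + 2 * h) := mul_nonneg hβ.le (by linarith)
      have k4 : 0 ≤ β * (a'.1 - v.1 + 2 * h) := mul_nonneg hβ.le (by linarith)
      have k5 : β * h ≤ h := (lin h h h0.le (by linarith) le_rfl).2
      rw [p1, p2]
      constructor <;> linarith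
    · intro a' ha'
      rw [mem_closedBall, dist_le_iff, abs_le, abs_le] at ha'
      have := hcone (a' - zm) (by rw [abs_le]; constructor <;> simp only [Prod.fst_sub] <;> linarith)
        (by rw [abs_le]; constructor <;> simp only [Prod.snd_sub] <;> linarith)
      simp only [LinearMap.sub_apply, LinearMap.smul_apply, LinearMap.fst_apply,
        LinearMap.snd_apply, smul_eq_mul, Prod.fst_sub, Prod.snd_sub]
      have k1 : 0 ≤ (1 - β) * (L + h - t) := mul_nonneg (by linarith) (by linarith)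
      have k2 : 0 ≤ (1 - β) * t := mul_nonneg (by linarith) t0
      have k3 : 0 ≤ β * (a'.2 - v.2 + 2 * h) := mul_nonneg hβ.le (by linarith)
      have k4 : 0 ≤ β * (v.1 - a'.1 + 2 * h) := mul_nonneg hβ.le (by linarith)
      have k5 : β * h ≤ h := (lin h h h0.le (by linarith) le_rfl).2
      rw [m1, m2]
      constructor <;> linarith

end PlanarAux

end Pool.Agent.P.MP_379466_co
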