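import Mathlib
import Pool.Agent.P.MP_379466_co.PlanarC
/-! A zero-one law in the plane from approximate stable and unstable curves. -/

set_option autoImplicit false

namespace Pool.Agent.P.MP_379466_co

open Set MeasureTheory

/-- Singular sets and exceptional sets at accuracy `δ`. -/
structure PlanarAt (A : Set (ℝ × ℝ)) (G : (ℝ → ℝ × ℝ) → ℝ → ℝ → Prop) (ρ β δ : ℝ) where
  cp : Set (ℝ × ℝ)
  cm : Set (ℝ × ℝ)
  ρ0 : ℝ
  e0 : ℝ
  Tail : ℝ → Set (ℝ × ℝ)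
  cp_cpt : IsCompact cp
  cm_cpt : IsCompact cm
  disj : Disjoint cp cm
  ρ0_pos : 0 < ρ0
  e0_pos : 0 < e0
  tail : ∀ e, 0 < e → e ≤ e0 → volume (Tail e) ≤ ENNReal.ofReal (δ * e)
  anti : ∀ x ∈ cp, ∀ y ∈ cp, dist x y < ρ0 → ¬ Lt2 x y
  chain : ∀ x ∈ cm, ∀ y ∈ cm, dist x y < ρ0 → x.2 ≤ y.2 →
    β * (y.2 - x.2) ≤ y.1 - x.1 ∧ β * (y.1 - x.1) ≤ y.2 - x.2
  hU : ∀ e, 0 < e → e ≤ e0 → ∀ᵐ a : ℝ × ℝ, a ∈ A → ‖a‖ ≤ ρ → a ∉ Tail e → (∀ y ∈ cm, e < dist a y) →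
    ∀ η, 0 < η → ∃ γ s₁ s₀ s₂, G γ s₁ s₂ ∧ s₀ ∈ Icc s₁ s₂ ∧ dist (γ s₀) a < η ∧
      (γ s₁).2 = (γ s₀).2 - β * e ∧ (γ s₂).2 = (γ s₀).2 + β * e
  hS : ∀ e, 0 < e → e ≤ e0 → ∀ᵐ v : ℝ × ℝ, v ∉ A → ‖v‖ ≤ ρ → v ∉ Tail e → (∀ y ∈ cp, e < dist v y) →
    ∃ σ : Set (ℝ × ℝ), v ∈ σ ∧
      (∀ x y, Lt2 x v → Lt2 v y → dist x v ≤ β * e → dist y v ≤ β * e → ∃ w ∈ segment ℝ x y, w ∈ σ) ∧
      ∀ w ∈ σ, ∀ γ s₁ s₂, G γ s₁ s₂ → (∀ s ∈ Icc s₁ s₂, dist (γ s) v ≤ β * e) →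
        Lt2 (γ s₁) w → Lt2 w (γ s₂) → False

namespace PlanarAux

open Metric

variable {A : Set (ℝ × ℝ)} {G : (ℝ → ℝ × ℝ) → ℝ → ℝ → Prop} {ρ β δ : ℝ}

theorem scale (P : PlanarAt A G ρ β δ) {e : ℝ} (he : 0 < e) (he0 : e ≤ P.e0) :
    ∃ T : Set (ℝ × ℝ), MeasurableSet T ∧ volume T ≤ ENNReal.ofReal (δ * e) ∧
      (∀ a ∈ A, ‖a‖ ≤ ρ → a ∉ T → Far P.cm e a → UG G β e a) ∧
      (∀ v, v ∉ A → ‖v‖ ≤ ρ → v ∉ T → Far P.cp e v → SG G β e v) := by
  have h := (P.hU e he he0).and (P.hS e he he0)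
  rw [ae_iff] at h
  set N := {a : ℝ × ℝ | ¬ _} with hN
  refine ⟨toMeasurable volume (P.Tail e ∪ N), measurableSet_toMeasurable _ _, ?_, ?_, ?_⟩
  · rw [measure_toMeasurable]
    refine (measure_union_le _ _).trans ?_
    rw [h, add_zero]; exact P.tail e he he0
  · intro a ha hn hT hf η hη
    have h1 : a ∉ P.Tail e ∪ N := fun h => hT (subset_toMeasurable _ _ h)
    rw [mem_union, not_or, hN, mem_ofPred_eq, not_not] at h1
    obtain ⟨γ, s₁, s₀, s₂, a1, a2, a3, a4, a5⟩ := h1.2.1 ha hn h1.1 hf η hη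
    exact ⟨γ s₀, a3, γ, s₁, s₀, s₂, a1, a2, rfl, a4.le, a5.ge⟩
  · intro v hv hn hT hf
    have h1 : v ∉ P.Tail e ∪ N := fun h => hT (subset_toMeasurable _ _ h)
    rw [mem_union, not_or, hN, mem_ofPred_eq, not_not] at h1
    exact h1.2.2 hv hn h1.1 hf

theorem mixed (hG : GOK G β) (hρ : 0 < ρ) (hβ : 0 < β) (hβ1 : β ≤ 1) (hδ : 0 < δ)
    (P : PlanarAt A G ρ β δ) :
    ∃ E0, 0 < E0 ∧ ∀ E, 0 < E → E < E0 → ∃ M : Set (ℝ × ℝ),
      volume M ≤ ENNReal.ofReal (144 * 19 * 96000 ^ 2 / β ^ 14 * δ * E) ∧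
      ∀ x : ℝ × ℝ, ‖x‖ ≤ ρ / 2 → x ∉ M →
        volume (closedBall x (β ^ 2 * E) \ A) < ENNReal.ofReal ((β ^ 2 * E) ^ 2) ∨
        volume (closedBall x (β ^ 2 * E) \ Aᶜ) < ENNReal.ofReal ((β ^ 2 * E) ^ 2) := by
  obtain ⟨d, hd, hdd⟩ := P.disj.exists_thickenings P.cp_cpt P.cm_cpt.isClosed
  have h0 := P.ρ0_pos
  have h1 := P.e0_pos
  refine ⟨min (min (P.e0 / 18) (ρ / 24)) (min (P.ρ0 / 30) (d / 40)), by positivity, ?_⟩
  intro E hE hE0
  simp only [lt_min_iff] at hE0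
  obtain ⟨⟨E1, E2⟩, E3, E4⟩ := hE0
  have b4 : β ^ 4 ≤ 1 := pow_le_one₀ hβ.le hβ1
  have he : β ^ 4 * E / 9600 ≤ E := by nlinarith
  obtain ⟨T1, m1, v1, U1, S1⟩ := scale P (e := 18 * E) (by positivity) (by linarith)
  obtain ⟨T2, m2, v2, U2, S2⟩ := scale P (e := β ^ 4 * E / 9600) (by positivity) (by linarith)
  have vT : volume (T1 ∪ T2) ≤ ENNReal.ofReal (19 * δ * E) := by
    refine (measure_union_le _ _).trans ((add_le_add v1 v2).trans ?_)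
    rw [← ENNReal.ofReal_add (by positivity) (by positivity)]
    exact ENNReal.ofReal_le_ofReal (by nlinarith)
  refine ⟨{x | ENNReal.ofReal (4 * (β ^ 7 * E / 96000) ^ 2) ≤
    volume ((T1 ∪ T2) ∩ closedBall x (12 * E))}, ?_, ?_⟩
  · have hm := (markov (m1.union m2) (R := 12 * E) (by positivity)
      (ENNReal.ofReal (4 * (β ^ 7 * E / 96000) ^ 2))).trans (mul_le_mul_right vT _)
    have e : ENNReal.ofReal (4 * (12 * E) ^ 2) * ENNReal.ofReal (19 * δ * E) =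
        ENNReal.ofReal (4 * (β ^ 7 * E / 96000) ^ 2) *
          ENNReal.ofReal (144 * 19 * 96000 ^ 2 / β ^ 14 * δ * E) := by
      rw [← ENNReal.ofReal_mul (by positivity), ← ENNReal.ofReal_mul (by positivity)]
      congr 1; field_simp; ring
    rw [e] at hm
    exact (ENNReal.mul_le_mul_iff_right (ENNReal.ofReal_pos.2 (by positivity)).ne'
      ENNReal.ofReal_ne_top).1 hm
  · intro x hx hM
    rw [mem_ofPred_eq, not_le] at hM
    refine loc hG hβ hβ1 hE P.anti P.chain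
      (fun a a1 a2 a3 => U1 a a1 a2 fun h => a3 (Or.inl h))
      (fun a a1 a2 a3 => U2 a a1 a2 fun h => a3 (Or.inr h))
      (fun a a1 a2 a3 => S1 a a1 a2 fun h => a3 (Or.inl h))
      (fun a a1 a2 a3 => S2 a a1 a2 fun h => a3 (Or.inr h)) (by linarith) (by linarith) ?_ hM
    by_contra hcon
    simp only [Far, not_or, not_forall, not_lt, exists_prop] at hcon
    obtain ⟨⟨y, hy, d1⟩, y', hy', d2⟩ := hcon
    exact Set.disjoint_left.1 hdd (mem_thickening_iff.2 ⟨y', hy', by linarith⟩)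
      (mem_thickening_iff.2 ⟨y, hy, by linarith⟩)

theorem shift_null (hA : MeasurableSet A) (hG : GOK G β) (hρ : 0 < ρ) (hβ : 0 < β) (hβ1 : β ≤ 1)
    (h : ∀ δ, 0 < δ → Nonempty (PlanarAt A G ρ β δ)) (k : ℝ × ℝ) :
    volume {x | x ∈ A ∩ ball 0 (ρ / 4) ∧ x + k ∈ Aᶜ ∩ ball 0 (ρ / 4)} = 0 := by
  let W : ℕ → Set (ℝ × ℝ) := fun n => {x | x ∈ ball 0 (ρ / 4) ∧ x + k ∈ ball 0 (ρ / 4) ∧
    ∀ h : ℝ, 0 < h → h < 1 / ((n : ℝ) + 1) →
      volume (closedBall x h \ A) < ENNReal.ofReal (h ^ 2) ∧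
      volume (closedBall (x + k) h \ Aᶜ) < ENNReal.ofReal (h ^ 2)}
  have hW : ∀ n, volume (W n) = 0 := by
    intro n
    obtain ⟨C, hC⟩ : ∃ C, C = 144 * 19 * 96000 ^ 2 / β ^ 14 := ⟨_, rfl⟩
    have C0 : 0 < C := by rw [hC]; positivity
    obtain ⟨K, hK⟩ : ∃ K, K = (4 * ‖k‖ + 1) / β ^ 2 := ⟨_, rfl⟩
    have K0 : 0 < K := by rw [hK]; positivity
    have bK : β ^ 2 * K = 4 * ‖k‖ + 1 := by rw [hK]; field_simp
    have key : ∀ δ, 0 < δ → volume (W n) ≤ ENNReal.ofReal (C * K * δ) := by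
      intro δ hδ
      obtain ⟨P⟩ := h δ hδ
      obtain ⟨E0, hE0, hM⟩ := mixed hG hρ hβ hβ1 hδ P
      obtain ⟨L, hL⟩ := exists_nat_gt (K / min E0 (1 / ((n : ℝ) + 1)))
      have m0 : 0 < min E0 (1 / ((n : ℝ) + 1)) := by positivity
      have L0 : (0 : ℝ) < L := lt_trans (by positivity) hL
      rw [div_lt_iff₀ m0, mul_comm, ← div_lt_iff₀ L0, lt_min_iff] at hL
      obtain ⟨E, hE⟩ : ∃ E, E = K / L := ⟨_, rfl⟩
      rw [← hE] at hL
      have E0' : 0 < E := by rw [hE]; positivity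
      have LE : L * E = K := by rw [hE]; field_simp
      obtain ⟨M, vM, hM⟩ := hM E E0' hL.1
      rw [← hC] at vM
      have b2 : β ^ 2 ≤ 1 := by nlinarith
      have h0 : 0 < β ^ 2 * E := by positivity
      have hsub : W n ⊆ ⋃ j ∈ Finset.range L,
          (fun x => x + (((j + 1 : ℕ) : ℝ) / L) • k) ⁻¹' M := by
        rintro x ⟨x1, x2, x3⟩
        by_contra hcon
        simp only [mem_iUnion, Finset.mem_range, not_exists, mem_preimage] at hcon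
        obtain ⟨y1, y2⟩ := x3 (β ^ 2 * E) h0 (by nlinarith [hL.2])
        have ind : ∀ j : ℕ, j ≤ L → volume (closedBall (x + ((j : ℝ) / L) • k) (β ^ 2 * E) \ A) <
            ENNReal.ofReal ((β ^ 2 * E) ^ 2) := by
          intro j
          induction j with
          | zero => intro _; simpa using y1
          | succ j ih =>
            intro hj
            have hj' : ((j + 1 : ℕ) : ℝ) ≤ L := by exact_mod_cast hj
            have mem : x + (((j + 1 : ℕ) : ℝ) / L) • k ∈ ball (0 : ℝ × ℝ) (ρ / 4) :=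
              (convex_ball _ _).add_smul_mem x1 x2 ⟨by positivity, (div_le_one L0).2 hj'⟩
            rw [mem_ball_zero_iff] at mem
            rcases hM _ (by linarith) (hcon j (by omega)) with q | q
            · exact q
            · refine (heavy_light h0 ?_ (ih (by omega)) q).elim
              rw [dist_add_left, dist_eq_norm, ← sub_smul, norm_smul, Real.norm_eq_abs]
              have e1 : (j : ℝ) / L - ((j + 1 : ℕ) : ℝ) / L = -(1 / L) := by push_cast; ring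
              rw [e1, abs_neg, abs_of_pos (by positivity), one_div, ← div_eq_inv_mul,
                div_le_iff₀ L0]
              have : β ^ 2 * E / 4 * L = β ^ 2 * K / 4 := by rw [← LE]; ring
              rw [this, bK]; linarith
        have fin := ind L le_rfl
        rw [div_self L0.ne', one_smul] at fin
        exact heavy_light h0 (by rw [dist_self]; positivity) fin y2
      refine (measure_mono hsub).trans ((measure_biUnion_finset_le _ _).trans ?_)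
      simp only [measure_preimage_add_right, Finset.sum_const, Finset.card_range, nsmul_eq_mul]
      refine (mul_le_mul_right vM _).trans (le_of_eq ?_)
      rw [← ENNReal.ofReal_natCast, ← ENNReal.ofReal_mul (by positivity), ← LE]
      congr 1; ring
    refine le_antisymm (ENNReal.le_of_forall_pos_le_add fun ε hε _ => ?_) zero_le
    have := key (ε / (C * K)) (by positivity)
    rw [show C * K * (ε / (C * K)) = ε by field_simp] at this
    simpa using this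
  have hU : ∀ᵐ x : ℝ × ℝ, x ∉ ⋃ n, W n := measure_eq_zero_iff_ae_notMem.1 (measure_iUnion_null hW)
  have d2 := (measurePreserving_add_right (volume : Measure (ℝ × ℝ)) k).quasiMeasurePreserving.ae
    (dens hA.compl)
  rw [measure_eq_zero_iff_ae_notMem]
  filter_upwards [hU, dens hA, d2] with x a1 a2 a3
  rintro ⟨⟨b1, b2⟩, b3, b4⟩
  obtain ⟨n, hn⟩ := a2 b1
  obtain ⟨m, hm⟩ := a3 b3
  refine a1 (mem_iUnion.2 ⟨n + m, b2, b4, fun h h0 hh => ⟨hn h h0 (hh.trans_le ?_),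
    hm h h0 (hh.trans_le ?_)⟩⟩)
  · gcongr; omega
  · gcongr; omega

theorem points (hG : GOK G β) {γ : ℝ → ℝ × ℝ} {a b Λ : ℝ} (hγ : G γ a b) (hΛ : 0 ≤ Λ) (N : ℕ)
    (hN : (γ a).2 + N * Λ ≤ (γ b).2) :
    ∃ s : ℕ → ℝ, ∀ i ≤ N, s i ∈ Icc a b ∧ (γ (s i)).2 = (γ a).2 + i * Λ := by
  have : ∀ i : ℕ, ∃ s, i ≤ N → s ∈ Icc a b ∧ (γ s).2 = (γ a).2 + i * Λ := by
    intro i
    by_cases hi : i ≤ N
    · have hi' : (i : ℝ) ≤ N := by exact_mod_cast hi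
      obtain ⟨u, hu, e⟩ := level hG hγ le_rfl (hG.1 γ a b hγ).1 le_rfl (y := (γ a).2 + i * Λ)
        (by have : 0 ≤ (i : ℝ) * Λ := by positivity
            linarith) (by nlinarith)
      exact ⟨u, fun _ => ⟨hu, e⟩⟩
    · exact ⟨a, fun h => absurd h hi⟩
  choose s hs using this
  exact ⟨s, hs⟩

theorem positive (hG : GOK G β) (hρ : 0 < ρ) (hβ : 0 < β) (hβ1 : β ≤ 1)
    (h : ∀ δ, 0 < δ → Nonempty (PlanarAt A G ρ β δ)) {γ : ℝ → ℝ × ℝ} {a b : ℝ} (hγ : G γ a b)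
    (hab : (γ a).2 < (γ b).2) (hin : ∀ s ∈ Icc a b, ‖γ s‖ < ρ / 4) :
    volume (A ∩ ball 0 (ρ / 4)) ≠ 0 := by
  intro hA0
  obtain ⟨hle, hcont, hmon⟩ := hG.1 γ a b hγ
  obtain ⟨s₀, hs₀, hmax⟩ := isCompact_Icc.exists_isMaxOn (nonempty_Icc.2 hle) hcont.norm
  obtain ⟨r, hr⟩ : ∃ r, r = ρ / 4 - ‖γ s₀‖ := ⟨_, rfl⟩
  have r0 : 0 < r := by rw [hr]; linarith [hin s₀ hs₀]
  obtain ⟨ℓ, hℓ⟩ : ∃ ℓ, ℓ = (γ b).2 - (γ a).2 := ⟨_, rfl⟩
  have ℓ0 : 0 < ℓ := by rw [hℓ]; linarith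
  obtain ⟨P⟩ := h (β ^ 7 * ℓ / 1000) (by positivity)
  have h0 := P.ρ0_pos
  have h1 := P.e0_pos
  obtain ⟨M, hM⟩ := exists_nat_gt (ℓ / β / min (min P.e0 r) (P.ρ0 / 10))
  have m0 : 0 < min (min P.e0 r) (P.ρ0 / 10) := by positivity
  have M0 : (0 : ℝ) < M := lt_trans (by positivity) hM
  have M1 : (1 : ℝ) ≤ M := by
    have : 0 < M := by exact_mod_cast M0
    exact_mod_cast this
  rw [div_lt_iff₀ m0, mul_comm, ← div_lt_iff₀ M0] at hM
  obtain ⟨l, hl⟩ : ∃ l, l = ℓ / β / (2 * M + 3) := ⟨_, rfl⟩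
  have l0 : 0 < l := by rw [hl]; positivity
  have l1 : (2 * M + 3) * (β * l) = ℓ := by rw [hl]; field_simp
  have l2 : l ≤ ℓ / β / M := by rw [hl]; gcongr; linarith
  have l3 := l2.trans_lt hM
  rw [lt_min_iff, lt_min_iff] at l3
  obtain ⟨⟨l4, l5⟩, l6⟩ := l3
  have b2 : β ^ 2 ≤ 1 := pow_le_one₀ hβ.le hβ1
  have b3 : β ^ 3 ≤ 1 := pow_le_one₀ hβ.le hβ1
  have bl0 : 0 < β * l := by positivity
  have bl : β * l ≤ l := mul_le_of_le_one_left l0.le hβ1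
  obtain ⟨e, he⟩ : ∃ e, e = β ^ 2 * l / 5 := ⟨_, rfl⟩
  have e0 : 0 < e := by rw [he]; positivity
  have e1 : β * (β * l) = 5 * e := by rw [he]; ring
  have e2 : 5 * e ≤ β * l := e1 ▸ mul_le_of_le_one_left bl0.le hβ1
  obtain ⟨τ, hτ⟩ : ∃ τ, τ = β ^ 3 * e / 10 := ⟨_, rfl⟩
  have τ0 : 0 < τ := by rw [hτ]; positivity
  have τe : 10 * τ ≤ e := by rw [hτ]; linarith only [mul_le_of_le_one_left e0.le b3]
  obtain ⟨T, -, vT, -, hS⟩ := scale P e0 (by linarith)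
  obtain ⟨s, hs⟩ := points hG hγ bl0.le (2 * M + 3) (by push_cast; linarith)
  have pair : ∀ m : ℕ, ∃ i : ℕ, (i = 2 * m + 1 ∨ i = 2 * m + 2) ∧
      (m < M → Far P.cp (2 * e) (γ (s i))) := by
    intro m
    by_contra hcon
    simp only [not_exists, not_and, Far, not_forall, not_lt, exists_prop] at hcon
    obtain ⟨hm, y, hy, d1⟩ := hcon _ (Or.inl rfl)
    obtain ⟨-, y', hy', d2⟩ := hcon _ (Or.inr rfl)
    obtain ⟨i1, i2⟩ := hs (2 * m + 1) (by omega)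
    obtain ⟨j1, j2⟩ := hs (2 * m + 2) (by omega)
    push_cast at i2 j2
    have lt : s (2 * m + 1) ≤ s (2 * m + 2) := by
      by_contra hc
      have := (hmon _ j1 _ i1 (le_of_not_ge hc)).1
      linarith
    obtain ⟨-, q1, q2⟩ := hmon _ i1 _ j1 lt
    have q0 : (γ (s (2 * m + 2))).2 - (γ (s (2 * m + 1))).2 = β * l := by linarith
    rw [q0] at q1 q2
    have q3 := le_of_mul_le_mul_left q2 hβ
    rw [dist_le_iff, abs_le, abs_le] at d1 d2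
    refine P.anti y hy y' hy' ?_ ⟨by linarith, by linarith⟩
    rw [dist_lt_iff, abs_lt, abs_lt]
    refine ⟨⟨?_, ?_⟩, ?_, ?_⟩ <;> linarith
  choose g hg1 hg2 using pair
  have hsub : (⋃ m ∈ Finset.range M, closedBall (γ (s (g m))) τ) ⊆ (A ∩ ball 0 (ρ / 4)) ∪ T := by
    intro v hv
    simp only [mem_iUnion, Finset.mem_range, mem_closedBall] at hv
    obtain ⟨m, hm, hv⟩ := hv
    have g1 : 1 ≤ g m ∧ g m + 1 ≤ 2 * M + 3 := by have := hg1 m; omega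
    obtain ⟨i1, i2⟩ := hs (g m) (by omega)
    have nv : ‖v‖ < ρ / 4 := by
      have a1 : ‖v‖ ≤ ‖v - γ (s (g m))‖ + ‖γ (s (g m))‖ := by
        simpa using norm_add_le (v - γ (s (g m))) (γ (s (g m)))
      have a2 : ‖γ (s (g m))‖ ≤ ‖γ s₀‖ := hmax i1
      rw [← dist_eq_norm] at a1; linarith
    by_contra hcon
    simp only [mem_union, mem_inter_iff, mem_ball_zero_iff, nv, and_true, not_or] at hcon
    have g2 : (1 : ℝ) ≤ g m := by exact_mod_cast g1.1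
    have g3 : (g m : ℝ) + 1 ≤ 2 * M + 3 := by exact_mod_cast g1.2
    refine (hS v hcon.1 (by linarith) hcon.2 ((hg2 m hm).near (by linarith))).strad hG hβ hβ1 e0
      (T := β * l) (z := γ (s (g m))) ⟨γ, a, s (g m), b, hγ, i1, rfl, ?_, ?_⟩ (by nlinarith only [e1, e0, hβ, hβ1, bl0]) ?_
    · rw [i2]; linarith only [mul_le_mul_of_nonneg_right g2 bl0.le]
    · rw [i2]; linarith only [mul_le_mul_of_nonneg_right g3 bl0.le, l1, hℓ]
    · rw [dist_comm]; linarith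
  have key : ∀ m m', m < m' → m' < M →
      Disjoint (closedBall (γ (s (g m))) τ) (closedBall (γ (s (g m'))) τ) := by
    intro m m' hmm hm'
    have g1 : g m + 1 ≤ g m' ∧ g m' ≤ 2 * M + 3 := by have := hg1 m; have := hg1 m'; omega
    obtain ⟨-, i2⟩ := hs (g m) (by omega)
    obtain ⟨-, j2⟩ := hs (g m') g1.2
    have g2 : (g m : ℝ) + 1 ≤ g m' := by exact_mod_cast g1.1
    rw [Set.disjoint_left]
    intro v h1 h2
    rw [mem_closedBall, dist_le_iff, abs_le, abs_le] at h1 h2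
    linarith only [h1.2.1, h2.2.2, h1.2.2, h2.2.1, i2, j2, mul_le_mul_of_nonneg_right g2 bl0.le,
      τe, e2, e0]
  have hd : ((Finset.range M : Finset ℕ) : Set ℕ).PairwiseDisjoint
      fun m => closedBall (γ (s (g m))) τ := by
    intro i hi j hj hij
    simp only [Finset.coe_range, mem_Iio] at hi hj
    rcases lt_or_gt_of_ne hij with h | h
    · exact key i j h hj
    · exact (key j i h hi).symm
  have hU := measure_biUnion_finset (μ := volume) hd (fun j _ => measurableSet_closedBall)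
  have fin := (measure_mono (μ := volume) hsub).trans (measure_union_le _ _)
  rw [hU, hA0, zero_add] at fin
  simp only [vol_ball _ τ0.le, Finset.sum_const, Finset.card_range, nsmul_eq_mul] at fin
  have fin2 := fin.trans vT
  rw [← ENNReal.ofReal_natCast, ← ENNReal.ofReal_mul (by positivity),
    ENNReal.ofReal_le_ofReal_iff (by positivity), hτ, ← l1, he] at fin2
  have p0 : 0 < β ^ 10 * l ^ 2 := by positivity
  have : (M : ℝ) * (4 * (β ^ 3 * (β ^ 2 * l / 5) / 10) ^ 2) = M * (β ^ 10 * l ^ 2) / 625 := by ring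
  rw [this] at fin2
  have : β ^ 7 * ((2 * M + 3) * (β * l)) / 1000 * (β ^ 2 * l / 5) =
    (2 * M + 3) * (β ^ 10 * l ^ 2) / 5000 := by ring
  rw [this] at fin2
  linarith only [fin2, p0, mul_le_mul_of_nonneg_right M1 p0.le]

end PlanarAux

theorem planar (A : Set (ℝ × ℝ)) (hA : MeasurableSet A) (G : (ℝ → ℝ × ℝ) → ℝ → ℝ → Prop)
    (ρ β : ℝ) (hρ : 0 < ρ) (hβ : 0 < β) (hβ1 : β ≤ 1)
    (G1 : ∀ γ a b, G γ a b → a ≤ b ∧ ContinuousOn γ (Icc a b) ∧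
      ∀ s ∈ Icc a b, ∀ t ∈ Icc a b, s ≤ t → (γ s).2 ≤ (γ t).2 ∧
        β * ((γ t).2 - (γ s).2) ≤ (γ t).1 - (γ s).1 ∧ β * ((γ t).1 - (γ s).1) ≤ (γ t).2 - (γ s).2)
    (G2 : ∀ γ a b a' b', G γ a b → a ≤ a' → a' ≤ b' → b' ≤ b → G γ a' b')
    (h : ∀ δ, 0 < δ → Nonempty (PlanarAt A G ρ β δ)) :
    ((∀ᵐ x : ℝ × ℝ, ‖x‖ < ρ / 4 → x ∈ A) ∨ ∀ᵐ x : ℝ × ℝ, ‖x‖ < ρ / 4 → x ∉ A) ∧
      ((∃ γ a b, G γ a b ∧ (γ a).2 < (γ b).2 ∧ ∀ s ∈ Icc a b, ‖γ s‖ < ρ / 4) →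
        ∀ᵐ x : ℝ × ℝ, ‖x‖ < ρ / 4 → x ∈ A) := by
  have hG : PlanarAux.GOK G β := ⟨G1, G2⟩
  have key := PlanarAux.null_or_null (hA.inter measurableSet_ball)
    (hA.compl.inter measurableSet_ball) (PlanarAux.shift_null hA hG hρ hβ hβ1 h)
  have full : volume (Aᶜ ∩ Metric.ball 0 (ρ / 4)) = 0 → ∀ᵐ x : ℝ × ℝ, ‖x‖ < ρ / 4 → x ∈ A := by
    intro h0
    filter_upwards [measure_eq_zero_iff_ae_notMem.1 h0] with x hx hn
    by_contra hc
    exact hx ⟨hc, mem_ball_zero_iff.2 hn⟩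
  refine ⟨?_, ?_⟩
  · rcases key with h0 | h0
    · right
      filter_upwards [measure_eq_zero_iff_ae_notMem.1 h0] with x hx hn hc
      exact hx ⟨hc, mem_ball_zero_iff.2 hn⟩
    · exact Or.inl (full h0)
  · rintro ⟨γ, a, b, hγ, hab, hin⟩
    exact full (key.resolve_left (PlanarAux.positive hG hρ hβ hβ1 h hγ hab hin))

end Pool.Agent.P.MP_379466_co
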