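import Pool.Agent.P.MP_379466_co.Tail
import Pool.Agent.P.MP_379466_co.Planar

/-!
The invariant set, and the chart around a curved transversal state.
-/

set_option autoImplicit false

namespace Pool.Agent.P.MP_379466_co

open Set Metric MeasureTheory Filter
open scoped Topology Real

namespace Table

variable {n : ℕ} (T : Table (Fin n))

theorem exists_loc {i : Fin n} {l₀ : Ln} (hc : Cross (T.K i) l₀)
    (hr : exP (T.K i) l₀ ∈ Reg (T.K i) (T.b i).N) : ∃ m ρ, T.Loc m ρ i l₀ := by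
  obtain ⟨m, δ, hδ, hm⟩ := hr
  have hn : {l | Cross (T.K i) l} ∈ 𝓝 l₀ := (isOpen_cross _).mem_nhds hc
  have hfr : ∀ l, Cross (T.K i) l → exP (T.K i) l ∈ frontier (T.K i) := fun l hl =>
    enP_frontier (T.b i).cpt (((cross_rev _ _).mpr hl).meets (T.b i).cvx)
  have c1 := continuousOn_exP (T.b i).cpt (T.b i).cvx (T.b i).int_ne
  have c2 : ContinuousAt (exP (T.K i)) l₀ := c1.continuousAt hn
  have c3 : ContinuousAt (fun l => (T.b i).N (exP (T.K i) l)) l₀ :=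
    ((T.b i).N_cont.comp c1 hfr).continuousAt hn
  have c4 : ContinuousAt (fun l : Ln => ip (dir l.1) ((T.b i).N (exP (T.K i) l))) l₀ :=
    (continuous_ip continuous_fst continuous_snd).continuousAt.comp
      (f := fun l : Ln => (dir l.1, (T.b i).N (exP (T.K i) l)))
      ((continuous_dir.comp continuous_fst).continuousAt.prodMk c3)
  have p : 0 < ip (dir l₀.1) ((T.b i).N (exP (T.K i) l₀)) := by
    have := (T.b i).ip_enP_neg ((cross_rev _ _).mpr hc)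
    rw [dir_rev] at this
    simp only [ip, Complex.neg_re, Complex.neg_im, exP] at this ⊢
    linarith
  have e1 := c2.eventually (ball_mem_nhds _ hδ)
  have e2 := c2.eventually (closedBall_mem_nhds _ (show 0 < T.r / 16 by linarith [T.r_pos]))
  have e3 := c4.eventually (lt_mem_nhds (half_lt_self p))
  obtain ⟨κ, hκ, hk⟩ := mem_nhds_dL.mp (((e1.and e2).and e3).and hn)
  refine ⟨m, min κ (min (1 / 16) (ip (dir l₀.1) ((T.b i).N (exP (T.K i) l₀)) / 2)),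
    lt_min hκ (lt_min (by norm_num) (half_pos p)), (min_le_right _ _).trans (min_le_left _ _),
    fun l hl => ?_⟩
  obtain ⟨⟨⟨a1, a2⟩, a3⟩, a4⟩ := hk l (hl.trans_le (min_le_left _ _))
  exact ⟨a4, ⟨a4, hm _ (hfr l a4) a1⟩, by rw [← dist_eq_norm]; exact a2,
    ((min_le_right _ _).trans (min_le_right _ _)).trans a3.le⟩

theorem cnt_large {m : ℕ} {w : St n} (h : ∀ N, ∃ t, N ≤ t ∧ T.F^[t] w ∈ T.Mk m) (c : ℕ) :
    ∃ N, ∀ t, N ≤ t → c ≤ T.cnt m t w := by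
  have mono : Monotone fun t => T.cnt m t w := monotone_nat_of_le_succ fun t => by
    rw [T.ch_cnt_succ]; omega
  induction c with
  | zero => exact ⟨0, fun _ _ => Nat.zero_le _⟩
  | succ c ih =>
    obtain ⟨N, hN⟩ := ih
    obtain ⟨t, ht, hm⟩ := h N
    refine ⟨t + 1, fun u hu => le_trans ?_ (mono hu)⟩
    have := hN t ht
    simp only [T.ch_cnt_succ, if_pos hm]
    omega

theorem wt_small {m : ℕ} {w : St n} (h : ∀ N, ∃ t, N ≤ t ∧ T.F^[t] w ∈ T.Mk m) {η : ℝ}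
    (hη : 0 < η) : ∃ N, ∀ t, N ≤ t → T.wt m t w ≤ η := by
  obtain ⟨c, hc⟩ := pow_unbounded_of_one_lt η⁻¹ (T.one_lt_lam m)
  obtain ⟨N, hN⟩ := T.cnt_large h c
  refine ⟨N, fun t ht => ?_⟩
  rw [wt]
  exact inv_le_of_inv_le₀ hη (hc.le.trans (pow_le_pow_right₀ (T.one_lt_lam m).le (hN t ht)))

end Table

namespace Tab

variable {n : ℕ} (T : Tab n)

theorem measurableSet_vp (m : ℕ) (ε δ : ℝ) : MeasurableSet (T.Vp m ε δ) := by
  have hO : IsOpen {v : St n | ∃ γ a τ₁ τ₂ b, T.TC v.1 γ a b ∧ a ≤ τ₁ ∧ τ₁ ≤ τ₂ ∧ τ₂ ≤ b ∧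
      (∀ s ∈ Icc a b, T.CE * dL v.2 (γ s) < ε) ∧ T.Up (-1) v (v.1, γ τ₁) ∧
      T.Up 1 v (v.1, γ τ₂) ∧ δ < An 1 (γ a) (γ τ₁) ∧ δ < An 1 (γ τ₂) (γ b)} := by
    refine isOpen_iff_mem_nhds.mpr ?_
    rintro v ⟨γ, a, τ₁, τ₂, b, h1, h2, h3, h4, h5, h6, h7, h8, h9⟩
    have e0 : ∀ᶠ w in 𝓝 v, w.1 = v.1 :=
      continuous_fst.continuousAt.eventually ((isOpen_discrete {v.1}).mem_nhds rfl)
    have e1 : ∀ᶠ w in 𝓝 v, ∀ l ∈ γ '' Icc a b, T.CE * dL w.2 l < ε :=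
      (isCompact_Icc.image_of_continuousOn h1.2.1).eventually_forall_of_forall_eventually
        (P := fun (w : St n) l => T.CE * dL w.2 l < ε) (by
          rintro _ ⟨s, hs, rfl⟩
          exact (isOpen_lt (f := fun z : St n × Ln => T.CE * dL z.1.2 z.2) (by fun_prop)
            continuous_const).mem_nhds (h5 s hs))
    have e2 : ∀ s l, T.Up s v (v.1, l) → ∀ᶠ w in 𝓝 v, T.Up s w (w.1, l) := fun s l h =>
      ((T.isOpen_up s).preimage (f := fun w : St n => (w, (w.1, l))) (by fun_prop)).mem_nhds h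
    filter_upwards [e0, e1, e2 _ _ h6, e2 _ _ h7] with w a0 a1 a2 a3
    exact ⟨γ, a, τ₁, τ₂, b, a0 ▸ h1, h2, h3, h4, fun s hs => a1 _ ⟨s, hs, rfl⟩, a2, a3, h8, h9⟩
  exact T.measurableSet_minf.inter ((MeasurableSet.const _).inter ((MeasurableSet.const _).inter
    ((T.isClosed_deep m ε).measurableSet.inter ((T.measurableSet_badP m ε).compl.inter
      ((T.measurableSet_badG m ε).compl.inter hO.measurableSet)))))

theorem measurableSet_AA : MeasurableSet T.AA := by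
  have e : T.AA = T.Minf ∩ ⋃ (m : ℕ) (ε : ℚ) (d : ℕ) (j : ℕ),
      (T.F^[j] ⁻¹' T.Vp m ε (1 / (d + 1 : ℝ)) ∪ T.G^[j] ⁻¹' T.Vp m ε (1 / (d + 1 : ℝ))) := by
    ext a; simp only [AA, mem_ofPred, mem_inter_iff, mem_iUnion, mem_union, mem_preimage]
  rw [e]
  exact T.measurableSet_minf.inter (.iUnion fun m => .iUnion fun ε => .iUnion fun d =>
    .iUnion fun j => ((T.measurable_F.iterate j) (T.measurableSet_vp _ _ _)).union
      ((T.measurable_G.iterate j) (T.measurableSet_vp _ _ _)))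

theorem AA_dom : T.AA ⊆ T.Dom := fun _ h => h.1.1 0

theorem AA_F : ∀ v ∈ T.AA, T.F v ∈ T.AA := by
  rintro v ⟨h, m, ε, d, j, hj⟩
  obtain ⟨h1, h2⟩ := T.F_minf h
  refine ⟨h1, m, ε, d, ?_⟩
  rcases hj with hj | hj
  · cases j with
    | zero => exact ⟨1, Or.inr (by rw [Function.iterate_one, h2]; exact hj)⟩
    | succ j => exact ⟨j, Or.inl hj⟩
  · exact ⟨j + 1, Or.inr (by rw [Function.iterate_succ_apply, h2]; exact hj)⟩

theorem AA_G : ∀ a ∈ T.AA, ∃ v ∈ T.AA, T.F v = a := by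
  rintro a ⟨h, m, ε, d, j, hj⟩
  obtain ⟨h1, h2⟩ := T.G_minf h
  refine ⟨T.G a, ⟨h1, m, ε, d, ?_⟩, h2⟩
  rcases hj with hj | hj
  · exact ⟨j + 1, Or.inl (by rw [Function.iterate_succ_apply, h2]; exact hj)⟩
  · cases j with
    | zero => exact ⟨1, Or.inl (by rw [Function.iterate_one, h2]; exact hj)⟩
    | succ j => exact ⟨j, Or.inr hj⟩

/-- almost every point of the invariant set has far ancestors in a good set -/
theorem AA_return : ∀ᵐ a ∂(mu n), a ∈ T.AA → ∃ (m : ℕ) (ε δ : ℝ), 0 < δ ∧ ∀ η, 0 < η → ∀ N : ℕ,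
    ∃ t v, N ≤ t ∧ v ∈ T.Vp m ε δ ∧ T.F^[t] v = a ∧ ε * T.wt m t (T.dag a) ≤ η := by
  have h := ae_all_iff.mpr fun m : ℕ => ae_all_iff.mpr fun ε : ℚ => ae_all_iff.mpr fun d : ℕ =>
    T.recurrence (T.measurableSet_vp m ε (1 / (d + 1 : ℝ))) fun v hv => hv.1
  filter_upwards [h] with a ha
  rintro ⟨h0, m, ε, d, hj⟩
  have h1 := ha m ε d h0 hj
  refine ⟨m, ε, _, Nat.one_div_pos_of_nat (n := d), fun η hη N => ?_⟩
  have hε : (0 : ℝ) < ε := by obtain ⟨t, -, ht⟩ := h1 0; exact ht.2.1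
  obtain ⟨M, hM⟩ := T.wt_small (m := m) (w := T.dag a) (fun N => by
    obtain ⟨t, ht, hv⟩ := h1 N
    refine ⟨t, ht, ?_⟩
    rw [T.iter_dag, T.mk_dag]
    exact (hv.2.2.2.1 _ (by rwa [dL_self])).2) (div_pos hη hε)
  obtain ⟨t, ht, hv⟩ := h1 (max N M)
  refine ⟨t, _, (le_max_left _ _).trans ht, hv, ?_, ?_⟩
  · have := T.iter_F_G h0 0 t
    rwa [zero_add] at this
  · rw [← le_div_iff₀' hε]; exact hM t ((le_max_right _ _).trans ht)

end Tab

theorem chart_zero {o : ℂ} {l : Ln} (h : sd l o = 0) : chart o l.1 0 = l :=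
  ln_ext (z := o) (by simp [chart]) (by rw [sd_chart, h]; simp)

theorem abs_chartInv_le (o : ℂ) {θ₀ : Ang} {l : Ln} (h : ‖dir θ₀ - dir l.1‖ ≤ 1 / 2) :
    |(chartInv o θ₀ l).1| ≤ 1 := by
  have h1 := ip_chart o θ₀ 0 (chartInv o θ₀ l)
  rw [chart_chartInv, show (chart o θ₀ 0).1 = θ₀ by simp [chart], ip_unit (norm_dir _) (norm_dir _),
    Prod.fst_zero, sub_zero, ← Real.cos_abs] at h1
  by_contra hh
  have h2 := Real.cos_le_cos_of_nonneg_of_le_pi zero_le_one (Complex.abs_arg_le_pi _)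
    (not_le.mp hh).le
  nlinarith [Real.cos_one_le, norm_nonneg (dir θ₀ - dir l.1), show Real.cos |(chartInv o θ₀ l).1|
    ≤ Real.cos 1 from h2]

theorem An_chart (o : ℂ) (θ₀ : Ang) (x y : ℝ × ℝ) :
    An 1 (chart o θ₀ x) (chart o θ₀ y) = Real.sin (y.1 - x.1) := by rw [An, cr_chart, one_mul]

theorem Dv_chart (o : ℂ) (θ₀ : Ang) (x y : ℝ × ℝ) :
    Dv 1 (chart o θ₀ x) (chart o θ₀ y) o = y.2 - x.2 := by
  rw [Dv, sd_chart, sd_chart]; ring

theorem mem_strip {x : ℝ × ℝ} (h : |x.1| ≤ 1) : x ∈ Ioc (-π) π ×ˢ (univ : Set ℝ) :=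
  ⟨⟨by linarith [(abs_le.mp h).1, Real.pi_gt_three],
    by linarith [(abs_le.mp h).2, Real.pi_gt_three]⟩, trivial⟩

theorem ae_chart (o : ℂ) (θ₀ : Ang) {p : Ln → Prop} (h : ∀ᵐ l : Ln, p l) :
    ∀ᵐ x : ℝ × ℝ, |x.1| ≤ 1 → p (chart o θ₀ x) := by
  have := (ae_restrict_iff' (measurableSet_Ioc.prod MeasurableSet.univ)).mp
    ((measurePreserving_chart o θ₀).quasiMeasurePreserving.ae h)
  filter_upwards [this] with x hx h1 using hx (mem_strip h1)

theorem volume_chart_le (o : ℂ) (θ₀ : Ang) (S : Set Ln) :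
    volume {x : ℝ × ℝ | |x.1| ≤ 1 ∧ chart o θ₀ x ∈ S} ≤ volume S :=
  (measure_mono (fun _ hx => mem_inter hx.2 (mem_strip hx.1))).trans
    ((Measure.le_restrict_apply _ _).trans ((measurePreserving_chart o θ₀).measure_preimage_le S))

theorem ae_of_chart (o : ℂ) (θ₀ : Ang) {p : Ln → Prop} (hp : MeasurableSet {l | p l})
    (h : ∀ᵐ x : ℝ × ℝ, x.1 ∈ Ioc (-π) π → p (chart o θ₀ x)) : ∀ᵐ l : Ln, p l := by
  rw [← (measurePreserving_chart o θ₀).map_eq,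
    ae_map_iff (continuous_chart o θ₀).measurable.aemeasurable hp,
    ae_restrict_iff' (measurableSet_Ioc.prod MeasurableSet.univ)]
  filter_upwards [h] with x hx h1 using hx h1.1

end Pool.Agent.P.MP_379466_co
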