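import Pool.Agent.P.MP_379466_co.Local0
import Pool.Agent.P.MP_379466_co.Event

/-!
Order relations in the chart; approximate stable sets.
-/

set_option autoImplicit false

namespace Pool.Agent.P.MP_379466_co

open Set Metric MeasureTheory Filter
open scoped Topology Real

namespace Tab

variable {n : ℕ} (T : Tab n)

/-- The chart at `(i, l₀)`. -/
noncomputable abbrev ch (i : Fin n) (l₀ : Ln) : ℝ × ℝ → Ln := chart (T.org i l₀) l₀.1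

/-- The inverse chart at `(i, l₀)`. -/
noncomputable abbrev ci (i : Fin n) (l₀ : Ln) : Ln → ℝ × ℝ := chartInv (T.org i l₀) l₀.1

/-- The domain of the chart. -/
def InB (ρ : ℝ) (i : Fin n) (l₀ : Ln) (x : ℝ × ℝ) : Prop :=
  |x.1| ≤ 1 ∧ dL l₀ (T.ch i l₀ x) ≤ ρ / 2

/-- Increasing curves of lines that do not escape. -/
def GC (ρ β : ℝ) (i : Fin n) (l₀ : Ln) (γ : ℝ → ℝ × ℝ) (a b : ℝ) : Prop :=
  (a ≤ b ∧ ContinuousOn γ (Icc a b) ∧ ∀ s ∈ Icc a b, ∀ t ∈ Icc a b, s ≤ t → (γ s).2 ≤ (γ t).2 ∧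
    β * ((γ t).2 - (γ s).2) ≤ (γ t).1 - (γ s).1 ∧ β * ((γ t).1 - (γ s).1) ≤ (γ t).2 - (γ s).2) ∧
  ∀ s ∈ Icc a b, T.InB ρ i l₀ (γ s) ∧ (i, T.ch i l₀ (γ s)) ∉ T.EscNS

/-- Smallness of the slope constant. -/
structure Beta (m : ℕ) (CF β : ℝ) : Prop where
  pos : 0 < β
  h₁ : β * (m + 4) ≤ 1
  h₂ : β * (2 * (1 + T.D) * T.C4) ≤ 1
  h₃ : β * (2 * (1 + T.D) * CF) ≤ 1
  h₄ : β * (4 * (1 + T.D) ^ 2 * T.CE) ≤ 1

theorem one_le_CE : 1 ≤ T.CE := by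
  rw [Table.CE]
  exact one_le_mul_of_one_le_of_one_le (one_le_mul_of_one_le_of_one_le T.one_le_C2 T.one_le_C3)
    (by linarith [T.D_ge])

theorem exists_beta (m : ℕ) {CF : ℝ} (h : 1 ≤ CF) : ∃ β, T.Beta m CF β := by
  have := T.D_ge
  have := T.one_le_C4
  have := T.one_le_CE
  have key : ∀ a b c d : ℝ, 0 < a → 0 < b → 0 < c → 0 < d →
      ∃ β, 0 < β ∧ β * a ≤ 1 ∧ β * b ≤ 1 ∧ β * c ≤ 1 ∧ β * d ≤ 1 := fun a b c d _ _ _ _ => by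
    refine ⟨(a + b + c + d)⁻¹, by positivity, ?_, ?_, ?_, ?_⟩ <;>
      rw [inv_mul_le_iff₀ (by positivity)] <;> linarith
  obtain ⟨β, h0, h1, h2, h3, h4⟩ := key (m + 4) (2 * (1 + T.D) * T.C4) (2 * (1 + T.D) * CF)
    (4 * (1 + T.D) ^ 2 * T.CE) (by positivity) (by positivity) (by positivity) (by positivity)
  exact ⟨β, h0, h1, h2, h3, h4⟩

variable {T} {m : ℕ} {ρ CF β : ℝ} {i : Fin n} {l₀ : Ln}

theorem Beta.mul_D (hβ : T.Beta m CF β) : 2 * (1 + T.D) * β ≤ 1 := by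
  nlinarith [hβ.h₂, T.one_le_C4, mul_pos hβ.pos (show 0 < 1 + T.D by linarith [T.D_ge])]

theorem Beta.le_one (hβ : T.Beta m CF β) : β ≤ 1 := by
  nlinarith [hβ.mul_D, hβ.pos, T.D_ge]

theorem dL_ch_le (h : T.Loc m ρ i l₀) (x y : ℝ × ℝ) :
    dL (T.ch i l₀ x) (T.ch i l₀ y) ≤ (1 + T.D) * dist x y :=
  (dL_chart_le _ _ x y).trans
    (mul_le_mul_of_nonneg_right (by linarith [T.bdd i _ (T.org_mem h)]) dist_nonneg)

theorem dist_le_ch (h : T.Loc m ρ i l₀) {x y : ℝ × ℝ} (hx : |x.1| ≤ 1) (hy : |y.1| ≤ 1) :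
    dist x y ≤ 2 * (1 + T.D) * dL (T.ch i l₀ x) (T.ch i l₀ y) :=
  (dist_le_dL_chart _ _ hx hy).trans
    (mul_le_mul_of_nonneg_right (by linarith [T.bdd i _ (T.org_mem h)]) (dL_nonneg _ _))

theorem ch_zero : T.ch i l₀ 0 = l₀ :=
  chart_zero (by rw [Table.org, sd_add_smul, sd_exP, cr_self]; simp)

theorem inB_ci (h : T.Loc m ρ i l₀) {l : Ln} (hl : dL l₀ l ≤ ρ / 2) :
    T.InB ρ i l₀ (T.ci i l₀ l) :=
  ⟨abs_chartInv_le _ (by linarith [dir_le_dL l₀ l, h.2.1]), by rwa [ch, chart_chartInv]⟩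

theorem InB.lt (h : T.Loc m ρ i l₀) {x : ℝ × ℝ} (hx : T.InB ρ i l₀ x) :
    dL l₀ (T.ch i l₀ x) < ρ := by linarith [hx.2, h.1]

theorem InB.an_pos {x y : ℝ × ℝ} (hx : T.InB ρ i l₀ x) (hy : T.InB ρ i l₀ y) (h : x.1 < y.1) :
    0 < An 1 (T.ch i l₀ x) (T.ch i l₀ y) := by
  rw [An_chart]
  exact Real.sin_pos_of_pos_of_lt_pi (by linarith)
    (by linarith [(abs_le.mp hx.1).1, (abs_le.mp hy.1).2, Real.pi_gt_three])

theorem InB.div (h : T.Loc m ρ i l₀) {x y : ℝ × ℝ} (hx : T.InB ρ i l₀ x) (hy : T.InB ρ i l₀ y)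
    (h₁ : x.1 ≤ y.1) (h₂ : x.2 ≤ y.2) : T.Div i 1 (T.ch i l₀ x) (T.ch i l₀ y) 0 := by
  refine T.div_of_org h (hx.lt h) (hy.lt h) ?_ (by rw [Dv_chart]; linarith)
  rw [An_chart]
  exact Real.sin_nonneg_of_nonneg_of_le_pi (by linarith)
    (by linarith [(abs_le.mp hx.1).1, (abs_le.mp hy.1).2, Real.pi_gt_three])

theorem InB.slope (h : T.Loc m ρ i l₀) (hβ : T.Beta m CF β) {x y : ℝ × ℝ} (hx : T.InB ρ i l₀ x)
    (hy : T.InB ρ i l₀ y) (hp : T.PostRel i (-1) (T.ch i l₀ x) (T.ch i l₀ y) 0) :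
    x.2 ≤ y.2 ∧ β * (y.2 - x.2) ≤ y.1 - x.1 ∧ β * (y.1 - x.1) ≤ y.2 - x.2 := by
  obtain ⟨a, b, c, d⟩ := T.slope h (hx.lt h) (hy.lt h) (Or.inr rfl) hp le_rfl
  rw [neg_neg] at a b c d
  rw [An_chart] at a d
  rw [Dv_chart] at b c d
  have h0 : 0 ≤ y.1 - x.1 := by
    by_contra hh
    linarith [Real.sin_neg_of_neg_of_neg_pi_lt (not_le.mp hh)
      (by linarith [(abs_le.mp hx.1).2, (abs_le.mp hy.1).1, Real.pi_gt_three])]
  have h1 := Real.sin_le h0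
  have h2 := dist_le_ch h hx.1 hy.1
  have h3 : y.1 - x.1 ≤ dist x y := by
    rw [dist_comm, Prod.dist_eq]
    exact (le_abs_self _).trans (le_max_left _ _)
  have hb := hβ.pos.le
  have hD : 0 ≤ 2 * (1 + T.D) := by linarith [T.D_ge]
  refine ⟨by linarith, ?_, ?_⟩
  · nlinarith [mul_le_mul_of_nonneg_left d hb, mul_le_mul_of_nonneg_right hβ.h₁ a]
  · nlinarith [mul_le_mul_of_nonneg_left (h3.trans (h2.trans (mul_le_mul_of_nonneg_left c hD))) hb,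
      mul_le_mul_of_nonneg_right hβ.h₂ b]

theorem gc_of_curve (h : T.Loc m ρ i l₀) (hβ : T.Beta m CF β) {γ : ℝ → Ln} {a b : ℝ} (hab : a ≤ b)
    (hγ : ContinuousOn γ (Icc a b)) (h₁ : ∀ s ∈ Icc a b, dL l₀ (γ s) ≤ ρ / 2 ∧ (i, γ s) ∉ T.EscNS)
    (h₂ : ∀ s ∈ Icc a b, ∀ t ∈ Icc a b, s ≤ t → T.PostRel i (-1) (γ s) (γ t) 0) :
    T.GC ρ β i l₀ (fun s => T.ci i l₀ (γ s)) a b := by
  refine ⟨⟨hab, (continuousOn_chartInv _ _).comp hγ fun s hs => ?_, fun s hs t ht hst =>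
    (inB_ci h (h₁ s hs).1).slope h hβ (inB_ci h (h₁ t ht).1) ?_⟩,
    fun s hs => ⟨inB_ci h (h₁ s hs).1, ?_⟩⟩
  · have := half_le_ip (norm_dir l₀.1) (norm_dir (γ s).1)
      (by linarith [dir_le_dL l₀ (γ s), (h₁ s hs).1, h.2.1])
    exact lt_of_lt_of_le (by norm_num) this
  · simp only [chart_chartInv]; exact h₂ s hs t ht hst
  · simp only [chart_chartInv]; exact (h₁ s hs).2

theorem inB_near (h : T.Loc m ρ i l₀) {v x : ℝ × ℝ} (hv : (1 + T.D) * ‖v‖ ≤ ρ / 4)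
    (hx : (1 + T.D) * dist x v ≤ ρ / 4) : T.InB ρ i l₀ x := by
  have h1 := dL_ch_le h 0 x
  rw [ch_zero, dist_zero_left] at h1
  have h2 : ‖x‖ ≤ ‖v‖ + dist x v := by rw [dist_eq_norm]; exact norm_le_insert' x v
  have h3 : |x.1| ≤ ‖x‖ := norm_fst_le x
  have hD := T.D_ge
  have h4 : (1 + T.D) * ‖x‖ ≤ ρ / 2 := by nlinarith
  exact ⟨by nlinarith [h.2.1, norm_nonneg x], h1.trans h4⟩

/-- a point of a curve near its start that is still in an open set -/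
theorem exists_moved {O : Set (ℝ × ℝ)} (hO : IsOpen O) {γ : ℝ → ℝ × ℝ} {I : Set ℝ}
    (hI : IsPreconnected I) (hγ : ContinuousOn γ I) {a t : ℝ} (ha : a ∈ I) (ht : t ∈ I)
    (h₁ : γ a ∈ O) (h₂ : γ t ∉ O) : ∃ τ ∈ I, γ τ ∈ O ∧ γ τ ≠ γ a := by
  obtain ⟨κ, hκ, hb⟩ := Metric.isOpen_iff.mp hO _ h₁
  have h3 : κ ≤ dist (γ t) (γ a) := not_lt.mp fun hh => h₂ (hb hh)
  obtain ⟨τ, hτ, e⟩ := hI.intermediate_value ha ht (f := fun s => dist (γ s) (γ a))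
    ((continuous_id.dist continuous_const).comp_continuousOn hγ)
    (show κ / 2 ∈ Icc _ _ from ⟨by simp only [dist_self]; linarith, by linarith⟩)
  refine ⟨τ, hτ, hb (by rw [mem_ball]; simp only at e; linarith), fun hh => ?_⟩
  simp only [hh, dist_self] at e
  linarith

theorem stable_set (h : T.Loc m ρ i l₀) (hβ : 0 < β) {R : ℝ} (hR : 0 < R) {ε : ℚ} {v : ℝ × ℝ}
    (hv : (1 + T.D) * ‖v‖ ≤ ρ / 4) (hRρ : (1 + T.D) * R ≤ ρ / 4) (hε : (ε : ℝ) ≤ T.δ2)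
    (hερ : (ε : ℝ) ≤ ρ / 2) (hRε : T.CE * ((1 + T.D) * R) < ε)
    (hP : (i, T.ch i l₀ v) ∉ T.BadP m ε) (hG : (i, T.ch i l₀ v) ∉ T.BadG m ε)
    (hM : (i, T.ch i l₀ v) ∈ T.Minf ∨ (i, T.ch i l₀ v) ∈ T.EscNS) (hA : (i, T.ch i l₀ v) ∉ T.AA) :
    ∃ σ : Set (ℝ × ℝ), v ∈ σ ∧
      (∀ x y, Lt2 x v → Lt2 v y → dist x v ≤ R → dist y v ≤ R → ∃ w ∈ segment ℝ x y, w ∈ σ) ∧
      ∀ w ∈ σ, ∀ γ s₁ s₂, T.GC ρ β i l₀ γ s₁ s₂ → (∀ s ∈ Icc s₁ s₂, dist (γ s) v ≤ R) →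
        Lt2 (γ s₁) w → Lt2 w (γ s₂) → False := by
  have hD : 0 < 1 + T.D := by linarith [T.D_ge]
  have hCE := T.one_le_CE
  have inb : ∀ x, dist x v ≤ R → T.InB ρ i l₀ x := fun x hx =>
    inB_near h hv ((mul_le_mul_of_nonneg_left hx hD.le).trans hRρ)
  have hvR : dist v v ≤ R := by rw [dist_self]; exact hR.le
  have cl : ∀ x, dist x v ≤ R → T.CE * dL (T.ch i l₀ v) (T.ch i l₀ x) < ε := fun x hx => by
    refine lt_of_le_of_lt (mul_le_mul_of_nonneg_left ((dL_ch_le h v x).trans ?_) (by linarith)) hRε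
    rw [dist_comm]; exact mul_le_mul_of_nonneg_left hx hD.le
  have cl1 : ∀ x, dist x v ≤ R → dL (T.ch i l₀ v) (T.ch i l₀ x) < T.δ1 := fun x hx => by
    nlinarith [cl x hx, dL_nonneg (T.ch i l₀ v) (T.ch i l₀ x), T.δ2_le, T.δ2_pos]
  have hdeep : (i, T.ch i l₀ v) ∈ T.Deep m ε := fun l hl => by
    have := h.2.2 l (by linarith [dL_triangle l₀ (T.ch i l₀ v) l, (inb v hvR).2])
    exact ⟨this.1, this.2.1⟩
  have hM' : (i, T.ch i l₀ v) ∈ T.Mp ∨ (i, T.ch i l₀ v) ∈ T.EscNS := hM.imp_left fun h => h.1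
  set U : ℝ → ℝ × ℝ → Prop := fun s x => T.Up s (i, T.ch i l₀ v) (i, T.ch i l₀ x) with hU
  have up : ∀ y, Lt2 v y → dist y v ≤ R → U 1 y := fun y h1 h2 =>
    T.up_of_div (Or.inl rfl) rfl (cl1 y h2) ((inb v hvR).div h (inb y h2) h1.1.le h1.2.le)
      ((inb v hvR).an_pos (inb y h2) h1.1)
  have dn : ∀ x, Lt2 x v → dist x v ≤ R → U (-1) x := fun x h1 h2 =>
    T.up_of_div (Or.inr rfl) rfl (cl1 x h2)
      (((inb x h2).div h (inb v hvR) h1.1.le h1.2.le).symm _)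
      (by rw [An_swap]; exact (inb x h2).an_pos (inb v hvR) h1.1)
  have seg : ∀ x y, U (-1) x → U 1 y → dist x v ≤ R → dist y v ≤ R →
      ∃ w ∈ segment ℝ x y, dist w v ≤ R ∧ ¬ U 1 w ∧ ¬ U (-1) w := fun x y h1 h2 h3 h4 => by
    obtain ⟨t, ht, h5⟩ := T.wazewski (v := (i, T.ch i l₀ v))
      (γ := fun t : ℝ => T.ch i l₀ (x + t • (y - x))) zero_le_one
      ((continuous_chart _ _).comp (by fun_prop)).continuousOn (by simpa using h1)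
      (by simpa using h2)
    have hw : x + t • (y - x) ∈ segment ℝ x y := by rw [segment_eq_image']; exact ⟨t, ht, rfl⟩
    exact ⟨_, hw, (convex_closedBall v R).segment_subset h3 h4 hw, h5⟩
  have anti : ∀ w u, (dist w v ≤ R ∧ ¬ U 1 w ∧ ¬ U (-1) w) → (dist u v ≤ R ∧ ¬ U 1 u ∧ ¬ U (-1) u) →
      ¬ Lt2 w u := fun w u hw hu hl =>
    T.shadow_anti hε hdeep hP hG hM' (w := (i, T.ch i l₀ w)) (w' := (i, T.ch i l₀ u)) rfl
      (cl w hw.1) hw.2.1 hw.2.2 rfl (cl u hu.1) hu.2.1 hu.2.2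
      ((inb w hw.1).div h (inb u hu.1) hl.1.le hl.2.le) ((inb w hw.1).an_pos (inb u hu.1) hl.1)
  refine ⟨{w | dist w v ≤ R ∧ ¬ U 1 w ∧ ¬ U (-1) w}, ⟨hvR, T.not_up_self _ _, T.not_up_self _ _⟩,
    fun x y h1 h2 h3 h4 => seg x y (dn x h1 h3) (up y h2 h4) h3 h4, ?_⟩
  intro w hw γ s₁ s₂ hγ hd l₁ l₂
  have hle := hγ.1.1
  have m₁ : s₁ ∈ Icc s₁ s₂ := left_mem_Icc.mpr hle
  have m₂ : s₂ ∈ Icc s₁ s₂ := right_mem_Icc.mpr hle
  have box : ∀ x, dist x v ≤ R → v.1 - R ≤ x.1 ∧ x.1 ≤ v.1 + R ∧ v.2 - R ≤ x.2 ∧ x.2 ≤ v.2 + R :=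
    fun x hx => by
      rw [Prod.dist_eq, max_le_iff, Real.dist_eq, Real.dist_eq, abs_le, abs_le] at hx
      refine ⟨?_, ?_, ?_, ?_⟩ <;> linarith [hx.1.1, hx.1.2, hx.2.1, hx.2.2]
  have u₂ : U 1 (γ s₂) := by
    by_contra hh
    refine anti w _ hw ⟨hd _ m₂, hh, fun h1 => ?_⟩ l₂
    have hc : dist (v.1 + R, v.2 + R) v ≤ R := by
      simp [Prod.dist_eq, abs_of_pos hR]
    obtain ⟨u, ⟨a, b, ha, hb, hab, rfl⟩, hu⟩ := seg _ _ h1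
      (up _ ⟨by simp [hR], by simp [hR]⟩ hc) (hd _ m₂) hc
    obtain ⟨-, b1, -, b2⟩ := box _ (hd _ m₂)
    obtain rfl : a = 1 - b := by linarith
    refine anti w _ hw hu ⟨?_, ?_⟩ <;>
      simp only [Prod.fst_add, Prod.snd_add, Prod.smul_fst, Prod.smul_snd, smul_eq_mul]
    · nlinarith [l₂.1, mul_nonneg hb (sub_nonneg.mpr b1)]
    · nlinarith [l₂.2, mul_nonneg hb (sub_nonneg.mpr b2)]
  have u₁ : U (-1) (γ s₁) := by
    by_contra hh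
    refine anti _ w ⟨hd _ m₁, fun h1 => ?_, hh⟩ hw l₁
    have hc : dist (v.1 - R, v.2 - R) v ≤ R := by
      simp [Prod.dist_eq, abs_of_pos hR]
    obtain ⟨u, ⟨a, b, ha, hb, hab, rfl⟩, hu⟩ := seg _ _
      (dn _ ⟨by simp [hR], by simp [hR]⟩ hc) h1 hc (hd _ m₁)
    obtain ⟨b1, -, b2, -⟩ := box _ (hd _ m₁)
    obtain rfl : b = 1 - a := by linarith
    refine anti _ w hu hw ⟨?_, ?_⟩ <;>
      simp only [Prod.fst_add, Prod.snd_add, Prod.smul_fst, Prod.smul_snd, smul_eq_mul]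
    · nlinarith [l₁.1, mul_nonneg ha (sub_nonneg.mpr b1)]
    · nlinarith [l₁.2, mul_nonneg ha (sub_nonneg.mpr b2)]
  have hc : ContinuousOn (fun s => T.ch i l₀ (γ s)) (Icc s₁ s₂) :=
    (continuous_chart _ _).comp_continuousOn hγ.1.2.1
  obtain ⟨t, ht, n₁, n₂⟩ := T.wazewski (v := (i, T.ch i l₀ v)) hle hc u₁ u₂
  rcases hM with hM | ⟨k, hk, he⟩
  · have hO : ∀ s, IsOpen {x | U s x} := fun s => (T.isOpen_up s).preimage
      (f := fun x => ((i, T.ch i l₀ v), (i, T.ch i l₀ x)))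
      (continuous_const.prodMk (continuous_const.prodMk (continuous_chart _ _)))
    have s₁' : Icc s₁ t ⊆ Icc s₁ s₂ := Icc_subset_Icc_right ht.2
    have s₂' : Icc t s₂ ⊆ Icc s₁ s₂ := Icc_subset_Icc_left ht.1
    obtain ⟨τ₁, t₁, a₁, b₁⟩ := exists_moved (hO (-1)) isPreconnected_Icc (hγ.1.2.1.mono s₁')
      (left_mem_Icc.mpr ht.1) (right_mem_Icc.mpr ht.1) u₁ n₂
    obtain ⟨τ₂, t₂, a₂, b₂⟩ := exists_moved (hO 1) isPreconnected_Icc (hγ.1.2.1.mono s₂')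
      (right_mem_Icc.mpr ht.2) (left_mem_Icc.mpr ht.2) u₂ n₁
    have mono : ∀ s ∈ Icc s₁ s₂, ∀ s' ∈ Icc s₁ s₂, s ≤ s' → (γ s).1 ≤ (γ s').1 :=
      fun s hs s' hs' hh => by
        obtain ⟨c1, c2, -⟩ := hγ.1.2.2 s hs s' hs' hh
        nlinarith
    have strict : ∀ s ∈ Icc s₁ s₂, ∀ s' ∈ Icc s₁ s₂, s ≤ s' → γ s ≠ γ s' →
        0 < An 1 (T.ch i l₀ (γ s)) (T.ch i l₀ (γ s')) := fun s hs s' hs' hh hne => by
      refine (hγ.2 s hs).1.an_pos (hγ.2 s' hs').1 (lt_of_le_of_ne (mono s hs s' hs' hh) fun e => ?_)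
      obtain ⟨c1, c2, -⟩ := hγ.1.2.2 s hs s' hs' hh
      exact hne (Prod.ext e (le_antisymm c1 (by nlinarith)))
    obtain ⟨d, hd'⟩ := exists_nat_one_div_lt
      (lt_min (strict _ m₁ _ (s₁' t₁) t₁.1 b₁.symm) (strict _ (s₂' t₂) _ m₂ t₂.2 b₂))
    refine hA ⟨hM, m, ε, d, 0, Or.inl ⟨hM, ?_, hε, hdeep, hP, hG, fun s => T.ch i l₀ (γ s),
      s₁, τ₁, τ₂, s₂, ⟨hle, hc, fun s hs => ⟨(h.2.2 _ ((hγ.2 s hs).1.lt h)).1, (hγ.2 s hs).2⟩,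
        fun s hs s' hs' hh => (hγ.2 s hs).1.div h (hγ.2 s' hs').1 (mono s hs s' hs' hh)
          (hγ.1.2.2 s hs s' hs' hh).1⟩,
      t₁.1, t₁.2.trans t₂.1, t₂.2, fun s hs => cl _ (hd s hs), a₁, a₂,
      hd'.trans_le (min_le_left _ _), hd'.trans_le (min_le_right _ _)⟩⟩
    exact lt_of_le_of_lt (by positivity) hRε
  · obtain ⟨f, e, -⟩ := T.shadow_esc hε hdeep hP hG (w := (i, T.ch i l₀ (γ t))) rfl
      (cl _ (hd t ht)) n₁ n₂ k hk he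
    exact (hγ.2 t ht).2 ⟨k, f.2.1, e⟩

end Tab

end Pool.Agent.P.MP_379466_co
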