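import Pool.Agent.P.MP_379466_co.Lines

set_option autoImplicit false

namespace Pool.Agent.P.MP_379466_co

open Set MeasureTheory
open scoped Real ENNReal

theorem measurePreserving_rev : MeasurePreserving rev (volume : Measure Ln) volume :=
  (measurePreserving_add_right (volume : Measure Ang) ((π : ℝ) : Ang)).prod
    (Measure.measurePreserving_neg (volume : Measure ℝ))

namespace Meas

/-- The density of the measure on lines in terms of direction and first boundary point. -/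
noncomputable def W (b : Body) (θ : Ang) (s : ℝ) : ℝ :=
  |cr (b.N (b.γ s)) (deriv b.γ s)| * max (-ip (dir θ) (b.N (b.γ s))) 0

theorem γ_mem (b : Body) (s : ℝ) : b.γ s ∈ frontier b.K := b.γ_range ▸ mem_range_self s

theorem cont_N (b : Body) : Continuous fun s => b.N (b.γ s) :=
  b.N_cont.comp_continuous b.γ_cd.continuous (γ_mem b)

theorem cont_d (b : Body) : Continuous (deriv b.γ) := b.γ_cd.continuous_deriv (by norm_num)

theorem cont_W (b : Body) : Continuous fun x : Ang × ℝ => W b x.1 x.2 := by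
  have h1 := (cont_N b).comp (continuous_snd (X := Ang))
  have h2 := (cont_d b).comp (continuous_snd (X := Ang))
  exact (continuous_cr h1 h2).abs.mul
    ((continuous_ip (continuous_dir.comp continuous_fst) h1).neg.max continuous_const)

theorem cont_mk (b : Body) : Continuous fun x : Ang × ℝ => mkL (b.γ x.2) x.1 := by
  have := b.γ_cd.continuous
  fun_prop

theorem cr_eq {N g : ℂ} (u : ℂ) (h1 : ‖N‖ = 1) (h2 : ip N g = 0) : cr u g = cr N g * ip u N := by
  have h3 := unit_sq h1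
  unfold ip cr at *
  linear_combination (-(u.re * g.im - u.im * g.re)) * h3 + (u.re * N.im - u.im * N.re) * h2

theorem slice (b : Body) (θ : Ang) (φ : Ln → ℝ≥0∞) :
    ∫⁻ p in {p | Cross b.K (θ, p)}, φ (θ, p) =
      ∫⁻ s in Ico (0 : ℝ) 1, ENNReal.ofReal (W b θ s) * φ (mkL (b.γ s) θ) := by
  have hN := cont_N b
  set S := {s | ip (dir θ) (b.N (b.γ s)) < 0} with hS
  have hm : MeasurableSet S := (isOpen_lt (by fun_prop) continuous_const).measurableSet
  have h0 : ∀ s, sd (mkL (b.γ s) θ) (b.γ s) = 0 := fun s => by simp [sd, mkL]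
  have h1 : {p | Cross b.K (θ, p)} = (fun s => cr (dir θ) (b.γ s)) '' (S ∩ Ico 0 1) := by
    ext p
    constructor
    · intro hp
      obtain ⟨t, ht⟩ : enP b.K (θ, p) ∈ range b.γ :=
        b.γ_range ▸ enP_frontier b.cpt (Cross.meets b.cvx hp)
      obtain ⟨s, hs, e⟩ := b.γ_per.exists_mem_Ico₀ one_pos t
      rw [e] at ht
      refine ⟨s, ⟨?_, hs⟩, ?_⟩
      · simpa only [hS, mem_ofPred_eq, ht] using b.ip_enP_neg hp
      · have := sd_enP b.K (θ, p)
        rw [← ht] at this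
        exact sub_eq_zero.1 this
    · rintro ⟨s, hs, rfl⟩
      exact (b.cross_of_ip_neg (γ_mem b s) (h0 s) hs.1).1
  have h2 : ∀ s, HasDerivAt (fun s => cr (dir θ) (b.γ s)) (cr (dir θ) (deriv b.γ s)) s := by
    intro s
    have h3 := (b.γ_cd.differentiable (by norm_num) s).hasDerivAt
    exact ((Complex.imCLM.hasFDerivAt.comp_hasDerivAt s h3).const_mul _).sub
      ((Complex.reCLM.hasFDerivAt.comp_hasDerivAt s h3).const_mul _)
  rw [h1, lintegral_image_eq_lintegral_abs_deriv_mul (hm.inter measurableSet_Ico)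
    (fun s _ => (h2 s).hasDerivWithinAt), ← Measure.restrict_restrict hm, ← lintegral_indicator hm]
  · refine lintegral_congr fun s => ?_
    by_cases hs : s ∈ S
    · have h4 : ip (dir θ) (b.N (b.γ s)) < 0 := hs
      rw [indicator_of_mem hs, cr_eq _ (b.N_norm _ (γ_mem b s)) (b.N_γ s), abs_mul, abs_of_neg h4,
        W, max_eq_left (by linarith)]
      rfl
    · have h4 : 0 ≤ ip (dir θ) (b.N (b.γ s)) := not_lt.1 hs
      rw [indicator_of_notMem hs, W, max_eq_right (by linarith)]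
      simp
  · intro s hs t ht e
    have e1 : mkL (b.γ s) θ = mkL (b.γ t) θ := Prod.ext rfl e
    refine b.γ_inj hs.2 ht.2 ?_
    rw [← (b.cross_of_ip_neg (γ_mem b s) (h0 s) hs.1).2, e1,
      (b.cross_of_ip_neg (γ_mem b t) (h0 t) ht.1).2]

theorem formula (b : Body) {φ : Ln → ℝ≥0∞} (hφ : Measurable φ) :
    ∫⁻ l in {l | Cross b.K l}, φ l =
      ∫⁻ s in Ico (0 : ℝ) 1, ∫⁻ θ, ENNReal.ofReal (W b θ s) * φ (mkL (b.γ s) θ) := by
  have hm := (isOpen_cross b.K).measurableSet
  rw [← lintegral_lintegral_swap ((cont_W b).measurable.ennreal_ofReal.mul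
    (hφ.comp (cont_mk b).measurable)).aemeasurable, ← lintegral_indicator hm, Measure.volume_eq_prod,
    lintegral_prod _ (hφ.indicator hm).aemeasurable]
  refine lintegral_congr fun θ => ?_
  rw [← slice]
  exact lintegral_indicator (measurable_prodMk_left hm) fun p => φ (θ, p)

theorem formula_refl (b : Body) {φ : Ln → ℝ≥0∞} (hφ : Measurable φ) :
    ∫⁻ l in {l | Cross b.K l}, φ (rev (refl b l)) = ∫⁻ l in {l | Cross b.K l}, φ l := by
  rw [formula b hφ, formula b (φ := fun l => φ (rev (refl b l)))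
    (hφ.comp (continuous_rev.comp (continuous_refl b)).measurable)]
  refine lintegral_congr fun s => ?_
  have hn := b.N_norm _ (γ_mem b s)
  set N := b.N (b.γ s) with hN
  rw [← lintegral_sub_left_eq_self (fun θ => ENNReal.ofReal (W b θ s) * φ (mkL (b.γ s) θ))
    (ang (-N ^ 2) + ((π : ℝ) : Ang))]
  refine lintegral_congr fun θ => ?_
  have h1 : dir (ang (-N ^ 2) + ((π : ℝ) : Ang) - θ) = N ^ 2 * (starRingEnd ℂ) (dir θ) := by
    rw [sub_eq_add_neg, dir_add, dir_add, dir_ang (by simp [hn]), dir_pi, dir_neg]; ring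
  have h2 : W b (ang (-N ^ 2) + ((π : ℝ) : Ang) - θ) s = W b θ s := by
    have h3 := unit_sq hn
    have : ip (N ^ 2 * (starRingEnd ℂ) (dir θ)) N = ip (dir θ) N := by
      simp only [ip, pow_two, Complex.mul_re, Complex.mul_im, Complex.conj_re, Complex.conj_im]
      linear_combination ((dir θ).re * N.re + (dir θ).im * N.im) * h3
    rw [W, W, h1, ← hN, this]
  rw [h2]
  by_cases h4 : ip (dir θ) N < 0
  · obtain ⟨h5, h6⟩ := b.cross_of_ip_neg (l := mkL (b.γ s) θ) (γ_mem b s) (by simp [sd, mkL]) h4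
    congr 2
    rw [refl, if_pos h5, h6, ← hN]
    refine ln_ext (z := b.γ s) ?_ ?_
    · simp only [rev, mkL]; abel
    · rw [sd_rev]; simp [sd, mkL]
  · rw [W, ← hN, max_eq_right (by linarith)]
    simp

theorem vol_ip {N : ℂ} (hN : ‖N‖ = 1) (ψ : ℝ) :
    volume {θ : Ang | |ip (dir θ) N| ≤ ψ} ≤ ENNReal.ofReal (π * ψ) + ENNReal.ofReal (π * ψ) := by
  have hm : MeasurableSet {θ : Ang | |ip (dir θ) N| ≤ ψ} :=
    (isClosed_le (by fun_prop) continuous_const).measurableSet
  have h1 := ((measurePreserving_add_left (volume : Measure Ang) (ang (Complex.I * N))).comp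
    (AddCircle.measurePreserving_mk (2 * π) (-(π / 2)))).measure_preimage hm.nullMeasurableSet
  rw [← h1, Measure.restrict_apply' measurableSet_Ioc]
  have h2 : ∀ x : ℝ, |ip (dir (ang (Complex.I * N) + (x : Ang))) N| = |Real.sin x| := by
    intro x
    have h3 := unit_sq hN
    rw [dir_add, dir_ang (by simp [hN]), dir_coe, ← abs_neg]
    congr 1
    simp only [ip, Complex.mul_re, Complex.mul_im, Complex.I_re, Complex.I_im,
      Complex.exp_ofReal_mul_I_re, Complex.exp_ofReal_mul_I_im]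
    linear_combination (Real.sin x) * h3
  have h4 : ∀ x : ℝ, |x| ≤ π / 2 → |Real.sin x| ≤ ψ → |x| ≤ π * ψ / 2 := by
    intro x hx h
    have := (Real.mul_abs_le_abs_sin hx).trans h
    rw [div_mul_eq_mul_div, div_le_iff₀ Real.pi_pos] at this
    linarith
  refine le_trans (measure_mono (t := Icc (-(π * ψ / 2)) (π * ψ / 2) ∪
    Icc (π - π * ψ / 2) (π + π * ψ / 2)) ?_) ((measure_union_le _ _).trans ?_)
  · rintro x ⟨hx, x1, x2⟩
    simp only [mem_preimage, Function.comp_apply, mem_ofPred_eq, h2] at hx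
    by_cases h : x ≤ π / 2
    · exact Or.inl (abs_le.1 (h4 x (abs_le.2 ⟨x1.le, h⟩) hx))
    · have := abs_le.1 (h4 (x - π) (abs_le.2 ⟨by linarith, by linarith⟩)
        (by rwa [Real.sin_sub_pi, abs_neg]))
      exact Or.inr ⟨by linarith, by linarith⟩
  · rw [Real.volume_Icc, Real.volume_Icc]
    apply le_of_eq
    congr 2 <;> ring

end Meas

theorem measurePreserving_refl (b : Body) :
    MeasurePreserving (refl b) (volume : Measure Ln) volume := by
  have hm := (isOpen_cross b.K).measurableSet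
  have hr := (continuous_refl b).measurable
  refine ⟨hr, Measure.ext_of_lintegral _ fun φ hφ => ?_⟩
  rw [lintegral_map hφ hr, ← lintegral_add_compl _ hm, ← lintegral_add_compl φ hm]
  congr 1
  · have h1 := Meas.formula_refl b (φ := fun l => φ (rev l)) (hφ.comp continuous_rev.measurable)
    simp only [rev_rev] at h1
    rw [h1, ← measurePreserving_rev.setLIntegral_comp_preimage hm hφ]
    congr 2
    ext l
    exact (cross_rev _ _).symm
  · exact setLIntegral_congr_fun hm.compl fun l hl => by rw [refl_of_not_cross hl]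

theorem volume_strip {Θ : Set Ang} (hΘ : MeasurableSet Θ) {g w : Ang → ℝ} (hg : Measurable g)
    (hw : Measurable w) :
    volume {l : Ln | l.1 ∈ Θ ∧ |l.2 - g l.1| ≤ w l.1} = ∫⁻ θ in Θ, ENNReal.ofReal (2 * w θ) := by
  have hm : MeasurableSet {l : Ln | l.1 ∈ Θ ∧ |l.2 - g l.1| ≤ w l.1} :=
    (measurable_fst hΘ).inter (measurableSet_le (f := fun l : Ln => |l.2 - g l.1|)
      (g := fun l : Ln => w l.1) (by fun_prop) (by fun_prop))
  rw [Measure.volume_eq_prod, Measure.prod_apply hm, ← lintegral_indicator hΘ]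
  refine lintegral_congr fun θ => ?_
  by_cases h : θ ∈ Θ
  · have : Prod.mk θ ⁻¹' {l : Ln | l.1 ∈ Θ ∧ |l.2 - g l.1| ≤ w l.1} =
        Icc (g θ - w θ) (g θ + w θ) := by
      ext p
      simp only [mem_preimage, mem_ofPred_eq, h, true_and, abs_le, mem_Icc]
      constructor <;> rintro ⟨h1, h2⟩ <;> constructor <;> linarith
    rw [this, indicator_of_mem h, Real.volume_Icc]
    congr 1; ring
  · simp [h]

theorem volume_tangent {S : Set ℂ} (h : IsCompact S) :
    volume {l : Ln | Meets S l ∧ ¬ Cross S l} = 0 := by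
  have h1 : ∀ τ, volume {l : Ln | l.1 ∈ (univ : Set Ang) ∧ |l.2 - (tanL S τ l.1).2| ≤ 0} = 0 :=
    fun τ => by
      simpa using volume_strip MeasurableSet.univ (continuous_tanL h τ).snd.measurable
        (measurable_const (a := (0 : ℝ)))
  refine measure_mono_null ?_ (measure_union_null (h1 1) (h1 (-1)))
  rintro l ⟨h2, h3⟩
  obtain ⟨τ, hτ, h4⟩ := side_of_not_cross h3
  have h5 := congrArg Prod.snd (eq_tanL hτ h2 h4)
  rcases hτ with rfl | rfl
  · exact Or.inl ⟨trivial, by rw [← h5]; simp⟩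
  · exact Or.inr ⟨trivial, by rw [← h5]; simp⟩

theorem volume_graze (b : Body) : ∃ C : ℝ, 0 ≤ C ∧ ∀ ψ : ℝ, 0 ≤ ψ →
    volume {l : Ln | Cross b.K l ∧ |ip (dir l.1) (b.N (enP b.K l))| ≤ ψ} ≤
      ENNReal.ofReal (C * ψ ^ 2) := by
  have hN := Meas.cont_N b
  have hd := Meas.cont_d b
  obtain ⟨C, hC⟩ := (isCompact_Icc (a := (0 : ℝ)) (b := 1)).exists_bound_of_continuousOn
    (f := fun s => cr (b.N (b.γ s)) (deriv b.γ s)) (by fun_prop)
  have C0 : 0 ≤ C := (norm_nonneg _).trans (hC 0 (by simp))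
  refine ⟨2 * π * C, by positivity, fun ψ hψ => ?_⟩
  have ho := isOpen_cross b.K
  have h1 : ContinuousOn (fun l : Ln => |ip (dir l.1) (b.N (enP b.K l))|) {l | Cross b.K l} := by
    have h2 : ContinuousOn (fun l : Ln => b.N (enP b.K l)) {l | Cross b.K l} :=
      b.N_cont.comp (continuousOn_enP b.cpt b.cvx b.int_ne)
        fun l hl => enP_frontier b.cpt (Cross.meets b.cvx hl)
    have h3 : Continuous fun x : Ln × ℂ => |ip (dir x.1.1) x.2| := by fun_prop
    exact h3.comp_continuousOn (f := fun l : Ln => (l, b.N (enP b.K l))) (continuousOn_id.prodMk h2)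
  set T := {l | Cross b.K l} ∩ (fun l : Ln => |ip (dir l.1) (b.N (enP b.K l))|) ⁻¹' Ioi ψ with hT
  have hm : MeasurableSet Tᶜ := (h1.isOpen_inter_preimage ho isOpen_Ioi).measurableSet.compl
  have h4 : {l : Ln | Cross b.K l ∧ |ip (dir l.1) (b.N (enP b.K l))| ≤ ψ} =
      Tᶜ ∩ {l | Cross b.K l} := by
    ext l
    simp only [hT, mem_ofPred_eq, mem_inter_iff, mem_compl_iff, mem_preimage, mem_Ioi, not_and,
      not_lt]
    tauto
  rw [h4, ← Measure.restrict_apply hm, ← lintegral_indicator_one hm,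
    Meas.formula b (measurable_one.indicator hm)]
  calc _ ≤ ∫⁻ _ in Ico (0 : ℝ) 1, ENNReal.ofReal (2 * π * C * ψ ^ 2) := ?_
    _ = _ := by simp
  refine setLIntegral_mono' measurableSet_Ico fun s hs => ?_
  have hn := b.N_norm _ (Meas.γ_mem b s)
  have hm2 : MeasurableSet {θ : Ang | |ip (dir θ) (b.N (b.γ s))| ≤ ψ} :=
    (isClosed_le (by fun_prop) continuous_const).measurableSet
  calc _ ≤ ∫⁻ θ, {θ : Ang | |ip (dir θ) (b.N (b.γ s))| ≤ ψ}.indicator
        (fun _ => ENNReal.ofReal (C * ψ)) θ := lintegral_mono fun θ => ?_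
    _ = ENNReal.ofReal (C * ψ) * volume {θ : Ang | |ip (dir θ) (b.N (b.γ s))| ≤ ψ} :=
        lintegral_indicator_const hm2 _
    _ ≤ ENNReal.ofReal (C * ψ) * (ENNReal.ofReal (π * ψ) + ENNReal.ofReal (π * ψ)) :=
        mul_le_mul_right (Meas.vol_ip hn ψ) _
    _ = _ := by
        rw [← ENNReal.ofReal_add (by positivity) (by positivity),
          ← ENNReal.ofReal_mul (by positivity)]
        congr 1; ring
  by_cases h5 : ip (dir θ) (b.N (b.γ s)) < 0
  · obtain ⟨h6, h7⟩ := b.cross_of_ip_neg (l := mkL (b.γ s) θ) (Meas.γ_mem b s)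
      (by simp [sd, mkL]) h5
    by_cases h8 : |ip (dir θ) (b.N (b.γ s))| ≤ ψ
    · rw [indicator_of_mem (show θ ∈ {θ : Ang | |ip (dir θ) (b.N (b.γ s))| ≤ ψ} from h8)]
      refine (mul_le_of_le_one_right' (indicator_le_self Tᶜ (1 : Ln → ℝ≥0∞) _)).trans
        (ENNReal.ofReal_le_ofReal ?_)
      exact mul_le_mul (hC s (Ico_subset_Icc_self hs)) (max_le ((neg_le_abs _).trans h8) hψ)
        (le_max_right _ _) C0
    · have : mkL (b.γ s) θ ∉ Tᶜ := fun h => h ⟨h6, by
        simp only [mem_preimage, mem_Ioi, h7]; exact not_le.1 h8⟩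
      simp only [indicator_of_notMem this, mul_zero, zero_le]
  · simp only [Meas.W, max_eq_right (show -ip (dir θ) (b.N (b.γ s)) ≤ 0 by linarith), mul_zero,
      ENNReal.ofReal_zero, zero_mul, zero_le]

/-- Coordinates on lines: angle from `θ₀` and signed distance from the point `o`. -/
noncomputable def chart (o : ℂ) (θ₀ : Ang) (x : ℝ × ℝ) : Ln :=
  (θ₀ + (x.1 : Ang), x.2 + cr (dir (θ₀ + (x.1 : Ang))) o)

/-- The coordinates of a line. -/
noncomputable def chartInv (o : ℂ) (θ₀ : Ang) (l : Ln) : ℝ × ℝ :=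
  (Complex.arg ((starRingEnd ℂ) (dir θ₀) * dir l.1), -sd l o)

theorem continuous_chart (o : ℂ) (θ₀ : Ang) : Continuous (chart o θ₀) := by
  have : Continuous fun x : ℝ × ℝ => (x.1 : Ang) :=
    (AddCircle.continuous_mk' (2 * π)).comp continuous_fst
  unfold chart
  fun_prop

theorem chart_chartInv (o : ℂ) (θ₀ : Ang) (l : Ln) : chart o θ₀ (chartInv o θ₀ l) = l := by
  have h : θ₀ + ((chartInv o θ₀ l).1 : Ang) = l.1 := by
    have := ang_dir (-θ₀ + l.1)
    rw [dir_add, dir_neg, ang] at this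
    rw [chartInv, this]; abel
  refine Prod.ext h ?_
  simp only [chart, h]
  simp [chartInv, sd]

theorem chartInv_chart (o : ℂ) (θ₀ : Ang) {x : ℝ × ℝ} (h : x.1 ∈ Ioc (-π) π) :
    chartInv o θ₀ (chart o θ₀ x) = x := by
  refine Prod.ext ?_ (by simp [chartInv, chart, sd])
  simp only [chartInv, chart]
  rw [← dir_neg, ← dir_add, neg_add_cancel_left, dir_coe, Complex.exp_mul_I]
  exact Complex.arg_cos_add_sin_mul_I h

theorem continuousOn_chartInv (o : ℂ) (θ₀ : Ang) :
    ContinuousOn (chartInv o θ₀) {l | 0 < ip (dir θ₀) (dir l.1)} := by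
  refine ContinuousOn.prodMk (fun l hl => ?_) (by fun_prop)
  refine (ContinuousAt.comp (f := fun l : Ln => (starRingEnd ℂ) (dir θ₀) * dir l.1)
    (Complex.continuousAt_arg (Or.inl ?_)) (by fun_prop)).continuousWithinAt
  simpa [ip] using hl

theorem sd_chart (o : ℂ) (θ₀ : Ang) (x : ℝ × ℝ) : sd (chart o θ₀ x) o = -x.2 := by
  simp [chart, sd]

theorem cr_chart (o : ℂ) (θ₀ : Ang) (x y : ℝ × ℝ) :
    cr (dir (chart o θ₀ x).1) (dir (chart o θ₀ y).1) = Real.sin (y.1 - x.1) := by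
  have h := unit_sq (norm_dir θ₀)
  simp only [chart, dir_add, dir_coe, cr, Complex.mul_re, Complex.mul_im,
    Complex.exp_ofReal_mul_I_re, Complex.exp_ofReal_mul_I_im, Real.sin_sub]
  linear_combination (Real.sin y.1 * Real.cos x.1 - Real.cos y.1 * Real.sin x.1) * h

theorem ip_chart (o : ℂ) (θ₀ : Ang) (x y : ℝ × ℝ) :
    ip (dir (chart o θ₀ x).1) (dir (chart o θ₀ y).1) = Real.cos (y.1 - x.1) := by
  have h := unit_sq (norm_dir θ₀)
  simp only [chart, dir_add, dir_coe, ip, Complex.mul_re, Complex.mul_im,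
    Complex.exp_ofReal_mul_I_re, Complex.exp_ofReal_mul_I_im, Real.cos_sub]
  linear_combination (Real.cos y.1 * Real.cos x.1 + Real.sin y.1 * Real.sin x.1) * h

theorem Meas.norm_dir_sub (θ₀ : Ang) (x y : ℝ) :
    ‖dir (θ₀ + (x : Ang)) - dir (θ₀ + (y : Ang))‖ = ‖Complex.exp (Complex.I * (x - y : ℝ)) - 1‖ := by
  have : dir (θ₀ + (x : Ang)) - dir (θ₀ + (y : Ang)) =
      dir (θ₀ + (y : Ang)) * (Complex.exp (Complex.I * (x - y : ℝ)) - 1) := by
    rw [mul_comm Complex.I, ← dir_coe, mul_sub, ← dir_add, mul_one, AddCircle.coe_sub]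
    congr 2; abel
  rw [this, norm_mul, norm_dir, one_mul]

theorem Meas.snd_sub (o : ℂ) (θ₀ : Ang) (x y : ℝ × ℝ) :
    |(chart o θ₀ x).2 - (chart o θ₀ y).2 - (x.2 - y.2)| ≤
      ‖dir (chart o θ₀ x).1 - dir (chart o θ₀ y).1‖ * ‖o‖ := by
  refine le_trans (le_of_eq ?_) (abs_cr_le _ _)
  congr 1
  simp only [chart, cr, Complex.sub_re, Complex.sub_im]
  ring

theorem dL_chart_le (o : ℂ) (θ₀ : Ang) (x y : ℝ × ℝ) :
    dL (chart o θ₀ x) (chart o θ₀ y) ≤ (1 + ‖o‖) * dist x y := by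
  have h1 : ‖dir (chart o θ₀ x).1 - dir (chart o θ₀ y).1‖ ≤ dist x y := by
    refine le_trans ?_ (le_max_left (dist x.1 y.1) (dist x.2 y.2))
    simp only [chart, Meas.norm_dir_sub]
    exact Real.norm_exp_I_mul_ofReal_sub_one_le
  have h2 : |x.2 - y.2| ≤ dist x y := le_max_right (dist x.1 y.1) (dist x.2 y.2)
  have h3 := Meas.snd_sub o θ₀ x y
  have h4 := mul_le_mul_of_nonneg_right h1 (norm_nonneg o)
  have h5 := abs_sub_abs_le_abs_sub ((chart o θ₀ x).2 - (chart o θ₀ y).2) (x.2 - y.2)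
  have h6 : 0 ≤ dist x y * ‖o‖ := by positivity
  exact max_le (by linarith) (by linarith)

theorem dist_le_dL_chart (o : ℂ) (θ₀ : Ang) {x y : ℝ × ℝ} (hx : |x.1| ≤ 1) (hy : |y.1| ≤ 1) :
    dist x y ≤ 2 * (1 + ‖o‖) * dL (chart o θ₀ x) (chart o θ₀ y) := by
  have h0 := dL_nonneg (chart o θ₀ x) (chart o θ₀ y)
  have h1 : ‖dir (chart o θ₀ x).1 - dir (chart o θ₀ y).1‖ ≤ dL (chart o θ₀ x) (chart o θ₀ y) :=
    le_max_left _ _
  have h2 : |(chart o θ₀ x).2 - (chart o θ₀ y).2| ≤ dL (chart o θ₀ x) (chart o θ₀ y) :=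
    le_max_right _ _
  have h3 := Meas.snd_sub o θ₀ x y
  have h4 := mul_le_mul_of_nonneg_right h1 (norm_nonneg o)
  have h5 := abs_sub_abs_le_abs_sub (x.2 - y.2) ((chart o θ₀ x).2 - (chart o θ₀ y).2)
  rw [abs_sub_comm (x.2 - y.2)] at h5
  have h6 : 0 ≤ dL (chart o θ₀ x) (chart o θ₀ y) * ‖o‖ := by positivity
  have h7 : |x.1 - y.1| ≤ 2 * ‖dir (chart o θ₀ x).1 - dir (chart o θ₀ y).1‖ := by
    simp only [chart, Meas.norm_dir_sub]
    rw [Complex.norm_exp_I_mul_ofReal_sub_one, Real.norm_eq_abs, abs_mul, abs_two]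
    have a1 : |(x.1 - y.1) / 2| = |x.1 - y.1| / 2 := by rw [abs_div, abs_two]
    have a2 := abs_sub x.1 y.1
    have a3 := Real.mul_abs_le_abs_sin (x := (x.1 - y.1) / 2) (by linarith [Real.pi_gt_three])
    rw [a1, div_mul_eq_mul_div, div_le_iff₀ Real.pi_pos] at a3
    nlinarith [Real.pi_le_four, abs_nonneg (Real.sin ((x.1 - y.1) / 2))]
  refine max_le (show |x.1 - y.1| ≤ _ by linarith) (show |x.2 - y.2| ≤ _ by linarith)

theorem measurePreserving_chart (o : ℂ) (θ₀ : Ang) :
    MeasurePreserving (chart o θ₀) (volume.restrict (Ioc (-π) π ×ˢ (univ : Set ℝ))) volume := by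
  have h1 := (measurePreserving_add_left (volume : Measure Ang) θ₀).comp
    (AddCircle.measurePreserving_mk (2 * π) (-π))
  rw [show -π + 2 * π = π by ring] at h1
  rw [Measure.volume_eq_prod, ← Measure.prod_restrict, Measure.restrict_univ]
  exact h1.skew_product (g := fun t p => p + cr (dir (θ₀ + (t : Ang))) o)
    (continuous_chart o θ₀).snd.measurable
    (Filter.Eventually.of_forall fun t => (measurePreserving_add_right volume _).map_eq)

end Pool.Agent.P.MP_379466_co
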