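import Pool.Agent.P.MP_379466_co.Pair1

/-!
Pairs of nearby lines: flights, reflections, sandwiches.
-/

set_option autoImplicit false

namespace Pool.Agent.P.MP_379466_co

open Set Metric Complex

namespace Tab

variable {n : ℕ} (T : Tab n)

theorem δ1_pos : 0 < T.δ1 := by linarith [T.δ2_pos, T.δ2_le]

theorem eN_mul : T.r / (100 * (1 + T.D) ^ 2) * (1 + T.D) ^ 2 = T.r / 100 := by
  have := T.D_ge
  field_simp

theorem eN_pos : 0 < T.r / (100 * (1 + T.D) ^ 2) := by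
  have := T.D_ge
  have := T.r_pos
  positivity

theorem δ1_sq : (1 + T.D) ^ 2 * T.δ1 ≤ T.r / 100 := by
  rw [← T.eN_mul, mul_comm]
  exact mul_le_mul_of_nonneg_right T.δ1_le (sq_nonneg _)

theorem δ1_small : (1 + T.D) * T.δ1 ≤ T.r / 100 := by
  nlinarith [T.δ1_sq, T.δ1_pos, T.D_ge, mul_pos T.δ1_pos (by linarith [T.D_ge] : 0 < T.D)]

theorem δ1_le_one : T.δ1 ≤ 1 := by
  nlinarith [T.δ1_small, T.δ1_pos, T.D_ge, T.r_le]

theorem abs_sd_close {l₁ l₂ : Ln} (hd : dL l₁ l₂ ≤ T.δ1) {i : Fin n} {z : ℂ} (hz : z ∈ T.B i) :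
    |sd l₁ z - sd l₂ z| ≤ T.r / 100 :=
  (T.abs_sd_le l₁ l₂ hz).trans
    ((mul_le_mul_of_nonneg_left hd (by linarith [T.D_ge])).trans T.δ1_small)

theorem abs_sd_of {l₁ l₂ : Ln} (hd : dL l₁ l₂ ≤ T.δ1) {i : Fin n} {z : ℂ} (hz : z ∈ T.B i)
    (h : sd l₁ z = 0 ∨ sd l₂ z = 0) : |sd l₁ z| ≤ T.r / 4 := by
  have := T.abs_sd_close hd hz
  have hr := T.r_pos
  rcases h with h | h
  · rw [h, abs_zero]; linarith
  · rw [h, sub_zero] at this; linarith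

theorem flight_in {i j : Fin n} {s W : ℝ} (hs : s = 1 ∨ s = -1) {l₁ l₂ : Ln}
    (hd : dL l₁ l₂ ≤ T.δ1) (h : T.Div i s l₁ l₂ W) (h₁ : T.Free i l₁ j) (h₂ : Cross (T.K j) l₂) :
    T.InRel j s l₁ l₂ (W + T.r * An s l₁ l₂) := by
  have m₁ := T.K_sub_B j (enP_mem (T.b j).cpt (h₁.2.1.meets (T.b j).cvx))
  have m₂ := T.K_sub_B j (enP_mem (T.b j).cpt (h₂.meets (T.b j).cvx))
  exact ⟨h₁.2.1, h₂, h.1,
    T.flight h₁.1 hs (hd.trans T.δ1_le_one) h h₁.2.2.1.le m₁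
      (T.abs_sd_of hd m₁ (Or.inl (sd_enP _ _))),
    T.flight h₁.1 hs (hd.trans T.δ1_le_one) h h₁.2.2.1.le m₂
      (T.abs_sd_of hd m₂ (Or.inr (sd_enP _ _)))⟩

theorem cmp_of_div {i : Fin n} {s : ℝ} (hs : s = 1 ∨ s = -1) {l₁ l₂ : Ln} (hd : dL l₁ l₂ ≤ T.δ1)
    (h : T.Div i s l₁ l₂ 0) (ha : 0 < An s l₁ l₂) : T.Cmp i s l₁ l₂ := by
  refine ⟨ha, fun k hk hν z hz h0 => ?_⟩
  have := T.flight hk.symm hs (hd.trans T.δ1_le_one) h hν (T.K_sub_B k hz)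
    (T.abs_sd_of hd (T.K_sub_B k hz) h0)
  nlinarith [T.r_pos]

theorem reflect_core {j : Fin n} {s W : ℝ} (hs : s = 1 ∨ s = -1) {l₁ l₂ : Ln}
    (hd : dL l₁ l₂ ≤ T.δ1) (h : T.InRel j s l₁ l₂ W) (hW : 0 ≤ W) :
    An s l₁ l₂ + ‖(T.b j).N (enP (T.K j) l₁) - (T.b j).N (enP (T.K j) l₂)‖ ≤
        An (-s) (refl (T.b j) l₁) (refl (T.b j) l₂) ∧
      An (-s) (refl (T.b j) l₁) (refl (T.b j) l₂) ≤ 1 / 16 ∧
      (∃ P, (P = enP (T.K j) l₁ ∨ P = enP (T.K j) l₂) ∧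
        |sd (refl (T.b j) l₁) P| ≤ T.r / 16 ∧ |sd (refl (T.b j) l₂) P| ≤ T.r / 16 ∧
        W - T.r / 4 * An (-s) (refl (T.b j) l₁) (refl (T.b j) l₂) ≤
          Dv (-s) (refl (T.b j) l₁) (refl (T.b j) l₂) P) ∧
      W ≤ ‖enP (T.K j) l₂ - enP (T.K j) l₁‖ ∧
      ∀ m, enP (T.K j) l₁ ∈ SC (T.K j) (T.b j).N m → ‖enP (T.K j) l₂ - enP (T.K j) l₁‖ ≤
        m * ‖(T.b j).N (enP (T.K j) l₁) - (T.b j).N (enP (T.K j) l₂)‖ := by
  obtain ⟨c₁, c₂, ha, g₁, g₂⟩ := h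
  have hr := T.r_pos
  have hr1 := T.r_le
  have hD := T.D_ge
  have f₁ := enP_frontier (T.b j).cpt (c₁.meets (T.b j).cvx)
  have f₂ := enP_frontier (T.b j).cpt (c₂.meets (T.b j).cvx)
  have m₁ := (T.b j).frontier_sub f₁
  have m₂ := (T.b j).frontier_sub f₂
  have p₁ := (T.b j).ip_enP_neg c₁
  have p₂ := (T.b j).ip_enP_neg c₂
  have r₁ := dir_refl c₁
  have r₂ := dir_refl c₂
  have z₁ := sd_refl_enP c₁
  have z₂ := sd_refl_enP c₂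
  have y₁ := sd_enP (T.K j) l₁
  have y₂ := sd_enP (T.K j) l₂
  have n₁ := (T.b j).N_norm _ f₁
  have n₂ := (T.b j).N_norm _ f₂
  have o₁ := (T.b j).N_out _ f₁ _ m₂
  have o₂ := (T.b j).N_out _ f₂ _ m₁
  have q₁ := (T.b j).N_eq_of m₂ f₁
  have q₂ := (T.b j).N_eq_of m₁ f₂
  have b₁ := T.bdd j _ (T.K_sub_B j m₁)
  have b₂ := T.bdd j _ (T.K_sub_B j m₂)
  have a₁ := T.abs_sd_le l₁ l₂ (T.K_sub_B j m₁)
  have a₂ := T.abs_sd_le l₁ l₂ (T.K_sub_B j m₂)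
  have hN := T.hN j _ f₁ _ f₂ _ _ (norm_dir l₁.1) (norm_dir l₂.1) p₁.le p₂.le
    ((dir_le_dL _ _).trans hd)
  have hsc : ∀ m, enP (T.K j) l₁ ∈ SC (T.K j) (T.b j).N m → _ := fun m hm => hm.2 _ m₂
  generalize enP (T.K j) l₁ = P₁ at *
  generalize enP (T.K j) l₂ = P₂ at *
  generalize (T.b j).N P₁ = N₁ at *
  generalize (T.b j).N P₂ = N₂ at *
  generalize refl (T.b j) l₁ = x₁ at *
  generalize refl (T.b j) l₂ = x₂ at *
  have e₁ : sd l₁ P₂ = cr (dir l₁.1) (P₂ - P₁) := by rw [← sd_sub, y₁, sub_zero]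
  have e₂ : sd l₂ P₁ = -cr (dir l₂.1) (P₂ - P₁) := by rw [← sd_sub, y₂]; ring
  have e₃ : sd x₁ P₂ = cr (dir x₁.1) (P₂ - P₁) := by rw [← sd_sub, z₁, sub_zero]
  have e₄ : sd x₂ P₁ = -cr (dir x₂.1) (P₂ - P₁) := by rw [← sd_sub, z₂]; ring
  have e₅ : ip N₂ (P₁ - P₂) = -ip (P₂ - P₁) N₂ := by simp only [ip, sub_re, sub_im]; ring
  have e₆ : ip N₁ (P₁ - P₂) = -ip (P₂ - P₁) N₁ := by simp only [ip, sub_re, sub_im]; ring
  have hdd : ‖P₂ - P₁‖ ≤ 2 * T.D := by linarith [norm_sub_le P₂ P₁]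
  rw [Dv, y₁, e₂] at g₁
  rw [Dv, y₂, e₁] at g₂
  rw [y₁, e₂, zero_sub, neg_neg] at a₁
  rw [y₂, e₁, sub_zero] at a₂
  rw [e₅] at o₂
  rw [ip_comm] at o₁ q₂
  rw [e₆] at q₁ hsc
  rw [norm_sub_rev] at hsc
  have dd : (1 + T.D) * dL l₁ l₂ ≤ (1 + T.D) * T.δ1 := mul_le_mul_of_nonneg_left hd (by linarith)
  replace hN := hN (a₂.trans dd)
  have hu := ((dir_le_dL _ _).trans hd).trans T.δ1_le
  have hε := T.eN_mul
  have hε0 := T.eN_pos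
  have hδ := T.δ1_small
  generalize T.r / (100 * (1 + T.D) ^ 2) = ε at *
  generalize P₂ - P₁ = d at *
  have hε1 : ε ≤ 1 / 400 := by
    have : ε * 4 ≤ ε * (1 + T.D) ^ 2 := mul_le_mul_of_nonneg_left (by nlinarith only [hD]) hε0.le
    linarith
  have hε2 : 4 * T.D * ε ≤ T.r / 100 := by linarith only [hε, mul_nonneg hε0.le (sq_nonneg (T.D - 1))]
  have sg := sign_normal (d := d) hs n₁ n₂
    (by linarith [half_le_ip (norm_dir l₁.1) (norm_dir l₂.1) (by linarith)])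
    (by linarith [half_le_ip n₁ n₂ (by linarith)]) p₁ p₂ o₁ (by linarith)
    (fun h => q₁ (by linarith)) (fun h => (q₂ h).symm) (by linarith) (by linarith)
  have ag := angle_gain hs (norm_dir l₁.1) (norm_dir l₂.1) n₁ n₂ (by linarith) (by linarith) ha sg
  have rs := refl_sub_le (norm_dir l₂.1) n₁ n₂ hu hN
  have gk := gap_keep (d := d) hs (norm_dir l₂.1) n₁ n₂ hu hN o₁ (by linarith)
  have k₁ := abs_cr_refl_le _ d (norm_dir l₁.1) n₁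
  have k₂ := abs_cr_refl_le _ d (norm_dir l₂.1) n₂
  have hh := abs_h_le o₁ (show 0 ≤ ip d N₂ by linarith)
  rw [← r₁, ← r₂] at ag rs gk
  rw [← r₁, abs_of_nonpos o₁] at k₁
  rw [← r₂, abs_of_nonneg (show 0 ≤ ip d N₂ by linarith)] at k₂
  have n0 := norm_nonneg (N₁ - N₂)
  have d0 := norm_nonneg d
  have hdn : ‖d‖ * ‖N₁ - N₂‖ ≤ 2 * T.D * ε := mul_le_mul hdd hN n0 (by linarith)
  have hA : An (-s) x₁ x₂ ≤ 1 / 16 := by
    have := abs_cr_le_sub (norm_dir x₁.1) (dir x₂.1)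
    rw [← abs_sign_mul (sign_neg' hs)] at this
    have := (abs_le.mp this).2
    rw [An]; linarith
  have ag' : An s l₁ l₂ + ‖N₁ - N₂‖ ≤ An (-s) x₁ x₂ := ag
  refine ⟨ag', hA, ?_, ?_, fun m hm => ?_⟩
  · rcases gk with gk | gk
    · refine ⟨P₂, Or.inr rfl, by rw [e₃]; linarith, by rw [z₂, abs_zero]; linarith, ?_⟩
      rw [Dv, z₂, e₃, sub_zero]
      have h1 : 4 * ε * (‖d‖ * ‖N₁ - N₂‖) ≤ T.r / 4 * ‖N₁ - N₂‖ := by
        rw [← mul_assoc]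
        exact mul_le_mul_of_nonneg_right (by
          linarith only [mul_le_mul_of_nonneg_left hdd hε0.le, hε2, hr]) n0
      linarith only [gk, g₂, h1, mul_le_mul_of_nonneg_left ag' hr.le, mul_nonneg hr.le ha]
    · refine ⟨P₁, Or.inl rfl, by rw [z₁, abs_zero]; linarith, by rw [e₄, abs_neg]; linarith, ?_⟩
      rw [Dv, z₁, e₄]
      linarith only [gk, g₁, mul_le_mul_of_nonneg_left ag' hr.le, mul_nonneg hr.le ha,
        mul_nonneg hr.le n0]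
  · have := abs_cr_le (dir l₁.1) d
    rw [norm_dir, ← abs_sign_mul hs] at this
    linarith [(abs_le.mp this).2]
  · have h1 := hsc m hm
    rcases d0.eq_or_lt with h0 | h0
    · rw [← h0]; positivity
    · have h2 : (m : ℝ) * -ip d N₁ ≤ m * (‖d‖ * ‖N₁ - N₂‖) :=
        mul_le_mul_of_nonneg_left (by linarith) (Nat.cast_nonneg m)
      exact le_of_mul_le_mul_left (by linarith only [h1, h2]) h0

theorem reflect {j : Fin n} {s W : ℝ} (hs : s = 1 ∨ s = -1) {l₁ l₂ : Ln} (hd : dL l₁ l₂ ≤ T.δ1)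
    (h : T.InRel j s l₁ l₂ W) (hW : 0 ≤ W) :
    An s l₁ l₂ ≤ An (-s) (refl (T.b j) l₁) (refl (T.b j) l₂) ∧
      T.Div j (-s) (refl (T.b j) l₁) (refl (T.b j) l₂) W ∧
      ∀ m, (j, refl (T.b j) l₁) ∈ T.Mk m →
        T.Div j (-s) (refl (T.b j) l₁) (refl (T.b j) l₂) (T.lam m * W) := by
  obtain ⟨h1, h2, ⟨P, hP, h3, h4, h5⟩, h6, h7⟩ := T.reflect_core hs hd h hW
  have hr := T.r_pos
  have ha := h.2.2.1
  have n0 := norm_nonneg ((T.b j).N (enP (T.K j) l₁) - (T.b j).N (enP (T.K j) l₂))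
  have hPK : P ∈ T.K j := by
    rcases hP with rfl | rfl
    · exact enP_mem (T.b j).cpt (h.1.meets (T.b j).cvx)
    · exact enP_mem (T.b j).cpt (h.2.1.meets (T.b j).cvx)
  have key : T.Div j (-s) (refl (T.b j) l₁) (refl (T.b j) l₂)
      (W + T.r / 4 * An (-s) (refl (T.b j) l₁) (refl (T.b j) l₂)) := by
    generalize refl (T.b j) l₁ = x₁ at *
    generalize refl (T.b j) l₂ = x₂ at *
    have hA : 0 ≤ An (-s) x₁ x₂ := by linarith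
    have e : cr (dir x₂.1) (dir x₁.1) = s * An (-s) x₁ x₂ := by
      simp only [An, cr]
      linear_combination
        (-((dir x₂.1).re * (dir x₁.1).im - (dir x₂.1).im * (dir x₁.1).re)) * sign_sq hs
    refine ⟨hA, P + (T.r / 2) • dir x₁.1, T.mem_B hPK ?_, ?_, ?_, ?_⟩
    · rw [add_sub_cancel_left, norm_smul, norm_dir, Real.norm_eq_abs, abs_of_pos (by linarith)]
      linarith
    · rw [sd_add_smul, cr_self]; simp only [mul_zero, add_zero]; linarith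
    · rw [sd_add_smul, e]
      refine (abs_add_le _ _).trans ?_
      rw [abs_mul, abs_sign_mul hs, abs_of_nonneg hA, abs_of_pos (by linarith : 0 < T.r / 2)]
      nlinarith
    · have e2 : Dv (-s) x₁ x₂ (P + (T.r / 2) • dir x₁.1) =
          Dv (-s) x₁ x₂ P + T.r / 2 * An (-s) x₁ x₂ := by
        simp only [Dv, sd_add_smul, cr_self, e]
        linear_combination (T.r / 2 * An (-s) x₁ x₂) * sign_sq hs
      linarith
  refine ⟨by linarith, key.mono _ (by nlinarith), fun m hm => key.mono _ ?_⟩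
  have h8 := h7 m (by have := hm.2; rwa [exP_refl h.1] at this)
  have h9 : W ≤ (m + 1) * An (-s) (refl (T.b j) l₁) (refl (T.b j) l₂) := by
    nlinarith [(Nat.cast_nonneg m : (0 : ℝ) ≤ m)]
  have h10 : W / (m + 1) ≤ An (-s) (refl (T.b j) l₁) (refl (T.b j) l₂) := by
    rw [div_le_iff₀ (by positivity)]; linarith
  have e : T.lam m * W = W + T.r / 4 * (W / (m + 1)) := by
    rw [Table.lam]; field_simp
  nlinarith

theorem nu_pos {i j : Fin n} (hij : i ≠ j) {l₁ l₂ : Ln} (hd : dL l₁ l₂ ≤ T.δ1) {z w : ℂ}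
    (hz : z ∈ T.B i) (hw : w ∈ T.B j) (h₁ : |sd l₁ z| ≤ T.r / 4) (h₂ : |sd l₁ w| ≤ T.r / 4)
    (h : 0 ≤ ip (T.ν i j) (dir l₁.1)) : 0 < ip (T.ν i j) (dir l₂.1) := by
  have hg : |cr (dir l₁.1) (w - z)| ≤ T.r / 2 := by
    rw [← sd_sub]; linarith [abs_sub (sd l₁ w) (sd l₁ z)]
  have h3 := Table.sep_lower (T.ν_norm i j hij) (norm_dir l₁.1) (T.sep i j hij z hz w hw) hg
  have h4 := abs_ip_le (dir l₁.1) (w - z)
  have h5 := abs_ip_le (T.ν i j) (dir l₁.1 - dir l₂.1)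
  rw [norm_dir] at h4
  rw [T.ν_norm i j hij] at h5
  have h6 : ip (dir l₁.1) (w - z) ≤ 2 * T.D := by
    linarith [(abs_le.mp h4).2, norm_sub_le w z, T.bdd i z hz, T.bdd j w hw]
  have e : ip (T.ν i j) (dir l₁.1 - dir l₂.1) =
      ip (T.ν i j) (dir l₁.1) - ip (T.ν i j) (dir l₂.1) := by simp only [ip, sub_re, sub_im]; ring
  have h7 : ip (T.ν i j) (dir l₁.1) - ip (T.ν i j) (dir l₂.1) ≤ T.δ1 := by
    linarith [(abs_le.mp h5).2, dir_le_dL l₁ l₂]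
  by_contra hh
  nlinarith [T.δ1_small, T.δ1_pos, T.r_pos, T.D_ge,
    mul_le_mul h6 (show ip (T.ν i j) (dir l₁.1) ≤ T.δ1 by linarith) h (by linarith [T.D_ge])]

theorem exists_side {j : Fin n} {l : Ln} (h : Cross (T.K j) l) {s : ℝ} (hs : s = 1 ∨ s = -1) :
    ∃ z ∈ T.K j, s * sd l z < 0 ∧ |sd l z| ≤ T.r / 4 := by
  obtain ⟨c, hc, h0⟩ := h.exists_interior (T.b j).cvx (T.b j).int_ne
  obtain ⟨ε, hε, hb⟩ := Metric.mem_nhds_iff.mp (mem_interior_iff_mem_nhds.mp hc)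
  have hr := T.r_pos
  have ht : 0 < min (ε / 2) (T.r / 4) := lt_min (by linarith) (by linarith)
  have h1 := min_le_left (ε / 2) (T.r / 4)
  have h2 := min_le_right (ε / 2) (T.r / 4)
  generalize min (ε / 2) (T.r / 4) = t at *
  refine ⟨c + (-s * t) • (I * dir l.1), hb ?_, ?_, ?_⟩
  · rw [mem_ball, dist_eq_norm, add_sub_cancel_left, norm_smul, Real.norm_eq_abs,
      abs_sign_mul (sign_neg' hs), abs_of_pos ht]
    simp [norm_dir]; linarith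
  · rw [sd_add_smul, cr_dir_I, h0]; nlinarith [sign_sq hs]
  · rw [sd_add_smul, cr_dir_I, h0, zero_add, mul_one, abs_sign_mul (sign_neg' hs), abs_of_pos ht]
    exact h2

theorem center_gap {k : Fin n} {l : Ln} {s : ℝ} (hs : s = 1 ∨ s = -1)
    (h : ∀ z ∈ T.K k, 0 ≤ s * sd l z) : T.r ≤ s * sd l (T.c k) := by
  have := h (T.c k + (-s * T.r) • (I * dir l.1)) (T.ball k (by
    rw [mem_closedBall, dist_eq_norm, add_sub_cancel_left, norm_smul, Real.norm_eq_abs,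
      abs_sign_mul (sign_neg' hs), abs_of_pos T.r_pos]
    simp [norm_dir]))
  rw [sd_add_smul, cr_dir_I] at this
  have e : s * (sd l (T.c k) + -s * T.r * 1) = s * sd l (T.c k) - T.r := by
    linear_combination (-T.r) * sign_sq hs
  linarith

theorem side_sign {k : Fin n} {l : Ln} {s : ℝ} (hs : s = 1 ∨ s = -1) (h : ¬ Meets (T.K k) l)
    {z : ℂ} (hz : z ∈ T.K k) (h0 : 0 ≤ s * sd l z) : ∀ w ∈ T.K k, 0 ≤ s * sd l w := by
  obtain ⟨τ, hτ, h1⟩ := side_of_not_meets (T.b k).cvx h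
  intro w hw
  have h2 := h1 z hz
  have h3 := h1 w hw
  rcases hs with rfl | rfl <;> rcases hτ with rfl | rfl <;> linarith

theorem sand_free {i j : Fin n} {s : ℝ} (hs : s = 1 ∨ s = -1) {l₁ y l₂ : Ln}
    (h₁ : T.Free i l₁ j) (h₂ : T.Free i l₂ j) (d₁ : T.Div i s l₁ y 0) (d₂ : T.Div i s y l₂ 0)
    (e₁ : dL l₁ y ≤ T.δ1) (e₂ : dL y l₂ ≤ T.δ1) : T.Free i y j := by
  have hr := T.r_pos
  have e₁' : dL y l₁ ≤ T.δ1 := by rwa [dL_comm]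
  have e₂' : dL l₂ y ≤ T.δ1 := by rwa [dL_comm]
  have f₁ : ∀ k, i ≠ k → 0 ≤ ip (T.ν i k) (dir l₁.1) → ∀ z ∈ T.K k, |sd l₁ z| ≤ T.r / 4 →
      s * sd y z ≤ s * sd l₁ z := fun k hk hν z hz h0 => by
    have := T.flight hk hs (e₁.trans T.δ1_le_one) d₁ hν (T.K_sub_B k hz) h0
    rw [Dv] at this
    nlinarith [d₁.1]
  have f₂ : ∀ k, i ≠ k → 0 ≤ ip (T.ν i k) (dir l₂.1) → ∀ z ∈ T.K k, |sd l₂ z| ≤ T.r / 4 →
      s * sd l₂ z ≤ s * sd y z := fun k hk hν z hz h0 => by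
    have := T.flight hk (sign_neg' hs) (e₂'.trans T.δ1_le_one) (d₂.symm _) hν (T.K_sub_B k hz) h0
    rw [Dv] at this
    nlinarith [(d₂.symm _).1]
  have hc : Cross (T.K j) y := by
    obtain ⟨z, hz, a1, a2⟩ := T.exists_side h₁.2.1 hs
    obtain ⟨w, hw, b1, b2⟩ := T.exists_side h₂.2.1 (sign_neg' hs)
    have a3 := f₁ j h₁.1 h₁.2.2.1.le z hz a2
    have b3 := f₂ j h₁.1 h₂.2.2.1.le w hw b2
    rcases hs with rfl | rfl
    · exact ⟨⟨z, hz, by linarith⟩, w, hw, by linarith⟩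
    · exact ⟨⟨w, hw, by linarith⟩, z, hz, by linarith⟩
  obtain ⟨w, hw, hw0⟩ := hc.meets (T.b j).cvx
  have hwB := T.K_sub_B j hw
  obtain ⟨-, z₀, hz₀, s₁, s₂, -⟩ := id d₁
  refine ⟨h₁.1, hc, T.nu_pos h₁.1 e₁ hz₀ hwB (by linarith) (T.abs_sd_of e₁ hwB (Or.inr hw0))
    h₁.2.2.1.le, ?_⟩
  rintro k hki hkj ν₁ ν₂ ⟨z, hz, hz0⟩
  have hzB := T.K_sub_B k hz
  have sz : |sd y z| ≤ T.r / 4 := by rw [hz0, abs_zero]; linarith
  have sw : |sd y w| ≤ T.r / 4 := by rw [hw0, abs_zero]; linarith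
  have a1 := (T.nu_pos hki.symm e₁' hz₀ hzB (by linarith) sz ν₁).le
  have a2 := (T.nu_pos hkj e₁' hzB hwB sz sw ν₂).le
  have b1 := (T.nu_pos hki.symm e₂ hz₀ hzB (by linarith) sz ν₁).le
  have b2 := (T.nu_pos hkj e₂ hzB hwB sz sw ν₂).le
  have a3 := f₁ k hki.symm a1 z hz (T.abs_sd_of e₁ hzB (Or.inr hz0))
  have b3 := f₂ k hki.symm b1 z hz (T.abs_sd_of e₂' hzB (Or.inr hz0))
  rw [hz0] at a3 b3
  have a4 := T.center_gap hs (T.side_sign hs (h₁.2.2.2 k hki hkj a1 a2) hz (by linarith))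
  have b4 := T.center_gap (sign_neg' hs)
    (T.side_sign (sign_neg' hs) (h₂.2.2.2 k hki hkj b1 b2) hz (by linarith))
  have hcB := T.K_sub_B k (T.ball k (mem_closedBall_self hr.le))
  have c1 := abs_le.mp (T.abs_sd_close e₁ hcB)
  have c2 := abs_le.mp (T.abs_sd_close e₂ hcB)
  rcases hs with rfl | rfl <;> linarith

theorem sand_dL₁ {i : Fin n} {s : ℝ} (hs : s = 1 ∨ s = -1) {l₁ y l₂ : Ln}
    (d₁ : T.Div i s l₁ y 0) (d₂ : T.Div i s y l₂ 0) (e₁ : dL l₁ y ≤ T.δ1) (e₂ : dL y l₂ ≤ T.δ1) :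
    dL l₁ y ≤ T.C3 * dL l₁ l₂ := by
  obtain ⟨a₁, z, hz, -, -, g₁⟩ := d₁
  obtain ⟨a₂, w, hw, -, -, g₂⟩ := d₂
  have hD := T.D_ge
  have d0 := dL_nonneg l₁ l₂
  have h1 := (An_le_of_between hs (e₁.trans T.δ1_le_one) (e₂.trans T.δ1_le_one) a₁ a₂).1
  have h2 := dir_le_An hs (e₁.trans T.δ1_le_one) a₁
  have h3 := (abs_le.mp (abs_An_le hs l₁ l₂)).2
  have h4 : ‖dir l₁.1 - dir y.1‖ ≤ 3 * dL l₁ l₂ := by linarith
  have h5 := (abs_le.mp (T.abs_Dv_le hs l₁ l₂ hw)).2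
  have e : Dv s l₁ l₂ w = Dv s l₁ y w + Dv s y l₂ w := by simp only [Dv]; ring
  have key : ∀ k, ∀ x ∈ T.B k, |Dv s l₁ y x - s * (y.2 - l₁.2)| ≤ 3 * dL l₁ l₂ * T.D := by
    intro k x hx
    have e2 : Dv s l₁ y x - s * (y.2 - l₁.2) = s * cr (dir l₁.1 - dir y.1) x := by
      simp only [Dv, sd, cr, sub_re, sub_im]; ring
    rw [e2, abs_sign_mul hs]
    exact (abs_cr_le _ _).trans (mul_le_mul h4 (T.bdd k x hx) (norm_nonneg _) (by linarith))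
  have k1 := abs_le.mp (key i z hz)
  have k2 := abs_le.mp (key i w hw)
  rw [Table.C3]
  refine max_le (by nlinarith) ?_
  rw [abs_sub_comm, ← abs_sign_mul hs, abs_le]
  constructor <;> nlinarith

theorem sand_dL {i : Fin n} {s : ℝ} (hs : s = 1 ∨ s = -1) {l₁ y l₂ : Ln}
    (d₁ : T.Div i s l₁ y 0) (d₂ : T.Div i s y l₂ 0) (e₁ : dL l₁ y ≤ T.δ1) (e₂ : dL y l₂ ≤ T.δ1) :
    dL l₁ y ≤ T.C3 * dL l₁ l₂ ∧ dL y l₂ ≤ T.C3 * dL l₁ l₂ := by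
  refine ⟨T.sand_dL₁ hs d₁ d₂ e₁ e₂, ?_⟩
  rw [dL_comm y, dL_comm l₁]
  exact T.sand_dL₁ (sign_neg' hs) (d₂.symm _) (d₁.symm _) (by rwa [dL_comm]) (by rwa [dL_comm])

theorem slope {m : ℕ} {ρ : ℝ} {i : Fin n} {l₀ l₁ l₂ : Ln} (h : T.Loc m ρ i l₀)
    (h₁ : dL l₀ l₁ < ρ) (h₂ : dL l₀ l₂ < ρ) {s W : ℝ} (hs : s = 1 ∨ s = -1)
    (hp : T.PostRel i s l₁ l₂ W) (hW : 0 ≤ W) :
    0 ≤ An (-s) l₁ l₂ ∧ W ≤ Dv (-s) l₁ l₂ (T.org i l₀) ∧
      dL l₁ l₂ ≤ T.C4 * Dv (-s) l₁ l₂ (T.org i l₀) ∧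
      Dv (-s) l₁ l₂ (T.org i l₀) ≤ (m + 4) * An (-s) l₁ l₂ := by
  obtain ⟨h1, -, ⟨P, hP, -, -, h5⟩, -, h7⟩ := T.reflect_core hs hp.1 hp.2 hW
  have x₁ := exP_refl hp.2.1
  have x₂ := exP_refl hp.2.2.1
  have ha := hp.2.2.2.1
  rw [← x₁, ← x₂] at h1 hP h7
  rw [T.refl_inL, T.refl_inL] at h1 hP h5 h7
  have hr := T.r_pos
  have hr1 := T.r_le
  have hD := T.D_ge
  have n0 := norm_nonneg ((T.b i).N (exP (T.K i) l₁) - (T.b i).N (exP (T.K i) l₂))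
  have hA : 0 ≤ An (-s) l₁ l₂ := by linarith
  have hd : dL l₁ l₂ ≤ 1 := by
    linarith [dL_triangle l₁ l₀ l₂, dL_comm l₁ l₀, h.2.1]
  have mv := Dv_move (sign_neg' hs) ((dir_le_dL _ _).trans hd) hA
  have k1 : W + T.r / 2 * An (-s) l₁ l₂ ≤ Dv (-s) l₁ l₂ (T.org i l₀) := by
    obtain ⟨a, b, -⟩ : |cr (dir l₁.1) (T.org i l₀ - P)| ≤ T.r / 8 ∧
        7 / 8 * T.r ≤ ip (dir l₁.1) (T.org i l₀ - P) ∧ ip (dir l₁.1) (T.org i l₀ - P) ≤ 2 := by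
      rcases hP with rfl | rfl
      · exact h.org_sub _ h₁ h₁
      · exact h.org_sub _ h₁ h₂
    have := (abs_le.mp (mv P (T.org i l₀))).1
    nlinarith
  have k0 : 0 ≤ Dv (-s) l₁ l₂ (T.org i l₀) := by nlinarith
  refine ⟨hA, by nlinarith, ?_, ?_⟩
  · have := T.dL_le_Dv (sign_neg' hs) hd hA (T.org_mem h)
    rw [abs_of_nonneg k0] at this
    have e : T.C4 * T.r = 8 * (1 + T.D) := by rw [Table.C4, div_mul_cancel₀ _ hr.ne']
    have c4 := T.one_le_C4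
    have k2 : T.C4 * (T.r / 2 * An (-s) l₁ l₂) ≤ T.C4 * Dv (-s) l₁ l₂ (T.org i l₀) :=
      mul_le_mul_of_nonneg_left (by linarith) (by linarith)
    have k3 : T.C4 * (T.r / 2 * An (-s) l₁ l₂) = 4 * (1 + T.D) * An (-s) l₁ l₂ := by
      linear_combination (An (-s) l₁ l₂ / 2) * e
    have k4 : 2 ≤ T.C4 := by nlinarith
    nlinarith
  · obtain ⟨a, -, b⟩ := h.org_sub _ h₁ h₁
    have k2 := (abs_le.mp (mv (exP (T.K i) l₁) (T.org i l₀))).2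
    have k3 := h7 m (h.2.2 l₁ h₁).2.1.2
    have k4 : Dv (-s) l₁ l₂ (exP (T.K i) l₁) ≤ ‖exP (T.K i) l₂ - exP (T.K i) l₁‖ := by
      have := abs_cr_le (dir l₂.1) (exP (T.K i) l₂ - exP (T.K i) l₁)
      rw [norm_dir, ← sd_sub, sd_exP, ← abs_sign_mul (sign_neg' hs)] at this
      rw [Dv, sd_exP]
      linarith [(abs_le.mp this).2]
    have k5 : (m : ℝ) * ‖(T.b i).N (exP (T.K i) l₁) - (T.b i).N (exP (T.K i) l₂)‖ ≤
        m * An (-s) l₁ l₂ := mul_le_mul_of_nonneg_left (by linarith) (Nat.cast_nonneg m)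
    nlinarith

end Tab

end Pool.Agent.P.MP_379466_co
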