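import Pool.Agent.P.MP_379466_co.Dyn

/-!
Pairs of nearby lines: elementary estimates.
-/

set_option autoImplicit false

namespace Pool.Agent.P.MP_379466_co

open Set Metric Complex

theorem An_swap (s : ℝ) (l₁ l₂ : Ln) : An (-s) l₂ l₁ = An s l₁ l₂ := by
  simp only [An, cr]; ring

theorem Dv_swap (s : ℝ) (l₁ l₂ : Ln) (z : ℂ) : Dv (-s) l₂ l₁ z = Dv s l₁ l₂ z := by
  simp only [Dv]; ring

theorem An_rev (s : ℝ) (l₁ l₂ : Ln) : An s (rev l₁) (rev l₂) = An s l₁ l₂ := by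
  simp only [An, dir_rev, cr, neg_re, neg_im]; ring

theorem Dv_rev (s : ℝ) (l₁ l₂ : Ln) (z : ℂ) : Dv s (rev l₁) (rev l₂) z = -Dv s l₁ l₂ z := by
  simp only [Dv, sd_rev]; ring

theorem abs_cr_le_sub {a : ℂ} (ha : ‖a‖ = 1) (b : ℂ) : |cr a b| ≤ ‖a - b‖ := by
  have e : cr a b = -cr a (a - b) := by simp only [cr, sub_re, sub_im]; ring
  have := abs_cr_le a (a - b)
  rw [ha, one_mul] at this
  rwa [e, abs_neg]

theorem abs_sign_mul {s : ℝ} (hs : s = 1 ∨ s = -1) (x : ℝ) : |s * x| = |x| := by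
  rcases hs with rfl | rfl <;> simp

theorem sign_neg' {s : ℝ} (hs : s = 1 ∨ s = -1) : -s = 1 ∨ -s = -1 := by
  rcases hs with rfl | rfl <;> simp

theorem sign_sq {s : ℝ} (hs : s = 1 ∨ s = -1) : s * s = 1 := by
  rcases hs with rfl | rfl <;> simp

theorem abs_An_le {s : ℝ} (hs : s = 1 ∨ s = -1) (l₁ l₂ : Ln) : |An s l₁ l₂| ≤ dL l₁ l₂ := by
  rw [An, abs_sign_mul hs]
  exact (abs_cr_le_sub (norm_dir _) _).trans (dir_le_dL _ _)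

/-- along either line the gap grows with slope `An` -/
theorem Dv_along₁ (s : ℝ) {l₁ : Ln} (l₂ : Ln) {z w : ℂ} (hz : sd l₁ z = 0) (hw : sd l₁ w = 0) :
    Dv s l₁ l₂ w = Dv s l₁ l₂ z + (tm l₁ w - tm l₁ z) * An s l₁ l₂ := by
  have h := sd_add_smul l₂ z (dir l₁.1) (tm l₁ w - tm l₁ z)
  rw [← eq_add_tm hz hw] at h
  simp only [Dv, An, hz, hw, h, cr]; ring

theorem Dv_along₂ (s : ℝ) (l₁ : Ln) {l₂ : Ln} {z w : ℂ} (hz : sd l₂ z = 0) (hw : sd l₂ w = 0) :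
    Dv s l₁ l₂ w = Dv s l₁ l₂ z + (tm l₂ w - tm l₂ z) * An s l₁ l₂ := by
  rw [← Dv_swap, Dv_along₁ (-s) l₁ hz hw, Dv_swap, An_swap]

theorem ip_unit {a b : ℂ} (ha : ‖a‖ = 1) (hb : ‖b‖ = 1) : ip a b = 1 - ‖a - b‖ ^ 2 / 2 := by
  have h1 := unit_sq ha
  have h2 := unit_sq hb
  rw [← ip_self]
  simp only [ip, sub_re, sub_im]; linarith

theorem ip_cr_unit {a b : ℂ} (ha : ‖a‖ = 1) (hb : ‖b‖ = 1) : ip a b ^ 2 + cr a b ^ 2 = 1 := by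
  rw [ip_sq_add_cr_sq, ha, hb]; norm_num

theorem half_le_ip {a b : ℂ} (ha : ‖a‖ = 1) (hb : ‖b‖ = 1) (h : ‖a - b‖ ≤ 1) : 1 / 2 ≤ ip a b := by
  rw [ip_unit ha hb]; nlinarith [norm_nonneg (a - b)]

theorem sub_le_cr {a b : ℂ} (ha : ‖a‖ = 1) (hb : ‖b‖ = 1) (h : ‖a - b‖ ≤ 1) :
    ‖a - b‖ ≤ 3 / 2 * |cr a b| := by
  have h1 := ip_unit ha hb
  have h2 := ip_cr_unit ha hb
  have h3 := half_le_ip ha hb h
  refine abs_le_of_sq_le_sq' ?_ (by positivity) |>.2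
  rw [mul_pow, sq_abs]
  nlinarith [sq_nonneg ‖a - b‖]

theorem one_sub_ip_le {a b : ℂ} (ha : ‖a‖ = 1) (hb : ‖b‖ = 1) (h : ‖a - b‖ ≤ 1) :
    0 ≤ 1 - ip a b ∧ 1 - ip a b ≤ |cr a b| := by
  have h1 := ip_unit ha hb
  have h2 := sub_le_cr ha hb h
  have h0 := norm_nonneg (a - b)
  constructor <;> nlinarith

theorem dir_le_An {s : ℝ} (hs : s = 1 ∨ s = -1) {l₁ l₂ : Ln} (hd : dL l₁ l₂ ≤ 1)
    (ha : 0 ≤ An s l₁ l₂) : ‖dir l₁.1 - dir l₂.1‖ ≤ 3 / 2 * An s l₁ l₂ := by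
  have := sub_le_cr (norm_dir l₁.1) (norm_dir l₂.1) ((dir_le_dL _ _).trans hd)
  rwa [← abs_sign_mul hs, ← An, abs_of_nonneg ha] at this

/-- small angles add -/
theorem An_le_of_between {s : ℝ} (hs : s = 1 ∨ s = -1) {l₁ l₂ l₃ : Ln} (h₁ : dL l₁ l₂ ≤ 1)
    (h₂ : dL l₂ l₃ ≤ 1) (a₁ : 0 ≤ An s l₁ l₂) (a₂ : 0 ≤ An s l₂ l₃) :
    An s l₁ l₂ ≤ 2 * An s l₁ l₃ ∧ An s l₂ l₃ ≤ 2 * An s l₁ l₃ := by
  have c₁ := half_le_ip (norm_dir l₁.1) (norm_dir l₂.1) ((dir_le_dL _ _).trans h₁)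
  have c₂ := half_le_ip (norm_dir l₂.1) (norm_dir l₃.1) ((dir_le_dL _ _).trans h₂)
  have e : An s l₁ l₃ = An s l₁ l₂ * ip (dir l₂.1) (dir l₃.1) +
      ip (dir l₁.1) (dir l₂.1) * An s l₂ l₃ := by
    have := unit_sq (norm_dir l₂.1)
    simp only [An, cr, ip]
    linear_combination (-s * ((dir l₁.1).re * (dir l₃.1).im - (dir l₁.1).im * (dir l₃.1).re)) * this
  constructor <;> nlinarith

theorem Dv_move {s : ℝ} (hs : s = 1 ∨ s = -1) {l₁ l₂ : Ln} (hd : ‖dir l₁.1 - dir l₂.1‖ ≤ 1)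
    (ha : 0 ≤ An s l₁ l₂) (z w : ℂ) :
    |Dv s l₁ l₂ w - Dv s l₁ l₂ z - ip (dir l₁.1) (w - z) * An s l₁ l₂| ≤
      |cr (dir l₁.1) (w - z)| * An s l₁ l₂ := by
  obtain ⟨h1, h2⟩ := one_sub_ip_le (norm_dir l₁.1) (norm_dir l₂.1) hd
  rw [← abs_sign_mul hs, ← An, abs_of_nonneg ha] at h2
  have e : Dv s l₁ l₂ w - Dv s l₁ l₂ z - ip (dir l₁.1) (w - z) * An s l₁ l₂ =
      s * (cr (dir l₁.1) (w - z) * (1 - ip (dir l₁.1) (dir l₂.1))) := by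
    have := unit_sq (norm_dir l₁.1)
    simp only [Dv, An, sd, cr, ip, sub_re, sub_im]
    linear_combination
      (s * ((dir l₂.1).re * (w.im - z.im) - (dir l₂.1).im * (w.re - z.re))) * this
  rw [e, abs_sign_mul hs, abs_mul, abs_of_nonneg h1]
  exact mul_le_mul_of_nonneg_left h2 (abs_nonneg _)

theorem eq_of_dL_le {l₁ l₂ : Ln} (h : dL l₁ l₂ ≤ 0) : l₁ = l₂ := by
  have h1 := (dir_le_dL l₁ l₂).trans h
  have h2 := (snd_le_dL l₁ l₂).trans h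
  exact Prod.ext (dir_inj (sub_eq_zero.mp (norm_le_zero_iff.mp h1)))
    (sub_eq_zero.mp (abs_nonpos_iff.mp h2))

theorem unif_dL {C : Set Ln} (hC : IsCompact C) {f : Ln → Ln} (hf : Continuous f) {ε : ℝ}
    (hε : 0 < ε) : ∃ δ, 0 < δ ∧ ∀ l₁ ∈ C, ∀ l₂ ∈ C, dL l₁ l₂ ≤ δ → dL (f l₁) (f l₂) < ε := by
  have hS : IsCompact ((C ×ˢ C) ∩ {p : Ln × Ln | ε ≤ dL (f p.1) (f p.2)}) :=
    (hC.prod hC).inter_right (isClosed_le continuous_const (by fun_prop))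
  rcases ((C ×ˢ C) ∩ {p : Ln × Ln | ε ≤ dL (f p.1) (f p.2)}).eq_empty_or_nonempty with h | h
  · refine ⟨1, one_pos, fun l₁ h₁ l₂ h₂ _ => not_le.mp fun hh => ?_⟩
    have : (l₁, l₂) ∈ (C ×ˢ C) ∩ {p : Ln × Ln | ε ≤ dL (f p.1) (f p.2)} := ⟨⟨h₁, h₂⟩, hh⟩
    rw [h] at this
    exact this
  · obtain ⟨p, hp, hm⟩ := hS.exists_isMinOn h (f := fun p : Ln × Ln => dL p.1 p.2)
      (by fun_prop : Continuous _).continuousOn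
    have h0 : 0 < dL p.1 p.2 := by
      refine not_le.mp fun hh => ?_
      have h2 : ε ≤ dL (f p.1) (f p.2) := hp.2
      rw [eq_of_dL_le hh, dL_self] at h2
      linarith
    refine ⟨dL p.1 p.2 / 2, by linarith, fun l₁ h₁ l₂ h₂ hd => not_le.mp fun hh => ?_⟩
    have : dL p.1 p.2 ≤ dL l₁ l₂ := hm (a := (l₁, l₂)) ⟨⟨h₁, h₂⟩, hh⟩
    linarith

theorem exists_pos_le {n : ℕ} (δ : Fin n → ℝ) (h : ∀ j, 0 < δ j) {c : ℝ} (hc : 0 < c) :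
    ∃ e, 0 < e ∧ e ≤ c ∧ ∀ j, e ≤ δ j := by
  have : ∀ᶠ e in nhdsWithin (0 : ℝ) (Ioi 0), e ≤ c ∧ ∀ j, e ≤ δ j :=
    nhdsWithin_le_nhds ((eventually_le_nhds hc).and
      (Filter.eventually_all.mpr fun j => eventually_le_nhds (h j)))
  obtain ⟨e, h1, h2⟩ := (this.and self_mem_nhdsWithin).exists
  exact ⟨e, h2, h1⟩

theorem exists_tab {n : ℕ} (T : Table (Fin n)) : ∃ T' : Tab n, T'.toTable = T := by
  have hr := T.r_pos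
  have hD := T.D_ge
  have hε : 0 < T.r / (100 * (1 + T.D) ^ 2) := by positivity
  choose δ hδ hN using fun j => (T.b j).N_close hε
  obtain ⟨δ1, p1, l1, m1⟩ := exists_pos_le (fun j => δ j / (1 + T.D))
    (fun j => div_pos (hδ j) (by linarith)) hε
  choose η hη hR using fun j => unif_dL (isCompact_meets (T.b j).cpt) (continuous_refl (T.b j)) p1
  obtain ⟨δ2, p2, l2, m2⟩ := exists_pos_le η hη (half_pos p1)
  refine ⟨⟨T, δ1, δ2, p2, by linarith, l1, fun j P hP Q hQ u v hu hv h1 h2 h3 h4 => ?_,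
    fun j l₁ l₂ h1 h2 h3 => hR j l₁ (h1.meets (T.b j).cvx) l₂ (h2.meets (T.b j).cvx)
      (h3.trans (m2 j))⟩, rfl⟩
  have := (le_div_iff₀ (by linarith : 0 < 1 + T.D)).mp (m1 j)
  exact hN j P hP Q hQ u v hu hv h1 h2 (by nlinarith) (by linarith)

namespace Table

variable {n : ℕ} (T : Table (Fin n))

theorem one_le_C1 : 1 ≤ T.C1 := by
  rw [C1, le_div_iff₀ T.r_pos]; linarith [T.r_le, T.D_ge]

theorem one_le_C2 : 1 ≤ T.C2 := by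
  rw [C2]; nlinarith [T.one_le_C1, T.D_ge]

theorem one_le_C3 : 1 ≤ T.C3 := by
  rw [C3]; linarith [T.D_ge]

theorem one_le_C4 : 1 ≤ T.C4 := by
  rw [C4, le_div_iff₀ T.r_pos]; linarith [T.r_le, T.D_ge]

theorem abs_sd_le (l₁ l₂ : Ln) {i : Fin n} {z : ℂ} (hz : z ∈ T.B i) :
    |sd l₁ z - sd l₂ z| ≤ (1 + T.D) * dL l₁ l₂ :=
  (abs_sd_sub_le l₁ l₂ z).trans
    (mul_le_mul_of_nonneg_right (by linarith [T.bdd i z hz]) (dL_nonneg _ _))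

theorem abs_Dv_le {s : ℝ} (hs : s = 1 ∨ s = -1) (l₁ l₂ : Ln) {i : Fin n} {z : ℂ} (hz : z ∈ T.B i) :
    |Dv s l₁ l₂ z| ≤ (1 + T.D) * dL l₁ l₂ := by
  rw [Dv, abs_sign_mul hs]; exact T.abs_sd_le l₁ l₂ hz

theorem Div.symm {i : Fin n} {s W : ℝ} {l₁ l₂ : Ln} (h : T.Div i s l₁ l₂ W) :
    T.Div i (-s) l₂ l₁ W := by
  obtain ⟨a, z, hz, h1, h2, h3⟩ := h
  exact ⟨by rwa [An_swap], z, hz, h2, h1, by rwa [Dv_swap]⟩

theorem Div.mono {i : Fin n} {s W W' : ℝ} {l₁ l₂ : Ln} (h : T.Div i s l₁ l₂ W) (hW : W' ≤ W) :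
    T.Div i s l₁ l₂ W' := by
  obtain ⟨a, z, hz, h1, h2, h3⟩ := h
  exact ⟨a, z, hz, h1, h2, hW.trans h3⟩

theorem InRel.symm {i : Fin n} {s W : ℝ} {l₁ l₂ : Ln} (h : T.InRel i s l₁ l₂ W) :
    T.InRel i (-s) l₂ l₁ W := by
  obtain ⟨c1, c2, a, h1, h2⟩ := h
  exact ⟨c2, c1, by rwa [An_swap], by rwa [Dv_swap], by rwa [Dv_swap]⟩

theorem Fol.symm {k : ℕ} {v w : St n} (h : T.Fol k v w) : T.Fol k w v :=
  ⟨h.2.1, h.1, fun j hj => (h.2.2 j hj).symm⟩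

theorem Div.le_dL {i : Fin n} {s W : ℝ} (hs : s = 1 ∨ s = -1) {l₁ l₂ : Ln}
    (h : T.Div i s l₁ l₂ W) : W + T.r * An s l₁ l₂ ≤ (2 + T.D) * dL l₁ l₂ := by
  obtain ⟨a, z, hz, -, -, h3⟩ := h
  have h4 := (abs_le.mp (T.abs_Dv_le hs l₁ l₂ hz)).2
  have h5 := (abs_le.mp (abs_An_le hs l₁ l₂)).2
  nlinarith [T.r_le]

theorem dL_le_Dv {i : Fin n} {s : ℝ} (hs : s = 1 ∨ s = -1) {l₁ l₂ : Ln} (hd : dL l₁ l₂ ≤ 1)
    (ha : 0 ≤ An s l₁ l₂) {z : ℂ} (hz : z ∈ T.B i) :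
    dL l₁ l₂ ≤ (1 + T.D) * (3 / 2 * An s l₁ l₂) + |Dv s l₁ l₂ z| := by
  have := dL_le_of (z := z) (dir_le_An hs hd ha) (e := |Dv s l₁ l₂ z|)
    (by rw [Dv, abs_sign_mul hs])
  nlinarith [T.bdd i z hz]

theorem Div.size {i : Fin n} {s : ℝ} (hs : s = 1 ∨ s = -1) {l₁ l₂ : Ln} (hd : dL l₁ l₂ ≤ 1)
    (h : T.Div i s l₁ l₂ 0) :
    ∃ W, 0 ≤ W ∧ T.Div i s l₁ l₂ W ∧ dL l₁ l₂ ≤ T.C1 * (W + T.r * An s l₁ l₂) := by
  obtain ⟨a, z, hz, h1, h2, h3⟩ := h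
  refine ⟨_, h3, ⟨a, z, hz, h1, h2, le_rfl⟩, ?_⟩
  have h4 := T.dL_le_Dv hs hd a hz
  rw [abs_of_nonneg h3] at h4
  have e : T.C1 * T.r = 2 * (1 + T.D) := by rw [C1, div_mul_cancel₀ _ T.r_pos.ne']
  have h5 := T.one_le_C1
  have h6 : T.C1 * (T.r * An s l₁ l₂) = 2 * (1 + T.D) * An s l₁ l₂ := by rw [← mul_assoc, e]
  nlinarith [T.D_ge]

theorem sep_lower {ν u d : ℂ} {ρ : ℝ} (hν : ‖ν‖ = 1) (hu : ‖u‖ = 1) (h₂ : 2 * ρ ≤ ip ν d)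
    (h₃ : |cr u d| ≤ ρ / 2) : 3 / 2 * ρ ≤ ip u d * ip ν u := by
  have e : ip ν d = ip u d * ip ν u - cr u d * cr ν u := by
    have := unit_sq hu
    simp only [ip, cr]
    linear_combination (-(ν.re * d.re + ν.im * d.im)) * this
  have h4 : |cr u d * cr ν u| ≤ ρ / 2 := by
    have := abs_cr_le ν u
    rw [hν, hu] at this
    rw [abs_mul]
    nlinarith [abs_nonneg (cr u d), abs_nonneg (cr ν u)]
  linarith [(abs_le.mp h4).1]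

/-- flight from a point `z₀` to a point `z` separated from it in a direction `ν` -/
theorem flight_core {s ρ : ℝ} (hs : s = 1 ∨ s = -1) {l₁ l₂ : Ln} (hd : dL l₁ l₂ ≤ 1)
    (ha : 0 ≤ An s l₁ l₂) {ν z₀ z : ℂ} (hν : ‖ν‖ = 1) (h₁ : 0 ≤ ip ν (dir l₁.1)) (hρ : 0 < ρ)
    (h₂ : 2 * ρ ≤ ip ν (z - z₀)) (h₃ : |sd l₁ z₀| ≤ ρ / 4) (h₄ : |sd l₁ z| ≤ ρ / 4) :
    Dv s l₁ l₂ z₀ + ρ * An s l₁ l₂ ≤ Dv s l₁ l₂ z := by
  have hg : |cr (dir l₁.1) (z - z₀)| ≤ ρ / 2 := by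
    rw [← sd_sub]; linarith [abs_sub (sd l₁ z) (sd l₁ z₀)]
  have h5 := sep_lower hν (norm_dir l₁.1) h₂ hg
  have h6 : ip ν (dir l₁.1) ≤ 1 := by
    have := abs_ip_le ν (dir l₁.1)
    rw [hν, norm_dir] at this
    linarith [(abs_le.mp this).2]
  have h7 : 0 < ip (dir l₁.1) (z - z₀) := by
    by_contra hh
    nlinarith
  have h8 : 3 / 2 * ρ ≤ ip (dir l₁.1) (z - z₀) := by nlinarith
  have h9 := (abs_le.mp (Dv_move hs ((dir_le_dL _ _).trans hd) ha z₀ z)).1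
  nlinarith

theorem flight {i j : Fin n} (hij : i ≠ j) {s W : ℝ} (hs : s = 1 ∨ s = -1) {l₁ l₂ : Ln}
    (hd : dL l₁ l₂ ≤ 1) (h : T.Div i s l₁ l₂ W) (hν : 0 ≤ ip (T.ν i j) (dir l₁.1)) {z : ℂ}
    (hz : z ∈ T.B j) (h0 : |sd l₁ z| ≤ T.r / 4) : W + T.r * An s l₁ l₂ ≤ Dv s l₁ l₂ z := by
  obtain ⟨a, z₀, hz₀, h1, -, h3⟩ := h
  have := flight_core hs hd a (T.ν_norm i j hij) hν T.r_pos (T.sep i j hij z₀ hz₀ z hz)
    (by linarith [T.r_pos]) h0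
  linarith

theorem Loc.exP_mem {m : ℕ} {ρ : ℝ} {i : Fin n} {l₀ l : Ln} (h : T.Loc m ρ i l₀)
    (hl : dL l₀ l < ρ) : exP (T.K i) l ∈ T.K i :=
  enP_mem (T.b i).cpt ((meets_rev _ _).mpr ((h.2.2 l hl).1.meets (T.b i).cvx))

theorem org_mem {m : ℕ} {ρ : ℝ} {i : Fin n} {l₀ : Ln} (h : T.Loc m ρ i l₀) :
    T.org i l₀ ∈ T.B i :=
  T.mem_B (h.exP_mem T (by rw [dL_self]; exact h.1)) (by
    simp [org, norm_dir, abs_of_pos T.r_pos])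

/-- position of the reference point seen from the exit point of a nearby line -/
theorem Loc.org_sub {m : ℕ} {ρ : ℝ} {i : Fin n} {l₀ l₁ l : Ln} (h : T.Loc m ρ i l₀)
    (h₁ : dL l₀ l₁ < ρ) (hl : dL l₀ l < ρ) :
    |cr (dir l₁.1) (T.org i l₀ - exP (T.K i) l)| ≤ T.r / 8 ∧
      7 / 8 * T.r ≤ ip (dir l₁.1) (T.org i l₀ - exP (T.K i) l) ∧
      ip (dir l₁.1) (T.org i l₀ - exP (T.K i) l) ≤ 2 := by
  have hr := T.r_pos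
  have h1 := (h.2.2 l hl).2.2.1
  have h2 : ‖dir l₁.1 - dir l₀.1‖ ≤ 1 / 16 := by
    rw [norm_sub_rev]; linarith [dir_le_dL l₀ l₁, h.2.1]
  have h3 := abs_le.mp ((abs_cr_le_sub (norm_dir l₁.1) (dir l₀.1)).trans h2)
  have h4 := abs_cr_le (dir l₁.1) (exP (T.K i) l - exP (T.K i) l₀)
  have h5 := abs_ip_le (dir l₁.1) (exP (T.K i) l - exP (T.K i) l₀)
  rw [norm_dir, one_mul] at h4 h5
  replace h4 := abs_le.mp (h4.trans h1)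
  replace h5 := abs_le.mp (h5.trans h1)
  have h6 := ip_unit (norm_dir l₁.1) (norm_dir l₀.1)
  have h7 := norm_nonneg (dir l₁.1 - dir l₀.1)
  have e1 : cr (dir l₁.1) (T.org i l₀ - exP (T.K i) l) =
      T.r * cr (dir l₁.1) (dir l₀.1) - cr (dir l₁.1) (exP (T.K i) l - exP (T.K i) l₀) := by
    simp [org, cr]; ring
  have e2 : ip (dir l₁.1) (T.org i l₀ - exP (T.K i) l) =
      T.r * ip (dir l₁.1) (dir l₀.1) - ip (dir l₁.1) (exP (T.K i) l - exP (T.K i) l₀) := by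
    simp [org, ip]; ring
  have h8 : 15 / 16 ≤ ip (dir l₁.1) (dir l₀.1) := by nlinarith
  have h9 : ip (dir l₁.1) (dir l₀.1) ≤ 1 := by nlinarith
  have := T.r_le
  rw [e1, e2, abs_le]
  refine ⟨⟨?_, ?_⟩, ?_, ?_⟩ <;> nlinarith

theorem div_of_org {m : ℕ} {ρ : ℝ} {i : Fin n} {l₀ l₁ l₂ : Ln} (h : T.Loc m ρ i l₀)
    (h₁ : dL l₀ l₁ < ρ) (h₂ : dL l₀ l₂ < ρ) {s W : ℝ} (ha : 0 ≤ An s l₁ l₂)
    (hW : W ≤ Dv s l₁ l₂ (T.org i l₀)) : T.Div i s l₁ l₂ W := by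
  have key : ∀ l, dL l₀ l < ρ → |sd l (T.org i l₀)| ≤ T.r / 8 := fun l hl => by
    have := (h.org_sub T hl hl).1
    rwa [← sd_sub, sd_exP, sub_zero] at this
  exact ⟨ha, _, T.org_mem h, key _ h₁, key _ h₂, hW⟩

end Table

end Pool.Agent.P.MP_379466_co
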