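import Pool.Agent.P.MP_379466_co.Pair0

/-!
Reflection of a pair of nearby lines: the vector computation.
-/

set_option autoImplicit false

namespace Pool.Agent.P.MP_379466_co

open Set Metric Complex

theorem binet (u d a b : ℂ) : cr u d * cr a b = ip u a * ip d b - ip u b * ip d a := by
  simp only [cr, ip]; ring

theorem sign_normal {u₁ u₂ N₁ N₂ d : ℂ} {s : ℝ} (hs : s = 1 ∨ s = -1) (hN₁ : ‖N₁‖ = 1)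
    (hN₂ : ‖N₂‖ = 1) (hu : 0 < ip u₁ u₂) (hC : 0 ≤ ip N₁ N₂) (p₁ : ip u₁ N₁ < 0)
    (p₂ : ip u₂ N₂ < 0) (h₁ : ip d N₁ ≤ 0) (h₂ : 0 ≤ ip d N₂) (e₁ : 0 ≤ ip d N₁ → N₁ = N₂)
    (e₂ : ip d N₂ ≤ 0 → N₁ = N₂) (g₁ : 0 ≤ s * cr u₁ d) (g₂ : 0 ≤ s * cr u₂ d) :
    s * cr N₁ N₂ ≤ 0 := by
  by_contra hh
  replace hh := not_le.mp hh
  have hne : N₁ ≠ N₂ := by
    rintro rfl
    rw [cr_self] at hh; linarith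
  have k₁ : ip d N₁ < 0 := not_le.mp fun h => hne (e₁ h)
  have k₂ : 0 < ip d N₂ := not_le.mp fun h => hne (e₂ h)
  have b : ∀ u, s * cr u d * (s * cr N₁ N₂) = ip u N₁ * ip d N₂ - ip u N₂ * ip d N₁ := fun u => by
    rw [← binet]; linear_combination (cr u d * cr N₁ N₂) * sign_sq hs
  have q₁ : 0 < ip u₁ N₂ := by
    by_contra h
    have := b u₁
    nlinarith [mul_nonneg g₁ hh.le, mul_nonneg_of_nonpos_of_nonpos (not_lt.mp h) h₁]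
  have q₂ : 0 < ip u₂ N₁ := by
    by_contra h
    have := b u₂
    nlinarith [mul_nonneg g₂ hh.le, mul_nonneg (neg_nonneg.mpr (not_lt.mp h)) h₂]
  have e : ip u₁ u₂ * cr N₁ N₂ ^ 2 = ip u₁ N₁ * ip u₂ N₁ * ip N₂ N₂ +
      ip u₁ N₂ * ip u₂ N₂ * ip N₁ N₁ - ip N₁ N₂ * (ip u₁ N₂ * ip u₂ N₁ + ip u₁ N₁ * ip u₂ N₂) := by
    simp only [cr, ip]; ring
  rw [ip_self, ip_self, hN₁, hN₂] at e
  nlinarith [mul_nonneg hu.le (sq_nonneg (cr N₁ N₂)), mul_pos q₁ q₂, mul_pos_of_neg_of_neg p₁ p₂,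
    mul_neg_of_neg_of_pos p₁ q₂, mul_neg_of_pos_of_neg q₁ p₂,
    mul_nonneg hC (add_pos (mul_pos q₁ q₂) (mul_pos_of_neg_of_neg p₁ p₂)).le]

theorem cr_refl_refl {u₁ u₂ N₁ N₂ : ℂ} (hN₁ : ‖N₁‖ = 1) (hN₂ : ‖N₂‖ = 1) :
    -cr (u₁ - (2 * ip u₁ N₁) • N₁) (u₂ - (2 * ip u₂ N₂) • N₂) =
      cr u₁ u₂ * (ip N₁ N₂ ^ 2 - cr N₁ N₂ ^ 2) - 2 * ip N₁ N₂ * cr N₁ N₂ * ip u₁ u₂ := by
  have key : ∀ {N : ℂ} (u : ℂ), ‖N‖ = 1 →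
      (u - (2 * ip u N) • N).re = -(N.re ^ 2 - N.im ^ 2) * u.re - 2 * N.re * N.im * u.im ∧
      (u - (2 * ip u N) • N).im = (N.re ^ 2 - N.im ^ 2) * u.im - 2 * N.re * N.im * u.re := by
    intro N u h
    have := unit_sq h
    constructor
    · simp [ip]; linear_combination (-u.re) * this
    · simp [ip]; linear_combination (-u.im) * this
  obtain ⟨a1, a2⟩ := key u₁ hN₁
  obtain ⟨b1, b2⟩ := key u₂ hN₂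
  rw [cr, a1, a2, b1, b2]
  simp only [cr, ip]; ring

theorem cr_refl_d (u d : ℂ) {N : ℂ} (hN : ‖N‖ = 1) :
    -cr (u - (2 * ip u N) • N) d = cr u d + 2 * cr N u * ip d N := by
  have := unit_sq hN
  simp [cr, ip]
  linear_combination (2 * (u.re * d.im - u.im * d.re)) * this

theorem angle_gain {u₁ u₂ N₁ N₂ : ℂ} {s : ℝ} (hs : s = 1 ∨ s = -1) (hu₁ : ‖u₁‖ = 1)
    (hu₂ : ‖u₂‖ = 1) (hN₁ : ‖N₁‖ = 1) (hN₂ : ‖N₂‖ = 1) (hu : ‖u₁ - u₂‖ ≤ 1 / 10)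
    (hN : ‖N₁ - N₂‖ ≤ 1 / 10) (ha : 0 ≤ s * cr u₁ u₂) (hx : s * cr N₁ N₂ ≤ 0) :
    s * cr u₁ u₂ + ‖N₁ - N₂‖ ≤
      -s * cr (u₁ - (2 * ip u₁ N₁) • N₁) (u₂ - (2 * ip u₂ N₂) • N₂) := by
  have e := cr_refl_refl (u₁ := u₁) (u₂ := u₂) hN₁ hN₂
  have h1 := sub_le_cr hN₁ hN₂ (by linarith)
  have h2 := abs_cr_le_sub hu₁ u₂
  have h3 := abs_cr_le_sub hN₁ N₂
  rw [← abs_sign_mul hs, abs_of_nonneg ha] at h2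
  rw [← abs_sign_mul hs, abs_of_nonpos hx] at h1 h3
  have c1 : 99 / 100 ≤ ip u₁ u₂ := by
    rw [ip_unit hu₁ hu₂]; nlinarith [norm_nonneg (u₁ - u₂)]
  have c2 : 99 / 100 ≤ ip N₁ N₂ := by
    rw [ip_unit hN₁ hN₂]; nlinarith [norm_nonneg (N₁ - N₂)]
  have c3 := ip_cr_unit hN₁ hN₂
  have s2 := sign_sq hs
  obtain ⟨A, hA⟩ : ∃ A, A = s * cr u₁ u₂ := ⟨_, rfl⟩
  obtain ⟨X, hX⟩ : ∃ X, X = -(s * cr N₁ N₂) := ⟨_, rfl⟩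
  have e2 : -s * cr (u₁ - (2 * ip u₁ N₁) • N₁) (u₂ - (2 * ip u₂ N₂) • N₂) =
      A + 2 * X * (ip N₁ N₂ * ip u₁ u₂ - A * X) := by
    rw [hA, hX]
    linear_combination s * e + (s * cr u₁ u₂) * c3 + (2 * s * cr u₁ u₂ * cr N₁ N₂ ^ 2) * s2
  rw [e2, ← hA]
  rw [← hA] at h2 ha
  rw [← hX] at h1 h3
  have x0 : 0 ≤ X := by linarith
  have h4 : A * X ≤ 1 / 100 := by nlinarith
  have h5 : 98 / 100 ≤ ip N₁ N₂ * ip u₁ u₂ := by nlinarith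
  nlinarith

theorem refl_sub_le {u₁ u₂ N₁ N₂ : ℂ} {ε : ℝ} (hu₂ : ‖u₂‖ = 1) (hN₁ : ‖N₁‖ = 1) (hN₂ : ‖N₂‖ = 1)
    (hu : ‖u₁ - u₂‖ ≤ ε) (hN : ‖N₁ - N₂‖ ≤ ε) :
    ‖(u₁ - (2 * ip u₁ N₁) • N₁) - (u₂ - (2 * ip u₂ N₂) • N₂)‖ ≤ 7 * ε := by
  have e : (u₁ - (2 * ip u₁ N₁) • N₁) - (u₂ - (2 * ip u₂ N₂) • N₂) =
      (u₁ - u₂) - (2 * (ip (u₁ - u₂) N₁ + ip u₂ (N₁ - N₂))) • N₁ - (2 * ip u₂ N₂) • (N₁ - N₂) := by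
    apply Complex.ext <;> simp [ip] <;> ring
  have h1 := abs_ip_le (u₁ - u₂) N₁
  have h2 := abs_ip_le u₂ (N₁ - N₂)
  have h3 := abs_ip_le u₂ N₂
  rw [hN₁] at h1
  rw [hu₂] at h2 h3
  rw [hN₂] at h3
  have h4 : ‖(2 * (ip (u₁ - u₂) N₁ + ip u₂ (N₁ - N₂))) • N₁‖ ≤ 4 * ε := by
    rw [norm_smul, hN₁, Real.norm_eq_abs, abs_mul, abs_two]
    linarith [abs_add_le (ip (u₁ - u₂) N₁) (ip u₂ (N₁ - N₂))]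
  have h5 : ‖(2 * ip u₂ N₂) • (N₁ - N₂)‖ ≤ 2 * ε := by
    rw [norm_smul, Real.norm_eq_abs, abs_mul, abs_two]
    nlinarith [abs_nonneg (ip u₂ N₂), norm_nonneg (N₁ - N₂)]
  rw [e]
  refine (norm_sub_le _ _).trans ?_
  linarith [norm_sub_le (u₁ - u₂) ((2 * (ip (u₁ - u₂) N₁ + ip u₂ (N₁ - N₂))) • N₁)]

theorem abs_h_le {N₁ N₂ d : ℂ} (h₁ : ip d N₁ ≤ 0) (h₂ : 0 ≤ ip d N₂) :
    ip d N₂ - ip d N₁ ≤ ‖d‖ * ‖N₁ - N₂‖ := by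
  have := (abs_le.mp (abs_ip_le d (N₁ - N₂))).1
  have e : ip d (N₁ - N₂) = ip d N₁ - ip d N₂ := by simp only [ip, sub_re, sub_im]; ring
  linarith

theorem gap_keep {u₁ u₂ N₁ N₂ d : ℂ} {s ε : ℝ} (hs : s = 1 ∨ s = -1)
    (hu₂ : ‖u₂‖ = 1) (hN₁ : ‖N₁‖ = 1) (hN₂ : ‖N₂‖ = 1) (hu : ‖u₁ - u₂‖ ≤ ε) (hN : ‖N₁ - N₂‖ ≤ ε)
    (h₁ : ip d N₁ ≤ 0) (h₂ : 0 ≤ ip d N₂) :
    s * cr u₁ d - 4 * ε * (‖d‖ * ‖N₁ - N₂‖) ≤ -s * cr (u₁ - (2 * ip u₁ N₁) • N₁) d ∨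
      s * cr u₂ d ≤ -s * cr (u₂ - (2 * ip u₂ N₂) • N₂) d := by
  have e1 := cr_refl_d u₁ d hN₁
  have e2 := cr_refl_d u₂ d hN₂
  by_cases hb : 0 ≤ s * cr N₂ u₂
  · right
    have : -s * cr (u₂ - (2 * ip u₂ N₂) • N₂) d = s * cr u₂ d + 2 * (s * cr N₂ u₂ * ip d N₂) := by
      linear_combination s * e2
    nlinarith [mul_nonneg hb h₂]
  · left
    have : -s * cr (u₁ - (2 * ip u₁ N₁) • N₁) d = s * cr u₁ d + 2 * (s * cr N₁ u₁ * ip d N₁) := by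
      linear_combination s * e1
    have h3 := abs_cr_le N₁ (u₁ - u₂)
    have h4 := abs_cr_le (N₁ - N₂) u₂
    rw [hN₁, ← abs_sign_mul hs] at h3
    rw [hu₂, ← abs_sign_mul hs] at h4
    have e3 : s * cr N₁ u₁ = s * cr N₂ u₂ + s * cr N₁ (u₁ - u₂) + s * cr (N₁ - N₂) u₂ := by
      simp only [cr, sub_re, sub_im]; ring
    have h5 : s * cr N₁ u₁ ≤ 2 * ε := by linarith [(abs_le.mp h3).2, (abs_le.mp h4).2]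
    have h6 := abs_h_le h₁ h₂
    have h7 : 0 ≤ ε := (norm_nonneg _).trans hu
    nlinarith [mul_nonneg (sub_nonneg.mpr h5) (neg_nonneg.mpr h₁),
      mul_le_mul_of_nonneg_left (show -ip d N₁ ≤ ‖d‖ * ‖N₁ - N₂‖ by linarith) h7]

theorem abs_cr_refl_le (u d : ℂ) {N : ℂ} (hu : ‖u‖ = 1) (hN : ‖N‖ = 1) :
    |cr (u - (2 * ip u N) • N) d| ≤ |cr u d| + 2 * |ip d N| := by
  have h := abs_cr_le N u
  rw [hu, hN] at h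
  rw [← abs_neg, cr_refl_d u d hN]
  refine (abs_add_le _ _).trans ?_
  rw [abs_mul, abs_mul, abs_two]
  nlinarith [abs_nonneg (ip d N), abs_nonneg (cr N u)]

end Pool.Agent.P.MP_379466_co
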