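import Pool.Agent.P.MP_379466_co.Defs

/-!
The normal field of a smooth convex body, and the constants of a table.
-/

set_option autoImplicit false

namespace Pool.Agent.P.MP_379466_co

open Set Metric Filter Topology MeasureTheory

theorem sm_ip_self (a : ℂ) : ip a a = ‖a‖ ^ 2 := by
  rw [Complex.sq_norm, Complex.normSq_apply, ip]

theorem sm_abs_ip_le (a b : ℂ) : |ip a b| ≤ ‖a‖ * ‖b‖ := by
  have h : ip a b = inner ℝ a b := by simp [ip, Complex.inner]; ring
  rw [h]
  exact abs_real_inner_le_norm a b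

theorem sm_hasDerivAt_ip {f g : ℝ → ℂ} {f' g' : ℂ} {t : ℝ} (hf : HasDerivAt f f' t)
    (hg : HasDerivAt g g' t) :
    HasDerivAt (fun s => ip (f s) (g s)) (ip f' (g t) + ip (f t) g') t := by
  have h1 := (Complex.reCLM.hasFDerivAt.comp_hasDerivAt t hf)
  have h2 := (Complex.imCLM.hasFDerivAt.comp_hasDerivAt t hf)
  have h3 := (Complex.reCLM.hasFDerivAt.comp_hasDerivAt t hg)
  have h4 := (Complex.imCLM.hasFDerivAt.comp_hasDerivAt t hg)
  have h5 := (h1.mul h3).add (h2.mul h4)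
  refine HasDerivAt.congr_deriv (f := fun s => ip (f s) (g s)) h5 ?_
  simp [ip]
  ring

theorem sm_continuous_ip : Continuous fun p : ℂ × ℂ => ip p.1 p.2 := by
  unfold ip
  fun_prop

/-- a nonzero real functional on the plane is a positive multiple of the inner product with a
unit vector -/
theorem sm_functional (f : ℂ →L[ℝ] ℝ) {a b : ℂ} (h : f a < f b) :
    ∃ (M : ℂ) (c : ℝ), ‖M‖ = 1 ∧ 0 < c ∧ ∀ z, f z = c * ip M z := by
  set v : ℂ := ⟨f 1, f Complex.I⟩ with hv
  have hf : ∀ z, f z = ip v z := by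
    intro z
    conv_lhs => rw [show z = z.re • (1 : ℂ) + z.im • Complex.I by simp [Complex.re_add_im]]
    rw [map_add, map_smul, map_smul]
    simp [ip, hv]
    ring
  have hv0 : v ≠ 0 := by
    intro h0
    rw [hf, hf, h0] at h
    simp [ip] at h
  have hn : 0 < ‖v‖ := norm_pos_iff.2 hv0
  refine ⟨v / (‖v‖ : ℂ), ‖v‖, ?_, hn, fun z => ?_⟩
  · rw [norm_div, Complex.norm_real, norm_norm, div_self hn.ne']
  · rw [hf]
    simp only [ip, Complex.div_ofReal_re, Complex.div_ofReal_im]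
    field_simp

theorem sm_exists_support {K : Set ℂ} (hc : Convex ℝ K) (hi : (interior K).Nonempty)
    {P : ℂ} (hP : P ∈ frontier K) : ∃ M : ℂ, ‖M‖ = 1 ∧ ∀ z ∈ K, ip M (z - P) ≤ 0 := by
  obtain ⟨f, hf⟩ := geometric_hahn_banach_open_point hc.interior isOpen_interior hP.2
  obtain ⟨c, hc0⟩ := hi
  obtain ⟨M, k, hM, hk, hfM⟩ := sm_functional f (hf c hc0)
  refine ⟨M, hM, fun z hz => ?_⟩
  have h1 : z ∈ closure (interior K) := by
    rw [hc.closure_interior_eq_closure_of_nonempty_interior ⟨c, hc0⟩]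
    exact subset_closure hz
  have h2 : f z ≤ f P :=
    closure_minimal (t := {w | f w ≤ f P}) (fun w hw => (hf w hw).le)
      (isClosed_le f.continuous continuous_const) h1
  have h3 : f (z - P) ≤ 0 := by rw [map_sub]; linarith
  rw [hfM] at h3
  by_contra h4
  push Not at h4
  exact absurd h3 (not_le.2 (mul_pos hk h4))

theorem sm_interior_lt {K : Set ℂ} {P M c : ℂ} (hM : ‖M‖ = 1) (h : ∀ z ∈ K, ip M (z - P) ≤ 0)
    (hc : c ∈ interior K) : ip M (c - P) < 0 := by
  obtain ⟨ε, hε, hb⟩ := Metric.mem_nhds_iff.1 (mem_interior_iff_mem_nhds.1 hc)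
  have h1 : c + ((ε / 2 : ℝ) : ℂ) * M ∈ K := by
    apply hb
    rw [mem_ball, dist_eq_norm, add_sub_cancel_left, norm_mul, hM, Complex.norm_real,
      Real.norm_eq_abs, abs_of_pos (half_pos hε)]
    linarith
  have h2 := h _ h1
  have h3 : ip M (c + ((ε / 2 : ℝ) : ℂ) * M - P) = ip M (c - P) + ε / 2 * ip M M := by
    simp only [ip, Complex.sub_re, Complex.add_re, Complex.sub_im, Complex.add_im,
      Complex.re_ofReal_mul, Complex.im_ofReal_mul]
    ring
  rw [h3, sm_ip_self, hM] at h2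
  linarith

/-- two unit vectors orthogonal to the same nonzero vector agree up to sign -/
theorem sm_unit_perp {a b v : ℂ} (ha : ‖a‖ = 1) (hb : ‖b‖ = 1) (hv : v ≠ 0) (h1 : ip a v = 0)
    (h2 : ip b v = 0) : a = b ∨ a = -b := by
  have ha' := sm_ip_self a
  have hb' := sm_ip_self b
  have hv' := sm_ip_self v
  rw [ha] at ha'
  rw [hb] at hb'
  have hv0 : 0 < ‖v‖ ^ 2 := by positivity
  rw [← hv'] at hv0
  simp only [ip] at ha' hb' h1 h2 hv0
  have h3 : (a.re * b.im - a.im * b.re) * (v.re * v.re + v.im * v.im) = 0 := by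
    linear_combination (v.re * b.im - v.im * b.re) * h1 - (v.re * a.im - v.im * a.re) * h2
  have h4 : a.re * b.im - a.im * b.re = 0 := (mul_eq_zero.1 h3).resolve_right hv0.ne'
  have h5 : (a.re * b.re + a.im * b.im - 1) * (a.re * b.re + a.im * b.im + 1) = 0 := by
    linear_combination (b.re * b.re + b.im * b.im) * ha' + hb' - (a.re * b.im - a.im * b.re) * h4
  rcases mul_eq_zero.1 h5 with h6 | h6
  · left
    apply Complex.ext
    · linear_combination (-a.re) * hb' + b.re * h6 + b.im * h4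
    · linear_combination (-a.im) * hb' + b.im * h6 - b.re * h4
  · right
    apply Complex.ext
    · rw [Complex.neg_re]
      linear_combination (-a.re) * hb' + b.re * h6 + b.im * h4
    · rw [Complex.neg_im]
      linear_combination (-a.im) * hb' + b.im * h6 - b.re * h4

theorem sm_null_subsingleton {f : ℝ → ℝ} {S : Set ℝ} (hf : ∀ t ∈ S, HasDerivAt f 0 t)
    {X : Set ℝ} (hX : X ⊆ f '' S) (hp : IsPreconnected X) : X.Subsingleton := by
  have h0 : volume (f '' S) = 0 := by
    refine addHaar_image_eq_zero_of_det_fderivWithin_eq_zero volume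
      (f' := fun _ => (0 : ℝ →L[ℝ] ℝ)) (fun t ht => ?_) (fun t _ => by simp)
    have := (hf t ht).hasFDerivAt
    refine (this.congr_fderiv ?_).hasFDerivWithinAt
    ext
    simp
  have key : ∀ a ∈ X, ∀ b ∈ X, ¬ a < b := by
    intro a ha b hb hab
    have h1 : Icc a b ⊆ f '' S := (hp.Icc_subset ha hb).trans hX
    have h2 := measure_mono_null h1 h0
    rw [Real.volume_Icc, ENNReal.ofReal_eq_zero] at h2
    linarith
  intro a ha b hb
  exact le_antisymm (not_lt.1 (key b hb a ha)) (not_lt.1 (key a ha b hb))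

/-- Where the normal turns, the body lies in tangent discs of bounded size. -/
theorem sm_curved {K : Set ℂ} {γ n : ℝ → ℂ} {D : ℝ} (hγ : ContDiff ℝ 2 γ) (hn : ContDiff ℝ 1 n)
    (hn1 : ∀ t, ‖n t‖ = 1) (hperp : ∀ t, ip (n t) (deriv γ t) = 0)
    (hout : ∀ t, ∀ z ∈ K, ip (n t) (z - γ t) ≤ 0) (hD : ∀ t, ∀ z ∈ K, ‖γ t - z‖ ≤ D)
    {t₀ : ℝ} (h0 : deriv n t₀ ≠ 0) :
    ∃ (m : ℕ) (η : ℝ), 0 < η ∧ ∀ t, |t - t₀| ≤ η → ∀ z ∈ K,
      ‖γ t - z‖ ^ 2 ≤ m * ip (n t) (γ t - z) := by
  have hnd : ∀ t, HasDerivAt n (deriv n t) t := fun t =>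
    (hn.differentiable one_ne_zero t).hasDerivAt
  have hγd : ∀ t, HasDerivAt γ (deriv γ t) t := fun t =>
    (hγ.differentiable two_ne_zero t).hasDerivAt
  have hγ1 : ContDiff ℝ 1 (deriv γ) := hγ.deriv'
  have hn' : Continuous (deriv n) := hn.continuous_deriv le_rfl
  set k := ip (deriv n t₀) (Complex.I * n t₀) with hk
  have hk0 : k ≠ 0 := by
    intro hk0
    have h1 := sm_hasDerivAt_ip (hnd t₀) (hnd t₀)
    have h2 : (fun s => ip (n s) (n s)) = fun _ => (1 : ℝ) := by
      funext s; rw [sm_ip_self, hn1]; norm_num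
    rw [h2] at h1
    have h3 := h1.unique (hasDerivAt_const t₀ (1 : ℝ))
    have h4 := sm_ip_self (n t₀)
    rw [hn1] at h4
    rw [hk] at hk0
    simp only [ip, Complex.mul_re, Complex.mul_im, Complex.I_re, Complex.I_im] at h3 h4 hk0
    apply h0
    apply Complex.ext
    · rw [Complex.zero_re]
      linear_combination (-(deriv n t₀).re) * h4 + (n t₀).re / 2 * h3 - (n t₀).im * hk0
    · rw [Complex.zero_im]
      linear_combination (-(deriv n t₀).im) * h4 + (n t₀).im / 2 * h3 + (n t₀).re * hk0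
  have hk2 : 0 < k ^ 2 := by positivity
  -- the turning rate near `t₀`
  obtain ⟨η, hη, hη1, hturn⟩ : ∃ η : ℝ, 0 < η ∧ η ≤ 1 ∧ ∀ s t, |s - t₀| ≤ η → |t - t₀| ≤ η →
      k ^ 2 / 2 ≤ k * ip (deriv n s) (Complex.I * n t) := by
    have hc : Continuous fun p : ℝ × ℝ => k * ip (deriv n p.1) (Complex.I * n p.2) :=
      continuous_const.mul (sm_continuous_ip.comp ((hn'.comp continuous_fst).prodMk
        (continuous_const.mul (hn.continuous.comp continuous_snd))))
    have h1 : ∀ᶠ p in 𝓝 ((t₀, t₀) : ℝ × ℝ),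
        k ^ 2 / 2 < k * ip (deriv n p.1) (Complex.I * n p.2) :=
      hc.continuousAt.eventually (lt_mem_nhds (by simp only [← hk]; nlinarith))
    obtain ⟨ε, hε, h2⟩ := Metric.eventually_nhds_iff.1 h1
    refine ⟨min (ε / 2) 1, lt_min (half_pos hε) one_pos, min_le_right _ _, fun s t hs ht => ?_⟩
    have h3 : min (ε / 2) 1 < ε := (min_le_left _ _).trans_lt (half_lt_self hε)
    refine (h2 (y := (s, t)) ?_).le
    rw [Prod.dist_eq, Real.dist_eq, Real.dist_eq]
    exact max_lt (hs.trans_lt h3) (ht.trans_lt h3)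
  -- a bound for the second derivative
  obtain ⟨C, hC0, hC⟩ : ∃ C : ℝ, 0 < C ∧ ∀ s ∈ Icc (t₀ - η) (t₀ + η), ∀ u ∈ Icc (t₀ - η) (t₀ + η),
      ‖deriv γ u - deriv γ s‖ ≤ C * ‖u - s‖ := by
    obtain ⟨C, hC⟩ := (isCompact_Icc (a := t₀ - η) (b := t₀ + η)).exists_bound_of_continuousOn
      (hγ1.continuous_deriv le_rfl).continuousOn
    refine ⟨|C| + 1, by positivity, fun s hs u hu => ?_⟩
    exact (convex_Icc _ _).norm_image_sub_le_of_norm_deriv_le
      (fun x _ => hγ1.differentiable one_ne_zero x)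
      (fun x hx => (hC x hx).trans (by linarith [le_abs_self C])) hs hu
  have hmem : ∀ s, |s - t₀| ≤ η → s ∈ Icc (t₀ - η) (t₀ + η) := fun s hs =>
    ⟨by linarith [(abs_le.1 hs).1], by linarith [(abs_le.1 hs).2]⟩
  have htaylor : ∀ s t, |s - t₀| ≤ η → |t - t₀| ≤ η →
      -(C * (t - s) ^ 2) ≤ ip (n s) (γ t - γ s) := by
    intro s t hs ht
    have hsub : uIcc s t ⊆ Icc (t₀ - η) (t₀ + η) := uIcc_subset_Icc (hmem s hs) (hmem t ht)
    have hd : ∀ u, HasDerivAt (fun u => ip (n s) (γ u - γ s)) (ip (n s) (deriv γ u)) u := by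
      intro u
      have := sm_hasDerivAt_ip (hasDerivAt_const u (n s)) ((hγd u).sub_const (γ s))
      simpa [ip] using this
    have h1 := (convex_uIcc s t).norm_image_sub_le_of_norm_hasDerivWithin_le
      (f := fun u => ip (n s) (γ u - γ s)) (f' := fun u => ip (n s) (deriv γ u))
      (C := C * ‖t - s‖) (fun u _ => (hd u).hasDerivWithinAt) (fun u hu => by
        have h2 : ip (n s) (deriv γ u) = ip (n s) (deriv γ u - deriv γ s) := by
          have := hperp s
          simp only [ip, Complex.sub_re, Complex.sub_im] at this ⊢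
          linarith
        rw [h2, Real.norm_eq_abs]
        refine (sm_abs_ip_le _ _).trans ?_
        rw [hn1, one_mul]
        refine (hC s (hmem s hs) u (hsub hu)).trans (mul_le_mul_of_nonneg_left ?_ hC0.le)
        exact abs_sub_left_of_mem_uIcc hu) left_mem_uIcc right_mem_uIcc
    have h3 : ip (n s) (γ s - γ s) = 0 := by simp [ip]
    rw [h3, sub_zero, Real.norm_eq_abs, Real.norm_eq_abs, mul_assoc, abs_mul_abs_self] at h1
    have := (abs_le.1 h1).1
    nlinarith
  -- the step size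
  obtain ⟨ε, hε, hε1, hε2⟩ : ∃ ε : ℝ, 0 < ε ∧ C * ε ≤ 1 / 4 ∧ ε * (|k| * |D|) ≤ η / 2 := by
    have h1 : ∀ᶠ ε in 𝓝 (0 : ℝ), C * ε < 1 / 4 :=
      (continuous_const.mul continuous_id).continuousAt.eventually (gt_mem_nhds (by simp))
    have h2 : ∀ᶠ ε in 𝓝 (0 : ℝ), ε * (|k| * |D|) < η / 2 :=
      (continuous_id.mul continuous_const).continuousAt.eventually
        (gt_mem_nhds (by simpa using hη))
    obtain ⟨ε, ⟨h3, h4⟩, h5⟩ :=
      (((h1.and h2).filter_mono nhdsWithin_le_nhds).and (self_mem_nhdsWithin (s := Ioi 0))).exists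
    exact ⟨ε, h5, h3.le, h4.le⟩
  obtain ⟨m, hm⟩ := exists_nat_ge (|D| + 4 / (ε * k ^ 2))
  refine ⟨m, η / 2, half_pos hη, fun t ht z hz => ?_⟩
  set w := γ t - z with hw
  set α := ip (n t) w with hα
  set β := ip (Complex.I * n t) w with hβ
  have hnt := sm_ip_self (n t)
  rw [hn1] at hnt
  have hα0 : 0 ≤ α := by
    have := hout t z hz
    simp only [hα, hw, ip, Complex.sub_re, Complex.sub_im] at this ⊢
    linarith
  have hwD : ‖w‖ ≤ |D| := (hD t z hz).trans (le_abs_self D)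
  have hαD : α ≤ |D| := by
    have := sm_abs_ip_le (n t) w
    rw [hn1, one_mul] at this
    exact (le_abs_self _).trans (this.trans hwD)
  have hβD : |β| ≤ |D| := by
    have := sm_abs_ip_le (Complex.I * n t) w
    rw [norm_mul, Complex.norm_I, hn1, one_mul, one_mul] at this
    exact this.trans hwD
  have hnorm : ‖w‖ ^ 2 = α ^ 2 + β ^ 2 := by
    rw [← sm_ip_self]
    simp only [hα, hβ, ip, Complex.mul_re, Complex.mul_im, Complex.I_re, Complex.I_im] at hnt ⊢
    linear_combination (-(w.re * w.re + w.im * w.im)) * hnt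
  set s := t - ε * k * β with hs
  have ht' : |t - t₀| ≤ η := ht.trans (half_le_self hη.le)
  have hst : |s - t| ≤ η / 2 := by
    rw [hs, sub_sub_cancel_left, abs_neg, abs_mul, abs_mul, abs_of_pos hε, mul_assoc]
    refine le_trans ?_ hε2
    gcongr
  have hs' : |s - t₀| ≤ η := by
    calc |s - t₀| ≤ |s - t| + |t - t₀| := abs_sub_le _ _ _
      _ ≤ η := by linarith
  -- mean value theorem for the turning of the normal
  have hψ : β * ip (n s) (Complex.I * n t) ≤ -(ε * (k ^ 2 / 2) * β ^ 2) := by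
    have hd : ∀ u : ℝ, HasDerivAt (fun u : ℝ => ip (n (t + u * (s - t))) (Complex.I * n t))
        ((s - t) * ip (deriv n (t + u * (s - t))) (Complex.I * n t)) u := by
      intro u
      have h1 : HasDerivAt (fun u : ℝ => t + u * (s - t)) (s - t) u := by
        simpa using ((hasDerivAt_id u).mul_const (s - t)).const_add t
      have h2 := sm_hasDerivAt_ip (hnd (t + u * (s - t)))
        (hasDerivAt_const (t + u * (s - t)) (Complex.I * n t))
      refine (h2.comp u h1).congr_deriv ?_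
      simp [ip]
      ring
    obtain ⟨u, hu, h3⟩ := exists_hasDerivAt_eq_slope _ _ one_pos
      (fun u _ => (hd u).continuousAt.continuousWithinAt) (fun u _ => hd u)
    have h4 : ip (n t) (Complex.I * n t) = 0 := by simp [ip]; ring
    simp only [one_mul, zero_mul, add_zero, add_sub_cancel, sub_zero, div_one, h4] at h3
    have h5 : |t + u * (s - t) - t₀| ≤ η := by
      have h6 : |u * (s - t)| ≤ η / 2 := by
        rw [abs_mul, abs_of_pos hu.1]
        exact (mul_le_of_le_one_left (abs_nonneg _) hu.2.le).trans hst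
      calc |t + u * (s - t) - t₀| = |u * (s - t) + (t - t₀)| := by ring_nf
        _ ≤ |u * (s - t)| + |t - t₀| := abs_add_le _ _
        _ ≤ η := by linarith
    have h7 := hturn _ t h5 ht'
    rw [← h3]
    set y := ip (deriv n (t + u * (s - t))) (Complex.I * n t)
    have h8 : β * ((s - t) * y) = -(ε * (k * y) * β ^ 2) := by rw [hs]; ring
    rw [h8, neg_le_neg_iff]
    gcongr
  have hdec : ip (n s) w = α * ip (n s) (n t) + β * ip (n s) (Complex.I * n t) := by
    simp only [hα, hβ, ip, Complex.mul_re, Complex.mul_im, Complex.I_re, Complex.I_im] at hnt ⊢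
    linear_combination (-((n s).re * w.re + (n s).im * w.im)) * hnt
  have hle1 : ip (n s) (n t) ≤ 1 := by
    have := sm_abs_ip_le (n s) (n t)
    rw [hn1, hn1, one_mul] at this
    exact (le_abs_self _).trans this
  have hlow : -(C * (t - s) ^ 2) ≤ ip (n s) w := by
    have h1 := htaylor s t hs' ht'
    have h2 := hout s z hz
    simp only [hw, ip, Complex.sub_re, Complex.sub_im] at h1 h2 ⊢
    linarith
  have hts : (t - s) ^ 2 = ε * (ε * k ^ 2 * β ^ 2) := by rw [hs]; ring
  have hx : 0 ≤ ε * k ^ 2 * β ^ 2 := by positivity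
  have hmain : ε * k ^ 2 * β ^ 2 ≤ 4 * α := by
    have h1 : α * ip (n s) (n t) ≤ α := mul_le_of_le_one_right hα0 hle1
    have h2 : C * (ε * (ε * k ^ 2 * β ^ 2)) ≤ 1 / 4 * (ε * k ^ 2 * β ^ 2) := by
      rw [← mul_assoc]
      exact mul_le_mul_of_nonneg_right hε1 hx
    rw [hts] at hlow
    nlinarith
  have hβ2 : β ^ 2 ≤ 4 / (ε * k ^ 2) * α := by
    rw [div_mul_eq_mul_div, le_div_iff₀ (mul_pos hε hk2)]
    linarith
  rw [hnorm]
  have h9 : α ^ 2 ≤ |D| * α := by nlinarith
  have h10 := mul_le_mul_of_nonneg_right hm hα0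
  linarith

theorem exists_body {K : Set ℂ} (h : SmoothBody K) : ∃ b : Body, b.K = K := by
  obtain ⟨hK, hc, hi, γ, hγ, hper, hne, hinj, hrange⟩ := h
  have hsup := fun P (hP : P ∈ frontier K) => sm_exists_support hc hi hP
  choose! N hN1 hN2 using hsup
  obtain ⟨c, hc0⟩ := hi
  have hfr : ∀ t, γ t ∈ frontier K := fun t => hrange ▸ mem_range_self t
  have hKγ : ∀ t, γ t ∈ K := fun t => hK.isClosed.frontier_subset (hfr t)
  have hγd : ∀ t, HasDerivAt γ (deriv γ t) t := fun t =>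
    (hγ.differentiable two_ne_zero t).hasDerivAt
  have hγ1 : ContDiff ℝ 1 (deriv γ) := hγ.deriv'
  have hperp : ∀ t M, (∀ z ∈ K, ip M (z - γ t) ≤ 0) → ip M (deriv γ t) = 0 := by
    intro t M hM
    have h1 := sm_hasDerivAt_ip (hasDerivAt_const t M) ((hγd t).sub_const (γ t))
    have h2 : IsLocalMax (fun s => ip M (γ s - γ t)) t :=
      Eventually.of_forall fun s => by
        have := hM _ (hKγ s)
        simpa [ip] using this
    have h3 := h2.hasDerivAt_eq_zero h1
    simpa [ip] using h3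
  have huniq : ∀ P ∈ K, ∀ M : ℂ, ‖M‖ = 1 → (∀ z ∈ K, ip M (z - P) ≤ 0) →
      P ∈ frontier K ∧ M = N P := by
    intro P hP M hM h1
    have h2 : P ∈ frontier K := by
      refine ⟨subset_closure hP, fun h3 => ?_⟩
      have := sm_interior_lt hM h1 h3
      simp [ip] at this
    refine ⟨h2, ?_⟩
    obtain ⟨t, rfl⟩ : P ∈ range γ := hrange ▸ h2
    rcases sm_unit_perp hM (hN1 _ h2) (hne t) (hperp t M h1) (hperp t _ (hN2 _ h2)) with h3 | h3
    · exact h3
    · have h4 := sm_interior_lt hM h1 hc0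
      have h5 := sm_interior_lt (hN1 _ h2) (hN2 _ h2) hc0
      rw [h3] at h4
      simp only [ip, Complex.neg_re, Complex.neg_im] at h4 h5
      linarith
  -- the normal along the curve is of class `C^1`
  have hn : ContDiff ℝ 1 fun t => N (γ t) := by
    set u : ℝ → ℂ := fun t => Complex.I * deriv γ t / (‖deriv γ t‖ : ℂ) with hu
    have hu1 : ∀ t, ‖u t‖ = 1 := fun t => by
      simp only [hu]
      rw [norm_div, norm_mul, Complex.norm_I, one_mul, Complex.norm_real, norm_norm,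
        div_self (norm_ne_zero_iff.2 (hne t))]
    have hu2 : ∀ t, ip (u t) (deriv γ t) = 0 := fun t => by
      simp only [hu, ip, Complex.div_ofReal_re, Complex.div_ofReal_im, Complex.mul_re,
        Complex.mul_im, Complex.I_re, Complex.I_im]
      ring
    have hu3 : ContDiff ℝ 1 u := by
      have h1 : ContDiff ℝ 1 fun t => ‖deriv γ t‖⁻¹ :=
        (hγ1.norm ℝ hne).inv fun t => norm_ne_zero_iff.2 (hne t)
      have h2 : u = fun t => Complex.I * deriv γ t * Complex.ofRealCLM ‖deriv γ t‖⁻¹ := by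
        funext t
        simp [hu, div_eq_mul_inv]
      rw [h2]
      exact (contDiff_const.mul hγ1).mul (Complex.ofRealCLM.contDiff.comp h1)
    have hor : ∀ t, (N (γ t) = u t ∧ ip (u t) (c - γ t) < 0) ∨
        (N (γ t) = -u t ∧ 0 < ip (u t) (c - γ t)) := by
      intro t
      have h5 := sm_interior_lt (hN1 _ (hfr t)) (hN2 _ (hfr t)) hc0
      rcases sm_unit_perp (hN1 _ (hfr t)) (hu1 t) (hne t) (hperp t _ (hN2 _ (hfr t))) (hu2 t)
        with h3 | h3
      · exact Or.inl ⟨h3, h3 ▸ h5⟩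
      · refine Or.inr ⟨h3, ?_⟩
        rw [h3] at h5
        simp only [ip, Complex.neg_re, Complex.neg_im] at h5 ⊢
        linarith
    have hcont : Continuous fun t => ip (u t) (c - γ t) :=
      sm_continuous_ip.comp (hu3.continuous.prodMk (continuous_const.sub hγ.continuous))
    have hno : ∀ a b, ip (u a) (c - γ a) < 0 → 0 < ip (u b) (c - γ b) → False := by
      intro a b ha hb
      obtain ⟨t, ht⟩ := intermediate_value_univ a b hcont ⟨ha.le, hb.le⟩
      simp only at ht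
      rcases hor t with h3 | h3 <;> linarith [h3.2]
    rcases hor 0 with h0 | h0
    · have : (fun t => N (γ t)) = u := funext fun t =>
        (hor t).elim (fun h3 => h3.1) fun h3 => (hno _ _ h0.2 h3.2).elim
      rw [this]; exact hu3
    · have : (fun t => N (γ t)) = fun t => -u t := funext fun t =>
        (hor t).elim (fun h3 => (hno _ _ h3.2 h0.2).elim) fun h3 => h3.1
      rw [this]; exact hu3.neg
  have hshift : ∀ a : ℝ, ∀ Q ∈ frontier K, ∃ t ∈ Ico a (a + 1), γ t = Q := by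
    intro a Q hQ
    obtain ⟨x, rfl⟩ : Q ∈ range γ := hrange ▸ hQ
    obtain ⟨y, hy, h1⟩ := hper.exists_mem_Ico one_pos x a
    exact ⟨y, hy, h1.symm⟩
  have hreg : ∀ t₀, deriv (fun t => N (γ t)) t₀ ≠ 0 → γ t₀ ∈ Reg K N := by
    intro t₀ h0
    obtain ⟨m, η, hη, hm⟩ := sm_curved (K := K) (D := diam K) hγ hn (fun t => hN1 _ (hfr t))
      (fun t => hperp t _ (hN2 _ (hfr t))) (fun t => hN2 _ (hfr t))
      (fun t z hz => by rw [← dist_eq_norm]; exact dist_le_diam_of_mem hK.isBounded (hKγ t) hz) h0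
    have hcp : IsCompact (γ '' Icc (t₀ + η) (t₀ - η + 1)) := isCompact_Icc.image hγ.continuous
    have hnot : γ t₀ ∉ γ '' Icc (t₀ + η) (t₀ - η + 1) := by
      rintro ⟨s, hs, h1⟩
      have h2 : ∀ x : ℝ, γ (Int.fract x) = γ x := fun x => by
        have := hper.sub_int_mul_eq (x := x) ⌊x⌋
        rwa [mul_one] at this
      have h3 : Int.fract s = Int.fract t₀ :=
        hinj ⟨Int.fract_nonneg _, Int.fract_lt_one _⟩ ⟨Int.fract_nonneg _, Int.fract_lt_one _⟩
          (by rw [h2, h2, h1])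
      obtain ⟨z, hz⟩ := Int.fract_eq_fract.1 h3
      have h4 : (0 : ℝ) < z := by rw [← hz]; linarith [hs.1]
      have h5 : (z : ℝ) < 1 := by rw [← hz]; linarith [hs.2]
      have h6 : (0 : ℤ) < z := by exact_mod_cast h4
      have h7 : z < 1 := by exact_mod_cast h5
      omega
    obtain ⟨δ, hδ, hball⟩ := Metric.mem_nhds_iff.1 (hcp.isClosed.isOpen_compl.mem_nhds hnot)
    refine ⟨m, δ, hδ, fun Q hQ hd => ⟨hQ, ?_⟩⟩
    obtain ⟨t, ht, rfl⟩ := hshift (t₀ - η) Q hQ
    have h1 : t < t₀ + η := by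
      by_contra h2
      exact hball (mem_ball.2 hd) ⟨t, ⟨not_lt.1 h2, ht.2.le⟩, rfl⟩
    exact hm t (abs_le.2 ⟨by linarith [ht.1], by linarith⟩)
  refine ⟨⟨K, N, γ, hK, hc, ⟨c, hc0⟩, hγ, hper, hne, hinj, hrange, hN1, hN2, huniq, ?_,
    fun t => hperp t _ (hN2 _ (hfr t)), ?_⟩, rfl⟩
  · rw [continuousOn_iff_isClosed]
    intro C hC
    refine ⟨γ '' (Icc 0 1 ∩ (fun t => N (γ t)) ⁻¹' C),
      ((isCompact_Icc.inter_right (hC.preimage hn.continuous)).image hγ.continuous).isClosed, ?_⟩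
    ext Q
    constructor
    · rintro ⟨h1, h2⟩
      obtain ⟨t, ht, rfl⟩ := hshift 0 Q h2
      exact ⟨⟨t, ⟨⟨ht.1, by linarith [ht.2]⟩, h1⟩, rfl⟩, h2⟩
    · rintro ⟨⟨t, ht, rfl⟩, h2⟩
      exact ⟨ht.2, h2⟩
  · intro X hX hp
    set n : ℝ → ℂ := fun t => N (γ t) with hndef
    have hX' : X ⊆ n '' {t | deriv n t = 0} := by
      intro x hx
      obtain ⟨Q, ⟨hQ, hQ'⟩, rfl⟩ := hX hx
      obtain ⟨t, -, rfl⟩ := hshift 0 Q hQ
      exact ⟨t, by_contra fun h1 => hQ' (hreg t h1), rfl⟩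
    have key : ∀ L : ℂ →L[ℝ] ℝ, (L '' X).Subsingleton := by
      intro L
      refine sm_null_subsingleton (f := fun t => L (n t)) (S := {t | deriv n t = 0})
        (fun t ht => ?_) ?_ (hp.image _ L.continuous.continuousOn)
      · have h1 := (hn.differentiable one_ne_zero t).hasDerivAt
        rw [show deriv n t = 0 from ht] at h1
        exact (L.hasFDerivAt.comp_hasDerivAt t h1).congr_deriv (map_zero L)
      · rintro _ ⟨x, hx, rfl⟩
        obtain ⟨t, ht, rfl⟩ := hX' hx
        exact ⟨t, ht, rfl⟩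
    intro x hx y hy
    exact Complex.ext (key Complex.reCLM ⟨x, hx, rfl⟩ ⟨y, hy, rfl⟩)
      (key Complex.imCLM ⟨x, hx, rfl⟩ ⟨y, hy, rfl⟩)

theorem exists_table {n : ℕ} (b : Fin n → Body)
    (hd : ∀ i j, i ≠ j → Disjoint (b i).K (b j).K) : ∃ T : Table (Fin n), T.b = b := by
  have hsep : ∀ i j, ∃ (M : ℂ) (g : ℝ), 0 < g ∧ (i ≠ j → ‖M‖ = 1 ∧
      ∀ z ∈ (b i).K, ∀ w ∈ (b j).K, g ≤ ip M (w - z)) := by
    intro i j
    by_cases hij : i = j
    · exact ⟨0, 1, one_pos, fun h => (h hij).elim⟩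
    obtain ⟨f, u, v, h1, h2, h3⟩ := geometric_hahn_banach_compact_closed (b i).cvx (b i).cpt
      (b j).cvx (b j).cpt.isClosed (hd i j hij)
    obtain ⟨x, hx⟩ := (b i).int_ne
    obtain ⟨y, hy⟩ := (b j).int_ne
    obtain ⟨M, k, hM, hk, hf⟩ := sm_functional f
      ((h1 x (interior_subset hx)).trans (h2.trans (h3 y (interior_subset hy))))
    refine ⟨M, (v - u) / k, div_pos (sub_pos.2 h2) hk, fun _ => ⟨hM, fun z hz w hw => ?_⟩⟩
    rw [div_le_iff₀ hk, mul_comm, ← hf, map_sub]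
    linarith [h1 z hz, h3 w hw]
  choose M g hg hM using hsep
  have hball : ∀ i, ∃ (c : ℂ) (ρ : ℝ), 0 < ρ ∧ closedBall c ρ ⊆ (b i).K := by
    intro i
    obtain ⟨c, hc⟩ := (b i).int_ne
    obtain ⟨ρ, hρ, h1⟩ := Metric.nhds_basis_closedBall.mem_iff.1 (mem_interior_iff_mem_nhds.1 hc)
    exact ⟨c, ρ, hρ, h1⟩
  choose c ρ hρ hc using hball
  obtain ⟨r, hr, hr1, hrg, hrρ⟩ : ∃ r : ℝ, 0 < r ∧ r ≤ 1 ∧ (∀ i j, r ≤ g i j / 4) ∧
      ∀ i, r ≤ ρ i := by
    have h1 : ∀ᶠ r in 𝓝 (0 : ℝ), r < 1 := gt_mem_nhds one_pos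
    have h2 : ∀ᶠ r in 𝓝 (0 : ℝ), ∀ i j, r < g i j / 4 :=
      eventually_all.2 fun i => eventually_all.2 fun j => gt_mem_nhds (by linarith [hg i j])
    have h3 : ∀ᶠ r in 𝓝 (0 : ℝ), ∀ i, r < ρ i := eventually_all.2 fun i => gt_mem_nhds (hρ i)
    obtain ⟨r, ⟨h4, h5, h6⟩, h7⟩ := (((h1.and (h2.and h3)).filter_mono nhdsWithin_le_nhds).and
      (self_mem_nhdsWithin (s := Ioi 0))).exists
    exact ⟨r, h7, h4.le, fun i j => (h5 i j).le, fun i => (h6 i).le⟩
  have hbd : Bornology.IsBounded (⋃ i, cthickening r (b i).K) :=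
    Bornology.isBounded_iUnion.2 fun i => (b i).cpt.isBounded.cthickening
  obtain ⟨D, hD⟩ := hbd.exists_norm_le
  have hthick : ∀ i j, i ≠ j → ∀ z ∈ cthickening r (b i).K, ∀ w ∈ cthickening r (b j).K,
      2 * r ≤ ip (M i j) (w - z) := by
    intro i j hij z hz w hw
    rw [(b i).cpt.cthickening_eq_biUnion_closedBall hr.le] at hz
    rw [(b j).cpt.cthickening_eq_biUnion_closedBall hr.le] at hw
    obtain ⟨z', hz', h1⟩ := mem_iUnion₂.1 hz
    obtain ⟨w', hw', h2⟩ := mem_iUnion₂.1 hw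
    have h3 := (hM i j hij).2 z' hz' w' hw'
    have h4 := sm_abs_ip_le (M i j) (z - z')
    have h5 := sm_abs_ip_le (M i j) (w - w')
    rw [(hM i j hij).1, one_mul, ← dist_eq_norm] at h4 h5
    have h6 := (abs_le.1 (h4.trans (mem_closedBall.1 h1))).2
    have h7 := (abs_le.1 (h5.trans (mem_closedBall.1 h2))).1
    have h8 := hrg i j
    simp only [ip, Complex.sub_re, Complex.sub_im] at h3 h6 h7 ⊢
    linarith
  refine ⟨⟨b, r, max 1 D, fun i j => if i < j then M i j else if j < i then -M j i else 0, c, hr,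
    hr1, le_max_left _ _, fun i j hij => ?_, fun i j => ?_, fun i j hij z hz w hw => ?_,
    fun i => (closedBall_subset_closedBall (hrρ i)).trans (hc i),
    fun i z hz => (hD z (mem_iUnion.2 ⟨i, hz⟩)).trans (le_max_right _ _)⟩, rfl⟩
  · rcases lt_or_gt_of_ne hij with h | h
    · simp only [h, if_true]
      exact (hM i j hij).1
    · simp only [h, h.not_gt, if_true, if_false, norm_neg]
      exact (hM j i hij.symm).1
  · rcases lt_trichotomy i j with h | h | h
    · simp [h, h.not_gt]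
    · simp [h]
    · simp [h, h.not_gt]
  · rcases lt_or_gt_of_ne hij with h | h
    · simp only [h, if_true]
      exact hthick i j hij z hz w hw
    · simp only [h, h.not_gt, if_true, if_false]
      have := hthick j i hij.symm w hw z hz
      simp only [ip, Complex.sub_re, Complex.sub_im, Complex.neg_re, Complex.neg_im] at this ⊢
      linarith

end Pool.Agent.P.MP_379466_co
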