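import Mathlib

/-!
The objects of the problem.  The plane is `ℂ` with its Euclidean structure.
-/

set_option autoImplicit false

namespace Pool.Agent.P.MP_379466_co

/-- A compact convex set with nonempty interior whose boundary is a regular simple closed curve
of class `C^2`. -/
def SmoothBody (K : Set ℂ) : Prop :=
  IsCompact K ∧ Convex ℝ K ∧ (interior K).Nonempty ∧
    ∃ γ : ℝ → ℂ, ContDiff ℝ 2 γ ∧ Function.Periodic γ 1 ∧ (∀ t, deriv γ t ≠ 0) ∧
      Set.InjOn γ (Set.Ico 0 1) ∧ Set.range γ = frontier K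

/-- `N` is the outer unit normal of `K` at `P`. -/
def OuterNormal (K : Set ℂ) (P N : ℂ) : Prop :=
  ‖N‖ = 1 ∧ ∀ z ∈ K, inner ℝ N (z - P) ≤ 0

/-- The light path sent from `z` in direction `u` makes finitely many transversal reflections
and ends in a ray that meets no obstacle. -/
inductive Escapes {ι : Type} (K : ι → Set ℂ) : ℂ → ℂ → Prop
  | free (z u : ℂ) (h : ∀ t : ℝ, 0 < t → ∀ i, z + t • u ∉ K i) : Escapes K z u
  | bounce (z u : ℂ) (i : ι) (t : ℝ) (N : ℂ) (ht : 0 < t)
      (hfree : ∀ s : ℝ, 0 < s → s < t → ∀ j, z + s • u ∉ K j)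
      (hP : z + t • u ∈ K i) (hN : OuterNormal (K i) (z + t • u) N) (htr : inner ℝ u N < 0)
      (h : Escapes K (z + t • u) (u - (2 * inner ℝ u N) • N)) : Escapes K z u

end Pool.Agent.P.MP_379466_co
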