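import Pool.Agent.P.MP_379466_co.TailB

/-!
Tail bound for the bad sets and the compact singular curves.
-/

set_option autoImplicit false

namespace Pool.Agent.P.MP_379466_co

open Set MeasureTheory Filter
open scoped Topology ENNReal

namespace Tab

variable {n : ℕ} (T : Tab n)

open TailA

theorem exists_cpt (m : ℕ) {δ : ℝ≥0∞} (hδ : δ ≠ 0) :
    ∃ (Φ : Finset ((Fin n × Bool × Fin n) × ℕ)) (S : (Fin n × Bool × Fin n) × ℕ → Set Ang),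
      (∀ t, IsCompact (S t)) ∧ (∀ t, S t ⊆ T.Th m t.2 t.1.1 t.1.2.1 t.1.2.2) ∧
      (∀ t, ∀ θ ∈ S t, ∀ k l τ i, θ ∉ T.Dbl m t.2 t.1.1 t.1.2.1 t.1.2.2 k l τ i) ∧
      (∀ t ∉ Φ, S t = ∅) ∧
      ∑' t, ∫⁻ θ in T.Th m t.2 t.1.1 t.1.2.1 t.1.2.2 \ S t,
        ENNReal.ofReal (T.wt m t.2 (T.post t.1.1 t.1.2.1 t.1.2.2 θ)) ≤ δ + δ := by
  classical
  obtain ⟨η, h0, hη⟩ := ENNReal.exists_pos_sum_of_countable' hδ ((Fin n × Bool × Fin n) × ℕ)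
  obtain ⟨Φ, hΦ⟩ := ((tendsto_order.1 (ENNReal.tendsto_tsum_compl_atTop_zero (T.th_sum' m))).2 _
    (pos_iff_ne_zero.2 hδ)).exists
  have h1 : ∀ t : (Fin n × Bool × Fin n) × ℕ, ∃ S : Set Ang, IsCompact S ∧
      S ⊆ T.Th m t.2 t.1.1 t.1.2.1 t.1.2.2 ∧
      (∀ θ ∈ S, ∀ k l τ i, θ ∉ T.Dbl m t.2 t.1.1 t.1.2.1 t.1.2.2 k l τ i) ∧
      volume (T.Th m t.2 t.1.1 t.1.2.1 t.1.2.2 \ S) ≤ η t := by
    intro t
    obtain ⟨Z, z1, z2, z3⟩ := exists_measurable_superset_of_null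
      (T.volume_dbl m t.2 t.1.1 t.1.2.1 t.1.2.2)
    obtain ⟨S, s1, s2, s3⟩ := ((T.measurableSet_th m t.2 t.1.1 t.1.2.1 t.1.2.2).diff
      z2).exists_isCompact_sdiff_lt (μ := volume) (measure_ne_top _ _) (h0 t).ne'
    refine ⟨S, s2, fun θ h => (s1 h).1, fun θ h k l τ i h' =>
      (s1 h).2 (z1 (mem_iUnion.2 ⟨(k, l, τ, i), h'⟩)), le_trans (le_of_eq ?_) s3.le⟩
    rw [sdiff_sdiff_comm, measure_sdiff_null z3]
  choose S s1 s2 s3 s4 using h1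
  refine ⟨Φ, fun t => if t ∈ Φ then S t else ∅, fun t => ?_, fun t => ?_, fun t θ h => ?_,
    fun t h => if_neg h, ?_⟩
  · beta_reduce
    split_ifs
    exacts [s1 t, isCompact_empty]
  · beta_reduce
    split_ifs
    exacts [s2 t, empty_subset _]
  · beta_reduce at h
    split_ifs at h
    exacts [s3 t θ h, h.elim]
  refine le_trans ?_ (add_le_add hη.le ((tsum_subtype {t | t ∉ Φ}
    fun t : (Fin n × Bool × Fin n) × ℕ => ∫⁻ θ in T.Th m t.2 t.1.1 t.1.2.1 t.1.2.2,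
      ENNReal.ofReal (T.wt m t.2 (T.post t.1.1 t.1.2.1 t.1.2.2 θ))).symm.trans_le hΦ.le))
  rw [← ENNReal.tsum_add]
  refine ENNReal.tsum_le_tsum fun t => ?_
  beta_reduce
  by_cases h : t ∈ Φ
  · rw [if_pos h]
    refine le_trans ?_ le_self_add
    refine le_trans (lintegral_mono (g := fun _ => 1) fun θ => ?_) (by simpa using s4 t)
    exact ENNReal.ofReal_le_one.2 (T.wt_le_one _ _ _)
  · rw [if_neg h, sdiff_empty, indicator_of_mem (s := {t | t ∉ Φ}) h]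
    exact le_add_self

theorem tail (m : ℕ) {δ : ℝ} (hδ : 0 < δ) :
    ∃ (cm : Set (St n)) (ρ0 e0 : ℝ) (Tl : ℝ → Set (St n)), IsCompact cm ∧ 0 < ρ0 ∧ 0 < e0 ∧
      Disjoint cm (T.dag '' cm) ∧
      (∀ e, 0 < e → e ≤ e0 → mu n (Tl e) ≤ ENNReal.ofReal (δ * e)) ∧
      (∀ e e' v, 0 < e' → e' ≤ e → v ∈ T.BadP m e' ∨ v ∈ T.BadG m e' →
        v ∈ Tl e ∨ ∃ q ∈ T.dag '' cm, q.1 = v.1 ∧ dL v.2 q.2 ≤ e') ∧
      (∀ e e' a, 0 < e' → e' ≤ e → a ∈ T.BadM m e' ∨ T.dag a ∈ T.BadG m e' →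
        a ∈ Tl e ∨ ∃ q ∈ cm, q.1 = a.1 ∧ dL a.2 q.2 ≤ e') ∧
      (∀ q ∈ T.dag '' cm, ∀ q' ∈ T.dag '' cm, q'.1 = q.1 → dL q.2 q'.2 < ρ0 →
        T.Div q.1 1 q.2 q'.2 0 → An 1 q.2 q'.2 ≤ 0) ∧
      ∀ q ∈ cm, ∀ q' ∈ cm, q'.1 = q.1 → dL q.2 q'.2 < ρ0 →
        ∃ s, (s = 1 ∨ s = -1) ∧ T.PostRel q.1 s q.2 q'.2 0 := by
  obtain ⟨Φ, S, s1, s2, s3, s4, s5⟩ := T.exists_cpt m (δ := ENNReal.ofReal (δ / 16))
    (ENNReal.ofReal_pos.2 (by positivity)).ne'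
  obtain ⟨C, c0, hC⟩ := T.mu_badG m
  set A : (Fin n × Bool × Fin n) × ℕ → Set (St n) := fun t =>
    (fun θ => T.F^[t.2] (T.post t.1.1 t.1.2.1 t.1.2.2 θ)) '' S t with hA
  have a1 : ∀ t, IsCompact (A t) := fun t => (s1 t).image_of_continuousOn
    ((T.continuousOn_iter le_rfl).comp (T.continuous_post _ _ _).continuousOn
      fun θ h => (s2 t h).2.1)
  have a2 : ∀ t t', ∀ q ∈ A t, q ∈ A t' → t = t' := by
    rintro ⟨⟨l, τ, i⟩, k⟩ ⟨⟨l', τ', i'⟩, k'⟩ _ ⟨θ, h, rfl⟩ ⟨θ', h', e⟩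
    have := T.type_unique (s2 _ h') (s2 _ h) e
    simp only [Prod.mk.injEq] at this ⊢
    tauto
  have a3 : ∀ t t' : (Fin n × Bool × Fin n) × ℕ,
      IsOpen {p : St n × St n | t = t' ∧ T.Fol t.2 p.1 p.2 ∧ T.Near t.2 T.δ1 p.1 p.2} :=
    fun t t' => isOpen_const.inter (T.isOpen_folNear _ _)
  have a4 : ∀ t, ∀ q ∈ A t,
      T.Fol t.2 (T.dag q) (T.dag q) ∧ T.Near t.2 T.δ1 (T.dag q) (T.dag q) := by
    rintro t _ ⟨θ, h, rfl⟩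
    have := (T.back (s2 t h).2.1).1
    exact ⟨⟨this, this, fun _ _ => rfl⟩, fun j _ => by rw [dL_self]; exact T.tail_δ1_pos⟩
  have e1 := (Finset.eventually_all Φ).2 fun t _ => (Finset.eventually_all Φ).2 fun t' _ =>
    unif ((a1 t).image T.continuous_dag) ((a1 t').image T.continuous_dag) (a3 t t') (by
      rintro _ ⟨q, h, rfl⟩ ⟨q', h', e⟩
      obtain rfl : q' = q := by rw [← T.dag_dag q', e, T.dag_dag]
      exact ⟨a2 _ _ _ h h', a4 _ _ h⟩)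
  have e2 := (Finset.eventually_all Φ).2 fun t _ => (Finset.eventually_all Φ).2 fun t' _ =>
    unif (a1 t) (a1 t') ((a3 t t').preimage (T.continuous_dag.prodMap T.continuous_dag))
      fun q h h' => ⟨a2 _ _ _ h h', a4 _ _ h⟩
  obtain ⟨ρ, ⟨r1, r2⟩, r0⟩ := ((e1.and e2).and self_mem_nhdsWithin).exists
  set P : ℝ → Set (St n) := fun e => T.BadG m e ∪ ⋃ t : (Fin n × Bool × Fin n) × ℕ,
    {v | T.PEv m e t.2 t.1.1 t.1.2.1 v ∧ (T.F^[t.2] v).1 = t.1.2.2 ∧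
      (rev (T.F^[t.2] v).2).1 ∉ S t} with hP
  have p1 : ∀ e e' v, e' ≤ e → v ∈ T.BadG m e' → v ∈ P e := by
    rintro e e' v h ⟨k, h1, h2, h3⟩
    exact Or.inl ⟨k, h1, h2, h3.trans (mul_le_mul_of_nonneg_right h (T.wt_pos _ _ _).le)⟩
  have p2 : ∀ e e' v k l τ, e' ≤ e → T.PEv m e' k l τ v →
      v ∈ P e ∨ T.pst k l τ v ∈ ⋃ t ∈ Φ, A t := by
    rintro e e' v k l τ h ⟨h1, h2, h3⟩
    by_cases h4 : (rev (T.F^[k] v).2).1 ∈ S ((l, τ, (T.F^[k] v).1), k)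
    · refine Or.inr (mem_iUnion₂.2 ⟨((l, τ, (T.F^[k] v).1), k), by_contra fun h5 => ?_, _, h4, rfl⟩)
      rw [s4 _ h5] at h4
      exact h4
    · exact Or.inl (Or.inr (mem_iUnion.2 ⟨((l, τ, (T.F^[k] v).1), k), ⟨h1, h2, h3.trans
        (mul_le_mul_of_nonneg_right h (T.wt_pos _ _ _).le)⟩, rfl, h4⟩))
  have p3 : ∀ e, 0 < e → e ≤ δ / (4 * (C + 1)) → mu n (P e) ≤ ENNReal.ofReal (δ * e / 2) := by
    intro e h1 h2
    refine (measure_union_le _ _).trans ((add_le_add (hC e h1.le) ((measure_iUnion_le _).trans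
      ((ENNReal.tsum_le_tsum fun t => T.mu_pev m _ _ _ _ h1.le (s1 t).measurableSet).trans
        (ENNReal.tsum_mul_left.trans_le (mul_le_mul_right s5 _))))).trans ?_)
    rw [← ENNReal.ofReal_add (by positivity) (by positivity), ← ENNReal.ofReal_mul (by positivity),
      ← ENNReal.ofReal_add (by positivity) (by positivity)]
    refine ENNReal.ofReal_le_ofReal ?_
    rw [le_div_iff₀ (by positivity)] at h2
    nlinarith [mul_le_mul_of_nonneg_right h2 h1.le, sq_nonneg e]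
  refine ⟨⋃ t ∈ Φ, A t, ρ, δ / (4 * (C + 1)), fun e => P e ∪ T.dag ⁻¹' P e,
    Φ.isCompact_biUnion fun t _ => a1 t, r0, by positivity, ?_, fun e h1 h2 => ?_, ?_, ?_, ?_, ?_⟩
  · simp only [disjoint_left, mem_iUnion, mem_image]
    rintro _ ⟨t, -, θ, h, rfl⟩ ⟨_, ⟨t', -, θ', h', rfl⟩, e⟩
    exact s3 t θ h _ _ _ _ ⟨s2 t h, θ', s2 t' h', e.symm⟩
  · refine (measure_union_le _ _).trans ((add_le_add (p3 e h1 h2) (le_trans ?_ (p3 e h1 h2))).trans ?_)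
    · conv_rhs => rw [← T.measurePreserving_dag.map_eq]
      exact Measure.le_map_apply T.continuous_dag.measurable.aemeasurable _
    · rw [← ENNReal.ofReal_add (by positivity) (by positivity), add_halves]
  · rintro e e' v - h (⟨k, l, τ, h1, h2, h3⟩ | h1)
    · exact (p2 e e' v k l τ h h1).imp Or.inl fun h4 => ⟨_, ⟨_, h4, rfl⟩, h2, h3⟩
    · exact Or.inl (Or.inl (p1 e e' v h h1))
  · rintro e e' v - h (⟨k, l, τ, h1, h2, h3⟩ | h1)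
    · exact (p2 e e' _ k l τ h h1).imp Or.inr fun h4 => ⟨_, h4, h2, h3⟩
    · exact Or.inl (Or.inr (p1 e e' _ h h1))
  · rintro _ ⟨q, hq, rfl⟩ _ ⟨q', hq', rfl⟩ e hd hv
    obtain ⟨t, ht, h⟩ := mem_iUnion₂.1 hq
    obtain ⟨t', ht', h'⟩ := mem_iUnion₂.1 hq'
    obtain ⟨rfl, f1, f2⟩ := r1 t ht t' ht' _ ⟨q, h, rfl⟩ _ ⟨q', h', rfl⟩ e hd
    obtain ⟨θ, h, rfl⟩ := h
    obtain ⟨θ', h', rfl⟩ := h'
    exact T.anti_same (s2 t h) (s2 t h') rfl rfl f1 f2 hv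
  · intro q hq q' hq' e hd
    obtain ⟨t, ht, h⟩ := mem_iUnion₂.1 hq
    obtain ⟨t', ht', h'⟩ := mem_iUnion₂.1 hq'
    obtain ⟨rfl, f1, f2⟩ := r2 t ht t' ht' _ h _ h' e hd
    obtain ⟨θ, h, rfl⟩ := h
    obtain ⟨θ', h', rfl⟩ := h'
    exact T.post_same (s2 t h) (s2 t h') rfl rfl f1 f2

end Tab

end Pool.Agent.P.MP_379466_co
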