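import Pool.Agent.P.MP_379466_co.Chain

/-!
Geometry of the images of tangent lines.
-/

set_option autoImplicit false

namespace Pool.Agent.P.MP_379466_co

open Set Metric Filter
open scoped Topology

namespace TailA

theorem sg_cases (τ : Bool) : sg τ = 1 ∨ sg τ = -1 := by cases τ <;> simp [sg]

theorem neg_cases {s : ℝ} (hs : s = 1 ∨ s = -1) : -s = 1 ∨ -s = -1 := by
  rcases hs with rfl | rfl <;> simp

theorem pow_cases {s : ℝ} (hs : s = 1 ∨ s = -1) (k : ℕ) :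
    (-1) ^ k * s = 1 ∨ (-1) ^ k * s = -1 := by
  rcases neg_one_pow_eq_or ℝ k with h | h <;> rcases hs with rfl | rfl <;> simp [h]

theorem ip_neg_neg (a b : ℂ) : ip (-a) (-b) = ip a b := by simp [ip]

theorem ip_neg_left (a b : ℂ) : ip (-a) b = -ip a b := by simp [ip]; ring

theorem ip_neg_right (a b : ℂ) : ip a (-b) = -ip a b := by simp [ip]; ring

theorem eq_of_dL {l₁ l₂ : Ln} (h : dL l₁ l₂ ≤ 0) : l₁ = l₂ := by
  refine Prod.ext (dir_inj ?_) ?_
  · exact sub_eq_zero.1 (norm_le_zero_iff.1 ((dir_le_dL _ _).trans h))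
  · exact sub_eq_zero.1 (abs_nonpos_iff.1 ((snd_le_dL _ _).trans h))

theorem eq_of_cr {a b : Ang} (h : cr (dir a) (dir b) = 0) (hd : ‖dir a - dir b‖ ≤ 1) : a = b := by
  have h1 := ip_sq_add_cr_sq (dir a) (dir b)
  have h2 : ‖dir a - dir b‖ ^ 2 = 2 - 2 * ip (dir a) (dir b) := by
    have ha := unit_sq (norm_dir a)
    have hb := unit_sq (norm_dir b)
    rw [← ip_self]
    simp only [ip, Complex.sub_re, Complex.sub_im]
    linarith
  rw [norm_dir, norm_dir, h] at h1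
  have h3 : ‖dir a - dir b‖ ^ 2 ≤ 1 := by nlinarith [norm_nonneg (dir a - dir b)]
  have h4 : ip (dir a) (dir b) = 1 := by nlinarith
  rw [h4] at h2
  exact dir_inj (sub_eq_zero.1 (norm_eq_zero.1 (pow_eq_zero_iff two_ne_zero |>.1 (by linarith))))

/-- uniform closeness on compact sets -/
theorem unif {n : ℕ} {A B : Set (St n)} (hA : IsCompact A) (hB : IsCompact B)
    {O : Set (St n × St n)} (hO : IsOpen O) (h : ∀ q ∈ A, q ∈ B → (q, q) ∈ O) :
    ∀ᶠ ρ in 𝓝[>] (0 : ℝ), ∀ q ∈ A, ∀ q' ∈ B, q'.1 = q.1 → dL q.2 q'.2 < ρ → (q, q') ∈ O := by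
  have hc : IsCompact ((A ×ˢ B ∩ {p | p.2.1 = p.1.1}) \ O) :=
    ((hA.prod hB).inter_right (isClosed_eq (by fun_prop) (by fun_prop))).diff hO
  obtain ⟨ρ, h0, h1⟩ := hc.exists_forall_le' (f := fun p => dL p.1.2 p.2.2) (a := 0)
    (Continuous.continuousOn (by fun_prop)) (by
      rintro ⟨q, q'⟩ ⟨⟨⟨h1, h2⟩, h3⟩, h4⟩
      by_contra h5
      obtain rfl : q = q' := Prod.ext h3.symm (eq_of_dL (not_lt.1 h5))
      exact h4 (h q h1 h2))
  filter_upwards [Ioo_mem_nhdsGT h0] with ρ' hρ q hq q' hq' e hd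
  by_contra h5
  exact absurd (h1 (q, q') ⟨⟨⟨hq, hq'⟩, e⟩, h5⟩) (not_le.2 (hd.trans hρ.2))

end TailA

open TailA

namespace Table

variable {n : ℕ} (T : Table (Fin n))

/-- The tangent line. -/
noncomputable abbrev tl (l : Fin n) (τ : Bool) (θ : Ang) : Ln := tanL (T.K l) (sg τ) θ

theorem tl_meets (l : Fin n) (τ : Bool) (θ : Ang) : Meets (T.K l) (T.tl l τ θ) :=
  tanL_meets (T.b l).cpt ((T.b l).int_ne.mono interior_subset) (sg_cases τ) θ

theorem tl_side (l : Fin n) (τ : Bool) (θ : Ang) : ∀ z ∈ T.K l, 0 ≤ sg τ * sd (T.tl l τ θ) z :=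
  tanL_side (T.b l).cpt (sg_cases τ) θ

theorem tl_not_cross (l : Fin n) (τ : Bool) (θ : Ang) : ¬ Cross (T.K l) (T.tl l τ θ) := by
  rintro ⟨⟨z, hz, h1⟩, w, hw, h2⟩
  have h3 := T.tl_side l τ θ z hz
  have h4 := T.tl_side l τ θ w hw
  rcases sg_cases τ with h | h <;> rw [h] at h3 h4 <;> linarith

theorem continuous_post (l : Fin n) (τ : Bool) (i : Fin n) : Continuous (T.post l τ i) :=
  continuous_const.prodMk ((continuous_refl _).comp (continuous_tanL (T.b l).cpt _))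

theorem dag_post (l : Fin n) (τ : Bool) (i : Fin n) (θ : Ang) :
    T.dag (T.post l τ i θ) = (i, rev (T.tl l τ θ)) :=
  Prod.ext rfl (refl_rev_refl _ _)

theorem free_ip_rev {l i : Fin n} {y : Ln} (h : T.Free l y i) :
    0 < ip (T.ν i l) (dir (rev y).1) := by
  rw [dir_rev, T.ν_anti l i, ip_neg_neg]
  exact h.2.2.1

theorem rev_tl_not_dom {l i : Fin n} {τ : Bool} {θ : Ang} (h : T.Free l (T.tl l τ θ) i) :
    (i, rev (T.tl l τ θ)) ∉ T.Dom := by
  rintro ⟨j, -, h1, h2, h3, h4⟩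
  have hj : j ≠ l := by
    rintro rfl
    exact T.tl_not_cross _ _ _ ((cross_rev _ _).1 h2)
  simp only at h1 h2 h3 h4
  by_cases h5 : 0 ≤ ip (T.ν l j) (dir (rev (T.tl l τ θ)).1)
  · exact h4 l h.1 hj.symm (T.free_ip_rev h).le h5 ((meets_rev _ _).2 (T.tl_meets _ _ _))
  · rw [dir_rev, ip_neg_right] at h5 h3
    refine h.2.2.2 j hj h1.symm (by linarith) ?_ (((cross_rev _ _).1 h2).meets (T.b j).cvx)
    rw [T.ν_anti i j, ip_neg_left]
    exact h3.le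

theorem tl_unique {l l' i : Fin n} {τ τ' : Bool} {θ θ' : Ang} (h : T.Free l (T.tl l τ θ) i)
    (h' : T.Free l' (T.tl l' τ' θ') i) (e : T.tl l τ θ = T.tl l' τ' θ') : l = l' ∧ τ = τ' := by
  obtain rfl : l = l' := by
    by_contra hne
    rcases le_total 0 (ip (T.ν l l') (dir (T.tl l τ θ).1)) with h1 | h1
    · refine h.2.2.2 l' (Ne.symm hne) h'.1 h1 ?_ ?_ <;> rw [e]
      · exact h'.2.2.1.le
      · exact T.tl_meets _ _ _
    · refine h'.2.2.2 l hne h.1 ?_ ?_ ?_ <;> rw [← e]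
      · rw [T.ν_anti l l', ip_neg_left]; linarith
      · exact h.2.2.1.le
      · exact T.tl_meets _ _ _
  refine ⟨rfl, by_contra fun hne => ?_⟩
  obtain ⟨z, hz⟩ := (T.b l).int_ne
  refine T.tl_not_cross l τ θ (cross_of_interior hz ?_)
  have h1 := T.tl_side l τ θ z (interior_subset hz)
  have h2 := T.tl_side l τ' θ' z (interior_subset hz)
  rw [← e] at h2
  cases τ <;> cases τ' <;> simp only [sg, if_true, Bool.false_eq_true, if_false] at h1 h2
  · exact absurd rfl hne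
  · linarith
  · linarith
  · exact absurd rfl hne

/-- the orbit of the reversed end point leads back to the tangent line -/
theorem back {k : ℕ} {l i : Fin n} {τ : Bool} {θ : Ang} (h : T.post l τ i θ ∈ T.DomN k) :
    T.dag (T.F^[k] (T.post l τ i θ)) ∈ T.DomN k ∧
      T.F^[k] (T.dag (T.F^[k] (T.post l τ i θ))) = (i, rev (T.tl l τ θ)) := by
  refine ⟨(T.dag_iter h).1, ?_⟩
  rw [(T.dag_iter h).2 k le_rfl, Nat.sub_self, Function.iterate_zero_apply, dag_post]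

theorem type_unique {m k k' : ℕ} {l l' i i' : Fin n} {τ τ' : Bool} {θ θ' : Ang}
    (h : θ ∈ T.Th m k l τ i) (h' : θ' ∈ T.Th m k' l' τ' i')
    (e : T.F^[k] (T.post l τ i θ) = T.F^[k'] (T.post l' τ' i' θ')) :
    (k, l, τ, i) = (k', l', τ', i') := by
  obtain ⟨h1, h2⟩ := T.back h.2.1
  obtain ⟨h3, h4⟩ := T.back h'.2.1
  rw [← e] at h3 h4
  obtain rfl : k = k' := by
    rcases lt_trichotomy k k' with hk | hk | hk
    · exact absurd (h2 ▸ h3 k hk) (T.rev_tl_not_dom h.1)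
    · exact hk
    · exact absurd (h4 ▸ h1 k' hk) (T.rev_tl_not_dom h'.1)
  rw [h2, Prod.mk.injEq] at h4
  obtain ⟨rfl, h5⟩ := h4
  have h6 := congrArg rev h5
  rw [rev_rev, rev_rev] at h6
  obtain ⟨rfl, rfl⟩ := T.tl_unique h.1 h'.1 h6
  rfl

end Table

namespace Tab

variable {n : ℕ} (T : Tab n)

theorem tail_δ1_pos : 0 < T.δ1 := by linarith [T.δ2_pos, T.δ2_le]

theorem sd_small {l : Fin n} {y y' : Ln} (hd : dL y y' ≤ T.δ1) {z : ℂ} (hz : z ∈ T.K l)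
    (h0 : sd y' z = 0) : |sd y z| ≤ T.r / 8 := by
  have h1 := T.abs_Dv_le (Or.inl rfl) y y' (T.K_sub_B l hz)
  rw [Dv, h0, sub_zero, one_mul] at h1
  have h2 := T.δ1_small
  have h3 := T.D_ge
  have := T.r_pos
  nlinarith

/-- two nearby tangent lines diverge after the body -/
theorem tl_div (l : Fin n) (τ : Bool) {θ θ' : Ang} (hd : dL (T.tl l τ θ) (T.tl l τ θ') ≤ T.δ1) :
    ∃ s : ℝ, (s = 1 ∨ s = -1) ∧ T.Div l s (T.tl l τ θ) (T.tl l τ θ') 0 ∧
      (θ ≠ θ' → 0 < An s (T.tl l τ θ) (T.tl l τ θ')) := by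
  obtain ⟨s, hs, ha⟩ : ∃ s : ℝ, (s = 1 ∨ s = -1) ∧ 0 ≤ An s (T.tl l τ θ) (T.tl l τ θ') := by
    rcases le_total 0 (cr (dir θ) (dir θ')) with h | h
    · exact ⟨1, Or.inl rfl, by simpa [An, tanL] using h⟩
    · exact ⟨-1, Or.inr rfl, by simpa [An, tanL] using h⟩
  have hr : |(0 : ℝ)| ≤ T.r / 8 := by rw [abs_zero]; linarith [T.r_pos]
  refine ⟨s, hs, ⟨ha, ?_⟩, fun hne => lt_of_le_of_ne ha fun h0 => hne ?_⟩
  · obtain ⟨z, hz, h0⟩ := T.tl_meets l τ θ
    obtain ⟨z', hz', h0'⟩ := T.tl_meets l τ θ'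
    have h1 := T.tl_side l τ θ z' hz'
    have h2 := T.tl_side l τ θ' z hz
    by_cases h : s = sg τ
    · refine ⟨z', T.K_sub_B l hz', T.sd_small hd hz' h0', h0' ▸ hr, ?_⟩
      rw [Dv, h0', sub_zero, h]
      exact h1
    · have h3 : s = -sg τ := by
        rcases hs with rfl | rfl <;> rcases sg_cases τ with h' | h' <;> simp_all
      refine ⟨z, T.K_sub_B l hz, h0 ▸ hr, T.sd_small (dL_comm _ _ ▸ hd) hz h0, ?_⟩
      rw [Dv, h0, h3]
      linarith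
  · refine eq_of_cr ?_ (((dir_le_dL (T.tl l τ θ) (T.tl l τ θ')).trans hd).trans T.δ1_le_one)
    rcases hs with rfl | rfl <;> simpa [An, tanL] using h0.symm

theorem start {l i : Fin n} {τ : Bool} {θ θ' : Ang} (h : T.Free l (T.tl l τ θ) i)
    (h' : T.Free l (T.tl l τ θ') i) (hd : dL (T.tl l τ θ) (T.tl l τ θ') ≤ T.δ1) :
    ∃ s : ℝ, (s = 1 ∨ s = -1) ∧ T.InRel i s (T.tl l τ θ) (T.tl l τ θ') 0 ∧
      T.Div i (-s) (T.post l τ i θ).2 (T.post l τ i θ').2 0 ∧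
      (θ ≠ θ' → 0 < An (-s) (T.post l τ i θ).2 (T.post l τ i θ').2) := by
  obtain ⟨s, hs, h1, h2⟩ := T.tl_div l τ hd
  obtain ⟨a1, a2, a3, a4, a5⟩ := T.flight_in hs hd h1 h h'.2.1
  have h3 := mul_nonneg T.r_pos.le a3
  have h4 : T.InRel i s (T.tl l τ θ) (T.tl l τ θ') 0 := ⟨a1, a2, a3, by linarith, by linarith⟩
  obtain ⟨h5, h6, -⟩ := T.reflect hs hd h4 le_rfl
  exact ⟨s, hs, h4, h6, fun hne => (h2 hne).trans_le h5⟩

/-- two diverging lines are not both tangent to a later body on the same side -/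
theorem finish {l i : Fin n} {τ : Bool} {θ θ' : Ang} (h : T.Free l (T.tl l τ θ) i) {s W : ℝ}
    (hs : s = 1 ∨ s = -1) (hW : 0 ≤ W) (hd : dL (rev (T.tl l τ θ)) (rev (T.tl l τ θ')) ≤ T.δ1)
    (hv : T.Div i s (rev (T.tl l τ θ)) (rev (T.tl l τ θ')) W)
    (ha : 0 < An s (rev (T.tl l τ θ)) (rev (T.tl l τ θ'))) : False := by
  obtain ⟨z, hz, h0⟩ := T.tl_meets l τ θ
  obtain ⟨z', hz', h0'⟩ := T.tl_meets l τ θ'
  have h1 := T.tl_side l τ θ z' hz'
  have h2 := T.tl_side l τ θ' z hz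
  have hr := T.r_pos
  have h3 := T.flight h.1.symm hs (hd.trans T.δ1_le_one) hv (T.free_ip_rev h).le
    (T.K_sub_B l hz) (by rw [sd_rev, h0]; simp; linarith)
  have h4 := T.flight h.1.symm hs (hd.trans T.δ1_le_one) hv (T.free_ip_rev h).le
    (T.K_sub_B l hz') ((T.sd_small hd hz' (by rw [sd_rev, h0', neg_zero])).trans (by linarith))
  rw [Dv, sd_rev, sd_rev] at h3 h4
  rw [h0] at h3
  rw [h0'] at h4
  have h5 := mul_pos hr ha
  rcases hs with rfl | rfl <;> rcases sg_cases τ with e | e <;> rw [e] at h1 h2 <;> linarith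

theorem chain_finish {k : ℕ} {v w : St n} (hf : T.Fol k v w) (hn : T.Near k T.δ1 v w) {s : ℝ}
    (hs : s = 1 ∨ s = -1) (hv : T.Div v.1 s v.2 w.2 0) (ha : 0 < An s v.2 w.2)
    {l i : Fin n} {τ : Bool} {θ θ' : Ang} (h : T.Free l (T.tl l τ θ) i)
    (e : T.F^[k] v = (i, rev (T.tl l τ θ))) (e' : T.F^[k] w = (i, rev (T.tl l τ θ'))) : False := by
  obtain ⟨W, h1, h2, h3, -⟩ := T.chain 0 hs hf (fun j hj => (hn j hj.le).le) hv le_rfl
  have h4 := (hn k le_rfl).le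
  rw [e, e'] at h2 h3 h4
  exact T.finish h (pow_cases hs k) h1 h4 h2 (ha.trans_le h3)

/-- Directions whose image is also the reversed image of a tangent line. -/
def Dbl (m k : ℕ) (l : Fin n) (τ : Bool) (i : Fin n) (k' : ℕ) (l' : Fin n) (τ' : Bool)
    (i' : Fin n) : Set Ang :=
  {θ | θ ∈ T.Th m k l τ i ∧ ∃ θ' ∈ T.Th m k' l' τ' i',
    T.F^[k] (T.post l τ i θ) = T.dag (T.F^[k'] (T.post l' τ' i' θ'))}

theorem dbl_isolated {m k k' : ℕ} {l l' i i' : Fin n} {τ τ' : Bool} {θ : Ang}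
    (h : θ ∈ T.Dbl m k l τ i k' l' τ' i') : {θ} ∈ 𝓝[T.Dbl m k l τ i k' l' τ' i'] θ := by
  have key : ∀ φ ∈ T.Dbl m k l τ i k' l' τ' i', T.post l τ i φ ∈ T.DomN (k' + k) ∧
      ∃ φ', T.Free l' (T.tl l' τ' φ') i' ∧
        T.F^[k' + k] (T.post l τ i φ) = (i', rev (T.tl l' τ' φ')) := by
    rintro φ ⟨h1, φ', h2, h3⟩
    obtain ⟨h4, h5⟩ := T.back h2.2.1
    rw [← h3] at h4 h5
    refine ⟨fun j hj => ?_, φ', h2.1, by rw [Function.iterate_add_apply, h5]⟩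
    by_cases hk : j < k
    · exact h1.2.1 j hk
    · rw [show j = (j - k) + k by omega, Function.iterate_add_apply]
      exact h4 _ (by omega)
  obtain ⟨h1, θ', h2, h3⟩ := key θ h
  have hc : Continuous fun φ => (T.post l τ i θ, T.post l τ i φ) :=
    continuous_const.prodMk (T.continuous_post l τ i)
  have e1 := hc.continuousAt.eventually ((T.isOpen_folNear (k' + k) T.δ1).mem_nhds
    (x := (T.post l τ i θ, T.post l τ i θ))
    ⟨⟨h1, h1, fun _ _ => rfl⟩, fun j _ => by rw [dL_self]; exact T.tail_δ1_pos⟩)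
  have hc' : Continuous fun φ => dL (T.tl l τ θ) (T.tl l τ φ) :=
    continuous_dL continuous_const (continuous_tanL (T.b l).cpt _)
  have e2 : ∀ᶠ φ in 𝓝 θ, dL (T.tl l τ θ) (T.tl l τ φ) < T.δ1 :=
    (isOpen_lt hc' continuous_const).mem_nhds (by rw [mem_ofPred, dL_self]; exact T.tail_δ1_pos)
  filter_upwards [mem_nhdsWithin_of_mem_nhds e1, mem_nhdsWithin_of_mem_nhds e2,
    self_mem_nhdsWithin] with φ ⟨f1, f2⟩ f3 f4
  by_contra hne
  obtain ⟨-, φ', -, g3⟩ := key φ f4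
  obtain ⟨s, hs, -, g4, g5⟩ := T.start h.1.1 f4.1.1 (le_of_lt f3)
  exact T.chain_finish f1 f2 (neg_cases hs) g4 (g5 (Ne.symm hne)) h2 h3 g3

theorem anti_same {m k : ℕ} {l i : Fin n} {τ : Bool} {θ θ' : Ang} (h : θ ∈ T.Th m k l τ i)
    (h' : θ' ∈ T.Th m k l τ i) {q q' : St n} (e : q = T.dag (T.F^[k] (T.post l τ i θ)))
    (e' : q' = T.dag (T.F^[k] (T.post l τ i θ'))) (hf : T.Fol k q q') (hn : T.Near k T.δ1 q q')
    (hv : T.Div q.1 1 q.2 q'.2 0) : An 1 q.2 q'.2 ≤ 0 := by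
  by_contra ha
  exact T.chain_finish hf hn (Or.inl rfl) hv (not_le.1 ha) h.1 (e ▸ (T.back h.2.1).2)
    (e' ▸ (T.back h'.2.1).2)

theorem post_same {m k : ℕ} {l i : Fin n} {τ : Bool} {θ θ' : Ang} (h : θ ∈ T.Th m k l τ i)
    (h' : θ' ∈ T.Th m k l τ i) {q q' : St n} (e : q = T.F^[k] (T.post l τ i θ))
    (e' : q' = T.F^[k] (T.post l τ i θ')) (hf : T.Fol k (T.dag q) (T.dag q'))
    (hn : T.Near k T.δ1 (T.dag q) (T.dag q')) :
    ∃ s, (s = 1 ∨ s = -1) ∧ T.PostRel q.1 s q.2 q'.2 0 := by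
  subst e e'
  have hd := (hn k le_rfl).le
  rw [(T.back h.2.1).2, (T.back h'.2.1).2, dL_rev] at hd
  obtain ⟨s, hs, g1, g2, -⟩ := T.start h.1 h'.1 hd
  rcases k with _ | k
  · refine ⟨s, hs, ?_⟩
    simp only [Function.iterate_zero_apply, Table.post, PostRel, T.inL_refl]
    exact ⟨hd, g1⟩
  have hF : T.Fol (k + 1) (T.post l τ i θ) (T.post l τ i θ') := by
    refine ⟨h.2.1, h'.2.1, fun j hj => ?_⟩
    have := hf.2.2 (k + 1 - j) (by omega)
    rw [(T.dag_iter h.2.1).2 _ (by omega), (T.dag_iter h'.2.1).2 _ (by omega),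
      show k + 1 - (k + 1 - j) = j by omega] at this
    exact this
  obtain ⟨W, ⟨g3, g4, g5, g6, g7, g8⟩, -, g9⟩ := T.chain_post 0 (neg_cases hs) hF (fun j hj => by
    have := (hn (k - j) (by omega)).le
    rw [(T.dag_iter h.2.1).2 _ (by omega), (T.dag_iter h'.2.1).2 _ (by omega),
      show k + 1 - (k - j) = j + 1 by omega, Function.iterate_succ_apply',
      Function.iterate_succ_apply', T.dag_F (h.2.1 j (by omega)), T.dag_F (h'.2.1 j (by omega)),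
      dL_rev] at this
    exact this) g2 le_rfl
  have g10 := mul_nonneg T.r_pos.le g2.1
  have g11 : 0 ≤ W := by nlinarith [mul_nonneg (Nat.cast_nonneg (α := ℝ) k) g10]
  exact ⟨_, pow_cases (neg_cases hs) k, g3, g4, g5, g6, g11.trans g7, g11.trans g8⟩

end Tab

end Pool.Agent.P.MP_379466_co
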