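import Pool.Agent.P.MP_379466_co.TailA
import Pool.Agent.P.MP_379466_co.DynMeas

/-!
Measure of the bad events.
-/

set_option autoImplicit false

namespace Pool.Agent.P.MP_379466_co

open Set MeasureTheory Filter
open scoped Topology ENNReal

namespace TailB

theorem card_lt {p : ℕ → Prop} [DecidablePred p] {k k' : ℕ} (h : k < k') (hk : p k) :
    ((Finset.range k).filter p).card < ((Finset.range k').filter p).card := by
  refine Finset.card_lt_card ⟨Finset.filter_subset_filter _ (Finset.range_subset_range.2 h.le),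
    fun hs => ?_⟩
  have := hs (Finset.mem_filter.2 ⟨Finset.mem_range.2 h, hk⟩)
  simp at this

theorem mu_slice {n : ℕ} (i : Fin n) (A : Set Ln) : mu n ({i} ×ˢ A) = volume A := by
  rw [mu, Measure.prod_prod, Measure.count_singleton, one_mul]

theorem vol_single (θ : Ang) : volume ({θ} : Set Ang) = 0 := by
  rw [← Metric.closedBall_zero, AddCircle.volume_closedBall, mul_zero,
    min_eq_right Real.two_pi_pos.le, ENNReal.ofReal_zero]

end TailB

open TailA TailB

namespace Table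

variable {n : ℕ} (T : Table (Fin n))

theorem cnt_inj {m k k' : ℕ} {v : St n} (h : T.F^[k] v ∈ T.Mk m) (h' : T.F^[k'] v ∈ T.Mk m)
    (e : T.cnt m k v = T.cnt m k' v) : k = k' := by
  classical
  rcases lt_trichotomy k k' with hk | hk | hk
  · exact absurd e (card_lt (p := fun j => T.F^[j] v ∈ T.Mk m) hk h).ne
  · exact hk
  · exact absurd e (card_lt (p := fun j => T.F^[j] v ∈ T.Mk m) hk h').ne'

theorem measurable_cnt (m k : ℕ) : Measurable (T.cnt m k) := by
  classical
  have : T.cnt m k = fun v => ∑ j ∈ Finset.range k, if T.F^[j] v ∈ T.Mk m then 1 else 0 := by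
    funext v
    rw [cnt, Finset.card_filter]
  rw [this]
  exact Finset.measurable_fun_sum _ fun j _ => Measurable.ite
    ((T.measurable_F.iterate j) (T.measurableSet_mk m)) measurable_const measurable_const

theorem geom_ne_top (m : ℕ) : ∑' c : ℕ, ENNReal.ofReal (T.lam m ^ c)⁻¹ ≠ ∞ := by
  have h1 := T.one_lt_lam m
  rw [← ENNReal.ofReal_tsum_of_nonneg (fun c => by positivity)]
  · exact ENNReal.ofReal_ne_top
  · simp only [← inv_pow]
    exact summable_geometric_of_lt_one (by positivity) (inv_lt_one_of_one_lt₀ h1)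

theorem measurableSet_th (m k : ℕ) (l : Fin n) (τ : Bool) (i : Fin n) :
    MeasurableSet (T.Th m k l τ i) :=
  ((T.isOpen_free l i).preimage (continuous_tanL (T.b l).cpt _)).measurableSet.inter
    ((((T.isOpen_domN k).preimage (T.continuous_post l τ i)).measurableSet).inter
      (((T.measurable_F.iterate k).comp (T.continuous_post l τ i).measurable)
        (T.measurableSet_mk m)))

theorem measurable_wp (m k : ℕ) (l : Fin n) (τ : Bool) (i : Fin n) :
    Measurable fun θ => T.wt m k (T.post l τ i θ) :=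
  (T.measurable_wt m k).comp (T.continuous_post l τ i).measurable

theorem th_sum (m : ℕ) (l : Fin n) (τ : Bool) (i : Fin n) :
    ∑' k, ∫⁻ θ in T.Th m k l τ i, ENNReal.ofReal (T.wt m k (T.post l τ i θ)) ≠ ∞ := by
  simp only [← lintegral_indicator (T.measurableSet_th m _ l τ i)]
  rw [← lintegral_tsum fun k => (Measurable.indicator (T.measurable_wp m k l τ i).ennreal_ofReal
      (T.measurableSet_th m k l τ i)).aemeasurable]
  refine ne_top_of_le_ne_top ?_ (lintegral_mono
    (g := fun _ => ∑' c : ℕ, ENNReal.ofReal (T.lam m ^ c)⁻¹) fun θ => ?_)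
  · rw [lintegral_const]
    exact ENNReal.mul_ne_top (T.geom_ne_top m) (measure_ne_top _ _)
  · have h1 : ∑' k, (T.Th m k l τ i).indicator
        (fun θ => ENNReal.ofReal (T.wt m k (T.post l τ i θ))) θ =
        ∑' k : {k | θ ∈ T.Th m k l τ i}, ENNReal.ofReal (T.wt m k (T.post l τ i θ)) := by
      rw [tsum_subtype {k | θ ∈ T.Th m k l τ i}
        fun k => ENNReal.ofReal (T.wt m k (T.post l τ i θ))]
      rfl
    refine h1.trans_le (ENNReal.tsum_comp_le_tsum_of_injective
      (f := fun k : {k | θ ∈ T.Th m k l τ i} => T.cnt m k (T.post l τ i θ)) (fun k k' e => ?_)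
      fun c => ENNReal.ofReal (T.lam m ^ c)⁻¹)
    exact Subtype.ext (T.cnt_inj k.2.2.2 k'.2.2.2 e)

theorem th_sum' (m : ℕ) : ∑' t : (Fin n × Bool × Fin n) × ℕ,
    ∫⁻ θ in T.Th m t.2 t.1.1 t.1.2.1 t.1.2.2,
      ENNReal.ofReal (T.wt m t.2 (T.post t.1.1 t.1.2.1 t.1.2.2 θ)) ≠ ∞ := by
  rw [ENNReal.tsum_prod', tsum_fintype]
  exact ENNReal.sum_ne_top.2 fun t _ => T.th_sum m t.1 t.2.1 t.2.2

theorem mu_pev (m k : ℕ) (l : Fin n) (τ : Bool) (i : Fin n) {e : ℝ} (he : 0 ≤ e) {S : Set Ang}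
    (hS : MeasurableSet S) :
    mu n {v | T.PEv m e k l τ v ∧ (T.F^[k] v).1 = i ∧ (rev (T.F^[k] v).2).1 ∉ S} ≤
      ENNReal.ofReal (2 * e) *
        ∫⁻ θ in T.Th m k l τ i \ S, ENNReal.ofReal (T.wt m k (T.post l τ i θ)) := by
  have hw := T.measurable_wp m k l τ i
  have h1 := volume_strip ((T.measurableSet_th m k l τ i).diff hS) (g := fun θ => (T.tl l τ θ).2)
    (continuous_tanL (T.b l).cpt _).measurable.snd (w := fun θ => e * T.wt m k (T.post l τ i θ))
    (hw.const_mul e)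
  rw [← lintegral_const_mul _ hw.ennreal_ofReal]
  simp only [← ENNReal.ofReal_mul (by positivity : 0 ≤ 2 * e), mul_assoc]
  rw [← h1, ← measurePreserving_rev.map_eq]
  refine le_trans ?_ (Measure.le_map_apply measurePreserving_rev.measurable.aemeasurable _)
  rw [← mu_slice i]
  refine le_trans (measure_mono ?_) (T.mu_preimage_le k _)
  rintro v ⟨⟨h2, h3, h4⟩, rfl, h5⟩
  exact ⟨h2, rfl, ⟨h3, h5⟩, h4⟩

/-- states whose next collision is grazing -/
def Gz (ψ : ℝ) : Set (St n) :=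
  {x | x ∈ T.Dom ∧ |ip (dir x.2.1) ((T.b (T.F x).1).N (enP (T.K (T.F x).1) x.2))| ≤ ψ}

theorem measurableSet_gz {X : Type} [MeasurableSpace X] {f : X → St n} {ψ : X → ℝ}
    (hf : Measurable f) (hψ : Measurable ψ) : MeasurableSet {x | f x ∈ T.Gz (ψ x)} := by
  have : {x | f x ∈ T.Gz (ψ x)} =
      f ⁻¹' T.Dom ∩ {x | ‖dir (T.F (f x)).2.1 - dir (f x).2.1‖ ≤ 2 * ψ x} := by
    ext x
    refine and_congr_right fun h => ?_
    obtain ⟨h1, h2⟩ := T.hit_F h
    rw [mem_ofPred, h2, dir_refl h1.2.2.1, sub_sub_cancel_left, norm_neg, norm_smul,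
      (T.b _).N_norm _ (enP_frontier (T.b _).cpt (h1.2.2.1.meets (T.b _).cvx)), mul_one,
      Real.norm_eq_abs, abs_mul, abs_two]
    constructor <;> intro h <;> linarith
  rw [this]
  refine (hf T.isOpen_dom.measurableSet).inter (measurableSet_le ?_ (hψ.const_mul 2))
  exact ((continuous_dir.measurable.comp (T.measurable_F.comp hf).snd.fst).sub
    (continuous_dir.measurable.comp hf.snd.fst)).norm

theorem mu_gz : ∃ C : ℝ, 0 ≤ C ∧ ∀ ψ, 0 ≤ ψ → mu n (T.Gz ψ) ≤ ENNReal.ofReal (C * ψ ^ 2) := by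
  choose C h0 hC using fun j => volume_graze (T.b j)
  refine ⟨∑ p : Fin n × Fin n, C p.2, Finset.sum_nonneg fun p _ => h0 _, fun ψ hψ => ?_⟩
  rw [Finset.sum_mul, ENNReal.ofReal_sum_of_nonneg fun p _ => mul_nonneg (h0 _) (sq_nonneg _)]
  refine le_trans (measure_mono (t := ⋃ p : Fin n × Fin n, {p.1} ×ˢ {l : Ln | Cross (T.K p.2) l ∧
    |ip (dir l.1) ((T.b p.2).N (enP (T.K p.2) l))| ≤ ψ}) ?_) ((measure_iUnion_fintype_le _ _).trans
      (Finset.sum_le_sum fun p _ => ?_))
  · rintro x ⟨h1, h2⟩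
    exact mem_iUnion.2 ⟨(x.1, (T.F x).1), rfl, (T.hit_F h1).1.2.2.1, h2⟩
  · rw [mu_slice]
    exact hC _ ψ hψ

theorem gev_iff {m k : ℕ} {ε : ℝ} {v : St n} : T.GEv m ε k v ↔ v ∈ T.DomN k ∧ v ∈ T.Mk m ∧
    T.F^[k] v ∈ T.Gz (ε * T.wt m k (T.dag (T.F^[k] v))) := by
  rw [GEv, T.domN_succ', Function.iterate_succ_apply', Gz, mem_ofPred]
  tauto

theorem mu_badG (m : ℕ) : ∃ C : ℝ, 0 ≤ C ∧ ∀ e, 0 ≤ e →
    mu n (T.BadG m e) ≤ ENNReal.ofReal (C * e ^ 2) := by
  obtain ⟨C, h0, hC⟩ := T.mu_gz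
  have h1 := T.one_lt_lam m
  refine ⟨C * (∑' c : ℕ, ENNReal.ofReal (T.lam m ^ c)⁻¹).toReal, by positivity, fun e he => ?_⟩
  set X : ℕ → ℕ → Set (St n) := fun c k => T.Gz (e * (T.lam m ^ c)⁻¹) ∩
    {x | T.F^[k] (T.dag x) ∈ T.Mk m ∧ T.cnt m k (T.dag x) = c} with hX
  have h2 : T.BadG m e ⊆ ⋃ c, ⋃ k, T.DomN k ∩ T.F^[k] ⁻¹' X c k := by
    rintro v ⟨k, hk⟩
    obtain ⟨h3, h4, h5⟩ := T.gev_iff.1 hk
    refine mem_iUnion₂.2 ⟨_, k, h3, h5, ?_, rfl⟩
    rw [(T.dag_iter h3).2 k le_rfl, Nat.sub_self, Function.iterate_zero_apply, mk_dag]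
    exact h4
  refine (measure_mono h2).trans ((measure_iUnion_le _).trans ?_)
  rw [mul_right_comm, ENNReal.ofReal_mul (by positivity), ENNReal.ofReal_toReal (T.geom_ne_top m),
    ← ENNReal.tsum_mul_left]
  refine ENNReal.tsum_le_tsum fun c => (measure_iUnion_le _).trans ?_
  refine (ENNReal.tsum_le_tsum fun k => T.mu_preimage_le k _).trans ?_
  have hd := T.continuous_dag.measurable
  rw [← measure_iUnion]
  · refine (measure_mono (iUnion_subset fun k => inter_subset_left)).trans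
      ((hC _ (by positivity)).trans ?_)
    rw [← ENNReal.ofReal_mul (by positivity), mul_pow, ← mul_assoc]
    refine ENNReal.ofReal_le_ofReal (mul_le_mul_of_nonneg_left ?_ (by positivity))
    have h3 : (T.lam m ^ c)⁻¹ ≤ 1 := inv_le_one_of_one_le₀ (one_le_pow₀ h1.le)
    have h4 : 0 < (T.lam m ^ c)⁻¹ := by positivity
    nlinarith
  · intro k k' hk
    refine disjoint_left.2 fun x h3 h4 => hk ?_
    exact T.cnt_inj h3.2.1 h4.2.1 (h3.2.2.trans h4.2.2.symm)
  · intro k
    exact (T.measurableSet_gz measurable_id measurable_const).inter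
      ((((T.measurable_F.iterate k).comp hd) (T.measurableSet_mk m)).inter
        (((T.measurable_cnt m k).comp hd) (measurableSet_singleton c)))

end Table

namespace Tab

variable {n : ℕ} (T : Tab n)

theorem measurableSet_badP (m : ℕ) (ε : ℝ) : MeasurableSet (T.BadP m ε) := by
  have : T.BadP m ε = ⋃ k, ⋃ l, ⋃ τ, ⋃ i, {v | (T.F^[k] v).1 = i ∧ (v ∈ T.DomN k ∧
      (rev (T.F^[k] v).2).1 ∈ T.Th m k l τ i ∧
      |(rev (T.F^[k] v).2).2 - (T.tl l τ (rev (T.F^[k] v).2).1).2| ≤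
        ε * T.wt m k (T.post l τ i (rev (T.F^[k] v).2).1)) ∧
      (T.F^[k] (T.post l τ i (rev (T.F^[k] v).2).1)).1 = v.1 ∧
      dL v.2 (T.dag (T.F^[k] (T.post l τ i (rev (T.F^[k] v).2).1))).2 ≤ ε} := by
    ext v
    simp only [mem_iUnion, mem_ofPred]
    exact ⟨fun ⟨k, l, τ, h⟩ => ⟨k, l, τ, _, rfl, h⟩, fun ⟨k, l, τ, i, h, h'⟩ => by
      subst h; exact ⟨k, l, τ, h'⟩⟩
  rw [this]
  refine .iUnion fun k => .iUnion fun l => .iUnion fun τ => .iUnion fun i => ?_
  have h1 := T.measurable_F.iterate k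
  have h2 : Measurable fun v => rev (T.F^[k] v).2 := continuous_rev.measurable.comp h1.snd
  have h3 := (T.continuous_post l τ i).measurable.comp h2.fst
  have h4 := h1.comp h3
  have h5 := measurableSet_le ((continuous_dL continuous_fst continuous_snd).measurable.comp
    (measurable_snd.prodMk (T.continuous_dag.measurable.comp h4).snd)) (measurable_const (a := ε))
  have h6 := measurableSet_le
    (h2.snd.sub ((continuous_tanL (T.b l).cpt (sg τ)).measurable.comp h2.fst).snd).abs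
    (((T.measurable_wt m k).comp h3).const_mul ε)
  exact (h1.fst (measurableSet_singleton i)).inter (.inter ((T.isOpen_domN k).measurableSet.inter
    (.inter (h2.fst (T.measurableSet_th m k l τ i)) h6))
    (.inter (measurableSet_eq_fun h4.fst measurable_fst) h5))

theorem measurableSet_badG (m : ℕ) (ε : ℝ) : MeasurableSet (T.BadG m ε) := by
  have : T.BadG m ε = ⋃ k, T.DomN k ∩ (T.Mk m ∩
      {v | T.F^[k] v ∈ T.Gz (ε * T.wt m k (T.dag (T.F^[k] v)))}) := by
    ext v
    simp only [Table.BadG, mem_iUnion, mem_ofPred, T.gev_iff, mem_inter_iff]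
  rw [this]
  refine .iUnion fun k => (T.isOpen_domN k).measurableSet.inter ((T.measurableSet_mk m).inter ?_)
  have h1 := T.measurable_F.iterate k
  exact T.measurableSet_gz h1
    (((T.measurable_wt m k).comp (T.continuous_dag.measurable.comp h1)).const_mul ε)

theorem volume_dbl (m k : ℕ) (l : Fin n) (τ : Bool) (i : Fin n) :
    volume (⋃ t : ℕ × Fin n × Bool × Fin n, T.Dbl m k l τ i t.1 t.2.1 t.2.2.1 t.2.2.2) = 0 :=
  measure_iUnion_null fun _ => measure_null_of_locally_null _ fun _ h =>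
    ⟨_, T.dbl_isolated h, vol_single _⟩

end Tab

end Pool.Agent.P.MP_379466_co
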